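import Pool.Agent.Lib.BA.Blue

/-! Block APX: the two centre finite volume approximation. -/

open Finset

namespace Pool.Agent.BA

namespace APXB

/-- sup distance -/
def ds (x u : V) : ℕ := max (u.1 - x.1).natAbs (u.2 - x.2).natAbs

theorem mem_iff {x u : V} {r : ℕ} : u ∈ boxAt x r ↔ ds x u ≤ r := by
  rw [mem_boxAt, ds]; omega

theorem box_sub (x : V) {r r' : ℕ} (h : r ≤ r') : boxAt x r ⊆ boxAt x r' := fun _ hu =>
  mem_iff.2 ((mem_iff.1 hu).trans h)

theorem nbr_sum (x u : V) : ∑ y ∈ nbrs u, (1 / 2 : ℝ) ^ ds x y ≤ 8 * (1 / 2) ^ ds x u := by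
  have h1 : ∀ y ∈ nbrs u, (1 / 2 : ℝ) ^ ds x y ≤ 2 * (1 / 2) ^ ds x u := by
    intro y hy
    have h2 : ds x u ≤ ds x y + 1 := by
      simp only [nbrs, mem_insert, mem_singleton] at hy
      rcases hy with rfl | rfl | rfl | rfl <;> simp only [ds, Prod.fst_add, Prod.snd_add] <;> omega
    have h3 : (1 / 2 : ℝ) ^ (ds x y + 1) ≤ (1 / 2) ^ ds x u :=
      pow_le_pow_of_le_one (by norm_num) (by norm_num) h2
    rw [pow_succ] at h3
    linarith
  have h4 : ((nbrs u).card : ℝ) ≤ 4 := by exact_mod_cast (Finset.card_le_four : (nbrs u).card ≤ 4)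
  refine (sum_le_card_nsmul _ _ _ h1).trans ?_
  rw [nsmul_eq_mul]
  have : (0 : ℝ) ≤ (1 / 2) ^ ds x u := by positivity
  nlinarith

theorem iter (hosc : St_OSC) {f : Cfg → ℝ} {x : V} {r0 r : ℕ} {h : ℝ} (hr : r0 ≤ r) (h0 : 0 ≤ h)
    (h1 : h * (boxAt x r).card ≤ 1) (hf : DepOn f (boxAt x r0)) (hb : ∀ σ, |f σ| ≤ 1) (i : ℕ) :
    DepOn ((eul h (boxAt x r))^[i] f) (boxAt x (r + 1)) ∧
      (∀ σ, |(eul h (boxAt x r))^[i] f σ| ≤ 1) ∧
      Osc ((eul h (boxAt x r))^[i] f) fun u => (1 + 8 * h) ^ i * 2 * 2 ^ r0 * (1 / 2) ^ ds x u := by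
  induction i with
  | zero =>
    refine ⟨hf.mono (box_sub x (by omega)), hb, fun u σ => ?_⟩
    simp only [Function.iterate_zero, id, pow_zero, one_mul]
    by_cases hu : u ∈ boxAt x r0
    · have h2 : (1 / 2 : ℝ) ^ r0 ≤ (1 / 2) ^ ds x u :=
        pow_le_pow_of_le_one (by norm_num) (by norm_num) (mem_iff.1 hu)
      have h3 : (2 : ℝ) ^ r0 * (1 / 2) ^ r0 = 1 := by rw [← mul_pow]; norm_num
      have h4 : (0 : ℝ) ≤ 2 ^ r0 := by positivity
      have h5 := abs_sub (f (flp σ u)) (f σ)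
      nlinarith [hb (flp σ u), hb σ, mul_le_mul_of_nonneg_left h2 h4]
    · rw [hf.flp_eq σ hu, sub_self, abs_zero]
      positivity
  | succ i ih =>
    obtain ⟨a1, a2, a3⟩ := hosc h (boxAt x r) ((eul h (boxAt x r))^[i] f) h0 h1
    rw [Function.iterate_succ_apply']
    refine ⟨a3 x r subset_rfl ih.1, a1 1 ih.2.1, fun u σ => (a2 _ ih.2.2 u σ).trans ?_⟩
    simp only [← mul_sum]
    have h2 := mul_le_mul_of_nonneg_left (nbr_sum x u)
      (show 0 ≤ h * ((1 + 8 * h) ^ i * 2 * 2 ^ r0) by positivity)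
    rw [pow_succ]
    nlinarith

theorem shell {g : Cfg → ℝ} {x : V} {r : ℕ} {B : ℝ} (hB : 0 ≤ B) (hg : DepOn g (boxAt x (r + 1)))
    (ho : Osc g fun u => B * (1 / 2) ^ ds x u) (σ : Cfg) :
    |genOn (boxAt x r) g σ - gen g σ| ≤ (2 * r + 3) ^ 2 * (B / 2 / 2 ^ r) := by
  classical
  rw [hg.gen_eq, genOn, genOn, ← sum_sdiff (box_sub x r.le_succ), abs_sub_comm, add_sub_cancel_right]
  refine (abs_sum_le_sum_abs _ _).trans ((sum_le_card_nsmul _ _ (B / 2 / 2 ^ r) fun y hy => ?_).trans ?_)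
  · obtain ⟨h1, h2⟩ := mem_sdiff.1 hy
    have h3 : ds x y = r + 1 := by rw [mem_iff] at h1 h2; omega
    have h4 := ho y σ
    simp only [h3] at h4
    rw [abs_mul, abs_of_nonneg (rate_nonneg σ y)]
    refine (mul_le_of_le_one_left (abs_nonneg _) (rate_le_one σ y)).trans (h4.trans (le_of_eq ?_))
    rw [one_div_pow, pow_succ]
    field_simp
  · rw [nsmul_eq_mul]
    refine mul_le_mul_of_nonneg_right ?_ (by positivity)
    have := (card_le_card (sdiff_subset (s := boxAt x (r + 1)) (t := boxAt x r))).trans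
      (card_boxAt x (r + 1)).le
    exact_mod_cast this

theorem genOn_le {g : Cfg → ℝ} (S : Finset V) (hb : ∀ σ, |g σ| ≤ 1) (σ : Cfg) :
    |genOn S g σ| ≤ S.card * 2 := by
  refine (abs_sum_le_sum_abs _ _).trans ((sum_le_card_nsmul _ _ 2 fun y _ => ?_).trans (by simp))
  rw [abs_mul, abs_of_nonneg (rate_nonneg σ y)]
  refine (mul_le_of_le_one_left (abs_nonneg _) (rate_le_one σ y)).trans ((abs_sub _ _).trans ?_)
  linarith [hb (flp σ y), hb σ]

end APXB

open APXB in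
theorem st_apx (hosc : St_OSC) (heuler : St_EULER) : St_APX := by
  classical
  intro f1 f2 x1 x2 r0 r t ε hr ht hε hf1 hf2 hb1 hb2 hd
  obtain ⟨C, hC, hE⟩ := heuler (boxAt x1 (r + 1) ∪ boxAt x2 (r + 1))
  set P : ℝ := (((2 * r + 1) ^ 2 : ℕ) : ℝ) with hP
  have hP0 : 0 ≤ P := Nat.cast_nonneg _
  obtain ⟨k, hk⟩ := exists_nat_gt (t * P + t ^ 2 * (4 * P ^ 2 + C) / ε)
  have q1 : 0 ≤ t * P := by positivity
  have q2 : 0 ≤ t ^ 2 * (4 * P ^ 2 + C) / ε := by positivity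
  have hk0 : (0 : ℝ) < k := by linarith
  obtain ⟨h, h0, hh⟩ : ∃ h : ℝ, 0 ≤ h ∧ k * h = t := ⟨t / k, by positivity, by field_simp⟩
  have h1 : h * P ≤ 1 := le_of_mul_le_mul_left (by rw [← mul_assoc, hh]; linarith) hk0
  have h2 : t * (h * (4 * P ^ 2 + C)) ≤ ε := by
    have : t ^ 2 * (4 * P ^ 2 + C) ≤ k * ε := (div_le_iff₀ hε).1 (by linarith)
    refine le_of_mul_le_mul_left ?_ hk0
    calc _ = k * h * t * (4 * P ^ 2 + C) := by ring
      _ ≤ _ := by rw [hh, ← sq]; exact this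
  have I1 := iter hosc hr h0 (by rw [card_boxAt]; exact h1) hf1 hb1
  have I2 := iter hosc hr h0 (by rw [card_boxAt]; exact h1) hf2 hb2
  set E : ℝ := (2 * r + 3) ^ 2 * Real.exp (8 * t) * 2 ^ r0 / 2 ^ r with hE'
  have hE0 : 0 ≤ E := by positivity
  have sh' : ∀ {g : Cfg → ℝ} {x : V} {i : ℕ}, i < k → DepOn g (boxAt x (r + 1)) →
      (Osc g fun u => (1 + 8 * h) ^ i * 2 * 2 ^ r0 * (1 / 2) ^ ds x u) →
      ∀ σ, |genOn (boxAt x r) g σ - gen g σ| ≤ E := by
    intro g x i hi a1 a2 σ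
    refine (shell (by positivity) a1 a2 σ).trans ?_
    have a3 : (1 + 8 * h) ^ i ≤ Real.exp (8 * t) :=
      calc _ ≤ (1 + 8 * h) ^ k := pow_le_pow_right₀ (by linarith) hi.le
        _ ≤ Real.exp (8 * h) ^ k :=
          pow_le_pow_left₀ (by positivity) (by linarith [Real.add_one_le_exp (8 * h)]) k
        _ = _ := by rw [← Real.exp_nat_mul, ← hh]; congr 1; ring
    calc _ = (2 * r + 3) ^ 2 * (1 + 8 * h) ^ i * 2 ^ r0 / 2 ^ r := by ring
      _ ≤ _ := by rw [hE']; gcongr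
  have fin : ∀ η : ℝ, η ≤ 2 * E + h * (4 * P ^ 2) → k * h * (η + h * C * 1) ≤
      4 * t * (2 * r + 3) ^ 2 * Real.exp (8 * t) * 2 ^ r0 / 2 ^ r + ε := by
    intro η hη
    have a1 : 4 * t * (2 * r + 3) ^ 2 * Real.exp (8 * t) * 2 ^ r0 / 2 ^ r = 4 * (t * E) := by
      rw [hE']; ring
    rw [hh, a1]
    nlinarith [mul_le_mul_of_nonneg_left hη ht, mul_nonneg ht hE0]
  have one : ∀ {f : Cfg → ℝ} {x : V}, boxAt x (r + 1) ⊆ boxAt x1 (r + 1) ∪ boxAt x2 (r + 1) →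
      (∀ i, DepOn ((eul h (boxAt x r))^[i] f) (boxAt x (r + 1)) ∧
        (∀ σ, |(eul h (boxAt x r))^[i] f σ| ≤ 1) ∧ Osc ((eul h (boxAt x r))^[i] f)
          fun u => (1 + 8 * h) ^ i * 2 * 2 ^ r0 * (1 / 2) ^ ds x u) → ∀ m, Flow m →
      |m t f - m 0 ((eul h (boxAt x r))^[k] f)| ≤
        4 * t * (2 * r + 3) ^ 2 * Real.exp (8 * t) * 2 ^ r0 / 2 ^ r + ε := by
    intro f x hs I m hm
    have := hE m hm (fun i => (eul h (boxAt x r))^[i] f) 1 E h k h0 (fun i => (I i).1.mono hs)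
      (fun i => (I i).2.1) fun i hi σ => by
        rw [Function.iterate_succ_apply', eul, add_sub_cancel_left, ← mul_sub, abs_mul,
          abs_of_nonneg h0]
        exact mul_le_mul_of_nonneg_left (sh' hi (I i).1 (I i).2.2 σ) h0
    refine le_trans (by simpa only [hh, Function.iterate_zero, id] using this) ?_
    have a1 := fin E (by nlinarith [mul_nonneg h0 (sq_nonneg P)])
    rwa [hh] at a1
  refine ⟨_, _, (I1 k).1, (I2 k).1, (I1 k).2.1, (I2 k).2.1, fun m hm =>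
    ⟨one subset_union_left I1 m hm, one subset_union_right I2 m hm, ?_⟩⟩
  have := hE m hm (fun i σ => (eul h (boxAt x1 r))^[i] f1 σ * (eul h (boxAt x2 r))^[i] f2 σ) 1
    (2 * E + h * (4 * P ^ 2)) h k h0
    (fun i σ σ' H => by
      simp only [(I1 i).1 σ σ' fun x hx => H x (mem_union_left _ hx),
        (I2 i).1 σ σ' fun x hx => H x (mem_union_right _ hx)])
    (fun i σ => by
      rw [abs_mul]
      exact mul_le_one₀ ((I1 i).2.1 σ) (abs_nonneg _) ((I2 i).2.1 σ))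
    fun i hi σ => by
      obtain ⟨a1, a2, a3⟩ := I1 i
      obtain ⟨b1, b2, b3⟩ := I2 i
      simp only [Function.iterate_succ_apply']
      generalize (eul h (boxAt x1 r))^[i] f1 = G1 at a1 a2 a3 ⊢
      generalize (eul h (boxAt x2 r))^[i] f2 = G2 at b1 b2 b3 ⊢
      have c0 : gam G1 G2 σ = 0 := by
        rw [a1.gam_eq]
        exact sum_eq_zero fun y hy => by
          rw [b1.flp_eq σ (disjoint_left.1 hd hy), sub_self, mul_zero, mul_zero]
      have c1 := sh' hi a1 a3 σ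
      have c2 := sh' hi b1 b3 σ
      have c3 := genOn_le (boxAt x1 r) a2 σ
      have c4 := genOn_le (boxAt x2 r) b2 σ
      rw [card_boxAt, ← hP] at c3 c4
      rw [gen_mul a1.loc b1.loc, c0, eul, eul]
      have c5 : (G1 σ + h * genOn (boxAt x1 r) G1 σ) * (G2 σ + h * genOn (boxAt x2 r) G2 σ) -
          G1 σ * G2 σ - h * (G1 σ * gen G2 σ + G2 σ * gen G1 σ + 0) =
          h * (G1 σ * (genOn (boxAt x2 r) G2 σ - gen G2 σ) +
            G2 σ * (genOn (boxAt x1 r) G1 σ - gen G1 σ) +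
            h * (genOn (boxAt x1 r) G1 σ * genOn (boxAt x2 r) G2 σ)) := by ring
      rw [c5, abs_mul, abs_of_nonneg h0]
      refine mul_le_mul_of_nonneg_left ((abs_add_three _ _ _).trans ?_) h0
      rw [abs_mul, abs_mul, abs_mul, abs_mul, abs_of_nonneg h0]
      have c6 := mul_le_mul (a2 σ) c2 (abs_nonneg _) zero_le_one
      have c7 := mul_le_mul (b2 σ) c1 (abs_nonneg _) zero_le_one
      have c8 := mul_le_mul_of_nonneg_left (mul_le_mul c3 c4 (abs_nonneg _) (by positivity)) h0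
      nlinarith
  refine le_trans (by simpa only [hh, Function.iterate_zero, id] using this) ?_
  have a1 := fin _ le_rfl
  rwa [hh] at a1

end Pool.Agent.BA
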