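import Pool.Agent.Lib.BA.Blue

/-! Stepping into a pattern with an arm. -/

open Finset

namespace Pool.Agent.BA

noncomputable section

namespace ArmB

/-- the run of bonds starts right of column `-a` and reaches column `i` -/
def R (a : ℕ) (i : ℤ) (σ : Cfg) : Prop :=
  ¬ Bond σ (-(a : ℤ)) 0 ∧ ∀ c ∈ Ioc (-(a : ℤ)) i, Bond σ c 0

theorem loc_R (a : ℕ) (i : ℤ) : Loc (R a i) :=
  (loc_Bond _ 0).not.and (Loc.ball _ fun c _ => loc_Bond c 0)

def row (M : ℕ) (r : ℤ) : Finset V := Icc (1 : ℤ) M ×ˢ {r}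

theorem mem_row {M : ℕ} {r : ℤ} {z : V} : z ∈ row M r ↔ (1 ≤ z.1 ∧ z.1 ≤ M) ∧ z.2 = r := by
  unfold row; rw [mem_product, mem_Icc, mem_singleton]

def F (a : ℕ) (z : V) (σ : Cfg) : ℝ := ind (R a z.1 σ) * ind (Red 2 (sh z σ))

theorem F_nonneg (a : ℕ) (z : V) (σ : Cfg) : 0 ≤ F a z σ := mul_nonneg (ind_nonneg _) (ind_nonneg _)

theorem loc_F (a : ℕ) (z : V) : Loc (F a z) := (loc_R a z.1).ind.mul ((loc_Red 2).sh z).ind

theorem bond_sh (z : V) (σ : Cfg) (c r : ℤ) :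
    Bond (sh (-z) σ) c r ↔ Bond σ (c - z.1) (r - z.2) := by
  obtain ⟨z1, z2⟩ := z
  simp only [Bond, sh, Prod.neg_mk, Prod.mk_add_mk, ← sub_eq_add_neg]
  rw [show r + 1 - z2 = r - z2 + 1 by ring]

theorem transp (hmt : St_MT) {D : (Cfg → ℝ) → ℝ} (hD : Lin D) (a M : ℕ) (r : ℤ) :
    D (fun σ => ∑ z ∈ row M r, F a z σ) ≤ D (fun σ => ind (Red 2 σ)) := by
  have key : ∀ σ, ∀ z ∈ row M r, ∀ z' ∈ row M r, R a z.1 (sh (-z) σ) → R a z'.1 (sh (-z') σ) →
      ¬ z.1 < z'.1 := by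
    intro σ z hz z' hz' h h' hlt
    rw [mem_row] at hz hz'
    have h1 := h'.2 (z'.1 - z.1 - a) (by rw [mem_Ioc]; omega)
    have h2 := h.1
    rw [bond_sh] at h1 h2
    rw [hz'.2, show z'.1 - z.1 - a - z'.1 = -(a : ℤ) - z.1 by ring] at h1
    rw [hz.2] at h2
    exact h2 h1
  refine hmt D hD (row M r) (fun z => R a z.1) (fun σ => ind (Red 2 σ)) (fun z _ => loc_R a z.1)
    (loc_Red 2).ind (fun σ => ind_nonneg _) fun σ z hz z' hz' h h' => ?_
  have a1 := key σ z hz z' hz' h h'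
  have a2 := key σ z' hz' z hz h' h
  rw [mem_row] at hz hz'
  exact Prod.ext (by omega) (hz.2.trans hz'.2.symm)

theorem sum_ite_le (S T : Finset V) (f : V → ℝ) (hf : ∀ y, 0 ≤ f y) :
    ∑ y ∈ S, (if y ∈ T then f y else 0) ≤ ∑ y ∈ T, f y := by
  rw [sum_ite_mem]
  exact sum_le_sum_of_subset_of_nonneg inter_subset_right fun y _ _ => hf y

theorem ite_nonneg' (T : Finset V) (f : V → ℝ) (hf : ∀ y, 0 ≤ f y) (y : V) :
    0 ≤ (if y ∈ T then f y else 0) := by
  split_ifs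
  · exact hf y
  · exact le_rfl

theorem loss (hnpw : St_NPW) {q : Cfg → Prop} {Q : Finset V} {a M : ℕ} (hq : DepOn q Q)
    (ha : 1 ≤ a)
    (hb : ∀ σ, q σ → (∀ i : ℕ, i < a → Bond σ (-(i : ℤ)) 0) ∧ ¬ Bond σ (-(a : ℤ)) 0)
    (σ : Cfg) (h : q σ ∧ Hook M σ) :
    -((Q.card + 3 : ℝ) * ind (q σ ∧ Hook M σ) + (∑ z ∈ row M 0, F a z σ + ∑ z ∈ row M 1, F a z σ)) ≤
      gen (fun τ => ind (q τ ∧ Hook M τ)) σ := by
  obtain ⟨S, hS⟩ := (hq.loc.and (loc_Hook M)).ind
  rw [hS.gen_eq, ind_of h, mul_one]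
  obtain ⟨n, hn1, hnM, hbond, hend⟩ := h.2
  have hrun : ∀ c : ℤ, -(a : ℤ) < c → c < n → Bond σ c 0 := by
    intro c h1 h2
    by_cases hc : 1 ≤ c
    · have := hbond c.toNat (by omega) (by omega)
      rwa [Int.toNat_of_nonneg (by omega)] at this
    · have := (hb σ h.1).1 (-c).toNat (by omega)
      rwa [Int.toNat_of_nonneg (by omega), neg_neg] at this
  obtain ⟨T, hT⟩ : ∃ T : Finset V, T = {((n : ℤ), 1), ((n : ℤ) - 1, 0), ((n : ℤ) - 1, 1)} :=
    ⟨_, rfl⟩
  have hT3 : (T.card : ℝ) ≤ 3 := by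
    have : T.card ≤ 3 := by rw [hT]; exact card_le_three
    exact_mod_cast this
  have pt : ∀ y ∈ S, -((if y ∈ Q then (1 : ℝ) else 0) + (if y ∈ T then (1 : ℝ) else 0) +
      ((if y ∈ row M 0 then F a y σ else 0) + (if y ∈ row M 1 then F a y σ else 0))) ≤
      rate σ y * (ind (q (flp σ y) ∧ Hook M (flp σ y)) - ind (q σ ∧ Hook M σ)) := by
    intro y _
    have n1 := ite_nonneg' Q (fun _ => (1 : ℝ)) (fun _ => zero_le_one) y
    have n2 := ite_nonneg' T (fun _ => (1 : ℝ)) (fun _ => zero_le_one) y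
    have n3 := ite_nonneg' (row M 0) (fun y => F a y σ) (fun y => F_nonneg a y σ) y
    have n4 := ite_nonneg' (row M 1) (fun y => F a y σ) (fun y => F_nonneg a y σ) y
    have r0 := rate_nonneg σ y
    have r1 := rate_le_one σ y
    have i0 := ind_nonneg (q (flp σ y) ∧ Hook M (flp σ y))
    have one : -1 ≤ rate σ y * (ind (q (flp σ y) ∧ Hook M (flp σ y)) - ind (q σ ∧ Hook M σ)) := by
      rw [ind_of h]; nlinarith
    by_cases hQ : y ∈ Q
    · rw [if_pos hQ]; linarith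
    by_cases hyT : y ∈ T
    · rw [if_pos hyT]; linarith
    by_cases hd : dis σ y ≤ 1
    · rw [rate_of_le hd, zero_mul]; linarith
    by_cases hy : (1 ≤ y.1 ∧ y.1 < n) ∧ (y.2 = 0 ∨ y.2 = 1)
    · obtain ⟨c, r⟩ := y
      have hc : c + 1 < n := by
        by_contra hc
        apply hyT
        rw [hT]
        have e : c = n - 1 := by have := hy.1.2; dsimp only at this; omega
        rcases hy.2 with e2 | e2 <;> dsimp only at e2 <;> simp [e, e2]
      have h1 : 1 ≤ c := hy.1.1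
      have hR : R a c σ := ⟨(hb σ h.1).2, fun c' hc' => by
        rw [mem_Ioc] at hc'; exact hrun c' hc'.1 (by omega)⟩
      have np := hnpw.2 σ c 0 (hrun _ (by omega) (by omega)) (hrun _ (by omega) (by omega))
        (hrun _ (by omega) (by omega))
      rw [zero_add] at np
      rcases hy.2 with e2 | e2 <;> dsimp only at e2 <;> subst e2
      · have m : ((c, 0) : V) ∈ row M 0 := mem_row.2 ⟨⟨h1, by dsimp only; omega⟩, rfl⟩
        have e : F a (c, 0) σ = 1 := by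
          unfold F; rw [ind_of hR, ind_of (np.1 (by omega)), one_mul]
        rw [e] at n3 n4
        rw [if_pos m, e]; linarith
      · have m : ((c, 1) : V) ∈ row M 1 := mem_row.2 ⟨⟨h1, by dsimp only; omega⟩, rfl⟩
        have e : F a (c, 1) σ = 1 := by
          unfold F; rw [ind_of hR, ind_of (np.2 (by omega)), one_mul]
        rw [e] at n3 n4
        rw [if_pos m, e]; linarith
    · have keep : q (flp σ y) ∧ Hook M (flp σ y) := by
        refine ⟨(hq.flp_eq σ hQ).symm ▸ h.1, n, hn1, hnM, fun i hi1 hi2 => ?_, ?_⟩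
        · have b := hbond i hi1 hi2
          unfold Bond at b ⊢
          rw [flp_ne σ (fun e => hy (by rw [← e]; dsimp only; omega)),
            flp_ne σ (fun e => hy (by rw [← e]; dsimp only; omega))]
          exact b
        · rw [flp_ne σ (fun e => hyT (by rw [← e, hT]; simp))]
          exact hend
      rw [ind_of keep, ind_of h, sub_self, mul_zero]; linarith
  have s := sum_le_sum pt
  rw [sum_neg_distrib, sum_add_distrib, sum_add_distrib, sum_add_distrib] at s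
  have s1 := sum_ite_le S Q (fun _ => (1 : ℝ)) fun _ => zero_le_one
  have s2 := sum_ite_le S T (fun _ => (1 : ℝ)) fun _ => zero_le_one
  have s3 := sum_ite_le S (row M 0) (fun y => F a y σ) fun y => F_nonneg a y σ
  have s4 := sum_ite_le S (row M 1) (fun y => F a y σ) fun y => F_nonneg a y σ
  rw [sum_const, nsmul_eq_mul, mul_one] at s1 s2
  unfold genOn
  linarith

end ArmB

open ArmB in
theorem st_arm (hstep : St_STEP) (hmt : St_MT) (hnpw : St_NPW) : St_ARM := by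
  intro lam D h0 h1 hD q p Q a M hq hp ha hb hin
  have lP : Loc fun σ => q σ ∧ Hook M σ := hq.loc.and (loc_Hook M)
  have l0 : Loc fun σ => ∑ z ∈ row M 0, F a z σ := Loc.sum _ fun z _ => loc_F a z
  have l1 : Loc fun σ => ∑ z ∈ row M 1, F a z σ := Loc.sum _ fun z _ => loc_F a z
  have h := hstep lam D h0 hD (fun σ => q σ ∧ Hook M σ) p
    (fun σ => (Q.card + 3 : ℝ) * ind (q σ ∧ Hook M σ) +
      (∑ z ∈ row M 0, F a z σ + ∑ z ∈ row M 1, F a z σ)) lP hp ((lP.ind.cmul _).add (l0.add l1))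
    (fun σ => add_nonneg (mul_nonneg (by positivity) (ind_nonneg _))
      (add_nonneg (sum_nonneg fun z _ => F_nonneg a z σ) (sum_nonneg fun z _ => F_nonneg a z σ)))
    hin (loss hnpw hq ha hb)
  rw [hD.add _ _ (lP.ind.cmul _) (l0.add l1), hD.add _ _ l0 l1, hD.smul _ _ lP.ind] at h
  have t0 := transp hmt hD.toLin a M 0
  have t1 := transp hmt hD.toLin a M 1
  have p0 : 0 ≤ D fun σ => ind (q σ ∧ Hook M σ) := hD.toPos.nonneg lP.ind fun σ => ind_nonneg _
  nlinarith [mul_nonneg (sub_nonneg.2 h1) p0]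

end

end Pool.Agent.BA
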