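import Pool.Agent.Lib.BA.Blue

open Finset

namespace Pool.Agent.BA

namespace CapB

theorem shrink (r : ℕ) : ∀ (n : ℕ) (a : ℤ) (σ : Cfg), 0 ≤ a → a + n + 1 ≤ r →
    σ (a - 1, 1) = false → σ (a + n + 1, 1) = false → (∀ c, a ≤ c → c ≤ a + n → Bond σ c 0) →
    Red r σ := by
  intro n
  induction n with
  | zero =>
    intro a σ ha hr h1 h2 h3
    obtain ⟨b1, b2⟩ := h3 a le_rfl (by simp)
    refine .base σ (a, 1) (by rw [mem_box]; simp only; omega) ?_
    simp only [Nat.cast_zero, add_zero, zero_add] at h2 b1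
    have e : a + -1 = a - 1 := by ring
    simp only [dis, Prod.mk_add_mk, add_zero, e, add_neg_cancel, h1, h2, b1, b2]
    split_ifs <;> simp_all
  | succ n ih =>
    intro a σ ha hr h1 h2 h3
    push_cast at hr h2 h3
    obtain ⟨b1, b2⟩ := h3 a le_rfl (by omega)
    simp only [zero_add] at b1
    refine .step σ (a, 1) (by rw [mem_box]; simp only; omega) ?_ (ih (a + 1) _ (by omega)
      (by omega) ?_ ?_ ?_)
    · have e : a + -1 = a - 1 := by ring
      simp only [dis, Prod.mk_add_mk, add_zero, e, add_neg_cancel, h1, b1, b2]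
      split_ifs <;> simp_all
    · rw [add_sub_cancel_right, flp_self, b1]; rfl
    · rw [flp_ne _ (by simp only [ne_eq, Prod.mk.injEq]; omega), ← h2]; congr 2; ring
    · intro c hc hc'
      obtain ⟨c1, c2⟩ := h3 c (by omega) (by omega)
      exact ⟨by rwa [flp_ne _ (by simp only [ne_eq, Prod.mk.injEq]; omega)],
        by rwa [flp_ne _ (by simp only [ne_eq, Prod.mk.injEq]; omega)]⟩

theorem cap_red (n : ℕ) (σ : Cfg) (hn : 1 ≤ n) (h : Cap n σ) : Red (n + 2) σ := by
  obtain ⟨n, rfl⟩ : ∃ k, n = k + 1 := ⟨n - 1, by omega⟩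
  refine shrink _ n 0 σ le_rfl (by push_cast; omega) (by simpa using h.1)
    (by simpa using h.2.1) fun c hc hc' => ?_
  obtain ⟨i, rfl⟩ := Int.eq_ofNat_of_zero_le hc
  exact h.2.2 i (by omega)

/-- a creation state becomes a cap after one allowed flip -/
theorem cr_cap {M : ℕ} {σ : Cfg} (h : Cr M σ) : ∃ y ∈ box 1, 2 ≤ dis σ y ∧
    (∀ n : ℕ, 1 ≤ n → (∀ i : ℕ, 1 ≤ i → i < n → Bond σ i 0) → σ (n, 1) = false → Cap n (flp σ y)) := by
  rcases h with ⟨h1, h2, -, ⟨h3, h4⟩, -⟩ | ⟨h1, h2, h3, h4, -⟩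
  · refine ⟨(-1, 1), by rw [mem_box]; simp, h2, fun n hn hb he => ⟨by rw [flp_self, h1]; rfl, ?_,
      fun i hi => ?_⟩⟩
    · rwa [flp_ne _ (by simp only [ne_eq, Prod.mk.injEq]; omega)]
    · have hB : Bond σ i 0 := by
        rcases Nat.eq_zero_or_pos i with rfl | hp
        · exact ⟨h3, h4⟩
        · exact hb i hp hi
      exact ⟨by rw [flp_ne _ (by simp only [ne_eq, Prod.mk.injEq]; omega)]; exact hB.1,
        by rw [flp_ne _ (by simp only [ne_eq, Prod.mk.injEq]; omega)]; exact hB.2⟩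
  · refine ⟨(0, 0), by rw [mem_box]; simp, h2, fun n hn hb he => ⟨?_, ?_, fun i hi => ?_⟩⟩
    · rwa [flp_ne _ (by simp)]
    · rwa [flp_ne _ (by simp)]
    · rcases Nat.eq_zero_or_pos i with rfl | hp
      · exact ⟨by rw [flp_ne _ (by simp)]; simpa using h3, by
          simp only [Nat.cast_zero]; rw [flp_self, h1]; rfl⟩
      · have hB := hb i hp hi
        exact ⟨by rw [flp_ne _ (by simp)]; exact hB.1,
          by rw [flp_ne _ (by simp only [ne_eq, Prod.mk.injEq]; omega)]; exact hB.2⟩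

end CapB

theorem st_cap : St_CAP := by
  refine ⟨CapB.cap_red, fun M σ h => ?_, fun M σ h h1 => ?_⟩
  · obtain ⟨y, hy, hd, H⟩ := CapB.cr_cap h
    have hk : Hook M σ := h.elim (fun h => h.2.2.2.2) fun h => h.2.2.2.2
    obtain ⟨n, h1, h2, h3, h4⟩ := hk
    exact .step σ y (box_mono (by omega) hy) hd
      ((CapB.cap_red n _ h1 (H n h1 h3 h4)).mono (by omega))
  · obtain ⟨y, hy, hd, H⟩ := CapB.cr_cap h
    have hc := H 1 le_rfl (fun i h1 h2 => by omega) (by simpa using h1)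
    refine .step σ y (box_mono (by omega) hy) hd
      (CapB.shrink 2 0 0 _ le_rfl (by norm_num) (by simpa using hc.1) (by simpa using hc.2.1)
        fun c hc1 hc2 => ?_)
    have : c = ((0 : ℕ) : ℤ) := by omega
    exact this ▸ hc.2.2 0 (by omega)

end Pool.Agent.BA
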