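import Pool.Agent.Lib.BA.Blue

/-! Block CAPDOM: domination of cap creation. -/

open Finset

set_option linter.unusedVariables false

namespace Pool.Agent.BA

noncomputable section
open Classical

namespace CAPDOMB

theorem dom_badAt {lam K K2 : ℝ} {M : ℕ} (h2 : Dom lam K2 fun σ => ind (Red 2 σ))
    (hK : Dom lam K fun σ => ind (PA M σ)) :
    Dom lam (K2 + 16 * K) fun σ => ind (BadAt M σ) := by
  have hs := Dom.sum (univ : Finset Fr) (F := fun g σ => ind (PA M (act g σ)))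
    fun g _ => hK.act g
  have hc : ((univ : Finset Fr).card : ℝ) = 16 := by
    rw [card_univ, card_Fr]; norm_num
  rw [hc] at hs
  refine (h2.add hs).mono (loc_BadAt M).ind fun σ => ?_
  refine (ind_or_le _ _).trans (add_le_add le_rfl ?_)
  refine le_trans (ind_mono ?_) (ind_exists_le univ fun g => PA M (act g σ))
  rintro ⟨g, hg⟩
  exact ⟨g, mem_univ g, hg⟩

theorem dom_bad {lam K K2 : ℝ} {M : ℕ} (h2 : Dom lam K2 fun σ => ind (Red 2 σ))
    (hK : Dom lam K fun σ => ind (PA M σ)) :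
    Dom lam (9 * (K2 + 16 * K)) fun σ => ind (Bad M σ) := by
  have hs := Dom.sum (box 1) (F := fun d σ => ind (BadAt M (sh d σ)))
    fun d _ => (dom_badAt h2 hK).sh d
  have hc : ((box 1).card : ℝ) = 9 := by
    rw [box, card_boxAt]; norm_num
  rw [hc] at hs
  exact hs.mono (loc_Bad M).ind fun σ => ind_exists_le (box 1) fun d => BadAt M (sh d σ)

theorem Chg_nonneg (m N : ℕ) (σ : Cfg) : 0 ≤ Chg m N σ :=
  sum_nonneg fun n _ => mul_nonneg (ind_nonneg _) (add_nonneg (add_nonneg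
    (add_nonneg (Chl_nonneg _ _) (Chl_nonneg _ _)) (ind_nonneg _))
    (sum_nonneg fun i _ => add_nonneg (ind_nonneg _) (ind_nonneg _)))

theorem rho_low {L : ℕ} (hL : 2 ≤ L) : (1 / 16 : ℝ) ≤ (1 - 1 / (L : ℝ)) ^ (L + 1) := by
  have hL' : (2 : ℝ) ≤ L := by exact_mod_cast hL
  have hpos : (0 : ℝ) < L := by linarith
  have h1 : 1 / (L : ℝ) ≤ 1 / 2 := one_div_le_one_div_of_le (by norm_num) hL'
  have h0 : 0 ≤ 1 / (L : ℝ) := by positivity
  have hb := one_add_mul_le_pow (a := -(1 / (L : ℝ))) (by linarith) (L / 2)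
  have hk : (((L / 2 : ℕ) : ℝ)) * 2 ≤ L := by exact_mod_cast Nat.div_mul_le_self L 2
  have hh : (1 / 2 : ℝ) ≤ (1 - 1 / (L : ℝ)) ^ (L / 2) := by
    have e : (1 : ℝ) + -(1 / (L : ℝ)) = 1 - 1 / L := by ring
    rw [e] at hb
    refine le_trans ?_ hb
    have : ((L / 2 : ℕ) : ℝ) * (1 / (L : ℝ)) ≤ 1 / 2 := by
      rw [mul_one_div, div_le_iff₀ hpos]; linarith
    linarith
  calc (1 / 16 : ℝ) = (1 / 2) ^ 4 := by norm_num
    _ ≤ ((1 - 1 / (L : ℝ)) ^ (L / 2)) ^ 4 := pow_le_pow_left₀ (by norm_num) hh 4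
    _ = (1 - 1 / (L : ℝ)) ^ (L / 2 * 4) := by rw [pow_mul]
    _ ≤ _ := pow_le_pow_of_le_one (by linarith) (by linarith) (by omega)

theorem rho_up {L : ℕ} (hL : 2 ≤ L) (j : ℕ) : (1 - 1 / (L : ℝ)) ^ (L * j) ≤ Real.exp (-(j : ℝ)) := by
  have hL' : (2 : ℝ) ≤ L := by exact_mod_cast hL
  have hpos : (0 : ℝ) < L := by linarith
  have h1 : 1 / (L : ℝ) ≤ 1 / 2 := one_div_le_one_div_of_le (by norm_num) hL'
  have he : 1 - 1 / (L : ℝ) ≤ Real.exp (-(1 / (L : ℝ))) := by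
    have := Real.add_one_le_exp (-(1 / (L : ℝ))); linarith
  calc (1 - 1 / (L : ℝ)) ^ (L * j) ≤ Real.exp (-(1 / (L : ℝ))) ^ (L * j) :=
        pow_le_pow_left₀ (by linarith) he _
    _ = Real.exp (-(j : ℝ)) := by
        rw [← Real.exp_nat_mul]
        congr 1
        push_cast
        field_simp

theorem c_bound {L : ℕ} (hL : 2 ≤ L) {Wm : ℝ} (hW : 0 ≤ Wm) :
    Real.exp (-(2 * Wm)) / 32 ≤ (1 - 1 / (L : ℝ)) ^ (L + 1) * Real.exp (-(2 * Wm)) -
      (1 - 1 / (L : ℝ)) ^ (L + 1 + L * ⌈2 * Wm + 1⌉₊) := by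
  have h1 := rho_low hL
  have h2 := rho_up hL ⌈2 * Wm + 1⌉₊
  have h3 : Real.exp (-(⌈2 * Wm + 1⌉₊ : ℝ)) ≤ Real.exp (-(2 * Wm)) / 2 := by
    have hc := Nat.le_ceil (2 * Wm + 1)
    have h4 : Real.exp (-(⌈2 * Wm + 1⌉₊ : ℝ)) ≤ Real.exp (-(2 * Wm) + -1) :=
      Real.exp_le_exp.2 (by linarith)
    rw [Real.exp_add] at h4
    have h5 : Real.exp (-1) ≤ 1 / 2 := by
      rw [Real.exp_neg, ← one_div]
      refine one_div_le_one_div_of_le (by norm_num) ?_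
      have := Real.add_one_le_exp (1 : ℝ); linarith
    have h6 := Real.exp_pos (-(2 * Wm))
    nlinarith
  rw [pow_add (1 - 1 / (L : ℝ)) (L + 1)]
  have h6 := Real.exp_pos (-(2 * Wm))
  generalize (1 - 1 / (L : ℝ)) ^ (L + 1) = a at *
  generalize (1 - 1 / (L : ℝ)) ^ (L * ⌈2 * Wm + 1⌉₊) = b at *
  generalize Real.exp (-(2 * Wm)) = e at *
  have h7 : e / 2 ≤ e - b := by linarith
  have h8 : 1 / 16 * (e / 2) ≤ a * (e - b) :=
    mul_le_mul h1 h7 (by linarith) (by linarith)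
  nlinarith

theorem log_bound {L : ℕ} (hL : 2 ≤ L) :
    (1 + Real.log (1 / (1 / (12 * (L : ℝ) ^ 2)))) ^ 2 ≤ 144 * (1 + Real.log L) ^ 2 := by
  have hL' : (2 : ℝ) ≤ L := by exact_mod_cast hL
  have hpos : (0 : ℝ) < L := by linarith
  have hl : 0 ≤ Real.log L := Real.log_nonneg (by linarith)
  rw [one_div_one_div, Real.log_mul (by norm_num) (by positivity), Real.log_pow]
  have h12 : Real.log 12 ≤ 12 - 1 := Real.log_le_sub_one_of_pos (by norm_num)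
  have h12' : 0 ≤ Real.log 12 := Real.log_nonneg (by norm_num)
  have : (144 : ℝ) * (1 + Real.log L) ^ 2 = (12 * (1 + Real.log L)) ^ 2 := by ring
  rw [this]
  push_cast
  exact pow_le_pow_left₀ (by linarith) (by linarith) 2

theorem lam_bound {L : ℕ} (hL : 2 ≤ L) :
    1 / (2 * (L : ℝ) ^ 2) ≤ 2 * ((1 - (1 - 1 / (L : ℝ))) ^ 2 / (2 * (1 - 1 / (L : ℝ))) -
      3 * (1 / (12 * (L : ℝ) ^ 2))) := by
  have hL' : (2 : ℝ) ≤ L := by exact_mod_cast hL
  have hpos : (0 : ℝ) < L := by linarith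
  have h1 : 1 / (L : ℝ) ≤ 1 / 2 := one_div_le_one_div_of_le (by norm_num) hL'
  have h0 : 0 ≤ 1 / (L : ℝ) := by positivity
  have h2 : (1 / (L : ℝ)) ^ 2 / 2 ≤ (1 - (1 - 1 / (L : ℝ))) ^ 2 / (2 * (1 - 1 / (L : ℝ))) := by
    rw [sub_sub_cancel]
    exact div_le_div_of_nonneg_left (by positivity) (by linarith) (by linarith)
  have e1 : 1 / (2 * (L : ℝ) ^ 2) = (1 / (L : ℝ)) ^ 2 / 2 := by field_simp
  have e2 : 1 / (12 * (L : ℝ) ^ 2) = (1 / (L : ℝ)) ^ 2 / 12 := by field_simp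
  rw [e1, e2]
  linarith

/-- the flux of created caps is paid by the charge -/
theorem flux_le (hmaster : St_MASTER) (hflux : St_FLUX) (hpsi : St_PSI)
    {m : ℕ} {Wm ε : ℝ} {W : (ℕ → ℕ) → ℝ} {ρ : ℝ} {N M : ℕ} {c lam : ℝ} {D : (Cfg → ℝ) → ℝ}
    (hP : Pot m Wm ε W) (hε : 0 ≤ ε) (hm : 2 ≤ m) (hρ : 1 / 2 ≤ ρ) (hρ1 : ρ ≤ 1) (hlam : 0 ≤ lam)
    (hlam' : lam ≤ 2 * ((1 - ρ) ^ 2 / (2 * ρ) - 3 * ε)) (hMN : M ≤ N) (hc : 0 ≤ c)
    (hc' : c ≤ ρ ^ M * Real.exp (-(2 * Wm)) - ρ ^ N) (hD : Fn lam D) :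
    c / 2 * D (fun σ => ind (Cr M σ ∧ σ (1, 1) = true)) ≤ 4 * D (Chg m N) := by
  obtain ⟨hdep, hb, hal, -, -, hloc⟩ := hpsi m Wm ε W ρ N hP (by linarith) hρ1
  have h1 := hflux m Wm ε W ρ N M c D hP (by linarith) hρ1 hMN hc hc' hD.toLin
  have h2 := hD.disc _ hdep.loc fun σ => (hb σ).1
  have h3 : D (fun σ => lam * psi m W ρ N σ - 4 * Chg m N σ) ≤
      D (fun σ => ind (Alive N σ) *
        ∑ y ∈ BB m N, rate σ y * (val m W ρ N σ y - psi m W ρ N σ)) := by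
    refine hD.mono _ _ ((hdep.loc.cmul lam).sub ((loc_Chg m N).cmul 4))
      ((loc_Alive N).ind.mul hloc) fun σ => ?_
    by_cases ha : Alive N σ
    · rw [ind_of ha, one_mul]
      exact hmaster m Wm ε W ρ N lam hP hε hm hρ hρ1 hlam hlam' σ ha
    · rw [ind_of_not ha, zero_mul, hal σ ha]
      have := Chg_nonneg m N σ
      linarith
  rw [hD.toPos.sub (hdep.loc.cmul lam) ((loc_Chg m N).cmul 4), hD.smul _ _ hdep.loc,
    hD.smul _ _ (loc_Chg m N)] at h3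
  linarith

end CAPDOMB

open CAPDOMB in
theorem st_capdom (hzrp : St_ZRP) (hmaster : St_MASTER) (hflux : St_FLUX) (hchg : St_CHG)
    (hpsi : St_PSI) (hred : St_RED) (hcap : St_CAP) : St_CAPDOM := by
  obtain ⟨Wm, C0, hW, hC0, hz⟩ := hzrp
  obtain ⟨K2, hK2, hr2⟩ := hred 2
  obtain ⟨K4, hK4, hr4⟩ := hred 4
  set c : ℝ := Real.exp (-(2 * Wm)) / 32 with hc
  have hcpos : 0 < c := by have := Real.exp_pos (-(2 * Wm)); positivity
  set C1 : ℝ := 8 / c * (162 * K2 + 2592 + 3 * K4) + K2 with hC1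
  have hC1' : 0 ≤ C1 := by positivity
  refine ⟨144 * C0 + C1, by positivity, fun L hL => ?_⟩
  have hL' : (2 : ℝ) ≤ L := by exact_mod_cast hL
  have hpos : (0 : ℝ) < L := by linarith
  have h1 : 1 / (L : ℝ) ≤ 1 / 2 := one_div_le_one_div_of_le (by norm_num) hL'
  have h0 : 0 ≤ 1 / (L : ℝ) := by positivity
  have hε : (0 : ℝ) < 1 / (12 * (L : ℝ) ^ 2) := by positivity
  have hε1 : 1 / (12 * (L : ℝ) ^ 2) ≤ 1 := by
    rw [div_le_one (by positivity)]; nlinarith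
  obtain ⟨m, W, hm, hmC, hP⟩ := hz _ hε hε1
  refine ⟨m, ?_, fun lam K hlam hlam' hK hPA => ?_⟩
  · have h2 := mul_le_mul_of_nonneg_left (log_bound hL) hC0
    have h3 : 0 ≤ C1 * (1 + Real.log L) ^ 2 := by positivity
    nlinarith
  have hlam1 : lam ≤ 1 := by
    refine hlam'.trans ?_
    rw [div_le_one (by positivity)]; nlinarith
  have hd2 := hr2 lam hlam hlam1
  have hd4 := hr4 lam hlam hlam1
  have hdc := hchg m (L + 1 + L * ⌈2 * Wm + 1⌉₊) lam _ _ (dom_bad hd2 hPA) hd4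
  have hloc1 : Loc fun σ => ind (Cr (L + 1) σ ∧ σ (1, 1) = true) :=
    ((loc_Cr _).and (Loc.evalEq _ _)).ind
  have hd1 : Dom lam (8 / c * (18 * (9 * (K2 + 16 * K)) + 3 * K4))
      fun σ => ind (Cr (L + 1) σ ∧ σ (1, 1) = true) := by
    refine ⟨hloc1, fun D hD => ?_⟩
    have h5 := flux_le hmaster hflux hpsi hP hε.le hm (ρ := 1 - 1 / (L : ℝ)) (by linarith)
      (by linarith) hlam (hlam'.trans (lam_bound hL)) (Nat.le_add_right _ _) hcpos.le
      (c_bound hL hW) hD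
    have h6 := hdc.2 D hD
    have h7 : D (fun σ => ind (Cr (L + 1) σ ∧ σ (1, 1) = true)) ≤
        8 / c * D (Chg m (L + 1 + L * ⌈2 * Wm + 1⌉₊)) := by
      rw [div_mul_eq_mul_div, le_div_iff₀ hcpos]
      linarith
    rw [mul_assoc]
    exact h7.trans (mul_le_mul_of_nonneg_left h6 (by positivity))
  refine ((hd1.add hd2).mono (loc_Cr _).ind fun σ => ?_).le ?_
  · refine le_trans (ind_mono ?_) (ind_or_le _ _)
    intro h
    cases e : σ (1, 1)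
    · exact Or.inr (hcap.2.2 _ σ h e)
    · exact Or.inl ⟨h, rfl⟩
  · have h8 : 0 ≤ 8 / c := by positivity
    rw [hC1]
    generalize 8 / c = a at *
    have h9 : 0 ≤ a * (K2 * K) := by positivity
    have h10 : 0 ≤ a * (K4 * K) := by positivity
    have h11 : 0 ≤ C0 * K := by positivity
    have h12 : 0 ≤ K2 * K := by positivity
    nlinarith

end

end Pool.Agent.BA
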