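import Pool.Agent.Lib.BA.Blue

/-! The moves down and in of the left staircase. -/

open Finset

namespace Pool.Agent.BA

noncomputable section

namespace CdnB

theorem fl_ne (σ : Cfg) {a b c d : ℤ} (h : c ≠ a ∨ d ≠ b) : flp σ (a, b) (c, d) = σ (c, d) :=
  flp_ne σ fun e => by
    have h1 := congrArg Prod.fst e
    have h2 := congrArg Prod.snd e
    simp only at h1 h2
    omega

theorem fl_self (σ : Cfg) {a b : ℤ} (h : σ (a, b) = false) : flp σ (a, b) (a, b) = true := by
  rw [flp_self, h]; rfl

theorem bond_ne {σ : Cfg} {a b c r : ℤ} (H : Bond σ c r) (h : c ≠ a ∨ (r ≠ b ∧ r + 1 ≠ b)) :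
    Bond (flp σ (a, b)) c r :=
  ⟨by rw [fl_ne σ (by omega)]; exact H.1, by rw [fl_ne σ (by omega)]; exact H.2⟩

theorem corner (M : ℕ) {σ : Cfg} {a b : ℤ} (h0 : σ (a, b) = false) (h1 : σ (a + 1, b) = true)
    (h2 : σ (a, b + 1) = true) : Bad M (sh (a, b) σ) ∨
      (dis σ (a, b) = 2 ∧ σ (a - 1, b) = false ∧ σ (a, b - 1) = false) := by
  have e : dis σ (a, b) = 2 + (if σ (a - 1, b) = false then 0 else 1) +
      (if σ (a, b - 1) = false then 0 else 1) := by
    unfold dis
    simp only [Prod.mk_add_mk, add_zero, h0, h1, h2, ← sub_eq_add_neg]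
    simp only [Bool.true_eq_false, if_false]
    omega
  by_cases h3 : 3 ≤ dis σ (a, b)
  · exact Or.inl (bad_of_U _ _ (by rw [sub_self]; exact zero_mem_box 1) h3)
  · right
    split_ifs at e with h4 h5 h5
    · exact ⟨e, h4, h5⟩
    all_goals omega

theorem str_flip {m : ℕ} {σ : Cfg} {k : ℕ} {p : ℕ → ℤ} (H : Str m σ k p) {i : ℕ} (h1 : 1 ≤ i)
    (hk : i ≤ k) (hl : σ (p i - 1 - 1, i) = false) (hlt : i < k → p (i + 1) < p i)
    (hd : ∀ j, 1 ≤ j → j + 1 = i → σ (p i - 1, j) = false ∧ p j - p i < m) :
    Str m (flp σ (p i - 1, i)) k (Function.update p i (p i - 1)) where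
  one_le := H.one_le
  le := H.le
  plus j hj hjk := by
    by_cases e : j = i
    · subst e; rw [Function.update_self]; exact fl_self σ (H.minus j hj hjk)
    · rw [Function.update_of_ne e, fl_ne σ (by omega)]; exact H.plus j hj hjk
  minus j hj hjk := by
    by_cases e : j = i
    · subst e; rw [Function.update_self, fl_ne σ (by omega)]; exact hl
    · rw [Function.update_of_ne e, fl_ne σ (by omega)]; exact H.minus j hj hjk
  up j hj hjk := by
    by_cases e : j = i
    · subst e
      rw [Function.update_self, fl_ne σ (by omega)]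
      have := hlt hjk
      exact (H.run j hj hjk _ (by omega) (by omega)).1
    · rw [Function.update_of_ne e, fl_ne σ]
      · exact H.up j hj hjk
      · have := H.anti j hj hjk
        by_cases e' : j + 1 = i
        · rw [e'] at this; omega
        · omega
  anti j hj hjk := by
    have := H.anti j hj hjk
    by_cases e : j = i
    · subst e
      rw [Function.update_self, Function.update_of_ne (by omega)]
      have := hlt hjk
      omega
    · rw [Function.update_of_ne e]
      by_cases e' : j + 1 = i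
      · subst e'; rw [Function.update_self]; omega
      · rwa [Function.update_of_ne e']
  gap j hj hjk := by
    have := H.gap j hj hjk
    by_cases e : j = i
    · subst e
      rw [Function.update_self, Function.update_of_ne (by omega)]
      omega
    · rw [Function.update_of_ne e]
      by_cases e' : j + 1 = i
      · have := (hd j hj e').2
        subst e'; rw [Function.update_self]; omega
      · rwa [Function.update_of_ne e']
  run j hj hjk := by
    intro c hc1 hc2
    by_cases e : j = i
    · subst e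
      rw [Function.update_self] at hc2
      rw [Function.update_of_ne (by omega)] at hc1
      exact bond_ne (H.run j hj hjk c hc1 (by omega)) (by omega)
    · rw [Function.update_of_ne e] at hc2
      by_cases e' : j + 1 = i
      · have h3 := (hd j hj e').1
        subst e'
        rw [Function.update_self] at hc1
        by_cases e2 : c = p (j + 1) - 1
        · subst e2
          refine ⟨?_, ?_⟩
          · have := fl_self σ (H.minus (j + 1) h1 hk)
            exact_mod_cast this
          · rw [fl_ne σ (by omega)]; exact h3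
        · exact bond_ne (H.run j hj hjk c (by omega) hc2) (Or.inl e2)
      · rw [Function.update_of_ne e'] at hc1
        exact bond_ne (H.run j hj hjk c hc1 hc2) (by omega)

theorem overflow {m : ℕ} {σ : Cfg} {k : ℕ} {p : ℕ → ℤ} (H : Str m σ k p) {j : ℕ} (h1 : 1 ≤ j)
    (hk : j < k) (hd : σ (p (j + 1) - 1, j) = false) (ho : p j - p (j + 1) = m) :
    Str m (flp σ (p (j + 1) - 1, (j + 1 : ℕ))) j p ∧
      ZCl m (flp σ (p (j + 1) - 1, (j + 1 : ℕ))) j p (p (j + 1) - 1) := by
  have hm := H.le
  have ha := H.anti j h1 hk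
  refine ⟨⟨h1, by omega, fun i hi hij => ?_, fun i hi hij => ?_, fun i hi hij => ?_,
    fun i hi hij => H.anti i hi (by omega), fun i hi hij => H.gap i hi (by omega),
    fun i hi hij c hc1 hc2 => ?_⟩, by omega, ?_, by omega, fun c hc1 hc2 => ?_, Or.inl (by omega)⟩
  · rw [fl_ne σ (by omega)]; exact H.plus i hi (by omega)
  · rw [fl_ne σ (by omega)]; exact H.minus i hi (by omega)
  · rw [fl_ne σ (by omega)]; exact H.up i hi (by omega)
  · exact bond_ne (H.run i hi (by omega) c hc1 hc2) (by omega)
  · rw [fl_ne σ (by omega)]; exact H.up j h1 hk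
  · by_cases e2 : c = p (j + 1) - 1
    · subst e2
      refine ⟨?_, ?_⟩
      · have := fl_self σ (H.minus (j + 1) (by omega) hk)
        exact_mod_cast this
      · rw [fl_ne σ (by omega)]; exact hd
    · exact bond_ne (H.run j h1 hk c (by omega) hc2) (Or.inl e2)

theorem zcl_low {m : ℕ} {σ : Cfg} {k : ℕ} {p : ℕ → ℤ} {q : ℤ} (Z : ZCl m σ k p q) {i : ℕ}
    (hk : i < k) (a x : ℤ) : ZCl m (flp σ (a, i)) k (Function.update p i x) q := by
  obtain ⟨z1, z2, z3, z4, z5⟩ := Z
  unfold ZCl
  rw [Function.update_of_ne (by omega), fl_ne σ (by omega), fl_ne σ (by omega), fl_ne σ (by omega)]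
  exact ⟨z1, z2, z3, fun c h1 h2 => bond_ne (z4 c h1 h2) (by omega), z5⟩

theorem gaps_ge {k : ℕ} {p : ℕ → ℤ} {i : ℕ} (h1 : 1 ≤ i) (hk : i < k) (hlt : p (i + 1) < p i)
    (ha : ∀ j, 1 ≤ j → j < k → p (j + 1) ≤ p j) (j : ℕ) (hj : 1 ≤ j) :
    hop i (i - 1) (gaps k p) j ≤ gaps k (Function.update p i (p i - 1)) j := by
  unfold hop
  by_cases e' : j = i - 1
  · have e2 : i = j + 1 := by omega
    subst e2
    have := ha j hj (by omega)
    simp only [Nat.add_sub_cancel, Function.update_self, gaps]
    rw [if_pos ⟨hj, by omega⟩, if_pos ⟨hj, by omega⟩, Function.update_of_ne (by omega)]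
    omega
  · rw [Function.update_of_ne e']
    by_cases e : j = i
    · subst e
      simp only [Function.update_self, gaps]
      rw [if_pos ⟨hj, hk⟩, if_pos ⟨hj, hk⟩, Function.update_of_ne (by omega)]
      omega
    · rw [Function.update_of_ne e]
      simp only [gaps]
      rw [Function.update_of_ne e, Function.update_of_ne (by omega)]

/-- the cut of the closing run -/
theorem cut (hpar1 : St_PAR1) {m : ℕ} {Wm ε : ℝ} {W : (ℕ → ℕ) → ℝ} (hP : Pot m Wm ε W) (hε : 0 ≤ ε)
    {σ : Cfg} {k : ℕ} {p : ℕ → ℤ} {q : ℤ} (h1 : 1 ≤ k) (Z : ZCl m σ k p q)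
    (hl : σ (p k - 1 - 1, k) = false)
    (S : Str m (flp σ (p k - 1, k)) k (Function.update p k (p k - 1))) :
    Wl m W (Function.update p k (p k - 1) 1) (flp σ (p k - 1, k)) ≤ ε := by
  obtain ⟨-, P2, P3, -⟩ := hpar1 m Wm ε W hP
  obtain ⟨z1, z2, z3, z4, z5⟩ := Z
  have u : flp σ (p k - 1, k) (Function.update p k (p k - 1) k, (k : ℤ) + 1) = true := by
    rw [Function.update_self, fl_ne σ (by omega)]
    exact (z4 _ (by omega) (by omega)).1
  have r : Run (flp σ (p k - 1, k)) k q (Function.update p k (p k - 1) k) := by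
    rw [Function.update_self]
    exact fun c h1 h2 => bond_ne (z4 c h1 (by omega)) (by omega)
  rcases z5 with z5 | ⟨z5, z6, z7⟩
  · refine (P3 _ _ _ q S z1 u (by rw [Function.update_self]; omega) r).trans
      (hP.tiny _ k h1 z1 ?_)
    simp only [Function.update_self]
    omega
  · have hq : q ≠ p k - 1 := by
      rintro rfl
      rw [hl] at z7
      exact Bool.false_ne_true z7
    rw [P2 _ _ _ q S ⟨z1, u, by rw [Function.update_self]; omega, r, Or.inr
      ⟨by rw [Function.update_self]; omega, by rw [fl_ne σ (by omega)]; exact z6,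
        by rw [fl_ne σ (by omega)]; exact z7⟩⟩]
    exact hε

end CdnB

open CdnB in
theorem st_cdn (hpar1 : St_PAR1) : St_CDN := by
  intro m Wm ε W hP hε σ k p _ H hp
  obtain ⟨P1, P2, -⟩ := hpar1 m Wm ε W hP
  have cn : ∀ i : ℕ, 1 ≤ i → i ≤ k → σ (p i - 1, (i : ℤ) + 1) = true →
      Bad (m + 1) (sh (p i - 1, (i : ℤ)) σ) ∨ (dis σ (p i - 1, (i : ℤ)) = 2 ∧
        σ (p i - 1 - 1, (i : ℤ)) = false ∧ σ (p i - 1, (i : ℤ) - 1) = false) := fun i h1 hk hu =>
    corner _ (H.minus i h1 hk) (by rw [sub_add_cancel]; exact H.plus i h1 hk) hu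
  refine ⟨fun i h2 hk hlt => ?_, fun q Z h2 => ?_, fun hk hlt => ?_, fun q Z hk => ?_⟩
  · refine (cn i (by omega) hk.le (H.run i (by omega) hk _ (by omega) (by omega)).1).imp_right ?_
    rintro ⟨d1, d2, d3⟩
    obtain ⟨j, rfl⟩ : ∃ j, i = j + 1 := ⟨i - 1, by omega⟩
    have d4 : σ (p (j + 1) - 1, (j : ℤ)) = false := by simpa using d3
    have hg := H.gap j (by omega) (by omega)
    refine ⟨d1, ?_⟩
    by_cases ho : p j - p (j + 1) = m
    · obtain ⟨S, Z⟩ := overflow H (by omega) (by omega) d4 ho
      have := P2 _ _ _ _ S Z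
      rw [hp] at this
      exact ⟨this.le.trans (hP.nonneg _), fun _ _ => this⟩
    · have S := str_flip H (i := j + 1) (by omega) hk.le d2 (fun _ => hlt) fun j' _ e => by
        obtain rfl : j' = j := by omega
        exact ⟨d4, by omega⟩
      have e1 : Function.update p (j + 1) (p (j + 1) - 1) 1 = 0 := by
        rw [Function.update_of_ne (by omega), hp]
      refine ⟨?_, fun q Z => ?_⟩
      · have := P1 _ _ _ S
        rw [e1] at this
        exact this.trans (hP.anti _ _ fun j' hj _ => gaps_ge (by omega) hk hlt H.anti j' hj)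
      · have := P2 _ _ _ q S (zcl_low Z hk _ _)
        rwa [e1] at this
  · refine (cn k (by omega) le_rfl (Z.2.2.2.1 _ (by have := Z.2.2.1; omega) (by omega)).1).imp_right ?_
    rintro ⟨-, d2, d3⟩
    obtain ⟨j, rfl⟩ : ∃ j, k = j + 1 := ⟨k - 1, by omega⟩
    have d4 : σ (p (j + 1) - 1, (j : ℤ)) = false := by simpa using d3
    have hg := H.gap j (by omega) (by omega)
    by_cases ho : p j - p (j + 1) = m
    · obtain ⟨S, Z⟩ := overflow H (by omega) (by omega) d4 ho
      have := P2 _ _ _ _ S Z
      rw [hp] at this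
      exact this.le.trans hε
    · have S := str_flip H (i := j + 1) (by omega) le_rfl d2 (fun h => by omega) fun j' _ e => by
        obtain rfl : j' = j := by omega
        exact ⟨d4, by omega⟩
      have := cut hpar1 hP hε (by omega) Z d2 S
      rwa [Function.update_of_ne (by omega), hp] at this
  · have hlt' : p (1 + 1) < p 1 := by rw [hp]; exact hlt
    have h := cn 1 le_rfl hk.le (H.run 1 le_rfl hk _ (by omega) (by omega)).1
    have ey : (p 1 - 1, ((1 : ℕ) : ℤ)) = ((-1 : ℤ), (1 : ℤ)) := by rw [hp]; rfl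
    rw [← ey]
    refine h.imp_right ?_
    rintro ⟨d1, d2, d3⟩
    have S := str_flip H (i := 1) le_rfl hk.le d2 (fun _ => hlt') fun j' _ e => by omega
    have e1 : Function.update p 1 (p 1 - 1) 1 = -1 := by rw [Function.update_self, hp]; rfl
    refine ⟨d1, by rw [hp] at d3; exact d3, by rw [hp] at d2; exact d2, ?_, fun q Z => ?_⟩
    · have := P1 _ _ _ S
      rw [e1] at this
      exact this.trans (hP.anti _ _ fun j' hj _ => gaps_ge le_rfl hk hlt' H.anti j' hj)
    · have := P2 _ _ _ q S (zcl_low Z hk _ _)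
      rwa [e1] at this
  · subst hk
    have h := cn 1 le_rfl le_rfl (Z.2.2.2.1 _ (by have := Z.2.2.1; omega) (by omega)).1
    have ey : (p 1 - 1, ((1 : ℕ) : ℤ)) = ((-1 : ℤ), (1 : ℤ)) := by rw [hp]; rfl
    rw [← ey]
    refine h.imp_right ?_
    rintro ⟨d1, d2, d3⟩
    have S := str_flip H (i := 1) le_rfl le_rfl d2 (fun h => by omega) fun j' _ e => by omega
    have := cut hpar1 hP hε le_rfl Z d2 S
    have e1 : Function.update p 1 (p 1 - 1) 1 = -1 := by rw [Function.update_self, hp]; rfl
    rw [e1] at this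
    exact ⟨d1, by rw [hp] at d3; exact d3, by rw [hp] at d2; exact d2, this⟩

end

end Pool.Agent.BA
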