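import Pool.Agent.Lib.BA.Blue

/-! From cap creations to the patterns with a short arm. -/

open Finset

namespace Pool.Agent.BA

namespace ChainB

/-- exchange of the two ways an arm can end -/
def g0 (σ : Cfg) : Cfg := act ⟨true, false, true, false⟩ (sh (0, 1) σ)

theorem g0_apply (σ : Cfg) (a b : ℤ) : g0 σ (a, b) = !σ (a, 1 - b) := by
  simp [g0, act, sh, Fr.lin, add_comm, sub_eq_add_neg]

theorem dis_g0 (σ : Cfg) (a b : ℤ) : dis (g0 σ) (a, b) = dis σ (a, 1 - b) := by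
  simp [g0, dis_act, dis_sh, Fr.lin, add_comm, sub_eq_add_neg]

theorem flp_g0 (σ : Cfg) (a b : ℤ) : flp (g0 σ) (a, b) = g0 (flp σ (a, 1 - b)) := by
  simp [g0, flp_act, flp_sh, Fr.lin, add_comm, sub_eq_add_neg]

/-- the image of the opposite tie pattern -/
def OU (σ : Cfg) : Prop :=
  σ (-2, 1) = true ∧ σ (0, 1) = true ∧ σ (-1, 0) = false ∧ σ (-1, 2) = false ∧ σ (0, 0) = false

theorem chk_g0 {σ : Cfg} (h : Chk σ) : Chk (g0 σ) := by
  obtain ⟨h1, h2, h3, h4⟩ := h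
  simp [Chk, g0_apply, h1, h2, h3, h4]

theorem pre_g0 {σ : Cfg} (h : Pre σ) : Pre (g0 σ) := by
  obtain ⟨⟨a, b⟩, hy, h1, h2⟩ := h
  refine ⟨(a, 1 - b), ?_, ?_, ?_⟩
  · simp only [mem_insert, mem_singleton, Prod.mk.injEq] at hy ⊢
    omega
  · rw [dis_g0]; simpa using h1
  · rw [flp_g0]; simpa using chk_g0 h2

theorem ot_g0 {σ : Cfg} (h : OT σ) : OU (g0 σ) := by
  obtain ⟨h1, h2, h3, h4, h5⟩ := h
  simp [OU, g0_apply, h1, h2, h3, h4, h5]

theorem bond_g0 {σ : Cfg} {c : ℤ} (h : Bond σ c 0) : Bond (g0 σ) c 0 := by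
  obtain ⟨h1, h2⟩ := h
  simp only [zero_add] at h1
  simp [Bond, g0_apply, h1, h2]

theorem arm_hook {M : ℕ} {σ : Cfg} (h : Arm M σ) : Hook M σ ∨ Hook M (g0 σ) := by
  classical
  obtain ⟨n, ⟨h1, h2, h3⟩, hm⟩ : ∃ n : ℕ, (1 ≤ n ∧ n ≤ M ∧ ¬ Bond σ n 0) ∧
      ∀ i : ℕ, i < n → ¬ (1 ≤ i ∧ i ≤ M ∧ ¬ Bond σ i 0) :=
    ⟨Nat.find h, Nat.find_spec h, fun i hi => Nat.find_min h hi⟩
  have hmin : ∀ i : ℕ, 1 ≤ i → i < n → Bond σ i 0 := fun i hi hlt => by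
    by_contra hb
    exact hm i hlt ⟨hi, by omega, hb⟩
  by_cases hn : σ ((n : ℤ), 1) = false
  · exact Or.inl ⟨_, h1, h2, hmin, hn⟩
  · refine Or.inr ⟨_, h1, h2, fun i hi hlt => bond_g0 (hmin i hi hlt), ?_⟩
    rw [g0_apply]
    simp only [Bond, zero_add, not_and] at h3
    simp only [Bool.not_eq_false] at hn
    have := h3 hn
    simpa using this

theorem hook_flp {M : ℕ} {σ : Cfg} (h : Hook M σ) {y : V} (hy : y.1 ≤ 0) : Hook M (flp σ y) := by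
  obtain ⟨n, h1, h2, h3, h4⟩ := h
  have e : ∀ (i : ℕ) (r : ℤ), 1 ≤ i → flp σ y ((i : ℤ), r) = σ ((i : ℤ), r) := fun i r hi =>
    flp_ne _ fun e => by rw [← e] at hy; simp only at hy; omega
  refine ⟨n, h1, h2, fun i hi hlt => ?_, by rw [e n 1 h1]; exact h4⟩
  have := h3 i hi hlt
  simp only [Bond] at this ⊢
  rw [e i _ hi, e i _ hi]
  exact this

theorem card_box2 : (box 2).card = 25 := by rw [box, card_boxAt]; norm_num

theorem arm_dom (harm : St_ARM) {lam K1 K2 : ℝ} (h0 : 0 ≤ lam) (h1 : lam ≤ 1) {q p : Cfg → Prop}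
    {a M : ℕ} (hq : DepOn q (box 2)) (hp : Loc p) (ha : 1 ≤ a)
    (H1 : ∀ σ, q σ → (∀ i : ℕ, i < a → Bond σ (-(i : ℤ)) 0) ∧ ¬ Bond σ (-(a : ℤ)) 0)
    (H2 : ∀ σ, p σ → (q σ ∧ Hook M σ) ∨ ∃ y, 2 ≤ dis σ y ∧ q (flp σ y) ∧ Hook M (flp σ y))
    (D1 : Dom lam K1 fun σ => ind (q σ ∧ Hook M σ)) (D2 : Dom lam K2 fun σ => ind (Red 2 σ)) :
    Dom lam (59 * K1 + 4 * K2) fun σ => ind (p σ) := by
  refine ⟨hp.ind, fun D hD => ?_⟩
  have := harm lam D h0 h1 hD q p (box 2) a M hq hp ha H1 H2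
  rw [card_box2] at this
  have e1 := D1.2 D hD
  have e2 := D2.2 D hD
  push_cast at this
  nlinarith

/-- target after the flip out of a checkerboard -/
def Q1 (σ : Cfg) : Prop := σ (-1, 1) = true ∧ σ (-1, 0) = true ∧ σ (-2, 1) = false ∧
  σ (-1, 2) = false ∧ σ (0, 1) = true ∧ σ (0, 0) = false
/-- lower neck plus -/
def Q2 (σ : Cfg) : Prop := OT σ ∧ σ (-2, 1) = false ∧ σ (-1, 0) = true
/-- upper neck plus -/
def Q3 (σ : Cfg) : Prop := OU σ ∧ σ (-2, 0) = true ∧ σ (-1, 1) = true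

theorem agree {σ σ' : Cfg} (h : ∀ x ∈ box 2, σ x = σ' x) :
    σ (-1, 1) = σ' (-1, 1) ∧ σ (-1, 0) = σ' (-1, 0) ∧ σ (-2, 1) = σ' (-2, 1) ∧
    σ (-1, 2) = σ' (-1, 2) ∧ σ (0, 1) = σ' (0, 1) ∧ σ (0, 0) = σ' (0, 0) ∧
    σ (-2, 0) = σ' (-2, 0) ∧ σ (-1, -1) = σ' (-1, -1) := by
  refine ⟨?_, ?_, ?_, ?_, ?_, ?_, ?_, ?_⟩ <;> exact h _ (by rw [mem_box]; norm_num)

theorem dep_Q1 : DepOn Q1 (box 2) := fun σ σ' h => by
  obtain ⟨h1, h2, h3, h4, h5, h6, h7, h8⟩ := agree h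
  simp only [Q1, h1, h2, h3, h4, h5, h6]
theorem dep_Q2 : DepOn Q2 (box 2) := fun σ σ' h => by
  obtain ⟨h1, h2, h3, h4, h5, h6, h7, h8⟩ := agree h
  simp only [Q2, OT, h1, h2, h3, h5, h6, h7, h8]
theorem dep_Q3 : DepOn Q3 (box 2) := fun σ σ' h => by
  obtain ⟨h1, h2, h3, h4, h5, h6, h7, h8⟩ := agree h
  simp only [Q3, OU, h1, h2, h3, h4, h5, h6, h7]
theorem dep_Chk : DepOn Chk (box 2) := fun σ σ' h => by
  obtain ⟨h1, h2, h3, h4, h5, h6, h7, h8⟩ := agree h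
  simp only [Chk, h1, h2, h5, h6]

theorem loc_OU : Loc OU :=
  (Loc.evalEq _ _).and ((Loc.evalEq _ _).and ((Loc.evalEq _ _).and ((Loc.evalEq _ _).and
    (Loc.evalEq _ _))))

theorem end_one {σ : Cfg} (h1 : σ (0, 1) = true) (h2 : σ (0, 0) = false)
    (h3 : σ (-1, 1) = false ∨ σ (-1, 0) = true) :
    (∀ i : ℕ, i < 1 → Bond σ (-(i : ℤ)) 0) ∧ ¬ Bond σ (-((1 : ℕ) : ℤ)) 0 := by
  refine ⟨fun i hi => ?_, ?_⟩
  · obtain rfl : i = 0 := by omega
    simp [Bond, h1, h2]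
  · rcases h3 with h3 | h3 <;> simp [Bond, h3]

section
variable (harm : St_ARM) (hnpw : St_NPW) {lam K R : ℝ} (h0 : 0 ≤ lam) (h1 : lam ≤ 1) {L : ℕ}
  (hC : Dom lam K fun σ => ind (Cr (L + 1) σ)) (hR : Dom lam R fun σ => ind (Red 2 σ))
include harm h0 h1 hC hR

theorem dom_chk : Dom lam (59 * K + 4 * R + R) fun σ => ind (Chk σ ∧ Hook L σ) := by
  have d1 : Dom lam K fun σ => ind (Q1 σ ∧ Hook L σ) := by
    refine hC.mono (dep_Q1.loc.and (loc_Hook L)).ind fun σ => ind_mono ?_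
    rintro ⟨⟨a1, a2, a3, a4, a5, a6⟩, hh⟩
    refine Or.inl ⟨a1, ?_, by simp [a2], by simp [Bond, a5, a6], hh.mono (Nat.le_succ L)⟩
    simp [dis, a1, a2, a3, a4, a5]
  have d2 := arm_dom harm h0 h1 (p := fun σ => (Chk σ ∧ Hook L σ) ∧ ¬ Red 2 σ) (a := 1) dep_Q1
    ((loc_Chk.and (loc_Hook L)).and (loc_Red 2).not) le_rfl
    (fun σ h => end_one h.2.2.2.2.1 h.2.2.2.2.2 (Or.inr h.2.1)) (by
      rintro σ ⟨⟨⟨a1, a2, a3, a4⟩, hh⟩, hr⟩
      have hd : ¬ 3 ≤ dis σ (-1, 1) := fun h => hr (.base σ _ (by rw [mem_box]; norm_num) h)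
      have b1 : σ (-2, 1) = false := by
        by_contra b
        simp only [Bool.not_eq_false] at b
        apply hd
        simp only [dis]
        norm_num [a1, a2, a3, b]
        split_ifs <;> omega
      have b2 : σ (-1, 2) = false := by
        by_contra b
        simp only [Bool.not_eq_false] at b
        apply hd
        simp only [dis]
        norm_num [a1, a2, a3, b]
        split_ifs <;> omega
      refine Or.inr ⟨(-1, 1), by simp [dis, a1, a2, a3, b1, b2], ?_, hook_flp hh (by norm_num)⟩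
      simp [Q1, flp, a1, a2, a3, a4, b1, b2]) d1 hR
  refine (d2.add hR).mono (loc_Chk.and (loc_Hook L)).ind fun σ => ?_
  refine le_trans (ind_mono fun h => ?_) (ind_or_le _ _)
  by_cases hr : Red 2 σ
  · exact Or.inr hr
  · exact Or.inl ⟨h, hr⟩

theorem dom_pre :
    Dom lam (59 * (59 * K + 4 * R + R) + 4 * R) fun σ => ind (Pre σ ∧ Hook L σ) := by
  refine arm_dom harm h0 h1 (a := 1) dep_Chk (loc_Pre.and (loc_Hook L)) le_rfl
    (fun σ h => end_one h.2.2.1 h.2.2.2 (Or.inl h.1)) ?_ (dom_chk harm h0 h1 hC hR) hR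
  rintro σ ⟨⟨y, hy, a1, a2⟩, hh⟩
  refine Or.inr ⟨y, a1, a2, hook_flp hh ?_⟩
  simp only [mem_insert, mem_singleton] at hy
  rcases hy with rfl | rfl | rfl | rfl <;> norm_num

include hnpw

theorem dom_ot : Dom lam (59 * K + 4 * R + R) fun σ => ind (OT σ ∧ Hook L σ) := by
  have d1 : Dom lam K fun σ => ind (Q2 σ ∧ Hook L σ) := by
    refine (hC.sh (-1, 0)).mono (dep_Q2.loc.and (loc_Hook L)).ind fun σ => ind_mono ?_
    rintro ⟨⟨⟨a1, a2, a3, a4, a5⟩, a6, a7⟩, n, n1, n2, n3, n4⟩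
    refine Or.inr ⟨by simpa [sh] using a7, ?_, by simpa [sh] using a3, by simpa [sh] using a6,
      n + 1, by omega, by omega, fun i hi hlt => ?_, by simpa [sh] using n4⟩
    · rw [dis_sh]; simp [dis, a1, a2, a3, a4, a7]
    · obtain ⟨j, rfl⟩ : ∃ j, i = j + 1 := ⟨i - 1, by omega⟩
      rcases Nat.eq_zero_or_pos j with rfl | hj
      · simp [Bond, sh, a2, a5]
      · have := n3 j hj (by omega)
        simpa [Bond, sh] using this
  have d2 := arm_dom harm h0 h1 (p := fun σ => (OT σ ∧ Hook L σ) ∧ σ (-2, 1) = false) (a := 1)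
    dep_Q2 ((loc_OT.and (loc_Hook L)).and (Loc.evalEq _ _)) le_rfl
    (fun σ h => end_one h.1.2.2.2.2 h.1.2.1 (Or.inr h.2.2)) (by
      rintro σ ⟨⟨⟨a1, a2, a3, a4, a5⟩, hh⟩, a6⟩
      by_cases a7 : σ (-1, 0) = true
      · exact Or.inl ⟨⟨⟨a1, a2, a3, a4, a5⟩, a6, a7⟩, hh⟩
      · simp only [Bool.not_eq_true] at a7
        refine Or.inr ⟨(-1, 0), by simp [dis, a1, a2, a3, a4, a7], ?_, hook_flp hh (by norm_num)⟩
        simp [Q2, OT, flp, a1, a2, a3, a4, a5, a6, a7]) d1 hR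
  refine (d2.add (hR.sh (-1, 0))).mono (loc_OT.and (loc_Hook L)).ind fun σ => ?_
  refine le_trans (ind_mono fun h => ?_) (ind_or_le _ _)
  by_cases a6 : σ (-2, 1) = false
  · exact Or.inl ⟨h, a6⟩
  · simp only [Bool.not_eq_false] at a6
    obtain ⟨⟨a1, a2, a3, a4, a5⟩, -⟩ := h
    exact Or.inr (hnpw.1 _ (by simp [Opp, sh, a1, a2, a3, a4]) (Or.inl (by simp [sh, a5, a6])))

theorem dom_ou : Dom lam (59 * K + 4 * R + R) fun σ => ind (OU σ ∧ Hook L σ) := by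
  have d1 : Dom lam K fun σ => ind (Q3 σ ∧ Hook L σ) := by
    refine hC.mono (dep_Q3.loc.and (loc_Hook L)).ind fun σ => ind_mono ?_
    rintro ⟨⟨⟨a1, a2, a3, a4, a5⟩, a6, a7⟩, hh⟩
    refine Or.inl ⟨a7, ?_, by simp [a1], by simp [Bond, a2, a5], hh.mono (Nat.le_succ L)⟩
    simp [dis, a1, a2, a3, a4, a7]
  have d2 := arm_dom harm h0 h1 (p := fun σ => (OU σ ∧ Hook L σ) ∧ σ (-2, 0) = true) (a := 2)
    dep_Q3 ((loc_OU.and (loc_Hook L)).and (Loc.evalEq _ _)) (by norm_num) (by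
      rintro σ ⟨⟨a1, a2, a3, a4, a5⟩, a6, a7⟩
      refine ⟨fun i hi => ?_, by simp [Bond, a6]⟩
      obtain rfl | rfl : i = 0 ∨ i = 1 := by omega
      · simp [Bond, a2, a5]
      · simp [Bond, a3, a7]) (by
      rintro σ ⟨⟨⟨a1, a2, a3, a4, a5⟩, hh⟩, a6⟩
      by_cases a7 : σ (-1, 1) = true
      · exact Or.inl ⟨⟨⟨a1, a2, a3, a4, a5⟩, a6, a7⟩, hh⟩
      · simp only [Bool.not_eq_true] at a7
        refine Or.inr ⟨(-1, 1), by simp [dis, a1, a2, a3, a4, a7], ?_, hook_flp hh (by norm_num)⟩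
        simp [Q3, OU, flp, a1, a2, a3, a4, a5, a6, a7]) d1 hR
  refine (d2.add (hR.sh (-1, 1))).mono (loc_OU.and (loc_Hook L)).ind fun σ => ?_
  refine le_trans (ind_mono fun h => ?_) (ind_or_le _ _)
  by_cases a6 : σ (-2, 0) = true
  · exact Or.inl ⟨h, a6⟩
  · simp only [Bool.not_eq_true] at a6
    obtain ⟨⟨a1, a2, a3, a4, a5⟩, -⟩ := h
    exact Or.inr (hnpw.1 _ (by simp [Opp, sh, a1, a2, a3, a4])
      (Or.inr (Or.inr (Or.inl (by simp [sh, a5, a6])))))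

end

end ChainB

open ChainB in
theorem st_chain (harm : St_ARM) (hred : St_RED) (hnpw : St_NPW) : St_CHAIN := by
  obtain ⟨R, hR0, hR⟩ := hred 2
  refine ⟨8000 * (R + 1), by positivity, fun L lam K h0 h1 hK hC => ?_⟩
  have hR' := hR lam h0 h1
  have d := (((dom_chk harm h0 h1 hC hR').add (dom_pre harm h0 h1 hC hR')).add
    (dom_ot harm hnpw h0 h1 hC hR')).add (dom_ou harm hnpw h0 h1 hC hR')
  have d' := (d.act ⟨true, false, true, false⟩).sh (0, 1)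
  refine ((d.add d').mono (loc_PA L).ind fun σ => ?_).le (by nlinarith [mul_nonneg hR0 hK])
  have n1 := fun τ => ind_nonneg (Chk τ ∧ Hook L τ)
  have n2 := fun τ => ind_nonneg (Pre τ ∧ Hook L τ)
  have n3 := fun τ => ind_nonneg (OT τ ∧ Hook L τ)
  have n4 := fun τ => ind_nonneg (OU τ ∧ Hook L τ)
  change _ ≤ _ + (ind (Chk (g0 σ) ∧ Hook L (g0 σ)) + ind (Pre (g0 σ) ∧ Hook L (g0 σ)) +
    ind (OT (g0 σ) ∧ Hook L (g0 σ)) + ind (OU (g0 σ) ∧ Hook L (g0 σ)))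
  have a1 := n1 σ
  have a2 := n2 σ
  have a3 := n3 σ
  have a4 := n4 σ
  have b1 := n1 (g0 σ)
  have b2 := n2 (g0 σ)
  have b3 := n3 (g0 σ)
  have b4 := n4 (g0 σ)
  by_cases hp : PA L σ
  · rw [ind_of hp]
    obtain ⟨hp, ha⟩ := hp
    rcases arm_hook ha with hh | hh <;> rcases hp with hp | hp | hp
    · rw [ind_of (And.intro hp hh)]; linarith
    · rw [ind_of (And.intro hp hh)]; linarith
    · rw [ind_of (And.intro hp hh)]; linarith
    · rw [ind_of (And.intro (chk_g0 hp) hh)]; linarith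
    · rw [ind_of (And.intro (pre_g0 hp) hh)]; linarith
    · rw [ind_of (And.intro (ot_g0 hp) hh)]; linarith
  · rw [ind_of_not hp]; linarith

end Pool.Agent.BA
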