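import Pool.Agent.Lib.BA.Blue

/-! The total charge of the caps is dominated (mass transport). -/

open Finset

namespace Pool.Agent.BA

noncomputable section
open Classical

namespace ChgB

theorem sum_cap_le (s : Finset ℕ) (σ : Cfg) (c : ℕ → ℝ) (B : ℝ) (hB : 0 ≤ B)
    (h : ∀ n ∈ s, Cap n σ → c n ≤ B) : ∑ n ∈ s, ind (Cap n σ) * c n ≤ B := by
  by_cases hc : ∃ n ∈ s, Cap n σ
  · obtain ⟨n, hn, hcap⟩ := hc
    rw [sum_eq_single_of_mem n hn fun k _ hk => by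
      rw [ind_of_not fun h2 => hk (Cap.unique h2 hcap), zero_mul], ind_of hcap, one_mul]
    exact h n hn hcap
  · rw [sum_eq_zero fun n hn => by rw [ind_of_not fun h2 => hc ⟨n, hn, h2⟩, zero_mul]]
    exact hB

theorem dom_mt (hmt : St_MT) {lam K : ℝ} (S : Finset V) (R : V → Cfg → Prop) (g : Cfg → ℝ)
    (hR : ∀ z ∈ S, Loc (R z)) (hg : Dom lam K g) (h0 : ∀ σ, 0 ≤ g σ)
    (hu : ∀ σ, ∀ z ∈ S, ∀ z' ∈ S, R z (sh (-z) σ) → R z' (sh (-z') σ) → z = z') :
    Dom lam K fun σ => ∑ z ∈ S, ind (R z σ) * g (sh z σ) :=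
  ⟨Loc.sum S fun z hz => (hR z hz).ind.mul (hg.1.sh z), fun D hD =>
    (hmt D hD.toLin S R g hR hg.1 h0 hu).trans (hg.2 D hD)⟩

theorem dom_shift {lam K : ℝ} (s : Finset ℕ) (F : ℕ → Cfg → ℝ) (hF : ∀ n ∈ s, Loc (F n))
    (z : ℕ → V) (h : Dom lam K fun σ => ∑ n ∈ s, F n σ) :
    Dom lam K fun σ => ∑ n ∈ s, F n (sh (z n) σ) := by
  refine ⟨Loc.sum s fun n hn => (hF n hn).sh _, fun D hD => ?_⟩
  have h1 := h.2 D hD
  rw [hD.toPos.sum s hF] at h1
  rw [hD.toPos.sum s (F := fun n σ => F n (sh (z n) σ)) fun n hn => (hF n hn).sh _,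
    sum_congr rfl fun n hn => hD.shift (z n) (F n) (hF n hn)]
  exact h1

theorem chl_le (m : ℕ) (σ : Cfg) : Chl m σ ≤ ∑ z ∈ LB m, ind (Trk (LB m) σ z) *
    ∑ d ∈ box 1, ind (Bad (m + 1) (sh d (sh z σ))) := by
  have h1 : Chl m σ ≤ ∑ y ∈ LB m, ∑ z ∈ LB m,
      ind (Trk (LB m) σ z) * ind (y - z ∈ box 1 ∧ Bad (m + 1) (sh y σ)) := by
    refine sum_le_sum fun y _ => ?_
    refine le_trans (ind_mono ?_) ((ind_exists_le (LB m) fun z =>
      Trk (LB m) σ z ∧ (y - z ∈ box 1 ∧ Bad (m + 1) (sh y σ))).trans_eq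
        (sum_congr rfl fun z _ => ind_and _ _))
    rintro ⟨⟨z, hz, h2, h3⟩, h4⟩
    exact ⟨z, hz, h2, h3, h4⟩
  refine h1.trans ?_
  rw [sum_comm]
  refine sum_le_sum fun z _ => ?_
  rw [← mul_sum]
  refine mul_le_mul_of_nonneg_left ?_ (ind_nonneg _)
  have h2 : ∑ y ∈ LB m, ind (y - z ∈ box 1 ∧ Bad (m + 1) (sh y σ)) =
      ∑ y ∈ (LB m).filter (fun y => y - z ∈ box 1), ind (Bad (m + 1) (sh y σ)) := by
    rw [sum_filter]
    refine sum_congr rfl fun y _ => ?_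
    by_cases hy : y - z ∈ box 1
    · rw [if_pos hy]; exact ind_congr (and_iff_right hy)
    · rw [if_neg hy]; exact ind_of_not fun h => hy h.1
  have h3 : ∑ d ∈ box 1, ind (Bad (m + 1) (sh d (sh z σ))) =
      ∑ y ∈ (box 1).image (· + z), ind (Bad (m + 1) (sh y σ)) := by
    rw [sum_image fun a _ b _ h => add_right_cancel h]
    simp only [sh_sh]
  rw [h2, h3]
  refine sum_le_sum_of_subset_of_nonneg (fun y hy => ?_) fun _ _ _ => ind_nonneg _
  exact mem_image.2 ⟨y - z, (mem_filter.1 hy).2, sub_add_cancel y z⟩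

theorem dom_left (hmt : St_MT) (hown : St_OWN) (m N : ℕ) {lam K : ℝ}
    (h : Dom lam K fun σ => ind (Bad (m + 1) σ)) :
    Dom lam (9 * K) fun σ => ∑ n ∈ Icc 2 N, ind (Cap n σ) * Chl m σ := by
  have hg : Dom lam (9 * K) fun σ => ∑ d ∈ box 1, ind (Bad (m + 1) (sh d σ)) := by
    have := Dom.sum (box 1) (F := fun d σ => ind (Bad (m + 1) (sh d σ))) fun d _ => h.sh d
    rw [box, card_boxAt] at this
    norm_num at this
    exact this
  have h1 := dom_mt hmt (LB m) (fun z σ => Alive N σ ∧ Trk (LB m) σ z) _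
    (fun z _ => (loc_Alive N).and (loc_Trk _ z)) hg
    (fun σ => sum_nonneg fun _ _ => ind_nonneg _) (by
      rintro σ z _ z' _ ⟨⟨n, a1, _, a2⟩, a3⟩ ⟨⟨n', b1, _, b2⟩, b3⟩
      exact hown (LB m) σ z z' n n' (by omega) (by omega) a2 b2 a3 b3)
  refine h1.mono (Loc.sum _ fun n _ => (loc_Cap n).ind.mul (loc_Chl m)) fun σ => ?_
  refine sum_cap_le _ σ _ _ (sum_nonneg fun _ _ => mul_nonneg (ind_nonneg _)
    (sum_nonneg fun _ _ => ind_nonneg _)) fun n hn hc => ?_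
  refine (chl_le m σ).trans (sum_le_sum fun z _ => ?_)
  have ha : Alive N σ := ⟨n, (mem_Icc.1 hn).1, (mem_Icc.1 hn).2, hc⟩
  rw [ind_congr (and_iff_right ha)]

theorem cap_mir {n : ℕ} {σ : Cfg} (h : Cap n σ) : Cap n (mir n σ) := by
  obtain ⟨h1, h2, h3⟩ := h
  refine ⟨?_, ?_, fun i hi => ?_⟩
  · simp only [mir]
    rw [show (n : ℤ) - 1 - -1 = n by ring]; exact h2
  · simp only [mir]
    rw [show (n : ℤ) - 1 - n = -1 by ring]; exact h1
  · have h4 := h3 (n - 1 - i) (by omega)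
    have e : ((n - 1 - i : ℕ) : ℤ) = (n : ℤ) - 1 - i := by omega
    rw [e] at h4
    exact h4

theorem dom_right (hmt : St_MT) (hown : St_OWN) (m N : ℕ) {lam K : ℝ}
    (h : Dom lam K fun σ => ind (Bad (m + 1) σ)) :
    Dom lam (9 * K) fun σ => ∑ n ∈ Icc 2 N, ind (Cap n σ) * Chl m (mir n σ) := by
  have h1 := (dom_left hmt hown m N h).act ⟨false, true, false, false⟩
  have h2 := dom_shift (Icc 2 N) (fun n σ => ind (Cap n (act ⟨false, true, false, false⟩ σ)) *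
    Chl m (act ⟨false, true, false, false⟩ σ))
    (fun n _ => ((loc_Cap n).ind.mul (loc_Chl m)).act _) (fun n => ((n : ℤ) - 1, 0)) h1
  refine h2.mono (Loc.sum _ fun n _ => (loc_Cap n).ind.mul ((loc_Chl m).mir n)) fun σ => ?_
  refine sum_le_sum fun n _ => ?_
  simp only [← mir_eq]
  exact mul_le_mul_of_nonneg_right (ind_mono cap_mir) (Chl_nonneg _ _)

theorem dom_row (hmt : St_MT) (N : ℕ) (r : ℤ) {lam K : ℝ}
    (h : Dom lam K fun σ => ind (Red 4 σ)) :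
    Dom lam K fun σ => ∑ n ∈ Icc 2 N, ind (Cap n σ) *
      ∑ i ∈ range n, ind (Red 2 (sh (i, r) σ)) := by
  have hg : Dom lam K fun σ => ind (Red 2 σ) :=
    h.mono (loc_Red 2).ind fun σ => ind_mono (Red.mono (by norm_num))
  have key : ∀ (σ : Cfg) (i j n k : ℕ), i < j → j < k → Cap n (sh (-((i : ℤ), r)) σ) →
      Cap k (sh (-((j : ℤ), r)) σ) → False := by
    intro σ i j n k hij hjk a b
    have a1 := a.1
    have b1 := (b.2.2 (j - i - 1) (by omega)).1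
    simp only [sh, Prod.neg_mk, Prod.mk_add_mk] at a1 b1
    have e : ((j - i - 1 : ℕ) : ℤ) + -(j : ℤ) = -1 + -(i : ℤ) := by omega
    rw [e, zero_add, a1] at b1
    exact Bool.false_ne_true b1
  have h1 := dom_mt hmt ((range N).image fun i : ℕ => ((i : ℤ), r))
    (fun z σ => ∃ n ∈ Icc 2 N, Cap n σ ∧ z.1 < n) _
    (fun z _ => Loc.bex _ fun n _ => (loc_Cap n).and (Loc.const _)) hg (fun σ => ind_nonneg _) (by
      rintro σ z hz z' hz' ⟨n, _, a1, a2⟩ ⟨n', _, b1, b2⟩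
      obtain ⟨i, _, rfl⟩ := mem_image.1 hz
      obtain ⟨j, _, rfl⟩ := mem_image.1 hz'
      simp only at a2 b2
      rcases lt_trichotomy i j with H | H | H
      · exact (key σ i j n n' H (by omega) a1 b1).elim
      · rw [H]
      · exact (key σ j i n' n H (by omega) b1 a1).elim)
  refine h1.mono (Loc.sum _ fun n _ => (loc_Cap n).ind.mul
    (Loc.sum _ fun i _ => ((loc_Red 2).sh _).ind)) fun σ => ?_
  refine sum_cap_le _ σ _ _ (sum_nonneg fun _ _ => mul_nonneg (ind_nonneg _) (ind_nonneg _))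
    fun n hn hc => ?_
  rw [sum_image fun a _ b _ h => by simpa using h]
  have h2 : ∑ i ∈ range n, ind (Red 2 (sh ((i : ℤ), r) σ)) = ∑ i ∈ range n,
      ind (∃ k ∈ Icc 2 N, Cap k σ ∧ ((i : ℤ), r).1 < k) * ind (Red 2 (sh ((i : ℤ), r) σ)) := by
    refine sum_congr rfl fun i hi => ?_
    rw [ind_of (p := ∃ k ∈ Icc 2 N, Cap k σ ∧ ((i : ℤ), r).1 < k)
      ⟨n, hn, hc, by simpa using hi⟩, one_mul]
  rw [h2]
  exact sum_le_sum_of_subset_of_nonneg (range_subset_range.2 (mem_Icc.1 hn).2)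
    fun _ _ _ => mul_nonneg (ind_nonneg _) (ind_nonneg _)

end ChgB

open ChgB in
theorem st_chg (hmt : St_MT) (hown : St_OWN) : St_CHG := by
  intro m N lam K1 K2 h1 h2
  have h3 : Dom lam K2 fun σ => ∑ n ∈ Icc 2 N, ind (Cap n σ) * ind (Red 4 σ) :=
    h2.mono (Loc.sum _ fun n _ => (loc_Cap n).ind.mul (loc_Red 4).ind) fun σ =>
      sum_cap_le _ σ _ _ (ind_nonneg _) fun _ _ _ => le_rfl
  have h4 := ((((dom_left hmt hown m N h1).add (dom_right hmt hown m N h1)).add h3).add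
    (dom_row hmt N 1 h2)).add (dom_row hmt N 0 h2)
  refine (h4.mono (loc_Chg m N) fun σ => le_of_eq ?_).le (le_of_eq (by ring))
  simp only [Chg, ← sum_add_distrib]
  refine sum_congr rfl fun n _ => ?_
  rw [sum_add_distrib]
  ring

end

end Pool.Agent.BA
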