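import Pool.Agent.Lib.BA.Blue

open Finset Filter Topology

namespace Pool.Agent.BA

namespace CoreB

theorem le_Lb (b : ℕ) : b ≤ Lb b := by
  unfold Lb
  exact (Nat.lt_two_pow_self).le.trans (Nat.lt_two_pow_self).le

theorem small (K : ℕ) (c : ℝ) (hc : 0 < c) :
    ∃ T : ℕ, ∀ t : ℕ, T ≤ t → 8 * ((K : ℝ) * ((t ^ 2 : ℕ) : ℝ)) ^ 2 / (((t ^ 7 : ℕ) : ℝ) + 1) ≤ c := by
  obtain ⟨T, hT⟩ := exists_nat_ge (8 * (K : ℝ) ^ 2 / c)
  refine ⟨T + 1, fun t ht => ?_⟩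
  have h1 : (1 : ℝ) ≤ t := by exact_mod_cast (by omega : 1 ≤ t)
  have h2 : (T : ℝ) ≤ t := by exact_mod_cast (by omega : T ≤ t)
  push_cast
  rw [div_le_iff₀ (by positivity)]
  rw [div_le_iff₀ hc] at hT
  have h3 : (t : ℝ) ≤ t ^ 3 := by nlinarith [sq_nonneg ((t : ℝ) - 1), sq_nonneg (t : ℝ)]
  have h4 : 8 * (K : ℝ) ^ 2 ≤ c * t ^ 3 := by nlinarith
  have h5 : (0 : ℝ) ≤ (t : ℝ) ^ 4 := by positivity
  have h6 := mul_le_mul_of_nonneg_right h4 h5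
  nlinarith

end CoreB

open CoreB in
theorem st_core (huniq : St_UNIQ) (hcov : St_COV) (hhmain : St_HMAIN) (hwin : St_WIN)
    (hvinit : St_VINIT) (henergy : St_ENERGY) : St_CORE := by
  intro m hF hI
  have hS := huniq m hF hI
  refine ⟨hS.st, ?_⟩
  have hU : ∀ t s : ℝ, 0 ≤ t → t ≤ s → 0 ≤ ∫ r in t..s, m r fU := fun t s ht hts =>
    intervalIntegral.integral_nonneg hts fun r hr =>
      (hS.pos r (ht.trans hr.1)).nonneg loc_fU fun _ => ind_nonneg _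
  have hanti : ∀ t s : ℝ, 0 ≤ t → t ≤ s → m s fe ≤ m t fe := fun t s ht hts => by
    have := henergy m hS t s ht hts
    have := hU t s ht hts
    linarith
  have hfe : ∀ t, 0 ≤ t → m t fe = 2 * m t fa := fun t ht => by
    have := (hS.pos t ht).add fa fb loc_fa loc_fb
    rw [show m t fe = m t (fun σ => fa σ + fb σ) from rfl, this, ← hS.sym t ht]; ring
  have hnn : ∀ t, 0 ≤ t → 0 ≤ m t fe := fun t ht =>
    (hS.pos t ht).nonneg loc_fe fun σ => add_nonneg (ind_nonneg _) (ind_nonneg _)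
  rw [Metric.tendsto_atTop]
  intro ε hε
  by_contra hcon
  push Not at hcon
  have hlow : ∀ s, 0 ≤ s → ε / 2 ≤ m s fa := by
    intro s hs
    obtain ⟨s', hs', h⟩ := hcon s
    rw [Real.dist_eq, sub_zero, abs_of_nonneg (hnn s' (hs.trans hs'))] at h
    have := hanti s s' hs hs'
    have := hfe s hs
    linarith
  obtain ⟨A, δ, hδ, hH⟩ := hhmain (ε / 2) (by positivity)
  obtain ⟨t0, ht0⟩ := hcov m hS hI (δ / 16) (by positivity)
  obtain ⟨K, hK⟩ := exists_nat_gt (16 / δ)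
  have hKpos : (0 : ℝ) < K := lt_trans (by positivity) hK
  have hK0 : 0 < K := by exact_mod_cast hKpos
  have hK1 : 1 / (K : ℝ) ≤ δ / 16 := by
    rw [div_lt_iff₀ hδ] at hK
    rw [div_le_div_iff₀ hKpos (by norm_num)]; linarith
  obtain ⟨T, hT⟩ := small K (δ / 4) (by positivity)
  obtain ⟨T0, hT0⟩ := exists_nat_ge t0
  obtain ⟨b, hb, w1, w2, w3⟩ := hwin m hS A δ hδ (T + T0 + 1)
  set t : ℕ := Lb b with htdef
  have htb : T + T0 + 1 ≤ t := hb.trans (le_Lb b)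
  have ht0' : (0 : ℝ) ≤ t := Nat.cast_nonneg _
  have htt : t0 ≤ (t : ℝ) := hT0.trans (by exact_mod_cast (by omega : T0 ≤ t))
  have hj : ∀ k : ℕ, 1 ≤ k → (t : ℝ) ^ 2 ≤ |(((k * t ^ 2 : ℕ) : ℤ) : ℝ)| := by
    intro k hk
    have h1 : (1 : ℝ) ≤ k := by exact_mod_cast hk
    push_cast
    rw [abs_of_nonneg (by positivity)]
    nlinarith [sq_nonneg (t : ℝ)]
  have va := hvinit (m t) (hS.st t ht0') fa loc_fa (fun σ => ⟨ind_nonneg _, ind_le_one _⟩) K (t ^ 2)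
    (t ^ 7) (δ / 16) hK0 (by positivity) fun k hk _ => (ht0 t htt _ (hj k hk)).1
  have vb := hvinit (m t) (hS.st t ht0') fb loc_fb (fun σ => ⟨ind_nonneg _, ind_le_one _⟩) K (t ^ 2)
    (t ^ 7) (δ / 16) hK0 (by positivity) fun k hk _ => (ht0 t htt _ (hj k hk)).2
  have hs := hT t (by omega)
  have hN : m t (NN (t ^ 7)) = nsq (m t) (ww ^ t ^ 7) fa + nsq (m t) (ww ^ t ^ 7) fb :=
    (hS.pos t ht0').add _ _ ((loc_fa.cv _).pow 2) ((loc_fb.cv _).pow 2)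
  refine hH m hS t (t ^ 7) ht0' (Nat.one_le_pow _ _ (by omega)) (fun s hs => hlow s (ht0'.trans hs))
    ?_ w1 w2 w3
  rw [hN]
  linarith

end Pool.Agent.BA
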