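import Pool.Agent.Lib.BA.Blue

/-! Decorrelation outside the light cone. -/

open Finset Filter Topology

namespace Pool.Agent.BA

namespace CovB

/-- the approximation error is uniformly small inside the parabola -/
theorem err (δ : ℝ) (hδ : 0 < δ) : ∃ r1 : ℕ, ∀ r : ℕ, r1 + 1 ≤ r → ∀ t : ℝ, 0 ≤ t → t ^ 2 ≤ 2 * r + 4 →
    4 * t * (2 * r + 3) ^ 2 * Real.exp (8 * t) * 2 ^ 1 / 2 ^ r ≤ δ := by
  set q : ℝ := Real.exp (1 / 4) / 2 with hq
  have hq0 : 0 < q := by positivity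
  have hq1 : |q| < 1 := by
    rw [abs_of_pos hq0, hq, div_lt_one two_pos]
    have h1 : Real.exp (1 / 4) < Real.exp (Real.log 2) :=
      Real.exp_lt_exp.2 (by linarith [Real.log_two_gt_d9])
    rwa [Real.exp_log two_pos] at h1
  have h1 := (tendsto_pow_const_mul_const_pow_of_abs_lt_one 3 hq1).const_mul (2744 * Real.exp 129)
  rw [mul_zero] at h1
  obtain ⟨r1, hr1⟩ := eventually_atTop.1 (h1.eventually (ge_mem_nhds hδ))
  refine ⟨r1, fun r hr t ht h2 => le_trans ?_ (hr1 r (by omega))⟩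
  have r1' : (1 : ℝ) ≤ r := by exact_mod_cast (by omega : 1 ≤ r)
  have h3 : t ≤ 7 * r := by nlinarith [sq_nonneg (t - 1)]
  have h4 : ((2 : ℝ) * r + 3) ^ 2 ≤ (7 * r) ^ 2 := by gcongr; linarith
  have h5 : Real.exp (8 * t) ≤ Real.exp 129 * Real.exp (1 / 4) ^ r := by
    rw [← Real.exp_nat_mul, ← Real.exp_add]
    exact Real.exp_le_exp.2 (by nlinarith [sq_nonneg (t - 32)])
  rw [hq, div_pow, ← mul_div_assoc, ← mul_div_assoc]
  refine div_le_div_of_nonneg_right ?_ (by positivity)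
  calc 4 * t * (2 * r + 3) ^ 2 * Real.exp (8 * t) * 2 ^ 1
      ≤ 4 * (7 * r) * (7 * r) ^ 2 * (Real.exp 129 * Real.exp (1 / 4) ^ r) * 2 ^ 1 := by gcongr
    _ = _ := by ring

theorem one (hapx : St_APX) {m : ℝ → (Cfg → ℝ) → ℝ} (hm : SFlow m) (h0 : Init (m 0)) {f : Cfg → ℝ}
    (hf : DepOn f (boxAt 0 1)) (hb : ∀ σ, |f σ| ≤ 1) {t δ : ℝ} (ht : 0 ≤ t) (hδ : 0 < δ) {j : ℤ} {r : ℕ}
    (hr : 1 ≤ r) (hj : 2 * (r : ℤ) + 3 ≤ |j|)
    (he : 4 * t * (2 * r + 3) ^ 2 * Real.exp (8 * t) * 2 ^ 1 / 2 ^ r ≤ δ) :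
    m t (fun σ => f σ * f (sh (j, 0) σ)) ≤ m t f ^ 2 + 6 * δ := by
  have hf2 : DepOn (fun σ => f (sh (j, 0) σ)) (boxAt (j, 0) 1) := fun σ σ' h =>
    hf _ _ fun x hx => h _ (by
      rw [mem_boxAt] at hx ⊢
      simp only [Prod.fst_add, Prod.snd_add, Prod.fst_zero, Prod.snd_zero] at hx ⊢
      omega)
  have hd : Disjoint (boxAt (0 : V) (r + 1)) (boxAt (j, 0) (r + 1)) := by
    rw [disjoint_left]
    intro x hx hx'
    rw [mem_boxAt] at hx hx'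
    simp only [Prod.fst_zero, Prod.snd_zero] at hx hx'
    push_cast at hx hx'
    rcases le_abs.1 hj with h | h <;> omega
  obtain ⟨F1, F2, d1, d2, b1, b2, H⟩ := hapx f _ 0 (j, 0) 1 r t δ hr ht hδ hf hf2 hb (fun σ => hb _) hd
  obtain ⟨e1, e2, e3⟩ := H m hm.toFlow
  rw [(hm.st t ht).shift _ f hf.loc] at e2
  rw [h0.indep F1 F2 _ _ d1 d2 hd] at e3
  have a1 : |m t f| ≤ 1 := (hm.pos t ht).abs_le_const (hm.one t ht) hf.loc hb
  have a2 : |m 0 F2| ≤ 1 := (hm.pos 0 le_rfl).abs_le_const (hm.one 0 le_rfl) d2.loc b2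
  have e1' : |m t f - m 0 F1| ≤ 2 * δ := by linarith
  have e2' : |m t f - m 0 F2| ≤ 2 * δ := by linarith
  have e3' := (abs_le.1 e3).2
  have k1 : |(m t f - m 0 F1) * m 0 F2| ≤ 2 * δ * 1 := by
    rw [abs_mul]; exact mul_le_mul e1' a2 (abs_nonneg _) (by positivity)
  have k2 : |m t f * (m t f - m 0 F2)| ≤ 1 * (2 * δ) := by
    rw [abs_mul]; exact mul_le_mul a1 e2' (abs_nonneg _) zero_le_one
  have k3 := (abs_le.1 k1).1
  have k4 := (abs_le.1 k2).1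
  nlinarith

theorem dep_fa : DepOn fa (boxAt 0 1) := fun σ σ' h => by
  simp only [fa]
  rw [h (0, 1) (by rw [mem_boxAt]; simp), h 0 (by rw [mem_boxAt]; simp)]

theorem dep_fb : DepOn fb (boxAt 0 1) := fun σ σ' h => by
  simp only [fb]
  rw [h (1, 0) (by rw [mem_boxAt]; simp), h 0 (by rw [mem_boxAt]; simp)]

theorem abs_ind (p : Prop) : |ind p| ≤ 1 := by rw [abs_of_nonneg (ind_nonneg p)]; exact ind_le_one p

end CovB

open CovB in
theorem st_cov (hapx : St_APX) : St_COV := by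
  intro m hm h0 ε hε
  obtain ⟨r1, hr1⟩ := err (ε / 6) (by positivity)
  refine ⟨2 * r1 + 5, fun t ht j hj => ?_⟩
  have p1 : (0 : ℝ) ≤ r1 := Nat.cast_nonneg _
  have t0 : 0 ≤ t := by linarith
  have h1 : ((2 * r1 + 5 : ℤ) : ℝ) ≤ ((|j| : ℤ) : ℝ) := by
    push_cast
    nlinarith
  have h2 : (2 * r1 + 5 : ℤ) ≤ |j| := by exact_mod_cast h1
  obtain ⟨r, hr, hr', hr''⟩ : ∃ r : ℕ, r1 + 1 ≤ r ∧ 2 * (r : ℤ) + 3 ≤ |j| ∧ |j| ≤ 2 * (r : ℤ) + 4 :=
    ⟨((|j| - 3) / 2).toNat, by omega, by omega, by omega⟩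
  have h3 : t ^ 2 ≤ 2 * r + 4 := hj.trans (by exact_mod_cast hr'')
  have he := hr1 r hr t t0 h3
  have e : ε = 6 * (ε / 6) := by ring
  rw [e]
  exact ⟨one hapx hm h0 dep_fa (fun σ => abs_ind _) t0 (by positivity) (by omega) hr' he,
    one hapx hm h0 dep_fb (fun σ => abs_ind _) t0 (by positivity) (by omega) hr' he⟩

end Pool.Agent.BA
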