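import Pool.Agent.Lib.BA.Blue

/-! Block CUP: the moves up and out. -/

namespace Pool.Agent.BA

namespace CupB

variable {m k j : ℕ} {σ τ : Cfg} {p p' : ℕ → ℤ}

theorem run_ext (hτ : ∀ c r : ℤ, (c ≠ p j ∨ r ≠ j) → τ (c, r) = σ (c, r)) (hy : τ (p j, j) = false)
    (hN : σ (p j, j + 1) = true) {q : ℤ} (h : Run σ j q (p j)) : Run τ j q (p j + 1) := by
  intro c h1 h2
  by_cases e : c = p j
  · subst e
    exact ⟨(hτ _ _ (Or.inr (by omega))).trans hN, hy⟩
  · have := h c h1 (by omega)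
    exact ⟨(hτ _ _ (Or.inl e)).trans this.1, (hτ _ _ (Or.inl e)).trans this.2⟩

theorem str_ext (S : Str m σ k p) (j1 : 1 ≤ j)
    (hτ : ∀ c r : ℤ, (c ≠ p j ∨ r ≠ j) → τ (c, r) = σ (c, r)) (hy : τ (p j, j) = false)
    (hp : ∀ i, i ≠ j → p' i = p i) (hj : p' j = p j + 1) (hE : σ (p j + 1, j) = true)
    (hN : σ (p j, j + 1) = true) (hNE : σ (p j + 1, j + 1) = true) (hlt : ∀ i, 1 ≤ i → i + 1 = j → p j < p i)
    {l : ℕ} (jl : j ≤ l) (lk : l ≤ k) (hg : j < l → p j - p (j + 1) < m) : Str m τ l p' := by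
  refine ⟨by omega, lk.trans S.le, fun i h1 h2 => ?_, fun i h1 h2 => ?_, fun i h1 h2 => ?_, fun i h1 h2 => ?_,
    fun i h1 h2 => ?_, fun i h1 h2 => ?_⟩
  · by_cases e : i = j
    · rw [e, hj, hτ _ _ (Or.inl (by omega)), hE]
    · rw [hp i e, hτ _ _ (Or.inr (by omega)), S.plus i h1 (by omega)]
  · by_cases e : i = j
    · rw [e, hj, add_sub_cancel_right, hy]
    · rw [hp i e, hτ _ _ (Or.inr (by omega)), S.minus i h1 (by omega)]
  · by_cases e : i = j
    · rw [e, hj, hτ _ _ (Or.inl (by omega)), hNE]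
    · have := hlt i h1
      rw [hp i e, hτ _ _ (by omega), S.up i h1 (by omega)]
  · have a1 := S.anti i h1 (by omega)
    have a2 := hlt i h1
    have a3 := hp i
    have a4 := hp (i + 1)
    by_cases e : i = j
    · subst e
      omega
    · by_cases e' : i + 1 = j
      · subst e'
        omega
      · omega
  · have a1 := S.gap i h1 (by omega)
    have a3 := hp i
    have a4 := hp (i + 1)
    by_cases e : i = j
    · subst e
      omega
    · by_cases e' : i + 1 = j
      · subst e'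
        omega
      · omega
  · have a1 := S.run i h1 (by omega)
    by_cases e : i = j
    · subst e
      rw [hj, hp _ (by omega)]
      exact run_ext hτ hy hN a1
    · rw [hp i e]
      intro c c1 c2
      have a4 := hp (i + 1)
      by_cases e' : i + 1 = j
      · subst e'
        have := a1 c (by omega) c2
        exact ⟨(hτ _ _ (Or.inl (by omega))).trans this.1, (hτ _ _ (Or.inl (by omega))).trans this.2⟩
      · have := a1 c (by omega) c2
        exact ⟨(hτ _ _ (Or.inr (by omega))).trans this.1, (hτ _ _ (Or.inr (by omega))).trans this.2⟩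

theorem move (hpar1 : St_PAR1) {Wm ε : ℝ} {W : (ℕ → ℕ) → ℝ} (P : Pot m Wm ε W) (S : Str m σ k p) (j1 : 1 ≤ j)
    (jk : j ≤ k) (hS : σ (p j, j - 1) = false) (hE : σ (p j + 1, j) = true)
    (hlt : ∀ i, 1 ≤ i → i + 1 = j → p j < p i)
    (ha : ∃ i : ℕ, 1 ≤ i ∧ i ≤ m + 1 ∧ ¬ (σ (p j + 1, j - i) = true ∧ σ (p j, j - i) = false))
    {x : ℤ} (hx : Function.update p j (p j + 1) 1 = x) {n : ℕ → ℕ}
    (hn : ∀ i, 1 ≤ i → n i ≤ if i = j then gaps k p i + 1 else if i + 1 = j then gaps k p i - 1 else gaps k p i) :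
    Bad (m + 1) (sh (p j, (j : ℤ)) σ) ∨ (dis σ (p j, (j : ℤ)) = 2 ∧
      (NCl m σ k p → Wl m W x (flp σ (p j, (j : ℤ))) ≤ W n) ∧
      ∀ q, ZCl m σ k p q → Wl m W x (flp σ (p j, (j : ℤ))) = 0) := by
  have h0 := S.plus j j1 jk
  have hW := S.minus j j1 jk
  have hd : dis σ (p j, (j : ℤ)) = if σ (p j, j + 1) = true then 2 else 3 := by
    simp only [dis, Prod.mk_add_mk, add_zero, ← sub_eq_add_neg, h0, hS, hE, hW]
    cases σ (p j, j + 1) <;> rfl
  cases hN : σ (p j, j + 1)
  · exact Or.inl (bad_of_U _ _ (by rw [sub_self]; exact zero_mem_box 1) (by simp [hd, hN]))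
  rw [if_pos hN] at hd
  cases hNE : σ (p j + 1, j + 1)
  · refine Or.inl (bad_of_pa _ (p j, (j : ℤ)) ⟨false, false, true, true⟩ (by rw [sub_self]; exact zero_mem_box 1)
      ⟨Or.inr (Or.inl ⟨(0, 0), by simp, ?_, ?_⟩), ?_⟩)
    · rw [dis_act, dis_sh]
      simp [Fr.lin, hd]
    · simp [Chk, flp, act, sh, Fr.lin, add_comm (1 : ℤ), h0, hN, hE, hNE]
    · obtain ⟨i, i1, i2, h⟩ := ha
      refine ⟨i, i1, i2, ?_⟩
      simpa [Bond, act, sh, Fr.lin, add_comm (1 : ℤ), neg_add_eq_sub] using h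
  obtain ⟨P1, P2, -⟩ := hpar1 m Wm ε W P
  have hτ : ∀ c r : ℤ, (c ≠ p j ∨ r ≠ j) → flp σ (p j, (j : ℤ)) (c, r) = σ (c, r) := fun c r h =>
    flp_ne _ fun e => by
      rw [Prod.mk.injEq] at e
      omega
  have hy : flp σ (p j, (j : ℤ)) (p j, j) = false := by rw [flp_self, h0]; rfl
  have hp : ∀ i, i ≠ j → Function.update p j (p j + 1) i = p i := fun i e => Function.update_of_ne e _ _
  have hj : Function.update p j (p j + 1) j = p j + 1 := Function.update_self _ _ _
  generalize flp σ (p j, (j : ℤ)) = τ at hτ hy ⊢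
  generalize Function.update p j (p j + 1) = p' at hp hj hx
  subst hx
  have St := @str_ext m k j σ τ p p' S j1 hτ hy hp hj hE hN hNE hlt
  have hup : τ (p' j, j + 1) = true := by rw [hj, hτ _ _ (Or.inl (by omega)), hNE]
  refine Or.inr ⟨hd, ?_⟩
  by_cases ho : j < k ∧ p j - p (j + 1) = m
  · have h1 : Wl m W (p' 1) τ = 0 := P2 τ j p' (p (j + 1)) (St le_rfl jk (by omega))
      ⟨ho.1.trans_le S.le, hup, by omega, hj ▸ run_ext hτ hy hN (S.run j j1 ho.1), Or.inl (by omega)⟩
    exact ⟨fun _ => h1 ▸ P.nonneg n, fun _ _ => h1⟩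
  have S' := St jk le_rfl fun h => by
    have := S.gap j j1 h
    omega
  refine ⟨fun hc => (P1 τ k p' S').trans (P.anti _ _ fun i i1 i2 => (hn i i1).trans ?_), fun q hq => ?_⟩
  · have a1 := S.anti i i1
    have a3 := hp i
    have a4 := hp (i + 1)
    have a5 : j = k → k = m := fun e => hc.resolve_right (by rw [← e, hN]; simp)
    unfold gaps
    by_cases e : i = j
    · subst e
      rw [if_pos rfl, if_pos ⟨i1, by omega⟩, if_pos ⟨i1, by omega⟩]
      omega
    · rw [if_neg e]
      by_cases e' : i + 1 = j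
      · subst e'
        split_ifs <;> omega
      · rw [if_neg e', a3 e, a4 e']
  · obtain ⟨q1, q2, q3, q4, q5⟩ := hq
    by_cases e : k = j
    · subst e
      have h1 := hj ▸ run_ext hτ hy hN q4
      rcases q5 with q5 | ⟨q5, q6, q7⟩
      · exact P2 τ k p' (q + 1) S' ⟨q1, hup, by omega, fun c c1 => h1 c (by omega), Or.inl (by omega)⟩
      · refine P2 τ k p' q S' ⟨q1, hup, by omega, h1, ?_⟩
        by_cases e : p k - q = m
        · exact Or.inl (by omega)
        · exact Or.inr ⟨by omega, (hτ _ _ (Or.inl (by omega))).trans q6, (hτ _ _ (Or.inl (by omega))).trans q7⟩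
    · refine P2 τ k p' q S' ?_
      have h1 : ∀ c, τ (c, k) = σ (c, k) := fun c => hτ _ _ (Or.inr (by omega))
      have h2 : ∀ c, τ (c, k + 1) = σ (c, k + 1) := fun c => hτ _ _ (Or.inr (by omega))
      simp only [ZCl, Run, Bond, hp k e, h1, h2]
      exact ⟨q1, q2, q3, q4, q5⟩

end CupB

theorem st_cup (hpar1 : St_PAR1) (htrk : St_TRK) : St_CUP := by
  intro m Wm ε W P _ σ k p ⟨_, ⟨b1, b2⟩, b3, b4⟩ S p1
  refine ⟨fun i i1 ik hlt => ?_, ?_⟩
  · have R := S.run i i1 ik
    have h := CupB.move (j := i + 1) (x := 0) (n := hop i (i + 1) (gaps k p)) hpar1 P S (by omega) ik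
      (by simpa using (R _ le_rfl hlt).2) ?_ (fun l _ e => by rwa [Nat.succ_injective e]) ?_
      (by rw [Function.update_of_ne (by omega), p1]) fun l _ => ?_
    · exact_mod_cast h
    · push_cast
      by_cases e : p (i + 1) + 1 = p i
      · rw [e, S.up i i1 ik]
      · exact (R _ (by omega) (by omega)).1
    · by_cases e : p (i + 1) + 1 = p i
      · obtain ⟨l, l1, l2, h⟩ := (htrk m σ k p S).2.2.1 (p1 ▸ b2) i i1 ik.le
        refine ⟨l + 1, by omega, by have := S.le; omega, ?_⟩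
        push_cast
        rwa [e, add_sub_add_right_eq_sub, show p (i + 1) = p i - 1 by omega]
      · refine ⟨1, le_rfl, by omega, fun h => ?_⟩
        have h1 := (R (p (i + 1) + 1) (by omega) (by omega)).2
        simp [h1] at h
    · simp only [hop, Function.update_apply, Nat.add_right_cancel_iff]
      split_ifs with h1 h2
      · rw [h1]
      · rw [h2]
      · rfl
  · have h := CupB.move (j := 1) (x := 1) (n := ent (gaps k p)) hpar1 P S le_rfl S.one_le
      (by simpa [p1] using b2) (by simpa [p1] using b3) (fun l _ e => by omega)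
      ⟨1, le_rfl, by omega, by simp [p1, b4]⟩ (by rw [Function.update_self, p1, zero_add]) fun l _ => ?_
    · simpa only [p1, Nat.cast_one] using h
    · simp only [ent, Function.update_apply]
      split_ifs with h1 h2
      · rw [h1]
      · omega
      · rfl

end Pool.Agent.BA
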