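import Pool.Agent.Lib.BA.Blue

/-! The discounted functional of a flow. -/

open Filter Topology MeasureTheory Set

namespace Pool.Agent.BA

noncomputable section
open Classical

namespace DFUNB

variable {m : ℝ → (Cfg → ℝ) → ℝ} {t lam : ℝ} {f : Cfg → ℝ}

/-- the discounted functional -/
def DD (m : ℝ → (Cfg → ℝ) → ℝ) (t lam : ℝ) (f : Cfg → ℝ) : ℝ :=
  ∫ s in Ioi t, Real.exp (-lam * (s - t)) * m s f

theorem bdd (hm : Flow m) (hf : Loc f) : ∃ M, ∀ s, 0 ≤ s → |m s f| ≤ M := by
  obtain ⟨M, -, h⟩ := hf.bdd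
  exact ⟨M, fun s hs => (hm.pos s hs).abs_le_const (hm.one s hs) hf h⟩

theorem int_exp (hl : 0 < lam) (a : ℝ) :
    IntegrableOn (fun s : ℝ => Real.exp (-lam * (s - t))) (Ioi a) := by
  refine ((exp_neg_integrableOn_Ioi a hl).mul_const (Real.exp (lam * t))).congr
    (Eventually.of_forall fun s => ?_)
  simp only [← Real.exp_add]; congr 1; ring

theorem integrableOn (hm : Flow m) (ht : 0 ≤ t) (hl : 0 < lam) (hf : Loc f) :
    IntegrableOn (fun s => Real.exp (-lam * (s - t)) * m s f) (Ioi t) := by
  obtain ⟨M, hM⟩ := bdd hm hf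
  refine (int_exp hl t).mul_bdd (c := M) ?_ ?_
  · exact ((hm.cont f hf).mono fun s hs => ht.trans (le_of_lt hs)).aestronglyMeasurable
      measurableSet_Ioi
  · filter_upwards [ae_restrict_mem measurableSet_Ioi] with s hs using
      hM s (ht.trans (le_of_lt hs))

theorem lin (hm : SFlow m) (ht : 0 ≤ t) (hl : 0 < lam) : Lin (DD m t lam) where
  add f g hf hg := by
    unfold DD
    rw [← integral_add (integrableOn hm.toFlow ht hl hf) (integrableOn hm.toFlow ht hl hg)]
    refine setIntegral_congr_fun measurableSet_Ioi fun s hs => ?_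
    simp only [(hm.pos s (ht.trans (le_of_lt hs))).add f g hf hg]; ring
  smul c f hf := by
    unfold DD
    rw [← integral_const_mul]
    refine setIntegral_congr_fun measurableSet_Ioi fun s hs => ?_
    simp only [(hm.pos s (ht.trans (le_of_lt hs))).smul c f hf]; ring
  mono f g hf hg h :=
    setIntegral_mono_on (integrableOn hm.toFlow ht hl hf) (integrableOn hm.toFlow ht hl hg)
      measurableSet_Ioi fun s hs => mul_le_mul_of_nonneg_left
        ((hm.pos s (ht.trans (le_of_lt hs))).mono f g hf hg h) (Real.exp_pos _).le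
  shift z f hf := setIntegral_congr_fun measurableSet_Ioi fun s hs => by
    simp only [(hm.st s (ht.trans (le_of_lt hs))).shift z f hf]

theorem tend_exp (hl : 0 < lam) : Tendsto (fun s : ℝ => Real.exp (-lam * (s - t))) atTop (𝓝 0) :=
  Real.tendsto_exp_atBot.comp ((tendsto_atTop_add_const_right _ (-t) tendsto_id).const_mul_atTop_of_neg
    (neg_neg_iff_pos.2 hl))

theorem hasDeriv_exp (lam t s : ℝ) : HasDerivAt (fun s : ℝ => Real.exp (-lam * (s - t)))
    (Real.exp (-lam * (s - t)) * -lam) s := by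
  simpa using (((hasDerivAt_id s).sub_const t).const_mul (-lam)).exp

/-- integration by parts -/
theorem parts (hm : Flow m) (ht : 0 ≤ t) (hl : 0 < lam) (hf : Loc f) :
    DD m t lam (gen f) - lam * DD m t lam f = -m t f := by
  obtain ⟨M, hM⟩ := bdd hm hf
  have i1 := integrableOn hm ht hl hf
  have i2 := integrableOn hm ht hl hf.gen
  have h := integral_Ioi_of_hasDerivAt_of_tendsto (a := t) (m := 0)
    (f := fun s => Real.exp (-lam * (s - t)) * m s f)
    (f' := fun s => Real.exp (-lam * (s - t)) * m s (gen f) -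
      lam * (Real.exp (-lam * (s - t)) * m s f))
    ((by fun_prop : Continuous fun s : ℝ => Real.exp (-lam * (s - t))).continuousWithinAt.mul
      ((hm.cont f hf t ht).mono fun s hs => ht.trans hs))
    (fun s hs => by
      have := (hasDeriv_exp lam t s).fun_mul (hm.deriv f hf s (ht.trans_lt hs))
      exact this.congr_deriv (by ring))
    (i2.sub (i1.const_mul lam))
    ((tend_exp hl).zero_mul_isBoundedUnder_le ⟨M, eventually_map.2 (by
      filter_upwards [eventually_ge_atTop (0 : ℝ)] with s hs using hM s hs)⟩)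
  rw [integral_sub i2 (i1.const_mul lam), integral_const_mul] at h
  simpa [DD] using h

theorem window (hm : Flow m) (ht : 0 ≤ t) (hl : 0 < lam) (hf : Loc f) (h0 : ∀ σ, 0 ≤ f σ) {T : ℝ}
    (hT : 0 ≤ T) (h1 : lam * T ≤ 1) : (∫ r in t..t + T, m r f) ≤ 3 * DD m t lam f := by
  have i1 := integrableOn hm ht hl hf
  have hn : ∀ s, t ≤ s → 0 ≤ m s f := fun s hs => (hm.pos s (ht.trans hs)).nonneg hf h0
  have hc : ContinuousOn (fun s => m s f) (Icc t (t + T)) :=
    (hm.cont f hf).mono fun s hs => ht.trans hs.1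
  rw [intervalIntegral.integral_of_le (by linarith), DD, ← integral_const_mul]
  calc ∫ r in Ioc t (t + T), m r f
      ≤ ∫ s in Ioc t (t + T), 3 * (Real.exp (-lam * (s - t)) * m s f) := by
        refine setIntegral_mono_on (hc.integrableOn_Icc.mono_set Ioc_subset_Icc_self)
          ((i1.mono_set Ioc_subset_Ioi_self).const_mul 3) measurableSet_Ioc fun s hs => ?_
        have a1 : Real.exp (-1) ≤ Real.exp (-lam * (s - t)) :=
          Real.exp_le_exp.2 (by nlinarith [hs.1, hs.2])
        have a2 : 1 ≤ 3 * Real.exp (-1) := by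
          rw [Real.exp_neg, ← div_eq_mul_inv, le_div_iff₀ (Real.exp_pos 1)]
          linarith [Real.exp_one_lt_d9]
        nlinarith [hn s hs.1.le]
    _ ≤ _ := by
        refine setIntegral_mono_set (i1.const_mul 3) ?_ Ioc_subset_Ioi_self.eventuallyLE
        filter_upwards [ae_restrict_mem measurableSet_Ioi] with s hs
        have := hn s (le_of_lt hs)
        positivity

theorem fe_bounds (hm : Flow m) {s : ℝ} (hs : 0 ≤ s) : 0 ≤ m s fe ∧ m s fe ≤ 2 := by
  have h : ∀ σ, 0 ≤ fe σ ∧ fe σ ≤ 2 := fun σ =>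
    ⟨add_nonneg (ind_nonneg _) (ind_nonneg _), by
      have := add_le_add (ind_le_one (σ (0, 1) ≠ σ 0)) (ind_le_one (σ (1, 0) ≠ σ 0))
      unfold fe fa fb; linarith⟩
  exact ⟨(hm.pos s hs).nonneg loc_fe fun σ => (h σ).1,
    (le_abs_self _).trans ((hm.pos s hs).abs_le_const (hm.one s hs) loc_fe fun σ => by
      rw [abs_of_nonneg (h σ).1]; exact (h σ).2)⟩

/-- a piece of the discounted integral of `fU` is paid by the energy -/
theorem piece (he : St_ENERGY) (hm : SFlow m) (ht : 0 ≤ t) (hl : 0 < lam) {a b : ℝ} (ha : t ≤ a)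
    (hb : a ≤ b) : ∫ s in a..b, Real.exp (-lam * (s - t)) * m s fU ≤
      Real.exp (-lam * (a - t)) * ((m a fe - m b fe) / 2) := by
  have hc : ContinuousOn (fun s => m s fU) (uIcc a b) := by
    rw [uIcc_of_le hb]
    exact (hm.cont fU loc_fU).mono fun s hs => ht.trans (ha.trans hs.1)
  have h1 := he m hm a b (ht.trans ha) hb
  calc _ ≤ ∫ s in a..b, Real.exp (-lam * (a - t)) * m s fU := by
        refine intervalIntegral.integral_mono_on hb
          (((by fun_prop : Continuous fun s : ℝ => Real.exp (-lam * (s - t))).continuousOn.mul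
            hc).intervalIntegrable) ((continuousOn_const.mul hc).intervalIntegrable)
          fun s hs => mul_le_mul_of_nonneg_right (Real.exp_le_exp.2 (by nlinarith [hs.1]))
            ((hm.pos s (ht.trans (ha.trans hs.1))).nonneg loc_fU fun _ => ind_nonneg _)
    _ ≤ _ := by
        rw [intervalIntegral.integral_const_mul]
        exact mul_le_mul_of_nonneg_left (by linarith) (Real.exp_pos _).le

theorem tail (he : St_ENERGY) (hm : SFlow m) (ht : 0 ≤ t) (hl : 0 < lam) {τ : ℝ} (hτ : 0 ≤ τ) :
    DD m t lam fU ≤ (m t fe - m (t + τ) fe) / 2 + Real.exp (-(lam * τ)) := by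
  have i1 := integrableOn hm.toFlow ht hl loc_fU
  have i2 := i1.mono_set (Ioi_subset_Ioi (by linarith : t ≤ t + τ))
  rw [DD, ← intervalIntegral.integral_interval_add_Ioi i1 i2]
  refine add_le_add (by simpa using piece he hm ht hl le_rfl (by linarith : t ≤ t + τ)) ?_
  refine le_of_tendsto (intervalIntegral_tendsto_integral_Ioi (t + τ) i2 tendsto_id) ?_
  filter_upwards [eventually_ge_atTop (t + τ)] with b hb
  refine (piece he hm ht hl (by linarith) hb).trans ?_
  have a1 := (fe_bounds hm.toFlow (s := t + τ) (by linarith)).2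
  have a2 := (fe_bounds hm.toFlow (s := b) (by linarith)).1
  rw [add_sub_cancel_left, neg_mul]
  exact mul_le_of_le_one_right (Real.exp_pos _).le (by linarith)

end DFUNB

open DFUNB in
theorem st_dfun (henergy : St_ENERGY) : St_DFUN := by
  intro m hm t lam ht hl
  refine ⟨DD m t lam, ⟨lin hm ht hl, fun ψ h1 h2 => ?_⟩,
    fun f T h1 h2 h3 h4 => window hm.toFlow ht hl h1 h2 h3 h4, fun τ h => tail henergy hm ht hl h⟩
  linarith [parts hm.toFlow ht hl h1, (hm.pos t ht).nonneg h1 h2]

end

end Pool.Agent.BA
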