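import Pool.Agent.Lib.BA.Blue

/-! Energy dissipation. -/

open Finset MeasureTheory

namespace Pool.Agent.BA

noncomputable section

namespace EnergyB

/-- rate of change of the bond from the origin to `v` caused by a flip of the origin -/
def c (v : V) (σ : Cfg) : ℝ := rate σ 0 * (1 - 2 * ind (σ v ≠ σ 0))

theorem loc_b (v : V) : Loc fun σ => ind (σ v ≠ σ 0) :=
  ((Loc.eval v).comp₂ (Loc.eval 0) fun a b => a ≠ b).ind

theorem loc_c (v : V) : Loc (c v) :=
  (Loc.rate 0).mul ((Loc.const 1).sub ((loc_b v).cmul 2))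

theorem gen_b (v : V) (hv : v ≠ 0) (σ : Cfg) :
    gen (fun τ => ind (τ v ≠ τ 0)) σ = c v σ + c (-v) (sh v σ) := by
  have hd : DepOn (fun τ : Cfg => ind (τ v ≠ τ 0)) {0, v} := fun σ σ' h => by
    simp only [h 0 (by simp), h v (by simp)]
  rw [hd.gen_eq]
  unfold genOn c
  rw [sum_pair hv.symm, rate_sh, sh_apply, sh_apply, zero_add, neg_add_cancel]
  simp only [flp_self, flp_ne σ hv, flp_ne σ hv.symm]
  cases σ v <;> cases σ 0 <;> simp [ind] <;> ring

theorem pt (σ : Cfg) :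
    c (0, 1) σ + c (-(0, 1)) σ + (c (1, 0) σ + c (-(1, 0)) σ) ≤ -2 * fU σ := by
  have e : c (0, 1) σ + c (-(0, 1)) σ + (c (1, 0) σ + c (-(1, 0)) σ) =
      rate σ 0 * (4 - 2 * (dis σ 0 : ℝ)) := by
    unfold c dis
    simp only [zero_add, Prod.neg_mk, neg_zero]
    cases σ (0, 1) <;> cases σ (0, -1) <;> cases σ (1, 0) <;> cases σ (-1, 0) <;> cases σ 0 <;>
      simp [ind] <;> ring
  rw [e]
  unfold fU
  by_cases h3 : 3 ≤ dis σ 0
  · have : (3 : ℝ) ≤ dis σ 0 := by exact_mod_cast h3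
    rw [rate_of_three h3, ind_of h3]; linarith
  · rw [ind_of_not h3]
    by_cases h1 : dis σ 0 ≤ 1
    · rw [rate_of_le h1]; simp
    · rw [show dis σ 0 = 2 by omega]; norm_num

theorem gen_fe {D : (Cfg → ℝ) → ℝ} (hD : Lin D) : D (gen fe) ≤ -2 * D fU := by
  have e : ∀ σ, gen fe σ = c (0, 1) σ + c (-(0, 1)) (sh (0, 1) σ) +
      (c (1, 0) σ + c (-(1, 0)) (sh (1, 0) σ)) := fun σ => by
    rw [← gen_b (0, 1) (by decide), ← gen_b (1, 0) (by decide)]
    exact gen_add loc_fa loc_fb σ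
  have h := hD.mono _ _ (((loc_c (0, 1)).add (loc_c (-(0, 1)))).add
    ((loc_c (1, 0)).add (loc_c (-(1, 0))))) (loc_fU.cmul (-2)) pt
  rw [hD.smul _ _ loc_fU, hD.add _ _ ((loc_c _).add (loc_c _)) ((loc_c _).add (loc_c _)),
    hD.add _ _ (loc_c _) (loc_c _), hD.add _ _ (loc_c _) (loc_c _)] at h
  rw [hD.toPos.congr e, hD.add _ _ ((loc_c _).add ((loc_c _).sh _)) ((loc_c _).add ((loc_c _).sh _)),
    hD.add _ _ (loc_c _) ((loc_c _).sh _), hD.add _ _ (loc_c _) ((loc_c _).sh _),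
    hD.shift _ _ (loc_c _), hD.shift _ _ (loc_c _)]
  exact h

end EnergyB

open EnergyB in
theorem st_energy : St_ENERGY := by
  intro m hm t s ht hts
  have sub : Set.Icc t s ⊆ Set.Ici 0 := fun x hx => ht.trans hx.1
  have hU : IntegrableOn (fun r => -2 * m r fU) (Set.Icc t s) :=
    (continuousOn_const.mul ((hm.cont fU loc_fU).mono sub)).integrableOn_Icc
  have h := intervalIntegral.sub_le_integral_of_hasDeriv_right_of_le (g := fun r => m r fe)
    (g' := fun r => m r (gen fe)) (φ := fun r => -2 * m r fU) hts ((hm.cont fe loc_fe).mono sub)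
    (fun x hx => (hm.deriv fe loc_fe x (ht.trans_lt hx.1)).hasDerivWithinAt) hU
    (fun x hx => gen_fe (hm.st x (ht.trans hx.1.le)).toLin)
  rw [intervalIntegral.integral_const_mul] at h
  linarith

end

end Pool.Agent.BA
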