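import Pool.Agent.Lib.BA.Blue

/-! Block EULER: telescoping against a solution of the forward equation. -/

open Finset Filter Topology

namespace Pool.Agent.BA

noncomputable section
open Classical

namespace EulerB

theorem gen_le {f : Cfg → ℝ} {S : Finset V} {M : ℝ} (h : DepOn f S) (hM : ∀ σ, |f σ| ≤ M) (σ : Cfg) :
    |gen f σ| ≤ 2 * S.card * M := by
  rw [h.gen_eq, genOn]
  refine (abs_sum_le_sum_abs _ _).trans ((sum_le_card_nsmul _ _ (2 * M) fun y _ => ?_).trans
    (le_of_eq (by rw [nsmul_eq_mul]; ring)))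
  rw [abs_mul, abs_of_nonneg (rate_nonneg σ y)]
  have h1 := (abs_sub _ _).trans (add_le_add (hM (flp σ y)) (hM σ))
  exact (mul_le_of_le_one_left (abs_nonneg _) (rate_le_one σ y)).trans (by linarith)

theorem gen_dep (S : Finset V) : ∃ T : Finset V, ∀ f : Cfg → ℝ, DepOn f S → DepOn (gen f) T := by
  obtain ⟨T, hT⟩ := Loc.common S (fun y σ => rate σ y) fun y _ => Loc.rate y
  refine ⟨S ∪ T, fun f hf σ σ' e => ?_⟩
  rw [hf.gen_eq]
  refine sum_congr rfl fun y hy => ?_
  have e1 : rate σ y = rate σ' y := hT y hy σ σ' fun x hx => e x (mem_union_right _ hx)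
  have e2 : f (flp σ y) = f (flp σ' y) := hf _ _ fun x hx => by
    by_cases h : x = y
    · rw [h, flp_self, flp_self, e y (mem_union_left _ hy)]
    · rw [flp_ne _ h, flp_ne _ h, e x (mem_union_left _ hx)]
  rw [e1, e2, hf σ σ' fun x hx => e x (mem_union_left _ hx)]

theorem mvt {m : ℝ → (Cfg → ℝ) → ℝ} (hm : Flow m) {f : Cfg → ℝ} (hf : Loc f) {s t : ℝ} (hs : 0 ≤ s)
    (hst : s ≤ t) : ∃ c, s ≤ c ∧ c ≤ t ∧ m t f - m s f = (t - s) * m c (gen f) := by
  rcases hst.eq_or_lt with rfl | h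
  · exact ⟨s, le_rfl, le_rfl, by simp⟩
  obtain ⟨c, hc, e⟩ := exists_hasDerivAt_eq_slope (fun t => m t f) (fun t => m t (gen f)) h
    ((hm.cont f hf).mono fun x hx => hs.trans hx.1) fun x hx => hm.deriv f hf x (hs.trans_lt hx.1)
  exact ⟨c, hc.1.le, hc.2.le, by rw [e, mul_div_cancel₀ _ (sub_pos.2 h).ne']⟩

theorem step {m : ℝ → (Cfg → ℝ) → ℝ} (hm : Flow m) {f g : Cfg → ℝ} (hf : Loc f) (hg : Loc g)
    {s h η B : ℝ} (hs : 0 ≤ s) (hh : 0 ≤ h) (hB : ∀ σ, |gen (gen f) σ| ≤ B)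
    (he : ∀ σ, |g σ - f σ - h * gen f σ| ≤ h * η) : |m (s + h) f - m s g| ≤ h * (η + h * B) := by
  obtain ⟨c, c1, c2, e1⟩ := mvt hm hf hs (le_add_of_nonneg_right hh)
  obtain ⟨d, d1, -, e2⟩ := mvt hm hf.gen hs c1
  have p := hm.pos s hs
  have b1 := (hm.pos d (hs.trans d1)).abs_le_const (hm.one d (hs.trans d1)) hf.gen.gen hB
  have b2 := p.abs_le_const (hm.one s hs) ((hg.sub hf).sub (hf.gen.cmul h)) he
  rw [p.sub (hg.sub hf) (hf.gen.cmul h), p.sub hg hf, p.smul h _ hf.gen] at b2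
  have e3 : m (s + h) f - m s g = h * ((c - s) * m d (gen (gen f))) -
      (m s g - m s f - h * m s (gen f)) := by
    rw [← e2]; rw [add_sub_cancel_left] at e1; linarith
  have b3 : |(c - s) * m d (gen (gen f))| ≤ h * B := by
    rw [abs_mul, abs_of_nonneg (sub_nonneg.2 c1)]
    exact mul_le_mul (by linarith) b1 (abs_nonneg _) hh
  rw [e3]
  refine (abs_sub _ _).trans ?_
  rw [abs_mul h, abs_of_nonneg hh]
  linarith [mul_le_mul_of_nonneg_left b3 hh]

end EulerB

open EulerB in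
theorem st_euler : St_EULER := by
  intro S
  obtain ⟨T, hT⟩ := gen_dep S
  refine ⟨2 * T.card * (2 * S.card), by positivity, fun m hm g M η h k hh => ?_⟩
  induction k generalizing g with
  | zero => intro _ _ _; simp
  | succ k ih =>
    intro h1 h2 h3
    have a1 := ih (fun i => g (i + 1)) (fun i => h1 _) (fun i => h2 _) fun i hi => h3 _ (by omega)
    have a2 := step hm (h1 0).loc (h1 1).loc (s := k * h) (by positivity) hh
      (gen_le (hT _ (h1 0)) (gen_le (h1 0) (h2 0))) (h3 0 (by omega))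
    have a3 := abs_sub_le (m (k * h + h) (g 0)) (m (k * h) (g 1)) (m 0 (g (k + 1)))
    push_cast
    rw [add_one_mul]
    simp only [zero_add] at a1
    linarith

end

end Pool.Agent.BA
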