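import Pool.Agent.Lib.BA.Blue

/-! Block FDER: lower bound for the derivative of the cross functional. -/

open Finset Filter Topology

namespace Pool.Agent.BA

noncomputable section
open Classical

namespace FderB

theorem fU_trp (σ : Cfg) : fU (trp σ) = fU σ := by rw [trp_eq, fU_act]

theorem fO_trp (σ : Cfg) : fO (trp σ) = fO σ :=
  ind_congr ⟨fun h => ⟨h.2.1, h.1, h.2.2.symm⟩, fun h => ⟨h.2.1, h.1, h.2.2.symm⟩⟩

theorem fK_trp (σ : Cfg) : fK (trp σ) = fK σ := ind_congr and_comm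

theorem gen_fa_trp (σ : Cfg) : gen fa (trp σ) = gen fb σ := by
  rw [trp_eq, ← gen_act]
  simp only [← trp_eq, fa_trp]

theorem abs_cv {u : A} (hu : Prob u) (p : Cfg → Prop) (σ : Cfg) : |cv u (fun τ => ind (p τ)) σ| ≤ 1 := by
  rw [abs_of_nonneg (hu.cv_nonneg (fun _ => ind_nonneg _) σ)]
  exact hu.cv_le (fun _ => ind_le_one _) σ

theorem half (hgt : St_GT) {m : (Cfg → ℝ) → ℝ} (hm : St m) {u : A} (hu : Prob u) :
    nsq m (u * dY) fb / 4 - nsq m u remA / 4 - 6 * (m fU + m fO) ≤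
      m fun σ => cv u (gen fa) σ * cv u fb σ := by
  have h := hgt m hm u hu (cv u fb) (loc_fb.cv u) (abs_cv hu _)
  have e1 : cv dY (cv u fb) = cv (u * dY) fb := by rw [← cv_mul, mul_comm]
  have e2 : cv (xs (0, -1) * dY) (cv u fb) = cv (xs (0, -1) * (u * dY)) fb := by
    rw [← cv_mul, mul_assoc, mul_comm dY]
  have e3 := hm.toLin.cv_shift loc_fb loc_fb (0, -1) (u * dY) (u * dY)
  have l1 := loc_remA.cv u
  have l2 := loc_fb.cv (xs (0, -1) * (u * dY))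
  have h2 := hm.mono _ _ ((l1.mul l2).cmul 2) ((l1.mul l1).add (l2.mul l2)) fun σ => by
    nlinarith [sq_nonneg (cv u remA σ - cv (xs (0, -1) * (u * dY)) fb σ)]
  rw [hm.smul _ _ (l1.mul l2), hm.add _ _ (l1.mul l1) (l2.mul l2), e3] at h2
  rw [e1, e2] at h
  rw [nsq_eq, nsq_eq]
  linarith [(abs_le.1 h).1]

theorem half' (hgt : St_GT) {m : (Cfg → ℝ) → ℝ} (hm : St m) (j : ℕ) :
    nsq m (ww ^ j * dX) fa / 4 - nsq (fun f => m fun σ => f (trp σ)) (ww ^ j) remA / 4 -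
      6 * (m fU + m fO) ≤ m fun σ => cv (ww ^ j) (gen fb) σ * cv (ww ^ j) fa σ := by
  have h := half hgt hm.trp (prob_ww.pow j)
  rw [nsq] at h
  simp only [fU_trp, fO_trp, cv_trp _ fb, cv_trp _ (gen fa), map_mul, map_pow, trA_ww, trA_dY, fb_trp,
    gen_fa_trp] at h
  exact h

theorem gam_ge {f g : Cfg → ℝ} (hf : Loc f) (hg : Loc g) (σ : Cfg) :
    0 ≤ gam f f σ + gam g g σ + 2 * gam f g σ := by
  obtain ⟨S, hS, hT⟩ := hf.common₂ hg
  rw [hS.gam_eq, hS.gam_eq, hT.gam_eq, mul_sum, ← sum_add_distrib, ← sum_add_distrib]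
  refine sum_nonneg fun y _ => ?_
  nlinarith [mul_nonneg (rate_nonneg σ y) (sq_nonneg (f (flp σ y) - f σ + (g (flp σ y) - g σ)))]

theorem term (hgt : St_GT) (hqv : St_QV) {m : (Cfg → ℝ) → ℝ} (hm : St m) (j : ℕ) :
    (nsq m (ww ^ j * dX) fa + nsq m (ww ^ j * dY) fb) / 4 -
      (nsq m (ww ^ j) remA + nsq (fun f => m fun σ => f (trp σ)) (ww ^ j) remA) / 4 -
      (lsq (ww ^ j * dX) + lsq (ww ^ j * dY)) * (m fK / 2) - 16 * (m fU + m fO) ≤
      m (gen fun σ => cv (ww ^ j) fa σ * cv (ww ^ j) fb σ) := by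
  have la := loc_fa.cv (ww ^ j)
  have lb := loc_fb.cv (ww ^ j)
  have ga := loc_fa.gen.cv (ww ^ j)
  have gb := loc_fb.gen.cv (ww ^ j)
  have h1 := half hgt hm (prob_ww.pow j)
  have h2 := half' hgt hm j
  obtain ⟨h3, h4⟩ := hqv m hm _ (prob_ww.pow j)
  have h5 := hm.toPos.nonneg (((la.gam la).add (lb.gam lb)).add ((la.gam lb).cmul 2)) (gam_ge la lb)
  rw [hm.add _ _ ((la.gam la).add (lb.gam lb)) ((la.gam lb).cmul 2), hm.add _ _ (la.gam la) (lb.gam lb),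
    hm.smul _ _ (la.gam lb)] at h5
  have e : (gen fun σ => cv (ww ^ j) fa σ * cv (ww ^ j) fb σ) = fun σ =>
      cv (ww ^ j) (gen fb) σ * cv (ww ^ j) fa σ + cv (ww ^ j) (gen fa) σ * cv (ww ^ j) fb σ +
        gam (cv (ww ^ j) fa) (cv (ww ^ j) fb) σ := by
    funext σ
    rw [gen_mul la lb, gen_cv _ loc_fa, gen_cv _ loc_fb]
    ring
  rw [e, hm.add _ _ ((gb.mul la).add (ga.mul lb)) (la.gam lb), hm.add _ _ (gb.mul la) (ga.mul lb)]
  linarith

end FderB

open FderB in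
theorem st_fder (hgt : St_GT) (hrem : St_REM) (hqv : St_QV) (hlsq : St_LSQ) : St_FDER := by
  refine ⟨36, by norm_num, fun m hm n => ?_⟩
  have l : ∀ j ∈ range n, Loc fun σ => cv (ww ^ j) fa σ * cv (ww ^ j) fb σ :=
    fun j _ => (loc_fa.cv _).mul (loc_fb.cv _)
  have e : gen (FF n) = fun σ => ∑ j ∈ range n,
      gen (fun σ => cv (ww ^ j) fa σ * cv (ww ^ j) fb σ) σ := funext (gen_sum _ l)
  have h := sum_le_sum fun j (_ : j ∈ range n) => term hgt hqv hm j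
  simp only [sum_sub_distrib, ← sum_div, ← sum_mul, sum_add_distrib, sum_const, card_range,
    nsmul_eq_mul] at h
  have r1 := (hrem m hm n).1
  have r2 := (hrem _ hm.trp n).1
  simp only [fK_trp] at r2
  have q1 := (hlsq dX (Or.inl rfl) n).1
  have q2 := (hlsq dY (Or.inr rfl) n).1
  have k0 : 0 ≤ m fK := hm.toPos.nonneg loc_fK fun _ => ind_nonneg _
  have u0 : 0 ≤ m fU := hm.toPos.nonneg loc_fU fun _ => ind_nonneg _
  have o0 : 0 ≤ m fO := hm.toPos.nonneg loc_fO fun _ => ind_nonneg _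
  have n0 : 0 ≤ (n : ℝ) * (m fU + m fO) := by positivity
  have q3 := mul_le_mul_of_nonneg_right (add_le_add q1 q2) (div_nonneg k0 zero_le_two)
  rw [e, hm.toPos.sum _ fun j hj => (l j hj).gen, XX, YY]
  have r3 : (m fun σ => fK σ) = m fK := rfl
  rw [r3] at r2
  linarith

end

end Pool.Agent.BA
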