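import Pool.Agent.Lib.BA.Blue

/-! The flux inequality for the cap potential. -/

open Finset

namespace Pool.Agent.BA

noncomputable section
open Classical

namespace FluxB

/-- gain of the move that follows the left corner -/
def xg (ψ : Cfg → ℝ) (N : ℕ) (y z : V) (σ : Cfg) : ℝ := ind (Alive N σ) * (rate σ y * ψ (sh z (flp σ y)))

theorem loc_xg {ψ : Cfg → ℝ} (h : Loc ψ) (N : ℕ) (y z : V) : Loc (xg ψ N y z) :=
  (loc_Alive N).ind.mul ((Loc.rate y).mul ((h.sh z).flp y))

theorem xg_sh (ψ : Cfg → ℝ) (N : ℕ) (y z : V) (σ : Cfg) :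
    xg ψ N y z (sh (-z) σ) = ind (Alive N (sh (-z) σ)) * (rate σ (y + -z) * ψ (flp σ (y + -z))) := by
  unfold xg
  rw [rate_sh, flp_sh, sh_sh, add_neg_cancel, sh_zero]

theorem alive {N : ℕ} {σ : Cfg} (h : Alive N σ) : σ (-1, 1) = false ∧ σ (0, 1) = true ∧ σ (0, 0) = false := by
  obtain ⟨n, h2, _, hc⟩ := h
  have h0 := hc.2.2 0 (by omega)
  exact ⟨hc.1, h0.1, h0.2⟩

theorem cap_of {M : ℕ} {σ τ : Cfg} (hH : Hook M σ) (h1 : σ (1, 1) = true) (ha : τ (-1, 1) = false)
    (hb : Bond τ 0 0) (he : ∀ x : V, 1 ≤ x.1 → τ x = σ x) : ∃ n, 2 ≤ n ∧ n ≤ M ∧ Cap n τ := by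
  obtain ⟨n, hn1, hnM, hB, hf⟩ := hH
  have hn : n ≠ 1 := by
    rintro rfl
    rw [Nat.cast_one, h1] at hf
    exact absurd hf (by simp)
  refine ⟨n, by omega, hnM, ha, ?_, fun i hi => ?_⟩
  · rw [he _ (by simp only; omega), hf]
  · rcases Nat.eq_zero_or_pos i with rfl | hi0
    · exact hb
    · have := hB i hi0 hi
      exact ⟨by rw [he _ (by simp only; omega), this.1], by rw [he _ (by simp only; omega), this.2]⟩

theorem three {B : Finset V} {f : V → ℝ} (h0 : ∀ y, 0 ≤ f y) (h1 : (-1, 1) ∈ B) (h2 : (0, 1) ∈ B)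
    (h3 : (0, 0) ∈ B) : f (-1, 1) + f (0, 1) + f (0, 0) ≤ ∑ y ∈ B, f y := by
  have h : ({(-1, 1), (0, 1), (0, 0)} : Finset V) ⊆ B := by
    intro y hy
    simp only [mem_insert, mem_singleton] at hy
    rcases hy with rfl | rfl | rfl <;> assumption
  have := sum_le_sum_of_subset_of_nonneg h fun y _ _ => h0 y
  rw [sum_insert (by decide), sum_insert (by decide), sum_singleton] at this
  linarith

end FluxB

open FluxB in
theorem st_flux (hpsi : St_PSI) : St_FLUX := by
  intro m Wm ε W ρ N M c D hP hρ0 hρ1 hMN hc0 hc hD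
  obtain ⟨hdep, hbd, hdead, hcap, -, hloc⟩ := hpsi m Wm ε W ρ N hP hρ0 hρ1
  have hval : ∀ σ y, val m W ρ N σ y = if y = (0, 1) then psi m W ρ N (sh (1, 0) (flp σ y))
      else if y = (-1, 1) then psi m W ρ N (sh (-1, 0) (flp σ y)) else psi m W ρ N (flp σ y) := fun _ _ => rfl
  generalize psi m W ρ N = ψ at *
  generalize val m W ρ N = vl at *
  have hψ : Loc ψ := hdep.loc
  have hb1 : ((-1, 1) : V) ∈ BB m N := by
    unfold BB; rw [mem_box]; push_cast; constructor <;> constructor <;> nlinarith [sq_nonneg (m : ℤ)]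
  have hb2 : ((0, 1) : V) ∈ BB m N := by
    unfold BB; rw [mem_box]; push_cast; constructor <;> constructor <;> nlinarith [sq_nonneg (m : ℤ)]
  have hb3 : ((0, 0) : V) ∈ BB m N := zero_mem_box _
  have hlow : ∀ τ n, 2 ≤ n → n ≤ M → Cap n τ → c ≤ ψ τ := fun τ n h2 hM h => by
    have h1 := (hcap n τ h2 (hM.trans hMN) h).2
    have h3 := mul_le_mul_of_nonneg_right (pow_le_pow_of_le_one hρ0 hρ1 hM) (Real.exp_pos (-(2 * Wm))).le
    linarith
  have e1 : -((1, 0) : V) = (-1, 0) := by simp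
  have e2 : -((-1, 0) : V) = (1, 0) := by simp
  have e3 : ((0, 1) : V) + (-1, 0) = (-1, 1) := by simp
  have e4 : ((-1, 1) : V) + (1, 0) = (0, 1) := by simp
  have key : ∀ σ, ind (Alive N σ) * ∑ y ∈ BB m N, rate σ y * (vl σ y - ψ σ) +
      c / 2 * ind (Cr M σ ∧ σ (1, 1) = true) +
      (xg ψ N (0, 1) (1, 0) (sh (-(1, 0)) σ) - xg ψ N (0, 1) (1, 0) σ) +
      (xg ψ N (-1, 1) (-1, 0) (sh (-(-1, 0)) σ) - xg ψ N (-1, 1) (-1, 0) σ) ≤ gen ψ σ := by
    intro σ
    have h0 : ∀ y, 0 ≤ rate σ y * ψ (flp σ y) := fun y => mul_nonneg (rate_nonneg σ y) (hbd _).1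
    rw [xg_sh, xg_sh, e1, e2, e3, e4, hdep.gen_eq]
    unfold genOn xg
    by_cases hA : Alive N σ
    · obtain ⟨a1, a2, a3⟩ := alive hA
      have n1 : ¬ Alive N (sh (-1, 0) σ) := fun h => by
        have := (alive h).2.1
        rw [sh_apply, e3, a1] at this
        exact absurd this (by simp)
      have n2 : ¬ Alive N (sh (1, 0) σ) := fun h => by
        have := (alive h).1
        rw [sh_apply, e4, a2] at this
        exact absurd this (by simp)
      have n3 : ¬ (Cr M σ ∧ σ (1, 1) = true) := by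
        rintro ⟨h | h, -⟩
        · exact absurd (a1.symm.trans h.1) (by simp)
        · exact absurd (a3.symm.trans h.1) (by simp)
      rw [ind_of hA, ind_of_not n1, ind_of_not n2, ind_of_not n3]
      have hs : ∑ y ∈ BB m N, rate σ y * (vl σ y - ψ σ) ≤ ∑ y ∈ BB m N, (rate σ y * (ψ (flp σ y) - ψ σ) +
          ((if y = (0, 1) then rate σ y * ψ (sh (1, 0) (flp σ y)) else 0) +
            if y = (-1, 1) then rate σ y * ψ (sh (-1, 0) (flp σ y)) else 0)) := by
        refine sum_le_sum fun y _ => ?_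
        have := h0 y
        rw [hval]
        by_cases y1 : y = (0, 1)
        · rw [if_pos y1, if_pos y1, if_neg (by rw [y1]; decide)]
          linarith
        · rw [if_neg y1, if_neg y1]
          split_ifs <;> linarith
      rw [sum_add_distrib, sum_add_distrib, sum_ite_eq', sum_ite_eq', if_pos hb1, if_pos hb2] at hs
      linarith
    · have h3 := three h0 hb1 hb2 hb3
      have i1 := mul_le_mul_of_nonneg_right (ind_le_one (Alive N (sh (-1, 0) σ))) (h0 (-1, 1))
      have i2 := mul_le_mul_of_nonneg_right (ind_le_one (Alive N (sh (1, 0) σ))) (h0 (0, 1))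
      have i3 := h0 (0, 0)
      simp only [ind_of_not hA, hdead σ hA, sub_zero, zero_mul, zero_add]
      by_cases hC : Cr M σ ∧ σ (1, 1) = true
      · rw [ind_of hC]
        rcases hC with ⟨h | h, h11⟩
        · obtain ⟨c1, c2, c3, c4, c5⟩ := h
          have n1 : ¬ Alive N (sh (-1, 0) σ) := fun h => c3 ⟨(alive h).2.2, (alive h).1⟩
          obtain ⟨n, q1, q2, q3⟩ := cap_of (τ := flp σ (-1, 1)) c5 h11 (by rw [flp_self, c1]; rfl)
            ⟨by rw [flp_ne _ (by decide)]; exact c4.1, by rw [flp_ne _ (by decide)]; exact c4.2⟩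
            fun x hx => flp_ne _ (by rintro rfl; simp at hx)
          have := mul_le_mul (half_le_rate c2) (hlow _ n q1 q2 q3) hc0 (rate_nonneg _ _)
          rw [ind_of_not n1]
          linarith
        · obtain ⟨c1, c2, c3, c4, c5⟩ := h
          obtain ⟨n, q1, q2, q3⟩ := cap_of (τ := flp σ (0, 0)) c5 h11 (by rw [flp_ne _ (by decide)]; exact c4)
            ⟨by rw [flp_ne _ (by decide)]; exact c3, by rw [flp_self, c1]; rfl⟩
            fun x hx => flp_ne _ (by rintro rfl; simp at hx)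
          have := mul_le_mul (half_le_rate c2) (hlow _ n q1 q2 q3) hc0 (rate_nonneg _ _)
          linarith
      · rw [ind_of_not hC]
        linarith
  have l1 := (loc_Alive N).ind.mul hloc
  have l2 := ((loc_Cr M).and (Loc.evalEq (1, 1) true)).ind
  have l3 := loc_xg hψ N (0, 1) (1, 0)
  have l4 := loc_xg hψ N (-1, 1) (-1, 0)
  have := hD.mono _ _ (((l1.add (l2.cmul _)).add ((l3.sh _).sub l3)).add ((l4.sh _).sub l4)) hψ.gen key
  rw [hD.add _ _ ((l1.add (l2.cmul _)).add ((l3.sh _).sub l3)) ((l4.sh _).sub l4),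
    hD.add _ _ (l1.add (l2.cmul _)) ((l3.sh _).sub l3), hD.add _ _ l1 (l2.cmul _), hD.smul _ _ l2,
    hD.toPos.sub (l3.sh _) l3, hD.toPos.sub (l4.sh _) l4, hD.shift _ _ l3, hD.shift _ _ l4] at this
  linarith

end

end Pool.Agent.BA
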