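import Pool.Agent.Lib.BA.Blue

/-! Block GRAD: the gradient identity. -/

namespace Pool.Agent.BA

namespace GRADB

def nq (a b : Bool) : ℤ := if a = b then 0 else 1

def d4 (c e w n s : Bool) : ℕ :=
  (if e = c then 0 else 1) + (if w = c then 0 else 1) + (if n = c then 0 else 1) +
    (if s = c then 0 else 1)

def r2 (k : ℕ) : ℤ := if k ≤ 1 then 0 else if k = 2 then 1 else 2

def u3 (k : ℕ) : ℤ := if 3 ≤ k then 1 else 0

def op (e w n s : Bool) : ℤ := if n = s ∧ e = w ∧ n ≠ e then 1 else 0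

/-- the remainder at a site with centre `c`, neighbours `e w n s` and south-east site `q` -/
def rm (c e w n s q : Bool) : ℤ :=
  (nq n c * nq e c - nq c s * nq q s) + (nq n c * nq c w - nq e q * nq q s) -
    (nq c s * nq c w - nq e q * nq e c)

theorem key : ∀ c n nn s e w ne nw se : Bool,
    |r2 (d4 c e w n s) * (nq n (!c) - nq n c) + r2 (d4 n ne nw nn c) * (nq (!n) c - nq n c) -
        ((2 * nq e c - nq ne n - nq se s) + (rm n ne nw nn c e - rm c e w n s se))| ≤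
      6 * (u3 (d4 c e w n s) + op e w n s + u3 (d4 n ne nw nn c) + op ne nw nn c) := by
  decide +kernel

theorem ind_ne (a b : Bool) : ind (a ≠ b) = (nq a b : ℝ) := by
  cases a <;> cases b <;> simp [ind, nq]

theorem rate_eq (σ : Cfg) (x : V) : rate σ x = (r2 (dis σ x) : ℝ) / 2 := by
  unfold rate r2
  split_ifs <;> norm_num

theorem ind_u (k : ℕ) : ind (3 ≤ k) = (u3 k : ℝ) := by
  unfold ind u3
  split_ifs <;> simp

theorem ind_op (e w n s : Bool) : ind (n = s ∧ e = w ∧ n ≠ e) = (op e w n s : ℝ) := by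
  unfold ind op
  split_ifs <;> simp

theorem rem_eq (σ : Cfg) :
    remA σ = (rm (σ 0) (σ (1, 0)) (σ (-1, 0)) (σ (0, 1)) (σ (0, -1)) (σ (1, -1)) : ℝ) := by
  simp only [remA, kUR, kUL, kDL, fa, fb, sh, ind_ne, rm]
  push_cast
  rfl

theorem dis_eq (σ : Cfg) :
    dis σ 0 = d4 (σ 0) (σ (1, 0)) (σ (-1, 0)) (σ (0, 1)) (σ (0, -1)) := rfl

theorem gen_fa (σ : Cfg) : gen fa σ =
    rate σ 0 * (fa (flp σ 0) - fa σ) + rate σ (0, 1) * (fa (flp σ (0, 1)) - fa σ) := by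
  have h : DepOn fa {0, (0, 1)} := fun σ σ' h => by
    unfold fa
    rw [h 0 (by simp), h (0, 1) (by simp)]
  rw [h.gen_eq, genOn, Finset.sum_pair (by decide)]

end GRADB

theorem st_grad : St_GRAD := by
  intro σ
  have k := GRADB.key (σ 0) (σ (0, 1)) (σ (0, 2)) (σ (0, -1)) (σ (1, 0)) (σ (-1, 0)) (σ (1, 1))
    (σ (-1, 1)) (σ (1, -1))
  have k' := (Int.cast_le (R := ℝ)).2 k
  have e1 : dis σ (0, 1) =
      GRADB.d4 (σ (0, 1)) (σ (1, 1)) (σ (-1, 1)) (σ (0, 2)) (σ 0) := rfl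
  have e2 : remA (sh (0, 1) σ) =
      (GRADB.rm (σ (0, 1)) (σ (1, 1)) (σ (-1, 1)) (σ (0, 2)) (σ 0) (σ (1, 0)) : ℝ) :=
    GRADB.rem_eq _
  have e3 : fU (sh (0, 1) σ) =
      (GRADB.u3 (GRADB.d4 (σ (0, 1)) (σ (1, 1)) (σ (-1, 1)) (σ (0, 2)) (σ 0)) : ℝ) :=
    GRADB.ind_u _
  have e4 : fO (sh (0, 1) σ) = (GRADB.op (σ (1, 1)) (σ (-1, 1)) (σ (0, 2)) (σ 0) : ℝ) :=
    GRADB.ind_op _ _ _ _
  have e5 : fU σ = (GRADB.u3 (GRADB.d4 (σ 0) (σ (1, 0)) (σ (-1, 0)) (σ (0, 1)) (σ (0, -1))) : ℝ) :=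
    GRADB.ind_u _
  have e6 : fO σ = (GRADB.op (σ (1, 0)) (σ (-1, 0)) (σ (0, 1)) (σ (0, -1)) : ℝ) :=
    GRADB.ind_op _ _ _ _
  have e7 : fa σ = (GRADB.nq (σ (0, 1)) (σ 0) : ℝ) := GRADB.ind_ne _ _
  have e8 : fa (flp σ 0) = (GRADB.nq (σ (0, 1)) (!σ 0) : ℝ) := by
    rw [fa, flp_self, flp_ne σ (by decide)]
    exact GRADB.ind_ne _ _
  have e9 : fa (flp σ (0, 1)) = (GRADB.nq (!σ (0, 1)) (σ 0) : ℝ) := by
    rw [fa, flp_self, flp_ne σ (by decide)]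
    exact GRADB.ind_ne _ _
  have f1 : fb σ = (GRADB.nq (σ (1, 0)) (σ 0) : ℝ) := GRADB.ind_ne _ _
  have f2 : fb (sh (0, 1) σ) = (GRADB.nq (σ (1, 1)) (σ (0, 1)) : ℝ) := GRADB.ind_ne _ _
  have f3 : fb (sh (0, -1) σ) = (GRADB.nq (σ (1, -1)) (σ (0, -1)) : ℝ) := GRADB.ind_ne _ _
  rw [GRADB.gen_fa, GRADB.rate_eq, GRADB.rate_eq, GRADB.dis_eq, e1, e2, e3, e4, e5, e6, e8, e9, e7,
    f1, f2, f3, GRADB.rem_eq]
  push_cast at k'
  rw [abs_le] at k' ⊢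
  constructor <;> linarith [k'.1, k'.2]

end Pool.Agent.BA
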