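import Pool.Agent.Lib.BA.Blue

/-! Block GT: the gradient condition tested against a bounded local function. -/

namespace Pool.Agent.BA

theorem st_gt (hgrad : St_GRAD) : St_GT := by
  intro m hm u hu g hg hb
  have hL := hm.toLin
  have hP := hL.toPos
  have hyy : xs (0, -1) * xs (0, 1) = 1 := by rw [← xs_add]; rfl
  have adj : ∀ (f : Cfg → ℝ), Loc f → ∀ v : A, m (fun σ => cv (xs (0, 1) * v) f σ * g σ) =
      m (fun σ => cv v f σ * g (sh (0, -1) σ)) := fun f hf v => by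
    have h := hL.cv_adj hf hg (0, 1) v 1
    simpa only [cv_one, mul_one, cv_xs, Prod.neg_mk, neg_zero] using h
  have adj' : ∀ (f : Cfg → ℝ), Loc f → ∀ v : A, m (fun σ => cv (xs (0, -1) * v) f σ * g σ) =
      m (fun σ => cv v f σ * g (sh (0, 1) σ)) := fun f hf v => by
    have h := hL.cv_adj hf hg (0, -1) v 1
    simpa only [cv_one, mul_one, cv_xs, Prod.neg_mk, neg_zero, neg_neg] using h
  have e1 : m (fun σ => cv (u * dY) fb σ * cv dY g σ) =
      m (fun σ => cv (xs (0, -1) * (u * dY) - u * dY) fb σ * g σ) := by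
    simp only [cv_sub, sub_mul]
    rw [hP.sub ((loc_fb.cv _).mul hg) ((loc_fb.cv _).mul hg), adj' fb loc_fb,
      ← hP.sub ((loc_fb.cv _).mul (hg.sh _)) ((loc_fb.cv _).mul hg)]
    congr 1; funext σ
    rw [show cv dY g σ = g (sh (0, 1) σ) - g σ by rw [dY, cv_sub, cv_xs, cv_one], mul_sub]
  have e2 : m (fun σ => cv u remA σ * cv (xs (0, -1) * dY) g σ) =
      m (fun σ => cv (u - xs (0, 1) * u) remA σ * g σ) := by
    simp only [cv_sub, sub_mul]
    rw [hP.sub ((loc_remA.cv _).mul hg) ((loc_remA.cv _).mul hg), adj remA loc_remA,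
      ← hP.sub ((loc_remA.cv _).mul hg) ((loc_remA.cv _).mul (hg.sh _))]
    congr 1; funext σ
    rw [show cv (xs (0, -1) * dY) g σ = g σ - g (sh (0, -1) σ) by
      rw [dY, mul_sub, hyy, mul_one, cv_sub, cv_xs, cv_one], mul_sub]
  have l0 := (loc_fa.gen.cv u).mul hg
  have l1 := (loc_fb.cv (xs (0, -1) * (u * dY) - u * dY)).mul hg
  have l2 := (loc_remA.cv (u - xs (0, 1) * u)).mul hg
  have lS : Loc fun σ => 3 * (fU σ + fO σ + fU (sh (0, 1) σ) + fO (sh (0, 1) σ)) :=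
    (((loc_fU.add loc_fO).add (loc_fU.sh _)).add (loc_fO.sh _)).cmul 3
  have eS : m (fun σ => 3 * (fU σ + fO σ + fU (sh (0, 1) σ) + fO (sh (0, 1) σ))) = 6 * (m fU + m fO) := by
    rw [hP.smul _ _ (((loc_fU.add loc_fO).add (loc_fU.sh _)).add (loc_fO.sh _)),
      hP.add _ _ ((loc_fU.add loc_fO).add (loc_fU.sh _)) (loc_fO.sh _),
      hP.add _ _ (loc_fU.add loc_fO) (loc_fU.sh _), hP.add _ _ loc_fU loc_fO, hL.shift _ _ loc_fU,
      hL.shift _ _ loc_fO]
    ring
  have key := hP.abs_le (l0.sub ((l1.cmul (1 / 2)).sub (l2.cmul (1 / 2)))) (lS.cv u) fun σ => by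
    refine le_trans ?_ (hu.abs_cv_le hgrad σ)
    have a1 : xs (0, -1) * (u * dY) - u * dY = u + u - u * xs (0, 1) - u * xs (0, -1) := by
      rw [dY]; linear_combination u * hyy
    have a2 : cv u (fun σ => gen fa σ - ((2 * fb σ - fb (sh (0, 1) σ) - fb (sh (0, -1) σ)) / 2 +
        (remA (sh (0, 1) σ) - remA σ) / 2)) σ = cv u (gen fa) σ -
        (1 / 2 * cv (xs (0, -1) * (u * dY) - u * dY) fb σ - 1 / 2 * cv (u - xs (0, 1) * u) remA σ) := by
      rw [a1, mul_comm (xs (0, 1)) u]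
      simp only [cv_sub, cv_add, ← cv_fsh]
      simp only [cv_def, Finset.mul_sum, ← Finset.sum_sub_distrib, ← Finset.sum_add_distrib]
      exact Finset.sum_congr rfl fun z _ => by ring
    have a3 : ∀ a b c d : ℝ, a * d - (1 / 2 * (b * d) - 1 / 2 * (c * d)) = (a - (1 / 2 * b - 1 / 2 * c)) * d :=
      fun a b c d => by ring
    rw [a2, a3, abs_mul]
    exact mul_le_of_le_one_right (abs_nonneg _) (hb σ)
  rw [hL.cv_prob hu lS, eS, hP.sub l0 ((l1.cmul (1 / 2)).sub (l2.cmul (1 / 2))),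
    hP.sub (l1.cmul (1 / 2)) (l2.cmul (1 / 2)), hP.smul _ _ l1, hP.smul _ _ l2] at key
  rw [e1, e2]
  refine le_trans (le_of_eq ?_) key
  congr 1
  ring

end Pool.Agent.BA
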