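import Pool.Agent.Lib.BA.Blue

open Finset Filter Topology

namespace Pool.Agent.BA

theorem st_harm : St_HARM := by
  intro e hanti h0 δ hδ b0
  by_contra hcon
  push Not at hcon
  have tele : ∀ n : ℕ, ∑ i ∈ range n, (e (b0 + i) - e (b0 + i + 6)) ≤ 6 * e b0 := by
    intro n
    have : ∑ i ∈ range n, (e (b0 + i) - e (b0 + i + 6)) =
        ∑ i ∈ range 6, e (b0 + i) - ∑ i ∈ range 6, e (b0 + n + i) := by
      induction n with
      | zero => simp
      | succ n ih =>
        rw [sum_range_succ, ih]
        simp only [sum_range_succ, sum_range_zero, add_assoc, Nat.add_zero]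
        norm_num
        ring
    rw [this]
    have h1 : ∑ i ∈ range 6, e (b0 + i) ≤ ∑ i ∈ range 6, e b0 :=
      sum_le_sum fun i _ => hanti (by omega)
    have h2 : 0 ≤ ∑ i ∈ range 6, e (b0 + n + i) := sum_nonneg fun i _ => h0 _
    simp only [sum_const, card_range, nsmul_eq_mul] at h1
    push_cast at h1
    linarith
  have hsum : Summable fun i : ℕ => δ * (1 / ((i + (b0 + 5) : ℕ) : ℝ)) := by
    refine summable_of_sum_range_le (c := 6 * e b0) (fun i => by positivity) fun n => ?_
    refine (sum_le_sum fun i _ => ?_).trans (tele n)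
    have := (hcon (b0 + i) (by omega)).le
    rw [mul_one_div, div_le_iff₀ (by positivity)]
    push_cast at this ⊢
    linarith
  have h2 := (summable_mul_left_iff hδ.ne').1 hsum
  exact Real.not_summable_one_div_natCast
    ((summable_nat_add_iff (f := fun n : ℕ => 1 / (n : ℝ)) (b0 + 5)).1 h2)

end Pool.Agent.BA
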