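import Pool.Agent.Lib.BA.Blue

/-! The heat profile with absorbing ends. -/

open Finset

namespace Pool.Agent.BA

namespace HeatB

lemma yz_zero (m i : ℕ) : yz m 0 i = if 1 ≤ i ∧ i < m then 1 else 0 := by rw [yz]

lemma yz_succ (m r i : ℕ) : yz m (r + 1) i =
    if 1 ≤ i ∧ i < m then (yz m r (i - 1) + yz m r i + yz m r (i + 1)) / 3 else 0 := by rw [yz]

lemma bdd (m r : ℕ) : ∀ i, 0 ≤ yz m r i ∧ yz m r i ≤ 1 := by
  induction r with
  | zero => intro i; rw [yz_zero]; split_ifs <;> norm_num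
  | succ r ih =>
    intro i
    rw [yz_succ]
    have a := ih (i - 1)
    have b := ih i
    have c := ih (i + 1)
    split_ifs
    · constructor <;> linarith [a.1, a.2, b.1, b.2, c.1, c.2]
    · norm_num

lemma anti (m r : ℕ) : ∀ i, yz m (r + 1) i ≤ yz m r i := by
  induction r with
  | zero =>
    intro i
    have h := (bdd m 1 i).2
    by_cases hi : 1 ≤ i ∧ i < m
    · rw [yz_zero, if_pos hi]; exact h
    · rw [yz_zero, yz_succ, if_neg hi, if_neg hi]
  | succ r ih =>
    intro i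
    have a := ih (i - 1)
    have b := ih i
    have c := ih (i + 1)
    have d := yz_succ m (r + 1) i
    have e := yz_succ m r i
    by_cases hi : 1 ≤ i ∧ i < m
    · rw [if_pos hi] at d e; linarith
    · rw [if_neg hi] at d e; linarith

lemma sin_three (θ x : ℝ) :
    Real.sin (x - θ) + Real.sin x + Real.sin (x + θ) = (1 + 2 * Real.cos θ) * Real.sin x := by
  rw [Real.sin_sub, Real.sin_add]; ring

lemma sub (m k j : ℕ) (hk : 2 ≤ k) (hj : j + k ≤ m) (r : ℕ) : ∀ t, t ≤ k →
    ((1 + 2 * Real.cos (Real.pi / k)) / 3) ^ r * Real.sin (Real.pi / k * t) ≤ yz m r (j + t) := by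
  have hk0 : (0 : ℝ) < k := by exact_mod_cast (by omega : 0 < k)
  have hk2 : (2 : ℝ) ≤ k := by exact_mod_cast hk
  have hpi := Real.pi_pos
  have hc : 0 ≤ Real.cos (Real.pi / k) := by
    refine Real.cos_nonneg_of_neg_pi_div_two_le_of_le ?_ ?_
    · have : 0 ≤ Real.pi / k := by positivity
      linarith
    · exact div_le_div_of_nonneg_left hpi.le (by norm_num) hk2
  have hend : ∀ (r t : ℕ), (t = 0 ∨ t = k) →
      ((1 + 2 * Real.cos (Real.pi / k)) / 3) ^ r * Real.sin (Real.pi / k * t) ≤ yz m r (j + t) := by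
    intro r t ht
    have : Real.sin (Real.pi / k * t) = 0 := by
      rcases ht with rfl | rfl
      · simp
      · rw [div_mul_cancel₀ _ hk0.ne', Real.sin_pi]
    rw [this, mul_zero]
    exact (bdd m r _).1
  induction r with
  | zero =>
    intro t ht
    by_cases h : t = 0 ∨ t = k
    · exact hend 0 t h
    · rw [yz_zero, if_pos (by omega), pow_zero, one_mul]
      exact Real.sin_le_one _
  | succ r ih =>
    intro t ht
    by_cases h : t = 0 ∨ t = k
    · exact hend _ t h
    · obtain ⟨s, rfl⟩ : ∃ s, t = s + 1 := ⟨t - 1, by omega⟩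
      have a := ih s (by omega)
      have b := ih (s + 1) (by omega)
      have c := ih (s + 2) (by omega)
      have e1 : j + (s + 1) - 1 = j + s := by omega
      have e2 : j + (s + 1) + 1 = j + (s + 2) := by omega
      rw [yz_succ, if_pos (by omega), e1, e2]
      have e3 : Real.pi / k * (s : ℝ) = Real.pi / k * ((s + 1 : ℕ) : ℝ) - Real.pi / k := by
        push_cast; ring
      have e4 : Real.pi / k * ((s + 2 : ℕ) : ℝ) = Real.pi / k * ((s + 1 : ℕ) : ℝ) + Real.pi / k := by
        push_cast; ring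
      rw [e3] at a
      rw [e4] at c
      have e5 := sin_three (Real.pi / k) (Real.pi / k * ((s + 1 : ℕ) : ℝ))
      have e6 : ((1 + 2 * Real.cos (Real.pi / k)) / 3) ^ (r + 1) *
          Real.sin (Real.pi / k * ((s + 1 : ℕ) : ℝ)) =
          ((1 + 2 * Real.cos (Real.pi / k)) / 3) ^ r *
            ((1 + 2 * Real.cos (Real.pi / k)) * Real.sin (Real.pi / k * ((s + 1 : ℕ) : ℝ))) / 3 := by
        rw [pow_succ]; ring
      rw [e6, ← e5]
      linarith

lemma jordan (k t : ℕ) (h1 : 1 ≤ t) (h2 : 2 * t ≤ k) : 2 / (k : ℝ) ≤ Real.sin (Real.pi / k * t) := by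
  have hk0 : (0 : ℝ) < k := by exact_mod_cast (by omega : 0 < k)
  have ht : (1 : ℝ) ≤ t := by exact_mod_cast h1
  have ht2 : 2 * (t : ℝ) ≤ k := by exact_mod_cast h2
  have hpi := Real.pi_pos
  have h3 := Real.mul_le_sin (x := Real.pi / k * t) (by positivity) (by
    rw [div_mul_eq_mul_div, div_le_div_iff₀ hk0 (by norm_num)]
    nlinarith)
  refine le_trans ?_ h3
  have : 2 / Real.pi * (Real.pi / k * t) = 2 / k * t := by field_simp
  rw [this]
  exact le_mul_of_one_le_right (by positivity) ht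

lemma sin_ge (k t : ℕ) (h1 : 1 ≤ t) (h2 : t < k) : 2 / (k : ℝ) ≤ Real.sin (Real.pi / k * t) := by
  by_cases h : 2 * t ≤ k
  · exact jordan k t h1 h
  · have hk0 : (0 : ℝ) < k := by exact_mod_cast (by omega : 0 < k)
    have := jordan k (k - t) (by omega) (by omega)
    rw [Nat.cast_sub h2.le, mul_sub, div_mul_cancel₀ _ hk0.ne', Real.sin_pi_sub] at this
    exact this

lemma pow_ge (k r : ℕ) (hk : 2 ≤ k) (hr : 8 * r ≤ k ^ 2) :
    1 / 2 ≤ ((1 + 2 * Real.cos (Real.pi / k)) / 3) ^ r := by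
  have hk0 : (0 : ℝ) < k := by exact_mod_cast (by omega : 0 < k)
  have hr' : 8 * (r : ℝ) ≤ (k : ℝ) ^ 2 := by exact_mod_cast hr
  have h1 := Real.one_sub_sq_div_two_le_cos (x := Real.pi / k)
  have h2 := Real.neg_one_le_cos (Real.pi / k)
  have h3 := one_add_mul_le_pow (a := (2 * Real.cos (Real.pi / k) - 2) / 3) (by linarith) r
  have e : 1 + (2 * Real.cos (Real.pi / k) - 2) / 3 = (1 + 2 * Real.cos (Real.pi / k)) / 3 := by ring
  rw [e] at h3
  refine le_trans ?_ h3
  have h4 : Real.pi ^ 2 ≤ 12 := by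
    have := Real.pi_lt_d2
    have := Real.pi_pos
    nlinarith
  have h5 : (r : ℝ) * (Real.pi / k) ^ 2 ≤ 3 / 2 := by
    rw [div_pow, ← mul_div_assoc, div_le_iff₀ (by positivity)]
    have : (0 : ℝ) ≤ r := by positivity
    nlinarith
  have h6 : (0 : ℝ) ≤ r := by positivity
  nlinarith [mul_le_mul_of_nonneg_left h1 h6]

end HeatB

theorem st_heat : St_HEAT := by
  intro m
  refine ⟨HeatB.bdd m, HeatB.anti m, fun k r i hk hkm hr h1 h2 => ?_⟩
  obtain ⟨j, t, rfl, h3, h4, h5⟩ : ∃ j t, i = j + t ∧ j + k ≤ m ∧ 1 ≤ t ∧ t < k :=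
    ⟨min (i - 1) (m - k), i - min (i - 1) (m - k), by omega, by omega, by omega, by omega⟩
  have a := HeatB.sub m k j hk h3 r t h5.le
  have b := HeatB.sin_ge k t h4 h5
  have c := HeatB.pow_ge k r hk hr
  have hk0 : (0 : ℝ) < k := by exact_mod_cast (by omega : 0 < k)
  refine le_trans ?_ a
  have e : 1 / (k : ℝ) = 1 / 2 * (2 / k) := by ring
  rw [e]
  exact mul_le_mul c b (by positivity) (by linarith)

end Pool.Agent.BA
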