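import Pool.Agent.Lib.BA.Blue

/-! Block HMAIN: the contradiction on a window. -/

open Finset MeasureTheory

namespace Pool.Agent.BA

namespace HMAINB

theorem fa01 (σ : Cfg) : 0 ≤ fa σ ∧ fa σ ≤ 1 := ⟨ind_nonneg _, ind_le_one _⟩
theorem fb01 (σ : Cfg) : 0 ≤ fb σ ∧ fb σ ≤ 1 := ⟨ind_nonneg _, ind_le_one _⟩

theorem FF01 (n : ℕ) (σ : Cfg) : 0 ≤ FF n σ ∧ FF n σ ≤ n := by
  have ha := fun j => (prob_ww.pow j).cv_nonneg (fun σ => (fa01 σ).1) σ
  have hb := fun j => (prob_ww.pow j).cv_nonneg (fun σ => (fb01 σ).1) σ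
  refine ⟨sum_nonneg fun j _ => mul_nonneg (ha j) (hb j), ?_⟩
  refine (sum_le_card_nsmul _ _ 1 fun j _ => mul_le_one₀
    ((prob_ww.pow j).cv_le (fun σ => (fa01 σ).2) σ) (hb j)
    ((prob_ww.pow j).cv_le (fun σ => (fb01 σ).2) σ)).trans (by simp)

theorem sqrt_le {x c : ℝ} (hx : 0 ≤ x) (hc : 0 < c) : √x ≤ x / c / 2 + c / 2 := by
  have h1 := Real.sq_sqrt hx
  rw [div_div, div_add' _ _ _ (by positivity), le_div_iff₀ (by positivity)]
  nlinarith [sq_nonneg (√x - c)]

end HMAINB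

open HMAINB in
theorem st_hmain (hfder : St_FDER) (hpur : St_PUR) (hvprop : St_VPROP) (hvlog : St_VLOG)
    (henergy : St_ENERGY) : St_HMAIN := by
  intro α hα
  obtain ⟨C, hC, hF⟩ := hfder
  obtain ⟨C', hC', hV⟩ := hvprop
  obtain ⟨A, hA⟩ := exists_nat_ge (8 / α ^ 4)
  rw [div_le_iff₀ (by positivity)] at hA
  obtain ⟨δ, hδ, d1, d2⟩ : ∃ δ : ℝ, 0 < δ ∧ δ * (3 + 2 * C') ≤ (α ^ 2 / 8) ^ (8 * A + 1 + 1) ∧
      δ * (α ^ 2 / 2 + 2 * C) ≤ 1 :=
    ⟨min ((α ^ 2 / 8) ^ (8 * A + 1 + 1) / (3 + 2 * C')) (1 / (α ^ 2 / 2 + 2 * C)), by positivity,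
      (le_div_iff₀ (by positivity)).1 (min_le_left _ _),
      (le_div_iff₀ (by positivity)).1 (min_le_right _ _)⟩
  refine ⟨A, δ, hδ, fun m hm t n ht hn hlow h1 h2 h3 h4 => ?_⟩
  have hn' : (1 : ℝ) ≤ n := by exact_mod_cast hn
  have hA0 : (0 : ℝ) ≤ A := Nat.cast_nonneg _
  have hT : t ≤ t + A * n := le_add_of_nonneg_right (by positivity)
  have cont : ∀ f, Loc f → ContinuousOn (fun s => m s f) (Set.Icc t (t + A * n)) :=
    fun f hf => (hm.cont f hf).mono fun s hs => ht.trans hs.1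
  have ii : ∀ f, Loc f → IntervalIntegrable (fun s => m s f) volume t (t + A * n) :=
    fun f hf => (cont f hf).intervalIntegrable_of_Icc hT
  have nn : ∀ {p : Cfg → Prop} {s : ℝ}, 0 ≤ s → Loc (fun σ => ind (p σ)) →
      0 ≤ m s fun σ => ind (p σ) := fun hs hp => (hm.pos _ hs).nonneg hp fun _ => ind_nonneg _
  have mono : ∀ s s', 0 ≤ s → s ≤ s' → m s' fe ≤ m s fe := fun s s' a1 a2 => by
    have := henergy m hm s s' a1 a2
    have a3 : 0 ≤ ∫ r in s..s', m r fU :=
      intervalIntegral.integral_nonneg a2 fun r hr => nn (a1.trans hr.1) loc_fU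
    linarith
  have half : ∀ s, 0 ≤ s → m s fe = 2 * m s fa ∧ m s fb = m s fa ∧ m s fa ≤ 1 := fun s hs => by
    have a1 := (hm.pos s hs).add fa fb loc_fa loc_fb
    have a2 := hm.sym s hs
    have a3 := (hm.pos s hs).abs_le_const (hm.one s hs) loc_fa (M := 1) fun σ =>
      abs_le.2 ⟨by linarith [(fa01 σ).1], (fa01 σ).2⟩
    exact ⟨by change m s (fun σ => fa σ + fb σ) = _; linarith, a2.symm, (abs_le.1 a3).2⟩
  have key : ∀ s ∈ Set.Ioo t (t + A * n), 5 / 16 * α ^ 4 - (α ^ 2 / 2 + C) * m s fK -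
      C * n * (m s fU + m s fO) ≤ m s (gen (FF n)) := by
    intro s hs
    have hs0 : 0 ≤ s := ht.trans hs.1.le
    have hst := hm.st s hs0
    have a1 := hV m hm t s n ((8 * A + 1 + 1) * n) ht hs.1.le (by push_cast; nlinarith [hs.2])
    have a2 : ∫ r in t..s, m r fK ≤ δ * n := (intervalIntegral.integral_mono_interval le_rfl
      hs.1.le hs.2.le ((ae_restrict_iff' measurableSet_Ioc).2 (Filter.Eventually.of_forall
        fun r hr => nn (ht.trans hr.1.le) loc_fK)) (ii _ loc_fK)).trans h3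
    have a3 : ∫ r in t..s, (m r fU + m r fO) ≤ δ := (intervalIntegral.integral_mono_interval le_rfl
      hs.1.le hs.2.le ((ae_restrict_iff' measurableSet_Ioc).2 (Filter.Eventually.of_forall
        fun r hr => add_nonneg (nn (ht.trans hr.1.le) loc_fU) (nn (ht.trans hr.1.le) loc_fO)))
      ((ii _ loc_fU).add (ii _ loc_fO))).trans h2
    have a4 : C' / (n + 1) * ∫ r in t..s, m r fK ≤ C' * δ := by
      refine (mul_le_mul_of_nonneg_left a2 (by positivity)).trans ?_
      rw [div_mul_eq_mul_div, div_le_iff₀ (by positivity)]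
      nlinarith [mul_nonneg hC' hδ.le]
    have a5 := mul_le_mul_of_nonneg_left a3 hC'
    obtain ⟨e1, e2, e3⟩ := half s hs0
    obtain ⟨e4, e5, e6⟩ := half t ht
    have a6 := mono s _ hs0 hs.2.le
    have a7 := mono t s ht hs.1.le
    have a8 := hlow s hs.1.le
    have a9 : m t fa ^ 2 - m s fa ^ 2 ≤ δ := by
      have := mul_le_mul_of_nonneg_left (add_le_add e6 e3)
        (show 0 ≤ m t fa - m s fa by linarith only [e1, e4, a7])
      linarith only [this, e1, e4, a6, h4]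
    have b1 := hvlog (m s) hst n (8 * A + 1) (α ^ 2 / 8) (by positivity) (by
      rw [e2]; rw [e5] at h1; linarith only [a1, a4, a5, a9, h1, d1])
    have b2 := hpur (m s) hst n
    have b3 := hF (m s) hst n
    have hX : 0 ≤ XX (m s) n := sum_nonneg fun j _ =>
      hst.toPos.nonneg ((loc_fa.cv _).pow 2) fun _ => sq_nonneg _
    have hY : 0 ≤ YY (m s) n := sum_nonneg fun j _ =>
      hst.toPos.nonneg ((loc_fb.cv _).pow 2) fun _ => sq_nonneg _
    have hc : 0 < α ^ 2 / 2 := by positivity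
    have b4 := sqrt_le hX hc
    have b5 := sqrt_le hY hc
    have b6 : α ^ 2 ≤ m s fa * m s fb := by
      rw [e2, sq]; exact mul_le_mul a8 a8 hα.le (hα.le.trans a8)
    have b7 : 5 / 8 * α ^ 2 - m s fK ≤ (XX (m s) n + YY (m s) n) / 4 / (α ^ 2 / 2) := by
      have : (XX (m s) n + YY (m s) n) / 4 / (α ^ 2 / 2) =
        XX (m s) n / (α ^ 2 / 2) / 4 + YY (m s) n / (α ^ 2 / 2) / 4 := by ring
      linarith only [this, b1, b2, b4, b5, b6]
    rw [le_div_iff₀ hc] at b7
    linarith only [b7, b3]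
  have I := intervalIntegral.integral_le_sub_of_hasDeriv_right_of_le
    (g := fun s => m s (FF n)) (g' := fun s => m s (gen (FF n)))
    (φ := fun s => 5 / 16 * α ^ 4 - (α ^ 2 / 2 + C) * m s fK - C * n * (m s fU + m s fO))
    hT (cont _ (loc_FF n))
    (fun s hs => (hm.deriv _ (loc_FF n) s (ht.trans_lt hs.1)).hasDerivWithinAt)
    (ContinuousOn.integrableOn_Icc (by
      have := cont _ loc_fK
      have := cont _ loc_fU
      have := cont _ loc_fO
      fun_prop)) key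
  rw [intervalIntegral.integral_sub (intervalIntegrable_const.sub ((ii _ loc_fK).const_mul _))
    (((ii _ loc_fU).add (ii _ loc_fO)).const_mul _), intervalIntegral.integral_sub
    intervalIntegrable_const ((ii _ loc_fK).const_mul _), intervalIntegral.integral_const,
    intervalIntegral.integral_const_mul, intervalIntegral.integral_const_mul, smul_eq_mul] at I
  have c1 := (hm.pos t ht).nonneg (loc_FF n) fun σ => (FF01 n σ).1
  have c2 := (abs_le.1 ((hm.pos _ (ht.trans hT)).abs_le_const (hm.one _ (ht.trans hT)) (loc_FF n)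
    (M := n) fun σ => abs_le.2 ⟨by linarith [(FF01 n σ).1], (FF01 n σ).2⟩)).2
  have c3 := mul_le_mul_of_nonneg_left h3 (show 0 ≤ α ^ 2 / 2 + C by positivity)
  have c4 := mul_le_mul_of_nonneg_left h2 (show 0 ≤ C * n by positivity)
  have c5 := mul_le_mul_of_nonneg_left hA (show (0 : ℝ) ≤ n by positivity)
  have c6 := mul_le_mul_of_nonneg_left d2 (show (0 : ℝ) ≤ n by positivity)
  linarith only [I, c1, c2, c3, c4, c5, c6, hn']

end Pool.Agent.BA
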