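import Pool.Agent.Lib.BA.Blue

/-! Block KAP: two facing corners are reducible. -/

open Finset

set_option linter.unusedVariables false

namespace Pool.Agent.BA

noncomputable section
open Classical

namespace KapB

/-- the square below and left of the origin -/
def Sq (w : ℕ) (x : V) : Prop := -(w : ℤ) ≤ x.1 ∧ x.1 ≤ 0 ∧ -(w : ℤ) ≤ x.2 ∧ x.2 ≤ 0

/-- two facing corners -/
def Two (i j : ℕ) (σ : Cfg) : Prop :=
  σ (0, 0) = true ∧ (σ (-(i : ℤ), 0) = true ∧ σ (-(i : ℤ), 1) = false ∧ σ (-(i : ℤ) + 1, 0) = false) ∧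
    (σ (0, -(j : ℤ)) = true ∧ σ (0, -(j : ℤ) + 1) = false ∧ σ (1, -(j : ℤ)) = false)

theorem flp_ne' (σ : Cfg) {a b c d : ℤ} (h : a ≠ c ∨ b ≠ d) : flp σ (c, d) (a, b) = σ (a, b) :=
  flp_ne σ fun e => by
    rw [Prod.mk.injEq] at e
    omega

theorem dis_eq (σ : Cfg) (a b : ℤ) : dis σ (a, b) =
    (if σ (a + 1, b) = σ (a, b) then 0 else 1) + (if σ (a - 1, b) = σ (a, b) then 0 else 1) +
    (if σ (a, b + 1) = σ (a, b) then 0 else 1) + (if σ (a, b - 1) = σ (a, b) then 0 else 1) := by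
  simp only [dis, Prod.mk_add_mk, add_zero, sub_eq_add_neg]

theorem half (hcap : St_CAP) {w i j : ℕ} {σ : Cfg} (hi : 1 ≤ i) (hiw : i ≤ w) (h : Two i j σ) :
    Red (2 * w + 4) σ ∨
      (∃ (y : V) (i' : ℕ), Sq w y ∧ σ y = false ∧ 2 ≤ dis σ y ∧ 1 ≤ i' ∧ i' ≤ w ∧
        Two i' j (flp σ y)) ∨
      ∀ t : ℕ, t ≤ w → σ (-(i : ℤ), -(t : ℤ)) = true ∧ σ (-(i : ℤ) + 1, -(t : ℤ)) = false := by
  obtain ⟨h0, ⟨h1, h2, h3⟩, h4, h5, h6⟩ := h
  have hi2 : 2 ≤ i := by
    by_contra hlt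
    obtain rfl : i = 1 := by omega
    simp [h0] at h3
  by_cases hex : ∃ t : ℕ, t ≤ w ∧
      ¬(σ (-(i : ℤ), -(t : ℤ)) = true ∧ σ (-(i : ℤ) + 1, -(t : ℤ)) = false)
  swap
  · refine Or.inr (Or.inr fun t ht => ?_)
    by_contra hn
    exact hex ⟨t, ht, hn⟩
  obtain ⟨htw, hnot⟩ := Nat.find_spec hex
  have hlt : ∀ s : ℕ, s < Nat.find hex →
      σ (-(i : ℤ), -(s : ℤ)) = true ∧ σ (-(i : ℤ) + 1, -(s : ℤ)) = false := fun s hs => by
    by_contra hn
    exact Nat.find_min hex hs ⟨by omega, hn⟩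
  generalize Nat.find hex = t at htw hnot hlt
  have ht1 : 1 ≤ t := by
    by_contra hn
    obtain rfl : t = 0 := by omega
    exact hnot (by simpa using ⟨h1, h3⟩)
  by_cases hm : σ (-(i : ℤ), -(t : ℤ)) = true
  swap
  · left
    have hc : Cap t (act ⟨false, true, true, true⟩ (sh (-(i : ℤ) + 1, 0) σ)) := by
      refine ⟨?_, ?_, fun s hs => ⟨?_, ?_⟩⟩
      · simpa [act, sh, Fr.lin] using h2
      · simpa [act, sh, Fr.lin] using hm
      · simpa [act, sh, Fr.lin] using (hlt s hs).1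
      · simpa [act, sh, Fr.lin] using (hlt s hs).2
    have hz : ((-(i : ℤ) + 1, 0) : V) ∈ box w := by
      rw [mem_box]
      simp only
      omega
    exact (Red.of_sh hz (Red.of_act _ (hcap.1 t _ ht1 hc))).mono (by omega)
  have hp : σ (-(i : ℤ) + 1, -(t : ℤ)) = true := by
    by_contra hn
    exact hnot ⟨hm, by simpa using hn⟩
  obtain ⟨s, rfl⟩ : ∃ s, t = s + 1 := ⟨t - 1, by omega⟩
  obtain ⟨h7, h8⟩ := hlt s (by omega)
  have e1 : -(i : ℤ) + 1 - 1 = -(i : ℤ) := by ring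
  have e2 : -(s : ℤ) - 1 = -((s + 1 : ℕ) : ℤ) := by push_cast; ring
  have hd := dis_eq σ (-(i : ℤ) + 1) (-(s : ℤ))
  rw [e1, e2, h7, h8, hp] at hd
  have hsq : Sq w (-(i : ℤ) + 1, -(s : ℤ)) := by
    simp only [Sq]
    omega
  have hd2 : 2 ≤ dis σ (-(i : ℤ) + 1, -(s : ℤ)) := by
    rw [hd]
    simp only [Bool.true_eq_false, if_false]
    omega
  rcases Nat.eq_zero_or_pos s with rfl | hs
  · by_cases hU : σ (-(i : ℤ) + 1 + 1, 0) = false ∧ σ (-(i : ℤ) + 1, 1) = false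
    · refine Or.inr (Or.inl ⟨_, i - 1, hsq, h8, hd2, by omega, by omega, ?_⟩)
      have e3 : -((i - 1 : ℕ) : ℤ) = -(i : ℤ) + 1 := by omega
      simp only [Two, e3, Nat.cast_zero, neg_zero] at h8 ⊢
      refine ⟨?_, ⟨?_, ?_, ?_⟩, ?_, ?_, ?_⟩
      · rw [flp_ne' σ (by omega), h0]
      · rw [flp_self, h8]; rfl
      · rw [flp_ne' σ (by omega), hU.2]
      · rw [flp_ne' σ (by omega), hU.1]
      · rw [flp_ne' σ (by omega), h4]
      · rw [flp_ne' σ (by omega), h5]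
      · rw [flp_ne' σ (by omega), h6]
    · left
      refine Red.base σ (-(i : ℤ) + 1, -((0 : ℕ) : ℤ)) ?_ ?_
      · rw [mem_box]
        simp only
        omega
      · rw [hd]
        simp only [Nat.cast_zero, neg_zero, zero_add, Bool.true_eq_false, if_false]
        split_ifs with a b
        · exact absurd ⟨a, b⟩ hU
        all_goals omega
  · refine Or.inr (Or.inl ⟨_, i, hsq, h8, hd2, hi, hiw, ?_, ⟨?_, ?_, ?_⟩, ?_, ?_, ?_⟩)
    · rw [flp_ne' σ (by omega), h0]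
    · rw [flp_ne' σ (by omega), h1]
    · rw [flp_ne' σ (by omega), h2]
    · rw [flp_ne' σ (by omega), h3]
    · rw [flp_ne' σ (by omega), h4]
    · rw [flp_ne' σ (by omega), h5]
    · rw [flp_ne' σ (by omega), h6]

theorem act_swap (σ : Cfg) (a b : ℤ) : act ⟨false, false, false, true⟩ σ (a, b) = σ (b, a) := by
  simp [act, Fr.lin]

theorem Two.swap {i j : ℕ} {σ : Cfg} (h : Two i j σ) :
    Two j i (act ⟨false, false, false, true⟩ σ) := by
  obtain ⟨h0, ⟨h1, h2, h3⟩, h4, h5, h6⟩ := h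
  simp only [Two, act_swap]
  exact ⟨h0, ⟨h4, h6, h5⟩, h1, h3, h2⟩

theorem main (hcap : St_CAP) (w n : ℕ) : ∀ (i j : ℕ) (σ : Cfg) (S : Finset V), S.card ≤ n →
    (∀ x, Sq w x → σ x = false → x ∈ S) → 1 ≤ i → i ≤ w → 1 ≤ j → j ≤ w → Two i j σ →
    Red (2 * w + 4) σ := by
  induction n with
  | zero =>
    intro i j σ S hS hm hi hiw hj hjw h
    have := hm (-(i : ℤ) + 1, 0) (by simp only [Sq]; omega) h.2.1.2.2
    have := card_pos.2 ⟨_, this⟩
    omega
  | succ n ih =>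
    have step : ∀ (j : ℕ) (σ : Cfg) (S : Finset V), S.card ≤ n + 1 →
        (∀ x, Sq w x → σ x = false → x ∈ S) → 1 ≤ j → j ≤ w →
        (∃ (y : V) (i' : ℕ), Sq w y ∧ σ y = false ∧ 2 ≤ dis σ y ∧ 1 ≤ i' ∧ i' ≤ w ∧
          Two i' j (flp σ y)) → Red (2 * w + 4) σ := by
      rintro j σ S hS hm hj hjw ⟨y, i', hy, hy0, hd, h1, h2, h3⟩
      refine Red.step σ y ?_ hd (ih i' j _ (S.erase y) ?_ (fun x hx hx0 => ?_) h1 h2 hj hjw h3)
      · rw [mem_box]
        simp only [Sq] at hy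
        omega
      · rw [card_erase_of_mem (hm y hy hy0)]
        omega
      · have hne : x ≠ y := by
          rintro rfl
          simp [flp_self, hy0] at hx0
        rw [flp_ne σ hne] at hx0
        exact mem_erase.2 ⟨hne, hm x hx hx0⟩
    intro i j σ S hS hm hi hiw hj hjw h
    rcases half hcap hi hiw h with h1 | h1 | h1
    · exact h1
    · exact step j σ S hS hm hj hjw h1
    rcases half hcap hj hjw h.swap with h2 | h2 | h2
    · exact h2.of_act _
    · refine Red.of_act _ (step i _ (S.image Prod.swap) (card_image_le.trans hS) ?_ hi hiw h2)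
      rintro ⟨a, b⟩ hx hx0
      rw [act_swap] at hx0
      refine mem_image.2 ⟨(b, a), hm _ ?_ hx0, rfl⟩
      simp only [Sq] at hx ⊢
      omega
    · exfalso
      have h3 := (h1 j hjw).2
      have h4 := (h2 (i - 1) (by omega)).1
      have e3 : -((i - 1 : ℕ) : ℤ) = -(i : ℤ) + 1 := by omega
      rw [act_swap, e3, h3] at h4
      exact absurd h4 (by simp)

end KapB

open KapB in
theorem st_kap (hcap : St_CAP) : St_KAP := by
  intro w i j σ hi hiw hj hjw h0 h1 h2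
  refine main hcap w _ i j σ (box w) le_rfl (fun x hx _ => ?_) hi hiw hj hjw ⟨h0, ?_, ?_⟩
  · rw [mem_box]
    simp only [Sq] at hx
    omega
  · simpa [CNE] using h1
  · simpa [CNE] using h2

end

end Pool.Agent.BA
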