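import Pool.Agent.Lib.BA.Blue

/-! Corners are dominated up to sparse events. -/

open Finset

namespace Pool.Agent.BA

noncomputable section

namespace KdomB

/-- a corner with no further corner in the direction `v` -/
def Lone (w : ℕ) (v : V) (σ : Cfg) : Prop := CNE σ 0 ∧ ∀ i ∈ Icc 1 w, ¬ CNE σ (i • v)

theorem loc_Lone (w : ℕ) (v : V) : Loc (Lone w v) :=
  (loc_CNE 0).and (Loc.ball _ fun _ _ => (loc_CNE _).not)

theorem cne_sh (z : V) (σ : Cfg) : CNE (sh z σ) 0 ↔ CNE σ z := by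
  simp only [CNE, sh, zero_add, add_zero, add_comm]

theorem sparse (hs : St_SPARSE) (w : ℕ) (v : V) :
    Sparse (1 / (w + 1)) fun σ => ind (Lone w v σ) :=
  hs _ v w (loc_Lone w v) fun σ i h1 h2 hp hq =>
    hp.2 i (mem_Icc.2 ⟨h1, h2⟩) ((cne_sh _ σ).1 hq.1)

theorem frame {σ : Cfg} (h : (σ (0, 1) ≠ σ 0 ∨ σ (0, -1) ≠ σ 0) ∧ (σ (1, 0) ≠ σ 0 ∨ σ (-1, 0) ≠ σ 0)) :
    ∃ g : Fr, CNE (act g σ) 0 := by
  have e0 : (0 : V) = (0, 0) := rfl
  rw [e0] at h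
  obtain ⟨h1 | h1, h2 | h2⟩ := h
  · refine ⟨⟨!σ (0, 0), false, false, false⟩, ?_⟩
    simp only [CNE, act, Fr.lin]
    simp
    exact ⟨h1.symm, h2.symm⟩
  · refine ⟨⟨!σ (0, 0), true, false, false⟩, ?_⟩
    simp only [CNE, act, Fr.lin]
    simp
    exact ⟨h1.symm, h2.symm⟩
  · refine ⟨⟨!σ (0, 0), false, true, false⟩, ?_⟩
    simp only [CNE, act, Fr.lin]
    simp
    exact ⟨h1.symm, h2.symm⟩
  · refine ⟨⟨!σ (0, 0), true, true, false⟩, ?_⟩
    simp only [CNE, act, Fr.lin]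
    simp
    exact ⟨h1.symm, h2.symm⟩

theorem tri (hkap : St_KAP) (w : ℕ) {σ : Cfg} (h : CNE σ 0) :
    Red (2 * w + 4) σ ∨ Lone w (-1, 0) σ ∨ Lone w (0, -1) σ := by
  by_cases h1 : Lone w (-1, 0) σ
  · exact Or.inr (Or.inl h1)
  by_cases h2 : Lone w (0, -1) σ
  · exact Or.inr (Or.inr h2)
  left
  unfold Lone at h1 h2
  push Not at h1 h2
  obtain ⟨i, hi, ci⟩ := h1 h
  obtain ⟨j, hj, cj⟩ := h2 h
  rw [mem_Icc] at hi hj
  refine hkap w i j σ hi.1 hi.2 hj.1 hj.2 h.1 ?_ ?_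
  · simpa using ci
  · simpa using cj

end KdomB

open KdomB in
theorem st_kdom (hkap : St_KAP) (hred : St_RED) (hsparse : St_SPARSE) : St_KDOM := by
  intro w
  obtain ⟨K, hK, hD⟩ := hred (2 * w + 4)
  refine ⟨K, hK, fun lam h0 h1 => ⟨_, fun σ => ∑ g : Fr,
    (ind (Lone w (-1, 0) (act g σ)) + ind (Lone w (0, -1) (act g σ))), hD lam h0 h1, ?_,
    fun σ => ind_nonneg _, fun σ => ?_⟩⟩
  · refine (Sparse.sum univ fun g _ =>
      ((sparse hsparse w (-1, 0)).add (sparse hsparse w (0, -1))).act g).le (le_of_eq ?_)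
    rw [card_univ, card_Fr]
    push_cast
    ring
  · have hn : ∀ g : Fr, 0 ≤ ind (Lone w (-1, 0) (act g σ)) + ind (Lone w (0, -1) (act g σ)) :=
      fun g => add_nonneg (ind_nonneg _) (ind_nonneg _)
    have hs := sum_nonneg fun g (_ : g ∈ univ) => hn g
    have hr := ind_nonneg (Red (2 * w + 4) σ)
    unfold fK
    by_cases h : (σ (0, 1) ≠ σ 0 ∨ σ (0, -1) ≠ σ 0) ∧ (σ (1, 0) ≠ σ 0 ∨ σ (-1, 0) ≠ σ 0)
    · rw [ind_of h]
      obtain ⟨g, hg⟩ := frame h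
      have hg' := single_le_sum (fun g (_ : g ∈ univ) => hn g) (mem_univ g)
      have n1 := ind_nonneg (Lone w (-1, 0) (act g σ))
      have n2 := ind_nonneg (Lone w (0, -1) (act g σ))
      rcases tri hkap w hg with t | t | t
      · rw [ind_of (Red.of_act g t)]; linarith
      · rw [ind_of t] at hg'; linarith
      · rw [ind_of t] at hg'; linarith
    · rw [ind_of_not h]; linarith

end

end Pool.Agent.BA
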