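import Pool.Agent.Lib.BA.Blue

/-! The killing moves. -/

open Finset

namespace Pool.Agent.BA

noncomputable section

namespace KillB

theorem act1 (σ : Cfg) (a b x y : ℤ) :
    act ⟨false, false, false, true⟩ (sh (a, b) σ) (x, y) = σ (y + a, x + b) := by
  simp [act, sh, Fr.lin]

theorem act2 (σ : Cfg) (a b x y : ℤ) :
    act ⟨true, true, false, true⟩ (sh (a, b) σ) (x, y) = !σ (-y + a, x + b) := by
  simp [act, sh, Fr.lin]

theorem brk {m : ℕ} {σ : Cfg} (h : ¬ Strt m σ) (e : ℕ)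
    (he : ∀ i : ℕ, 1 ≤ i → i ≤ e → σ (0, i) = true ∧ σ (-1, i) = false) :
    ∃ i : ℕ, 1 ≤ i ∧ i ≤ m + 1 ∧ ¬ (σ (0, (i : ℤ) + e) = true ∧ σ (-1, (i : ℤ) + e) = false) := by
  unfold Strt at h
  push Not at h
  obtain ⟨i, h1, h2, h3⟩ := h
  have hi : e < i := by
    by_contra hh
    have := he i h1 (by omega)
    exact h3 this.1 this.2
  obtain ⟨j, rfl⟩ : ∃ j, i = j + e := ⟨i - e, by omega⟩
  refine ⟨j, by omega, by omega, fun hh => h3 ?_ ?_⟩
  · exact_mod_cast hh.1
  · exact_mod_cast hh.2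

theorem arm1 {m : ℕ} {σ : Cfg} (h : ¬ Strt m σ) (e : ℕ)
    (he : ∀ i : ℕ, 1 ≤ i → i ≤ e → σ (0, i) = true ∧ σ (-1, i) = false) :
    Arm (m + 1) (act ⟨false, false, false, true⟩ (sh (-1, (e : ℤ)) σ)) := by
  obtain ⟨i, h1, h2, h3⟩ := brk h e he
  refine ⟨i, h1, h2, fun hh => h3 ?_⟩
  unfold Bond at hh
  rw [act1, act1] at hh
  simpa using hh

theorem arm2 {m : ℕ} {σ : Cfg} (h : ¬ Strt m σ) (e : ℕ)
    (he : ∀ i : ℕ, 1 ≤ i → i ≤ e → σ (0, i) = true ∧ σ (-1, i) = false) :
    Arm (m + 1) (act ⟨true, true, false, true⟩ (sh (0, (e : ℤ)) σ)) := by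
  obtain ⟨i, h1, h2, h3⟩ := brk h e he
  refine ⟨i, h1, h2, fun hh => h3 ?_⟩
  unfold Bond at hh
  rw [act2, act2] at hh
  simpa [and_comm] using hh

theorem chk {m : ℕ} {σ : Cfg} (H : H0 σ) (h : ¬ Strt m σ) (h1 : σ (-1, 0) = true) (y : V)
    (hy : ((-1 : ℤ), (1 : ℤ)) - y ∈ box 1) : Bad (m + 1) (sh y σ) := by
  obtain ⟨a1, ⟨a2, a3⟩, -⟩ := H
  rw [zero_add] at a2
  refine bad_of_pa y (-1, 1) ⟨false, false, false, true⟩ hy ⟨Or.inl ?_, arm1 h 1 fun i h1 h2 => ?_⟩
  · unfold Chk
    simp only [act1]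
    exact ⟨a3, h1, a2, a1⟩
  · obtain rfl : i = 1 := by omega
    exact ⟨a2, a1⟩

end KillB

open KillB in
theorem st_kill : St_KILL := by
  intro m σ H
  obtain ⟨a1, ⟨a2, a3⟩, a4, a5⟩ := id H
  rw [zero_add] at a2 a4
  have s1 : ∀ i : ℕ, 1 ≤ i → i ≤ 1 → σ (0, i) = true ∧ σ (-1, i) = false := fun i h1 h2 => by
    obtain rfl : i = 1 := by omega
    exact ⟨a2, a1⟩
  constructor
  · intro hu hd
    by_cases h3 : 3 ≤ dis σ (-1, 1)
    · exact Or.inl (bad_of_U _ _ (by rw [sub_self]; exact zero_mem_box 1) h3)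
    by_cases hS : Strt m σ
    · exact Or.inr ⟨hS, by omega⟩
    left
    cases b1 : σ (0, 2) with
    | false =>
      refine bad_of_U _ (0, 1) (by rw [mem_box]; simp) ?_
      unfold dis
      simp only [Prod.mk_add_mk]
      norm_num
      simp [a1, a2, a3, b1]
    | true =>
      have b2 : σ (-1, 2) = false := by
        rcases hu with h | h
        · exact h
        · rw [b1] at h; exact absurd h (by simp)
      cases b3 : σ (-1, 0) with
      | true => exact chk H hS b3 _ (by rw [sub_self]; exact zero_mem_box 1)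
      | false =>
        have b4 : σ (-2, 1) = true := by
          by_contra hh
          have hh' : σ (-2, 1) = false := by simpa using hh
          unfold dis at hd
          simp only [Prod.mk_add_mk] at hd
          norm_num at hd
          simp [a1, a2, b2, b3, hh'] at hd
        refine bad_of_pa _ (-1, 2) ⟨false, false, false, true⟩ (by rw [mem_box]; simp)
          ⟨Or.inr (Or.inr ?_), arm1 hS 2 fun i h1 h2 => ?_⟩
        · unfold OT
          simp only [act1]
          exact ⟨b3, b2, a2, b4, b1⟩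
        · rcases (by omega : i = 1 ∨ i = 2) with rfl | rfl
          · exact ⟨a2, a1⟩
          · exact ⟨b1, b2⟩
  · intro hd
    by_cases h3 : 3 ≤ dis σ (0, 0)
    · exact Or.inl (bad_of_U _ _ (by rw [sub_self]; exact zero_mem_box 1) h3)
    by_cases hS : Strt m σ
    · exact Or.inr ⟨hS, by omega⟩
    left
    cases b3 : σ (-1, 0) with
    | true => exact chk H hS b3 _ (by rw [mem_box]; simp)
    | false =>
      have b4 : σ (0, -1) = true := by
        by_contra hh
        have hh' : σ (0, -1) = false := by simpa using hh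
        unfold dis at hd
        simp only [Prod.mk_add_mk] at hd
        norm_num at hd
        simp [a2, a3, a5, b3, hh'] at hd
      refine bad_of_pa _ (0, 1) ⟨true, true, false, true⟩ (by rw [mem_box]; simp)
        ⟨Or.inr (Or.inr ?_), arm2 hS 1 s1⟩
      unfold OT
      simp only [act2]
      norm_num
      exact ⟨b4, a2, b3, a5, a1⟩

end

end Pool.Agent.BA
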