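import Pool.Agent.Lib.BA.Blue

namespace Pool.Agent.BA

theorem st_left (hpar2 : St_PAR2) (hleftn : St_LEFTN) (hleftz : St_LEFTZ) : St_LEFT := by
  intro m Wm ε W ρ hP hε hm h1 h2 σ hH
  have a1 : σ (0, 1) = true := by simpa using hH.2.1.1
  have a2 : σ (0 - 1, 1) = false := by simpa using hH.1
  obtain ⟨k, p, hS, hp, ⟨q, hq⟩ | ⟨hN, hW⟩⟩ := hpar2 m Wm ε W hP (by omega) σ 0 a1 a2
  · exact hleftz m Wm ε W ρ hP hε hm h1 h2 σ k p q hH hS hp hq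
  · exact hleftn m Wm ε W ρ hP hε hm h1 h2 σ k p hH hS hp hN hW

end Pool.Agent.BA
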