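import Pool.Agent.Lib.BA.Blue

open Finset

namespace Pool.Agent.BA

namespace LeftnB

open Classical

lemma exp_lin (a b : ℝ) : -(Real.exp (-a) * (b - a)) ≤ Real.exp (-b) - Real.exp (-a) := by
  have h1 : Real.exp (-b) = Real.exp (-a) * Real.exp (a - b) := by
    rw [← Real.exp_add]; exact congrArg _ (by ring)
  have h2 := Real.add_one_le_exp (a - b)
  have h3 := Real.exp_pos (-a)
  rw [h1]; nlinarith

/-- contribution of one site -/
noncomputable def term (m : ℕ) (W : (ℕ → ℕ) → ℝ) (ρ : ℝ) (σ : Cfg) (y : V) : ℝ :=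
  rate σ y * (gain m W ρ σ y - hl m W 0 σ) + 2 * ind (NB m σ y)

section
variable {m : ℕ} {W : (ℕ → ℕ) → ℝ} {ρ : ℝ} {σ : Cfg}

lemma hl_pos (x : ℤ) (τ : Cfg) : 0 < hl m W x τ := Real.exp_pos _

lemma gain_nonneg (hρ : 0 ≤ ρ) (y : V) : 0 ≤ gain m W ρ σ y := by
  unfold gain
  split_ifs
  · exact mul_nonneg (inv_nonneg.2 hρ) (hl_pos _ _).le
  · exact mul_nonneg hρ (hl_pos _ _).le
  · exact le_rfl
  · exact le_rfl
  · exact (hl_pos _ _).le

lemma term_nb (hρ : 0 ≤ ρ) (h1 : hl m W 0 σ ≤ 1) {y : V} (h : NB m σ y) :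
    1 ≤ term m W ρ σ y := by
  have a1 := rate_nonneg σ y
  have a2 := rate_le_one σ y
  have a3 := gain_nonneg (m := m) (W := W) (σ := σ) hρ y
  have a4 := hl_pos (m := m) (W := W) 0 σ
  unfold term
  rw [ind_of h]
  nlinarith

lemma term_low {y : V} (h : ¬ 2 ≤ dis σ y) : 0 ≤ term m W ρ σ y := by
  unfold term
  rw [rate_of_le (by omega), zero_mul, zero_add]
  exact mul_nonneg zero_le_two (ind_nonneg _)

lemma term_tie {y : V} (h : dis σ y = 2) {g : ℝ} (hg : g ≤ gain m W ρ σ y) :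
    (g - hl m W 0 σ) / 2 ≤ term m W ρ σ y := by
  have := ind_nonneg (NB m σ y)
  unfold term
  rw [rate_of_two h]
  linarith

lemma term_ge {y : V} (hg : hl m W 0 σ ≤ gain m W ρ σ y) : 0 ≤ term m W ρ σ y :=
  add_nonneg (mul_nonneg (rate_nonneg _ _) (sub_nonneg.2 hg))
    (mul_nonneg zero_le_two (ind_nonneg _))

lemma gain_other {y : V} (h1 : y ≠ (0, 1)) (h2 : y ≠ (-1, 1)) (h3 : y ≠ (0, 0)) :
    gain m W ρ σ y = hl m W 0 (flp σ y) := by
  unfold gain
  rw [if_neg h1, if_neg h2, if_neg h3]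

lemma hl_ge {x : ℤ} {τ : Cfg} {w : ℝ} (h : Wl m W x τ ≤ w) : Real.exp (-w) ≤ hl m W x τ :=
  Real.exp_le_exp.2 (neg_le_neg h)

end

end LeftnB

open LeftnB Classical in
theorem st_leftn (hpar1 : St_PAR1) (htrk : St_TRK) (hcup : St_CUP) (hcdn : St_CDN)
    (hkill : St_KILL) (hrestn : St_RESTN) : St_LEFTN := by
  intro m Wm ε W ρ hP hε hm hρ1 hρ2 σ k p hH hS hp1 hN hW
  have hρ0 : 0 < ρ := by linarith
  obtain ⟨hnear, hnear0, -, hLB⟩ := (htrk m σ k p hS).1 hp1
  have hstrt := (htrk m σ k p hS).2.2.2 hp1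
  obtain ⟨hup, hout⟩ := hcup m Wm ε W hP hm σ k p hH hS hp1
  obtain ⟨hdn, -, hin, -⟩ := hcdn m Wm ε W hP hε σ k p hH hS hp1
  obtain ⟨hk1, hk0⟩ := hkill m σ hH
  have hrest := hrestn m Wm ε W hP σ k p hH hS hp1 hN
  set n := gaps k p with hn
  set h := hl m W 0 σ with hh
  have hhe : h = Real.exp (-W n) := by rw [hh, hl, hW]
  have hpos : 0 < h := hl_pos _ _
  have hle : h ≤ 1 := by
    rw [hhe]; exact Real.exp_le_one_iff.2 (neg_nonpos.2 (hP.nonneg n))
  have hE1 : ∀ n', Real.exp (-W n') ≤ 1 := fun n' =>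
    Real.exp_le_one_iff.2 (neg_nonpos.2 (hP.nonneg n'))
  have hinv : ρ⁻¹ ≤ 2 := by
    rw [inv_le_comm₀ hρ0 two_pos]; linarith
  have hinv1 : 1 ≤ ρ⁻¹ := (one_le_inv₀ hρ0).2 hρ2
  have hk := hS.one_le
  have nb : ∀ y, Rd k p y → Bad (m + 1) (sh y σ) → 1 ≤ term m W ρ σ y := fun y h1 h2 =>
    term_nb hρ0.le hle ⟨hnear y h1, h2⟩
  set A := (Ico 1 k).filter fun i => p (i + 1) < p i with hA
  have memA : ∀ i, i ∈ A ↔ 1 ≤ i ∧ i < k ∧ p (i + 1) < p i := by
    intro i; simp [hA, and_assoc]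
  let up : ℕ → V := fun i => (p (i + 1), (i : ℤ) + 1)
  let dn : ℕ → V := fun i => (p i - 1, (i : ℤ))
  -- lower bounds for the special sites
  have bout : (ρ⁻¹ * Real.exp (-W (ent n)) - h) / 2 ≤ term m W ρ σ (0, 1) := by
    rcases hout with hb | ⟨h1, h2, -⟩
    · refine le_trans ?_ (nb _ (Or.inl ⟨1, le_rfl, hk, Or.inl (by simp [hp1])⟩) hb)
      have := hE1 (ent n)
      have := Real.exp_pos (-W (ent n))
      nlinarith
    · refine term_tie h1 ?_
      unfold gain
      rw [if_pos rfl]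
      exact mul_le_mul_of_nonneg_left (hl_ge (h2 hN)) (by linarith)
  have bup : ∀ i ∈ A, (Real.exp (-W (hop i (i + 1) n)) - h) / 2 ≤ term m W ρ σ (up i) := by
    intro i hi
    obtain ⟨i1, i2, i3⟩ := (memA i).1 hi
    rcases hup i i1 i2 i3 with hb | ⟨h1, h2, -⟩
    · refine le_trans ?_ (nb _ (Or.inl ⟨i + 1, by omega, i2, Or.inl (by simp [up])⟩) hb)
      linarith [hE1 (hop i (i + 1) n)]
    · refine term_tie h1 ?_
      rw [gain_other (by simp only [ne_eq, Prod.mk.injEq]; omega)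
        (by simp only [ne_eq, Prod.mk.injEq]; omega)
        (by simp only [ne_eq, Prod.mk.injEq]; omega)]
      exact hl_ge (h2 hN)
  have bdn : ∀ i ∈ A.erase 1,
      (Real.exp (-W (hop i (i - 1) n)) - h) / 2 ≤ term m W ρ σ (dn i) := by
    intro i hi
    obtain ⟨i0, hi⟩ := mem_erase.1 hi
    obtain ⟨i1, i2, i3⟩ := (memA i).1 hi
    rcases hdn i (by omega) i2 i3 with hb | ⟨h1, h2, -⟩
    · refine le_trans ?_ (nb _ (Or.inl ⟨i, i1, i2.le, Or.inr (Or.inl rfl)⟩) hb)
      linarith [hE1 (hop i (i - 1) n)]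
    · refine term_tie h1 ?_
      rw [gain_other (by simp only [ne_eq, Prod.mk.injEq]; omega)
        (by simp only [ne_eq, Prod.mk.injEq]; omega)
        (by simp only [ne_eq, Prod.mk.injEq]; omega)]
      exact hl_ge h2
  have rd1 : Rd k p (-1, 1) := Or.inl ⟨1, le_rfl, hk, Or.inr (Or.inl (by simp [hp1]))⟩
  have bin : 1 ∈ A → (ρ * Real.exp (-W (hop 1 0 n)) - h) / 2 ≤ term m W ρ σ (-1, 1) := by
    intro hi
    obtain ⟨-, i2, i3⟩ := (memA 1).1 hi
    rcases hin i2 (hp1 ▸ i3) with hb | ⟨h1, h2, h3, h4, -⟩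
    · refine le_trans ?_ (nb _ rd1 hb)
      have := hE1 (hop 1 0 n)
      have := Real.exp_pos (-W (hop 1 0 n))
      nlinarith
    · refine term_tie h1 ?_
      unfold gain
      rw [if_neg (by simp), if_pos rfl, if_pos ⟨h2, h3⟩]
      exact mul_le_mul_of_nonneg_left (hl_ge h4) hρ0.le
  have hks : 0 ≤ ind (Strt m σ) * h := mul_nonneg (ind_nonneg _) hpos.le
  have kill : ∀ y, Near m σ y → (2 ≤ dis σ y → Bad (m + 1) (sh y σ) ∨ (Strt m σ ∧ dis σ y = 2)) →
      -(ind (Strt m σ) * h / 2) ≤ term m W ρ σ y := by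
    intro y hy hc
    by_cases h2 : 2 ≤ dis σ y
    · rcases hc h2 with hb | ⟨h3, h4⟩
      · linarith [term_nb (W := W) hρ0.le hle ⟨hy, hb⟩]
      · have := term_tie (m := m) (W := W) (ρ := ρ) h4 (gain_nonneg hρ0.le y)
        rw [ind_of h3]
        linarith
    · linarith [term_low (m := m) (W := W) (ρ := ρ) h2]
  have b00 := kill (0, 0) hnear0 hk0
  have bkill : 1 ∉ A → -(ind (Strt m σ) * h / 2) ≤ term m W ρ σ (-1, 1) := by
    intro hi
    refine kill _ (hnear _ rd1) (hk1 ?_)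
    by_cases h1 : 1 < k
    · have h2 : ¬ p 2 < p 1 := fun hc => hi ((memA 1).2 ⟨le_rfl, h1, hc⟩)
      have h3 := hS.anti 1 le_rfl h1
      have h4 := hS.minus 2 (by omega) h1
      have h5 : p 2 = 0 := by
        have : p (1 + 1) = p 2 := rfl
        omega
      left
      rw [h5] at h4
      exact h4
    · have h2 : k = 1 := by omega
      rcases hN with h3 | h3
      · omega
      · right
        rw [h2, hp1] at h3
        exact h3
  -- the set of special sites
  let T : Finset V := ({(0, 1), (0, 0), (-1, 1)} ∪ A.image up) ∪ (A.erase 1).image dn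
  have hT : T ⊆ LB m := by
    intro y hy
    simp only [T, mem_union, mem_insert, mem_singleton, mem_image] at hy
    rcases hy with ((rfl | rfl | rfl) | ⟨i, hi, rfl⟩) | ⟨i, hi, rfl⟩
    · simpa [hp1] using (hLB 1 le_rfl hk).1
    · simp only [LB, mem_product, mem_Icc]
      refine ⟨⟨?_, le_rfl⟩, le_rfl, by positivity⟩
      have : (0 : ℤ) ≤ (m : ℤ) * m + m + 2 := by positivity
      linarith
    · simpa [hp1] using (hLB 1 le_rfl hk).2
    · obtain ⟨i1, i2, -⟩ := (memA i).1 hi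
      simpa [up] using (hLB (i + 1) (by omega) i2).1
    · obtain ⟨i1, i2, -⟩ := (memA i).1 (mem_of_mem_erase hi)
      exact (hLB i i1 i2.le).2
  have hrestT : ∀ y ∈ LB m, y ∉ T → 0 ≤ term m W ρ σ y := by
    intro y _ hy
    simp only [T, mem_union, mem_insert, mem_singleton, mem_image, not_or, not_exists,
      not_and] at hy
    obtain ⟨⟨⟨y1, y2, y3⟩, y4⟩, y5⟩ := hy
    by_cases h2 : 2 ≤ dis σ y
    · rcases hrest y h2 y1 y3 (fun i i1 i2 i3 => ⟨fun hc =>
        y4 i ((memA i).2 ⟨i1, i2, i3⟩) hc.symm, fun hc => by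
          by_cases hi : i = 1
          · subst hi; exact y3 (by simpa [hp1] using hc)
          · exact y5 i (mem_erase.2 ⟨hi, (memA i).2 ⟨i1, i2, i3⟩⟩) hc.symm⟩) with h3 | h3
      · linarith [term_nb (W := W) hρ0.le hle h3]
      · refine term_ge ?_
        rw [gain_other y1 y3 y2, ← hh, hhe]
        exact hl_ge h3
    · exact term_low h2
  have hsumT : ∑ y ∈ T, term m W ρ σ y = term m W ρ σ (0, 1) + term m W ρ σ (0, 0) +
      term m W ρ σ (-1, 1) + ∑ i ∈ A, term m W ρ σ (up i) +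
      ∑ i ∈ A.erase 1, term m W ρ σ (dn i) := by
    rw [sum_union, sum_union, sum_image, sum_image, sum_insert (by simp), sum_insert (by simp),
      sum_singleton]
    · ring
    · intro i _ j _ hij
      simp only [dn, Prod.mk.injEq] at hij
      omega
    · intro i _ j _ hij
      simp only [up, Prod.mk.injEq] at hij
      omega
    · rw [disjoint_left]
      intro y hy hy'
      obtain ⟨i, hi, rfl⟩ := mem_image.1 hy'
      obtain ⟨i1, -, -⟩ := (memA i).1 hi
      simp only [up, mem_insert, mem_singleton, Prod.mk.injEq] at hy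
      omega
    · rw [disjoint_left]
      intro y hy hy'
      obtain ⟨i, hi, rfl⟩ := mem_image.1 hy'
      obtain ⟨i0, hi⟩ := mem_erase.1 hi
      obtain ⟨i1, -, -⟩ := (memA i).1 hi
      rcases mem_union.1 hy with hy | hy
      · simp only [dn, mem_insert, mem_singleton, Prod.mk.injEq] at hy
        omega
      · obtain ⟨j, -, hj⟩ := mem_image.1 hy
        simp only [up, dn, Prod.mk.injEq] at hj
        obtain ⟨e1, e2⟩ := hj
        have : i = j + 1 := by omega
        subst this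
        omega
  have hge := sum_le_sum_of_subset_of_nonneg hT hrestT
  -- the drift of the potential
  have hd := hP.drift n
  have hgap : ∀ i, 1 ≤ n i ↔ i ∈ A := by
    intro i
    rw [memA, hn, gaps]
    split_ifs with hc
    · constructor
      · intro h1; exact ⟨hc.1, hc.2, by omega⟩
      · intro h1; have := h1.2.2; omega
    · constructor
      · intro h1; omega
      · intro h1; exact absurd ⟨h1.1, h1.2.1⟩ hc
  have hsum : ∑ i ∈ Ico 1 m, ind (1 ≤ n i) *
      ((W (hop i (i - 1) n) - W n) / 2 + (W (hop i (i + 1) n) - W n) / 2) =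
      ∑ i ∈ A, (W (hop i (i - 1) n) - W n) / 2 + ∑ i ∈ A, (W (hop i (i + 1) n) - W n) / 2 := by
    rw [← sum_add_distrib, ← sum_subset (s₁ := A)]
    · exact sum_congr rfl fun i hi => by rw [ind_of ((hgap i).2 hi), one_mul]
    · intro i hi
      obtain ⟨i1, i2, -⟩ := (memA i).1 hi
      exact mem_Ico.2 ⟨i1, i2.trans_le hS.le⟩
    · intro i _ hi
      rw [ind_of_not fun hc => hi ((hgap i).1 hc), zero_mul]
  rw [hsum] at hd
  have hz : ind (Strt m σ) ≤ ind (∀ i, 1 ≤ i → i < m → n i = 0) := by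
    refine ind_mono fun hs i _ _ => ?_
    by_contra hc
    obtain ⟨i1, i2, i3⟩ := (memA i).1 ((hgap i).1 (by omega))
    rw [(hstrt hs).1 i i1 i2.le, (hstrt hs).1 (i + 1) (by omega) i2] at i3
    exact lt_irrefl _ i3
  have lin : ∀ n', -(h * ((W n' - W n) / 2)) ≤ (Real.exp (-W n') - h) / 2 := by
    intro n'
    have := exp_lin (W n) (W n')
    rw [← hhe] at this
    linarith
  have sup : -(h * ∑ i ∈ A, (W (hop i (i + 1) n) - W n) / 2) ≤ ∑ i ∈ A, term m W ρ σ (up i) := by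
    rw [mul_sum, ← sum_neg_distrib]
    exact sum_le_sum fun i hi => (lin _).trans (bup i hi)
  have sdn : -(h * ∑ i ∈ A.erase 1, (W (hop i (i - 1) n) - W n) / 2) ≤
      ∑ i ∈ A.erase 1, term m W ρ σ (dn i) := by
    rw [mul_sum, ← sum_neg_distrib]
    exact sum_le_sum fun i hi => (lin _).trans (bdn i hi)
  have hout1 : h ≤ Real.exp (-W (ent n)) := by
    rw [hhe]
    refine Real.exp_le_exp.2 (neg_le_neg (hP.anti n _ fun i _ _ => ?_))
    unfold ent
    by_cases hi : i = 1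
    · subst hi; simp
    · rw [Function.update_of_ne hi]
  have hin1 : Real.exp (-W (hop 1 0 n)) ≤ h := by
    rw [hhe]
    refine Real.exp_le_exp.2 (neg_le_neg (hP.anti _ n fun i i1 _ => ?_))
    unfold hop
    rw [Function.update_of_ne (by omega)]
    by_cases hi : i = 1
    · subst hi; simp
    · rw [Function.update_of_ne hi]
  have sin : -(h * ∑ i ∈ A, (W (hop i (i - 1) n) - W n) / 2) - (1 - ρ) * h / 2 -
      ind (Strt m σ) * h / 2 ≤ term m W ρ σ (-1, 1) + ∑ i ∈ A.erase 1, term m W ρ σ (dn i) := by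
    by_cases h1 : 1 ∈ A
    · rw [← add_sum_erase _ _ h1, mul_add]
      have e1 := bin h1
      have e2 := lin (hop 1 0 n)
      have e3 : (1 - ρ) * Real.exp (-W (hop 1 0 n)) ≤ (1 - ρ) * h :=
        mul_le_mul_of_nonneg_left hin1 (by linarith)
      have e4 : hop 1 (1 - 1) n = hop 1 0 n := rfl
      rw [e4]
      linarith
    · have e1 := bkill h1
      have e2 : 0 ≤ (1 - ρ) * h := mul_nonneg (by linarith) hpos.le
      rw [erase_eq_of_notMem h1] at sdn ⊢
      linarith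
  have sout : -(h * ((W (ent n) - W n) / 2)) + (ρ⁻¹ - 1) * h / 2 ≤ term m W ρ σ (0, 1) := by
    have e2 := lin (ent n)
    have e3 : (ρ⁻¹ - 1) * h ≤ (ρ⁻¹ - 1) * Real.exp (-W (ent n)) :=
      mul_le_mul_of_nonneg_left hout1 (by linarith)
    linarith
  have hd' := mul_le_mul_of_nonneg_left hd hpos.le
  have hz' := mul_le_mul_of_nonneg_right hz hpos.le
  have hq : (1 - ρ) ^ 2 / (2 * ρ) = ((ρ⁻¹ - 1) - (1 - ρ)) / 2 := by
    field_simp
  have hεh : 0 ≤ ε * h := mul_nonneg hε hpos.le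
  have hfin : ∑ y ∈ LB m, term m W ρ σ y =
      ∑ y ∈ LB m, rate σ y * (gain m W ρ σ y - h) + 2 * Chl m σ := by
    rw [Chl, mul_sum, ← sum_add_distrib]
    rfl
  unfold LeftIneq
  rw [← hh, hq]
  nlinarith

end Pool.Agent.BA
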