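import Pool.Agent.Lib.BA.Blue

/-! The left lemma for a staircase closed by a long step or a minus cap. -/

open Finset

namespace Pool.Agent.BA

noncomputable section
open Classical

namespace LeftzB

theorem sum_pt (S : Finset V) (a : V) (c : ℝ) (h : a ∈ S ∨ c ≤ 0) :
    c ≤ ∑ y ∈ S, (if y = a then c else 0) := by
  rw [Finset.sum_ite_eq']
  split_ifs with ha
  · exact le_rfl
  · exact h.resolve_left ha

theorem hl_pos (m : ℕ) (W : (ℕ → ℕ) → ℝ) (x : ℤ) (σ : Cfg) : 0 < hl m W x σ := Real.exp_pos _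

theorem hl_one {m : ℕ} {W : (ℕ → ℕ) → ℝ} {x : ℤ} {σ : Cfg} (h : Wl m W x σ = 0) :
    hl m W x σ = 1 := by
  simp [hl, h]

theorem hl_ge {m : ℕ} {W : (ℕ → ℕ) → ℝ} {x : ℤ} {σ : Cfg} {ε : ℝ} (h : Wl m W x σ ≤ ε) :
    1 - ε ≤ hl m W x σ := by
  have := Real.add_one_le_exp (-Wl m W x σ)
  unfold hl
  linarith

theorem gain_nonneg (m : ℕ) (W : (ℕ → ℕ) → ℝ) {ρ : ℝ} (hρ : 0 ≤ ρ) (σ : Cfg) (y : V) :
    0 ≤ gain m W ρ σ y := by
  unfold gain
  split_ifs
  · exact mul_nonneg (inv_nonneg.2 hρ) (hl_pos _ _ _ _).le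
  · exact mul_nonneg hρ (hl_pos _ _ _ _).le
  · exact le_rfl
  · exact le_rfl
  · exact (hl_pos _ _ _ _).le

end LeftzB

open LeftzB in
theorem st_leftz (hpar1 : St_PAR1) (htrk : St_TRK) (hcup : St_CUP) (hcdn : St_CDN)
    (hkill : St_KILL) (hrestz : St_RESTZ) : St_LEFTZ := by
  intro m Wm ε W ρ hW hε hm hρ1 hρ2 σ k p q hH hS hp hZ
  have hρ0 : 0 < ρ := by linarith
  have h1 : hl m W 0 σ = 1 := by
    apply hl_one
    have := (hpar1 m Wm ε W hW).2.1 σ k p q hS hZ
    rwa [hp] at this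
  obtain ⟨T1, -, -, T4⟩ := htrk m σ k p hS
  obtain ⟨Trd, T00, -, Tlb⟩ := T1 hp
  have nS : ¬ Strt m σ := fun h => (T4 hp h).2 q hZ
  have n01 : Near m σ (0, 1) := Trd _ (Or.inl ⟨1, le_rfl, hS.one_le, Or.inl (by simp [hp])⟩)
  have n11 : Near m σ (-1, 1) :=
    Trd _ (Or.inl ⟨1, le_rfl, hS.one_le, Or.inr (Or.inl (by simp [hp]))⟩)
  have m01 : ((0, 1) : V) ∈ LB m := by
    have := (Tlb 1 le_rfl hS.one_le).1
    simpa [hp] using this
  have hinv : ρ⁻¹ ≤ 2 := by
    rw [inv_le_comm₀ hρ0 (by norm_num)]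
    linarith
  have hinv1 : 1 ≤ ρ⁻¹ := by
    rw [le_inv_comm₀ (by norm_num) hρ0]
    linarith
  -- pointwise lower bound
  have key : ∀ y : V,
      (if y = (0, 1) then (ρ⁻¹ - 1) / 2 else 0) +
        (if y = (-1, 1) then -((1 - ρ) / 2 + ε) else 0) +
        (if y = (p k - 1, (k : ℤ)) then -ε else 0) + (if y = (q, (k : ℤ) + 1) then -ε else 0) ≤
      rate σ y * (gain m W ρ σ y - 1) + 2 * ind (NB m σ y) := by
    intro y
    have b1 : (if y = (0, 1) then (ρ⁻¹ - 1) / 2 else 0) ≤ (1 : ℝ) := by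
      split_ifs <;> linarith
    have b2 : (if y = (-1, 1) then -((1 - ρ) / 2 + ε) else 0) ≤ (0 : ℝ) := by
      split_ifs <;> linarith
    have b3 : (if y = (p k - 1, (k : ℤ)) then -ε else 0) ≤ (0 : ℝ) := by
      split_ifs <;> linarith
    have b4 : (if y = (q, (k : ℤ) + 1) then -ε else 0) ≤ (0 : ℝ) := by
      split_ifs <;> linarith
    have r0 := rate_nonneg σ y
    have r1 := rate_le_one σ y
    have g0 := gain_nonneg m W hρ0.le σ y
    have i0 := ind_nonneg (NB m σ y)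
    by_cases hN : NB m σ y
    · rw [ind_of hN]
      have := mul_nonneg r0 g0
      nlinarith
    by_cases y1 : y = (0, 1)
    · subst y1
      rcases (hcup m Wm ε W hW hm σ k p hH hS hp).2 with hb | ⟨hd, -, hz⟩
      · exact absurd ⟨n01, hb⟩ hN
      · have hg : gain m W ρ σ (0, 1) = ρ⁻¹ := by
          simp only [gain, if_true, hl_one (hz q hZ), mul_one]
        rw [hg, rate_of_two hd, if_pos rfl] at *
        linarith
    rw [if_neg y1]
    by_cases hd : dis σ y ≤ 1
    · rw [rate_of_le hd]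
      linarith
    have hd2 : 2 ≤ dis σ y := by omega
    by_cases y2 : y = (-1, 1)
    · subst y2
      have fin : dis σ (-1, 1) = 2 → σ (-1, 0) = false → σ (-2, 1) = false →
          Wl m W (-1) (flp σ (-1, 1)) ≤ ε →
          -((1 - ρ) / 2 + ε) ≤ rate σ (-1, 1) * (gain m W ρ σ (-1, 1) - 1) := by
        intro e1 e2 e3 e4
        have hg : gain m W ρ σ (-1, 1) = ρ * hl m W (-1) (flp σ (-1, 1)) := by
          unfold gain
          rw [if_neg y1, if_pos rfl, if_pos ⟨e2, e3⟩]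
        have := mul_le_mul_of_nonneg_left (hl_ge e4) hρ0.le
        have h3 : ρ * ε ≤ ε := by nlinarith
        rw [hg, rate_of_two e1]
        nlinarith
      obtain ⟨-, -, C3, C4⟩ := hcdn m Wm ε W hW hε σ k p hH hS hp
      rw [if_pos rfl]
      by_cases hk : k = 1
      · rcases C4 q hZ hk with hb | ⟨e1, e2, e3, e4⟩
        · exact absurd ⟨n11, hb⟩ hN
        · have := fin e1 e2 e3 e4
          linarith
      have hk1 : 1 < k := by have := hS.one_le; omega
      by_cases hp2 : p 2 < 0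
      · rcases C3 hk1 hp2 with hb | ⟨e1, e2, e3, -, e4⟩
        · exact absurd ⟨n11, hb⟩ hN
        · have := fin e1 e2 e3 (by rw [e4 q hZ]; exact hε)
          linarith
      · have a1 := hS.anti 1 le_rfl hk1
        have hp0 : p 2 = 0 := by
          have : p (1 + 1) = p 2 := rfl
          omega
        have a2 := hS.minus 2 (by norm_num) hk1
        have a3 : σ (-1, 2) = false := by simpa [hp0] using a2
        rcases (hkill m σ hH).1 (Or.inl a3) hd2 with hb | ⟨hs, -⟩
        · exact absurd ⟨n11, hb⟩ hN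
        · exact absurd hs nS
    rw [if_neg y2]
    by_cases y3 : y = (0, 0)
    · subst y3
      rcases (hkill m σ hH).2 hd2 with hb | ⟨hs, -⟩
      · exact absurd ⟨T00, hb⟩ hN
      · exact absurd hs nS
    have hg : gain m W ρ σ y = hl m W 0 (flp σ y) := by
      unfold gain
      rw [if_neg y1, if_neg y2, if_neg y3]
    rcases hrestz m Wm ε W hW hε hm σ k p q hH hS hp hZ y hd2 y1 y2 with hb | h0 | ⟨hy, he⟩
    · exact absurd hb hN
    · rw [hg, hl_one h0]
      linarith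
    · have g1 := hl_ge he
      have g2 : -ε ≤ rate σ y * (gain m W ρ σ y - 1) := by
        rw [hg]
        have a1 : rate σ y * (-ε) ≤ rate σ y * (hl m W 0 (flp σ y) - 1) :=
          mul_le_mul_of_nonneg_left (by linarith) r0
        nlinarith
      rcases hy with hy | hy
      · rw [if_pos hy]
        linarith
      · rw [if_pos hy]
        linarith
  have hsum := Finset.sum_le_sum fun y (_ : y ∈ LB m) => key y
  simp only [Finset.sum_add_distrib] at hsum
  rw [← Finset.mul_sum] at hsum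
  have s1 := sum_pt (LB m) (0, 1) ((ρ⁻¹ - 1) / 2) (Or.inl m01)
  have s2 := sum_pt (LB m) (-1, 1) (-((1 - ρ) / 2 + ε)) (Or.inr (by linarith))
  have s3 := sum_pt (LB m) (p k - 1, (k : ℤ)) (-ε) (Or.inr (by linarith))
  have s4 := sum_pt (LB m) (q, (k : ℤ) + 1) (-ε) (Or.inr (by linarith))
  have e : (1 - ρ) ^ 2 / (2 * ρ) = (ρ⁻¹ - 1) / 2 - (1 - ρ) / 2 := by
    field_simp
  unfold LeftIneq Chl
  rw [h1, e]
  linarith

end

end Pool.Agent.BA
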