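import Pool.Agent.Lib.BA.Blue

/-! Coefficient norms of the smoothed gradients. -/

open Finset

namespace Pool.Agent.BA

noncomputable section

namespace LSQB

/-- the little-l2 form -/
def Q (u v : A) : ℝ := ∑ z ∈ u.coeff.support, u.coeff z * v.coeff z

theorem Q_eq (u v : A) {S : Finset V} (h : u.coeff.support ⊆ S) :
    Q u v = ∑ z ∈ S, u.coeff z * v.coeff z :=
  sum_subset h fun z _ hz => by rw [Finsupp.notMem_support_iff.1 hz, zero_mul]

theorem Q_symm (u v : A) : Q u v = Q v u := by
  rw [Q_eq u v (subset_union_left (s₂ := v.coeff.support)),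
    Q_eq v u (subset_union_right (s₁ := u.coeff.support))]
  exact sum_congr rfl fun _ _ => mul_comm _ _

theorem coeff_xs (z : V) (u : A) (y : V) : (xs z * u).coeff (z + y) = u.coeff y := by
  rw [xs, AddMonoidAlgebra.coeff_single_mul_apply]
  simp

theorem psd : PSD Q where
  add u v r := by
    rw [Q_symm, Q_symm u, Q_symm v]
    simp only [Q, AddMonoidAlgebra.coeff_add, Finsupp.add_apply, mul_add, sum_add_distrib]
  smul c u v := by
    rw [Q_symm, Q_symm u]
    simp only [Q, AddMonoidAlgebra.coeff_smul, Finsupp.smul_apply, smul_eq_mul, mul_sum]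
    exact sum_congr rfl fun _ _ => by ring
  symm := Q_symm
  nonneg u := sum_nonneg fun _ _ => mul_self_nonneg _
  shift z u v := by
    rw [Q_eq _ _ (S := u.coeff.support.map (addLeftEmbedding z)) fun y hy => ?_, sum_map]
    · simp only [addLeftEmbedding_apply, coeff_xs, Q]
    · refine mem_map.2 ⟨-z + y, ?_, by simp⟩
      rw [Finsupp.mem_support_iff, ← coeff_xs z, add_neg_cancel_left]
      exact Finsupp.mem_support_iff.1 hy

theorem lsq_eq (u : A) : lsq u = Q u u := sum_congr rfl fun _ _ => sq _

theorem Q_one : Q 1 1 = 1 := by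
  rw [Q_eq 1 1 (S := {0}) Finsupp.support_single_subset]
  simp [AddMonoidAlgebra.one_def]

end LSQB

open LSQB in
theorem st_lsq (hpsd : St_PSD) : St_LSQ := by
  intro d hd n
  have h := (hpsd Q psd 1).2.2.1 d hd
  rw [Q_one] at h
  simp only [mul_one, ← lsq_eq] at h
  refine ⟨(h n).1, fun i hi => (h i).2.trans ?_⟩
  have : (n : ℝ) ≤ i := by exact_mod_cast hi
  gcongr

end

end Pool.Agent.BA
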