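import Pool.Agent.Lib.BA.Blue

open Finset

namespace Pool.Agent.BA

namespace MasterB

open Classical

lemma rate_mir (n : ℕ) (σ : Cfg) (y : V) :
    rate (mir n σ) y = rate σ ((n : ℤ) - 1 - y.1, y.2) := by
  have : dis (mir n σ) y = dis σ ((n : ℤ) - 1 - y.1, y.2) := by
    have e1 : ((n : ℤ) - 1 - (y + (1, 0)).1, (y + (1, 0)).2) =
        ((n : ℤ) - 1 - y.1, y.2) + ((-1, 0) : V) := by
      ext <;> simp; ring
    have e2 : ((n : ℤ) - 1 - (y + (-1, 0)).1, (y + (-1, 0)).2) =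
        ((n : ℤ) - 1 - y.1, y.2) + ((1, 0) : V) := by
      ext <;> simp; ring
    have e3 : ((n : ℤ) - 1 - (y + (0, 1)).1, (y + (0, 1)).2) =
        ((n : ℤ) - 1 - y.1, y.2) + ((0, 1) : V) := by
      ext <;> simp
    have e4 : ((n : ℤ) - 1 - (y + (0, -1)).1, (y + (0, -1)).2) =
        ((n : ℤ) - 1 - y.1, y.2) + ((0, -1) : V) := by
      ext <;> simp
    simp only [dis, mir, e1, e2, e3, e4]
    ring
  simp only [rate, this]

lemma mem_LB {m : ℕ} {y : V} :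
    y ∈ LB m ↔ (-((m : ℤ) * m + m + 2) ≤ y.1 ∧ y.1 ≤ 0) ∧ 0 ≤ y.2 ∧ y.2 ≤ m := by
  simp only [LB, mem_product, mem_Icc]

lemma h0_of_cap {n : ℕ} {σ : Cfg} (hn : 2 ≤ n) (h : Cap n σ) : H0 σ ∧ H0 (mir n σ) := by
  obtain ⟨h1, h2, h3⟩ := h
  refine ⟨⟨h1, h3 0 (by omega), h3 1 (by omega)⟩, ?_, ?_, ?_⟩
  · simpa [mir] using h2
  · have := h3 (n - 1) (by omega)
    have e : ((n - 1 : ℕ) : ℤ) = (n : ℤ) - 1 - 0 := by omega
    rw [e] at this
    exact this
  · have := h3 (n - 2) (by omega)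
    have e : ((n - 2 : ℕ) : ℤ) = (n : ℤ) - 1 - 1 := by omega
    rw [e] at this
    exact this

/-- one end of the cap -/
lemma side {m : ℕ} {W : (ℕ → ℕ) → ℝ} {ε ρ : ℝ} {n N : ℕ} {τ : Cfg} {c ψ : ℝ} {v : V → ℝ}
    (hm : 2 ≤ m) (hρ1 : 1 / 2 ≤ ρ) (hρ2 : ρ ≤ 1) (hn : 2 ≤ n) (hc0 : 0 ≤ c) (hc1 : c ≤ 1)
    (hh : ∀ x τ', 0 < hl m W x τ' ∧ hl m W x τ' ≤ 1) (hL : LeftIneq m W ε ρ τ)
    (hψ : ψ = ρ ^ n * c * hl m W 0 τ - ρ ^ N) (hv0 : ∀ y, 0 ≤ v y)
    (hv : ∀ y ∈ LB m, (n = 2 ∧ y = (0, 1)) ∨ ρ ^ n * c * gain m W ρ τ y - ρ ^ N ≤ v y) :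
    ((1 - ρ) ^ 2 / (2 * ρ) - 3 * ε) * (ρ ^ n * c * hl m W 0 τ) - 2 * Chl m τ - ind (n = 2) ≤
      ∑ y ∈ LB m, rate τ y * (v y - ψ) := by
  have hρ0 : 0 < ρ := by linarith
  have hq0 : 0 ≤ ρ ^ n * c := mul_nonneg (pow_nonneg hρ0.le n) hc0
  have hq1 : ρ ^ n * c ≤ 1 := mul_le_one₀ (pow_le_one₀ hρ0.le hρ2) hc0 hc1
  have h01 : ((0, 1) : V) ∈ LB m := by
    rw [mem_LB]
    have : (0 : ℤ) ≤ (m : ℤ) * m + m + 2 := by positivity
    refine ⟨⟨by linarith, le_rfl⟩, by norm_num, ?_⟩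
    show (1 : ℤ) ≤ m
    omega
  have key : ∀ y ∈ LB m, ρ ^ n * c * (rate τ y * (gain m W ρ τ y - hl m W 0 τ)) -
      (if y = (0, 1) then ind (n = 2) else 0) ≤ rate τ y * (v y - ψ) := by
    intro y hy
    have r0 := rate_nonneg τ y
    have r1 := rate_le_one τ y
    rcases hv y hy with ⟨h1, h2⟩ | h1
    · rw [if_pos h2, ind_of h1]
      have e1 : ρ ^ n * c * gain m W ρ τ y ≤ 1 := by
        rw [h2, h1, gain, if_pos rfl]
        have e2 : ρ ^ 2 * c * (ρ⁻¹ * hl m W 1 (flp τ (0, 1))) =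
            ρ * c * hl m W 1 (flp τ (0, 1)) := by field_simp
        rw [e2]
        exact mul_le_one₀ (mul_le_one₀ hρ2 hc0 hc1) (hh _ _).1.le (hh _ _).2
      have e3 : ρ ^ n * c * gain m W ρ τ y - ρ ^ N - 1 ≤ v y := by
        linarith [hv0 y, pow_nonneg hρ0.le N]
      have e4 := mul_le_mul_of_nonneg_left e3 r0
      rw [hψ]
      nlinarith
    · have e4 := mul_le_mul_of_nonneg_left h1 r0
      have e5 : 0 ≤ (if y = (0, 1) then ind (n = 2) else 0) := by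
        split_ifs
        · exact ind_nonneg _
        · exact le_rfl
      rw [hψ]
      nlinarith
  have h1 := sum_le_sum key
  rw [sum_sub_distrib, ← mul_sum, sum_ite_eq' (LB m) ((0, 1) : V), if_pos h01] at h1
  have h2 := mul_le_mul_of_nonneg_left hL hq0
  have h3 := mul_le_mul_of_nonneg_right hq1 (Chl_nonneg m τ)
  nlinarith

end MasterB

open MasterB Classical in
theorem st_master (hleft : St_LEFT) (hval : St_VAL) (hpsi : St_PSI) (hnpw : St_NPW)
    (hcap : St_CAP) : St_MASTER := by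
  intro m Wm ε W ρ N lam hP hε hm hρ1 hρ2 hl0 hl1 σ ⟨n, hn, hnN, hC⟩
  have hρ0 : 0 < ρ := by linarith
  obtain ⟨-, hb, -, hform, hh, -⟩ := hpsi m Wm ε W ρ N hP hρ0.le hρ2
  have hv0 : ∀ y, 0 ≤ val m W ρ N σ y := by
    intro y
    unfold val
    split_ifs <;> exact (hb _).1
  set J := ∑ i ∈ range n, (ind (Red 2 (sh (i, 1) σ)) + ind (Red 2 (sh (i, 0) σ))) with hJ
  have hJ0 : ∀ n' : ℕ, 0 ≤ ∑ i ∈ range n',
      (ind (Red 2 (sh (i, 1) σ)) + ind (Red 2 (sh (i, 0) σ))) := fun n' =>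
    sum_nonneg fun i _ => add_nonneg (ind_nonneg _) (ind_nonneg _)
  have hChg : Chl m σ + Chl m (mir n σ) + ind (Red 4 σ) + J ≤ Chg m N σ := by
    have := single_le_sum (f := fun n' : ℕ => ind (Cap n' σ) * (Chl m σ + Chl m (mir n' σ) +
      ind (Red 4 σ) + ∑ i ∈ range n', (ind (Red 2 (sh (i, 1) σ)) + ind (Red 2 (sh (i, 0) σ)))))
      (s := Icc 2 N) (fun n' _ => mul_nonneg (ind_nonneg _) (add_nonneg (add_nonneg (add_nonneg
        (Chl_nonneg _ _) (Chl_nonneg _ _)) (ind_nonneg _)) (hJ0 n'))) (mem_Icc.2 ⟨hn, hnN⟩)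
    simp only [ind_of hC, one_mul] at this
    exact this
  have c1 := Chl_nonneg m σ
  have c2 := Chl_nonneg m (mir n σ)
  have c3 := ind_nonneg (Red 4 σ)
  have c4 : 0 ≤ J := hJ0 n
  have hψ := (hform n σ hn hnN hC).1
  set ψ := psi m W ρ N σ with hψd
  rcases le_or_gt (ρ ^ n * hl m W 0 σ * hl m W 0 (mir n σ) - ρ ^ N) 0 with hc | hc
  · rw [max_eq_left hc] at hψ
    rw [hψ, mul_zero]
    have : 0 ≤ ∑ y ∈ BB m N, rate σ y * (val m W ρ N σ y - 0) :=
      sum_nonneg fun y _ => mul_nonneg (rate_nonneg _ _) (by linarith [hv0 y])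
    linarith
  rw [max_eq_right hc.le] at hψ
  have hlt : n < N := by
    refine lt_of_le_of_ne hnN fun he => ?_
    subst he
    have e1 : hl m W 0 σ * hl m W 0 (mir n σ) ≤ 1 :=
      mul_le_one₀ (hh _ _).2 (hh _ _).1.le (hh _ _).2
    have e2 := mul_le_mul_of_nonneg_left e1 (pow_nonneg hρ0.le n)
    linarith [mul_assoc (ρ ^ n) (hl m W 0 σ) (hl m W 0 (mir n σ))]
  obtain ⟨v1, v2, v3⟩ := hval m Wm ε W ρ N n σ hP hm hρ1 hρ2 hn hlt hC
  obtain ⟨g1, g2⟩ := h0_of_cap hn hC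
  let μ : V → V := fun y => ((n : ℤ) - 1 - y.1, y.2)
  have s1 := side (N := N) (c := hl m W 0 (mir n σ)) (ψ := ψ) (v := val m W ρ N σ) hm hρ1 hρ2 hn
    (hh _ _).1.le (hh _ _).2 hh (hleft m Wm ε W ρ hP hε hm hρ1 hρ2 σ g1) (by rw [hψ]; ring) hv0 v1
  have s2 := side (N := N) (c := hl m W 0 σ) (ψ := ψ) (v := fun y => val m W ρ N σ (μ y)) hm hρ1
    hρ2 hn (hh _ _).1.le (hh _ _).2 hh (hleft m Wm ε W ρ hP hε hm hρ1 hρ2 _ g2) hψ
    (fun y => hv0 _) v2
  let t : V → ℝ := fun y => rate σ y * (val m W ρ N σ y - ψ)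
  have hinj : Function.Injective μ := by
    intro a b hab
    simp only [μ, Prod.mk.injEq] at hab
    exact Prod.ext (by omega) hab.2
  have hμμ : ∀ y, μ (μ y) = y := fun y => by simp [μ]
  have s3 : ∑ y ∈ LB m, rate (mir n σ) y * (val m W ρ N σ (μ y) - ψ) =
      ∑ y ∈ (LB m).image μ, t y := by
    rw [sum_image fun a _ b _ hab => hinj hab]
    exact sum_congr rfl fun y _ => by rw [rate_mir]
  have hdisj : Disjoint (LB m) ((LB m).image μ) := by
    rw [disjoint_left]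
    intro y hy hy'
    obtain ⟨z, hz, rfl⟩ := mem_image.1 hy'
    rw [mem_LB] at hy hz
    have e1 := hy.1.2
    have e2 := hz.1.2
    simp only [μ] at e1
    omega
  have hsub : LB m ∪ (LB m).image μ ⊆ BB m N := by
    intro y hy
    have hmm : (0 : ℤ) ≤ (m : ℤ) * m := by positivity
    rw [BB, mem_box]
    push_cast
    rcases mem_union.1 hy with hy | hy
    · rw [mem_LB] at hy
      omega
    · obtain ⟨z, hz, rfl⟩ := mem_image.1 hy
      rw [mem_LB] at hz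
      simp only [μ]
      omega
  let I : Finset V := (range n).image (fun i : ℕ => (((i : ℤ), 1) : V)) ∪
    (range n).image fun i : ℕ => (((i : ℤ), 0) : V)
  have hI : ∑ y ∈ I, ind (Red 2 (sh y σ)) = J := by
    rw [sum_union, sum_image, sum_image, hJ, sum_add_distrib]
    · intro a _ b _ hab
      simpa using hab
    · intro a _ b _ hab
      simpa using hab
    · rw [disjoint_left]
      intro y hy hy'
      obtain ⟨a, -, rfl⟩ := mem_image.1 hy
      obtain ⟨b, -, hb⟩ := mem_image.1 hy'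
      simp at hb
  have hrest : ∀ y ∈ BB m N \ (LB m ∪ (LB m).image μ),
      -(if y ∈ I then ind (Red 2 (sh y σ)) else 0) ≤ t y := by
    intro y hy
    have hy' := (mem_sdiff.1 hy).2
    rw [mem_union, not_or] at hy'
    have y2 : μ y ∉ LB m := fun hc => hy'.2 (mem_image.2 ⟨μ y, hc, hμμ y⟩)
    by_cases hin : 0 ≤ y.1 ∧ y.1 < n ∧ (y.2 = 0 ∨ y.2 = 1)
    · obtain ⟨a, b⟩ := y
      obtain ⟨i, rfl⟩ := Int.eq_ofNat_of_zero_le hin.1
      have hi : i < n := by have := hin.2.1; omega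
      have hmm : (0 : ℤ) ≤ (m : ℤ) * m := by positivity
      have hb01 : b = 0 ∨ b = 1 := hin.2.2
      have i1 : 1 ≤ i := by
        by_contra hc
        refine hy'.1 (mem_LB.2 ?_)
        simp only
        omega
      have i2 : i + 1 < n := by
        by_contra hc
        refine y2 (mem_LB.2 ?_)
        simp only [μ]
        omega
      have hyI : (((i : ℤ), b) : V) ∈ I := by
        rcases hb01 with rfl | rfl
        · exact mem_union_right _ (mem_image.2 ⟨i, mem_range.2 hi, rfl⟩)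
        · exact mem_union_left _ (mem_image.2 ⟨i, mem_range.2 hi, rfl⟩)
      rw [if_pos hyI]
      by_cases h2 : 2 ≤ dis σ ((i : ℤ), b)
      · have b1 := hC.2.2 (i - 1) (by omega)
        have b3 := hC.2.2 (i + 1) i2
        rw [show ((i - 1 : ℕ) : ℤ) = (i : ℤ) - 1 by omega] at b1
        obtain ⟨n0, n1⟩ := hnpw.2 σ i 0 b1 (hC.2.2 i hi) b3
        have hr : Red 2 (sh ((i : ℤ), b) σ) := by
          rcases hb01 with rfl | rfl
          · exact n0 h2
          · exact n1 h2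
        rw [ind_of hr]
        have r0 := rate_nonneg σ ((i : ℤ), b)
        have r1 := rate_le_one σ ((i : ℤ), b)
        have r2 := hv0 ((i : ℤ), b)
        have r3 := (hb σ).1
        have r4 := (hb σ).2
        simp only [t]
        nlinarith
      · simp only [t]
        rw [rate_of_le (by omega), zero_mul]
        linarith [ind_nonneg (Red 2 (sh ((i : ℤ), b) σ))]
    · simp only [t]
      rw [v3 y hy'.1 y2 hin, sub_self, mul_zero, neg_nonpos]
      split_ifs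
      · exact ind_nonneg _
      · exact le_rfl
  have s4 : -J ≤ ∑ y ∈ BB m N \ (LB m ∪ (LB m).image μ), t y := by
    refine le_trans ?_ (sum_le_sum hrest)
    rw [sum_neg_distrib, neg_le_neg_iff, ← sum_filter, ← hI]
    exact sum_le_sum_of_subset_of_nonneg (fun y hy => (mem_filter.1 hy).2)
      fun _ _ _ => ind_nonneg _
  have s5 : ∑ y ∈ BB m N, t y = ∑ y ∈ BB m N \ (LB m ∪ (LB m).image μ), t y +
      (∑ y ∈ LB m, t y + ∑ y ∈ (LB m).image μ, t y) := by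
    rw [← sum_union hdisj, sum_sdiff hsub]
  have s6 : ind (n = 2) ≤ ind (Red 4 σ) := ind_mono fun h2 => by
    have := hcap.1 n σ (by omega) hC
    rwa [h2] at this
  set P := ρ ^ n * hl m W 0 σ * hl m W 0 (mir n σ) with hPd
  have hP0 : 0 ≤ P := mul_nonneg (mul_nonneg (pow_nonneg hρ0.le n) (hh _ _).1.le) (hh _ _).1.le
  have e1 : ρ ^ n * hl m W 0 (mir n σ) * hl m W 0 σ = P := by rw [hPd]; ring
  rw [e1] at s1
  rw [s3] at s2
  have s7 : lam * ψ ≤ 2 * ((1 - ρ) ^ 2 / (2 * ρ) - 3 * ε) * P := by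
    have a1 : ψ ≤ P := by rw [hψ]; linarith [pow_nonneg hρ0.le N]
    exact (mul_le_mul_of_nonneg_left a1 hl0).trans (mul_le_mul_of_nonneg_right hl1 hP0)
  show _ ≤ ∑ y ∈ BB m N, t y
  have s8 : ∑ y ∈ LB m, rate σ y * (val m W ρ N σ y - ψ) = ∑ y ∈ LB m, t y := rfl
  rw [s8] at s1
  linarith

end Pool.Agent.BA
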