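import Pool.Agent.Lib.BA.Blue

open Finset

namespace Pool.Agent.BA

open Classical in
theorem st_mt : St_MT := by
  intro D hD S R g hR hg h0 huniq
  have hl : ∀ z ∈ S, Loc fun σ => ind (R z σ) * g (sh z σ) := fun z hz =>
    (hR z hz).ind.mul (hg.sh z)
  have hl' : ∀ z ∈ S, Loc fun σ => ind (R z (sh (-z) σ)) * g σ := fun z hz =>
    ((hR z hz).sh (-z)).ind.mul hg
  rw [hD.toPos.sum S hl]
  have e : ∀ z ∈ S, D (fun σ => ind (R z σ) * g (sh z σ)) =
      D (fun σ => ind (R z (sh (-z) σ)) * g σ) := by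
    intro z hz
    rw [← hD.shift z _ (hl' z hz)]
    simp only [sh_sh, neg_add_cancel, sh_zero]
  rw [sum_congr rfl e, ← hD.toPos.sum S hl']
  refine hD.mono _ _ (Loc.sum S hl') hg fun σ => ?_
  rw [← sum_mul]
  refine mul_le_of_le_one_left (h0 σ) ?_
  by_cases h : ∃ z ∈ S, R z (sh (-z) σ)
  · obtain ⟨z, hz, hRz⟩ := h
    rw [sum_eq_single_of_mem z hz fun z' hz' hne =>
      ind_of_not fun h' => hne (huniq σ z' hz' z hz h' hRz)]
    exact ind_le_one _
  · rw [sum_eq_zero fun z hz => ind_of_not fun h' => h ⟨z, hz, h'⟩]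
    norm_num

end Pool.Agent.BA
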