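import Pool.Agent.Lib.BA.Blue

open Finset

namespace Pool.Agent.BA

namespace NpwB

theorem aux (σ : Cfg) (y : V) (hy : y ∈ box 2) (h2 : 2 ≤ dis σ 0)
    (h : 3 ≤ dis σ y ∨ 3 ≤ dis (flp σ 0) y) : Red 2 σ :=
  h.elim (fun h => .base σ y hy h) fun h => .step σ 0 (zero_mem_box 2) h2 (.base _ y hy h)

theorem part1 (σ : Cfg) (ho : Opp σ) (h : σ (-1, 1) = σ (1, 1) ∨ σ (1, 1) = σ (1, -1) ∨
    σ (1, -1) = σ (-1, -1) ∨ σ (-1, -1) = σ (-1, 1)) : Red 2 σ := by
  obtain ⟨h1, h2, h3⟩ := ho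
  have z : (0 : V) = (0, 0) := rfl
  have hd : 2 ≤ dis σ 0 := by
    simp only [dis, zero_add]
    rw [← h1, ← h2]
    revert h3
    cases σ (0, 1) <;> cases σ (1, 0) <;> cases σ 0 <;> simp
  have key : (3 ≤ dis σ (0, 1) ∨ 3 ≤ dis (flp σ 0) (0, 1)) ∨
      (3 ≤ dis σ (0, -1) ∨ 3 ≤ dis (flp σ 0) (0, -1)) ∨
      (3 ≤ dis σ (1, 0) ∨ 3 ≤ dis (flp σ 0) (1, 0)) ∨
      (3 ≤ dis σ (-1, 0) ∨ 3 ≤ dis (flp σ 0) (-1, 0)) := by
    simp only [dis, z, flp, Prod.mk_add_mk, Function.update_apply, Prod.mk.injEq]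
    norm_num
    rw [← h1, ← h2]
    revert h h3
    generalize σ (0, 2) = a
    generalize σ (0, -2) = b
    generalize σ (2, 0) = c
    generalize σ (-2, 0) = d
    cases σ (0, 1) <;> cases σ (1, 0) <;> cases σ (0, 0) <;> cases σ (1, 1) <;> cases σ (1, -1) <;>
      cases σ (-1, 1) <;> cases σ (-1, -1) <;> revert a b c d <;> decide
  rcases key with k | k | k | k
  · exact aux σ _ (by rw [mem_box]; simp) hd k
  · exact aux σ _ (by rw [mem_box]; simp) hd k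
  · exact aux σ _ (by rw [mem_box]; simp) hd k
  · exact aux σ _ (by rw [mem_box]; simp) hd k

end NpwB

theorem st_npw : St_NPW := by
  refine ⟨NpwB.part1, fun σ c r ⟨a1, a2⟩ ⟨b1, b2⟩ ⟨c1, c2⟩ => ⟨fun hd => ?_, fun hd => ?_⟩⟩
  · have e1 : (-1 : ℤ) + c = c - 1 := by ring
    have e2 : (1 : ℤ) + c = c + 1 := by ring
    have e3 : (1 : ℤ) + r = r + 1 := by ring
    have e4 : c + -1 = c - 1 := by ring
    simp only [dis, Prod.mk_add_mk, add_zero, e4, a2, b1, b2, c2] at hd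
    have hS : σ (c, r + -1) = true := by
      revert hd; cases σ (c, r + -1) <;> simp
    refine NpwB.part1 _ ?_ (Or.inl ?_)
    · simp only [Opp, sh, Prod.mk_add_mk, zero_add, e1, e2, e3, add_comm (-1 : ℤ) r, b1, a2, c2, hS]
      simp
    · simp only [sh, Prod.mk_add_mk, e1, e2, e3, a1, c1]
  · have e1 : (-1 : ℤ) + c = c - 1 := by ring
    have e2 : (1 : ℤ) + c = c + 1 := by ring
    have e3 : (-1 : ℤ) + (r + 1) = r := by ring
    have e4 : c + -1 = c - 1 := by ring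
    have e5 : r + 1 + -1 = r := by ring
    simp only [dis, Prod.mk_add_mk, add_zero, e4, e5, a1, b1, b2, c1] at hd
    have hN : σ (c, r + 1 + 1) = false := by
      revert hd; cases σ (c, r + 1 + 1) <;> simp
    refine NpwB.part1 _ ?_ (Or.inr (Or.inr (Or.inl ?_)))
    · simp only [Opp, sh, Prod.mk_add_mk, zero_add, e1, e2, e3, add_comm (1 : ℤ) (r + 1), b2, a1,
        c1, hN]
      simp
    · simp only [sh, Prod.mk_add_mk, e1, e2, e3, a2, c2]

end Pool.Agent.BA
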