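import Pool.Agent.Lib.BA.Blue

open Finset

namespace Pool.Agent.BA

namespace ODECB

def pp (L : ℕ) (τ : Cfg) : Prop := OT τ ∧ ¬ Arm L τ ∧ τ (-2, 1) = false

theorem loc_pp (L : ℕ) : Loc (pp L) := loc_OT.and ((loc_Arm L).not.and (Loc.evalEq _ _))

theorem pp_sh (L : ℕ) (σ : Cfg) (i : ℕ) (h1 : 1 ≤ i) (h2 : i ≤ L) (h : pp L σ) :
    ¬ pp L (sh (i • ((1, 0) : V)) σ) := by
  intro h'
  have e := h'.2.2
  simp only [sh, Prod.smul_mk, Prod.mk_add_mk, nsmul_eq_mul, mul_one, mul_zero, add_zero] at e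
  have t : σ (-2 + i, 1) = true := by
    rcases Nat.lt_or_ge i 3 with c | c
    · obtain rfl | rfl : i = 1 ∨ i = 2 := by omega
      · exact h.1.2.2.1
      · exact h.1.2.2.2.2
    · by_contra hb
      refine h.2.1 ⟨i - 2, by omega, by omega, fun b => hb ?_⟩
      have := b.1
      rwa [show ((i - 2 : ℕ) : ℤ) = -2 + i by omega, zero_add] at this
  rw [t] at e
  exact absurd e (by simp)

theorem frame {σ : Cfg} (h : Opp σ) (h1 : σ (-1, 1) ≠ σ (1, 1)) :
    ∃ g : Fr, OT (sh (1, 0) (act g σ)) ∧ sh (1, 0) (act g σ) (-2, 1) = false := by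
  obtain ⟨a, b, c⟩ := h
  refine ⟨⟨!σ (0, 1), xor (σ (0, 1)) (σ (1, 1)), false, false⟩, ?_⟩
  cases e1 : σ (0, 1) <;> cases e2 : σ (1, 1) <;> cases e3 : σ (-1, 1) <;>
    cases e4 : σ (1, 0) <;> simp_all [OT, sh, act, Fr.lin]

end ODECB

open ODECB in
theorem st_odec (hnpw : St_NPW) (hred : St_RED) (hsparse : St_SPARSE) : St_ODEC := by
  classical
  obtain ⟨K0, hK0, HR⟩ := hred 2
  refine ⟨K0 + 16, by linarith, fun L lam K h0 h1 hK hPA => ?_⟩
  refine ⟨fun σ => ind (Red 2 σ) + ∑ g : Fr, ind (PA L (sh (1, 0) (act g σ))),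
    fun σ => ∑ g : Fr, ind (pp L (sh (1, 0) (act g σ))), ?_, ?_, fun σ => ?_, fun σ => ?_⟩
  · refine ((HR lam h0 h1).add (Dom.sum univ fun g _ => (hPA.sh (1, 0)).act g)).le ?_
    rw [card_univ, card_Fr]
    push_cast
    nlinarith
  · refine (Sparse.sum univ fun g _ =>
      ((hsparse (pp L) (1, 0) L (loc_pp L) (pp_sh L)).sh (1, 0)).act g).le (le_of_eq ?_)
    rw [card_univ, card_Fr]
    push_cast
    ring
  · exact add_nonneg (ind_nonneg _) (sum_nonneg fun _ _ => ind_nonneg _)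
  · have s1 : 0 ≤ ∑ g : Fr, ind (PA L (sh (1, 0) (act g σ))) := sum_nonneg fun _ _ => ind_nonneg _
    have s2 : 0 ≤ ∑ g : Fr, ind (pp L (sh (1, 0) (act g σ))) := sum_nonneg fun _ _ => ind_nonneg _
    have s3 := ind_nonneg (Red 2 σ)
    have s4 := ind_le_one (Opp σ)
    unfold fO
    by_cases ho : Opp σ
    · by_cases h1 : σ (-1, 1) = σ (1, 1)
      · have := ind_of (hnpw.1 σ ho (Or.inl h1))
        linarith
      · obtain ⟨g, a, b⟩ := frame ho h1
        by_cases hA : Arm L (sh (1, 0) (act g σ))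
        · have := single_le_sum (f := fun g : Fr => ind (PA L (sh (1, 0) (act g σ))))
            (fun _ _ => ind_nonneg _) (mem_univ g)
          rw [ind_of (p := PA L _) ⟨Or.inr (Or.inr a), hA⟩] at this
          linarith
        · have := single_le_sum (f := fun g : Fr => ind (pp L (sh (1, 0) (act g σ))))
            (fun _ _ => ind_nonneg _) (mem_univ g)
          rw [ind_of (p := pp L _) ⟨a, hA, b⟩] at this
          linarith
    · rw [ind_of_not ho]
      linarith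

end Pool.Agent.BA
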