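import Pool.Agent.Lib.BA.Blue

/-! Block OWN: a tracked site belongs to at most one cap. -/

namespace Pool.Agent.BA

namespace OwnB

theorem nxt_sh (σ : Cfg) (z x : V) : nxt (sh z σ) x + z = nxt σ (x + z) := by
  simp only [nxt, sh, add_right_comm x _ z]
  split_ifs <;> simp only [add_right_comm x _ z]

theorem iter_sh (σ : Cfg) (z x : V) (k : ℕ) : (nxt (sh z σ))^[k] x + z = (nxt σ)^[k] (x + z) := by
  induction k with
  | zero => rfl
  | succ k ih => rw [Function.iterate_succ_apply', Function.iterate_succ_apply', nxt_sh, ih]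

theorem trk_iter {B : Finset V} {σ : Cfg} {z : V} (h : Trk B σ z) : ∃ k, (nxt σ)^[k] z = (0, 1) := by
  induction h with
  | base => exact ⟨0, rfl⟩
  | step z _ _ ih => obtain ⟨k, hk⟩ := ih; exact ⟨k + 1, hk⟩

theorem cap_orbit {n : ℕ} {τ : Cfg} (hn : 1 ≤ n) (h : Cap n τ) (k : ℕ) :
    ∃ i : ℕ, i < n ∧ (nxt τ)^[k] (0, 1) = ((i : ℤ), 1) := by
  induction k with
  | zero => exact ⟨0, hn, rfl⟩
  | succ k ih =>
    obtain ⟨i, hi, e⟩ := ih
    rw [Function.iterate_succ_apply', e]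
    have e1 : (((i : ℤ), 1) : V) + (0, -1) = ((i : ℤ), 0) := by simp
    have e2 : (((i : ℤ), 1) : V) + (1, 0) = (((i + 1 : ℕ) : ℤ), 1) := by simp
    have e3 : (((i : ℤ), 1) : V) + (1, -1) = (((i + 1 : ℕ) : ℤ), 0) := by simp
    have b0 := (h.2.2 i hi).2
    rcases eq_or_lt_of_le (Nat.succ_le_of_lt hi) with h1 | h1
    · refine ⟨i, hi, ?_⟩
      have b1 : τ (((i + 1 : ℕ) : ℤ), 1) = false := by rw [show i + 1 = n from h1]; exact h.2.1
      rw [nxt, e1, e2, b0, b1]; simp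
    · refine ⟨i + 1, h1, ?_⟩
      have b1 : τ (((i + 1 : ℕ) : ℤ), 1) = true := (h.2.2 (i + 1) h1).1
      have b2 : τ (((i + 1 : ℕ) : ℤ), 0) = false := (h.2.2 (i + 1) h1).2
      rw [nxt, e1, e2, e3, b0, b1, b2]; simp

theorem half {σ : Cfg} {z z' : V} {n n' k j : ℕ} (hn : 1 ≤ n) (h : Cap n (sh (-z) σ)) (h' : Cap n' (sh (-z') σ))
    (e : (nxt σ)^[k] 0 = (0, 1) + -z) (e' : (nxt σ)^[j + k] 0 = (0, 1) + -z') : z = z' := by
  obtain ⟨i, hi, hi'⟩ := cap_orbit hn h j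
  rw [Function.iterate_add_apply, e, ← iter_sh, hi'] at e'
  have a1 : (i : ℤ) + -z.1 = 0 + -z'.1 := congrArg Prod.fst e'
  have a2 : (1 : ℤ) + -z.2 = 1 + -z'.2 := congrArg Prod.snd e'
  rcases i with _ | i
  · exact Prod.ext (by simpa using a1) (by simpa using a2)
  · exfalso
    have b1 : σ (((i : ℤ), 0 + 1) + -z) = true := (h.2.2 i (by omega)).1
    have b2 : σ ((-1, 1) + -z') = false := h'.1
    have : (((i : ℤ), 0 + 1) + -z : V) = (-1, 1) + -z' := by
      refine Prod.ext ?_ ?_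
      · show (i : ℤ) + -z.1 = -1 + -z'.1
        push_cast at a1; omega
      · show (0 + 1 : ℤ) + -z.2 = 1 + -z'.2
        omega
    rw [this, b2] at b1
    exact Bool.false_ne_true b1

end OwnB

open OwnB in
theorem st_own : St_OWN := by
  intro B σ z z' n n' hn hn' h h' t t'
  obtain ⟨k, hk⟩ := trk_iter t
  obtain ⟨k', hk'⟩ := trk_iter t'
  have e := iter_sh σ (-z) z k
  have e' := iter_sh σ (-z') z' k'
  rw [hk, add_neg_cancel] at e
  rw [hk', add_neg_cancel] at e'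
  rcases le_total k k' with hle | hle
  · obtain ⟨j, rfl⟩ := Nat.exists_eq_add_of_le' hle
    exact half hn h h' e.symm e'.symm
  · obtain ⟨j, rfl⟩ := Nat.exists_eq_add_of_le' hle
    exact (half hn' h' h e'.symm e.symm).symm

end Pool.Agent.BA
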