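import Pool.Agent.Lib.BA.Blue

/-! Block PAR1: basic facts on the potential of the left staircase. -/

open Finset

namespace Pool.Agent.BA

namespace Par1B

def WS (m : ℕ) (W : (ℕ → ℕ) → ℝ) (x : ℤ) (σ : Cfg) : Set ℝ :=
  {w | ∃ k p, Str m σ k p ∧ p 1 = x ∧ (w = W (gaps k p) ∨ (w = 0 ∧ ∃ q, ZCl m σ k p q))}

theorem wl_eq (m : ℕ) (W : (ℕ → ℕ) → ℝ) (x : ℤ) (σ : Cfg) : Wl m W x σ = sInf (WS m W x σ) := rfl

theorem ws_nonneg {m : ℕ} {Wm ε : ℝ} {W : (ℕ → ℕ) → ℝ} (hP : Pot m Wm ε W) {x : ℤ} {σ : Cfg} :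
    ∀ w ∈ WS m W x σ, 0 ≤ w := by
  rintro w ⟨k, p, _, _, h | ⟨h, _⟩⟩
  · rw [h]; exact hP.nonneg _
  · rw [h]

theorem wl_le {m : ℕ} {Wm ε : ℝ} {W : (ℕ → ℕ) → ℝ} (hP : Pot m Wm ε W) {x : ℤ} {σ : Cfg} {w : ℝ}
    (hw : w ∈ WS m W x σ) : Wl m W x σ ≤ w :=
  csInf_le ⟨0, fun _ h => ws_nonneg hP _ h⟩ hw

theorem wl_nonneg {m : ℕ} {Wm ε : ℝ} {W : (ℕ → ℕ) → ℝ} (hP : Pot m Wm ε W) (x : ℤ) (σ : Cfg) :
    0 ≤ Wl m W x σ := Real.sInf_nonneg (ws_nonneg hP)

/-- extension of a run -/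
theorem ext_run {m : ℕ} {σ : Cfg} {k : ℕ} {p : ℕ → ℤ} (hS : Str m σ k p) (hk : k < m)
    (hu : σ (p k, (k : ℤ) + 1) = true) (d : ℕ) : ∀ q : ℤ, q ≤ p k → Run σ k q (p k) →
    (m : ℤ) + 1 - (p k - q) ≤ d →
    (∃ q', ZCl m σ k p q') ∨ ∃ q', q' ≤ q ∧ Str m σ (k + 1) (Function.update p (k + 1) q') := by
  induction d with
  | zero =>
    intro q _ hr hd
    left
    refine ⟨p k - (m + 1), hk, hu, by omega, fun c h1 h2 => hr c (by push_cast at hd; omega) h2,
      Or.inl (by ring)⟩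
  | succ d ih =>
    intro q hq hr hd
    by_cases hlong : (m : ℤ) + 1 ≤ p k - q
    · left
      exact ⟨p k - (m + 1), hk, hu, by omega, fun c h1 h2 => hr c (by omega) h2, Or.inl (by ring)⟩
    by_cases hb : Bond σ (q - 1) k
    · have hr' : Run σ k (q - 1) (p k) := by
        intro c h1 h2
        by_cases e : c = q - 1
        · rw [e]; exact hb
        · exact hr c (by omega) h2
      rcases ih (q - 1) (by omega) hr' (by push_cast at hd; omega) with h | ⟨q', h1, h2⟩
      · exact Or.inl h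
      · exact Or.inr ⟨q', by omega, h2⟩
    cases h1 : σ (q - 1, (k : ℤ) + 1)
    · right
      have hne : ∀ i, i ≤ k → Function.update p (k + 1) q i = p i := fun i hi =>
        Function.update_of_ne (by omega) _ _
      have hs : Function.update p (k + 1) q (k + 1) = q := Function.update_self _ _ _
      refine ⟨q, le_rfl, ⟨by omega, by omega, ?_, ?_, ?_, ?_, ?_, ?_⟩⟩
      · intro i hi1 hi2
        by_cases e : i = k + 1
        · subst e
          rw [hs]; push_cast
          by_cases e2 : q = p k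
          · rw [e2]; exact hu
          · exact (hr q le_rfl (by omega)).1
        · rw [hne i (by omega)]; exact hS.plus i hi1 (by omega)
      · intro i hi1 hi2
        by_cases e : i = k + 1
        · subst e
          rw [hs]; push_cast; exact h1
        · rw [hne i (by omega)]; exact hS.minus i hi1 (by omega)
      · intro i hi1 hi2
        rw [hne i (by omega)]
        by_cases e : i = k
        · subst e; exact hu
        · exact hS.up i hi1 (by omega)
      · intro i hi1 hi2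
        rw [hne i (by omega)]
        by_cases e : i = k
        · subst e; rw [hs]; exact hq
        · rw [hne (i + 1) (by omega)]; exact hS.anti i hi1 (by omega)
      · intro i hi1 hi2
        rw [hne i (by omega)]
        by_cases e : i = k
        · subst e; rw [hs]; omega
        · rw [hne (i + 1) (by omega)]; exact hS.gap i hi1 (by omega)
      · intro i hi1 hi2
        rw [hne i (by omega)]
        by_cases e : i = k
        · subst e; rw [hs]; exact hr
        · rw [hne (i + 1) (by omega)]; exact hS.run i hi1 (by omega)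
    · left
      have h2 : σ (q - 1, (k : ℤ)) = true := by
        cases h3 : σ (q - 1, (k : ℤ))
        · exact absurd ⟨h1, h3⟩ hb
        · rfl
      have hlt : q < p k := by
        rcases lt_or_eq_of_le hq with h | h
        · exact h
        · have := hS.minus k hS.one_le le_rfl
          rw [← h, h2] at this
          exact absurd this (by simp)
      exact ⟨q, hk, hu, hlt, hr, Or.inr ⟨by omega, h1, h2⟩⟩

theorem str_sh {m : ℕ} {σ : Cfg} {k : ℕ} {p : ℕ → ℤ} (a : ℤ) (hS : Str m (sh (a, 0) σ) k p) :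
    Str m σ k (fun i => p i + a) := by
  refine ⟨hS.one_le, hS.le, ?_, ?_, ?_, ?_, ?_, ?_⟩
  · intro i h1 h2
    have := hS.plus i h1 h2
    simpa [sh] using this
  · intro i h1 h2
    have := hS.minus i h1 h2
    simp only [sh, Prod.mk_add_mk, add_zero] at this
    rw [show p i + a - 1 = p i - 1 + a by ring]; exact this
  · intro i h1 h2
    have := hS.up i h1 h2
    simpa [sh] using this
  · intro i h1 h2
    have := hS.anti i h1 h2
    omega
  · intro i h1 h2
    have := hS.gap i h1 h2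
    omega
  · intro i h1 h2 c hc1 hc2
    have := hS.run i h1 h2 (c - a) (by omega) (by omega)
    simpa [sh, Bond] using this

theorem zcl_sh {m : ℕ} {σ : Cfg} {k : ℕ} {p : ℕ → ℤ} {q : ℤ} (a : ℤ)
    (hZ : ZCl m (sh (a, 0) σ) k p q) : ZCl m σ k (fun i => p i + a) (q + a) := by
  obtain ⟨h1, h2, h3, h4, h5⟩ := hZ
  simp only [ZCl]
  refine ⟨h1, by simpa [sh] using h2, by omega, ?_, ?_⟩
  · intro c hc1 hc2
    have := h4 (c - a) (by omega) (by omega)
    simpa [sh, Bond] using this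
  · rcases h5 with h5 | ⟨h5, h6, h7⟩
    · left; omega
    · right
      simp only [sh, Prod.mk_add_mk, add_zero] at h6 h7
      rw [show q + a - 1 = q - 1 + a by ring]
      exact ⟨by omega, h6, h7⟩

theorem gaps_sh (k : ℕ) (p : ℕ → ℤ) (a : ℤ) : gaps k (fun i => p i + a) = gaps k p := by
  funext i
  simp only [gaps]
  rw [show p i + a - (p (i + 1) + a) = p i - p (i + 1) by ring]

theorem ws_sh (m : ℕ) (W : (ℕ → ℕ) → ℝ) (x a : ℤ) (σ : Cfg) :
    WS m W x (sh (a, 0) σ) ⊆ WS m W (x + a) σ := by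
  rintro w ⟨k, p, hS, hx, h⟩
  refine ⟨k, fun i => p i + a, str_sh a hS, by simp only [hx], ?_⟩
  rcases h with h | ⟨h, q, hq⟩
  · left; rw [gaps_sh]; exact h
  · right; exact ⟨h, q + a, zcl_sh a hq⟩

theorem bnd {m : ℕ} {σ : Cfg} {k : ℕ} {p : ℕ → ℤ} (hS : Str m σ k p) (h0 : p 1 = 0) :
    ∀ i : ℕ, i + 1 ≤ k → -((m : ℤ) * i) ≤ p (i + 1) ∧ p (i + 1) ≤ 0 := by
  intro i
  induction i with
  | zero => intro _; simp [h0]
  | succ i ih =>
    intro hi
    have h1 := ih (by omega)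
    have h2 := hS.anti (i + 1) (by omega) (by omega)
    have h3 := hS.gap (i + 1) (by omega) (by omega)
    push_cast
    constructor
    · nlinarith
    · omega

theorem bnd' {m : ℕ} {σ : Cfg} {k : ℕ} {p : ℕ → ℤ} (hS : Str m σ k p) (h0 : p 1 = 0)
    {i : ℕ} (h1 : 1 ≤ i) (h2 : i ≤ k) : -((m : ℤ) * m) ≤ p i ∧ p i ≤ 0 := by
  obtain ⟨j, rfl⟩ : ∃ j, i = j + 1 := ⟨i - 1, by omega⟩
  have h := bnd hS h0 j h2
  have hj : (j : ℤ) ≤ m := by have := hS.le; omega
  have : (m : ℤ) * j ≤ m * m := mul_le_mul_of_nonneg_left hj (by positivity)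
  constructor <;> omega

theorem mem_LB {m : ℕ} {a b : ℤ} :
    (a, b) ∈ LB m ↔ (-((m : ℤ) * m + m + 2) ≤ a ∧ a ≤ 0) ∧ 0 ≤ b ∧ b ≤ m := by
  simp only [LB, mem_product, mem_Icc]

theorem ws_congr {m : ℕ} (W : (ℕ → ℕ) → ℝ) {σ σ' : Cfg} (h : ∀ x ∈ LB m, σ x = σ' x) :
    WS m W 0 σ ⊆ WS m W 0 σ' := by
  rintro w ⟨k, p, hS, h0, hw⟩
  have hk := hS.le
  have hb := fun i (h1 : 1 ≤ i) (h2 : i ≤ k) => bnd' hS h0 h1 h2
  refine ⟨k, p, ⟨hS.one_le, hS.le, ?_, ?_, ?_, hS.anti, hS.gap, ?_⟩, h0, ?_⟩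
  · intro i h1 h2
    have := hb i h1 h2
    rw [← h _ (mem_LB.2 (by omega))]; exact hS.plus i h1 h2
  · intro i h1 h2
    have := hb i h1 h2
    rw [← h _ (mem_LB.2 (by omega))]; exact hS.minus i h1 h2
  · intro i h1 h2
    have := hb i h1 h2.le
    rw [← h _ (mem_LB.2 (by omega))]; exact hS.up i h1 h2
  · intro i h1 h2 c hc1 hc2
    have := hb i h1 h2.le
    have := hb (i + 1) (by omega) h2
    have hr := hS.run i h1 h2 c hc1 hc2
    exact ⟨by rw [← h _ (mem_LB.2 (by omega))]; exact hr.1,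
      by rw [← h _ (mem_LB.2 (by omega))]; exact hr.2⟩
  · rcases hw with hw | ⟨hw, q, h1, h2, h3, h4, h5⟩
    · exact Or.inl hw
    · right
      have := hb k hS.one_le le_rfl
      have hq : p k - q ≤ m + 1 := by rcases h5 with h5 | h5 <;> omega
      refine ⟨hw, q, h1, by rw [← h _ (mem_LB.2 (by omega))]; exact h2, h3, ?_, ?_⟩
      · intro c hc1 hc2
        have hr := h4 c hc1 hc2
        exact ⟨by rw [← h _ (mem_LB.2 (by omega))]; exact hr.1,
          by rw [← h _ (mem_LB.2 (by omega))]; exact hr.2⟩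
      · rcases h5 with h5 | ⟨h5, h6, h7⟩
        · exact Or.inl h5
        · exact Or.inr ⟨h5, by rw [← h _ (mem_LB.2 (by omega))]; exact h6,
            by rw [← h _ (mem_LB.2 (by omega))]; exact h7⟩

end Par1B

open Par1B in
theorem st_par1 : St_PAR1 := by
  intro m Wm ε W hP
  have H1 : ∀ σ k p, Str m σ k p → Wl m W (p 1) σ ≤ W (gaps k p) := fun σ k p hS =>
    wl_le hP ⟨k, p, hS, rfl, Or.inl rfl⟩
  have H2 : ∀ σ k p q, Str m σ k p → ZCl m σ k p q → Wl m W (p 1) σ = 0 := fun σ k p q hS hZ =>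
    le_antisymm (wl_le hP ⟨k, p, hS, rfl, Or.inr ⟨rfl, q, hZ⟩⟩) (wl_nonneg hP _ _)
  refine ⟨H1, H2, ?_, ?_, ?_, ?_⟩
  · intro σ k p q hS hk hu hq hr
    rcases ext_run hS hk hu ((m : ℤ) + 1 - (p k - q)).toNat q hq hr (Int.self_le_toNat _) with
      ⟨q', hZ⟩ | ⟨q', hq', hS'⟩
    · rw [H2 σ k p q' hS hZ]; exact hP.nonneg _
    · have h1 := H1 σ _ _ hS'
      have hk1 := hS.one_le
      rw [Function.update_of_ne (by omega)] at h1
      refine h1.trans (hP.anti _ _ fun i hi1 _ => ?_)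
      by_cases e : i = k
      · subst e
        rw [Function.update_self]
        simp only [gaps]
        rw [if_pos ⟨hi1, by omega⟩, Function.update_self, Function.update_of_ne (by omega)]
        omega
      · rw [Function.update_of_ne e]
        simp only [gaps]
        by_cases hik : i < k
        · rw [if_pos ⟨hi1, hik⟩, if_pos ⟨hi1, by omega⟩, Function.update_of_ne (by omega),
            Function.update_of_ne (by omega)]
        · rw [if_neg (by omega)]; exact Nat.zero_le _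
  · intro x σ
    refine ⟨wl_nonneg hP _ _, ?_⟩
    have hW : 0 ≤ Wm := (hP.nonneg 0).trans (hP.le 0)
    by_cases hne : (WS m W x σ).Nonempty
    · obtain ⟨w, hw⟩ := hne
      refine (wl_le hP hw).trans ?_
      obtain ⟨k, p, _, _, h | ⟨h, _⟩⟩ := hw
      · rw [h]; exact hP.le _
      · rw [h]; exact hW
    · rw [wl_eq, Set.not_nonempty_iff_eq_empty.1 hne, Real.sInf_empty]; exact hW
  · intro x a σ
    rw [wl_eq, wl_eq]
    have h2 := ws_sh m W (x + a) (-a) (sh (a, 0) σ)
    rw [sh_sh, show ((-a, 0) : V) + (a, 0) = 0 by simp [Prod.ext_iff], sh_zero,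
      show x + a + -a = x by ring] at h2
    rw [Set.Subset.antisymm (ws_sh m W x a σ) h2]
  · intro σ σ' h
    rw [wl_eq, wl_eq, Set.Subset.antisymm (ws_congr W h) (ws_congr W fun x hx => (h x hx).symm)]

end Pool.Agent.BA
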