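import Pool.Agent.Lib.BA.Blue

/-! Block PAR2: the maximal parse of the left staircase. -/

open Finset

namespace Pool.Agent.BA

namespace Par2B

/-- extension of a staircase by one level, or closing -/
theorem ext_run {m : ℕ} {σ : Cfg} {k : ℕ} {p : ℕ → ℤ} (hS : Str m σ k p) (hk : k < m)
    (hu : σ (p k, (k : ℤ) + 1) = true) (d : ℕ) : ∀ q : ℤ, q ≤ p k → Run σ k q (p k) →
    (m : ℤ) + 1 - (p k - q) ≤ d →
    (∃ q', ZCl m σ k p q') ∨ ∃ q', Str m σ (k + 1) (Function.update p (k + 1) q') := by
  induction d with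
  | zero =>
    intro q _ hr hd
    left
    refine ⟨p k - (m + 1), hk, hu, by omega, fun c h1 h2 => hr c (by push_cast at hd; omega) h2,
      Or.inl (by ring)⟩
  | succ d ih =>
    intro q hq hr hd
    by_cases hlong : (m : ℤ) + 1 ≤ p k - q
    · left
      exact ⟨p k - (m + 1), hk, hu, by omega, fun c h1 h2 => hr c (by omega) h2, Or.inl (by ring)⟩
    by_cases hb : Bond σ (q - 1) k
    · have hr' : Run σ k (q - 1) (p k) := by
        intro c h1 h2
        by_cases e : c = q - 1
        · rw [e]; exact hb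
        · exact hr c (by omega) h2
      exact ih (q - 1) (by omega) hr' (by push_cast at hd; omega)
    cases h1 : σ (q - 1, (k : ℤ) + 1)
    · right
      have hne : ∀ i, i ≤ k → Function.update p (k + 1) q i = p i := fun i hi =>
        Function.update_of_ne (by omega) _ _
      have hs : Function.update p (k + 1) q (k + 1) = q := Function.update_self _ _ _
      refine ⟨q, ⟨by omega, by omega, ?_, ?_, ?_, ?_, ?_, ?_⟩⟩
      · intro i hi1 hi2
        by_cases e : i = k + 1
        · subst e
          rw [hs]; push_cast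
          by_cases e2 : q = p k
          · rw [e2]; exact hu
          · exact (hr q le_rfl (by omega)).1
        · rw [hne i (by omega)]; exact hS.plus i hi1 (by omega)
      · intro i hi1 hi2
        by_cases e : i = k + 1
        · subst e
          rw [hs]; push_cast; exact h1
        · rw [hne i (by omega)]; exact hS.minus i hi1 (by omega)
      · intro i hi1 hi2
        rw [hne i (by omega)]
        by_cases e : i = k
        · subst e; exact hu
        · exact hS.up i hi1 (by omega)
      · intro i hi1 hi2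
        rw [hne i (by omega)]
        by_cases e : i = k
        · subst e; rw [hs]; exact hq
        · rw [hne (i + 1) (by omega)]; exact hS.anti i hi1 (by omega)
      · intro i hi1 hi2
        rw [hne i (by omega)]
        by_cases e : i = k
        · subst e; rw [hs]; omega
        · rw [hne (i + 1) (by omega)]; exact hS.gap i hi1 (by omega)
      · intro i hi1 hi2
        rw [hne i (by omega)]
        by_cases e : i = k
        · subst e; rw [hs]; exact hr
        · rw [hne (i + 1) (by omega)]; exact hS.run i hi1 (by omega)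
    · left
      have h2 : σ (q - 1, (k : ℤ)) = true := by
        cases h3 : σ (q - 1, (k : ℤ))
        · exact absurd ⟨h1, h3⟩ hb
        · rfl
      have hlt : q < p k := by
        rcases lt_or_eq_of_le hq with h | h
        · exact h
        · have := hS.minus k hS.one_le le_rfl
          rw [← h, h2] at this
          exact absurd this (by simp)
      exact ⟨q, hk, hu, hlt, hr, Or.inr ⟨by omega, h1, h2⟩⟩

theorem step_le {m : ℕ} {σ : Cfg} {k k' : ℕ} {p p' : ℕ → ℤ} (hS : Str m σ k p) (hS' : Str m σ k' p')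
    {i : ℕ} (h1 : 1 ≤ i) (h2 : i < k) (h2' : i < k') (e : p i = p' i) : p' (i + 1) ≤ p (i + 1) := by
  by_contra hlt
  have ha := hS'.anti i h1 h2'
  have hb := (hS.run i h1 h2 (p' (i + 1) - 1) (by omega) (by omega)).1
  have hm := hS'.minus (i + 1) (by omega) h2'
  push_cast at hm
  rw [hb] at hm
  exact absurd hm (by simp)

theorem uniq {m : ℕ} {σ : Cfg} {k k' : ℕ} {p p' : ℕ → ℤ} (hS : Str m σ k p) (hS' : Str m σ k' p')
    (e : p 1 = p' 1) : ∀ i, i + 1 ≤ k → i + 1 ≤ k' → p (i + 1) = p' (i + 1) := by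
  intro i
  induction i with
  | zero => intro _ _; exact e
  | succ i ih =>
    intro h h'
    have e' := ih (by omega) (by omega)
    exact le_antisymm (step_le hS' hS (by omega) (by omega) (by omega) e'.symm)
      (step_le hS hS' (by omega) (by omega) (by omega) e')

theorem uniq' {m : ℕ} {σ : Cfg} {k k' : ℕ} {p p' : ℕ → ℤ} (hS : Str m σ k p) (hS' : Str m σ k' p')
    (e : p 1 = p' 1) {i : ℕ} (h1 : 1 ≤ i) (h : i ≤ k) (h' : i ≤ k') : p i = p' i := by
  obtain ⟨j, rfl⟩ : ∃ j, i = j + 1 := ⟨i - 1, by omega⟩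
  exact uniq hS hS' e j h h'

theorem not_zcl {m : ℕ} {σ : Cfg} {k k' : ℕ} {p p' : ℕ → ℤ} (hS : Str m σ k p)
    (h1 : 1 ≤ k') (hk : k' < k) (e : p k' = p' k') {q : ℤ} (hZ : ZCl m σ k' p' q) : False := by
  obtain ⟨_, _, h3, h4, h5⟩ := hZ
  rw [← e] at h3 h4 h5
  have ha := hS.anti k' h1 hk
  have hg := hS.gap k' h1 hk
  have hm := hS.minus (k' + 1) (by omega) hk
  push_cast at hm
  by_cases hq : q < p (k' + 1)
  · have := (h4 (p (k' + 1) - 1) (by omega) (by omega)).1
    rw [this] at hm; exact absurd hm (by simp)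
  rcases h5 with h5 | ⟨_, h6, h7⟩
  · omega
  by_cases hq' : q = p (k' + 1)
  · rw [← hq', h6] at hm; exact absurd hm (by simp)
  · have := (hS.run k' h1 hk (q - 1) (by omega) (by omega)).2
    rw [h7] at this; exact absurd this (by simp)

end Par2B

open Par2B in
theorem st_par2 (hpar1 : St_PAR1) : St_PAR2 := by
  classical
  intro m Wm ε W hP hm σ x hx hx'
  obtain ⟨H1, -, -, -, -, -⟩ := hpar1 m Wm ε W hP
  have h1 : ∃ p, Str m σ 1 p ∧ p 1 = x := by
    refine ⟨fun _ => x, ⟨le_rfl, hm, ?_, ?_, ?_, ?_, ?_, ?_⟩, rfl⟩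
    · intro i h1 h2; obtain rfl : i = 1 := by omega
      exact hx
    · intro i h1 h2; obtain rfl : i = 1 := by omega
      exact hx'
    all_goals intro i h1 h2; omega
  set k := Nat.findGreatest (fun k => ∃ p, Str m σ k p ∧ p 1 = x) m with hk
  obtain ⟨p, hS, hp⟩ : ∃ p, Str m σ k p ∧ p 1 = x :=
    Nat.findGreatest_spec (P := fun k => ∃ p, Str m σ k p ∧ p 1 = x) hm h1
  have hmax : ∀ k' p', Str m σ k' p' → p' 1 = x → k' ≤ k := fun k' p' hS' hp' =>
    Nat.le_findGreatest (P := fun k => ∃ p, Str m σ k p ∧ p 1 = x) hS'.le ⟨p', hS', hp'⟩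
  refine ⟨k, p, hS, hp, ?_⟩
  by_cases hN : NCl m σ k p
  · right
    refine ⟨hN, le_antisymm (hp ▸ H1 σ k p hS) ?_⟩
    refine le_csInf ⟨W (gaps k p), k, p, hS, hp, Or.inl rfl⟩ ?_
    rintro w ⟨k', p', hS', hp', hw⟩
    have hk' := hmax k' p' hS' hp'
    have hu : ∀ i, 1 ≤ i → i ≤ k' → p i = p' i := fun i h1 h2 =>
      uniq' hS hS' (hp.trans hp'.symm) h1 (by omega) h2
    rcases hw with hw | ⟨_, q, hZ⟩
    · rw [hw]
      refine hP.anti _ _ fun i hi _ => ?_
      simp only [gaps]
      by_cases hik : i < k'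
      · rw [if_pos ⟨hi, hik⟩, if_pos ⟨hi, by omega⟩, hu i hi hik.le, hu (i + 1) (by omega) hik]
      · rw [if_neg (by omega)]; exact Nat.zero_le _
    · exfalso
      have e := hu k' hS'.one_le le_rfl
      rcases lt_or_eq_of_le hk' with hlt | heq
      · exact not_zcl hS hS'.one_le hlt e hZ
      · obtain ⟨h1, h2, -⟩ := hZ
        rw [heq] at h1 h2 e
        rcases hN with hN | hN
        · omega
        · rw [← e, hN] at h2; exact absurd h2 (by simp)
  · left
    have hkm : k < m := lt_of_le_of_ne hS.le fun e => hN (Or.inl e)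
    have hu : σ (p k, (k : ℤ) + 1) = true := by
      cases h : σ (p k, (k : ℤ) + 1)
      · exact absurd (Or.inr h) hN
      · rfl
    rcases ext_run hS hkm hu (m + 1) (p k) le_rfl (fun c h1 h2 => by omega) (by push_cast; omega)
      with h | ⟨q', hS'⟩
    · exact h
    · have hk1 := hS.one_le
      have := hmax _ _ hS' (by rw [Function.update_of_ne (by omega)]; exact hp)
      omega

end Pool.Agent.BA
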