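import Pool.Agent.Lib.BA.Blue

/-! Shift invariant bilinear forms on the group algebra. -/

open Finset

namespace Pool.Agent.BA

noncomputable section

namespace PSDB

/-- shift invariant bilinear form -/
structure Bil (B : A → A → ℝ) : Prop where
  addl : ∀ u v r, B (u + v) r = B u r + B v r
  addr : ∀ u v r, B r (u + v) = B r u + B r v
  smull : ∀ (c : ℝ) u v, B (c • u) v = c * B u v
  smulr : ∀ (c : ℝ) u v, B u (c • v) = c * B u v
  shift : ∀ z u v, B (xs z * u) (xs z * v) = B u v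

theorem bil {Q : A → A → ℝ} (h : PSD Q) : Bil Q :=
  ⟨h.add, fun u v r => by rw [h.symm, h.add, h.symm u, h.symm v], h.smul,
    fun c u v => by rw [h.symm, h.smul, h.symm], h.shift⟩

namespace Bil

variable {B : A → A → ℝ} (h : Bil B)
include h

theorem subl (u v r : A) : B (u - v) r = B u r - B v r := by
  rw [sub_eq_add_neg, h.addl, ← neg_one_smul ℝ v, h.smull]; ring

theorem subr (u v r : A) : B r (u - v) = B r u - B r v := by
  rw [sub_eq_add_neg, h.addr, ← neg_one_smul ℝ v, h.smulr]; ring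

theorem par (z : V) (u v : A) :
    B ((1 + xs z) * u) ((1 + xs z) * v) = 4 * B u v - B ((xs z - 1) * u) ((xs z - 1) * v) := by
  simp only [add_mul, sub_mul, one_mul, h.addl, h.addr, h.subl, h.subr, h.shift]
  ring

theorem ww_X (u v : A) : B (ww * u) (ww * v) = B u v - B (dX * u) (dX * v) / 4 -
    B (dY * ((1 + xs (1, 0)) * u)) (dY * ((1 + xs (1, 0)) * v)) / 16 := by
  have e : ∀ u : A, ww * u = (1 / 4 : ℝ) • ((1 + xs (0, 1)) * ((1 + xs (1, 0)) * u)) := fun u => by
    rw [ww, smul_mul_assoc]; congr 1; ring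
  rw [e, e, h.smull, h.smulr, h.par, h.par, dX, dY]
  ring

theorem ww_Y (u v : A) : B (ww * u) (ww * v) = B u v - B (dY * u) (dY * v) / 4 -
    B (dX * ((1 + xs (0, 1)) * u)) (dX * ((1 + xs (0, 1)) * v)) / 16 := by
  have e : ∀ u : A, ww * u = (1 / 4 : ℝ) • ((1 + xs (1, 0)) * ((1 + xs (0, 1)) * u)) := fun u => by
    rw [ww, smul_mul_assoc]; congr 1; ring
  rw [e, e, h.smull, h.smulr, h.par, h.par, dX, dY]
  ring

theorem adj (z : V) (u v : A) : B (xs z * u) v = B u (xs (-z) * v) := by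
  rw [← h.shift z u (xs (-z) * v), ← mul_assoc, xs_mul_neg, one_mul]

theorem adj_ww (u v : A) : B (ww * u) v = B u (xs (-1, -1) * ww * v) := by
  have e1 : ww * u = (1 / 4 : ℝ) • (u + xs (1, 0) * u + xs (0, 1) * u + xs (1, 1) * u) := by
    rw [ww, smul_mul_assoc, show ((1, 1) : V) = (1, 0) + (0, 1) from rfl, xs_add]; congr 1; ring
  have e2 : xs (-1, -1) * ww * v =
      (1 / 4 : ℝ) • (v + xs (-(1, 0)) * v + xs (-(0, 1)) * v + xs (-(1, 1)) * v) := by
    have a1 := xs_mul_neg (1, 0)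
    have a2 := xs_mul_neg (0, 1)
    have a3 : xs (-1, -1) = xs (-(1, 0)) * xs (-(0, 1)) := by rw [← xs_add]; rfl
    have a4 : xs (-(1, 1)) = xs (-(1, 0)) * xs (-(0, 1)) := by rw [← xs_add]; rfl
    rw [ww, mul_smul_comm, smul_mul_assoc, a3, a4]
    congr 1
    linear_combination (xs (-(0, 1)) * (1 + xs (0, 1)) * v) * a1 + ((1 + xs (-(1, 0))) * v) * a2
  rw [e1, e2, h.smull, h.smulr]
  simp only [h.addl, h.addr, h.adj]

theorem adj_pow (n : ℕ) (u v : A) : B (ww ^ n * u) v = B u (xs (n • (-1, -1)) * (ww ^ n * v)) := by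
  induction n generalizing v with
  | zero => simp [xs_zero]
  | succ n ih =>
    rw [pow_succ', mul_assoc, h.adj_ww, ih, succ_nsmul, xs_add]
    congr 1
    ring

end Bil

theorem cs {Q : A → A → ℝ} (h : PSD Q) (u v : A) : Q u v ^ 2 ≤ Q u u * Q v v := by
  have key : ∀ x : ℝ, 0 ≤ Q u u * (x * x) + 2 * Q u v * x + Q v v := fun x => by
    have := h.nonneg (x • u + v)
    simp only [h.add, (bil h).addr, h.smul, (bil h).smulr, h.symm v u] at this
    linarith
  have := discrim_le_zero key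
  rw [discrim] at this
  linarith

theorem logc {x : ℕ → ℝ} (h0 : ∀ i, 0 ≤ x i) (h : ∀ i, x (i + 1) ^ 2 ≤ x i * x (i + 2)) (q : ℕ) :
    x 1 ^ (q + 1) ≤ x (q + 1) * x 0 ^ q := by
  have h1 : ∀ i, x 1 * x i ≤ x 0 * x (i + 1) := by
    intro i
    induction i with
    | zero => exact (mul_comm _ _).le
    | succ i ih =>
      rcases (h0 (i + 1)).eq_or_lt with e | e
      · rw [← e, mul_zero]; exact mul_nonneg (h0 _) (h0 _)
      · refine le_of_mul_le_mul_right ?_ e
        have a1 := mul_le_mul_of_nonneg_left (h i) (h0 1)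
        have a2 := mul_le_mul_of_nonneg_right ih (h0 (i + 2))
        nlinarith
  induction q with
  | zero => simp
  | succ q ih =>
    have a1 := mul_le_mul_of_nonneg_left ih (h0 1)
    have a2 := mul_le_mul_of_nonneg_right (h1 (q + 1)) (pow_nonneg (h0 0) q)
    calc x 1 ^ (q + 1 + 1) = x 1 * x 1 ^ (q + 1) := by ring
      _ ≤ x 1 * x (q + 1) * x 0 ^ q := by linarith
      _ ≤ x 0 * x (q + 1 + 1) * x 0 ^ q := a2
      _ = _ := by ring

end PSDB

open PSDB in
theorem st_psd : St_PSD := by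
  intro Q h
  have hX : ∀ u, Q (ww * u) (ww * u) ≤ Q u u - Q (dX * u) (dX * u) / 4 := fun u => by
    rw [(bil h).ww_X]
    linarith [h.nonneg (dY * ((1 + xs (1, 0)) * u))]
  have hY : ∀ u, Q (ww * u) (ww * u) ≤ Q u u - Q (dY * u) (dY * u) / 4 := fun u => by
    rw [(bil h).ww_Y]
    linarith [h.nonneg (dX * ((1 + xs (0, 1)) * u))]
  intro u
  refine ⟨hX u, hY u, fun d hd => ?_, fun n q => ?_⟩
  · have h1 : ∀ v, Q (ww * v) (ww * v) ≤ Q v v - Q (d * v) (d * v) / 4 := by
      rcases hd with rfl | rfl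
      exacts [hX, hY]
    have h2 : ∀ n : ℕ, ∑ j ∈ range n, Q (ww ^ j * d * u) (ww ^ j * d * u) ≤
        4 * Q u u - 4 * Q (ww ^ n * u) (ww ^ n * u) := by
      intro n
      induction n with
      | zero => simp
      | succ n ih =>
        have := h1 (ww ^ n * u)
        rw [show d * (ww ^ n * u) = ww ^ n * d * u by ring,
          show ww * (ww ^ n * u) = ww ^ (n + 1) * u by ring] at this
        rw [sum_range_succ]
        linarith
    have h3 : ∀ n : ℕ, ∑ j ∈ range n, Q (ww ^ j * d * u) (ww ^ j * d * u) ≤ 4 * Q u u :=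
      fun n => by linarith [h2 n, h.nonneg (ww ^ n * u)]
    have h4 : Antitone fun j : ℕ => Q (ww ^ j * d * u) (ww ^ j * d * u) := by
      refine antitone_nat_of_succ_le fun j => ?_
      have := hX (ww ^ j * d * u)
      rw [show ww * (ww ^ j * d * u) = ww ^ (j + 1) * d * u by ring] at this
      linarith [h.nonneg (dX * (ww ^ j * d * u))]
    refine fun n => ⟨h3 n, ?_⟩
    rw [le_div_iff₀ (by positivity)]
    refine le_trans ?_ (h3 (n + 1))
    have := card_nsmul_le_sum (range (n + 1)) (fun j => Q (ww ^ j * d * u) (ww ^ j * d * u)) _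
      fun j hj => h4 (Nat.lt_succ_iff.1 (mem_range.1 hj))
    rw [card_range, nsmul_eq_mul] at this
    push_cast at this
    linarith
  · have := logc (x := fun i => Q (ww ^ (i * n) * u) (ww ^ (i * n) * u)) (fun i => h.nonneg _)
      (fun i => ?_) q
    · simpa using this
    · have e1 : ww ^ ((i + 1) * n) * u = ww ^ n * (ww ^ (i * n) * u) := by ring
      have e2 : ww ^ n * (ww ^ ((i + 1) * n) * u) = ww ^ ((i + 2) * n) * u := by ring
      have a1 := (bil h).adj_pow n (ww ^ (i * n) * u) (ww ^ ((i + 1) * n) * u)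
      rw [← e1, e2] at a1
      have a2 := cs h (ww ^ (i * n) * u) (xs (n • (-1, -1)) * (ww ^ ((i + 2) * n) * u))
      rw [h.shift, ← a1] at a2
      exact a2

end

end Pool.Agent.BA
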