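import Pool.Agent.Lib.BA.Blue

/-! Block PSI: elementary properties of the cap potential. -/

open Finset

set_option linter.unusedVariables false

namespace Pool.Agent.BA

noncomputable section
open Classical

namespace PsiB

theorem mem_LB {m : ℕ} {y : V} :
    y ∈ LB m ↔ (-((m : ℤ) * m + m + 2) ≤ y.1 ∧ y.1 ≤ 0) ∧ (0 ≤ y.2 ∧ y.2 ≤ m) := by
  simp [LB]

theorem mem_BB {m N : ℕ} {y : V} :
    y ∈ BB m N ↔ (-((N : ℤ) + m * m + m + 4) ≤ y.1 ∧ y.1 ≤ (N : ℤ) + m * m + m + 4) ∧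
      (-((N : ℤ) + m * m + m + 4) ≤ y.2 ∧ y.2 ≤ (N : ℤ) + m * m + m + 4) := by
  rw [BB, mem_box]; push_cast; rfl

theorem cap_congr {m N n : ℕ} (hn : n ≤ N) {σ σ' : Cfg} (h : ∀ x ∈ BB m N, σ x = σ' x)
    (hc : Cap n σ) : Cap n σ' := by
  have h0 : (0 : ℤ) ≤ (m : ℤ) * m := mul_self_nonneg _
  obtain ⟨a, b, c⟩ := hc
  refine ⟨?_, ?_, fun i hi => ?_⟩
  · rw [← h _ (by rw [mem_BB]; simp only; omega)]; exact a
  · rw [← h _ (by rw [mem_BB]; simp only; omega)]; exact b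
  · obtain ⟨c1, c2⟩ := c i hi
    constructor
    · rw [← h _ (by rw [mem_BB]; simp only; omega)]; exact c1
    · rw [← h _ (by rw [mem_BB]; simp only; omega)]; exact c2

end PsiB

open PsiB in
theorem st_psi (hpar1 : St_PAR1) : St_PSI := by
  intro m Wm ε W ρ N hP hρ0 hρ1
  obtain ⟨-, -, -, hW, -, hdep⟩ := hpar1 m Wm ε W hP
  have h0 : (0 : ℤ) ≤ (m : ℤ) * m := mul_self_nonneg _
  have hhl : ∀ x σ, 0 < hl m W x σ ∧ hl m W x σ ≤ 1 := fun x σ =>
    ⟨Real.exp_pos _, Real.exp_le_one_iff.2 (by linarith [(hW x σ).1])⟩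
  have hlo : ∀ x σ, Real.exp (-Wm) ≤ hl m W x σ := fun x σ =>
    Real.exp_le_exp.2 (by linarith [(hW x σ).2])
  have hD : DepOn (psi m W ρ N) (BB m N) := by
    intro σ σ' h
    refine sum_congr rfl fun n hn => ?_
    rw [mem_Icc] at hn
    have e1 : Cap n σ ↔ Cap n σ' :=
      ⟨cap_congr hn.2 h, cap_congr hn.2 fun x hx => (h x hx).symm⟩
    have e2 : Wl m W 0 σ = Wl m W 0 σ' := by
      refine hdep _ _ fun x hx => h x ?_
      rw [mem_LB] at hx; rw [mem_BB]; omega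
    have e3 : Wl m W 0 (mir n σ) = Wl m W 0 (mir n σ') := by
      refine hdep _ _ fun x hx => h _ ?_
      rw [mem_LB] at hx; rw [mem_BB]; simp only; omega
    simp only [hl, e2, e3, ind_congr e1]
  have hdead : ∀ σ, ¬ Alive N σ → psi m W ρ N σ = 0 := by
    intro σ h
    refine sum_eq_zero fun n hn => ?_
    rw [mem_Icc] at hn
    rw [ind_of_not fun hc => h ⟨n, hn.1, hn.2, hc⟩, zero_mul]
  have hcap : ∀ n σ, 2 ≤ n → n ≤ N → Cap n σ →
      psi m W ρ N σ = max 0 (ρ ^ n * hl m W 0 σ * hl m W 0 (mir n σ) - ρ ^ N) := by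
    intro n σ h1 h2 hc
    rw [psi, sum_eq_single n, ind_of hc, one_mul]
    · intro k _ hk
      rw [ind_of_not fun hc' => hk (hc'.unique hc), zero_mul]
    · intro hn; exact absurd (mem_Icc.2 ⟨h1, h2⟩) hn
  refine ⟨hD, fun σ => ?_, hdead, fun n σ h1 h2 hc => ⟨hcap n σ h1 h2 hc, ?_⟩, hhl, ?_⟩
  · by_cases h : Alive N σ
    · obtain ⟨n, h1, h2, hc⟩ := h
      rw [hcap n σ h1 h2 hc]
      refine ⟨le_max_left _ _, max_le zero_le_one ?_⟩
      have a1 : ρ ^ n ≤ 1 := pow_le_one₀ hρ0 hρ1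
      have a2 : ρ ^ n * hl m W 0 σ ≤ 1 := mul_le_one₀ a1 (hhl _ _).1.le (hhl _ _).2
      have a3 : ρ ^ n * hl m W 0 σ * hl m W 0 (mir n σ) ≤ 1 :=
        mul_le_one₀ a2 (hhl _ _).1.le (hhl _ _).2
      have := pow_nonneg hρ0 N
      linarith
    · rw [hdead σ h]; exact ⟨le_rfl, zero_le_one⟩
  · rw [hcap n σ h1 h2 hc]
    refine le_trans ?_ (le_max_right _ _)
    have e : Real.exp (-(2 * Wm)) = Real.exp (-Wm) * Real.exp (-Wm) := by
      rw [← Real.exp_add]; congr 1; ring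
    have a : Real.exp (-Wm) * Real.exp (-Wm) ≤ hl m W 0 σ * hl m W 0 (mir n σ) :=
      mul_le_mul (hlo _ _) (hlo _ _) (Real.exp_pos _).le (hhl _ _).1.le
    have := mul_le_mul_of_nonneg_left a (pow_nonneg hρ0 n)
    rw [e, mul_assoc]
    linarith
  · have hL : Loc (psi m W ρ N) := hD.loc
    refine Loc.sum _ fun y _ => (Loc.rate y).mul (Loc.sub ?_ hL)
    unfold val
    split_ifs
    · exact (hL.sh _).flp y
    · exact (hL.sh _).flp y
    · exact hL.flp y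

end

end Pool.Agent.BA
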