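import Pool.Agent.Lib.BA.B_PSD

/-! Purity bound for the smoothed cross term. -/

open Finset

namespace Pool.Agent.BA

noncomputable section

namespace PURB

open PSDB

variable {m : (Cfg → ℝ) → ℝ}

theorem bilm (hm : St m) {f g : Cfg → ℝ} (hf : Loc f) (hg : Loc g) :
    Bil fun u v => m fun σ => cv u f σ * cv v g σ where
  addl u v r := by
    simp only [cv_add, add_mul]
    exact hm.add _ _ ((hf.cv u).mul (hg.cv r)) ((hf.cv v).mul (hg.cv r))
  addr u v r := by
    simp only [cv_add, mul_add]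
    exact hm.add _ _ ((hf.cv r).mul (hg.cv u)) ((hf.cv r).mul (hg.cv v))
  smull c u v := by
    simp only [cv_smul, mul_assoc]
    exact hm.smul _ _ ((hf.cv u).mul (hg.cv v))
  smulr c u v := by
    simp only [cv_smul, mul_left_comm _ c]
    exact hm.smul _ _ ((hf.cv u).mul (hg.cv v))
  shift z u v := hm.toLin.cv_shift hf hg z u v

theorem nsq_nonneg (hm : St m) {f : Cfg → ℝ} (hf : Loc f) (u : A) : 0 ≤ nsq m u f :=
  hm.toPos.nonneg ((hf.cv u).pow 2) fun _ => sq_nonneg _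

theorem nsq_one_add (hm : St m) {f : Cfg → ℝ} (hf : Loc f) (z : V) (u : A) :
    √(nsq m ((1 + xs z) * u) f) ≤ 2 * √(nsq m u f) := by
  have h1 := (bilm hm hf hf).par z u u
  simp only [← nsq_eq] at h1
  have h2 := nsq_nonneg hm hf ((xs z - 1) * u)
  refine Real.sqrt_le_iff.2 ⟨by positivity, ?_⟩
  rw [mul_pow, Real.sq_sqrt (nsq_nonneg hm hf u)]
  linarith

theorem step (hm : St m) (u : A) :
    m (fun σ => cv (ww * u) fa σ * cv (ww * u) fb σ) ≤ m (fun σ => cv u fa σ * cv u fb σ) +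
      √(nsq m (u * dX) fa) * √(nsq m (u * dX) fb) / 4 +
      √(nsq m (u * dY) fb) * √(nsq m (u * dY) fa) / 4 := by
  have h1 := (bilm hm loc_fa loc_fb).ww_X u u
  have h2 := (abs_le.1 (hm.toPos.abs_mul_le_sqrt (loc_fa.cv (dX * u)) (loc_fb.cv (dX * u)))).1
  have h3 := (abs_le.1 (hm.toPos.abs_mul_le_sqrt (loc_fa.cv (dY * ((1 + xs (1, 0)) * u)))
    (loc_fb.cv (dY * ((1 + xs (1, 0)) * u))))).1
  have e : dY * ((1 + xs (1, 0)) * u) = (1 + xs (1, 0)) * (u * dY) := by ring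
  have h4 := mul_le_mul (nsq_one_add hm loc_fa (1, 0) (u * dY))
    (nsq_one_add hm loc_fb (1, 0) (u * dY)) (Real.sqrt_nonneg _) (by positivity)
  rw [← e] at h4
  rw [mul_comm u dX]
  simp only [nsq] at h4 ⊢
  linarith

theorem sum_le (hpsd : St_PSD) (hm : St m) {f g : Cfg → ℝ} (hf : Loc f) (hg : Loc g)
    (h1 : ∀ σ, g σ ^ 2 ≤ 1) {d : A} (hd : d = dX ∨ d = dY) (n : ℕ) :
    ∑ j ∈ range n, √(nsq m (ww ^ j * d) f) * √(nsq m (ww ^ j * d) g) ≤
      2 * √(∑ j ∈ range n, nsq m (ww ^ j * d) f) := by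
  refine (Real.sum_sqrt_mul_sqrt_le _ (fun j => nsq_nonneg hm hf _)
    fun j => nsq_nonneg hm hg _).trans ?_
  rw [mul_comm]
  refine mul_le_mul_of_nonneg_right (Real.sqrt_le_iff.2 ⟨by norm_num, ?_⟩) (Real.sqrt_nonneg _)
  have h2 := ((hpsd _ (hm.toLin.psd hg) 1).2.2.1 d hd n).1
  simp only [mul_one, ← nsq_eq] at h2
  have h3 : nsq m 1 g ≤ 1 := by
    rw [nsq, cv_one]
    exact (hm.mono _ _ (hg.pow 2) (Loc.const 1) h1).trans hm.one.le
  linarith

end PURB

open PURB in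
theorem st_pur (hpsd : St_PSD) : St_PUR := by
  intro m hm n
  have h1 : m (fun σ => cv (ww ^ n) fa σ * cv (ww ^ n) fb σ) ≤ m fK +
      (∑ j ∈ range n, √(nsq m (ww ^ j * dX) fa) * √(nsq m (ww ^ j * dX) fb)) / 4 +
      (∑ j ∈ range n, √(nsq m (ww ^ j * dY) fb) * √(nsq m (ww ^ j * dY) fa)) / 4 := by
    induction n with
    | zero =>
      simp only [pow_zero, cv_one, range_zero, sum_empty, zero_div, add_zero]
      refine hm.mono _ _ (loc_fa.mul loc_fb) loc_fK fun σ => ?_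
      rw [fa, fb, ← ind_and]
      exact ind_mono fun h => ⟨Or.inl h.1, Or.inl h.2⟩
    | succ n ih =>
      have := step hm (ww ^ n)
      rw [← pow_succ'] at this
      rw [sum_range_succ, sum_range_succ]
      linarith
  have h2 := sum_le hpsd hm loc_fa loc_fb (fun σ => (ind_sq _).trans_le (ind_le_one _))
    (Or.inl rfl) n
  have h3 := sum_le hpsd hm loc_fb loc_fa (fun σ => (ind_sq _).trans_le (ind_le_one _))
    (Or.inr rfl) n
  simp only [XX, YY]
  linarith

end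

end Pool.Agent.BA
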