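import Pool.Agent.Lib.BA.Blue

/-! Block QV: quadratic variation of the smoothed interface indicators. -/

open Finset

namespace Pool.Agent.BA

noncomputable section
open Classical

namespace QVB

/-- the bond from the origin to `e` is an interface -/
def fd (e : V) (σ : Cfg) : ℝ := ind (σ e ≠ σ 0)

/-- change of the bond indicator when one end flips -/
def sg (e : V) (σ : Cfg) : ℝ := 1 - 2 * fd e σ

theorem coeff_xs (u : A) (e y : V) : (u * xs e).coeff (y + e) = u.coeff y := by
  rw [xs, AddMonoidAlgebra.coeff_mul_single_add, mul_one]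

theorem grad_one {e : V} (he : e ≠ 0) (σ : Cfg) (y z : V) :
    fd e (sh z (flp σ y)) - fd e (sh z σ) =
      (if z = y then sg e (sh y σ) else 0) + (if z = y - e then sg (-e) (sh y σ) else 0) := by
  by_cases h1 : z = y
  · subst h1
    have h2 : z ≠ z - e := fun h => he (sub_eq_self.1 h.symm)
    have h3 : e + z ≠ z := fun h => he (by simpa using h)
    rw [if_pos rfl, if_neg h2]
    simp only [sg, fd, sh_apply, zero_add, flp_self, flp_ne _ h3]
    cases σ (e + z) <;> cases σ z <;> norm_num [ind]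
  · rw [if_neg h1]
    by_cases h2 : z = y - e
    · subst h2
      rw [if_pos rfl]
      simp only [sg, fd, sh_apply, zero_add, add_sub_cancel, flp_self, flp_ne _ h1, neg_add_eq_sub]
      cases σ (y - e) <;> cases σ y <;> norm_num [ind]
    · have h3 : e + z ≠ y := fun h => h2 (by rw [← h, add_sub_cancel_left])
      rw [if_neg h2]
      simp only [fd, sh_apply, zero_add, flp_ne _ h1, flp_ne _ h3, sub_self]

theorem sum_pick (u : A) (y : V) (c : ℝ) :
    ∑ z ∈ u.coeff.support, u.coeff z * (if z = y then c else 0) = u.coeff y * c := by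
  rw [sum_eq_single y (fun z _ h => by rw [if_neg h, mul_zero])
    (fun h => by rw [Finsupp.notMem_support_iff.1 h, zero_mul]), if_pos rfl]

theorem grad {e : V} (he : e ≠ 0) (u : A) (σ : Cfg) (y : V) :
    cv u (fd e) (flp σ y) - cv u (fd e) σ =
      u.coeff y * sg e (sh y σ) + (u * xs e).coeff y * sg (-e) (sh y σ) := by
  have h : (u * xs e).coeff y = u.coeff (y - e) := by rw [← coeff_xs u e (y - e), sub_add_cancel]
  rw [cv_def, cv_def, ← sum_sub_distrib, h, ← sum_pick, ← sum_pick, ← sum_add_distrib]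
  exact sum_congr rfl fun z _ => by rw [← mul_sub, grad_one he, mul_add]

/-- the local inequality at the origin -/
def Pt (e : V) : Prop := ∀ (σ : Cfg) (a b : ℝ), rate σ 0 * (a * sg e σ + b * sg (-e) σ) ^ 2 ≤
  (b - a) ^ 2 * fK σ + (a + b) ^ 2 * (fU σ + fO σ)

theorem pt_a : Pt (0, 1) := by
  intro σ a b
  have h1 := sq_nonneg (a + b)
  have h2 := sq_nonneg (b - a)
  simp only [rate, dis, sg, fd, fK, fU, fO, Opp, zero_add, Prod.neg_mk, neg_zero]
  cases σ 0 <;> cases σ (0, 1) <;> cases σ (0, -1) <;> cases σ (1, 0) <;> cases σ (-1, 0) <;>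
    simp [ind] <;> nlinarith

theorem pt_b : Pt (1, 0) := by
  intro σ a b
  have h1 := sq_nonneg (a + b)
  have h2 := sq_nonneg (b - a)
  simp only [rate, dis, sg, fd, fK, fU, fO, Opp, zero_add, Prod.neg_mk, neg_zero]
  cases σ 0 <;> cases σ (0, 1) <;> cases σ (0, -1) <;> cases σ (1, 0) <;> cases σ (-1, 0) <;>
    simp [ind] <;> nlinarith

theorem main {e : V} (he : e ≠ 0) (hp : Pt e) {m : (Cfg → ℝ) → ℝ} (hm : St m) {u : A} (hu : Prob u) :
    m (gam (cv u (fd e)) (cv u (fd e))) ≤ lsq (u * (xs e - 1)) * m fK + 4 * (m fU + m fO) := by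
  have hv : Prob (u * xs e) := hu.mul (prob_xs e)
  set v := u * xs e with hvd
  set S := u.coeff.support ∪ v.coeff.support with hS
  have hl : Loc (fd e) := ((Loc.eval e).comp₂ (Loc.eval 0) fun a b => a ≠ b).ind
  have hD : DepOn (cv u (fd e)) S := fun σ σ' h => sum_congr rfl fun z hz => by
    have h2 : z + e ∈ v.coeff.support := by
      rw [Finsupp.mem_support_iff, hvd, coeff_xs]
      exact Finsupp.mem_support_iff.1 hz
    simp only [fd, sh_apply, zero_add, add_comm e z, h z (mem_union_left _ hz),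
      h _ (mem_union_right _ h2)]
  have hUO : Loc fun σ => fU σ + fO σ := loc_fU.add loc_fO
  have hL : ∀ y : V, Loc fun σ => (v.coeff y - u.coeff y) ^ 2 * fK (sh y σ) +
      (u.coeff y + v.coeff y) ^ 2 * (fU (sh y σ) + fO (sh y σ)) := fun y =>
    ((loc_fK.sh y).cmul _).add ((hUO.sh y).cmul _)
  have h1 : lsq (u * (xs e - 1)) = ∑ y ∈ S, (v.coeff y - u.coeff y) ^ 2 := by
    rw [lsq, mul_sub, mul_one, ← hvd, AddMonoidAlgebra.coeff_sub]
    refine Finsupp.sum_of_support_subset _ ?_ _ fun _ _ => by simp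
    rw [hS, union_comm]
    exact Finsupp.support_sub
  have h2 : ∑ y ∈ S, (u.coeff y + v.coeff y) ^ 2 ≤ 4 := by
    refine (sum_sq_le_sq_sum_of_nonneg fun y _ => add_nonneg (hu.1 y) (hv.1 y)).trans ?_
    rw [sum_add_distrib, ← sum_subset (f := fun y => u.coeff y) subset_union_left
      (fun _ _ h => Finsupp.notMem_support_iff.1 h), ← sum_subset (f := fun y => v.coeff y)
      subset_union_right (fun _ _ h => Finsupp.notMem_support_iff.1 h), hu.2, hv.2]
    norm_num
  have h3 : 0 ≤ m fU + m fO := add_nonneg (hm.toPos.nonneg loc_fU fun _ => ind_nonneg _)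
    (hm.toPos.nonneg loc_fO fun _ => ind_nonneg _)
  refine (hm.mono _ _ ((hl.cv u).gam (hl.cv u)) (Loc.sum S fun y _ => hL y) fun σ => ?_).trans ?_
  · rw [hD.gam_eq]
    refine sum_le_sum fun y _ => ?_
    have := hp (sh y σ) (u.coeff y) (v.coeff y)
    rwa [rate_sh, zero_add, ← grad he, sq] at this
  · rw [hm.toPos.sum S fun y _ => hL y, sum_congr rfl fun y _ => by
      rw [hm.add _ _ ((loc_fK.sh y).cmul _) ((hUO.sh y).cmul _), hm.smul _ _ (loc_fK.sh y),
        hm.smul _ _ (hUO.sh y), hm.shift y _ loc_fK, hm.shift y _ hUO, hm.add _ _ loc_fU loc_fO],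
      sum_add_distrib, ← sum_mul, ← sum_mul, h1]
    exact add_le_add le_rfl (mul_le_mul_of_nonneg_right h2 h3)

end QVB

theorem st_qv : St_QV := fun _ hm _ hu =>
  ⟨QVB.main (by decide) QVB.pt_a hm hu, QVB.main (by decide) QVB.pt_b hm hu⟩

end

end Pool.Agent.BA
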