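import Pool.Agent.Lib.BA.Blue

/-! Block REC: the recursion over the doubly exponential scales. -/

namespace Pool.Agent.BA

namespace RecB

theorem sq_le (x : ℕ) : (x + 4) ^ 2 ≤ 2 ^ (x + 4) := by
  induction x with
  | zero => norm_num
  | succ x ih =>
    rw [add_right_comm, pow_succ 2]
    exact le_trans (by ring_nf; omega) (Nat.mul_le_mul_right 2 ih)

theorem scale (D c : ℕ) (hD : 1 ≤ D) : ∃ b0, ∀ b, b0 ≤ b → ∃ a, D * (a + 2) ≤ b + 1 ∧ 2 * b + c ≤ 2 ^ a := by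
  refine ⟨D * (6 * D + c + 7), fun b hb => ?_⟩
  have h1 : 6 * D + c + 7 ≤ (b + 1) / D := (Nat.le_div_iff_mul_le hD).2 (by linarith)
  obtain ⟨x, hx⟩ : ∃ x, (b + 1) / D = x + 4 + 2 := ⟨(b + 1) / D - 6, by omega⟩
  have h2 := Nat.mul_div_le (b + 1) D
  have h3 := Nat.lt_mul_div_succ (b + 1) hD
  rw [hx] at h1 h2 h3
  refine ⟨x + 4, h2, le_trans ?_ (sq_le x)⟩
  have h4 : (6 * D + c) * (x + 5) ≤ (x + 3) * (x + 5) := Nat.mul_le_mul_right _ (by omega)
  nlinarith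

theorem two_le (b : ℕ) : 2 ≤ Lb b := Nat.le_self_pow (by positivity) 2

theorem size {C : ℝ} {c m b a : ℕ} (hC : 0 ≤ C) (hc : 4 * C + 1 ≤ c) (hm : (m : ℝ) ≤ C * (1 + Real.log (Lb b)) ^ 2)
    (h : 2 * b + c ≤ 2 ^ a) : m + 1 ≤ Lb a := by
  refine le_trans ?_ (Nat.pow_le_pow_right (by norm_num) h)
  have h1 : (1 : ℝ) ≤ 2 ^ b := one_le_pow₀ (by norm_num)
  have h2 : Real.log (Lb b) ≤ 2 ^ b := by
    rw [Lb, Nat.cast_pow, Real.log_pow]
    push_cast
    exact mul_le_of_le_one_right (by positivity) (by linarith [Real.log_two_lt_d9])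
  have h3 : 0 ≤ Real.log (Lb b) := Real.log_natCast_nonneg _
  have h4 : (c : ℝ) ≤ 2 ^ c := by exact_mod_cast Nat.lt_two_pow_self.le
  have h5 : (1 + Real.log (Lb b)) ^ 2 ≤ (2 * 2 ^ b) ^ 2 := pow_le_pow_left₀ (by positivity) (by linarith) 2
  have h6 : (m : ℝ) + 1 ≤ 2 ^ (2 * b + c) := by
    rw [pow_add, mul_comm 2 b, pow_mul]
    have h7 := mul_le_mul_of_nonneg_left h5 hC
    have h8 : (1 : ℝ) ≤ (2 ^ b) ^ 2 := one_le_pow₀ h1
    nlinarith
  exact_mod_cast h6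

end RecB

open RecB in
theorem st_rec (hcapdom : St_CAPDOM) (hchain : St_CHAIN) (hcap : St_CAP) (hred : St_RED) : St_REC := by
  obtain ⟨C1, c1, H1⟩ := hcapdom
  obtain ⟨C2, c2, H2⟩ := hchain
  have base : ∀ b, ∃ K : ℝ, 0 ≤ K ∧ ∀ lam, 0 ≤ lam → lam ≤ 1 → Dom lam K fun σ => ind (PA (Lb b) σ) := fun b => by
    obtain ⟨K, K0, hK⟩ := hred (Lb b + 1 + 3)
    exact ⟨C2 * (K + 1), by positivity, fun lam l0 l1 => H2 _ lam K l0 l1 K0
      ((hK lam l0 l1).mono (loc_Cr _).ind fun σ => ind_mono (hcap.2.1 _ σ))⟩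
  choose K K0 hK using base
  obtain ⟨D, hD⟩ := exists_nat_ge (C1 * C2 + C2 + 1)
  obtain ⟨c, hc⟩ := exists_nat_ge (4 * C1 + 1)
  have c3 := mul_nonneg c1 c2
  have D1 : 1 ≤ D := by exact_mod_cast show (1 : ℝ) ≤ D by linarith
  obtain ⟨b0, hb⟩ := scale D c D1
  have S0 : 0 ≤ ∑ b ∈ Finset.range b0, K b := Finset.sum_nonneg fun b _ => K0 b
  have S1 : ∀ b < b0, K b ≤ ∑ b ∈ Finset.range b0, K b := fun b h =>
    Finset.single_le_sum (fun b _ => K0 b) (Finset.mem_range.2 h)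
  generalize ∑ b ∈ Finset.range b0, K b = S at S0 S1
  refine ⟨S + 1, by positivity, fun b => ?_⟩
  induction b using Nat.strong_induction_on with
  | _ b ih =>
    intro lam l0 l1
    have L2 : ∀ b, (2 : ℝ) ≤ Lb b := fun b => by exact_mod_cast two_le b
    have l2 : lam ≤ 1 := l1.trans ((div_le_one (by positivity [L2 b])).2 (by nlinarith [L2 b]))
    have b1 : (0 : ℝ) ≤ b := Nat.cast_nonneg b
    rcases lt_or_ge b b0 with h | h
    · exact (hK b lam l0 l2).le ((S1 b h).trans (by nlinarith))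
    obtain ⟨a, a1, a2⟩ := hb b h
    have ab : a < b := by nlinarith
    obtain ⟨m, hm, H⟩ := H1 (Lb b) (two_le b)
    have a3 : (Lb a : ℝ) ≤ Lb b := by
      exact_mod_cast Nat.pow_le_pow_right (by norm_num) (Nat.pow_le_pow_right (by norm_num) ab.le)
    have h1 := ih a ab lam l0 (l1.trans (one_div_le_one_div_of_le (by nlinarith [L2 a]) (by nlinarith [L2 a])))
    have h2 := H lam _ l0 l1 (by positivity) (h1.mono (loc_PA _).ind fun σ => ind_mono (PA.mono (size c1 hc hm a2)))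
    refine (H2 _ lam _ l0 l2 (by positivity) h2).le ?_
    have a4 : (D : ℝ) * (a + 2) ≤ b + 1 := by exact_mod_cast a1
    have a0 : (0 : ℝ) ≤ a := Nat.cast_nonneg a
    have h3 : C1 * C2 * (a + 1) + C1 * C2 + C2 ≤ b + 1 := by nlinarith
    nlinarith [mul_le_mul_of_nonneg_left h3 (show 0 ≤ S + 1 by positivity), mul_nonneg S0 c3, mul_nonneg S0 c2]

end Pool.Agent.BA
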