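import Pool.Agent.Lib.BA.Blue

open Finset

namespace Pool.Agent.BA

namespace RedB

/-- reducible in at most `j` steps -/
def RN (r : ℕ) : ℕ → Cfg → Prop
  | 0, σ => ∃ y ∈ box r, 3 ≤ dis σ y
  | j + 1, σ => RN r j σ ∨ ∃ y ∈ box r, 2 ≤ dis σ y ∧ RN r j (flp σ y)

theorem dep (r j : ℕ) : DepOn (RN r j) (box (r + 1)) := by
  induction j with
  | zero =>
    intro σ σ' h
    refine propext ⟨?_, ?_⟩
    · rintro ⟨y, hy, hd⟩; exact ⟨y, hy, dis_congr h hy ▸ hd⟩
    · rintro ⟨y, hy, hd⟩; exact ⟨y, hy, (dis_congr h hy).symm ▸ hd⟩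
  | succ j ih =>
    intro σ σ' h
    simp only [RN]
    rw [ih σ σ' h]
    refine propext (or_congr Iff.rfl ⟨?_, ?_⟩)
    · rintro ⟨y, hy, hd, H⟩
      exact ⟨y, hy, dis_congr h hy ▸ hd, (ih _ _ (flp_congr h y)) ▸ H⟩
    · rintro ⟨y, hy, hd, H⟩
      exact ⟨y, hy, (dis_congr h hy).symm ▸ hd, (ih _ _ (flp_congr h y)).symm ▸ H⟩

theorem mono {r i j : ℕ} (h : i ≤ j) {σ : Cfg} (H : RN r i σ) : RN r j σ := by
  induction h with
  | refl => exact H
  | step _ ih => exact Or.inl ih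

theorem of_red {r : ℕ} {σ : Cfg} (H : Red r σ) : ∃ j, RN r j σ := by
  induction H with
  | base σ y hy hd => exact ⟨0, y, hy, hd⟩
  | step σ y hy hd _ ih => obtain ⟨j, hj⟩ := ih; exact ⟨j + 1, Or.inr ⟨y, hy, hd, hj⟩⟩

open Classical in
theorem unif (r : ℕ) : ∃ J, ∀ σ, Red r σ → RN r J σ := by
  let lev : Cfg → ℕ := fun σ => sInf {j | RN r j σ}
  have hl : Loc lev := ⟨box (r + 1), fun σ σ' h => by
    simp only [lev]; congr 1; ext j; simp only [Set.mem_setOf_eq]; rw [dep r j σ σ' h]⟩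
  obtain ⟨J, hJ⟩ := hl.finite_range.bddAbove
  exact ⟨J, fun σ H => mono (hJ ⟨σ, rfl⟩) (Nat.sInf_mem (of_red H))⟩

theorem dom (hstep : St_STEP) (r j : ℕ) :
    ∃ K : ℝ, 0 ≤ K ∧ ∀ lam, 0 ≤ lam → lam ≤ 1 → Dom lam K fun σ => ind (RN r j σ) := by
  induction j with
  | zero =>
    refine ⟨(box r).card * 1, by positivity, fun lam _ _ => ?_⟩
    refine (Dom.sum (box r) fun y _ => (Dom.fU lam).sh y).mono (dep r 0).loc.ind fun σ => ?_
    refine (ind_exists_le _ _).trans (le_of_eq (sum_congr rfl fun y _ => ?_))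
    simp only [fU, dis_sh, zero_add]
  | succ j ih =>
    obtain ⟨K, hK, H⟩ := ih
    refine ⟨(3 + 2 * (box (r + 1)).card) * K, by positivity, fun lam h0 h1 =>
      ⟨(dep r (j + 1)).loc.ind, fun D hD => ?_⟩⟩
    have hp := (dep r j).loc
    have := hstep lam D h0 hD (RN r j) (RN r (j + 1))
      (fun σ => ((box (r + 1)).card : ℝ) * ind (RN r j σ)) hp (dep r (j + 1)).loc (hp.ind.cmul _)
      (fun σ => mul_nonneg (Nat.cast_nonneg _) (ind_nonneg _))
      (fun σ h => h.imp id fun ⟨y, _, hd, H⟩ => ⟨y, hd, H⟩) (fun σ hσ => by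
        have hd : DepOn (fun τ => ind (RN r j τ)) (box (r + 1)) := fun a b h => by
          simp only [dep r j a b h]
        rw [hd.gen_eq, ind_of hσ, mul_one, genOn]
        have : ∑ y ∈ box (r + 1), (-1 : ℝ) ≤
            ∑ y ∈ box (r + 1), rate σ y * (ind (RN r j (flp σ y)) - ind (RN r j σ)) := by
          refine sum_le_sum fun y _ => ?_
          have := rate_nonneg σ y
          have := rate_le_one σ y
          have := ind_nonneg (RN r j (flp σ y))
          rw [ind_of hσ]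
          nlinarith
        simpa using this)
    rw [hD.smul _ _ hp.ind] at this
    have h2 := (H lam h0 h1).2 D hD
    have h3 := hD.toPos.nonneg hp.ind fun σ => ind_nonneg _
    have h4 : (0 : ℝ) ≤ (box (r + 1)).card := Nat.cast_nonneg _
    nlinarith

end RedB

theorem st_red (hstep : St_STEP) : St_RED := by
  intro r
  obtain ⟨J, hJ⟩ := RedB.unif r
  obtain ⟨K, hK, H⟩ := RedB.dom hstep r J
  exact ⟨K, hK, fun lam h0 h1 => (H lam h0 h1).mono (loc_Red r).ind fun σ => ind_mono (hJ σ)⟩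

end Pool.Agent.BA
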