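import Pool.Agent.Lib.BA.Blue

/-! The smoothed remainder is small. -/

open Finset

namespace Pool.Agent.BA

noncomputable section

namespace REMB

theorem kUR_le (σ : Cfg) : kUR σ ^ 2 ≤ fK σ := by
  rw [kUR, fa, fb, ← ind_and, ind_sq]
  exact ind_mono fun h => ⟨Or.inl h.1, Or.inl h.2⟩

theorem kUL_le (σ : Cfg) : kUL σ ^ 2 ≤ fK σ := by
  rw [kUL, fa, fb, ← ind_and, ind_sq]
  exact ind_mono fun h => ⟨Or.inl h.1, Or.inr fun e => h.2 e.symm⟩

theorem kDL_le (σ : Cfg) : kDL σ ^ 2 ≤ fK σ := by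
  rw [kDL, fa, fb, ← ind_and, ind_sq]
  exact ind_mono fun h => ⟨Or.inr fun e => h.1 e.symm, Or.inr fun e => h.2 e.symm⟩

theorem rem_eq (σ : Cfg) : remA σ = cv (xs (0, -1) * dY) kUR σ + cv (xs (0, -1) * dY) kUL σ -
    cv (xs (0, -1) * dX) kUL σ + cv dX kDL σ := by
  have e1 : xs (0, -1) * dY = 1 - xs (0, -1) := by
    rw [dY, mul_sub, ← xs_add, mul_one]; rfl
  have e2 : xs (0, -1) * dX = xs (1, -1) - xs (0, -1) := by
    rw [dX, mul_sub, ← xs_add, mul_one]; rfl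
  rw [e1, e2, dX]
  simp only [cv_sub, cv_xs, cv_one, remA]
  ring

theorem nsq_le {m : (Cfg → ℝ) → ℝ} (hm : St m) (u : A) :
    nsq m u remA ≤ 4 * (nsq m (u * dY) kUR + nsq m (u * dY) kUL + nsq m (u * dX) kUL +
      nsq m (u * dX) kDL) := by
  have sh : ∀ (v : A) (f : Cfg → ℝ), Loc f → nsq m (xs (0, -1) * v) f = nsq m v f := fun v f hf => by
    rw [nsq_eq, nsq_eq, hm.toLin.cv_shift hf hf]
  rw [← sh _ _ loc_kUR, ← sh (u * dY) _ loc_kUL, ← sh (u * dX) _ loc_kUL]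
  have l1 := (loc_kUR.cv (xs (0, -1) * (u * dY))).pow 2
  have l2 := (loc_kUL.cv (xs (0, -1) * (u * dY))).pow 2
  have l3 := (loc_kUL.cv (xs (0, -1) * (u * dX))).pow 2
  have l4 := (loc_kDL.cv (u * dX)).pow 2
  simp only [nsq]
  rw [← hm.add _ _ l1 l2, ← hm.add _ _ (l1.add l2) l3, ← hm.add _ _ ((l1.add l2).add l3) l4,
    ← hm.smul _ _ (((l1.add l2).add l3).add l4)]
  refine hm.mono _ _ ((loc_remA.cv u).pow 2) ((((l1.add l2).add l3).add l4).cmul 4) fun σ => ?_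
  have e : cv u remA σ = cv (xs (0, -1) * (u * dY)) kUR σ + cv (xs (0, -1) * (u * dY)) kUL σ -
      cv (xs (0, -1) * (u * dX)) kUL σ + cv (u * dX) kDL σ := by
    rw [(funext rem_eq : remA = _), cv_fadd, cv_fsub, cv_fadd]
    simp only [← cv_mul, mul_left_comm u]
  rw [e]
  generalize cv (xs (0, -1) * (u * dY)) kUR σ = a
  generalize cv (xs (0, -1) * (u * dY)) kUL σ = b
  generalize cv (xs (0, -1) * (u * dX)) kUL σ = c
  generalize cv (u * dX) kDL σ = d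
  nlinarith [sq_nonneg (a - b), sq_nonneg (a + c), sq_nonneg (a - d), sq_nonneg (b + c),
    sq_nonneg (b - d), sq_nonneg (c + d)]

theorem one (hpsd : St_PSD) {m : (Cfg → ℝ) → ℝ} (hm : St m) {k : Cfg → ℝ} (hk : Loc k)
    (h : ∀ σ, k σ ^ 2 ≤ fK σ) {d : A} (hd : d = dX ∨ d = dY) (n : ℕ) :
    ∑ j ∈ range n, nsq m (ww ^ j * d) k ≤ 4 * m fK ∧
      nsq m (ww ^ n * d) k ≤ 4 * m fK / (n + 1) := by
  have h1 := (hpsd _ (hm.toLin.psd hk) 1).2.2.1 d hd n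
  simp only [mul_one, ← nsq_eq] at h1
  have h2 : nsq m 1 k ≤ m fK := by
    rw [nsq, cv_one]; exact hm.mono _ _ (hk.pow 2) loc_fK h
  refine ⟨by linarith [h1.1], h1.2.trans ?_⟩
  gcongr

end REMB

open REMB in
theorem st_rem (hpsd : St_PSD) : St_REM := by
  intro m hm n
  have a1 := one hpsd hm loc_kUR kUR_le (Or.inr rfl)
  have a2 := one hpsd hm loc_kUL kUL_le (Or.inr rfl)
  have a3 := one hpsd hm loc_kUL kUL_le (Or.inl rfl)
  have a4 := one hpsd hm loc_kDL kDL_le (Or.inl rfl)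
  refine ⟨(sum_le_sum fun j _ => nsq_le hm (ww ^ j)).trans ?_, fun i hi => ?_⟩
  · simp only [← mul_sum, sum_add_distrib]
    linarith [(a1 n).1, (a2 n).1, (a3 n).1, (a4 n).1]
  · have h0 : 0 ≤ m fK := hm.toPos.nonneg loc_fK fun _ => ind_nonneg _
    have h1 : (n : ℝ) ≤ i := by exact_mod_cast hi
    have h2 : 4 * m fK / (i + 1) ≤ 4 * m fK / (n + 1) := by gcongr
    have h3 : 64 * m fK / (n + 1) = 16 * (4 * m fK / (n + 1)) := by ring
    linarith [nsq_le hm (ww ^ i), (a1 i).2, (a2 i).2, (a3 i).2, (a4 i).2]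

end

end Pool.Agent.BA
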