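import Pool.Agent.Lib.BA.Blue

/-! The remaining flips next to a staircase closed by the window or by a right turn. -/

open Finset

namespace Pool.Agent.BA

namespace RestB

variable {m k : ℕ} {σ : Cfg} {p : ℕ → ℤ}

theorem str_trunc (h : Str m σ k p) {j : ℕ} (h1 : 1 ≤ j) (h2 : j ≤ k) : Str m σ j p :=
  ⟨h1, h2.trans h.le, fun i a b => h.plus i a (by omega), fun i a b => h.minus i a (by omega),
    fun i a b => h.up i a (by omega), fun i a b => h.anti i a (by omega),
    fun i a b => h.gap i a (by omega), fun i a b => h.run i a (by omega)⟩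

theorem flp_row (σ : Cfg) {y : V} {c r : ℤ} (h : r ≠ y.2) : flp σ y (c, r) = σ (c, r) :=
  flp_ne _ fun e => h (by rw [← e])

theorem flp_col (σ : Cfg) {y : V} {c r : ℤ} (h : c ≠ y.1) : flp σ y (c, r) = σ (c, r) :=
  flp_ne _ fun e => h (by rw [← e])

theorem str_row (h : Str m σ k p) {y : V} (hy : (k : ℤ) < y.2) : Str m (flp σ y) k p := by
  refine ⟨h.one_le, h.le, fun i a b => ?_, fun i a b => ?_, fun i a b => ?_, h.anti, h.gap,
    fun i a b c h1 h2 => ?_⟩
  · rw [flp_row _ (by omega)]; exact h.plus i a b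
  · rw [flp_row _ (by omega)]; exact h.minus i a b
  · rw [flp_row _ (by omega)]; exact h.up i a b
  · have := h.run i a b c h1 h2
    unfold Bond at this ⊢
    rw [flp_row _ (by omega), flp_row _ (by omega)]
    exact this

theorem run_flp {i : ℕ} {q r : ℤ} (h : Run σ i q r) {y : V} (hy : y.1 < q) :
    Run (flp σ y) i q r := fun c h1 h2 => by
  have := h c h1 h2
  unfold Bond at this ⊢
  rw [flp_col _ (by omega), flp_col _ (by omega)]
  exact this

theorem run_sub {i : ℕ} {q q' r : ℤ} (h : Run σ i q r) (hq : q ≤ q') : Run σ i q' r :=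
  fun c h1 h2 => h c (hq.trans h1) h2

theorem run_ext {i : ℕ} {q r : ℤ} (h : Run σ i q r) (hb : Bond σ (q - 1) i) :
    Run σ i (q - 1) r := fun c h1 h2 => by
  rcases eq_or_lt_of_le h1 with rfl | h3
  · exact hb
  · exact h c (by omega) h2

/-- filling the site left of a step above a plus site closes a minus cap -/
theorem cap_below (h : Str m σ k p) {j : ℕ} (h1 : 1 ≤ j) (h2 : j < k)
    (hS : σ (p (j + 1) - 1, (j : ℤ)) = true) :
    ZCl m (flp σ (p (j + 1) - 1, (j : ℤ) + 1)) j p (p (j + 1)) := by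
  have ha := h.anti j h1 h2
  have hlt : p (j + 1) < p j := by
    refine lt_of_le_of_ne ha fun e => ?_
    rw [e, h.minus j h1 h2.le] at hS
    exact absurd hS (by simp)
  have hm := h.minus (j + 1) (by omega) h2
  push_cast at hm
  refine ⟨lt_of_lt_of_le h2 h.le, ?_, hlt, run_flp (h.run j h1 h2) (by simp),
    Or.inr ⟨h.gap j h1 h2, ?_, ?_⟩⟩
  · rw [flp_col _ (by simp only; omega)]; exact h.up j h1 h2
  · rw [flp_self, hm]; rfl
  · rw [flp_row _ (by simp)]; exact hS

theorem zero_mem : ∀ y : V, y - y ∈ box 1 := fun y => by rw [sub_self]; exact zero_mem_box 1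

/-- sites of a run strictly inside the staircase that are not move sites -/
theorem bad_run (hss : St_SS) (hse : St_SE) (hnpw : St_NPW) (h : Str m σ k p)
    (h0 : σ (p 1, 0) = false) {i : ℕ} (h1 : 1 ≤ i) (h2 : i < k) {c : ℤ} (h3 : p (i + 1) ≤ c) :
    (p (i + 1) < c → c ≤ p i → 2 ≤ dis σ (c, (i : ℤ) + 1) →
      Bad (m + 1) (sh (c, (i : ℤ) + 1) σ)) ∧
    (c + 1 < p i → 2 ≤ dis σ (c, (i : ℤ)) → Bad (m + 1) (sh (c, (i : ℤ)) σ)) := by
  have hr := h.run i h1 h2
  have S := hss m σ k p h h0 i h1 h2.le (h.up i h1 h2)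
  refine ⟨fun a b hd => ?_, fun a hd => ?_⟩
  · rcases eq_or_lt_of_le b with rfl | b
    · exact S.1 (hr _ (by omega) (by omega)).1 hd
    · exact S.2.1 c b (run_sub hr (by omega)) hd
  · rcases eq_or_lt_of_le h3 with rfl | b
    · have hm := h.minus (i + 1) (by omega) h2
      push_cast at hm
      exact (hse m σ i _ _ hr (by omega) (h.gap i h1 h2) (h.plus i h1 h2.le) (h.up i h1 h2)).1 a hm hd
    · exact bad_of_red _ _ (zero_mem _) ((hnpw.2 σ c i (hr _ (by omega) (by omega))
        (hr _ (by omega) (by omega)) (hr _ (by omega) (by omega))).1 hd)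

end RestB

open RestB in
theorem st_restn (hpar1 : St_PAR1) (htrk : St_TRK) (hss : St_SS) (hse : St_SE) (hnpw : St_NPW) :
    St_RESTN := by
  intro m Wm ε W hW σ k p hH h hp1 _ y hd hy1 hy2 hy
  obtain ⟨P1, P2, P3, -, -, -⟩ := hpar1 m Wm ε W hW
  obtain ⟨T1, T2, -, -⟩ := htrk m σ k p h
  have h0 : σ (p 1, 0) = false := by rw [hp1]; exact hH.2.1.2
  by_cases hR : Rd k p y
  swap
  · exact Or.inr (hp1 ▸ P1 _ k p (T2 y hR).1)
  have hN := (T1 hp1).1 y hR
  suffices H : Bad (m + 1) (sh y σ) ∨ Wl m W 0 (flp σ y) ≤ W (gaps k p) from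
    H.imp (fun b => ⟨hN, b⟩) id
  -- plus corners
  have A : ∀ j : ℕ, 1 ≤ j → j < k → y = (p (j + 1), (j : ℤ) + 1) →
      Bad (m + 1) (sh y σ) ∨ Wl m W 0 (flp σ y) ≤ W (gaps k p) := by
    intro j h1 h2 e
    have he : p (j + 1) = p j := by
      by_contra hne
      exact (hy j h1 h2 (lt_of_le_of_ne (h.anti j h1 h2) hne)).1 e
    rcases eq_or_lt_of_le (show j + 1 ≤ k from h2) with hk | hk
    · right
      have s := str_row (str_trunc h h1 h2.le) (y := y) (by rw [e]; simp)
      refine (hp1 ▸ P1 _ j p s).trans (hW.anti _ _ fun i _ _ => ?_)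
      unfold gaps
      by_cases hij : i = j
      · subst hij; simp [he]
      · split_ifs <;> omega
    · left
      have S := (hss m σ k p h h0 (j + 1) (by omega) h2 (h.up _ (by omega) hk)).2.2.1 (by omega)
        (by simpa using he)
      push_cast at S
      rw [e] at hd ⊢
      exact S hd
  rcases hR with ⟨i, h1, h2, e | e | e⟩ | ⟨i, c, h1, h2, h3, h4, e | e⟩
  · obtain ⟨j, rfl⟩ : ∃ j, i = j + 1 := ⟨i - 1, by omega⟩
    rcases Nat.eq_zero_or_pos j with rfl | hj
    · exact absurd (by rw [e]; simp [hp1]) hy1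
    · exact A j hj h2 (by rw [e]; push_cast; rfl)
  · obtain ⟨j, rfl⟩ : ∃ j, i = j + 1 := ⟨i - 1, by omega⟩
    rcases Nat.eq_zero_or_pos j with rfl | hj
    · exact absurd (by rw [e]; simp [hp1]) hy2
    push_cast at e
    have s := str_row (str_trunc h hj (by omega : j ≤ k)) (y := y) (by rw [e]; simp)
    by_cases hS : σ (p (j + 1) - 1, (j : ℤ)) = true
    · right
      have z := P2 _ j p _ s (e ▸ cap_below h hj h2 hS)
      rw [hp1] at z
      rw [z]
      exact hW.nonneg _
    simp only [Bool.not_eq_true] at hS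
    rcases eq_or_lt_of_le h2 with hk | hk
    · right
      have ha := h.anti j hj h2
      have hm := h.minus (j + 1) h1 h2
      push_cast at hm
      have r : Run (flp σ y) j (p (j + 1) - 1) (p j) := by
        refine run_ext (run_flp (h.run j hj h2) (by rw [e]; simp)) ⟨?_, ?_⟩
        · rw [e, flp_self, hm]; rfl
        · rw [flp_row _ (by rw [e]; simp)]; exact hS
      have z := P3 _ j p _ s (lt_of_lt_of_le h2 h.le)
        (by rw [flp_col _ (by rw [e]; simp only; omega)]; exact h.up j hj h2) (by omega) r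
      rw [hp1] at z
      refine z.trans (hW.anti _ _ fun i _ _ => ?_)
      by_cases hij : i = j
      · subst hij
        rw [Function.update_self]
        unfold gaps
        split_ifs <;> omega
      · rw [Function.update_of_ne hij]
        unfold gaps
        split_ifs <;> omega
    · left
      have he : p (j + 1 + 1) = p (j + 1) := by
        by_contra hne
        exact (hy (j + 1) h1 hk (lt_of_le_of_ne (h.anti _ h1 hk) hne)).2 (by rw [e]; push_cast; rfl)
      have hm := h.minus (j + 1 + 1) (by omega) hk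
      rw [he] at hm
      have S := (hss m σ k p h h0 (j + 1) h1 h2 (h.up _ h1 hk)).2.2.2 (by omega)
        (by simpa using hm) (by simpa using hS)
      push_cast at S
      rw [e] at hd ⊢
      exact S hd
  · rcases eq_or_lt_of_le h2 with rfl | hk
    · exact Or.inr (hp1 ▸ P1 _ i p (str_row h (by rw [e]; simp)))
    · rcases eq_or_lt_of_le (h.anti i h1 hk) with he | he
      · exact A i h1 hk (by rw [e, he])
      · left
        rw [e] at hd ⊢
        exact (bad_run hss hse hnpw h h0 h1 hk he.le).1 he le_rfl hd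
  · rcases eq_or_lt_of_le h3 with rfl | he
    · exact A i h1 h2 e
    · left
      rw [e] at hd ⊢
      exact (bad_run hss hse hnpw h h0 h1 h2 h3).1 he h4.le hd
  · left
    have hc : c ≠ p i - 1 := fun hc => (hy i h1 h2 (by omega)).2 (by rw [e, hc])
    rw [e] at hd ⊢
    exact (bad_run hss hse hnpw h h0 h1 h2 h3).2 (by omega) hd

end Pool.Agent.BA
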