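import Pool.Agent.Lib.BA.B_RESTN

/-! The remaining flips next to a staircase closed by a long step or by a minus cap. -/

open Finset

namespace Pool.Agent.BA

open RestB in
theorem st_restz (hpar1 : St_PAR1) (htrk : St_TRK) (hss : St_SS) (hse : St_SE) (hnpw : St_NPW)
    (hcup : St_CUP) (hcdn : St_CDN) : St_RESTZ := by
  intro m Wm ε W hW hε hm σ k p q hH h hp1 hZ y hd hy1 hy2
  obtain ⟨P1, P2, P3, -, -, -⟩ := hpar1 m Wm ε W hW
  obtain ⟨T1, T2, -, -⟩ := htrk m σ k p h
  obtain ⟨U1, -⟩ := hcup m Wm ε W hW hm σ k p hH h hp1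
  obtain ⟨D1, D2, -, -⟩ := hcdn m Wm ε W hW hε σ k p hH h hp1
  have h0 : σ (p 1, 0) = false := by rw [hp1]; exact hH.2.1.2
  have top : ∀ i : ℕ, 1 ≤ i → i ≤ k → σ (p i, (i : ℤ) + 1) = true := fun i a b => by
    rcases eq_or_lt_of_le b with rfl | b
    · exact hZ.2.1
    · exact h.up i a b
  have Z0 : ∀ j r, Str m (flp σ y) j p → ZCl m (flp σ y) j p r → Wl m W 0 (flp σ y) = 0 :=
    fun j r s z => hp1 ▸ P2 _ j p r s z
  by_cases hR : Rd k p y
  · have hN := (T1 hp1).1 y hR
    suffices H : Bad (m + 1) (sh y σ) ∨ Wl m W 0 (flp σ y) = 0 ∨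
        ((y = (p k - 1, (k : ℤ)) ∨ y = (q, (k : ℤ) + 1)) ∧ Wl m W 0 (flp σ y) ≤ ε) from
      H.imp (fun b => ⟨hN, b⟩) id
    have A : ∀ j : ℕ, 1 ≤ j → j < k → y = (p (j + 1), (j : ℤ) + 1) →
        Bad (m + 1) (sh y σ) ∨ Wl m W 0 (flp σ y) = 0 := by
      intro j h1 h2 e
      rw [e] at hd ⊢
      rcases eq_or_lt_of_le (h.anti j h1 h2) with he | he
      · left
        have S := (hss m σ k p h h0 (j + 1) (by omega) h2 (top _ (by omega) h2)).2.2.1 (by omega)
          (by simpa using he)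
        push_cast at S
        exact S hd
      · exact (U1 j h1 h2 he).imp id fun z => z.2.2 q hZ
    have B : ∀ i : ℕ, 1 ≤ i → i ≤ k → y = (p i - 1, (i : ℤ)) →
        Bad (m + 1) (sh y σ) ∨ Wl m W 0 (flp σ y) = 0 ∨
        ((y = (p k - 1, (k : ℤ)) ∨ y = (q, (k : ℤ) + 1)) ∧ Wl m W 0 (flp σ y) ≤ ε) := by
      intro i h1 h2 e
      obtain ⟨j, rfl⟩ : ∃ j, i = j + 1 := ⟨i - 1, by omega⟩
      rcases Nat.eq_zero_or_pos j with rfl | hj
      · exact absurd (by rw [e]; simp [hp1]) hy2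
      rcases eq_or_lt_of_le h2 with hk | hk
      · rw [hk] at e
        rw [e]
        exact (D2 q hZ (by omega)).imp id fun z => Or.inr ⟨Or.inl rfl, z⟩
      rcases eq_or_lt_of_le (h.anti _ h1 hk) with he | he
      · by_cases hS : σ (p (j + 1) - 1, (j : ℤ)) = true
        · push_cast at e
          exact Or.inr (Or.inl (Z0 j _
            (str_row (str_trunc h hj (by omega : j ≤ k)) (y := y) (by rw [e]; simp))
            (e ▸ cap_below h hj h2 hS)))
        · simp only [Bool.not_eq_true] at hS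
          have hm := h.minus (j + 1 + 1) (by omega) hk
          rw [he] at hm
          rw [e] at hd ⊢
          exact Or.inl ((hss m σ k p h h0 (j + 1) h1 h2 (h.up _ h1 hk)).2.2.2 (by omega)
            (by simpa using hm) (by simpa using hS) hd)
      · rw [e]
        exact (D1 (j + 1) (by omega) hk he).imp id fun z => Or.inl (z.2.2 q hZ)
    rcases hR with ⟨i, h1, h2, e | e | e⟩ | ⟨i, c, h1, h2, h3, h4, e | e⟩
    · obtain ⟨j, rfl⟩ : ∃ j, i = j + 1 := ⟨i - 1, by omega⟩
      rcases Nat.eq_zero_or_pos j with rfl | hj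
      · exact absurd (by rw [e]; simp [hp1]) hy1
      · exact (A j hj h2 (by rw [e]; push_cast; rfl)).imp id Or.inl
    · exact B i h1 h2 e
    · rcases eq_or_lt_of_le h2 with rfl | hk
      · left
        rw [e] at hd ⊢
        exact (hss m σ i p h h0 i h1 h2 hZ.2.1).1
          (hZ.2.2.2.1 _ (by have := hZ.2.2.1; omega) (by omega)).1 hd
      · rcases eq_or_lt_of_le (h.anti i h1 hk) with he | he
        · exact (A i h1 hk (by rw [e, he])).imp id Or.inl
        · left
          rw [e] at hd ⊢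
          exact (bad_run hss hse hnpw h h0 h1 hk he.le).1 he le_rfl hd
    · rcases eq_or_lt_of_le h3 with rfl | he
      · exact (A i h1 h2 e).imp id Or.inl
      · left
        rw [e] at hd ⊢
        exact (bad_run hss hse hnpw h h0 h1 h2 h3).1 he h4.le hd
    · by_cases hc : c = p i - 1
      · exact B i h1 h2.le (by rw [e, hc])
      · left
        rw [e] at hd ⊢
        exact (bad_run hss hse hnpw h h0 h1 h2 h3).2 (by omega) hd
  have s := (T2 y hR).1
  by_cases hQ : RdZ k p q y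
  swap
  · exact Or.inr (Or.inl (Z0 k q s ((T2 y hR).2 q hZ hQ)))
  have hN := (T1 hp1).2.2.1 q y hZ hQ
  suffices H : Bad (m + 1) (sh y σ) ∨ Wl m W 0 (flp σ y) = 0 ∨
      ((y = (p k - 1, (k : ℤ)) ∨ y = (q, (k : ℤ) + 1)) ∧ Wl m W 0 (flp σ y) ≤ ε) from
    H.imp (fun b => ⟨hN, b⟩) id
  obtain ⟨c, c1, c2, e⟩ := hQ
  obtain ⟨z1, z2, z3, z4, z5⟩ := hZ
  have hk1 := h.one_le
  have ey : y.1 = c := by rcases e with e | e <;> rw [e]
  have z2' : flp σ y (p k, (k : ℤ) + 1) = true := by rw [flp_col _ (by omega)]; exact z2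
  have hne : y ≠ (p k - 1, (k : ℤ)) := fun e => hR (Or.inl ⟨k, hk1, le_rfl, Or.inr (Or.inl e)⟩)
  rcases eq_or_lt_of_le c1 with rfl | c1
  · -- the column left of the run
    have r : Run (flp σ y) k q (p k) := run_flp z4 (by omega)
    rcases z5 with z5 | ⟨z5, z6, z7⟩
    · exact Or.inr (Or.inl (Z0 k q s ⟨z1, z2', z3, r, Or.inl z5⟩))
    have E := (hse m σ k q (p k) z4 z3 z5 (h.plus k hk1 le_rfl) z2).2 z6 z7
    rcases e with e | e
    · rw [e] at hd ⊢
      exact Or.inl (E.1 hd)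
    · rcases E.2.1 (e ▸ hd) with b | ⟨b1, b2⟩
      · exact Or.inl (e ▸ b)
      refine Or.inr (Or.inl (Z0 k (q - 1) s ⟨z1, z2', by omega, run_ext r ⟨?_, ?_⟩, ?_⟩))
      · rw [flp_row _ (by rw [e]; simp)]; exact z6
      · rw [e, flp_self, z7]; rfl
      · rcases eq_or_lt_of_le z5 with z8 | z8
        · left; omega
        · refine Or.inr ⟨by omega, ?_, ?_⟩
          · rw [flp_col _ (by omega), show q - 1 - 1 = q - 2 by ring]; exact b1
          · rw [flp_col _ (by omega), show q - 1 - 1 = q - 2 by ring]; exact b2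
  rcases eq_or_lt_of_le (show q ≤ c by omega) with rfl | c3
  · -- the left end of the run
    have r : Run (flp σ y) k (q + 1) (p k) := run_flp (run_sub z4 (by omega)) (by omega)
    have b := z4 q le_rfl z3
    rcases e with e | e
    · rcases z5 with z5 | ⟨z5, z6, z7⟩
      · refine Or.inr (Or.inr ⟨Or.inr e, ?_⟩)
        have z := P3 _ k p _ s z1 z2' (by omega) r
        rw [hp1] at z
        exact z.trans (hW.tiny _ k hk1 z1 (by rw [Function.update_self]; omega))
      · rw [e] at hd ⊢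
        exact Or.inl (((hse m σ k q (p k) z4 z3 z5 (h.plus k hk1 le_rfl) z2).2 z6 z7).2.2 hd)
    · have hq : q ≠ p k - 1 := fun hq => hne (by rw [e, hq])
      refine Or.inr (Or.inl (Z0 k (q + 1) s ⟨z1, z2', by omega, r, Or.inr ⟨by omega, ?_, ?_⟩⟩))
      · rw [add_sub_cancel_right, flp_row _ (by rw [e]; simp)]; exact b.1
      · rw [add_sub_cancel_right, e, flp_self, b.2]; rfl
  · left
    rcases e with e | e
    · rw [e] at hd ⊢
      exact (hss m σ k p h h0 k hk1 le_rfl z2).2.1 c c2 (run_sub z4 (by omega)) hd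
    · have hq : c ≠ p k - 1 := fun hq => hne (by rw [e, hq])
      rw [e] at hd ⊢
      exact bad_of_red _ _ (zero_mem _) ((hnpw.2 σ c k (z4 _ (by omega) (by omega))
        (z4 _ (by omega) (by omega)) (z4 _ (by omega) (by omega))).1 hd)

end Pool.Agent.BA
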