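import Pool.Agent.Lib.BA.Blue

namespace Pool.Agent.BA

namespace SEB

def g0 : Fr := ⟨false, false, false, false⟩
def g1 : Fr := ⟨true, false, true, false⟩

theorem act_g0 (σ : Cfg) : act g0 σ = σ := by
  funext x; simp [act, g0, Fr.lin]

theorem act_g1 (σ : Cfg) (a b : ℤ) : act g1 σ (a, b) = !σ (a, -b) := by
  simp [act, g1, Fr.lin]

theorem bad0 {M : ℕ} {σ : Cfg} (y o : V) (ho : o - y ∈ box 1) (h : PA M (sh o σ)) :
    Bad M (sh y σ) := bad_of_pa y o g0 ho (by rwa [act_g0])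

theorem arm {m n : ℕ} {τ : Cfg} (a : ℤ) (j : ℕ) (h1 : 1 ≤ j) (h2 : j ≤ m) (h3 : (j : ℤ) + a = n)
    (hn : τ (n, 0) = true) : Arm m (sh (a, 0) τ) :=
  ⟨j, h1, h2, fun h => by
    have := h.2
    simp only [sh, Prod.mk_add_mk, h3, add_zero, hn] at this
    exact absurd this (by simp)⟩

theorem core (m n : ℕ) (τ : Cfg) (h1 : 1 ≤ n) (hm : n ≤ m) (a0 : τ (0, 1) = true)
    (b0 : τ (0, 0) = false) (a1 : τ (1, 1) = true) (b1 : 2 ≤ n → τ (1, 0) = false)
    (hn : τ (n, 0) = true) :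
    (2 ≤ n → τ (-1, 1) = false → 2 ≤ dis τ (0, 0) → Bad (m + 1) (sh (0, 0) τ)) ∧
    (τ (-1, 1) = true → τ (-1, 0) = true →
      (2 ≤ dis τ (-1, 1) → Bad (m + 1) (sh (-1, 1) τ)) ∧
      (2 ≤ dis τ (-1, 0) → Bad (m + 1) (sh (-1, 0) τ) ∨ (τ (-2, 1) = true ∧ τ (-2, 0) = true)) ∧
      (2 ≤ dis τ (0, 1) → Bad (m + 1) (sh (0, 1) τ))) := by
  have A0 : Arm (m + 1) (sh (0, 0) τ) := arm 0 n h1 (by omega) (by simp) hn
  refine ⟨fun h2 c hd => ?_, fun c d => ⟨fun hd => ?_, fun hd => ?_, fun hd => ?_⟩⟩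
  · have b1 := b1 h2
    cases w : τ (-1, 0)
    · have s : τ (0, -1) = true := by
        cases s : τ (0, -1)
        · simp [dis, a0, b0, b1, w, s] at hd
        · rfl
      refine bad0 _ (1, 0) (by decide) ⟨Or.inr (Or.inr ?_),
        arm 1 (n - 1) (by omega) (by omega) (by omega) hn⟩
      simp [OT, sh, a0, a1, b1, w, s]
    · exact bad0 _ (0, 0) (by decide) ⟨Or.inl (by simp [Chk, sh, a0, b0, c, w]), A0⟩
  · refine bad0 _ (0, 0) (by decide) ⟨Or.inr (Or.inl ⟨(-1, 1), by simp, ?_, ?_⟩), A0⟩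
    · rw [dis_sh]; simpa using hd
    · simp [Chk, flp, sh, a0, b0, c, d]
  · cases w : τ (-2, 0)
    · left
      cases s : τ (-1, -1)
      · exact bad_of_U _ (-1, 0) (by decide) (by simp [dis, b0, c, d, w, s])
      · exact bad0 _ (0, 0) (by decide)
          ⟨Or.inr (Or.inr (by simp [OT, sh, a0, b0, c, w, s])), A0⟩
    · cases v : τ (-2, 1)
      · left
        refine bad0 _ (-1, 0) (by decide) ⟨Or.inr (Or.inl ⟨(0, 0), by simp, ?_, ?_⟩),
          arm (-1) (n + 1) (by omega) (by omega) (by push_cast; ring) hn⟩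
        · rw [dis_sh]; simpa using hd
        · simp [Chk, flp, sh, c, d, w, v]
      · exact Or.inr ⟨rfl, rfl⟩
  · by_cases h2 : 2 ≤ n
    · have b1 := b1 h2
      have s : τ (0, 2) = false := by
        cases s : τ (0, 2)
        · rfl
        · simp [dis, a0, b0, a1, c, s] at hd
      refine bad_of_pa _ (1, 1) g1 (by decide) ⟨Or.inr (Or.inr ?_),
        n - 1, by omega, by omega, fun h => ?_⟩
      · simp [OT, act_g1, sh, b0, a1, b1, c, s]
      · have := h.1
        have e : ((n - 1 : ℕ) : ℤ) + 1 = n := by omega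
        simp [act_g1, sh, e, hn] at this
    · obtain rfl : n = 1 := by omega
      have hn : τ (1, 0) = true := hn
      refine bad_of_U _ (0, 0) (by decide) ?_
      simp [dis, a0, b0, d, hn]

end SEB

theorem st_se : St_SE := by
  intro m σ i q p hr hqp hm hp hp1
  obtain ⟨n, rfl⟩ : ∃ n : ℕ, p = q + n := ⟨(p - q).toNat, by omega⟩
  have ev : ∀ a b : ℤ, sh (q, (i : ℤ)) σ (a, b) = σ (q + a, i + b) := fun a b => by
    simp [sh, add_comm]
  have es : ∀ a b : ℤ, sh (a, b) (sh (q, (i : ℤ)) σ) = sh (q + a, i + b) σ := fun a b => by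
    simp [sh_sh, add_comm]
  have ed : ∀ a b : ℤ, dis (sh (q, (i : ℤ)) σ) (a, b) = dis σ (q + a, i + b) := fun a b => by
    simp [dis_sh, add_comm]
  have H := SEB.core m n (sh (q, (i : ℤ)) σ) (by omega) (by omega)
    (by rw [ev, add_zero]; exact (hr q le_rfl hqp).1)
    (by rw [ev, add_zero, add_zero]; exact (hr q le_rfl hqp).2)
    (by
      rw [ev]
      by_cases h : q + 1 < q + n
      · exact (hr (q + 1) (by omega) h).1
      · rwa [show q + 1 = q + n by omega])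
    (fun h => by rw [ev, add_zero]; exact (hr (q + 1) (by omega) (by omega)).2)
    (by rw [ev, add_zero]; exact hp)
  simp only [ev, es, ed, add_zero, ← sub_eq_add_neg] at H
  exact ⟨fun h => H.1 (by omega), H.2⟩

end Pool.Agent.BA
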