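import Pool.Agent.Lib.BA.Blue

open Finset

namespace Pool.Agent.BA

open Classical in
theorem st_sparse : St_SPARSE := by
  intro p v w hp h
  refine ⟨hp.ind, fun m hm => ?_⟩
  have hl : ∀ i ∈ range (w + 1), Loc fun σ => ind (p (sh (i • v) σ)) := fun i _ => (hp.sh _).ind
  have h1 : m (fun σ => ∑ i ∈ range (w + 1), ind (p (sh (i • v) σ))) ≤ m (fun _ => 1) := by
    refine hm.mono _ _ (Loc.sum _ hl) (Loc.const _) fun σ => ?_
    have key : ∀ i j : ℕ, i < j → j ≤ w → p (sh (i • v) σ) → ¬ p (sh (j • v) σ) := by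
      intro i j hij hj hi
      have := h (sh (i • v) σ) (j - i) (by omega) (by omega) hi
      rwa [sh_sh, ← add_nsmul, Nat.sub_add_cancel hij.le] at this
    by_cases hex : ∃ i ∈ range (w + 1), p (sh (i • v) σ)
    · obtain ⟨i, hi, hpi⟩ := hex
      rw [sum_eq_single_of_mem i hi]
      · exact ind_le_one _
      · intro j hj hne
        rw [mem_range] at hi hj
        refine ind_of_not fun hpj => ?_
        rcases lt_or_gt_of_ne hne with H | H
        · exact key j i H (by omega) hpj hpi
        · exact key i j H (by omega) hpi hpj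
    · rw [sum_eq_zero fun i hi => ind_of_not fun h' => hex ⟨i, hi, h'⟩]
      norm_num
  rw [hm.toPos.sum _ hl, hm.one,
    sum_congr rfl fun i _ => hm.shift (i • v) (fun σ => ind (p σ)) hp.ind] at h1
  simp only [sum_const, card_range, nsmul_eq_mul] at h1
  rw [le_div_iff₀ (by positivity)]
  push_cast at h1
  linarith

end Pool.Agent.BA
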