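import Pool.Agent.Lib.BA.Blue

/-! Block SS: local bad patterns with a south arm. -/

open Finset

namespace Pool.Agent.BA

noncomputable section
open Classical

namespace SSB

/-- frame with `e` south and `f` east -/
theorem fr1 (σ : Cfg) (a b x y : ℤ) :
    act ⟨false, false, true, true⟩ (sh (a, b) σ) (x, y) = σ (a + y, b - x) := by
  simp only [act, sh, Fr.lin, Bool.false_xor, if_true, Bool.false_eq_true, if_false, Prod.mk_add_mk]
  congr 2 <;> ring

/-- frame with `e` south, `f` west and reversed spins -/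
theorem fr2 (σ : Cfg) (a b x y : ℤ) :
    act ⟨true, true, true, true⟩ (sh (a, b) σ) (x, y) = !σ (a - y, b - x) := by
  simp only [act, sh, Fr.lin, Bool.true_xor, if_true, Prod.mk_add_mk]
  congr 3 <;> ring

/-- frame with `e` east, `f` south and reversed spins -/
theorem fr3 (σ : Cfg) (a b x y : ℤ) :
    act ⟨true, false, true, false⟩ (sh (a, b) σ) (x, y) = !σ (a + x, b - y) := by
  simp only [act, sh, Fr.lin, Bool.true_xor, if_true, Bool.false_eq_true, if_false, Prod.mk_add_mk]
  congr 3 <;> ring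

theorem dis_eq (σ : Cfg) (a b : ℤ) : dis σ (a, b) =
    (if σ (a + 1, b) = σ (a, b) then 0 else 1) + (if σ (a - 1, b) = σ (a, b) then 0 else 1) +
    (if σ (a, b + 1) = σ (a, b) then 0 else 1) + (if σ (a, b - 1) = σ (a, b) then 0 else 1) := by
  simp only [dis, Prod.mk_add_mk, add_zero, sub_eq_add_neg]

theorem cg (σ : Cfg) {a b c d : ℤ} {v : Bool} (h : σ (a, b) = v) (h1 : c = a) (h2 : d = b) :
    σ (c, d) = v := by rw [h1, h2, h]

theorem arm1 {m : ℕ} {σ : Cfg} {P : ℤ} {i j : ℕ} (h1 : 1 ≤ j) (h2 : j ≤ m + 1)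
    (h : ¬ (σ (P, (i : ℤ) - j) = true ∧ σ (P - 1, (i : ℤ) - j) = false)) :
    Arm (m + 1) (act ⟨false, false, true, true⟩ (sh (P - 1, (i : ℤ)) σ)) := by
  refine ⟨j, h1, h2, fun hb => h ?_⟩
  simp only [Bond, fr1] at hb
  exact ⟨cg σ hb.1 (by ring) rfl, cg σ hb.2 (by ring) rfl⟩

end SSB

open SSB in
theorem st_ss (htrk : St_TRK) (hnpw : St_NPW) : St_SS := by
  intro m σ k p hs h0 i hi hik hup
  have sf := (htrk m σ k p hs).2.2.1 h0
  have hkm := hs.le
  have hp := hs.plus i hi hik
  have hm := hs.minus i hi hik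
  obtain ⟨j, j1, j2, j3⟩ := sf i hi hik
  have arm := arm1 (m := m) j1 (by omega) j3
  refine ⟨fun h1 hd => ?_, fun c hc hr hd => ?_, fun h2 he hd => ?_, fun h2 hn hs' hd => ?_⟩
  · refine bad_of_pa _ (p i - 1, (i : ℤ)) ⟨false, false, true, true⟩ (by simp [mem_box])
      ⟨Or.inr (Or.inl ⟨(-1, 1), by simp, ?_, ?_⟩), arm⟩
    · rw [dis_act, dis_sh]
      simpa [Fr.lin, add_comm] using hd
    · refine ⟨?_, ?_, ?_, ?_⟩
      · rw [flp_self, fr1, cg σ hup (by ring) (by ring)]; rfl
      · rw [flp_ne _ (by simp), fr1]; exact cg σ h1 (by ring) (by ring)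
      · rw [flp_ne _ (by simp), fr1]; exact cg σ hp (by ring) (by ring)
      · rw [flp_ne _ (by simp), fr1]; exact cg σ hm (by ring) (by ring)
  · have b1 := hr (c - 1) le_rfl (by omega)
    have b2 := hr c (by omega) hc
    by_cases h3 : c + 1 < p i
    · have b3 := hr (c + 1) (by omega) h3
      exact bad_of_red _ _ (by simp [mem_box]) ((hnpw.2 σ c i b1 b2 b3).2 hd)
    · have e : c = p i - 1 := by omega
      have hN : σ (c, (i : ℤ) + 1 + 1) = false := by
        rw [dis_eq, cg σ hup (c := c + 1) (by omega) rfl, b1.1, b2.1] at hd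
        by_contra hh
        rw [Bool.not_eq_false] at hh
        rw [hh] at hd
        split_ifs at hd <;> simp_all
      refine bad_of_pa _ (p i - 1, (i : ℤ)) ⟨false, false, true, true⟩ (by simp [mem_box, e])
        ⟨Or.inr (Or.inr ⟨?_, ?_, ?_, ?_, ?_⟩), arm⟩ <;> rw [fr1]
      · exact cg σ hN (by omega) (by ring)
      · exact cg σ hm (by ring) (by ring)
      · exact cg σ hup (by ring) (by ring)
      · exact cg σ b1.1 (by omega) (by ring)
      · exact cg σ hp (by ring) (by ring)
  · have hp' := hs.plus (i - 1) (by omega) (by omega)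
    have hm' := hs.minus (i - 1) (by omega) (by omega)
    obtain ⟨l, l1, l2, l3⟩ := sf (i - 1) (by omega) (by omega)
    have ec : ((i - 1 : ℕ) : ℤ) = (i : ℤ) - 1 := by omega
    rw [← he, ec] at hp' hm' l3
    have hE : σ (p i + 1, (i : ℤ)) = false := by
      rw [dis_eq, hup, hp', hp] at hd
      by_contra hh
      rw [Bool.not_eq_false] at hh
      rw [hh] at hd
      split_ifs at hd <;> simp_all
    refine bad_of_pa _ (p i, (i : ℤ) - 1) ⟨true, true, true, true⟩ (by simp [mem_box])
      ⟨Or.inr (Or.inr ⟨?_, ?_, ?_, ?_, ?_⟩), l, l1, by omega, fun hb => l3 ?_⟩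
    · rw [fr2, cg σ hup (by ring) (by ring)]; rfl
    · rw [fr2, cg σ hp' (by ring) (by ring)]; rfl
    · rw [fr2, cg σ hm (by ring) (by ring)]; rfl
    · rw [fr2, cg σ hE (by ring) (by ring)]; rfl
    · rw [fr2, cg σ hm' (by ring) (by ring)]; rfl
    · simp only [Bond, fr2, Bool.not_eq_eq_eq_not, Bool.not_true, Bool.not_false] at hb
      exact ⟨cg σ hb.2 (by ring) rfl, cg σ hb.1 (by ring) rfl⟩
  · have hW : σ (p i - 1 - 1, (i : ℤ)) = true := by
      rw [dis_eq, hn, hs', hm] at hd
      by_contra hh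
      rw [Bool.not_eq_true] at hh
      rw [hh] at hd
      split_ifs at hd <;> simp_all
    by_cases h3 : σ (p i, (i : ℤ) - 1) = true
    · refine bad_of_red _ _ (by simp [mem_box]) (hnpw.1 (sh (p i - 1, (i : ℤ)) σ) ?_ ?_)
      · simp only [Opp, sh, Prod.mk_add_mk]
        rw [cg σ hn (by ring) (by ring), cg σ hs' (c := 0 + (p i - 1)) (by ring) (by ring),
          cg σ hp (c := 1 + (p i - 1)) (by ring) (by ring),
          cg σ hW (c := -1 + (p i - 1)) (by ring) (by ring)]
        simp
      · refine Or.inr (Or.inl ?_)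
        simp only [sh, Prod.mk_add_mk]
        rw [cg σ hup (by ring) (by ring), cg σ h3 (by ring) (by ring)]
    · have hp' := hs.plus (i - 1) (by omega) (by omega)
      have ha := hs.anti (i - 1) (by omega) (by omega)
      have hg := hs.gap (i - 1) (by omega) (by omega)
      have ec : ((i - 1 : ℕ) : ℤ) = (i : ℤ) - 1 := by omega
      have ei : i - 1 + 1 = i := by omega
      rw [ei] at ha hg
      rw [ec] at hp'
      have hne : p i ≠ p (i - 1) := fun h => h3 (h ▸ hp')
      rw [Bool.not_eq_true] at h3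
      refine bad_of_pa _ (p i, (i : ℤ)) ⟨true, false, true, false⟩ (by simp [mem_box])
        ⟨Or.inr (Or.inr ⟨?_, ?_, ?_, ?_, ?_⟩), (p (i - 1) - p i).toNat, by omega, by omega,
          fun hb => ?_⟩
      · rw [fr3, cg σ hW (by ring) (by ring)]; rfl
      · rw [fr3, cg σ hp (by ring) (by ring)]; rfl
      · rw [fr3, cg σ hs' (by ring) (by ring)]; rfl
      · rw [fr3, cg σ hn (by ring) (by ring)]; rfl
      · rw [fr3, cg σ h3 (by ring) (by ring)]; rfl
      · have := hb.1
        rw [fr3, cg σ hp' (by omega) (by ring)] at this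
        exact absurd this (by simp)

end

end Pool.Agent.BA
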