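import Pool.Agent.Lib.BA.Blue

open Finset

namespace Pool.Agent.BA

open Classical in
theorem st_step : St_STEP := by
  intro lam D hlam hD p q E hp hq hE hE0 hqp hexit
  have hχ : Loc fun σ => ind (p σ) := hp.ind
  obtain ⟨S, hS⟩ := hχ
  have hqn : Loc fun σ => ind (q σ ∧ ¬ p σ) := (hq.and hp.not).ind
  have key : ∀ σ, 1 / 2 * ind (q σ ∧ ¬ p σ) - E σ ≤ gen (fun τ => ind (p τ)) σ := by
    intro σ
    by_cases hpσ : p σ
    · rw [ind_of_not (fun h : q σ ∧ ¬ p σ => h.2 hpσ)]
      have := hexit σ hpσ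
      linarith
    · rw [hS.gen_eq]
      have hn : ∀ y ∈ S, 0 ≤ rate σ y * (ind (p (flp σ y)) - ind (p σ)) := fun y _ =>
        mul_nonneg (rate_nonneg _ _) (by rw [ind_of_not hpσ, sub_zero]; exact ind_nonneg _)
      have h0 : 0 ≤ genOn S (fun τ => ind (p τ)) σ := sum_nonneg hn
      have := hE0 σ
      by_cases hqσ : q σ
      · obtain ⟨y, hy, hpy⟩ := (hqp σ hqσ).resolve_left hpσ
        have hyS : y ∈ S := by
          by_contra hn
          have := hS.flp_eq σ hn
          simp only [ind_of hpy, ind_of_not hpσ] at this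
          norm_num at this
        have h1 : rate σ y * (ind (p (flp σ y)) - ind (p σ)) ≤ genOn S (fun τ => ind (p τ)) σ :=
          single_le_sum hn hyS
        rw [ind_of hpy, ind_of_not hpσ] at h1
        have := half_le_rate hy
        have := ind_le_one (q σ ∧ ¬ p σ)
        linarith
      · rw [ind_of_not (fun h : q σ ∧ ¬ p σ => hqσ h.1)]
        linarith
  have h1 := hD.mono _ _ ((hqn.cmul (1 / 2)).sub hE) hp.ind.gen key
  rw [hD.toPos.sub (hqn.cmul _) hE, hD.smul _ _ hqn] at h1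
  have h2 := hD.disc _ hp.ind fun σ => ind_nonneg _
  have h3 : D (fun σ => ind (q σ)) ≤ D (fun σ => ind (p σ) + ind (q σ ∧ ¬ p σ)) :=
    hD.mono _ _ hq.ind (hp.ind.add hqn) fun σ =>
      (ind_mono fun h => by tauto).trans (ind_or_le _ _)
  rw [hD.add _ _ hp.ind hqn] at h3
  linarith

end Pool.Agent.BA
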