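import Pool.Agent.Lib.BA.Blue

/-! Block TRK: tracking along the staircase, windows, unread sites and the south arm. -/

open Finset

namespace Pool.Agent.BA

namespace TrkB

theorem bnd {m : ℕ} {σ : Cfg} {k : ℕ} {p : ℕ → ℤ} (hS : Str m σ k p) (h0 : p 1 = 0) :
    ∀ i : ℕ, i + 1 ≤ k → -((m : ℤ) * i) ≤ p (i + 1) ∧ p (i + 1) ≤ 0 := by
  intro i
  induction i with
  | zero => intro _; simp [h0]
  | succ i ih =>
    intro hi
    have h1 := ih (by omega)
    have h2 := hS.anti (i + 1) (by omega) (by omega)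
    have h3 := hS.gap (i + 1) (by omega) (by omega)
    push_cast
    constructor
    · nlinarith
    · omega

theorem bnd' {m : ℕ} {σ : Cfg} {k : ℕ} {p : ℕ → ℤ} (hS : Str m σ k p) (h0 : p 1 = 0)
    {i : ℕ} (h1 : 1 ≤ i) (h2 : i ≤ k) : -((m : ℤ) * m) ≤ p i ∧ p i ≤ 0 := by
  obtain ⟨j, rfl⟩ : ∃ j, i = j + 1 := ⟨i - 1, by omega⟩
  have h := bnd hS h0 j h2
  have hj : (j : ℤ) ≤ m := by have := hS.le; omega
  have : (m : ℤ) * j ≤ m * m := mul_le_mul_of_nonneg_left hj (by positivity)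
  constructor <;> omega

theorem mem_LB {m : ℕ} {a b : ℤ} :
    (a, b) ∈ LB m ↔ (-((m : ℤ) * m + m + 2) ≤ a ∧ a ≤ 0) ∧ 0 ≤ b ∧ b ≤ m := by
  simp only [LB, mem_product, mem_Icc]

/-- the upper row of a run is tracked -/
theorem trk_run {B : Finset V} {σ : Cfg} {i : ℕ} {q a : ℤ} (hr : Run σ i q a)
    (ha : σ (a, (i : ℤ)) = true) (hu : σ (a, (i : ℤ) + 1) = true) (ht : Trk B σ (a, (i : ℤ)))
    (hB : ∀ c, q ≤ c → c ≤ a → (c, (i : ℤ) + 1) ∈ B) (d : ℕ) :
    q ≤ a - d → Trk B σ (a - d, (i : ℤ) + 1) := by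
  induction d with
  | zero =>
    intro h
    refine .step _ (hB _ h (by omega)) ?_
    have e : nxt σ (a - ((0 : ℕ) : ℤ), (i : ℤ) + 1) = (a, (i : ℤ)) := by
      simp [nxt, ha]
    rw [e]; exact ht
  | succ d ih =>
    intro h
    have ih' := ih (by push_cast at h; omega)
    refine .step _ (hB _ h (by omega)) ?_
    have hb := hr (a - ((d + 1 : ℕ) : ℤ)) h (by push_cast; omega)
    have e1 : (a - ((d + 1 : ℕ) : ℤ), (i : ℤ) + 1) + ((0, -1) : V) = (a - ((d + 1 : ℕ) : ℤ), (i : ℤ)) := by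
      simp
    have e2 : (a - ((d + 1 : ℕ) : ℤ), (i : ℤ) + 1) + ((1, 0) : V) = (a - d, (i : ℤ) + 1) := by
      simp only [Prod.mk_add_mk, add_zero, Prod.mk.injEq, and_true]; push_cast; ring
    have e3 : (a - ((d + 1 : ℕ) : ℤ), (i : ℤ) + 1) + ((1, -1) : V) = (a - d, (i : ℤ)) := by
      simp only [Prod.mk_add_mk, Prod.mk.injEq]; push_cast; constructor <;> ring
    have h2 : σ (a - d, (i : ℤ) + 1) = true := by
      by_cases e : d = 0
      · subst e; simpa using hu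
      · exact (hr (a - d) (by push_cast at h; omega) (by omega)).1
    unfold nxt
    rw [e1, e2, e3, hb.2, h2, if_neg (by simp), if_neg (by simp)]
    by_cases e : d = 0
    · subst e
      simp only [Nat.cast_zero, sub_zero, ha]
      rw [if_neg (by simp)]; exact ht
    · rw [if_pos (hr (a - d) (by push_cast at h; omega) (by omega)).2]; exact ih'

theorem trk_run' {B : Finset V} {σ : Cfg} {i : ℕ} {q a : ℤ} (hr : Run σ i q a)
    (ha : σ (a, (i : ℤ)) = true) (hu : σ (a, (i : ℤ) + 1) = true) (ht : Trk B σ (a, (i : ℤ)))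
    (hB : ∀ c, q ≤ c → c ≤ a → (c, (i : ℤ) + 1) ∈ B) {c : ℤ} (h1 : q ≤ c) (h2 : c ≤ a) :
    Trk B σ (c, (i : ℤ) + 1) := by
  have := trk_run hr ha hu ht hB (a - c).toNat (by omega)
  rwa [show a - ((a - c).toNat : ℤ) = c by omega] at this

theorem trk_corner {m : ℕ} {σ : Cfg} {k : ℕ} {p : ℕ → ℤ} (hS : Str m σ k p) (h0 : p 1 = 0) :
    ∀ i : ℕ, i + 1 ≤ k → Trk (LB m) σ (p (i + 1), ((i + 1 : ℕ) : ℤ)) := by
  intro i
  have hk := hS.le
  induction i with
  | zero => intro _; rw [zero_add, h0]; exact .base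
  | succ i ih =>
    intro hi
    have b1 := bnd' hS h0 (i := i + 1) (by omega) (by omega)
    have b2 := bnd' hS h0 (i := i + 1 + 1) (by omega) hi
    have := trk_run' (hS.run (i + 1) (by omega) hi) (hS.plus (i + 1) (by omega) (by omega))
      (hS.up (i + 1) (by omega) hi) (ih (by omega))
      (fun c h1 h2 => mem_LB.2 (by push_cast; omega)) le_rfl (hS.anti (i + 1) (by omega) hi)
    rw [Nat.cast_add (i + 1) 1, Nat.cast_one]
    exact this

theorem trk_corner' {m : ℕ} {σ : Cfg} {k : ℕ} {p : ℕ → ℤ} (hS : Str m σ k p) (h0 : p 1 = 0)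
    {i : ℕ} (h1 : 1 ≤ i) (h2 : i ≤ k) : Trk (LB m) σ (p i, (i : ℤ)) := by
  obtain ⟨j, rfl⟩ : ∃ j, i = j + 1 := ⟨i - 1, by omega⟩
  exact trk_corner hS h0 j h2

theorem near_of {m : ℕ} {σ : Cfg} {a b c d : ℤ} (hz : (a, b) ∈ LB m) (ht : Trk (LB m) σ (a, b))
    (h1 : -1 ≤ c - a ∧ c - a ≤ 1) (h2 : -1 ≤ d - b ∧ d - b ≤ 1) : Near m σ (c, d) :=
  ⟨(a, b), hz, ht, by rw [mem_box]; simp only [Prod.mk_sub_mk]; push_cast; omega⟩

theorem south {m : ℕ} {σ : Cfg} {k : ℕ} {p : ℕ → ℤ} (hS : Str m σ k p) (h0 : σ (p 1, 0) = false) :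
    ∀ i : ℕ, i + 1 ≤ k → ∃ j : ℕ, 1 ≤ j ∧ j ≤ i + 1 ∧
      ¬ (σ (p (i + 1), ((i + 1 : ℕ) : ℤ) - j) = true ∧
        σ (p (i + 1) - 1, ((i + 1 : ℕ) : ℤ) - j) = false) := by
  intro i
  induction i with
  | zero =>
    intro _
    refine ⟨1, le_rfl, le_rfl, fun h => ?_⟩
    have h1 := h.1
    simp only [zero_add, Nat.cast_one, sub_self] at h1
    rw [h0] at h1; exact absurd h1 (by simp)
  | succ i ih =>
    intro hi
    have ha := hS.anti (i + 1) (by omega) hi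
    rcases lt_or_eq_of_le ha with hlt | heq
    · refine ⟨1, le_rfl, by omega, fun h => ?_⟩
      have h1 := h.1
      have hb := (hS.run (i + 1) (by omega) hi _ le_rfl hlt).2
      rw [show ((i + 1 + 1 : ℕ) : ℤ) - ((1 : ℕ) : ℤ) = ((i + 1 : ℕ) : ℤ) by push_cast; ring, hb] at h1
      exact absurd h1 (by simp)
    · obtain ⟨j, j1, j2, j3⟩ := ih (by omega)
      refine ⟨j + 1, by omega, by omega, ?_⟩
      rw [heq, show ((i + 1 + 1 : ℕ) : ℤ) - ((j + 1 : ℕ) : ℤ) = ((i + 1 : ℕ) : ℤ) - j by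
        push_cast; ring]
      exact j3

theorem straight {m : ℕ} {σ : Cfg} {k : ℕ} {p : ℕ → ℤ} (hS : Str m σ k p) (h0 : p 1 = 0)
    (hs : Strt m σ) : ∀ i : ℕ, i + 1 ≤ k → p (i + 1) = 0 := by
  intro i
  induction i with
  | zero => intro _; exact h0
  | succ i ih =>
    intro hi
    have e := ih (by omega)
    have ha := hS.anti (i + 1) (by omega) hi
    by_contra hne
    have hb := (hS.run (i + 1) (by omega) hi (-1) (by omega) (by omega)).1
    have := (hs (i + 1 + 1) (by omega) (hi.trans hS.le)).2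
    rw [Nat.cast_add (i + 1) 1, Nat.cast_one, hb] at this
    exact absurd this (by simp)

end TrkB

open TrkB in
theorem st_trk : St_TRK := by
  intro m σ k p hS
  have hk := hS.le
  have hk1 := hS.one_le
  refine ⟨fun h0 => ⟨?_, ?_, ?_, ?_⟩, fun y hy => ⟨?_, ?_⟩, ?_, fun h0 hs => ⟨?_, ?_⟩⟩
  · rintro y (⟨i, h1, h2, hy⟩ | ⟨i, c, h1, h2, h3, h4, hy⟩)
    · have b := bnd' hS h0 h1 h2
      have ht := trk_corner' hS h0 h1 h2
      have hz : (p i, (i : ℤ)) ∈ LB m := mem_LB.2 (by omega)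
      rcases hy with rfl | rfl | rfl <;> exact near_of hz ht (by omega) (by omega)
    · have b1 := bnd' hS h0 h1 h2.le
      have b2 := bnd' hS h0 (i := i + 1) (by omega) h2
      have ht : Trk (LB m) σ (c, (i : ℤ) + 1) :=
        trk_run' (hS.run i h1 h2) (hS.plus i h1 h2.le) (hS.up i h1 h2) (trk_corner' hS h0 h1 h2.le)
          (fun c h1 h2 => mem_LB.2 (by omega)) h3 h4.le
      have hz : (c, (i : ℤ) + 1) ∈ LB m := mem_LB.2 (by omega)
      rcases hy with rfl | rfl <;> exact near_of hz ht (by omega) (by omega)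
  · have hmm : (0 : ℤ) ≤ (m : ℤ) * m := by positivity
    exact near_of (a := 0) (b := 1) (mem_LB.2 (by omega)) .base (by omega) (by omega)
  · rintro q y ⟨h1, h2, h3, h4, h5⟩ ⟨c, c1, c2, hy⟩
    have b := bnd' hS h0 hk1 le_rfl
    have hq : p k - q ≤ m + 1 := by rcases h5 with h5 | h5 <;> omega
    have ht : ∀ c, q ≤ c → c ≤ p k → Trk (LB m) σ (c, (k : ℤ) + 1) := fun c h6 h7 =>
      trk_run' h4 (hS.plus k hk1 le_rfl) h2 (trk_corner' hS h0 hk1 le_rfl)
        (fun c h1 h2 => mem_LB.2 (by omega)) h6 h7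
    have hz : (c + 1, (k : ℤ) + 1) ∈ LB m := mem_LB.2 (by omega)
    have ht' := ht (c + 1) (by omega) (by omega)
    rcases hy with rfl | rfl <;> exact near_of hz ht' (by omega) (by omega)
  · intro i h1 h2
    have b := bnd' hS h0 h1 h2
    exact ⟨mem_LB.2 (by omega), mem_LB.2 (by omega)⟩
  · refine ⟨hk1, hk, ?_, ?_, ?_, hS.anti, hS.gap, ?_⟩
    · intro i h1 h2
      rw [flp_ne _ fun e => hy (Or.inl ⟨i, h1, h2, Or.inl e.symm⟩)]
      exact hS.plus i h1 h2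
    · intro i h1 h2
      rw [flp_ne _ fun e => hy (Or.inl ⟨i, h1, h2, Or.inr (Or.inl e.symm)⟩)]
      exact hS.minus i h1 h2
    · intro i h1 h2
      rw [flp_ne _ fun e => hy (Or.inl ⟨i, h1, h2.le, Or.inr (Or.inr e.symm)⟩)]
      exact hS.up i h1 h2
    · intro i h1 h2 c c1 c2
      have hb := hS.run i h1 h2 c c1 c2
      exact ⟨by rw [flp_ne _ fun e => hy (Or.inr ⟨i, c, h1, h2, c1, c2, Or.inl e.symm⟩)]; exact hb.1,
        by rw [flp_ne _ fun e => hy (Or.inr ⟨i, c, h1, h2, c1, c2, Or.inr e.symm⟩)]; exact hb.2⟩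
  · rintro q ⟨h1, h2, h3, h4, h5⟩ hz
    refine ⟨h1, ?_, h3, ?_, ?_⟩
    · rw [flp_ne _ fun e => hy (Or.inl ⟨k, hk1, le_rfl, Or.inr (Or.inr e.symm)⟩)]
      exact h2
    · intro c c1 c2
      have hb := h4 c c1 c2
      exact ⟨by rw [flp_ne _ fun e => hz ⟨c, by omega, c2, Or.inl e.symm⟩]; exact hb.1,
        by rw [flp_ne _ fun e => hz ⟨c, by omega, c2, Or.inr e.symm⟩]; exact hb.2⟩
    · rcases h5 with h5 | ⟨h5, h6, h7⟩
      · exact Or.inl h5
      · exact Or.inr ⟨h5,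
          by rw [flp_ne _ fun e => hz ⟨q - 1, le_rfl, by omega, Or.inl e.symm⟩]; exact h6,
          by rw [flp_ne _ fun e => hz ⟨q - 1, le_rfl, by omega, Or.inr e.symm⟩]; exact h7⟩
  · intro h0 i h1 h2
    obtain ⟨j, rfl⟩ : ∃ j, i = j + 1 := ⟨i - 1, by omega⟩
    exact south hS h0 j h2
  · intro i h1 h2
    obtain ⟨j, rfl⟩ : ∃ j, i = j + 1 := ⟨i - 1, by omega⟩
    exact straight hS h0 hs j h2
  · rintro q ⟨h1, h2, h3, h4, h5⟩
    have e : p k = 0 := by
      obtain ⟨j, rfl⟩ : ∃ j, k = j + 1 := ⟨k - 1, by omega⟩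
      exact straight hS h0 hs j le_rfl
    have hb := (h4 (-1) (by omega) (by omega)).1
    have := (hs (k + 1) (by omega) h1).2
    rw [Nat.cast_add k 1, Nat.cast_one, hb] at this
    exact absurd this (by simp)

end Pool.Agent.BA
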