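import Pool.Agent.Lib.BA.Blue

/-! Uniqueness for the forward equation gives the symmetries of the flow. -/

open Finset Filter Topology

namespace Pool.Agent.BA.UNIQB

noncomputable section
open Classical

theorem exists_box (S : Finset V) : ∃ r : ℕ, S ⊆ boxAt 0 r := by
  refine ⟨S.sup fun x => x.1.natAbs + x.2.natAbs, fun x hx => ?_⟩
  have h : x.1.natAbs + x.2.natAbs ≤ S.sup fun x => x.1.natAbs + x.2.natAbs :=
    le_sup (f := fun x : V => x.1.natAbs + x.2.natAbs) hx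
  rw [mem_boxAt]
  simp only [Prod.fst_zero, Prod.snd_zero]
  omega

theorem tend (c : ℝ) : Tendsto (fun r : ℕ => c * ((2 * (r : ℝ) + 3) ^ 2 / 2 ^ r)) atTop (𝓝 0) := by
  have h0 := tendsto_pow_const_div_const_pow_of_one_lt 0 (r := 2) (by norm_num)
  have h1 := tendsto_pow_const_div_const_pow_of_one_lt 1 (r := 2) (by norm_num)
  have h2 := tendsto_pow_const_div_const_pow_of_one_lt 2 (r := 2) (by norm_num)
  have h := (((h2.const_mul 4).add (h1.const_mul 12)).add (h0.const_mul 9)).const_mul c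
  simp only [mul_zero, add_zero] at h
  refine h.congr fun r => ?_
  ring

theorem uniq1 (hapx : St_APX) {m m' : ℝ → (Cfg → ℝ) → ℝ} (hm : Flow m) (hm' : Flow m')
    (h0 : ∀ f, Loc f → m 0 f = m' 0 f) {t : ℝ} (ht : 0 ≤ t) {f : Cfg → ℝ} (hf : Loc f)
    (hb : ∀ σ, |f σ| ≤ 1) : m t f = m' t f := by
  obtain ⟨S, hS⟩ := hf
  obtain ⟨r0, hr0⟩ := exists_box S
  have hd : DepOn f (boxAt 0 r0) := hS.mono hr0
  have key : ∀ ε > 0, ∀ r : ℕ, r0 ≤ r →
      |m t f - m' t f| ≤ (8 * t * Real.exp (8 * t) * 2 ^ r0) * ((2 * (r : ℝ) + 3) ^ 2 / 2 ^ r)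
        + 2 * ε := by
    intro ε hε r hr
    have hdis : Disjoint (boxAt (0 : V) (r + 1)) (boxAt ((2 * r + 3 : ℤ), (0 : ℤ)) (r + 1)) := by
      rw [disjoint_left]
      intro x hx hx'
      rw [mem_boxAt] at hx hx'
      simp only [Prod.fst_zero, Prod.snd_zero] at hx hx'
      push_cast at hx hx'
      omega
    obtain ⟨F1, F2, hF1, -, -, -, H⟩ := hapx f (fun _ => 1) 0 ((2 * r + 3 : ℤ), (0 : ℤ)) r0 r t ε
      hr ht hε hd (fun _ _ _ => rfl) hb (fun _ => by simp) hdis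
    have a1 := (H m hm).1
    have a2 := (H m' hm').1
    rw [← h0 F1 hF1.loc] at a2
    have e : m t f - m' t f = (m t f - m 0 F1) - (m' t f - m 0 F1) := by ring
    rw [e]
    refine (abs_sub _ _).trans ?_
    refine (add_le_add a1 a2).trans (le_of_eq ?_)
    ring
  have k2 : ∀ ε > 0, |m t f - m' t f| ≤ 0 + 2 * ε := by
    intro ε hε
    refine ge_of_tendsto ((tend (8 * t * Real.exp (8 * t) * 2 ^ r0)).add_const (2 * ε)) ?_
    exact eventually_atTop.2 ⟨r0, fun r hr => key ε hε r hr⟩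
  have k3 : |m t f - m' t f| ≤ 0 := by
    refine le_of_forall_pos_le_add fun ε hε => ?_
    have := k2 (ε / 2) (by positivity)
    linarith
  have := abs_nonpos_iff.1 k3
  linarith

theorem uniq (hapx : St_APX) {m m' : ℝ → (Cfg → ℝ) → ℝ} (hm : Flow m) (hm' : Flow m')
    (h0 : ∀ f, Loc f → m 0 f = m' 0 f) {t : ℝ} (ht : 0 ≤ t) {f : Cfg → ℝ} (hf : Loc f) :
    m t f = m' t f := by
  obtain ⟨M, hM0, hM⟩ := hf.bdd
  have hpos : 0 < M + 1 := by linarith
  have hb : ∀ σ, |(M + 1)⁻¹ * f σ| ≤ 1 := by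
    intro σ
    rw [abs_mul, abs_of_pos (inv_pos.2 hpos), inv_mul_le_iff₀ hpos]
    have := hM σ
    linarith
  have h := uniq1 hapx hm hm' h0 ht (hf.cmul (M + 1)⁻¹) hb
  rw [(hm.pos t ht).smul _ _ hf, (hm'.pos t ht).smul _ _ hf] at h
  exact mul_left_cancel₀ (inv_pos.2 hpos).ne' h

theorem flow_cfg {m : ℝ → (Cfg → ℝ) → ℝ} (hm : Flow m) (φ : Cfg → Cfg)
    (hφ : ∀ x, Loc fun σ => φ σ x)
    (hg : ∀ (f : Cfg → ℝ) σ, gen (fun τ => f (φ τ)) σ = gen f (φ σ)) :
    Flow fun t f => m t fun σ => f (φ σ) where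
  pos t ht := (hm.pos t ht).cfg φ hφ
  one t ht := hm.one t ht
  cont f hf := hm.cont _ (hf.cfg φ hφ)
  deriv f hf t ht := by
    have h := hm.deriv _ (hf.cfg φ hφ) t ht
    have e : gen (fun τ => f (φ τ)) = fun σ => gen f (φ σ) := funext (hg f)
    rw [e] at h
    exact h

theorem gen_trp (f : Cfg → ℝ) (σ : Cfg) : gen (fun τ => f (trp τ)) σ = gen f (trp σ) := by
  simp only [trp_eq]
  exact gen_act f _ σ

end

end Pool.Agent.BA.UNIQB

namespace Pool.Agent.BA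

theorem st_uniq (hapx : St_APX) : St_UNIQ := by
  intro m hm hi
  refine ⟨hm, fun t ht => ⟨⟨hm.pos t ht, fun z f hf => ?_⟩, hm.one t ht⟩, fun t ht => ?_⟩
  · have hz := UNIQB.flow_cfg hm (sh z) (fun x => Loc.eval (x + z)) fun f σ => gen_sh f z σ
    exact UNIQB.uniq hapx hz hm (fun f hf => hi.shift z f hf) ht hf
  · have hz := UNIQB.flow_cfg hm trp (fun x => Loc.eval (x.2, x.1)) UNIQB.gen_trp
    exact (UNIQB.uniq hapx hz hm (fun f hf => hi.trans f hf) ht loc_fa).symm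

end Pool.Agent.BA
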