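import Pool.Agent.Lib.BA.Blue

/-! Block VDER: the derivative of the smoothed second moment. -/

open Finset

namespace Pool.Agent.BA

namespace VderB

lemma psd_anti (hpsd : St_PSD) {Q : A → A → ℝ} (hQ : PSD Q) (u : A) (k : ℕ) :
    Q (ww ^ k * u) (ww ^ k * u) ≤ Q u u := by
  induction k with
  | zero => simp
  | succ k ih =>
    have h1 := (hpsd Q hQ (ww ^ k * u)).1
    have h2 := hQ.nonneg (dX * (ww ^ k * u))
    rw [pow_succ', mul_assoc]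
    linarith

lemma grad_le (hpsd : St_PSD) {m : (Cfg → ℝ) → ℝ} (hm : St m) {f : Cfg → ℝ} (hf : Loc f)
    {j i : ℕ} (hji : j ≤ i) :
    nsq m (ww ^ i * dY) f ≤ 4 * (nsq m (ww ^ j) f - nsq m (ww ^ (j + 1)) f) := by
  obtain ⟨k, rfl⟩ := Nat.exists_eq_add_of_le hji
  have h1 := psd_anti hpsd (hm.toLin.psd hf) (dY * ww ^ j) k
  have h2 := (hpsd _ (hm.toLin.psd hf) (ww ^ j)).2.1
  have e : ww ^ (j + k) * dY = ww ^ k * (dY * ww ^ j) := by ring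
  rw [nsq_eq, nsq_eq, nsq_eq, e, pow_succ']
  linarith

lemma amgm {m : (Cfg → ℝ) → ℝ} (hm : St m) {f g : Cfg → ℝ} (hf : Loc f) (hg : Loc g) :
    |m fun σ => f σ * g σ| ≤ (m (fun σ => f σ ^ 2) + m fun σ => g σ ^ 2) / 2 := by
  have h := hm.toPos.abs_le (hf.mul hg) (((hf.pow 2).add (hg.pow 2)).cmul (1 / 2)) fun σ => by
    rw [abs_le]
    constructor <;> nlinarith [sq_nonneg (f σ + g σ), sq_nonneg (f σ - g σ)]
  rw [hm.smul _ _ ((hf.pow 2).add (hg.pow 2)), hm.add _ _ (hf.pow 2) (hg.pow 2)] at h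
  linarith

lemma half (hgt : St_GT) (hrem : St_REM) (hqv : St_QV) (hlsq : St_LSQ) (hpsd : St_PSD)
    {m : (Cfg → ℝ) → ℝ} (hm : St m) {j i : ℕ} (hji : j ≤ i) :
    m (gen fun σ => cv (ww ^ i) fa σ ^ 2) ≤
      4 * (nsq m (ww ^ j) fa - nsq m (ww ^ (j + 1)) fa) +
      2 * (nsq m (ww ^ j) fb - nsq m (ww ^ (j + 1)) fb) + 36 * m fK / (j + 1) +
      16 * (m fU + m fO) := by
  have hu : Prob (ww ^ i) := prob_ww.pow i
  have hg : Loc (cv (ww ^ i) fa) := loc_fa.cv _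
  have hb : ∀ σ, |cv (ww ^ i) fa σ| ≤ 1 := fun σ => by
    rw [abs_of_nonneg (hu.cv_nonneg (f := fa) (fun _ => ind_nonneg _) σ)]
    exact hu.cv_le (fun _ => ind_le_one _) σ
  have h1 := (abs_le.1 (hgt m hm _ hu _ hg hb)).2
  have e1 : cv dY (cv (ww ^ i) fa) = cv (ww ^ i * dY) fa := by rw [← cv_mul, mul_comm]
  have e2 : cv (xs (0, -1) * dY) (cv (ww ^ i) fa) = cv (xs (0, -1) * (ww ^ i * dY)) fa := by
    rw [← cv_mul, mul_assoc, mul_comm dY]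
  rw [e1, e2] at h1
  have h2 := (abs_le.1 (amgm hm (loc_fb.cv (ww ^ i * dY)) (loc_fa.cv (ww ^ i * dY)))).2
  have h3 := (abs_le.1 (amgm hm (loc_remA.cv (ww ^ i))
    (loc_fa.cv (xs (0, -1) * (ww ^ i * dY))))).1
  have e3 : m (fun σ => cv (xs (0, -1) * (ww ^ i * dY)) fa σ ^ 2) = nsq m (ww ^ i * dY) fa := by
    simp only [cv_xs_mul]
    exact hm.shift _ (fun σ => cv (ww ^ i * dY) fa σ ^ 2) ((loc_fa.cv _).pow 2)
  rw [e3] at h3
  have h4 := grad_le hpsd hm loc_fa hji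
  have h5 := grad_le hpsd hm loc_fb hji
  have h6 := (hrem m hm j).2 i hji
  have h7 := (hqv m hm _ hu).1
  have h8 := (hlsq dY (Or.inr rfl) j).2 i hji
  have h9 : 0 ≤ m fK := hm.toPos.nonneg loc_fK fun _ => ind_nonneg _
  have h10 := mul_le_mul_of_nonneg_right h8 h9
  have e4 : m (gen fun σ => cv (ww ^ i) fa σ ^ 2) =
      2 * m (fun σ => cv (ww ^ i) (gen fa) σ * cv (ww ^ i) fa σ) +
        m (gam (cv (ww ^ i) fa) (cv (ww ^ i) fa)) := by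
    rw [← hm.smul _ _ ((loc_fa.gen.cv _).mul hg),
      ← hm.add _ _ (((loc_fa.gen.cv _).mul hg).cmul 2) (hg.gam hg)]
    refine hm.toPos.congr fun σ => ?_
    simp only [sq]
    rw [gen_mul hg hg, gen_cv _ loc_fa]
    ring
  have e5 : 36 * m fK / ((j : ℝ) + 1) = 64 * m fK / (j + 1) / 2 + 4 / (j + 1) * m fK := by ring
  rw [e4, e5]
  unfold nsq at h4 h5 h6 h3 ⊢
  linarith

lemma fK_trp (σ : Cfg) : fK (trp σ) = fK σ := ind_congr and_comm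

lemma fO_trp (σ : Cfg) : fO (trp σ) = fO σ :=
  ind_congr ⟨fun h => ⟨h.2.1, h.1, h.2.2.symm⟩, fun h => ⟨h.2.1, h.1, h.2.2.symm⟩⟩

lemma fU_trp (σ : Cfg) : fU (trp σ) = fU σ := by rw [trp_eq, fU_act]

lemma cv_fa_trp (k : ℕ) (σ : Cfg) : cv (ww ^ k) fa (trp σ) = cv (ww ^ k) fb σ := by
  rw [cv_trp, map_pow, trA_ww]
  rfl

lemma cv_fb_trp (k : ℕ) (σ : Cfg) : cv (ww ^ k) fb (trp σ) = cv (ww ^ k) fa σ := by
  rw [cv_trp, map_pow, trA_ww]
  rfl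

lemma gen_trp (f : Cfg → ℝ) (σ : Cfg) : gen f (trp σ) = gen (fun τ => f (trp τ)) σ := by
  simp only [trp_eq, gen_act]

end VderB

theorem st_vder (hgt : St_GT) (hrem : St_REM) (hqv : St_QV) (hlsq : St_LSQ) (hpsd : St_PSD) :
    St_VDER := by
  refine ⟨72, by norm_num, fun m hm j i hji => ?_⟩
  have h1 := VderB.half hgt hrem hqv hlsq hpsd hm hji
  have h2 := VderB.half hgt hrem hqv hlsq hpsd hm.trp hji
  simp only [nsq, VderB.fK_trp, VderB.fO_trp, VderB.fU_trp, VderB.gen_trp, VderB.cv_fa_trp,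
    VderB.cv_fb_trp] at h1 h2
  have e1 : ∀ k, m (NN k) = m (fun σ => cv (ww ^ k) fa σ ^ 2) +
      m fun σ => cv (ww ^ k) fb σ ^ 2 := fun k =>
    hm.add _ _ ((loc_fa.cv _).pow 2) ((loc_fb.cv _).pow 2)
  have e2 : m (gen (NN i)) = m (gen fun σ => cv (ww ^ i) fa σ ^ 2) +
      m (gen fun σ => cv (ww ^ i) fb σ ^ 2) := by
    rw [← hm.add _ _ ((loc_fa.cv _).pow 2).gen ((loc_fb.cv _).pow 2).gen]
    exact hm.toPos.congr fun σ => gen_add ((loc_fa.cv _).pow 2) ((loc_fb.cv _).pow 2) σ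
  have h3 : 0 ≤ m fU := hm.toPos.nonneg loc_fU fun _ => ind_nonneg _
  have h4 : 0 ≤ m fO := hm.toPos.nonneg loc_fO fun _ => ind_nonneg _
  have e3 : 72 * m fK / ((j : ℝ) + 1) = 2 * (36 * m fK / (j + 1)) := by ring
  rw [e1, e1, e2, e3]
  linarith

end Pool.Agent.BA
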