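import Pool.Agent.Lib.BA.Blue

/-! Lower bound of the cross term from a small variance at a larger scale. -/

open Finset

namespace Pool.Agent.BA.VLOGB

noncomputable section
open Classical

variable {m : (Cfg → ℝ) → ℝ}

theorem cv_cen {u : A} (hu : Prob u) (f : Cfg → ℝ) (c : ℝ) (σ : Cfg) :
    cv u (fun τ => f τ - c) σ = cv u f σ - c := by
  rw [cv_fsub u f fun _ => c, hu.cv_const]

/-- covariance of two smoothed functions -/
theorem cov_eq (hm : St m) {u : A} (hu : Prob u) {f g : Cfg → ℝ} (hf : Loc f) (hg : Loc g) :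
    m (fun σ => cv u (fun τ => f τ - m f) σ * cv u (fun τ => g τ - m g) σ) =
      m (fun σ => cv u f σ * cv u g σ) - m f * m g := by
  have hp := hm.toLin.toPos
  have e : (fun σ => cv u (fun τ => f τ - m f) σ * cv u (fun τ => g τ - m g) σ) =
      fun σ => ((cv u f σ * cv u g σ + (-m g) * cv u f σ) + (-m f) * cv u g σ) + m f * m g := by
    funext σ
    rw [cv_cen hu, cv_cen hu]; ring
  rw [e, hp.add _ _ ((((hf.cv u).mul (hg.cv u)).add ((hf.cv u).cmul _)).add ((hg.cv u).cmul _))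
      (Loc.const _),
    hp.add _ _ (((hf.cv u).mul (hg.cv u)).add ((hf.cv u).cmul _)) ((hg.cv u).cmul _),
    hp.add _ _ ((hf.cv u).mul (hg.cv u)) ((hf.cv u).cmul _), hp.smul _ _ (hf.cv u),
    hp.smul _ _ (hg.cv u), hp.const, hm.one, hm.toLin.cv_prob hu hf, hm.toLin.cv_prob hu hg]
  ring

theorem var_le (hpsd : St_PSD) (hm : St m) {f : Cfg → ℝ} (hf : Loc f)
    (h01 : ∀ σ, 0 ≤ f σ ∧ f σ ≤ 1) (n q : ℕ) {θ : ℝ} (hθ : 0 ≤ θ)
    (H : m (fun σ => cv (ww ^ ((q + 1) * n)) f σ * cv (ww ^ ((q + 1) * n)) f σ) - m f * m f ≤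
      θ ^ (q + 1)) :
    m (fun σ => cv (ww ^ n) (fun τ => f τ - m f) σ ^ 2) ≤ θ := by
  have hp := hm.toLin.toPos
  have hg : Loc fun τ => f τ - m f := hf.sub (Loc.const _)
  have hQ := hm.toLin.psd hg
  have h4 := (hpsd _ hQ 1).2.2.2 n q
  simp only [mul_one] at h4
  rw [cov_eq hm (prob_ww.pow ((q + 1) * n)) hf hf] at h4
  have m0 : 0 ≤ m f := hp.nonneg hf fun σ => (h01 σ).1
  have m1 : m f ≤ 1 := by
    have := hp.mono f (fun _ => 1) hf (Loc.const _) fun σ => (h01 σ).2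
    rwa [hm.one] at this
  have v0 : 0 ≤ m (fun σ => cv 1 (fun τ => f τ - m f) σ * cv 1 (fun τ => f τ - m f) σ) :=
    hQ.nonneg 1
  have v1 : m (fun σ => cv 1 (fun τ => f τ - m f) σ * cv 1 (fun τ => f τ - m f) σ) ≤ 1 := by
    have := hp.mono _ (fun _ => 1) ((hg.cv 1).mul (hg.cv 1)) (Loc.const _) fun σ => by
      rw [cv_one]
      have := h01 σ
      nlinarith
    rwa [hm.one] at this
  have w0 : 0 ≤ m (fun σ => cv (ww ^ ((q + 1) * n)) f σ * cv (ww ^ ((q + 1) * n)) f σ) -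
      m f * m f := by
    rw [← cov_eq hm (prob_ww.pow ((q + 1) * n)) hf hf]
    exact hQ.nonneg _
  have h5 := h4.trans ((mul_le_of_le_one_right w0 (pow_le_one₀ v0 v1)).trans H)
  have h6 := (pow_le_pow_iff_left₀ (hQ.nonneg (ww ^ n)) hθ (Nat.succ_ne_zero q)).1 h5
  simpa only [sq] using h6

theorem var_nonneg (hm : St m) {u : A} (hu : Prob u) {f : Cfg → ℝ} (hf : Loc f) :
    0 ≤ m (fun σ => cv u f σ * cv u f σ) - m f * m f := by
  rw [← cov_eq hm hu hf hf]
  exact (hm.toLin.psd (hf.sub (Loc.const _))).nonneg u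

end

end Pool.Agent.BA.VLOGB

namespace Pool.Agent.BA

theorem st_vlog (hpsd : St_PSD) : St_VLOG := by
  intro m hm n q θ hθ H
  have hp := hm.toLin.toPos
  have hw := prob_ww.pow ((q + 1) * n)
  have e : m (NN ((q + 1) * n)) =
      m (fun σ => cv (ww ^ ((q + 1) * n)) fa σ * cv (ww ^ ((q + 1) * n)) fa σ) +
      m (fun σ => cv (ww ^ ((q + 1) * n)) fb σ * cv (ww ^ ((q + 1) * n)) fb σ) := by
    rw [← hp.add _ _ ((loc_fa.cv _).mul (loc_fa.cv _)) ((loc_fb.cv _).mul (loc_fb.cv _))]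
    exact hp.congr fun σ => by simp only [NN, sq]
  have na := VLOGB.var_nonneg hm hw loc_fa
  have nb := VLOGB.var_nonneg hm hw loc_fb
  rw [e] at H
  have ha := VLOGB.var_le hpsd hm loc_fa (fun σ => ⟨ind_nonneg _, ind_le_one _⟩) n q hθ
    (by nlinarith)
  have hb := VLOGB.var_le hpsd hm loc_fb (fun σ => ⟨ind_nonneg _, ind_le_one _⟩) n q hθ
    (by nlinarith)
  have la : Loc (cv (ww ^ n) fun τ => fa τ - m fa) := (loc_fa.sub (Loc.const _)).cv _
  have lb : Loc (cv (ww ^ n) fun τ => fb τ - m fb) := (loc_fb.sub (Loc.const _)).cv _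
  have hcs := hp.cs la lb
  rw [VLOGB.cov_eq hm (prob_ww.pow n) loc_fa loc_fb] at hcs
  have a0 := hp.nonneg (la.pow 2) fun σ => sq_nonneg _
  have b0 := hp.nonneg (lb.pow 2) fun σ => sq_nonneg _
  have h2 := hcs.trans (mul_le_mul ha hb b0 hθ)
  rw [← sq] at h2
  have := (abs_le_of_sq_le_sq' h2 hθ).1
  linarith

end Pool.Agent.BA
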