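import Pool.Agent.Lib.BA.Blue

/-! Block VPROP: propagation of the smoothed second moment. -/

open Finset Filter Topology MeasureTheory

namespace Pool.Agent.BA

namespace VpropB

lemma nn_eq {m : (Cfg → ℝ) → ℝ} (hm : St m) (j : ℕ) :
    m (NN j) = m (fun σ => cv (ww ^ j) fa σ * cv (ww ^ j) fa σ) +
      m (fun σ => cv (ww ^ j) fb σ * cv (ww ^ j) fb σ) := by
  rw [← hm.add _ _ ((loc_fa.cv _).mul (loc_fa.cv _)) ((loc_fb.cv _).mul (loc_fb.cv _))]
  exact hm.toPos.congr fun σ => by simp only [NN, sq]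

lemma nn_anti (hpsd : St_PSD) {m : (Cfg → ℝ) → ℝ} (hm : St m) (j : ℕ) :
    m (NN (j + 1)) ≤ m (NN j) := by
  have h1 := (hpsd _ (hm.toLin.psd loc_fa) (ww ^ j)).1
  have h2 := (hpsd _ (hm.toLin.psd loc_fb) (ww ^ j)).1
  have h3 := (hm.toLin.psd loc_fa).nonneg (dX * ww ^ j)
  have h4 := (hm.toLin.psd loc_fb).nonneg (dX * ww ^ j)
  rw [nn_eq hm, nn_eq hm, pow_succ']
  linarith

lemma step (hpsd : St_PSD) {m : ℝ → (Cfg → ℝ) → ℝ} (hm : SFlow m) {e : ℝ → ℝ} {k : ℕ}
    (he : ContinuousOn e (Set.Ici 0))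
    (hd : ∀ r, 0 < r → ∀ i, k ≤ i → m r (gen (NN i)) ≤ 6 * (m r (NN k) - m r (NN (k + 1))) + e r)
    {a b : ℝ} (ha : 0 ≤ a) (hab : a ≤ b) (hb : b - a ≤ 1 / 8) :
    m b (NN (k + 1)) ≤ m a (NN k) + ∫ r in a..b, e r := by
  have hsub : Set.Icc a b ⊆ Set.Ici 0 := fun r hr => ha.trans hr.1
  have c1 := (hm.cont _ (loc_NN k)).mono hsub
  have c2 := (hm.cont _ (loc_NN (k + 1))).mono hsub
  have h := intervalIntegral.sub_le_integral_of_hasDeriv_right_of_le
    (g := fun r => (1 - 8 * (r - a)) * m r (NN k) + 8 * (r - a) * m r (NN (k + 1)))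
    (g' := fun r => (-8 * m r (NN k) + (1 - 8 * (r - a)) * m r (gen (NN k))) +
      (8 * m r (NN (k + 1)) + 8 * (r - a) * m r (gen (NN (k + 1))))) (φ := e) hab
    (((continuousOn_const.sub (continuousOn_const.mul (continuousOn_id.sub continuousOn_const))).mul
      c1).add ((continuousOn_const.mul (continuousOn_id.sub continuousOn_const)).mul c2))
    (fun r hr => ?_) ((he.mono hsub).integrableOn_compact isCompact_Icc) (fun r hr => ?_)
  · have h1 := nn_anti hpsd (hm.st b (ha.trans hab)) k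
    simp only [sub_self, mul_zero, sub_zero, one_mul, zero_mul, add_zero] at h
    have h2 : 0 ≤ (1 - 8 * (b - a)) * (m b (NN k) - m b (NN (k + 1))) :=
      mul_nonneg (by linarith) (by linarith)
    linarith
  · have hr0 : 0 < r := ha.trans_lt hr.1
    have d0 : HasDerivAt (fun r : ℝ => 8 * (r - a)) 8 r := by
      simpa using ((hasDerivAt_id r).sub_const a).const_mul 8
    have d1 : HasDerivAt (fun r : ℝ => 1 - 8 * (r - a)) (-8) r := d0.const_sub 1
    exact ((d1.mul (hm.deriv _ (loc_NN k) r hr0)).add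
      (d0.mul (hm.deriv _ (loc_NN (k + 1)) r hr0))).hasDerivWithinAt
  · have hr0 : 0 < r := ha.trans_lt hr.1
    have h1 := hd r hr0 k le_rfl
    have h2 := hd r hr0 (k + 1) (Nat.le_succ k)
    have h3 := nn_anti hpsd (hm.st r hr0.le) k
    have h4 : 0 ≤ 8 * (r - a) := by linarith [hr.1]
    have h5 : 0 ≤ 1 - 8 * (r - a) := by linarith [hr.2]
    have h6 := mul_le_mul_of_nonneg_left h1 h5
    have h7 := mul_le_mul_of_nonneg_left h2 h4
    nlinarith

end VpropB

theorem st_vprop (hvder : St_VDER) (hpsd : St_PSD) : St_VPROP := by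
  obtain ⟨C, hC, hv⟩ := hvder
  refine ⟨C, hC, fun m hm t s n j ht hts hj => ?_⟩
  have cK := hm.cont _ loc_fK
  have cU : ContinuousOn (fun r => m r fU + m r fO) (Set.Ici 0) :=
    (hm.cont _ loc_fU).add (hm.cont _ loc_fO)
  have he : ContinuousOn (fun r => C / (n + 1) * m r fK + C * (m r fU + m r fO)) (Set.Ici 0) :=
    (continuousOn_const.mul cK).add (continuousOn_const.mul cU)
  have hint : ∀ {f : ℝ → ℝ}, ContinuousOn f (Set.Ici 0) → ∀ a b, 0 ≤ a → a ≤ b →
      IntervalIntegrable f volume a b := fun hf a b ha hab =>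
    (hf.mono fun r hr => ha.trans (Set.uIcc_of_le hab ▸ hr).1).intervalIntegrable
  have key : ∀ i : ℕ, ∀ s, t ≤ s → s ≤ t + i / 8 → m s (NN (n + i)) ≤ m t (NN n) +
      ∫ r in t..s, (C / (n + 1) * m r fK + C * (m r fU + m r fO)) := by
    intro i
    induction i with
    | zero =>
      intro s h1 h2
      have : s = t := le_antisymm (by simpa using h2) h1
      simp [this]
    | succ i ih =>
      intro s h1 h2
      push_cast at h2
      have h3 : t ≤ max t (s - 1 / 8) := le_max_left _ _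
      have h4 : max t (s - 1 / 8) ≤ s := max_le h1 (by linarith)
      have h5 : max t (s - 1 / 8) ≤ t + i / 8 :=
        max_le (le_add_of_nonneg_right (by positivity)) (by linarith)
      have h6 := ih _ h3 h5
      have h7 := VpropB.step hpsd hm (k := n + i) he (fun r hr l hl => ?_) (ht.trans h3) h4
        (by linarith [le_max_right t (s - 1 / 8)])
      · rw [← intervalIntegral.integral_add_adjacent_intervals (hint he _ _ ht h3)
          (hint he _ _ (ht.trans h3) h4), ← add_assoc n i 1]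
        linarith
      · have h8 := hv _ (hm.st r hr.le) (n + i) l hl
        have h9 : 0 ≤ m r fK := (hm.st r hr.le).toPos.nonneg loc_fK fun _ => ind_nonneg _
        have h10 : C * m r fK / (((n + i : ℕ) : ℝ) + 1) ≤ C / (n + 1) * m r fK := by
          rw [div_mul_eq_mul_div]
          gcongr
          exact Nat.le_add_right n i
        linarith
  have hnj : n ≤ j := by
    have : (n : ℝ) ≤ j := by linarith
    exact_mod_cast this
  obtain ⟨i, rfl⟩ := Nat.exists_eq_add_of_le hnj
  push_cast at hj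
  have h := key i s hts (by linarith)
  rw [intervalIntegral.integral_add ((hint cK _ _ ht hts).const_mul _)
    ((hint cU _ _ ht hts).const_mul _), intervalIntegral.integral_const_mul,
    intervalIntegral.integral_const_mul] at h
  linarith

end Pool.Agent.BA
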