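import Pool.Agent.Lib.BA.Blue

/-! Block WIN: the window estimates at a good epoch. -/

open Finset MeasureTheory

namespace Pool.Agent.BA

namespace WINB

theorem Lb_add (b k : ℕ) : Lb (b + k) = Lb b ^ 2 ^ k := by
  rw [Lb, Lb, pow_add, pow_mul]

theorem lt_Lb (b : ℕ) : b < Lb b := Nat.lt_two_pow_self.trans Nat.lt_two_pow_self

theorem Lb_mono : Monotone Lb := fun _ _ h =>
  Nat.pow_le_pow_right two_pos (Nat.pow_le_pow_right two_pos h)

theorem split {m : ℝ → (Cfg → ℝ) → ℝ} (hm : SFlow m) {t T ε : ℝ} (ht : 0 ≤ t) (hT : 0 ≤ T)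
    {f G Sp : Cfg → ℝ} (hf : Loc f) (hG : Loc G) (hS : Sparse ε Sp) (h : ∀ σ, f σ ≤ G σ + Sp σ) :
    ∫ r in t..t + T, m r f ≤ (∫ r in t..t + T, m r G) + T * ε := by
  have h1 : t ≤ t + T := by linarith
  have ii : ∀ f, Loc f → IntervalIntegrable (fun s => m s f) volume t (t + T) := fun f hf =>
    ((hm.cont f hf).mono fun s hs => ht.trans hs.1).intervalIntegrable_of_Icc h1
  have h2 := intervalIntegral.integral_mono_on (g := fun r => m r G + ε) h1 (ii f hf)
    ((ii G hG).add intervalIntegrable_const) fun r hr => by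
      have a0 := ht.trans hr.1
      have a1 := (hm.pos r a0).mono _ _ hf (hG.add hS.1) h
      rw [(hm.pos r a0).add _ _ hG hS.1] at a1
      linarith [hS.2 _ (hm.st r a0)]
  rwa [intervalIntegral.integral_add (ii G hG) intervalIntegrable_const,
    intervalIntegral.integral_const, add_sub_cancel_left, smul_eq_mul] at h2

end WINB

open WINB in
theorem st_win (hharm : St_HARM) (hrec : St_REC) (hodec : St_ODEC) (hkdom : St_KDOM)
    (hdfun : St_DFUN) (henergy : St_ENERGY) : St_WIN := by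
  intro m hm A δ hδ b0
  have mono : ∀ s s', 0 ≤ s → s ≤ s' → m s' fe ≤ m s fe := fun s s' a1 a2 => by
    have := henergy m hm s s' a1 a2
    have a3 : 0 ≤ ∫ r in s..s', m r fU := intervalIntegral.integral_nonneg a2 fun r hr =>
      (hm.pos _ (a1.trans hr.1)).nonneg loc_fU fun _ => ind_nonneg _
    linarith
  obtain ⟨K, hK, hrec⟩ := hrec
  obtain ⟨C, hC, hodec⟩ := hodec
  obtain ⟨w, hw⟩ := exists_nat_ge (64 * A / δ)
  obtain ⟨K', hK', hkdom⟩ := hkdom w
  have hA : (0 : ℝ) ≤ A := Nat.cast_nonneg _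
  obtain ⟨M, hM⟩ : ∃ M : ℝ, M = 3 * (1 + C * (K + 1) + K') := ⟨_, rfl⟩
  have hCK : 0 ≤ C * (K + 1) := by positivity
  have hM1 : 1 ≤ M := by linarith
  have hM0 : 0 < M := by linarith
  obtain ⟨b1, hb1⟩ := exists_nat_ge ((40 * M + 64 * A) / δ + A + 2)
  obtain ⟨b, hb, he⟩ := hharm (fun b => m (Lb b) fe)
    (fun b b' h => mono _ _ (Nat.cast_nonneg _) (by exact_mod_cast Lb_mono h))
    (fun b => (hm.pos _ (Nat.cast_nonneg _)).nonneg loc_fe fun _ =>
      add_nonneg (ind_nonneg _) (ind_nonneg _)) (δ / (4 * M)) (by positivity) (max b0 b1)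
  refine ⟨b, le_of_max_le_left hb, ?_⟩
  have e4 : ((Lb (b + 4) : ℕ) : ℝ) = (Lb b : ℝ) ^ 16 := by rw [Lb_add]; norm_num
  have e6 : ((Lb (b + 6) : ℕ) : ℝ) = (Lb b : ℝ) ^ 64 := by rw [Lb_add]; norm_num
  have hbt : (b : ℝ) < Lb b := by exact_mod_cast lt_Lb b
  have hb1' : (b1 : ℝ) ≤ b := by exact_mod_cast le_of_max_le_right hb
  have hrec' := hrec (b + 4)
  have hod := hodec (Lb (b + 4))
  simp only [e4, e6, Nat.cast_pow] at he hrec' hod ⊢
  generalize (Lb b : ℝ) = t at *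
  have q0 : 0 ≤ (40 * M + 64 * A) / δ := by positivity
  have ht2 : 2 ≤ t := by linarith
  have ht1 : 1 ≤ t := by linarith
  have ht0 : 0 < t := by linarith
  have htA : (A : ℝ) ≤ t := by linarith
  have q1 : 40 * M + 64 * A ≤ t * δ := (div_le_iff₀ hδ).1 (by linarith)
  have pw : ∀ {i j : ℕ}, i ≤ j → t ^ i ≤ t ^ j := fun h => pow_le_pow_right₀ ht1 h
  have big : ∀ {x : ℝ}, x ≤ t ^ 48 → t + x ≤ t ^ 64 := fun hx => by
    have a1 := pw (show 1 ≤ 48 by norm_num)
    have a2 := pw (show 48 + 1 ≤ 64 by norm_num)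
    have a3 := mul_le_mul_of_nonneg_left ht2 (show 0 ≤ t ^ 48 by positivity)
    rw [pow_one] at a1
    rw [pow_succ] at a2
    linarith
  have hT0 : 0 ≤ A * t ^ 7 := by positivity
  have hT : A * t ^ 7 ≤ t ^ 8 := by
    rw [pow_succ' t 7]; exact mul_le_mul_of_nonneg_right htA (by positivity)
  set lam : ℝ := 1 / (2 * (t ^ 16) ^ 2) with hlam
  have l0 : 0 < lam := by positivity
  have l2 : lam * t ^ 32 = 1 / 2 := by rw [hlam]; field_simp
  have l1 : lam ≤ 1 := by nlinarith [one_le_pow₀ (n := 32) ht1]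
  have l3 : lam * (A * t ^ 7) ≤ 1 := by
    nlinarith [hT.trans (pw (show 8 ≤ 32 by norm_num))]
  obtain ⟨D, hD, hI, hU⟩ := hdfun m hm t lam ht0.le l0
  have hb0 : (0 : ℝ) ≤ b := Nat.cast_nonneg _
  have hDU := hD.fU_nonneg
  have u1 : (b + 5) * D fU ≤ δ / (2 * M) := by
    have a1 := hU (t ^ 48) (by positivity)
    have a2 := mono _ _ (by positivity) (big le_rfl)
    have a3 : Real.exp (-(lam * t ^ 48)) ≤ 2 / t ^ 2 := by
      have a4 : lam * t ^ 48 = t ^ 16 / 2 := by rw [hlam]; field_simp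
      have a5 := Real.add_one_le_exp (t ^ 16 / 2)
      have a6 := pw (show 2 ≤ 16 by norm_num)
      rw [a4, Real.exp_neg, inv_eq_one_div, div_le_div_iff₀ (Real.exp_pos _) (by positivity)]
      linarith
    have a4 : ((b : ℝ) + 5) * (2 / t ^ 2) ≤ δ / (4 * M) := by
      rw [← mul_div_assoc, div_le_div_iff₀ (by positivity) (by positivity)]
      have a5 : ((b : ℝ) + 5) * 2 * (4 * M) ≤ t * (40 * M) := by nlinarith
      nlinarith [mul_le_mul_of_nonneg_left q1 ht0.le, mul_nonneg ht0.le hA]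
    have a5 := mul_le_mul_of_nonneg_left (show D fU ≤ (m t fe - m (t ^ 64) fe) / 2 + 2 / t ^ 2 by
      linarith) (show (0 : ℝ) ≤ b + 5 by positivity)
    have a6 : δ / (2 * M) = 2 * (δ / (4 * M)) := by field_simp; norm_num
    have a7 : 0 < δ / (4 * M) := by positivity
    linarith
  rw [le_div_iff₀ (by positivity)] at u1
  have u2 : 0 ≤ (b + 5) * D fU := by positivity
  refine ⟨?_, ?_, ?_⟩
  · obtain ⟨G, Sp, g1, g2, g3, g4⟩ := hod lam _ l0.le l1 (by positivity) (hrec' lam l0.le le_rfl)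
    have a1 := split hm ht0.le hT0 (loc_fU.add loc_fO) (loc_fU.add g1.1) g2 fun σ => by
      linarith [g4 σ]
    have a2 := hI _ _ (loc_fU.add g1.1) (fun σ => add_nonneg (ind_nonneg _) (g3 σ)) hT0 l3
    have a3 := ((Dom.fU lam).add g1).2 D hD
    have a4 : A * t ^ 7 * (16 / (t ^ 16 + 1)) ≤ δ / 4 := by
      rw [← mul_div_assoc, div_le_div_iff₀ (by positivity) (by positivity)]
      have a5 := mul_le_mul_of_nonneg_left (pw (show 7 + 1 ≤ 16 by norm_num)) hδ.le
      rw [pow_succ] at a5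
      nlinarith [mul_le_mul_of_nonneg_left q1 (show 0 ≤ t ^ 7 by positivity),
        mul_nonneg hM0.le (show 0 ≤ t ^ 7 by positivity)]
    have a5 : (1 + C * (K * (((b + 4 : ℕ) : ℝ) + 1) + 1)) * D fU ≤
        (1 + C * (K + 1)) * ((b + 5) * D fU) := by
      rw [← mul_assoc]
      refine mul_le_mul_of_nonneg_right ?_ hDU
      push_cast
      nlinarith [mul_nonneg hC hb0]
    rw [intervalIntegral.integral_congr (g := fun r => m r fun σ => fU σ + fO σ) fun r hr => by
      rw [Set.uIcc_of_le (by linarith)] at hr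
      exact ((hm.pos r (ht0.le.trans hr.1)).add _ _ loc_fU loc_fO).symm]
    nlinarith [mul_nonneg hK' u2]
  · obtain ⟨G, Sp, g1, g2, g3, g4⟩ := hkdom lam l0.le l1
    have a1 := split hm ht0.le hT0 loc_fK g1.1 g2 g4
    have a2 := hI _ _ g1.1 g3 hT0 l3
    have a3 := g1.2 D hD
    have a4 : A * (32 / ((w : ℝ) + 1)) ≤ δ / 2 := by
      rw [div_le_iff₀ hδ] at hw
      rw [← mul_div_assoc, div_le_div_iff₀ (by positivity) (by positivity)]
      linarith
    have a5 := mul_le_mul_of_nonneg_left a4 (show 0 ≤ t ^ 7 by positivity)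
    have a6 := mul_le_mul_of_nonneg_left (one_le_pow₀ (n := 7) ht1) hδ.le
    have a7 : K' * D fU ≤ K' * ((b + 5) * D fU) :=
      mul_le_mul_of_nonneg_left (le_mul_of_one_le_left hDU (by linarith)) hK'
    nlinarith [mul_nonneg hCK u2]
  · have a1 := mono _ _ (by positivity) (big (hT.trans (pw (show 8 ≤ 48 by norm_num))))
    have a2 := mono _ _ ht0.le (pw (show 1 ≤ 64 by norm_num) |>.trans' (pow_one t).ge)
    have a3 : δ / (4 * M) ≤ δ := div_le_self hδ.le (by linarith)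
    nlinarith

end Pool.Agent.BA
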