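import Pool.Agent.Lib.BA.Blue

/-! The zero range potential. -/

open Finset

namespace Pool.Agent.BA

noncomputable section
open Classical

namespace ZRPB

theorem az_nonneg (h : St_HEAT) (m r : ℕ) : 0 ≤ Az m r :=
  prod_nonneg fun s _ => by linarith [((h m).1 s 1).2]

theorem az_exp (h : St_HEAT) {k r : ℕ} (hk : 2 ≤ k) (hr : 8 * r ≤ k ^ 2) :
    Az (k ^ 2) r ≤ Real.exp (-(√(r : ℝ) / 16)) := by
  rcases Nat.eq_zero_or_pos r with rfl | h0
  · simp [Az]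
  have a1 : 2 ≤ Nat.sqrt (8 * r) := Nat.le_sqrt'.2 (by omega)
  have a2 : Nat.sqrt (8 * r) ≤ k := (Nat.sqrt_le_sqrt hr).trans (Nat.sqrt_eq' k).le
  have a3 : 8 * r < (Nat.sqrt (8 * r) + 1) ^ 2 := Nat.lt_succ_sqrt' _
  have a4 : Nat.sqrt (8 * r) ^ 2 ≤ 8 * r := Nat.sqrt_le' _
  set j := Nat.sqrt (8 * r) + 1 with hj
  have hjk : j ≤ k ^ 2 := by nlinarith
  have hj0 : (0 : ℝ) < j := by exact_mod_cast (by omega : 0 < j)
  have b1 : (j : ℝ) ≤ 4 * √(r : ℝ) := by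
    have : (j : ℝ) ^ 2 ≤ 16 * r := by
      have : j ^ 2 ≤ 18 * r := by nlinarith
      have h3 : 4 * j ^ 2 ≤ 64 * r := by
        rcases (by omega : Nat.sqrt (8 * r) = 2 ∨ 3 ≤ Nat.sqrt (8 * r)) with h4 | h4
        · rw [hj, h4]; omega
        · nlinarith
      exact_mod_cast (by omega : j ^ 2 ≤ 16 * r)
    refine (sq_le_sq₀ hj0.le (by positivity)).1 ?_
    rwa [mul_pow, Real.sq_sqrt (by positivity), show (4 : ℝ) ^ 2 = 16 by norm_num]
  have b2 : Az (k ^ 2) r ≤ ∏ _s ∈ Icc 1 r, Real.exp (-(1 / (j : ℝ) / 4)) := by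
    refine prod_le_prod (fun s _ => by linarith [((h (k ^ 2)).1 s 1).2]) fun s hs => ?_
    have := (h (k ^ 2)).2.2 j s 1 (by omega) hjk (by have := (mem_Icc.1 hs).2; omega) le_rfl
      (by nlinarith)
    linarith [Real.add_one_le_exp (-(1 / (j : ℝ) / 4))]
  rw [prod_const, Nat.card_Icc, Nat.add_sub_cancel, ← Real.exp_nat_mul] at b2
  refine b2.trans (Real.exp_le_exp.2 ?_)
  have b3 : √(r : ℝ) * √(r : ℝ) = r := Real.mul_self_sqrt (by positivity)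
  have b4 : √(r : ℝ) / 4 ≤ r * (1 / (j : ℝ)) := by
    rw [mul_one_div, le_div_iff₀ hj0]
    nlinarith [Real.sqrt_nonneg (r : ℝ)]
  linarith

theorem exp_sqrt_le (r : ℕ) : Real.exp (-(√(r : ℝ) / 16)) ≤ 96 * 16 ^ 4 / ((r : ℝ) + 1) ^ 2 := by
  rw [le_div_iff₀ (by positivity)]
  rcases Nat.eq_zero_or_pos r with rfl | h0
  · simp; norm_num
  have h1 : (1 : ℝ) ≤ r := by exact_mod_cast h0
  have h2 := Real.pow_div_factorial_le_exp (√(r : ℝ) / 16) (by positivity) 4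
  have h3 : (√(r : ℝ) / 16) ^ 4 = (r : ℝ) ^ 2 / 16 ^ 4 := by
    rw [div_pow, show 4 = 2 * 2 from rfl, pow_mul, Real.sq_sqrt (by positivity)]
  rw [h3, show ((Nat.factorial 4 : ℕ) : ℝ) = 24 by norm_num [Nat.factorial]] at h2
  rw [Real.exp_neg, inv_mul_le_iff₀ (Real.exp_pos _)]
  nlinarith

theorem sum_inv_sq (n : ℕ) :
    ∑ r ∈ range n, 1 / ((r : ℝ) + 1) ^ 2 ≤ 2 - 1 / ((n : ℝ) + 1 / 2) := by
  induction n with
  | zero => norm_num
  | succ n ih =>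
    rw [sum_range_succ]
    have : 1 / ((n : ℝ) + 1) ^ 2 ≤ 1 / ((n : ℝ) + 1 / 2) - 1 / ((n : ℝ) + 1 + 1 / 2) := by
      rw [div_sub_div _ _ (by positivity) (by positivity), div_le_div_iff₀ (by positivity)
        (by positivity)]
      nlinarith
    push_cast
    linarith

theorem sum_az (h : St_HEAT) {k : ℕ} (hk : 2 ≤ k) :
    ∑ r ∈ range (k ^ 2 / 8 + 1), Az (k ^ 2) r ≤ 192 * 16 ^ 4 := by
  have h1 := sum_inv_sq (k ^ 2 / 8 + 1)
  have h2 : (0 : ℝ) ≤ 1 / (((k ^ 2 / 8 + 1 : ℕ) : ℝ) + 1 / 2) := by positivity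
  calc _ ≤ ∑ r ∈ range (k ^ 2 / 8 + 1), 96 * 16 ^ 4 * (1 / ((r : ℝ) + 1) ^ 2) :=
        sum_le_sum fun r hr => by
          rw [mul_one_div]
          exact (az_exp h hk (by have := mem_range.1 hr; omega)).trans (exp_sqrt_le r)
    _ ≤ _ := by rw [← mul_sum]; linarith

theorem wz_le (h : St_HEAT) {k : ℕ} (hk : 2 ≤ k) (n : ℕ → ℕ) {c : ℝ} (hc : 0 ≤ c)
    (hn : ∀ r, 8 * r ≤ k ^ 2 → ∏ i ∈ Ico 1 (k ^ 2), (1 - yz (k ^ 2) r i) ^ n i ≤ c) :
    Wz (k ^ 2) (k ^ 2 / 8 + 1) n ≤ 96 * 16 ^ 4 * c := by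
  have h1 : ∑ r ∈ range (k ^ 2 / 8 + 1), Az (k ^ 2) r *
      ∏ i ∈ Ico 1 (k ^ 2), (1 - yz (k ^ 2) r i) ^ n i ≤
      ∑ r ∈ range (k ^ 2 / 8 + 1), Az (k ^ 2) r * c := sum_le_sum fun r hr =>
    mul_le_mul_of_nonneg_left (hn r (by have := mem_range.1 hr; omega)) (az_nonneg h _ _)
  rw [← sum_mul] at h1
  have h2 := mul_le_mul_of_nonneg_right (sum_az h hk) hc
  unfold Wz
  linarith

end ZRPB

open ZRPB in
theorem st_zrp (hheat : St_HEAT) (hprod : St_PROD) : St_ZRP := by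
  obtain ⟨B, hB, hB0⟩ : ∃ B : ℝ, B = 96 * 16 ^ 4 ∧ 0 ≤ B := ⟨_, rfl, by norm_num⟩
  refine ⟨B, (69 + B) ^ 2, hB0, by positivity, fun ε h0 h1 => ?_⟩
  have hL : 0 ≤ Real.log (1 / ε) := Real.log_nonneg (by rw [le_div_iff₀ h0]; linarith)
  have hε : Real.exp (-Real.log (1 / ε)) = ε := by
    rw [Real.exp_neg, Real.exp_log (by positivity)]; simp
  set L := Real.log (1 / ε)
  obtain ⟨k, k1, k2, k3⟩ : ∃ k : ℕ, 4 ≤ k ∧ 64 * L + B ≤ k ∧ (k : ℝ) ≤ 64 * L + B + 5 := by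
    refine ⟨⌈64 * L + B⌉₊ + 4, by omega, ?_, ?_⟩
    · push_cast; linarith [Nat.le_ceil (64 * L + B)]
    · push_cast; linarith [Nat.ceil_lt_add_one (show 0 ≤ 64 * L + B by positivity)]
  have hk : 2 ≤ k := by omega
  have hk0 : (0 : ℝ) < k := by exact_mod_cast (by omega : 0 < k)
  have hm : 2 ≤ k ^ 2 := by nlinarith
  have y0 : ∀ r i, 0 ≤ 1 - yz (k ^ 2) r i := fun r i => by linarith [((hheat (k ^ 2)).1 r i).2]
  have y1 : ∀ r i, 1 - yz (k ^ 2) r i ≤ 1 := fun r i => by linarith [((hheat (k ^ 2)).1 r i).1]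
  refine ⟨k ^ 2, Wz (k ^ 2) (k ^ 2 / 8 + 1), hm, ?_, fun n => ?_, fun n => ?_, fun n n' h => ?_,
    fun n i i1 i2 i3 => ?_, fun n => (hprod _ _ n hm).trans ?_⟩
  · push_cast
    rw [← mul_pow]
    exact pow_le_pow_left₀ hk0.le (by nlinarith) 2
  · exact mul_nonneg (by norm_num) (sum_nonneg fun r _ => mul_nonneg (az_nonneg hheat _ _)
      (prod_nonneg fun i _ => pow_nonneg (y0 r i) _))
  · have := wz_le hheat hk n zero_le_one fun r _ =>
      prod_le_one (fun i _ => pow_nonneg (y0 r i) _) fun i _ => pow_le_one₀ (y0 r i) (y1 r i)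
    linarith
  · refine mul_le_mul_of_nonneg_left (sum_le_sum fun r _ => mul_le_mul_of_nonneg_left
      (prod_le_prod (fun i _ => pow_nonneg (y0 r i) _) fun i hi => ?_) (az_nonneg hheat _ _))
      (by norm_num)
    exact pow_le_pow_of_le_one (y0 r i) (y1 r i) (h i (mem_Ico.1 hi).1 (mem_Ico.1 hi).2)
  · have := wz_le hheat hk n (Real.exp_pos (-(k : ℝ))).le fun r hr => by
      have a1 : ∏ j ∈ Ico 1 (k ^ 2), (1 - yz (k ^ 2) r j) ^ n j ≤ (1 - yz (k ^ 2) r i) ^ n i := by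
        rw [← mul_prod_erase _ _ (mem_Ico.2 ⟨i1, i2⟩)]
        exact mul_le_of_le_one_right (pow_nonneg (y0 r i) _) (prod_le_one
          (fun j _ => pow_nonneg (y0 r j) _) fun j _ => pow_le_one₀ (y0 r j) (y1 r j))
      have a2 := (hheat (k ^ 2)).2.2 k r i hk (by nlinarith) hr i1 i2
      have a3 : 1 - yz (k ^ 2) r i ≤ Real.exp (-(1 / (k : ℝ))) := by
        linarith [Real.add_one_le_exp (-(1 / (k : ℝ)))]
      refine a1.trans ((pow_le_pow_of_le_one (y0 r i) (y1 r i) i3).trans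
        ((pow_le_pow_left₀ (y0 r i) a3 _).trans (le_of_eq ?_)))
      rw [← Real.exp_nat_mul]
      congr 1
      push_cast; field_simp
    rw [← hB] at this
    refine this.trans ?_
    have a4 : B ≤ Real.exp B := by linarith [Real.add_one_le_exp B]
    calc B * Real.exp (-(k : ℝ)) ≤ Real.exp B * Real.exp (-(k : ℝ)) := by gcongr
      _ ≤ Real.exp (-L) := by rw [← Real.exp_add]; exact Real.exp_le_exp.2 (by linarith)
      _ = ε := hε
  · have a1 := az_exp hheat hk (r := k ^ 2 / 8) (by omega)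
    have a2 : (k : ℝ) / 4 ≤ √((k ^ 2 / 8 : ℕ) : ℝ) := by
      refine Real.le_sqrt_of_sq_le ?_
      have a3 : 16 ≤ k ^ 2 := by nlinarith
      have a4 : ((k ^ 2 : ℕ) : ℝ) ≤ ((16 * (k ^ 2 / 8) : ℕ) : ℝ) := by exact_mod_cast (by omega)
      push_cast [-Nat.cast_div_charZero] at a4
      rw [div_pow]; linarith
    have a5 : Real.exp (-(√((k ^ 2 / 8 : ℕ) : ℝ) / 16)) ≤ Real.exp (-L) :=
      Real.exp_le_exp.2 (by linarith)
    linarith

end

end Pool.Agent.BA
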