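import Pool.Agent.Lib.BA.B_OSC
import Pool.Agent.Lib.BA.B_EULER
import Pool.Agent.Lib.BA.B_APX
import Pool.Agent.Lib.BA.B_UNIQ
import Pool.Agent.Lib.BA.B_COV
import Pool.Agent.Lib.BA.B_PSD
import Pool.Agent.Lib.BA.B_LSQ
import Pool.Agent.Lib.BA.B_GRAD
import Pool.Agent.Lib.BA.B_QV
import Pool.Agent.Lib.BA.B_REM
import Pool.Agent.Lib.BA.B_GT
import Pool.Agent.Lib.BA.B_FDER
import Pool.Agent.Lib.BA.B_PUR
import Pool.Agent.Lib.BA.B_VDER
import Pool.Agent.Lib.BA.B_VPROP
import Pool.Agent.Lib.BA.B_VINIT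
import Pool.Agent.Lib.BA.B_VLOG
import Pool.Agent.Lib.BA.B_ENERGY
import Pool.Agent.Lib.BA.B_HMAIN
import Pool.Agent.Lib.BA.B_MT
import Pool.Agent.Lib.BA.B_STEP
import Pool.Agent.Lib.BA.B_RED
import Pool.Agent.Lib.BA.B_SPARSE
import Pool.Agent.Lib.BA.B_NPW
import Pool.Agent.Lib.BA.B_CAP
import Pool.Agent.Lib.BA.B_KAP
import Pool.Agent.Lib.BA.B_KDOM
import Pool.Agent.Lib.BA.B_ODEC
import Pool.Agent.Lib.BA.B_ARM
import Pool.Agent.Lib.BA.B_CHAIN
import Pool.Agent.Lib.BA.B_HEAT
import Pool.Agent.Lib.BA.B_PROD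
import Pool.Agent.Lib.BA.B_ZRP
import Pool.Agent.Lib.BA.B_PAR1
import Pool.Agent.Lib.BA.B_PAR2
import Pool.Agent.Lib.BA.B_TRK
import Pool.Agent.Lib.BA.B_SS
import Pool.Agent.Lib.BA.B_SE
import Pool.Agent.Lib.BA.B_CUP
import Pool.Agent.Lib.BA.B_CDN
import Pool.Agent.Lib.BA.B_KILL
import Pool.Agent.Lib.BA.B_RESTN
import Pool.Agent.Lib.BA.B_RESTZ
import Pool.Agent.Lib.BA.B_LEFTN
import Pool.Agent.Lib.BA.B_LEFTZ
import Pool.Agent.Lib.BA.B_LEFT
import Pool.Agent.Lib.BA.B_PSI
import Pool.Agent.Lib.BA.B_VAL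
import Pool.Agent.Lib.BA.B_MASTER
import Pool.Agent.Lib.BA.B_FLUX
import Pool.Agent.Lib.BA.B_OWN
import Pool.Agent.Lib.BA.B_CHG
import Pool.Agent.Lib.BA.B_CAPDOM
import Pool.Agent.Lib.BA.B_REC
import Pool.Agent.Lib.BA.B_DFUN
import Pool.Agent.Lib.BA.B_HARM
import Pool.Agent.Lib.BA.B_WIN
import Pool.Agent.Lib.BA.B_CORE

/-! Assembly of sections U, H, P. -/

namespace Pool.Agent.BA

namespace All

theorem a_osc : St_OSC := st_osc
theorem a_euler : St_EULER := st_euler
theorem a_apx : St_APX := st_apx a_osc a_euler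
theorem a_uniq : St_UNIQ := st_uniq a_apx
theorem a_cov : St_COV := st_cov a_apx
theorem a_psd : St_PSD := st_psd
theorem a_lsq : St_LSQ := st_lsq a_psd
theorem a_grad : St_GRAD := st_grad
theorem a_qv : St_QV := st_qv
theorem a_rem : St_REM := st_rem a_psd
theorem a_gt : St_GT := st_gt a_grad
theorem a_fder : St_FDER := st_fder a_gt a_rem a_qv a_lsq
theorem a_pur : St_PUR := st_pur a_psd
theorem a_vder : St_VDER := st_vder a_gt a_rem a_qv a_lsq a_psd
theorem a_vprop : St_VPROP := st_vprop a_vder a_psd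
theorem a_vinit : St_VINIT := st_vinit a_psd
theorem a_vlog : St_VLOG := st_vlog a_psd
theorem a_energy : St_ENERGY := st_energy
theorem a_hmain : St_HMAIN := st_hmain a_fder a_pur a_vprop a_vlog a_energy
theorem a_mt : St_MT := st_mt
theorem a_step : St_STEP := st_step
theorem a_red : St_RED := st_red a_step
theorem a_sparse : St_SPARSE := st_sparse
theorem a_npw : St_NPW := st_npw
theorem a_cap : St_CAP := st_cap
theorem a_kap : St_KAP := st_kap a_cap
theorem a_kdom : St_KDOM := st_kdom a_kap a_red a_sparse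
theorem a_odec : St_ODEC := st_odec a_npw a_red a_sparse
theorem a_arm : St_ARM := st_arm a_step a_mt a_npw
theorem a_chain : St_CHAIN := st_chain a_arm a_red a_npw
theorem a_heat : St_HEAT := st_heat
theorem a_prod : St_PROD := st_prod a_heat
theorem a_zrp : St_ZRP := st_zrp a_heat a_prod
theorem a_par1 : St_PAR1 := st_par1
theorem a_par2 : St_PAR2 := st_par2 a_par1
theorem a_trk : St_TRK := st_trk
theorem a_ss : St_SS := st_ss a_trk a_npw
theorem a_se : St_SE := st_se
theorem a_cup : St_CUP := st_cup a_par1 a_trk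
theorem a_cdn : St_CDN := st_cdn a_par1
theorem a_kill : St_KILL := st_kill
theorem a_restn : St_RESTN := st_restn a_par1 a_trk a_ss a_se a_npw
theorem a_restz : St_RESTZ := st_restz a_par1 a_trk a_ss a_se a_npw a_cup a_cdn
theorem a_leftn : St_LEFTN := st_leftn a_par1 a_trk a_cup a_cdn a_kill a_restn
theorem a_leftz : St_LEFTZ := st_leftz a_par1 a_trk a_cup a_cdn a_kill a_restz
theorem a_left : St_LEFT := st_left a_par2 a_leftn a_leftz
theorem a_psi : St_PSI := st_psi a_par1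
theorem a_val : St_VAL := st_val a_par1 a_psi
theorem a_master : St_MASTER := st_master a_left a_val a_psi a_npw a_cap
theorem a_flux : St_FLUX := st_flux a_psi
theorem a_own : St_OWN := st_own
theorem a_chg : St_CHG := st_chg a_mt a_own
theorem a_capdom : St_CAPDOM := st_capdom a_zrp a_master a_flux a_chg a_psi a_red a_cap
theorem a_rec : St_REC := st_rec a_capdom a_chain a_cap a_red
theorem a_dfun : St_DFUN := st_dfun a_energy
theorem a_harm : St_HARM := st_harm
theorem a_win : St_WIN := st_win a_harm a_rec a_odec a_kdom a_dfun a_energy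
theorem a_core : St_CORE := st_core a_uniq a_cov a_hmain a_win a_vinit a_energy

end All

end Pool.Agent.BA
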