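import Pool.Agent.Lib.BA.Blue

/-! One Euler step. -/

open Finset

namespace Pool.Agent.BA

noncomputable section
open Classical

namespace OscB

/-- resampling of the spin at `x` -/
def tt (x : V) (f : Cfg → ℝ) (σ : Cfg) : ℝ := rate σ x * f (flp σ x) + (1 - rate σ x) * f σ

theorem eul_eq (h : ℝ) (S : Finset V) (f : Cfg → ℝ) (σ : Cfg) :
    eul h S f σ = (1 - h * S.card) * f σ + h * ∑ x ∈ S, tt x f σ := by
  have : ∑ x ∈ S, tt x f σ = genOn S f σ + S.card * f σ := by
    rw [genOn, ← nsmul_eq_mul, ← sum_const, ← sum_add_distrib]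
    exact sum_congr rfl fun x _ => by unfold tt; ring
  rw [this, eul]; ring

theorem conv_le {r a b M : ℝ} (h0 : 0 ≤ r) (h1 : r ≤ 1) (ha : |a| ≤ M) (hb : |b| ≤ M) :
    |r * a + (1 - r) * b| ≤ M := by
  have h2 : 0 ≤ 1 - r := by linarith
  refine (abs_add_le _ _).trans ?_
  rw [abs_mul, abs_mul, abs_of_nonneg h0, abs_of_nonneg h2]
  nlinarith [mul_le_mul_of_nonneg_left ha h0, mul_le_mul_of_nonneg_left hb h2]

theorem dis_flp (σ : Cfg) (x : V) : dis (flp σ x) x + dis σ x = 4 := by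
  have h : ∀ d : V, d ≠ 0 → flp σ x (x + d) = σ (x + d) := fun d hd =>
    flp_ne σ fun e => hd (by simpa using e)
  unfold dis
  rw [h _ (by decide), h _ (by decide), h _ (by decide), h _ (by decide), flp_self]
  generalize σ (x + (1, 0)) = a, σ (x + (-1, 0)) = b, σ (x + (0, 1)) = c, σ (x + (0, -1)) = d,
    σ x = e
  cases a <;> cases b <;> cases c <;> cases d <;> cases e <;> simp

theorem rate_flp (σ : Cfg) (x : V) : rate (flp σ x) x = 1 - rate σ x := by
  have := dis_flp σ x
  unfold rate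
  split_ifs <;> first | omega | norm_num

theorem rate_congr {σ σ' : Cfg} {x : V} (h0 : σ x = σ' x) (h : ∀ y ∈ nbrs x, σ y = σ' y) :
    rate σ x = rate σ' x := by
  unfold rate dis
  rw [h0, h (x + (1, 0)) (by simp [nbrs]), h (x + (-1, 0)) (by simp [nbrs]),
    h (x + (0, 1)) (by simp [nbrs]), h (x + (0, -1)) (by simp [nbrs])]

theorem nbrs_symm {x y : V} (h : y ∈ nbrs x) : x ∈ nbrs y := by
  obtain ⟨a, b⟩ := x
  obtain ⟨c, d⟩ := y
  simp only [nbrs, mem_insert, mem_singleton, Prod.mk_add_mk, Prod.mk.injEq] at h ⊢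
  omega

theorem flp_comm (σ : Cfg) {x u : V} (h : x ≠ u) : flp (flp σ u) x = flp (flp σ x) u := by
  funext y
  by_cases h1 : y = x
  · subst h1; rw [flp_self, flp_ne _ h, flp_ne _ h, flp_self]
  · by_cases h2 : y = u
    · subst h2; rw [flp_ne _ h1, flp_self, flp_self, flp_ne _ h1]
    · rw [flp_ne _ h1, flp_ne _ h2, flp_ne _ h2, flp_ne _ h1]

theorem tt_osc {f : Cfg → ℝ} {β : V → ℝ} (hf : Osc f β) (x u : V) (σ : Cfg) :
    |tt x f (flp σ u) - tt x f σ| ≤ β u + if x ∈ nbrs u then β x else 0 := by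
  have hβ : ∀ y, 0 ≤ β y := fun y => (abs_nonneg _).trans (hf y σ)
  have h0 : 0 ≤ if x ∈ nbrs u then β x else 0 := by split_ifs; exacts [hβ x, le_rfl]
  by_cases h : x = u
  · subst h
    have : tt x f (flp σ x) - tt x f σ = 0 := by rw [tt, tt, rate_flp, flp_flp]; ring
    rw [this, abs_zero]
    exact add_nonneg (hβ x) h0
  · have e : tt x f (flp σ u) - tt x f σ =
        (rate (flp σ u) x * (f (flp (flp σ x) u) - f (flp σ x)) +
          (1 - rate (flp σ u) x) * (f (flp σ u) - f σ)) +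
        (rate (flp σ u) x - rate σ x) * (f (flp σ x) - f σ) := by
      rw [tt, tt, flp_comm σ h]; ring
    rw [e]
    refine (abs_add_le _ _).trans (add_le_add
      (conv_le (rate_nonneg _ _) (rate_le_one _ _) (hf u _) (hf u _)) ?_)
    split_ifs with hx
    · rw [abs_mul]
      refine (mul_le_mul (b := 1) ?_ (hf x σ) (abs_nonneg _) zero_le_one).trans (one_mul _).le
      rw [abs_le]
      constructor <;>
        linarith [rate_nonneg σ x, rate_le_one σ x, rate_nonneg (flp σ u) x, rate_le_one (flp σ u) x]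
    · rw [rate_congr (flp_ne σ h) fun y hy => flp_ne σ fun e => hx (nbrs_symm (e ▸ hy))]
      simp

end OscB

open OscB in
theorem st_osc : St_OSC := by
  intro h S f h0 h1
  have h2 : 0 ≤ 1 - h * S.card := by linarith
  refine ⟨fun M hM σ => ?_, fun β hβ u σ => ?_, fun z r hS hf σ σ' hσ => ?_⟩
  · rw [eul_eq]
    have h3 : |∑ x ∈ S, tt x f σ| ≤ S.card * M := by
      refine (abs_sum_le_sum_abs _ _).trans ?_
      rw [← nsmul_eq_mul]
      exact sum_le_card_nsmul _ _ _ fun x _ =>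
        conv_le (rate_nonneg _ _) (rate_le_one _ _) (hM _) (hM _)
    refine (abs_add_le _ _).trans ?_
    rw [abs_mul, abs_mul, abs_of_nonneg h0, abs_of_nonneg h2]
    nlinarith [mul_le_mul_of_nonneg_left (hM σ) h2, mul_le_mul_of_nonneg_left h3 h0]
  · have hβ0 : ∀ y, 0 ≤ β y := fun y => (abs_nonneg _).trans (hβ y σ)
    have e : eul h S f (flp σ u) - eul h S f σ = (1 - h * S.card) * (f (flp σ u) - f σ) +
        h * ∑ x ∈ S, (tt x f (flp σ u) - tt x f σ) := by
      rw [eul_eq, eul_eq, sum_sub_distrib]; ring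
    have h3 : |∑ x ∈ S, (tt x f (flp σ u) - tt x f σ)| ≤ S.card * β u + ∑ x ∈ nbrs u, β x := by
      refine (abs_sum_le_sum_abs _ _).trans ((sum_le_sum fun x _ => tt_osc hβ x u σ).trans ?_)
      rw [sum_add_distrib, sum_const, nsmul_eq_mul, sum_ite_mem]
      exact add_le_add le_rfl
        (sum_le_sum_of_subset_of_nonneg inter_subset_right fun x _ _ => hβ0 x)
    rw [e]
    refine (abs_add_le _ _).trans ?_
    rw [abs_mul, abs_mul, abs_of_nonneg h0, abs_of_nonneg h2]
    nlinarith [mul_le_mul_of_nonneg_left (hβ u σ) h2, mul_le_mul_of_nonneg_left h3 h0]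
  · unfold eul genOn
    rw [hf σ σ' hσ]
    refine congrArg (fun t => f σ' + h * t) (sum_congr rfl fun y hy => ?_)
    have hy' := mem_boxAt.1 (hS hy)
    have h3 : σ y = σ' y := hσ y (mem_boxAt.2 (by push_cast; omega))
    have h4 : rate σ y = rate σ' y := rate_congr h3 fun w hw => hσ w (mem_boxAt.2 (by
      obtain ⟨a, b⟩ := y
      obtain ⟨c, d⟩ := w
      simp only [nbrs, mem_insert, mem_singleton, Prod.mk_add_mk, Prod.mk.injEq] at hw hy' ⊢
      push_cast
      omega))
    have h5 : f (flp σ y) = f (flp σ' y) := hf _ _ fun w hw => by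
      by_cases e : w = y
      · rw [e, flp_self, flp_self, h3]
      · rw [flp_ne _ e, flp_ne _ e, hσ w hw]
    rw [h4, h5]

end

end Pool.Agent.BA
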