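import Pool.Agent.Lib.BA.Blue

/-! Block PROD: the product functions are a supersolution of the zero range generator. -/

open Finset

namespace Pool.Agent.BA

noncomputable section
open Classical

namespace ProdB

/-- the product function -/
def PP (S : Finset ℕ) (z : ℕ → ℝ) (n : ℕ → ℕ) : ℝ := ∏ i ∈ S, z i ^ n i

/-- the generator of the zero range process -/
def LL (m : ℕ) (f : (ℕ → ℕ) → ℝ) (n : ℕ → ℕ) : ℝ :=
  (f (ent n) - f n) / 2 +
    ∑ i ∈ Ico 1 m, ind (1 ≤ n i) * ((f (hop i (i - 1) n) - f n) / 2 + (f (hop i (i + 1) n) - f n) / 2)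

lemma ind_nn (p : Prop) : 0 ≤ ind p := by
  unfold ind; split_ifs <;> norm_num

lemma PP_nn (S : Finset ℕ) (z : ℕ → ℝ) (hz : ∀ i, 0 ≤ z i) (n : ℕ → ℕ) : 0 ≤ PP S z n :=
  prod_nonneg fun i _ => pow_nonneg (hz i) _

lemma PP_le (S : Finset ℕ) (z : ℕ → ℝ) (hz : ∀ i, 0 ≤ z i) (hz1 : ∀ i, z i ≤ 1) (n : ℕ → ℕ) :
    PP S z n ≤ 1 :=
  prod_le_one (fun i _ => pow_nonneg (hz i) _) fun i _ => pow_le_one₀ (hz i) (hz1 i)

lemma PP_congr (S : Finset ℕ) (z : ℕ → ℝ) (n n' : ℕ → ℕ) (h : ∀ i ∈ S, n i = n' i) :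
    PP S z n = PP S z n' :=
  prod_congr rfl fun i hi => by rw [h i hi]

lemma PP_insert (S : Finset ℕ) (z : ℕ → ℝ) (n : ℕ → ℕ) (a : ℕ) (ha : a ∉ S) :
    PP (insert a S) z n = z a ^ n a * PP S z n := by
  unfold PP; rw [prod_insert ha]

lemma PP_add (S : Finset ℕ) (z : ℕ → ℝ) (n : ℕ → ℕ) (j : ℕ) (hj : j ∉ S → z j = 1) :
    PP S z (Function.update n j (n j + 1)) = z j * PP S z n := by
  by_cases h : j ∈ S
  · have e : S = insert j (S.erase j) := (insert_erase h).symm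
    have hn : j ∉ S.erase j := notMem_erase j S
    rw [e, PP_insert _ _ _ _ hn, PP_insert _ _ _ _ hn, Function.update_self, pow_succ]
    rw [PP_congr (S.erase j) z _ n (fun i hi => Function.update_of_ne (ne_of_mem_erase hi) _ _)]
    ring
  · rw [hj h, one_mul]
    exact PP_congr S z _ n fun i hi => Function.update_of_ne (by rintro rfl; exact h hi) _ _

/-- removal of a particle -/
def rem (i : ℕ) (n : ℕ → ℕ) : ℕ → ℕ := Function.update n i (n i - 1)

lemma hop_eq (i j : ℕ) (n : ℕ → ℕ) (h : j ≠ i) :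
    hop i j n = Function.update (rem i n) j (rem i n j + 1) := by
  unfold hop rem
  rw [Function.update_of_ne h]

lemma self_eq (i : ℕ) (n : ℕ → ℕ) (h : 1 ≤ n i) :
    n = Function.update (rem i n) i (rem i n i + 1) := by
  unfold rem
  rw [Function.update_idem, Function.update_self, Nat.sub_add_cancel h, Function.update_eq_self]

lemma pow_lb (z d : ℝ) (hz : 0 ≤ z) (hd : 0 ≤ d) (k : ℕ) :
    z ^ k + ind (1 ≤ k) * (d * z ^ (k - 1)) ≤ (z + d) ^ k := by
  rcases k with _ | k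
  · simp [ind]
  · have h1 : ind (1 ≤ k + 1) = 1 := by simp [ind]
    rw [h1, Nat.add_sub_cancel, pow_succ, pow_succ]
    have : z ^ k ≤ (z + d) ^ k := pow_le_pow_left₀ hz (by linarith) k
    nlinarith [mul_le_mul_of_nonneg_right this (add_nonneg hz hd)]

lemma prod_lb (S : Finset ℕ) (z d : ℕ → ℝ) (hz : ∀ i, 0 ≤ z i) (hd : ∀ i, 0 ≤ d i) (n : ℕ → ℕ) :
    PP S z n + ∑ i ∈ S, ind (1 ≤ n i) * (d i * PP S z (rem i n)) ≤ PP S (fun i => z i + d i) n := by
  induction S using Finset.induction_on with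
  | empty => simp [PP]
  | insert a S ha ih =>
    rw [PP_insert _ _ _ _ ha, PP_insert _ _ _ _ ha, sum_insert ha, PP_insert _ _ _ _ ha]
    have e1 : rem a n a = n a - 1 := by unfold rem; rw [Function.update_self]
    have e2 : PP S z (rem a n) = PP S z n :=
      PP_congr S z _ n fun i hi => Function.update_of_ne (by rintro rfl; exact ha hi) _ _
    have e3 : ∑ i ∈ S, ind (1 ≤ n i) * (d i * PP (insert a S) z (rem i n)) =
        z a ^ n a * ∑ i ∈ S, ind (1 ≤ n i) * (d i * PP S z (rem i n)) := by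
      rw [mul_sum]
      refine sum_congr rfl fun i hi => ?_
      rw [PP_insert _ _ _ _ ha]
      have : rem i n a = n a := Function.update_of_ne (by rintro rfl; exact ha hi) _ _
      rw [this]; ring
    rw [e1, e2, e3]
    have hp := pow_lb (z a) (d a) (hz a) (hd a) (n a)
    have hT : 0 ≤ ∑ i ∈ S, ind (1 ≤ n i) * (d i * PP S z (rem i n)) :=
      sum_nonneg fun i _ => mul_nonneg (ind_nn _) (mul_nonneg (hd i) (PP_nn S z hz _))
    have hP := PP_nn S z hz n
    have hu : 0 ≤ ind (1 ≤ n a) * (d a * z a ^ (n a - 1)) :=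
      mul_nonneg (ind_nn _) (mul_nonneg (hd a) (pow_nonneg (hz a) _))
    have hw : 0 ≤ z a ^ n a := pow_nonneg (hz a) _
    have h1 := mul_le_mul hp ih (add_nonneg hP hT) (le_trans (add_nonneg hw hu) hp)
    nlinarith [mul_nonneg hu hT]

lemma yz_out (m r i : ℕ) (h : i ∉ Ico 1 m) : yz m r i = 0 := by
  have h' : ¬ (1 ≤ i ∧ i < m) := fun hh => h (mem_Ico.2 hh)
  rcases r with _ | r
  · simp only [yz]; rw [if_neg h']
  · simp only [yz]; rw [if_neg h']

/-- the product function at time `r` -/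
def Pi (m r : ℕ) (n : ℕ → ℕ) : ℝ := PP (Ico 1 m) (fun i => 1 - yz m r i) n

lemma LL_Pi (hheat : St_HEAT) (m r : ℕ) (n : ℕ → ℕ) :
    LL m (Pi m r) n ≤ 3 / 2 * (Pi m (r + 1) n - Pi m r n) - yz m r 1 / 2 * Pi m r n := by
  obtain ⟨h01, hmono, -⟩ := hheat m
  have hz : ∀ i, 0 ≤ 1 - yz m r i := fun i => by linarith [(h01 r i).2]
  have hd : ∀ i, 0 ≤ yz m r i - yz m (r + 1) i := fun i => by linarith [hmono r i]
  have key := prod_lb (Ico 1 m) (fun i => 1 - yz m r i) (fun i => yz m r i - yz m (r + 1) i) hz hd n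
  have e0 : PP (Ico 1 m) (fun i => 1 - yz m r i + (yz m r i - yz m (r + 1) i)) n = Pi m (r + 1) n := by
    unfold Pi
    have : (fun i => 1 - yz m r i + (yz m r i - yz m (r + 1) i)) = fun i => 1 - yz m (r + 1) i := by
      funext i; ring
    rw [this]
  rw [e0] at key
  have hadd : ∀ (n' : ℕ → ℕ) (j : ℕ),
      Pi m r (Function.update n' j (n' j + 1)) = (1 - yz m r j) * Pi m r n' := fun n' j =>
    PP_add (Ico 1 m) (fun i => 1 - yz m r i) n' j fun hj => by
      show 1 - yz m r j = 1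
      rw [yz_out m r j hj]; ring
  have e1 : Pi m r (ent n) = (1 - yz m r 1) * Pi m r n := hadd n 1
  have e2 : ∑ i ∈ Ico 1 m, ind (1 ≤ n i) * ((Pi m r (hop i (i - 1) n) - Pi m r n) / 2 +
      (Pi m r (hop i (i + 1) n) - Pi m r n) / 2) =
      3 / 2 * ∑ i ∈ Ico 1 m, ind (1 ≤ n i) * ((yz m r i - yz m (r + 1) i) * Pi m r (rem i n)) := by
    rw [mul_sum]
    refine sum_congr rfl fun i hi => ?_
    have hi' := mem_Ico.1 hi
    by_cases h : 1 ≤ n i
    · have a1 : Pi m r (hop i (i - 1) n) = (1 - yz m r (i - 1)) * Pi m r (rem i n) := by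
        rw [hop_eq i (i - 1) n (by omega)]; exact hadd _ _
      have a2 : Pi m r (hop i (i + 1) n) = (1 - yz m r (i + 1)) * Pi m r (rem i n) := by
        rw [hop_eq i (i + 1) n (by omega)]; exact hadd _ _
      have a3 : Pi m r n = (1 - yz m r i) * Pi m r (rem i n) := by
        rw [← hadd, ← self_eq i n h]
      have a4 : yz m (r + 1) i = (yz m r (i - 1) + yz m r i + yz m r (i + 1)) / 3 := by
        simp only [yz]; rw [if_pos hi']
      rw [a1, a2, a3, a4]; ring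
    · have : ind (1 ≤ n i) = 0 := by unfold ind; rw [if_neg h]
      rw [this]; ring
  unfold LL
  rw [e1, e2]
  have key' : Pi m r n + ∑ i ∈ Ico 1 m, ind (1 ≤ n i) *
      ((yz m r i - yz m (r + 1) i) * Pi m r (rem i n)) ≤ Pi m (r + 1) n := key
  linarith

lemma LL_sum (m : ℕ) (T : Finset ℕ) (a : ℕ → ℝ) (F : ℕ → (ℕ → ℕ) → ℝ) (c : ℝ) (n : ℕ → ℕ) :
    LL m (fun n => c * ∑ r ∈ T, a r * F r n) n = c * ∑ r ∈ T, a r * LL m (F r) n := by
  induction T using Finset.induction_on with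
  | empty => simp [LL]
  | insert b T hb ih =>
    simp only [sum_insert hb]
    rw [mul_add, ← ih]
    unfold LL
    rw [mul_add, mul_add, mul_sum, mul_sum, add_add_add_comm, ← sum_add_distrib]
    refine congrArg₂ (· + ·) (by ring) (sum_congr rfl fun i _ => by ring)

lemma Az_succ (m r : ℕ) : Az m (r + 1) = Az m r * (1 - yz m (r + 1) 1 / 4) := by
  unfold Az
  rw [prod_Icc_succ_top (by omega)]

lemma Az_nn (hheat : St_HEAT) (m r : ℕ) : 0 ≤ Az m r :=
  prod_nonneg fun s _ => by linarith [((hheat m).1 s 1).2]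

lemma Pi_nn (hheat : St_HEAT) (m r : ℕ) (n : ℕ → ℕ) : 0 ≤ Pi m r n :=
  PP_nn _ _ (fun i => by linarith [((hheat m).1 r i).2]) n

lemma Pi_le (hheat : St_HEAT) (m r : ℕ) (n : ℕ → ℕ) : Pi m r n ≤ 1 :=
  PP_le _ _ (fun i => by linarith [((hheat m).1 r i).2]) (fun i => by linarith [((hheat m).1 r i).1]) n

lemma tele (hheat : St_HEAT) (m : ℕ) (hm : 2 ≤ m) (n : ℕ → ℕ) (R : ℕ) :
    ∑ r ∈ range (R + 1), Az m r * LL m (Pi m r) n ≤ 3 / 2 * (Az m R * Pi m (R + 1) n) - 2 * Pi m 0 n := by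
  induction R with
  | zero =>
    have h := LL_Pi hheat m 0 n
    have a0 : Az m 0 = 1 := by simp [Az]
    have y0 : yz m 0 1 = 1 := by
      simp only [yz]; rw [if_pos ⟨le_rfl, by omega⟩]
    rw [y0] at h
    rw [sum_range_one, a0]
    linarith
  | succ R ih =>
    rw [sum_range_succ]
    have h := mul_le_mul_of_nonneg_left (LL_Pi hheat m (R + 1) n) (Az_nn hheat m (R + 1))
    have hA := Az_nn hheat m R
    have hP := Pi_nn hheat m (R + 1) n
    obtain ⟨y0, y1⟩ := (hheat m).1 (R + 1) 1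
    have e := Az_succ m R
    have hk : 0 ≤ Az m R * Pi m (R + 1) n * (yz m (R + 1) 1 * (1 - yz m (R + 1) 1)) :=
      mul_nonneg (mul_nonneg hA hP) (mul_nonneg y0 (by linarith))
    have h2 : 3 / 2 * (Az m R * Pi m (R + 1) n) ≤
        Az m (R + 1) * ((3 / 2 + yz m (R + 1) 1 / 2) * Pi m (R + 1) n) := by
      rw [e]; nlinarith
    nlinarith

lemma Pi_zero (m : ℕ) (n : ℕ → ℕ) : ind (∀ i, 1 ≤ i → i < m → n i = 0) ≤ Pi m 0 n := by
  unfold ind
  split_ifs with h
  · apply le_of_eq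
    symm
    unfold Pi PP
    refine prod_eq_one fun i hi => ?_
    rw [h i (mem_Ico.1 hi).1 (mem_Ico.1 hi).2, pow_zero]
  · refine PP_nn _ _ (fun i => ?_) n
    simp only [yz]
    split_ifs <;> norm_num

end ProdB

open ProdB in
theorem st_prod (hheat : St_HEAT) : St_PROD := by
  intro m R n hm
  have e : Wz m (R + 1) = fun n => (1 / 2) * ∑ r ∈ range (R + 1), Az m r * Pi m r n := rfl
  have h1 := LL_sum m (range (R + 1)) (Az m) (Pi m) (1 / 2) n
  rw [← e] at h1
  have h2 := tele hheat m hm n R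
  have h3 := Pi_zero m n
  have h4 := Az_nn hheat m R
  have h5 := mul_le_mul_of_nonneg_left (Pi_le hheat m (R + 1) n) h4
  show LL m (Wz m (R + 1)) n ≤ _
  rw [h1]
  linarith

end

end Pool.Agent.BA
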