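import Pool.Agent.Lib.BA.Blue

/-! Block VAL: comparison of `val` with the gains of the two ends of a cap. -/

open Finset

set_option linter.unusedVariables false

namespace Pool.Agent.BA

noncomputable section
open Classical

namespace ValB

theorem mem_LB {m : ℕ} {y : V} :
    y ∈ LB m ↔ (-((m : ℤ) * m + m + 2) ≤ y.1 ∧ y.1 ≤ 0) ∧ (0 ≤ y.2 ∧ y.2 ≤ m) := by
  simp [LB]

theorem mir_flp (n : ℕ) (σ : Cfg) (y : V) :
    mir n (flp σ ((n : ℤ) - 1 - y.1, y.2)) = flp (mir n σ) y := by
  funext x
  by_cases h : x = y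
  · subst h
    rw [flp_self]
    simp only [mir]
    rw [flp_self]
  · rw [flp_ne _ h]
    simp only [mir]
    refine flp_ne _ fun e => h ?_
    rw [Prod.ext_iff] at e ⊢
    simp only at e
    constructor <;> omega

theorem mir_flp' (n : ℕ) (σ : Cfg) (y : V) :
    mir n (flp σ y) = flp (mir n σ) ((n : ℤ) - 1 - y.1, y.2) := by
  rw [← mir_flp]
  congr 2
  ext <;> simp

theorem mir_sh_pos (k : ℕ) (τ : Cfg) : mir k (sh (1, 0) τ) = mir (k + 1) τ := by
  funext x
  simp only [mir, sh]
  congr 1
  ext <;> simp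
  ring

theorem mir_sh_neg (k : ℕ) (τ : Cfg) : mir (k + 1) (sh (-1, 0) τ) = mir k τ := by
  funext x
  simp only [mir, sh]
  congr 1
  ext <;> simp
  ring

theorem sh_mir_pos (k : ℕ) (τ : Cfg) : sh (1, 0) (mir (k + 1) τ) = mir k τ := by
  funext x
  simp only [mir, sh]
  congr 1
  ext <;> simp
  ring

theorem sh_mir_neg (k : ℕ) (τ : Cfg) : sh (-1, 0) (mir k τ) = mir (k + 1) τ := by
  funext x
  simp only [mir, sh]
  congr 1
  ext <;> simp
  ring

/-- a flip off the cap keeps the cap -/
theorem cap_flp {n : ℕ} {σ : Cfg} (h : Cap n σ) {y : V} (h1 : y ≠ (-1, 1)) (h2 : y ≠ ((n : ℤ), 1))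
    (h3 : ¬ (0 ≤ y.1 ∧ y.1 < n ∧ (y.2 = 0 ∨ y.2 = 1))) : Cap n (flp σ y) := by
  obtain ⟨a, b, c⟩ := h
  refine ⟨by rw [flp_ne _ h1.symm]; exact a, by rw [flp_ne _ h2.symm]; exact b, fun i hi => ?_⟩
  obtain ⟨c1, c2⟩ := c i hi
  constructor
  · rw [flp_ne]
    · exact c1
    · rintro rfl
      exact h3 ⟨by simp, by simpa using hi, by simp⟩
  · rw [flp_ne]
    · exact c2
    · rintro rfl
      exact h3 ⟨by simp, by simpa using hi, by simp⟩

/-- the left end retreats -/
theorem cap_left_in {k : ℕ} {σ : Cfg} (h : Cap (k + 1) σ) : Cap k (sh (1, 0) (flp σ (0, 1))) := by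
  obtain ⟨a, b, c⟩ := h
  have c0 := (c 0 (by omega)).1
  refine ⟨?_, ?_, fun i hi => ?_⟩
  · rw [sh_apply, show ((-1, 1) : V) + (1, 0) = (0, 1) from rfl, flp_self]
    simp at c0
    simp [c0]
  · rw [sh_apply, flp_ne]
    · simpa using b
    · simp only [ne_eq, Prod.mk_add_mk, Prod.mk.injEq]; omega
  · obtain ⟨c1, c2⟩ := c (i + 1) (by omega)
    constructor
    · rw [sh_apply, flp_ne]
      · simpa using c1
      · simp only [ne_eq, Prod.mk_add_mk, Prod.mk.injEq]; omega
    · rw [sh_apply, flp_ne]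
      · simpa using c2
      · simp only [ne_eq, Prod.mk_add_mk, Prod.mk.injEq]; omega

/-- the left end advances -/
theorem cap_left_out {n : ℕ} {σ : Cfg} (h : Cap n σ) (h1 : σ (-1, 0) = false)
    (h2 : σ (-2, 1) = false) : Cap (n + 1) (sh (-1, 0) (flp σ (-1, 1))) := by
  obtain ⟨a, b, c⟩ := h
  refine ⟨?_, ?_, fun i hi => ?_⟩
  · rw [sh_apply, flp_ne]
    · simpa using h2
    · simp
  · rw [sh_apply, flp_ne]
    · simpa using b
    · simp only [ne_eq, Prod.mk_add_mk, Prod.mk.injEq]; omega
  · rcases i with _ | i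
    · constructor
      · rw [sh_apply]
        have e : ((((0 : ℕ) : ℤ), (0 : ℤ) + 1) : V) + (-1, 0) = (-1, 1) := by simp
        rw [e, flp_self, a]; rfl
      · rw [sh_apply, flp_ne]
        · simpa using h1
        · simp
    · obtain ⟨c1, c2⟩ := c i (by omega)
      constructor
      · rw [sh_apply, flp_ne]
        · simpa using c1
        · simp only [ne_eq, Prod.mk_add_mk, Prod.mk.injEq]; omega
      · rw [sh_apply, flp_ne]
        · simpa using c2
        · simp only [ne_eq, Prod.mk_add_mk, Prod.mk.injEq]; omega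

/-- the right end retreats -/
theorem cap_right_in {k : ℕ} {σ : Cfg} (h : Cap (k + 1) σ) : Cap k (flp σ ((k : ℤ), 1)) := by
  obtain ⟨a, b, c⟩ := h
  have c0 := (c k (by omega)).1
  refine ⟨?_, ?_, fun i hi => ?_⟩
  · rw [flp_ne]
    · exact a
    · simp only [ne_eq, Prod.mk.injEq]; omega
  · rw [flp_self]
    simp at c0
    simp [c0]
  · obtain ⟨c1, c2⟩ := c i (by omega)
    constructor
    · rw [flp_ne]
      · exact c1
      · simp only [ne_eq, Prod.mk.injEq]; omega
    · rw [flp_ne]
      · exact c2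
      · simp only [ne_eq, Prod.mk.injEq]; omega

/-- the right end advances -/
theorem cap_right_out {n : ℕ} {σ : Cfg} (h : Cap n σ) (h1 : σ ((n : ℤ), 0) = false)
    (h2 : σ ((n : ℤ) + 1, 1) = false) : Cap (n + 1) (flp σ ((n : ℤ), 1)) := by
  obtain ⟨a, b, c⟩ := h
  refine ⟨?_, ?_, fun i hi => ?_⟩
  · rw [flp_ne]
    · exact a
    · simp only [ne_eq, Prod.mk.injEq]; omega
  · rw [flp_ne]
    · simpa using h2
    · simp only [ne_eq, Prod.mk.injEq]; omega
  · rcases Nat.lt_succ_iff_lt_or_eq.1 hi with hi | rfl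
    · obtain ⟨c1, c2⟩ := c i hi
      constructor
      · rw [flp_ne]
        · exact c1
        · simp only [ne_eq, Prod.mk.injEq]; omega
      · rw [flp_ne]
        · exact c2
        · simp only [ne_eq, Prod.mk.injEq]; omega
    · constructor
      · rw [zero_add, flp_self, b]; rfl
      · rw [flp_ne]
        · exact h1
        · simp

end ValB

open ValB in
theorem st_val (hpar1 : St_PAR1) (hpsi : St_PSI) : St_VAL := by
  intro m Wm ε W ρ N n σ hP hm hρ hρ1 hn hN hc
  obtain ⟨-, -, -, -, hsh, hdep⟩ := hpar1 m Wm ε W hP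
  have hρ0 : 0 < ρ := by linarith
  obtain ⟨-, hb, -, hcap, -, -⟩ := hpsi m Wm ε W ρ N hP hρ0.le hρ1
  have hshl : ∀ a τ, hl m W 0 (sh (a, 0) τ) = hl m W a τ := by
    intro a τ; simp only [hl, hsh, zero_add]
  have hfl : ∀ τ y, y ∉ LB m → hl m W 0 (flp τ y) = hl m W 0 τ := by
    intro τ y hy; simp only [hl, hdep.flp_eq τ hy]
  have low : ∀ k τ, 2 ≤ k → k ≤ N → Cap k τ →
      ρ ^ k * hl m W 0 τ * hl m W 0 (mir k τ) - ρ ^ N ≤ psi m W ρ N τ := by
    intro k τ h1 h2 h3
    rw [(hcap k τ h1 h2 h3).1]; exact le_max_right _ _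
  have zero : ∀ (c : ℝ) τ, c * 0 - ρ ^ N ≤ psi m W ρ N τ := by
    intro c τ
    have := (hb τ).1
    have := pow_pos hρ0 N
    linarith
  have hout : ∀ y : V, 0 < y.1 → y ∉ LB m := by
    intro y hy h; rw [mem_LB] at h; omega
  refine ⟨fun y hy => ?_, fun y hy => ?_, fun y hy hy' hy'' => ?_⟩
  · by_cases h1 : y = (0, 1)
    · by_cases h2 : n = 2
      · exact Or.inl ⟨h2, h1⟩
      right
      subst h1
      obtain ⟨k, rfl⟩ : ∃ k, n = k + 1 := ⟨n - 1, by omega⟩
      have := low k _ (by omega) (by omega) (cap_left_in hc)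
      rw [hshl, mir_sh_pos, mir_flp', hfl _ _ (hout _ (by simp only; omega))] at this
      simp only [gain, val, if_true]
      refine le_trans (le_of_eq ?_) this
      field_simp
      ring
    right
    by_cases h2 : y = (-1, 1)
    · subst h2
      simp only [gain, val, if_neg h1, if_true]
      split_ifs with h3
      · have := low (n + 1) _ (by omega) (by omega) (cap_left_out hc h3.1 h3.2)
        rw [hshl, mir_sh_neg, mir_flp', hfl _ _ (hout _ (by simp only; omega))] at this
        refine le_trans (le_of_eq ?_) this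
        ring
      · exact zero _ _
    simp only [gain, val, if_neg h1, if_neg h2]
    split_ifs with h3
    · exact zero _ _
    · rw [mem_LB] at hy
      have hc' : Cap n (flp σ y) := by
        refine cap_flp hc h2 ?_ ?_
        · rintro rfl; simp only at hy; omega
        · rintro ⟨a, b, c | c⟩
          · exact h3 (Prod.ext (by simp only; omega) c)
          · exact h1 (Prod.ext (by simp only; omega) c)
      have := low n _ hn hN.le hc'
      rw [mir_flp', hfl (mir n σ) _ (hout _ (by simp only; omega))] at this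
      refine le_trans (le_of_eq ?_) this
      ring
  · have hy0 := mem_LB.1 hy
    have hv : val m W ρ N σ ((n : ℤ) - 1 - y.1, y.2) =
        psi m W ρ N (flp σ ((n : ℤ) - 1 - y.1, y.2)) := by
      simp only [val]
      rw [if_neg, if_neg] <;> simp only [Prod.mk.injEq] <;> omega
    have ho : ((n : ℤ) - 1 - y.1, y.2) ∉ LB m := hout _ (by simp only; omega)
    rw [hv]
    by_cases h1 : y = (0, 1)
    · by_cases h2 : n = 2
      · exact Or.inl ⟨h2, h1⟩
      right
      obtain ⟨k, rfl⟩ : ∃ k, n = k + 1 := ⟨n - 1, by omega⟩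
      have e : ((((k + 1 : ℕ) : ℤ) - 1 - y.1, y.2) : V) = ((k : ℤ), 1) := by
        subst h1; ext <;> simp
      have := low k _ (by omega) (by omega) (cap_right_in hc)
      rw [← e, hfl _ _ ho, ← sh_mir_pos, mir_flp, hshl] at this
      simp only [gain, if_pos h1]
      refine le_trans (le_of_eq ?_) this
      field_simp
      ring
    right
    by_cases h2 : y = (-1, 1)
    · simp only [gain, if_neg h1, if_pos h2]
      split_ifs with h3
      · have e : (((n : ℤ) - 1 - y.1, y.2) : V) = ((n : ℤ), 1) := by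
          subst h2; ext <;> simp
        have a1 : σ ((n : ℤ), 0) = false := by
          have := h3.1
          simp only [mir] at this
          rwa [show (n : ℤ) - 1 - -1 = n by ring] at this
        have a2 : σ ((n : ℤ) + 1, 1) = false := by
          have := h3.2
          simp only [mir] at this
          rwa [show (n : ℤ) - 1 - -2 = n + 1 by ring] at this
        have := low (n + 1) _ (by omega) (by omega) (cap_right_out hc a1 a2)
        rw [← e, hfl _ _ ho, ← sh_mir_neg, mir_flp, hshl] at this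
        refine le_trans (le_of_eq ?_) this
        ring
      · exact zero _ _
    simp only [gain, if_neg h1, if_neg h2]
    split_ifs with h3
    · exact zero _ _
    · have hc' : Cap n (flp σ ((n : ℤ) - 1 - y.1, y.2)) := by
        refine cap_flp hc ?_ ?_ ?_
        · simp only [ne_eq, Prod.mk.injEq]; omega
        · intro e
          simp only [Prod.mk.injEq] at e
          exact h2 (Prod.ext (by simp only; omega) e.2)
        · rintro ⟨a, b, c | c⟩
          · simp only at a b c
            exact h3 (Prod.ext (by simp only; omega) c)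
          · simp only at a b c
            exact h1 (Prod.ext (by simp only; omega) c)
      have := low n _ hn hN.le hc'
      rw [hfl _ _ ho, mir_flp] at this
      exact this
  · have m1 : ((0, 1) : V) ∈ LB m := by
      rw [mem_LB]; simp only; refine ⟨⟨?_, le_rfl⟩, by omega⟩
      have : (0 : ℤ) ≤ (m : ℤ) * m := mul_self_nonneg _
      omega
    have m2 : ((-1, 1) : V) ∈ LB m := by
      rw [mem_LB]; simp only; refine ⟨⟨?_, by omega⟩, by omega⟩
      have : (0 : ℤ) ≤ (m : ℤ) * m := mul_self_nonneg _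
      omega
    have h1 : y ≠ (0, 1) := fun e => hy (e ▸ m1)
    have h2 : y ≠ (-1, 1) := fun e => hy (e ▸ m2)
    have h3 : y ≠ ((n : ℤ), 1) := by
      rintro rfl
      apply hy'
      simp only
      rwa [show (n : ℤ) - 1 - n = -1 by ring]
    have hc' := cap_flp hc h2 h3 hy''
    simp only [val, if_neg h1, if_neg h2]
    rw [(hcap n _ hn hN.le hc').1, (hcap n _ hn hN.le hc).1, hfl _ _ hy, mir_flp', hfl _ _ hy']

end

end Pool.Agent.BA
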