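import Pool.Agent.Lib.BA.Blue

/-! Block VINIT: initial bound for the smoothed variance. -/

open Finset

namespace Pool.Agent.BA

noncomputable section
open Classical

namespace VINIT

variable {Q : A → A → ℝ}

theorem add_r (h : PSD Q) (u v r : A) : Q r (u + v) = Q r u + Q r v := by
  rw [h.symm, h.add, h.symm u, h.symm v]

theorem smul_r (h : PSD Q) (c : ℝ) (u v : A) : Q u (c • v) = c * Q u v := by
  rw [h.symm, h.smul, h.symm]

theorem sum_l (h : PSD Q) {ι : Type} (s : Finset ι) (u : ι → A) (r : A) :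
    Q (∑ i ∈ s, u i) r = ∑ i ∈ s, Q (u i) r := by
  induction s using Finset.induction_on with
  | empty => simpa using h.smul 0 0 r
  | insert a s ha ih => rw [sum_insert ha, sum_insert ha, h.add, ih]

theorem sum_sum (h : PSD Q) {ι : Type} (s : Finset ι) (u : ι → A) :
    Q (∑ i ∈ s, u i) (∑ i ∈ s, u i) = ∑ i ∈ s, ∑ j ∈ s, Q (u j) (u i) := by
  rw [sum_l h]
  exact sum_congr rfl fun i _ => by rw [h.symm, sum_l h]

theorem amgm (h : PSD Q) (u v : A) : 2 * Q u v ≤ Q u u + Q v v := by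
  have := h.nonneg (u + (-1 : ℝ) • v)
  rw [h.add, add_r h, add_r h, h.smul, h.smul, smul_r h, smul_r h, h.symm v u] at this
  linarith

theorem add_le (h : PSD Q) (u v : A) : Q (u + v) (u + v) ≤ 2 * Q u u + 2 * Q v v := by
  have := amgm h u v
  rw [h.add, add_r h, add_r h, h.symm v u]
  linarith

theorem sum_le (h : PSD Q) (k : ℕ) (u : ℕ → A) {M : ℝ} (hu : ∀ i < k, Q (u i) (u i) ≤ M) :
    Q (∑ i ∈ range k, u i) (∑ i ∈ range k, u i) ≤ (k : ℝ) ^ 2 * M := by
  rw [sum_sum h]
  refine (sum_le_sum fun i hi => sum_le_sum (g := fun _ => M) fun j hj => ?_).trans (le_of_eq ?_)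
  · have := amgm h (u j) (u i)
    have := hu i (mem_range.1 hi)
    have := hu j (mem_range.1 hj)
    linarith
  · simp only [sum_const, card_range, nsmul_eq_mul]
    ring

theorem ww_le (hpsd : St_PSD) (h : PSD Q) (u : A) (n : ℕ) :
    Q (ww ^ n * u) (ww ^ n * u) ≤ Q u u := by
  induction n with
  | zero => simp
  | succ n ih =>
    have h1 := (hpsd Q h (ww ^ n * u)).1
    have h2 := h.nonneg (dX * (ww ^ n * u))
    rw [pow_succ', mul_assoc]
    linarith

theorem tele (h : PSD Q) (a : A) (j : ℕ) :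
    Q (a * (1 - xs ((j : ℤ), 0))) (a * (1 - xs ((j : ℤ), 0))) ≤
      (j : ℝ) ^ 2 * Q (a * dX) (a * dX) := by
  have e0 : ∀ i : ℕ, xs ((i : ℤ), 0) = xs (1, 0) ^ i := fun i => by
    rw [← xs_nsmul]
    simp
  have e : a * (1 - xs ((j : ℤ), 0)) =
      (-1 : ℝ) • ∑ i ∈ range j, xs ((i : ℤ), 0) * (a * dX) := by
    simp only [e0]
    rw [← sum_mul, neg_one_smul, mul_left_comm, dX, geom_sum_mul]
    ring
  rw [e, h.smul, smul_r h]
  have := sum_le h j (fun i => xs ((i : ℤ), 0) * (a * dX)) fun i _ => (h.shift _ _ _).le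
  linarith

theorem main (hpsd : St_PSD) (h : PSD Q) (h1 : Q 1 1 ≤ 1) {K R : ℕ} (n : ℕ) {c : ℝ} (hK : 0 < K)
    (hc : 0 ≤ c) (hd : ∀ k : ℕ, 1 ≤ k → k < K → Q 1 (xs ((k * R : ℕ), 0)) ≤ c) :
    Q (ww ^ n) (ww ^ n) ≤ 2 * (1 / K + c) + 8 * (K * R) ^ 2 / (n + 1) := by
  have hK0 : (0 : ℝ) < K := by exact_mod_cast hK
  have e : ww ^ n = ww ^ n * ((K : ℝ)⁻¹ • ∑ k ∈ range K, xs ((k * R : ℕ), 0)) +
      (K : ℝ)⁻¹ • ∑ k ∈ range K, ww ^ n * (1 - xs ((k * R : ℕ), 0)) := by
    rw [mul_smul_comm, ← smul_add, mul_sum, ← sum_add_distrib]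
    simp only [← mul_add, add_sub_cancel, mul_one, sum_const, card_range]
    rw [← Nat.cast_smul_eq_nsmul ℝ, smul_smul, inv_mul_cancel₀ hK0.ne', one_smul]
  have hM : Q (ww ^ n * dX) (ww ^ n * dX) ≤ 4 / (n + 1) := by
    have := ((hpsd Q h 1).2.2.1 dX (Or.inl rfl) n).2
    rw [mul_one] at this
    refine this.trans ?_
    gcongr
    linarith
  have h2 := sum_le h K (fun k => ww ^ n * (1 - xs ((k * R : ℕ), 0)))
    (M := (K * R) ^ 2 * (4 / (n + 1))) fun k hk => (tele h _ _).trans (by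
      have := h.nonneg (ww ^ n * dX)
      push_cast
      gcongr)
  have pair : ∀ k l : ℕ, k < l → l < K → Q (xs ((k * R : ℕ), 0)) (xs ((l * R : ℕ), 0)) ≤ c := by
    intro k l hkl hl
    obtain ⟨j, rfl⟩ := Nat.exists_eq_add_of_le hkl.le
    have e1 := h.shift ((k * R : ℕ), 0) 1 (xs ((j * R : ℕ), 0))
    rw [mul_one, ← xs_add, Prod.mk_add_mk, add_zero, ← Nat.cast_add, ← add_mul] at e1
    rw [e1]
    exact hd j (by omega) (by omega)
  have h3 : Q (∑ k ∈ range K, xs ((k * R : ℕ), 0)) (∑ k ∈ range K, xs ((k * R : ℕ), 0)) ≤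
      K * (1 + K * c) := by
    rw [sum_sum h]
    refine (sum_le_sum (g := fun _ => 1 + K * c) fun k hk => ?_).trans (by simp [mul_add])
    refine (sum_le_sum (g := fun l => (if l = k then 1 else 0) + c) fun l hl => ?_).trans ?_
    · rcases lt_trichotomy l k with c1 | c1 | c1
      · have := pair l k c1 (mem_range.1 hk)
        rw [if_neg c1.ne]
        linarith
      · have := h.shift ((k * R : ℕ), 0) 1 1
        rw [mul_one] at this
        rw [if_pos c1, c1, this]
        linarith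
      · have := pair k l c1 (mem_range.1 hl)
        rw [if_neg c1.ne', h.symm]
        linarith
    · rw [sum_add_distrib, sum_ite_eq', if_pos hk]
      simp
  rw [e]
  refine (add_le h _ _).trans (add_le_add ?_ ?_)
  · refine mul_le_mul_of_nonneg_left ((ww_le hpsd h _ n).trans ?_) zero_le_two
    rw [h.smul, smul_r h]
    refine (mul_le_mul_of_nonneg_left (mul_le_mul_of_nonneg_left h3 (by positivity))
      (by positivity)).trans (le_of_eq ?_)
    field_simp
  · rw [h.smul, smul_r h]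
    refine (mul_le_mul_of_nonneg_left (mul_le_mul_of_nonneg_left (mul_le_mul_of_nonneg_left h2
      (by positivity)) (by positivity)) zero_le_two).trans (le_of_eq ?_)
    field_simp
    ring

end VINIT

theorem st_vinit (hpsd : St_PSD) : St_VINIT := by
  intro m hm f hf h01 K R n c hK hc hd
  have key : ∀ u v : A, Prob u → Prob v →
      m (fun σ => cv u (fun τ => f τ - m f) σ * cv v (fun τ => f τ - m f) σ) =
        m (fun σ => cv u f σ * cv v f σ) - m f ^ 2 := by
    intro u v hu hv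
    have e : ∀ σ, cv u (fun τ => f τ - m f) σ * cv v (fun τ => f τ - m f) σ =
        cv u f σ * cv v f σ - (m f * cv u f σ + (m f * cv v f σ - m f ^ 2)) := fun σ => by
      rw [cv_fsub, cv_fsub, hu.cv_const, hv.cv_const]
      ring
    have p := hm.toLin.toPos
    rw [p.congr e, p.sub ((hf.cv u).mul (hf.cv v)) (((hf.cv u).cmul _).add
      (((hf.cv v).cmul _).sub (Loc.const _))), p.add _ _ ((hf.cv u).cmul _)
      (((hf.cv v).cmul _).sub (Loc.const _)), p.sub ((hf.cv v).cmul _) (Loc.const _),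
      p.smul _ _ (hf.cv u), p.smul _ _ (hf.cv v), p.const, hm.one, hm.toLin.cv_prob hu hf,
      hm.toLin.cv_prob hv hf]
    ring
  have h := VINIT.main hpsd (hm.toLin.psd (hf.sub (Loc.const (m f)))) (R := R) ?_ n hK hc ?_
  · rw [key _ _ (prob_ww.pow n) (prob_ww.pow n)] at h
    rwa [nsq_eq]
  · rw [key _ _ prob_one prob_one, cv_one]
    have := hm.mono _ (fun _ => 1) (hf.mul hf) (Loc.const _) fun σ =>
      mul_le_one₀ (h01 σ).2 (h01 σ).1 (h01 σ).2
    rw [hm.one] at this
    nlinarith [sq_nonneg (m f)]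
  · intro k h1 h2
    rw [key _ _ prob_one (prob_xs _), cv_one]
    simp only [cv_xs]
    linarith [hd k h1 h2]

end

end Pool.Agent.BA
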