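import Pool.Agent.Lib.BA.Defs

/-! Proved API: indicators, locality, generator, shifts, frames, functionals. -/

open Finset

set_option linter.unusedVariables false

namespace Pool.Agent.BA

noncomputable section
open Classical

/-! ### indicators -/

theorem ind_of {p : Prop} (h : p) : ind p = 1 := by simp [ind, h]
theorem ind_of_not {p : Prop} (h : ¬ p) : ind p = 0 := by simp [ind, h]
theorem ind_nonneg (p : Prop) : 0 ≤ ind p := by unfold ind; split_ifs <;> norm_num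
theorem ind_le_one (p : Prop) : ind p ≤ 1 := by unfold ind; split_ifs <;> norm_num
theorem ind_mono {p q : Prop} (h : p → q) : ind p ≤ ind q := by
  by_cases hp : p
  · rw [ind_of hp, ind_of (h hp)]
  · rw [ind_of_not hp]; exact ind_nonneg q
theorem ind_congr {p q : Prop} (h : p ↔ q) : ind p = ind q := by rw [propext h]
theorem ind_or_le (p q : Prop) : ind (p ∨ q) ≤ ind p + ind q := by
  by_cases hp : p <;> by_cases hq : q <;> simp [ind, hp, hq]
theorem ind_and (p q : Prop) : ind (p ∧ q) = ind p * ind q := by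
  by_cases hp : p <;> by_cases hq : q <;> simp [ind, hp, hq]
theorem ind_sq (p : Prop) : ind p ^ 2 = ind p := by by_cases hp : p <;> simp [ind, hp]
theorem ind_exists_le {ι : Type*} (s : Finset ι) (p : ι → Prop) :
    ind (∃ i ∈ s, p i) ≤ ∑ i ∈ s, ind (p i) := by
  by_cases h : ∃ i ∈ s, p i
  · obtain ⟨i, hi, hp⟩ := h
    calc ind (∃ i ∈ s, p i) ≤ 1 := ind_le_one _
      _ = ind (p i) := (ind_of hp).symm
      _ ≤ _ := single_le_sum (f := fun i => ind (p i)) (fun j _ => ind_nonneg _) hi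
  · rw [ind_of_not h]; exact sum_nonneg fun j _ => ind_nonneg _

/-! ### locality -/

theorem DepOn.mono {α : Sort*} {f : Cfg → α} {S T : Finset V} (h : DepOn f S) (hST : S ⊆ T) :
    DepOn f T := fun σ σ' hh => h σ σ' fun x hx => hh x (hST hx)

theorem DepOn.loc {α : Sort*} {f : Cfg → α} {S : Finset V} (h : DepOn f S) : Loc f := ⟨S, h⟩

theorem Loc.const {α : Sort*} (c : α) : Loc fun _ : Cfg => c := ⟨∅, fun _ _ _ => rfl⟩

theorem Loc.eval (x : V) : Loc fun σ : Cfg => σ x := ⟨{x}, fun _ _ h => h x (mem_singleton_self x)⟩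

theorem Loc.comp {α β : Sort*} {f : Cfg → α} (h : Loc f) (g : α → β) : Loc fun σ => g (f σ) := by
  obtain ⟨S, hS⟩ := h
  exact ⟨S, fun σ σ' hh => by simp only [hS σ σ' hh]⟩

theorem Loc.comp₂ {α β γ : Sort*} {f : Cfg → α} {g : Cfg → β} (hf : Loc f) (hg : Loc g)
    (k : α → β → γ) : Loc fun σ => k (f σ) (g σ) := by
  obtain ⟨S, hS⟩ := hf
  obtain ⟨T, hT⟩ := hg
  refine ⟨S ∪ T, fun σ σ' hh => ?_⟩
  simp only [hS σ σ' fun x hx => hh x (mem_union_left _ hx),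
    hT σ σ' fun x hx => hh x (mem_union_right _ hx)]

/-- finitely many local functions depend on a common finite set -/
theorem Loc.common {ι : Type*} {α : Sort*} (s : Finset ι) (F : ι → Cfg → α)
    (h : ∀ i ∈ s, Loc (F i)) : ∃ S : Finset V, ∀ i ∈ s, DepOn (F i) S := by
  choose! T hT using h
  exact ⟨s.biUnion T, fun i hi => (hT i hi).mono (subset_biUnion_of_mem T hi)⟩

theorem Loc.add {f g : Cfg → ℝ} (hf : Loc f) (hg : Loc g) : Loc fun σ => f σ + g σ :=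
  hf.comp₂ hg (· + ·)
theorem Loc.sub {f g : Cfg → ℝ} (hf : Loc f) (hg : Loc g) : Loc fun σ => f σ - g σ :=
  hf.comp₂ hg (· - ·)
theorem Loc.mul {f g : Cfg → ℝ} (hf : Loc f) (hg : Loc g) : Loc fun σ => f σ * g σ :=
  hf.comp₂ hg (· * ·)
theorem Loc.cmul (c : ℝ) {f : Cfg → ℝ} (hf : Loc f) : Loc fun σ => c * f σ := hf.comp (c * ·)
theorem Loc.neg {f : Cfg → ℝ} (hf : Loc f) : Loc fun σ => -f σ := hf.comp (- ·)
theorem Loc.pow {f : Cfg → ℝ} (hf : Loc f) (n : ℕ) : Loc fun σ => f σ ^ n := hf.comp (· ^ n)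
theorem Loc.abs {f : Cfg → ℝ} (hf : Loc f) : Loc fun σ => |f σ| := hf.comp (|·|)
theorem Loc.ind {p : Cfg → Prop} (hp : Loc p) : Loc fun σ => ind (p σ) := hp.comp BA.ind
theorem Loc.and {p q : Cfg → Prop} (hp : Loc p) (hq : Loc q) : Loc fun σ => p σ ∧ q σ :=
  hp.comp₂ hq And
theorem Loc.or {p q : Cfg → Prop} (hp : Loc p) (hq : Loc q) : Loc fun σ => p σ ∨ q σ :=
  hp.comp₂ hq Or
theorem Loc.imp {p q : Cfg → Prop} (hp : Loc p) (hq : Loc q) : Loc fun σ => p σ → q σ :=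
  hp.comp₂ hq fun a b => a → b
theorem Loc.not {p : Cfg → Prop} (hp : Loc p) : Loc fun σ => ¬ p σ := hp.comp Not
theorem Loc.evalEq (x : V) (b : Bool) : Loc fun σ : Cfg => σ x = b := (Loc.eval x).comp (· = b)
theorem Loc.sum {ι : Type*} (s : Finset ι) {F : ι → Cfg → ℝ} (h : ∀ i ∈ s, Loc (F i)) :
    Loc fun σ => ∑ i ∈ s, F i σ := by
  obtain ⟨S, hS⟩ := Loc.common s F h
  exact ⟨S, fun σ σ' hh => sum_congr rfl fun i hi => hS i hi σ σ' hh⟩
theorem Loc.bex {ι : Type*} (s : Finset ι) {p : ι → Cfg → Prop} (h : ∀ i ∈ s, Loc (p i)) :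
    Loc fun σ => ∃ i ∈ s, p i σ := by
  obtain ⟨S, hS⟩ := Loc.common s p h
  refine ⟨S, fun σ σ' hh => propext ⟨?_, ?_⟩⟩
  · rintro ⟨i, hi, hp⟩; exact ⟨i, hi, (hS i hi σ σ' hh) ▸ hp⟩
  · rintro ⟨i, hi, hp⟩; exact ⟨i, hi, (hS i hi σ σ' hh).symm ▸ hp⟩
theorem Loc.ball {ι : Type*} (s : Finset ι) {p : ι → Cfg → Prop} (h : ∀ i ∈ s, Loc (p i)) :
    Loc fun σ => ∀ i ∈ s, p i σ := by
  obtain ⟨S, hS⟩ := Loc.common s p h
  refine ⟨S, fun σ σ' hh => propext ⟨?_, ?_⟩⟩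
  · intro H i hi; exact (hS i hi σ σ' hh) ▸ H i hi
  · intro H i hi; exact (hS i hi σ σ' hh).symm ▸ H i hi
theorem Loc.congr {α : Sort*} {f g : Cfg → α} (hf : Loc f) (h : ∀ σ, f σ = g σ) : Loc g :=
  (funext h : f = g) ▸ hf
theorem Loc.congr_iff {p q : Cfg → Prop} (hp : Loc p) (h : ∀ σ, p σ ↔ q σ) : Loc q :=
  hp.congr fun σ => propext (h σ)

/-- composition with a configuration map with local coordinates -/
theorem Loc.cfg {α : Sort*} {f : Cfg → α} (hf : Loc f) (φ : Cfg → Cfg)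
    (hφ : ∀ x, Loc fun σ => φ σ x) : Loc fun σ => f (φ σ) := by
  obtain ⟨S, hS⟩ := hf
  obtain ⟨T, hT⟩ := Loc.common S (fun x σ => φ σ x) fun x _ => hφ x
  exact ⟨T, fun σ σ' hh => hS _ _ fun x hx => hT x hx σ σ' hh⟩

theorem Loc.sh {α : Sort*} {f : Cfg → α} (hf : Loc f) (z : V) : Loc fun σ => f (sh z σ) :=
  hf.cfg _ fun x => Loc.eval (x + z)
theorem Loc.act {α : Sort*} {f : Cfg → α} (hf : Loc f) (g : Fr) : Loc fun σ => f (act g σ) :=
  hf.cfg _ fun x => (Loc.eval (g.lin x)).comp (xor g.s)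
theorem Loc.trp {α : Sort*} {f : Cfg → α} (hf : Loc f) : Loc fun σ => f (trp σ) :=
  hf.cfg _ fun x => Loc.eval (x.2, x.1)
theorem Loc.mir {α : Sort*} {f : Cfg → α} (hf : Loc f) (n : ℕ) : Loc fun σ => f (mir n σ) :=
  hf.cfg _ fun x => Loc.eval _

theorem flp_self (σ : Cfg) (y : V) : flp σ y y = !σ y := by simp [flp]
theorem flp_ne (σ : Cfg) {y x : V} (h : x ≠ y) : flp σ y x = σ x := by simp [flp, h]
theorem flp_flp (σ : Cfg) (y : V) : flp (flp σ y) y = σ := by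
  funext x; by_cases h : x = y
  · subst h; simp [flp]
  · simp [flp, h]

theorem Loc.flp {α : Sort*} {f : Cfg → α} (hf : Loc f) (y : V) : Loc fun σ => f (flp σ y) := by
  refine hf.cfg _ fun x => ?_
  by_cases h : x = y
  · subst h; simp only [flp_self]; exact (Loc.eval x).comp (! ·)
  · simp only [flp_ne _ h]; exact Loc.eval x

theorem DepOn.flp_eq {α : Sort*} {f : Cfg → α} {S : Finset V} (h : DepOn f S) (σ : Cfg) {y : V}
    (hy : y ∉ S) : f (flp σ y) = f σ :=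
  h _ _ fun x hx => flp_ne σ fun e => hy (e ▸ hx)

theorem Loc.finite_range {α : Type*} {f : Cfg → α} (hf : Loc f) : (Set.range f).Finite := by
  obtain ⟨S, hS⟩ := hf
  let e : (S → Bool) → Cfg := fun τ x => if h : x ∈ S then τ ⟨x, h⟩ else false
  refine (Set.finite_range fun τ => f (e τ)).subset ?_
  rintro _ ⟨σ, rfl⟩
  exact ⟨fun x => σ x, hS _ _ fun x hx => by simp [e, hx]⟩

theorem Loc.bdd {f : Cfg → ℝ} (hf : Loc f) : ∃ M, 0 ≤ M ∧ ∀ σ, |f σ| ≤ M := by
  obtain ⟨M, hM⟩ := hf.abs.finite_range.bddAbove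
  exact ⟨M, (abs_nonneg _).trans (hM ⟨fun _ => false, rfl⟩), fun σ => hM ⟨σ, rfl⟩⟩

/-! ### rates and the generator -/

theorem rate_nonneg (σ : Cfg) (y : V) : 0 ≤ rate σ y := by unfold rate; split_ifs <;> norm_num
theorem rate_le_one (σ : Cfg) (y : V) : rate σ y ≤ 1 := by unfold rate; split_ifs <;> norm_num
theorem rate_of_le {σ : Cfg} {y : V} (h : dis σ y ≤ 1) : rate σ y = 0 := by simp [rate, h]
theorem rate_of_two {σ : Cfg} {y : V} (h : dis σ y = 2) : rate σ y = 1 / 2 := by simp [rate, h]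
theorem rate_of_three {σ : Cfg} {y : V} (h : 3 ≤ dis σ y) : rate σ y = 1 := by
  unfold rate; rw [if_neg (by omega), if_neg (by omega)]
theorem half_le_rate {σ : Cfg} {y : V} (h : 2 ≤ dis σ y) : 1 / 2 ≤ rate σ y := by
  unfold rate; rw [if_neg (by omega)]; split_ifs <;> norm_num
theorem dis_le_four (σ : Cfg) (y : V) : dis σ y ≤ 4 := by unfold dis; split_ifs <;> omega

theorem Loc.dis (y : V) : Loc fun σ => dis σ y := by
  refine ⟨{y, y + (1, 0), y + (-1, 0), y + (0, 1), y + (0, -1)}, fun σ σ' h => ?_⟩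
  simp only [BA.dis]
  rw [h y (by simp), h (y + (1, 0)) (by simp), h (y + (-1, 0)) (by simp), h (y + (0, 1)) (by simp),
    h (y + (0, -1)) (by simp)]
theorem Loc.rate (y : V) : Loc fun σ => rate σ y :=
  (Loc.dis y).comp fun d => if d ≤ 1 then (0 : ℝ) else if d = 2 then 1 / 2 else 1

theorem DepOn.gen_eq {f : Cfg → ℝ} {S : Finset V} (h : DepOn f S) : gen f = genOn S f := by
  funext σ
  unfold gen genOn
  refine finsum_eq_sum_of_support_subset _ fun y hy => ?_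
  by_contra hn
  exact hy (by simp [h.flp_eq σ (by simpa using hn)])

theorem DepOn.gam_eq {f g : Cfg → ℝ} {S : Finset V} (h : DepOn f S) (σ : Cfg) :
    gam f g σ = ∑ y ∈ S, rate σ y * ((f (flp σ y) - f σ) * (g (flp σ y) - g σ)) := by
  unfold gam
  refine finsum_eq_sum_of_support_subset _ fun y hy => ?_
  by_contra hn
  exact hy (by simp [h.flp_eq σ (by simpa using hn)])

theorem Loc.genOn {f : Cfg → ℝ} (hf : Loc f) (S : Finset V) : Loc (genOn S f) :=
  Loc.sum S fun y _ => (Loc.rate y).mul ((hf.flp y).sub hf)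
theorem Loc.gen {f : Cfg → ℝ} (hf : Loc f) : Loc (gen f) := by
  obtain ⟨S, hS⟩ := hf
  rw [hS.gen_eq]; exact hS.loc.genOn S
theorem Loc.gam {f g : Cfg → ℝ} (hf : Loc f) (hg : Loc g) : Loc (gam f g) := by
  obtain ⟨S, hS⟩ := hf
  exact (Loc.sum S fun y _ => (Loc.rate y).mul (((hS.loc.flp y).sub hS.loc).mul
    ((hg.flp y).sub hg))).congr fun σ => (hS.gam_eq σ).symm

theorem Loc.common₂ {α β : Sort*} {f : Cfg → α} {g : Cfg → β} (hf : Loc f) (hg : Loc g) :
    ∃ S, DepOn f S ∧ DepOn g S := by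
  obtain ⟨S, hS⟩ := hf
  obtain ⟨T, hT⟩ := hg
  exact ⟨S ∪ T, hS.mono subset_union_left, hT.mono subset_union_right⟩

theorem gen_add {f g : Cfg → ℝ} (hf : Loc f) (hg : Loc g) (σ : Cfg) :
    gen (fun σ => f σ + g σ) σ = gen f σ + gen g σ := by
  obtain ⟨S, hS, hT⟩ := hf.common₂ hg
  have : DepOn (fun σ => f σ + g σ) S := fun σ σ' h => by simp only [hS σ σ' h, hT σ σ' h]
  rw [this.gen_eq, hS.gen_eq, hT.gen_eq]
  simp only [genOn, ← sum_add_distrib]
  exact sum_congr rfl fun y _ => by ring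
theorem gen_cmul (c : ℝ) {f : Cfg → ℝ} (hf : Loc f) (σ : Cfg) :
    gen (fun σ => c * f σ) σ = c * gen f σ := by
  obtain ⟨S, hS⟩ := hf
  have : DepOn (fun σ => c * f σ) S := fun σ σ' h => by simp only [hS σ σ' h]
  rw [this.gen_eq, hS.gen_eq]
  simp only [genOn, mul_sum]
  exact sum_congr rfl fun y _ => by ring
theorem gen_const (c : ℝ) (σ : Cfg) : gen (fun _ => c) σ = 0 := by simp [gen]
theorem gen_sum {ι : Type*} (s : Finset ι) {F : ι → Cfg → ℝ} (h : ∀ i ∈ s, Loc (F i)) (σ : Cfg) :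
    gen (fun σ => ∑ i ∈ s, F i σ) σ = ∑ i ∈ s, gen (F i) σ := by
  induction s using Finset.induction_on with
  | empty => simp [gen]
  | insert a s ha ih =>
    simp only [sum_insert ha]
    rw [gen_add (h a (mem_insert_self _ _)) (Loc.sum s fun i hi => h i (mem_insert_of_mem hi)),
      ih fun i hi => h i (mem_insert_of_mem hi)]
theorem gen_mul {f g : Cfg → ℝ} (hf : Loc f) (hg : Loc g) (σ : Cfg) :
    gen (fun σ => f σ * g σ) σ = f σ * gen g σ + g σ * gen f σ + gam f g σ := by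
  obtain ⟨S, hS, hT⟩ := hf.common₂ hg
  have : DepOn (fun σ => f σ * g σ) S := fun σ σ' h => by simp only [hS σ σ' h, hT σ σ' h]
  rw [this.gen_eq, hS.gen_eq, hT.gen_eq, hS.gam_eq]
  simp only [genOn, mul_sum, ← sum_add_distrib]
  exact sum_congr rfl fun y _ => by ring

/-! ### shifts and frames -/

theorem sh_apply (z : V) (σ : Cfg) (x : V) : sh z σ x = σ (x + z) := rfl
theorem sh_zero (σ : Cfg) : sh 0 σ = σ := by funext x; simp [sh]
theorem sh_sh (z w : V) (σ : Cfg) : sh z (sh w σ) = sh (z + w) σ := by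
  funext x; simp [sh, add_assoc]
theorem dis_sh (z : V) (σ : Cfg) (y : V) : dis (sh z σ) y = dis σ (y + z) := by
  simp only [dis, sh, add_right_comm y _ z]
theorem rate_sh (z : V) (σ : Cfg) (y : V) : rate (sh z σ) y = rate σ (y + z) := by
  simp only [rate, dis_sh]
theorem flp_sh (z : V) (σ : Cfg) (y : V) : flp (sh z σ) y = sh z (flp σ (y + z)) := by
  funext x; by_cases h : x = y
  · subst h; simp [flp, sh]
  · rw [flp_ne _ h, sh_apply, sh_apply, flp_ne _ fun e => h (add_right_cancel e)]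
theorem gen_sh (f : Cfg → ℝ) (z : V) (σ : Cfg) :
    gen (fun τ => f (sh z τ)) σ = gen f (sh z σ) := by
  unfold gen
  rw [← finsum_comp_equiv (Equiv.addRight z)]
  simp only [Equiv.coe_addRight, rate_sh, flp_sh]

theorem Fr.lin_add (g : Fr) (x y : V) : g.lin (x + y) = g.lin x + g.lin y := by
  obtain ⟨s, a, b, t⟩ := g
  obtain ⟨x1, x2⟩ := x
  obtain ⟨y1, y2⟩ := y
  cases a <;> cases b <;> cases t <;> simp [Fr.lin, add_comm]
theorem Fr.lin_zero (g : Fr) : g.lin 0 = 0 := by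
  obtain ⟨s, a, b, t⟩ := g
  cases a <;> cases b <;> cases t <;> simp [Fr.lin]
theorem Fr.lin_neg (g : Fr) (x : V) : g.lin (-x) = -g.lin x := by
  obtain ⟨s, a, b, t⟩ := g
  obtain ⟨x1, x2⟩ := x
  cases a <;> cases b <;> cases t <;> simp [Fr.lin]
theorem Fr.lin_sub (g : Fr) (x y : V) : g.lin (x - y) = g.lin x - g.lin y := by
  rw [sub_eq_add_neg, Fr.lin_add, Fr.lin_neg, sub_eq_add_neg]
/-- the inverse frame -/
def Fr.inv (g : Fr) : Fr := if g.t then ⟨g.s, g.b, g.a, g.t⟩ else g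
theorem Fr.lin_inv (g : Fr) (x : V) : g.lin (g.inv.lin x) = x := by
  obtain ⟨s, a, b, t⟩ := g
  cases a <;> cases b <;> cases t <;> simp [Fr.lin, Fr.inv]
theorem Fr.inv_lin (g : Fr) (x : V) : g.inv.lin (g.lin x) = x := by
  obtain ⟨s, a, b, t⟩ := g
  cases a <;> cases b <;> cases t <;> simp [Fr.lin, Fr.inv]
theorem Fr.inv_s (g : Fr) : g.inv.s = g.s := by unfold Fr.inv; split_ifs <;> rfl
/-- the frame as a bijection of the lattice -/
def Fr.equiv (g : Fr) : V ≃ V := ⟨g.lin, g.inv.lin, g.inv_lin, g.lin_inv⟩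
theorem Fr.lin_injective (g : Fr) : Function.Injective g.lin := g.equiv.injective
theorem act_apply (g : Fr) (σ : Cfg) (x : V) : act g σ x = xor g.s (σ (g.lin x)) := rfl
theorem act_inv (g : Fr) (σ : Cfg) : act g.inv (act g σ) = σ := by
  funext x; simp only [act, Fr.lin_inv, Fr.inv_s]; cases g.s <;> simp
theorem act_inv' (g : Fr) (σ : Cfg) : act g (act g.inv σ) = σ := by
  funext x; simp only [act, Fr.inv_lin, Fr.inv_s]; cases g.s <;> simp
theorem mem_boxAt {z x : V} {r : ℕ} :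
    x ∈ boxAt z r ↔ (z.1 - r ≤ x.1 ∧ x.1 ≤ z.1 + r) ∧ (z.2 - r ≤ x.2 ∧ x.2 ≤ z.2 + r) := by
  simp [boxAt]
theorem mem_box {x : V} {r : ℕ} :
    x ∈ box r ↔ (-(r : ℤ) ≤ x.1 ∧ x.1 ≤ r) ∧ (-(r : ℤ) ≤ x.2 ∧ x.2 ≤ r) := by
  simp [box, mem_boxAt]
theorem card_boxAt (z : V) (r : ℕ) : (boxAt z r).card = (2 * r + 1) ^ 2 := by
  simp only [boxAt, card_product, Int.card_Icc]
  have h1 : (z.1 + r + 1 - (z.1 - r)).toNat = 2 * r + 1 := by omega
  have h2 : (z.2 + r + 1 - (z.2 - r)).toNat = 2 * r + 1 := by omega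
  rw [h1, h2, sq]
theorem Fr.lin_mem_box (g : Fr) {x : V} {r : ℕ} (h : x ∈ box r) : g.lin x ∈ box r := by
  obtain ⟨s, a, b, t⟩ := g
  rw [mem_box] at h ⊢
  cases a <;> cases b <;> cases t <;> simp [Fr.lin] <;> omega
theorem dis_act (g : Fr) (σ : Cfg) (y : V) : dis (act g σ) y = dis σ (g.lin y) := by
  have hx : ∀ u v : Bool, (xor g.s u = xor g.s v) ↔ u = v := by
    intro u v; cases g.s <;> cases u <;> cases v <;> simp
  simp only [dis, act, hx, Fr.lin_add]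
  obtain ⟨s, a, b, t⟩ := g
  cases a <;> cases b <;> cases t <;> simp [Fr.lin] <;> omega
theorem rate_act (g : Fr) (σ : Cfg) (y : V) : rate (act g σ) y = rate σ (g.lin y) := by
  simp only [rate, dis_act]
theorem flp_act (g : Fr) (σ : Cfg) (y : V) : flp (act g σ) y = act g (flp σ (g.lin y)) := by
  funext x; by_cases h : x = y
  · subst h; simp only [flp_self, act_apply]; cases g.s <;> simp
  · rw [flp_ne _ h, act_apply, act_apply, flp_ne _ fun e => h (g.lin_injective e)]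
theorem sh_act (g : Fr) (z : V) (σ : Cfg) : sh z (act g σ) = act g (sh (g.lin z) σ) := by
  funext x; simp only [sh, act, Fr.lin_add]
theorem gen_act (f : Cfg → ℝ) (g : Fr) (σ : Cfg) :
    gen (fun τ => f (act g τ)) σ = gen f (act g σ) := by
  unfold gen
  rw [← finsum_comp_equiv g.equiv]
  simp only [Fr.equiv, Equiv.coe_fn_mk, rate_act, flp_act]
theorem trp_eq (σ : Cfg) : trp σ = act ⟨false, false, false, true⟩ σ := by
  funext x; simp [trp, act, Fr.lin]
theorem mir_eq (n : ℕ) (σ : Cfg) :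
    mir n σ = act ⟨false, true, false, false⟩ (sh ((n : ℤ) - 1, 0) σ) := by
  funext x; simp only [mir, act, sh, Fr.lin]
  simp only [Bool.false_xor, if_true, Bool.false_eq_true, if_false, Prod.mk_add_mk, add_zero]
  congr 2; ring
theorem fU_act (g : Fr) (σ : Cfg) : fU (act g σ) = fU σ := by
  simp only [fU, dis_act, Fr.lin_zero]
theorem fa_trp (σ : Cfg) : fa (trp σ) = fb σ := rfl
theorem fb_trp (σ : Cfg) : fb (trp σ) = fa σ := rfl

theorem loc_fa : Loc fa := ((Loc.eval (0, 1)).comp₂ (Loc.eval 0) fun a b => a ≠ b).ind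
theorem loc_fb : Loc fb := ((Loc.eval (1, 0)).comp₂ (Loc.eval 0) fun a b => a ≠ b).ind
theorem loc_fe : Loc fe := loc_fa.add loc_fb
theorem loc_fU : Loc fU := ((Loc.dis 0).comp (3 ≤ ·)).ind
theorem loc_Opp : Loc Opp :=
  ((Loc.eval _).comp₂ (Loc.eval _) Eq).and (((Loc.eval _).comp₂ (Loc.eval _) Eq).and
    ((Loc.eval _).comp₂ (Loc.eval _) Ne))
theorem loc_fO : Loc fO := loc_Opp.ind
theorem loc_fK : Loc fK :=
  ((((Loc.eval _).comp₂ (Loc.eval _) Ne).or ((Loc.eval _).comp₂ (Loc.eval _) Ne)).and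
    (((Loc.eval _).comp₂ (Loc.eval _) Ne).or ((Loc.eval _).comp₂ (Loc.eval _) Ne))).ind

/-! ### functionals -/

namespace Pos
variable {D : (Cfg → ℝ) → ℝ}

theorem zero (h : Pos D) : D (fun _ => 0) = 0 := by
  have := h.smul 0 (fun _ => 0) (Loc.const _)
  simpa using this
theorem nonneg (h : Pos D) {f : Cfg → ℝ} (hf : Loc f) (h0 : ∀ σ, 0 ≤ f σ) : 0 ≤ D f :=
  h.zero ▸ h.mono _ _ (Loc.const _) hf h0
theorem congr (_ : Pos D) {f g : Cfg → ℝ} (e : ∀ σ, f σ = g σ) : D f = D g := by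
  rw [funext e]
theorem neg (h : Pos D) {f : Cfg → ℝ} (hf : Loc f) : D (fun σ => -f σ) = -D f := by
  have := h.smul (-1) f hf
  simpa using this
theorem sub (h : Pos D) {f g : Cfg → ℝ} (hf : Loc f) (hg : Loc g) :
    D (fun σ => f σ - g σ) = D f - D g := by
  have := h.add f (fun σ => -g σ) hf hg.neg
  rw [h.neg hg] at this
  simpa [sub_eq_add_neg] using this
theorem sum (h : Pos D) {ι : Type*} (s : Finset ι) {F : ι → Cfg → ℝ} (hF : ∀ i ∈ s, Loc (F i)) :
    D (fun σ => ∑ i ∈ s, F i σ) = ∑ i ∈ s, D (F i) := by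
  induction s using Finset.induction_on with
  | empty => simpa using h.zero
  | insert a s ha ih =>
    simp only [sum_insert ha]
    rw [h.add _ _ (hF a (mem_insert_self _ _)) (Loc.sum s fun i hi => hF i (mem_insert_of_mem hi)),
      ih fun i hi => hF i (mem_insert_of_mem hi)]
theorem const (h : Pos D) (c : ℝ) : D (fun _ => c) = c * D (fun _ => 1) := by
  have := h.smul c (fun _ => 1) (Loc.const _)
  simpa using this
theorem abs_le (h : Pos D) {f g : Cfg → ℝ} (hf : Loc f) (hg : Loc g) (H : ∀ σ, |f σ| ≤ g σ) :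
    |D f| ≤ D g := by
  rw [_root_.abs_le]
  refine ⟨?_, h.mono _ _ hf hg fun σ => (le_abs_self _).trans (H σ)⟩
  rw [← h.neg hg]
  exact h.mono _ _ hg.neg hf fun σ => (_root_.abs_le.1 (H σ)).1
theorem abs_le_const (h : Pos D) (h1 : D (fun _ => 1) = 1) {f : Cfg → ℝ} (hf : Loc f) {M : ℝ}
    (H : ∀ σ, |f σ| ≤ M) : |D f| ≤ M := by
  have := h.abs_le hf (Loc.const M) H
  rwa [h.const, h1, mul_one] at this
/-- Cauchy-Schwarz -/
theorem cs (h : Pos D) {f g : Cfg → ℝ} (hf : Loc f) (hg : Loc g) :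
    D (fun σ => f σ * g σ) ^ 2 ≤ D (fun σ => f σ ^ 2) * D (fun σ => g σ ^ 2) := by
  have key : ∀ x : ℝ, 0 ≤ D (fun σ => f σ ^ 2) * (x * x) + 2 * D (fun σ => f σ * g σ) * x +
      D (fun σ => g σ ^ 2) := by
    intro x
    have h0 := h.nonneg (((hf.cmul x).add hg).pow 2) fun σ => sq_nonneg _
    have e : D (fun σ => (x * f σ + g σ) ^ 2) =
        D (fun σ => ((x * x) * f σ ^ 2 + (2 * x) * (f σ * g σ)) + g σ ^ 2) :=
      h.congr fun σ => by ring
    rw [e, h.add _ _ (((hf.pow 2).cmul _).add ((hf.mul hg).cmul _)) (hg.pow 2),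
      h.add _ _ ((hf.pow 2).cmul _) ((hf.mul hg).cmul _), h.smul _ _ (hf.pow 2),
      h.smul _ _ (hf.mul hg)] at h0
    linarith
  have := discrim_le_zero key
  unfold discrim at this
  nlinarith
theorem abs_mul_le_sqrt (h : Pos D) {f g : Cfg → ℝ} (hf : Loc f) (hg : Loc g) :
    |D (fun σ => f σ * g σ)| ≤ √(D fun σ => f σ ^ 2) * √(D fun σ => g σ ^ 2) := by
  rw [← Real.sqrt_mul (h.nonneg (hf.pow 2) fun σ => sq_nonneg _)]
  exact Real.abs_le_sqrt (h.cs hf hg)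
theorem cfg (h : Pos D) (φ : Cfg → Cfg) (hφ : ∀ x, Loc fun σ => φ σ x) :
    Pos fun f => D fun σ => f (φ σ) :=
  ⟨fun f g hf hg => h.add _ _ (hf.cfg φ hφ) (hg.cfg φ hφ), fun c f hf => h.smul c _ (hf.cfg φ hφ),
    fun f g hf hg H => h.mono _ _ (hf.cfg φ hφ) (hg.cfg φ hφ) fun σ => H _⟩
theorem act (h : Pos D) (g : Fr) : Pos fun f => D fun σ => f (act g σ) :=
  h.cfg _ fun x => (Loc.eval x).act g
end Pos

theorem Lin.act {D : (Cfg → ℝ) → ℝ} (h : Lin D) (g : Fr) : Lin fun f => D fun σ => f (act g σ) :=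
  ⟨h.toPos.act g, fun z f hf => by
    simp only [sh_act]; exact h.shift (g.lin z) (fun σ => f (BA.act g σ)) (hf.act g)⟩
theorem St.act {m : (Cfg → ℝ) → ℝ} (h : St m) (g : Fr) : St fun f => m fun σ => f (act g σ) :=
  ⟨h.toLin.act g, h.one⟩
theorem St.trp {m : (Cfg → ℝ) → ℝ} (h : St m) : St fun f => m fun σ => f (trp σ) := by
  simp only [trp_eq]; exact h.act _
theorem Fn.act {lam : ℝ} {D : (Cfg → ℝ) → ℝ} (h : Fn lam D) (g : Fr) :
    Fn lam fun f => D fun σ => f (act g σ) :=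
  ⟨h.toLin.act g, fun ψ hψ h0 => by
    have := h.disc _ (hψ.act g) fun σ => h0 _
    simpa only [← gen_act] using this⟩
theorem Fn.fU_nonneg {lam : ℝ} {D : (Cfg → ℝ) → ℝ} (h : Fn lam D) : 0 ≤ D fU :=
  h.toPos.nonneg loc_fU fun _ => ind_nonneg _

namespace Dom
variable {lam K K' : ℝ} {f g : Cfg → ℝ}

theorem fU (lam : ℝ) : Dom lam 1 fU := ⟨loc_fU, fun D _ => by simp⟩
theorem mono (h : Dom lam K g) (hf : Loc f) (H : ∀ σ, f σ ≤ g σ) : Dom lam K f :=
  ⟨hf, fun D hD => (hD.mono _ _ hf h.1 H).trans (h.2 D hD)⟩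
theorem le (h : Dom lam K f) (H : K ≤ K') : Dom lam K' f :=
  ⟨h.1, fun D hD => (h.2 D hD).trans (mul_le_mul_of_nonneg_right H hD.fU_nonneg)⟩
theorem add (h : Dom lam K f) (h' : Dom lam K' g) : Dom lam (K + K') fun σ => f σ + g σ :=
  ⟨h.1.add h'.1, fun D hD => by
    rw [hD.add _ _ h.1 h'.1, add_mul]; exact add_le_add (h.2 D hD) (h'.2 D hD)⟩
theorem cmul (h : Dom lam K f) {c : ℝ} (hc : 0 ≤ c) : Dom lam (c * K) fun σ => c * f σ :=
  ⟨h.1.cmul c, fun D hD => by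
    rw [hD.smul _ _ h.1, mul_assoc]; exact mul_le_mul_of_nonneg_left (h.2 D hD) hc⟩
theorem sh (h : Dom lam K f) (z : V) : Dom lam K fun σ => f (sh z σ) :=
  ⟨h.1.sh z, fun D hD => by rw [hD.shift z f h.1]; exact h.2 D hD⟩
theorem act (h : Dom lam K f) (g : Fr) : Dom lam K fun σ => f (act g σ) :=
  ⟨h.1.act g, fun D hD => by simpa only [fU_act] using h.2 _ (hD.act g)⟩
theorem sum {ι : Type*} (s : Finset ι) {F : ι → Cfg → ℝ} (h : ∀ i ∈ s, Dom lam K (F i)) :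
    Dom lam (s.card * K) fun σ => ∑ i ∈ s, F i σ :=
  ⟨Loc.sum s fun i hi => (h i hi).1, fun D hD => by
    rw [hD.toPos.sum s fun i hi => (h i hi).1, mul_assoc]
    have := sum_le_card_nsmul s (fun i => D (F i)) _ fun i hi => (h i hi).2 D hD
    simpa using this⟩
end Dom

namespace Sparse
variable {ε ε' : ℝ} {f g : Cfg → ℝ}

theorem mono (h : Sparse ε g) (hf : Loc f) (H : ∀ σ, f σ ≤ g σ) : Sparse ε f :=
  ⟨hf, fun m hm => (hm.mono _ _ hf h.1 H).trans (h.2 m hm)⟩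
theorem le (h : Sparse ε f) (H : ε ≤ ε') : Sparse ε' f := ⟨h.1, fun m hm => (h.2 m hm).trans H⟩
theorem add (h : Sparse ε f) (h' : Sparse ε' g) : Sparse (ε + ε') fun σ => f σ + g σ :=
  ⟨h.1.add h'.1, fun m hm => by rw [hm.add _ _ h.1 h'.1]; exact add_le_add (h.2 m hm) (h'.2 m hm)⟩
theorem sh (h : Sparse ε f) (z : V) : Sparse ε fun σ => f (sh z σ) :=
  ⟨h.1.sh z, fun m hm => by rw [hm.shift z f h.1]; exact h.2 m hm⟩
theorem act (h : Sparse ε f) (g : Fr) : Sparse ε fun σ => f (act g σ) :=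
  ⟨h.1.act g, fun m hm => h.2 _ (hm.act g)⟩
theorem sum {ι : Type*} (s : Finset ι) {F : ι → Cfg → ℝ} (h : ∀ i ∈ s, Sparse ε (F i)) :
    Sparse (s.card * ε) fun σ => ∑ i ∈ s, F i σ :=
  ⟨Loc.sum s fun i hi => (h i hi).1, fun m hm => by
    rw [hm.toPos.sum s fun i hi => (h i hi).1]
    have := sum_le_card_nsmul s (fun i => m (F i)) _ fun i hi => (h i hi).2 m hm
    simpa using this⟩
end Sparse

theorem card_Fr : Fintype.card Fr = 16 := rfl

end

end Pool.Agent.BA
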