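import Pool.Agent.Lib.BA.Basic

/-! Proved API: the action of the group algebra on functions. -/

open Finset

set_option linter.unusedVariables false

namespace Pool.Agent.BA

noncomputable section
open Classical

/-- shifts as endomorphisms -/
def shHom : Multiplicative V →* Module.End ℝ (Cfg → ℝ) where
  toFun z :=
    { toFun := fun f σ => f (sh z.toAdd σ)
      map_add' := fun _ _ => rfl
      map_smul' := fun _ _ => rfl }
  map_one' := by ext f σ; simp [sh_zero]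
  map_mul' z w := by ext f σ; simp [sh_sh, add_comm]

/-- the action as an algebra map -/
def cvA : A →ₐ[ℝ] Module.End ℝ (Cfg → ℝ) := AddMonoidAlgebra.lift ℝ _ V shHom

theorem cv_eq (u : A) (f : Cfg → ℝ) : cv u f = cvA u f := by
  funext σ
  simp only [cv, cvA, AddMonoidAlgebra.lift_apply, Finsupp.sum, LinearMap.sum_apply,
    Finset.sum_apply]
  rfl

theorem cv_def (u : A) (f : Cfg → ℝ) (σ : Cfg) :
    cv u f σ = ∑ z ∈ u.coeff.support, u.coeff z * f (sh z σ) := rfl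

theorem xs_add (z w : V) : xs (z + w) = xs z * xs w := by
  simp [xs, AddMonoidAlgebra.single_mul_single]
theorem xs_zero : xs 0 = 1 := rfl
theorem xs_mul_neg (z : V) : xs z * xs (-z) = 1 := by rw [← xs_add, add_neg_cancel, xs_zero]
theorem xs_nsmul (n : ℕ) (z : V) : xs (n • z) = xs z ^ n := by
  induction n with
  | zero => simp [xs_zero]
  | succ n ih => rw [succ_nsmul, xs_add, ih, pow_succ]

theorem cv_xs (z : V) (f : Cfg → ℝ) (σ : Cfg) : cv (xs z) f σ = f (sh z σ) := by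
  rw [cv_eq, cvA, xs, AddMonoidAlgebra.lift_single]; simp [shHom]
theorem cv_one (f : Cfg → ℝ) : cv 1 f = f := by rw [cv_eq, map_one]; rfl
theorem cv_zero (f : Cfg → ℝ) (σ : Cfg) : cv 0 f σ = 0 := by rw [cv_eq, map_zero]; rfl
theorem cv_mul (u v : A) (f : Cfg → ℝ) : cv (u * v) f = cv u (cv v f) := by
  simp only [cv_eq, map_mul]; rfl
theorem cv_add (u v : A) (f : Cfg → ℝ) (σ : Cfg) : cv (u + v) f σ = cv u f σ + cv v f σ := by
  simp only [cv_eq, map_add]; rfl
theorem cv_sub (u v : A) (f : Cfg → ℝ) (σ : Cfg) : cv (u - v) f σ = cv u f σ - cv v f σ := by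
  simp only [cv_eq, map_sub]; rfl
theorem cv_neg (u : A) (f : Cfg → ℝ) (σ : Cfg) : cv (-u) f σ = -cv u f σ := by
  simp only [cv_eq, map_neg]; rfl
theorem cv_smul (c : ℝ) (u : A) (f : Cfg → ℝ) (σ : Cfg) : cv (c • u) f σ = c * cv u f σ := by
  simp only [cv_eq, map_smul]; rfl
theorem cv_sum {ι : Type*} (s : Finset ι) (u : ι → A) (f : Cfg → ℝ) (σ : Cfg) :
    cv (∑ i ∈ s, u i) f σ = ∑ i ∈ s, cv (u i) f σ := by
  simp only [cv_eq, map_sum, LinearMap.sum_apply, Finset.sum_apply]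
theorem cv_xs_mul (z : V) (u : A) (f : Cfg → ℝ) (σ : Cfg) :
    cv (xs z * u) f σ = cv u f (sh z σ) := by rw [cv_mul, cv_xs]
theorem cv_fadd (u : A) (f g : Cfg → ℝ) (σ : Cfg) :
    cv u (fun τ => f τ + g τ) σ = cv u f σ + cv u g σ := by
  simp only [cv_def, mul_add, sum_add_distrib]
theorem cv_fsub (u : A) (f g : Cfg → ℝ) (σ : Cfg) :
    cv u (fun τ => f τ - g τ) σ = cv u f σ - cv u g σ := by
  simp only [cv_def, mul_sub, sum_sub_distrib]
theorem cv_fcmul (u : A) (c : ℝ) (f : Cfg → ℝ) (σ : Cfg) :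
    cv u (fun τ => c * f τ) σ = c * cv u f σ := by
  simp only [cv_def, mul_sum]; exact sum_congr rfl fun _ _ => by ring
theorem cv_fsh (u : A) (z : V) (f : Cfg → ℝ) :
    cv u (fun τ => f (sh z τ)) = cv (u * xs z) f := by
  rw [cv_mul]; congr 1; funext τ; rw [cv_xs]

theorem Loc.cv {f : Cfg → ℝ} (hf : Loc f) (u : A) : Loc (cv u f) :=
  Loc.sum _ fun z _ => (hf.sh z).cmul _

theorem gen_cv (u : A) {f : Cfg → ℝ} (hf : Loc f) (σ : Cfg) :
    gen (cv u f) σ = cv u (gen f) σ := by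
  have := gen_sum u.coeff.support (F := fun z σ => u.coeff z * f (sh z σ))
    (fun z _ => (hf.sh z).cmul _) σ
  refine Eq.trans this ?_
  rw [cv_def]
  exact sum_congr rfl fun z _ => by rw [gen_cmul _ (hf.sh z), gen_sh]

/-- probability kernel -/
def Prob (u : A) : Prop := (∀ z, 0 ≤ u.coeff z) ∧ ∑ z ∈ u.coeff.support, u.coeff z = 1

theorem prob_iff (u : A) : Prob u ↔ (∀ f : Cfg → ℝ, (∀ σ, 0 ≤ f σ) → ∀ σ, 0 ≤ cv u f σ) ∧
    cv u (fun _ => 1) (fun _ => false) = 1 := by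
  constructor
  · rintro ⟨h0, h1⟩
    exact ⟨fun f hf σ => sum_nonneg fun z _ => mul_nonneg (h0 z) (hf _), by simpa [cv_def] using h1⟩
  · rintro ⟨h0, h1⟩
    refine ⟨fun z => ?_, by simpa [cv_def] using h1⟩
    have := h0 (fun τ => ind (τ 0 = true)) (fun _ => ind_nonneg _) (fun x => decide (x = z))
    rw [cv_def, sum_eq_single z] at this
    · simpa [sh, ind] using this
    · intro b _ hb; simp [sh, ind, hb]
    · intro hz; simp [Finsupp.notMem_support_iff.1 hz]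

theorem Prob.cv_const {u : A} (h : Prob u) (c : ℝ) (σ : Cfg) : cv u (fun _ => c) σ = c := by
  rw [cv_def, ← sum_mul, h.2, one_mul]
theorem Prob.cv_mono {u : A} (h : Prob u) {f g : Cfg → ℝ} (H : ∀ σ, f σ ≤ g σ) (σ : Cfg) :
    cv u f σ ≤ cv u g σ := sum_le_sum fun z _ => mul_le_mul_of_nonneg_left (H _) (h.1 z)
theorem Prob.cv_nonneg {u : A} (h : Prob u) {f : Cfg → ℝ} (H : ∀ σ, 0 ≤ f σ) (σ : Cfg) :
    0 ≤ cv u f σ := ((prob_iff u).1 h).1 f H σ
theorem Prob.cv_le {u : A} (h : Prob u) {f : Cfg → ℝ} {c : ℝ} (H : ∀ σ, f σ ≤ c) (σ : Cfg) :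
    cv u f σ ≤ c := (h.cv_mono (g := fun _ => c) H σ).trans (h.cv_const c σ).le
theorem Prob.abs_cv_le {u : A} (h : Prob u) {f g : Cfg → ℝ} (H : ∀ σ, |f σ| ≤ g σ) (σ : Cfg) :
    |cv u f σ| ≤ cv u g σ := by
  refine (abs_sum_le_sum_abs _ _).trans (sum_le_sum fun z _ => ?_)
  rw [abs_mul, abs_of_nonneg (h.1 z)]
  exact mul_le_mul_of_nonneg_left (H _) (h.1 z)
theorem Prob.mul {u v : A} (hu : Prob u) (hv : Prob v) : Prob (u * v) := by
  rw [prob_iff]
  refine ⟨fun f hf σ => ?_, ?_⟩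
  · rw [cv_mul]; exact hu.cv_nonneg (hv.cv_nonneg hf) σ
  · rw [cv_mul, (funext (hv.cv_const 1) : cv v (fun _ => 1) = fun _ => 1), hu.cv_const]
theorem prob_xs (z : V) : Prob (xs z) := by
  rw [prob_iff]; exact ⟨fun f hf σ => by rw [cv_xs]; exact hf _, by rw [cv_xs]⟩
theorem prob_one : Prob 1 := prob_xs 0
theorem Prob.pow {u : A} (hu : Prob u) (n : ℕ) : Prob (u ^ n) := by
  induction n with
  | zero => simpa using prob_one
  | succ n ih => rw [pow_succ]; exact ih.mul hu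
theorem cv_ww (f : Cfg → ℝ) (σ : Cfg) :
    cv ww f σ = (f σ + f (sh (1, 0) σ) + f (sh (0, 1) σ) + f (sh (1, 1) σ)) / 4 := by
  have : ((1 : A) + xs (1, 0)) * (1 + xs (0, 1)) = 1 + xs (1, 0) + xs (0, 1) + xs (1, 1) := by
    rw [show ((1, 1) : V) = (1, 0) + (0, 1) from rfl, xs_add]; ring
  rw [ww, this, cv_smul, cv_add, cv_add, cv_add, cv_one, cv_xs, cv_xs, cv_xs]; ring
theorem prob_ww : Prob ww := by
  rw [prob_iff]
  refine ⟨fun f hf σ => ?_, by rw [cv_ww]; norm_num⟩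
  rw [cv_ww]; have := hf σ; have := hf (sh (1, 0) σ); have := hf (sh (0, 1) σ)
  have := hf (sh (1, 1) σ); positivity

theorem Lin.cv_prob {D : (Cfg → ℝ) → ℝ} (h : Lin D) {u : A} (hu : Prob u) {f : Cfg → ℝ} (hf : Loc f) :
    D (cv u f) = D f := by
  have := h.toPos.sum u.coeff.support (F := fun z σ => u.coeff z * f (sh z σ))
    fun z _ => (hf.sh z).cmul _
  refine Eq.trans this ?_
  rw [sum_congr rfl fun z _ => by rw [h.smul _ _ (hf.sh z), h.shift z f hf], ← sum_mul, hu.2,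
    one_mul]

/-- shifts are isometries of the bilinear form -/
theorem Lin.cv_shift {D : (Cfg → ℝ) → ℝ} (h : Lin D) {f g : Cfg → ℝ} (hf : Loc f) (hg : Loc g)
    (z : V) (u v : A) :
    D (fun σ => cv (xs z * u) f σ * cv (xs z * v) g σ) = D (fun σ => cv u f σ * cv v g σ) := by
  simp only [cv_xs_mul]
  exact h.shift z (fun σ => cv u f σ * cv v g σ) ((hf.cv u).mul (hg.cv v))

/-- adjoint of a shift -/
theorem Lin.cv_adj {D : (Cfg → ℝ) → ℝ} (h : Lin D) {f g : Cfg → ℝ} (hf : Loc f) (hg : Loc g)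
    (z : V) (u v : A) :
    D (fun σ => cv (xs z * u) f σ * cv v g σ) = D (fun σ => cv u f σ * cv (xs (-z) * v) g σ) := by
  rw [← h.cv_shift hf hg z u (xs (-z) * v), ← mul_assoc, xs_mul_neg, one_mul]

theorem Lin.psd {D : (Cfg → ℝ) → ℝ} (h : Lin D) {f : Cfg → ℝ} (hf : Loc f) :
    PSD fun u v => D fun σ => cv u f σ * cv v f σ where
  add u v r := by
    simp only [cv_add, add_mul]
    exact h.add _ _ ((hf.cv u).mul (hf.cv r)) ((hf.cv v).mul (hf.cv r))
  smul c u v := by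
    simp only [cv_smul, mul_assoc]
    exact h.smul _ _ ((hf.cv u).mul (hf.cv v))
  symm u v := by simp only [mul_comm]
  nonneg u := h.toPos.nonneg ((hf.cv u).mul (hf.cv u)) fun σ => mul_self_nonneg _
  shift z u v := h.cv_shift hf hf z u v

theorem nsq_eq (m : (Cfg → ℝ) → ℝ) (u : A) (f : Cfg → ℝ) :
    nsq m u f = m fun σ => cv u f σ * cv u f σ := by simp only [nsq, sq]

theorem loc_kUR : Loc kUR := loc_fa.mul loc_fb
theorem loc_kUL : Loc kUL := loc_fa.mul (loc_fb.sh _)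
theorem loc_kDL : Loc kDL := (loc_fa.sh _).mul (loc_fb.sh _)
theorem loc_remA : Loc remA :=
  ((loc_kUR.sub (loc_kUR.sh _)).add (loc_kUL.sub (loc_kUL.sh _))).sub (loc_kDL.sub (loc_kDL.sh _))
theorem loc_FF (n : ℕ) : Loc (FF n) := Loc.sum _ fun _ _ => (loc_fa.cv _).mul (loc_fb.cv _)
theorem loc_NN (j : ℕ) : Loc (NN j) := ((loc_fa.cv _).pow 2).add ((loc_fb.cv _).pow 2)

/-- transposition of the group algebra -/
def trA : A ≃ₐ[ℝ] A := AddMonoidAlgebra.domCongr ℝ ℝ (AddEquiv.prodComm : V ≃+ V)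

theorem trA_xs (z : V) : trA (xs z) = xs (z.2, z.1) := by
  simp [trA, xs]; rfl
theorem trA_ww : trA ww = ww := by
  simp only [ww, map_smul, map_mul, map_add, map_one, trA_xs]; rw [mul_comm]
theorem trA_dX : trA dX = dY := by simp only [dX, dY, map_sub, map_one, trA_xs]
theorem trA_dY : trA dY = dX := by simp only [dX, dY, map_sub, map_one, trA_xs]
theorem cv_trp (u : A) (f : Cfg → ℝ) (σ : Cfg) :
    cv u f (trp σ) = cv (trA u) (fun τ => f (trp τ)) σ := by
  induction u using AddMonoidAlgebra.induction_on with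
  | of z =>
    have e : (AddMonoidAlgebra.of ℝ V (Multiplicative.ofAdd z) : A) = xs z := rfl
    rw [e, trA_xs, cv_xs, cv_xs]; rfl
  | add u v hu hv => rw [map_add, cv_add, cv_add, hu, hv]
  | smul c u hu => rw [map_smul, cv_smul, cv_smul, hu]

end

end Pool.Agent.BA
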