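import Pool.Agent.Lib.BA.Basic

/-! Proved API: reducible configurations, locality of the patterns, bad patterns. -/

open Finset

set_option linter.unusedVariables false

namespace Pool.Agent.BA

noncomputable section
open Classical

theorem box_mono {r r' : ℕ} (h : r ≤ r') : box r ⊆ box r' := by
  intro x hx; rw [mem_box] at hx ⊢; omega

theorem zero_mem_box (r : ℕ) : (0 : V) ∈ box r := by rw [mem_box]; simp

theorem Red.mono {r r' : ℕ} (h : r ≤ r') {σ : Cfg} (H : Red r σ) : Red r' σ := by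
  induction H with
  | base σ y hy hd => exact .base σ y (box_mono h hy) hd
  | step σ y hy hd _ ih => exact .step σ y (box_mono h hy) hd ih

/-- reducible around `z` implies reducible around the origin in a larger box -/
theorem Red.of_sh {r s : ℕ} {z : V} (hz : z ∈ box s) {σ : Cfg} (H : Red r (sh z σ)) :
    Red (r + s) σ := by
  generalize hτ : sh z σ = τ at H
  induction H generalizing σ with
  | base τ y hy hd =>
    subst hτ
    refine .base σ (y + z) ?_ (by rwa [dis_sh] at hd)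
    rw [mem_box] at *; simp only [Prod.fst_add, Prod.snd_add]; push_cast; omega
  | step τ y hy hd _ ih =>
    subst hτ
    refine .step σ (y + z) ?_ (by rwa [dis_sh] at hd) (ih (flp_sh z σ y).symm)
    rw [mem_box] at *; simp only [Prod.fst_add, Prod.snd_add]; push_cast; omega

theorem Red.of_act {r : ℕ} (g : Fr) {σ : Cfg} (H : Red r (act g σ)) : Red r σ := by
  generalize hτ : act g σ = τ at H
  induction H generalizing σ with
  | base τ y hy hd => subst hτ; exact .base σ _ (g.lin_mem_box hy) (by rwa [dis_act] at hd)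
  | step τ y hy hd _ ih =>
    subst hτ
    exact .step σ _ (g.lin_mem_box hy) (by rwa [dis_act] at hd) (ih (flp_act g σ y).symm)

theorem Red.act {r : ℕ} (g : Fr) {σ : Cfg} (H : Red r σ) : Red r (act g σ) :=
  Red.of_act g.inv (by rwa [act_inv])

theorem dis_congr {r : ℕ} {σ σ' : Cfg} (h : ∀ x ∈ box (r + 1), σ x = σ' x) {y : V}
    (hy : y ∈ box r) : dis σ y = dis σ' y := by
  rw [mem_box] at hy
  simp only [dis]
  rw [h y, h (y + (1, 0)), h (y + (-1, 0)), h (y + (0, 1)), h (y + (0, -1))] <;>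
    · rw [mem_box]; (try simp only [Prod.fst_add, Prod.snd_add]); push_cast; omega

theorem flp_congr {S : Finset V} {σ σ' : Cfg} (h : ∀ x ∈ S, σ x = σ' x) (y : V) :
    ∀ x ∈ S, flp σ y x = flp σ' y x := by
  intro x hx
  by_cases e : x = y
  · subst e; rw [flp_self, flp_self, h x hx]
  · rw [flp_ne _ e, flp_ne _ e, h x hx]

theorem Red.congr {r : ℕ} {σ σ' : Cfg} (H : Red r σ) (h : ∀ x ∈ box (r + 1), σ x = σ' x) :
    Red r σ' := by
  induction H generalizing σ' with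
  | base σ y hy hd => exact .base σ' y hy (dis_congr h hy ▸ hd)
  | step σ y hy hd _ ih => exact .step σ' y hy (dis_congr h hy ▸ hd) (ih (flp_congr h y))

theorem depOn_Red (r : ℕ) : DepOn (Red r) (box (r + 1)) := fun _ _ h =>
  propext ⟨fun H => H.congr h, fun H => H.congr fun x hx => (h x hx).symm⟩
theorem loc_Red (r : ℕ) : Loc (Red r) := (depOn_Red r).loc

theorem loc_Bond (c r : ℤ) : Loc fun σ => Bond σ c r := (Loc.evalEq _ _).and (Loc.evalEq _ _)
theorem loc_Arm (M : ℕ) : Loc (Arm M) :=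
  (Loc.bex (Icc 1 M) fun i _ => (loc_Bond (i : ℕ) 0).not).congr_iff fun σ => by
    simp only [Arm, mem_Icc, and_assoc]
theorem loc_Hook (M : ℕ) : Loc (Hook M) :=
  (Loc.bex (Icc 1 M) fun n _ => (Loc.ball (Ico 1 n) fun i _ => loc_Bond (i : ℕ) 0).and
    (Loc.evalEq ((n : ℕ), 1) false)).congr_iff fun σ => by
    simp only [Hook, mem_Icc, mem_Ico, and_assoc, and_imp]
theorem loc_Chk : Loc Chk :=
  (Loc.evalEq _ _).and ((Loc.evalEq _ _).and ((Loc.evalEq _ _).and (Loc.evalEq _ _)))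
theorem loc_Pre : Loc Pre :=
  Loc.bex _ fun y _ => ((Loc.dis y).comp (2 ≤ ·)).and (loc_Chk.flp y)
theorem loc_OT : Loc OT :=
  (Loc.evalEq _ _).and ((Loc.evalEq _ _).and ((Loc.evalEq _ _).and
    ((Loc.evalEq _ _).and (Loc.evalEq _ _))))
theorem loc_PA (M : ℕ) : Loc (PA M) := (loc_Chk.or (loc_Pre.or loc_OT)).and (loc_Arm M)
theorem loc_BadAt (M : ℕ) : Loc (BadAt M) :=
  (loc_Red 2).or ((Loc.bex univ fun g _ => (loc_PA M).act g).congr_iff fun σ => by simp)
theorem loc_Bad (M : ℕ) : Loc (Bad M) := Loc.bex _ fun d _ => (loc_BadAt M).sh d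
theorem loc_CrA (M : ℕ) : Loc (CrA M) :=
  (Loc.evalEq _ _).and (((Loc.dis _).comp (2 ≤ ·)).and
    (((Loc.evalEq _ _).and (Loc.evalEq _ _)).not.and ((loc_Bond 0 0).and (loc_Hook M))))
theorem loc_CrB (M : ℕ) : Loc (CrB M) :=
  (Loc.evalEq _ _).and (((Loc.dis _).comp (2 ≤ ·)).and
    ((Loc.evalEq _ _).and ((Loc.evalEq _ _).and (loc_Hook M))))
theorem loc_Cr (M : ℕ) : Loc (Cr M) := (loc_CrA M).or (loc_CrB M)
theorem loc_Cap (n : ℕ) : Loc (Cap n) :=
  (Loc.evalEq _ _).and ((Loc.evalEq _ _).and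
    ((Loc.ball (range n) fun i _ => loc_Bond (i : ℕ) 0).congr_iff fun σ => by simp only [mem_range]))
theorem loc_Alive (N : ℕ) : Loc (Alive N) :=
  (Loc.bex (Icc 2 N) fun n _ => loc_Cap n).congr_iff fun σ => by
    simp only [Alive, mem_Icc, and_assoc]
theorem loc_CNE (z : V) : Loc fun σ => CNE σ z :=
  (Loc.evalEq _ _).and ((Loc.evalEq _ _).and (Loc.evalEq _ _))

theorem loc_nxt (z : V) : Loc fun σ => nxt σ z := by
  refine ⟨{z + (0, -1), z + (1, 0), z + (1, -1)}, fun σ σ' h => ?_⟩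
  simp only [nxt]
  rw [h (z + (0, -1)) (by simp), h (z + (1, 0)) (by simp), h (z + (1, -1)) (by simp)]

theorem loc_Trk (B : Finset V) (z : V) : Loc fun σ => Trk B σ z := by
  obtain ⟨S, hS⟩ := Loc.common B (fun z σ => nxt σ z) fun z _ => loc_nxt z
  have key : ∀ σ σ' : Cfg, (∀ x ∈ S, σ x = σ' x) → ∀ z, Trk B σ z → Trk B σ' z := by
    intro σ σ' h z H
    induction H with
    | base => exact .base
    | step z hz _ ih =>
      have e : nxt σ z = nxt σ' z := hS z hz σ σ' h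
      exact .step z hz (e ▸ ih)
  exact ⟨S, fun σ σ' h => propext ⟨key σ σ' h z, key σ' σ (fun x hx => (h x hx).symm) z⟩⟩

theorem loc_NB (m : ℕ) (y : V) : Loc fun σ => NB m σ y :=
  (Loc.bex _ fun z _ => (loc_Trk _ z).and (Loc.const _)).and ((loc_Bad _).sh y)
theorem loc_Chl (m : ℕ) : Loc (Chl m) := Loc.sum _ fun y _ => (loc_NB m y).ind
theorem Chl_nonneg (m : ℕ) (σ : Cfg) : 0 ≤ Chl m σ := sum_nonneg fun _ _ => ind_nonneg _
theorem loc_Chg (m N : ℕ) : Loc (Chg m N) :=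
  Loc.sum _ fun n _ => (loc_Cap n).ind.mul ((((loc_Chl m).add ((loc_Chl m).mir n)).add
    (loc_Red 4).ind).add (Loc.sum _ fun i _ => ((loc_Red 2).sh _).ind.add ((loc_Red 2).sh _).ind))

theorem Arm.mono {M M' : ℕ} (h : M ≤ M') {σ : Cfg} (H : Arm M σ) : Arm M' σ := by
  obtain ⟨i, h1, h2, h3⟩ := H; exact ⟨i, h1, h2.trans h, h3⟩
theorem Hook.mono {M M' : ℕ} (h : M ≤ M') {σ : Cfg} (H : Hook M σ) : Hook M' σ := by
  obtain ⟨i, h1, h2, h3⟩ := H; exact ⟨i, h1, h2.trans h, h3⟩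
theorem PA.mono {M M' : ℕ} (h : M ≤ M') {σ : Cfg} (H : PA M σ) : PA M' σ := ⟨H.1, H.2.mono h⟩

theorem Cap.unique {n n' : ℕ} {σ : Cfg} (h : Cap n σ) (h' : Cap n' σ) : n = n' := by
  rcases lt_trichotomy n n' with H | H | H
  · have := (h'.2.2 n H).1
    simp only [zero_add] at this
    rw [h.2.1] at this; exact absurd this (by simp)
  · exact H
  · have := (h.2.2 n' H).1
    simp only [zero_add] at this
    rw [h'.2.1] at this; exact absurd this (by simp)

/-- a pattern with base point `o` next to `y` in the frame `g` -/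
theorem bad_of_pa {M : ℕ} {σ : Cfg} (y o : V) (g : Fr) (ho : o - y ∈ box 1)
    (h : PA M (act g (sh o σ))) : Bad M (sh y σ) :=
  ⟨o - y, ho, Or.inr ⟨g, by rwa [sh_sh, sub_add_cancel]⟩⟩
theorem bad_of_red {M : ℕ} {σ : Cfg} (y o : V) (ho : o - y ∈ box 1)
    (h : Red 2 (sh o σ)) : Bad M (sh y σ) :=
  ⟨o - y, ho, Or.inl (by rwa [sh_sh, sub_add_cancel])⟩
theorem red_of_U {r : ℕ} {σ : Cfg} (o : V) (h : 3 ≤ dis σ o) : Red r (sh o σ) :=
  .base _ 0 (zero_mem_box r) (by rwa [dis_sh, zero_add])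
theorem bad_of_U {M : ℕ} {σ : Cfg} (y o : V) (ho : o - y ∈ box 1) (h : 3 ≤ dis σ o) :
    Bad M (sh y σ) := bad_of_red y o ho (red_of_U o h)

end

end Pool.Agent.BA
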