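import Pool.Agent.Lib.BA.BasicP
import Pool.Agent.Lib.BA.BasicH

/-! Blueprint statements for sections U, H, P and the final assembly. -/

open Finset Filter Topology MeasureTheory

namespace Pool.Agent.BA

noncomputable section
open Classical

/-! ## Section U -/

/-- one Euler step: contraction of the sup norm, of the oscillations, and locality -/
def St_OSC : Prop :=
  ∀ (h : ℝ) (S : Finset V) (f : Cfg → ℝ), 0 ≤ h → h * S.card ≤ 1 →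
    (∀ M, (∀ σ, |f σ| ≤ M) → ∀ σ, |eul h S f σ| ≤ M) ∧
    (∀ β : V → ℝ, Osc f β → Osc (eul h S f) fun u => β u + h * ∑ x ∈ nbrs u, β x) ∧
    (∀ (z : V) (r : ℕ), S ⊆ boxAt z r → DepOn f (boxAt z (r + 1)) → DepOn (eul h S f) (boxAt z (r + 1)))

/-- telescoping against a solution of the forward equation -/
def St_EULER : Prop :=
  ∀ S : Finset V, ∃ C : ℝ, 0 ≤ C ∧ ∀ m, Flow m → ∀ (g : ℕ → Cfg → ℝ) (M η h : ℝ) (k : ℕ), 0 ≤ h →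
    (∀ i, DepOn (g i) S) → (∀ i σ, |g i σ| ≤ M) →
    (∀ i, i < k → ∀ σ, |g (i + 1) σ - g i σ - h * gen (g i) σ| ≤ h * η) →
    |m (k * h) (g 0) - m 0 (g k)| ≤ k * h * (η + h * C * M)

/-- two centre finite volume approximation -/
def St_APX : Prop :=
  ∀ (f1 f2 : Cfg → ℝ) (x1 x2 : V) (r0 r : ℕ) (t ε : ℝ), r0 ≤ r → 0 ≤ t → 0 < ε →
    DepOn f1 (boxAt x1 r0) → DepOn f2 (boxAt x2 r0) → (∀ σ, |f1 σ| ≤ 1) → (∀ σ, |f2 σ| ≤ 1) →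
    Disjoint (boxAt x1 (r + 1)) (boxAt x2 (r + 1)) →
    ∃ F1 F2 : Cfg → ℝ, DepOn F1 (boxAt x1 (r + 1)) ∧ DepOn F2 (boxAt x2 (r + 1)) ∧
      (∀ σ, |F1 σ| ≤ 1) ∧ (∀ σ, |F2 σ| ≤ 1) ∧ ∀ m, Flow m →
      |m t f1 - m 0 F1| ≤ 4 * t * (2 * r + 3) ^ 2 * Real.exp (8 * t) * 2 ^ r0 / 2 ^ r + ε ∧
      |m t f2 - m 0 F2| ≤ 4 * t * (2 * r + 3) ^ 2 * Real.exp (8 * t) * 2 ^ r0 / 2 ^ r + ε ∧
      |m t (fun σ => f1 σ * f2 σ) - m 0 (fun σ => F1 σ * F2 σ)| ≤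
        4 * t * (2 * r + 3) ^ 2 * Real.exp (8 * t) * 2 ^ r0 / 2 ^ r + ε

/-- uniqueness gives the symmetries -/
def St_UNIQ : Prop := ∀ m, Flow m → Init (m 0) → SFlow m

def St_COV : Prop := ∀ m, SFlow m → Init (m 0) → Decor m

/-! ## Section H -/

def St_PSD : Prop :=
  ∀ Q, PSD Q → ∀ u : A,
    (Q (ww * u) (ww * u) ≤ Q u u - Q (dX * u) (dX * u) / 4) ∧
    (Q (ww * u) (ww * u) ≤ Q u u - Q (dY * u) (dY * u) / 4) ∧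
    (∀ d, d = dX ∨ d = dY → ∀ n : ℕ,
      ∑ j ∈ range n, Q (ww ^ j * d * u) (ww ^ j * d * u) ≤ 4 * Q u u ∧
      Q (ww ^ n * d * u) (ww ^ n * d * u) ≤ 4 * Q u u / (n + 1)) ∧
    (∀ n q : ℕ, Q (ww ^ n * u) (ww ^ n * u) ^ (q + 1) ≤
      Q (ww ^ ((q + 1) * n) * u) (ww ^ ((q + 1) * n) * u) * Q u u ^ q)

/-- coefficient norms of the smoothed gradients -/
def St_LSQ : Prop :=
  ∀ d, d = dX ∨ d = dY → ∀ n : ℕ,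
    ∑ j ∈ range n, lsq (ww ^ j * d) ≤ 4 ∧ ∀ i, n ≤ i → lsq (ww ^ i * d) ≤ 4 / (n + 1)

/-- the gradient identity -/
def St_GRAD : Prop :=
  ∀ σ, |gen fa σ - ((2 * fb σ - fb (sh (0, 1) σ) - fb (sh (0, -1) σ)) / 2 +
      (remA (sh (0, 1) σ) - remA σ) / 2)| ≤
    3 * (fU σ + fO σ + fU (sh (0, 1) σ) + fO (sh (0, 1) σ))

/-- quadratic variation -/
def St_QV : Prop :=
  ∀ m, St m → ∀ u : A, Prob u →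
    m (gam (cv u fa) (cv u fa)) ≤ lsq (u * dY) * m fK + 4 * (m fU + m fO) ∧
    m (gam (cv u fb) (cv u fb)) ≤ lsq (u * dX) * m fK + 4 * (m fU + m fO)

/-- the smoothed remainder is small -/
def St_REM : Prop :=
  ∀ m, St m → ∀ n : ℕ, ∑ j ∈ range n, nsq m (ww ^ j) remA ≤ 64 * m fK ∧
    ∀ i, n ≤ i → nsq m (ww ^ i) remA ≤ 64 * m fK / (n + 1)

/-- smoothed form of the gradient identity, tested against a bounded local function -/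
def St_GT : Prop :=
  ∀ m, St m → ∀ u : A, Prob u → ∀ g : Cfg → ℝ, Loc g → (∀ σ, |g σ| ≤ 1) →
    |m (fun σ => cv u (gen fa) σ * g σ) -
      (m (fun σ => cv (u * dY) fb σ * cv dY g σ) / 2 -
        m (fun σ => cv u remA σ * cv (xs (0, -1) * dY) g σ) / 2)| ≤ 6 * (m fU + m fO)

def St_FDER : Prop :=
  ∃ C : ℝ, 0 ≤ C ∧ ∀ m, St m → ∀ n : ℕ,
    (XX m n + YY m n) / 4 - C * m fK - C * n * (m fU + m fO) ≤ m (gen (FF n))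

def St_PUR : Prop :=
  ∀ m, St m → ∀ n : ℕ,
    m (fun σ => cv (ww ^ n) fa σ * cv (ww ^ n) fb σ) ≤ m fK + (√(XX m n) + √(YY m n)) / 2

def St_VDER : Prop :=
  ∃ C : ℝ, 0 ≤ C ∧ ∀ m, St m → ∀ j i : ℕ, j ≤ i →
    m (gen (NN i)) ≤ 6 * (m (NN j) - m (NN (j + 1))) + C * m fK / (j + 1) + C * (m fU + m fO)

def St_VPROP : Prop :=
  ∃ C : ℝ, 0 ≤ C ∧ ∀ m, SFlow m → ∀ (t s : ℝ) (n j : ℕ), 0 ≤ t → t ≤ s → n + 8 * (s - t) + 1 ≤ j →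
    m s (NN j) ≤ m t (NN n) + C / (n + 1) * (∫ r in t..s, m r fK) +
      C * ∫ r in t..s, (m r fU + m r fO)

def St_VINIT : Prop :=
  ∀ m, St m → ∀ f : Cfg → ℝ, Loc f → (∀ σ, 0 ≤ f σ ∧ f σ ≤ 1) → ∀ (K R n : ℕ) (c : ℝ), 0 < K → 0 ≤ c →
    (∀ k : ℕ, 1 ≤ k → k < K → m (fun σ => f σ * f (sh ((k * R : ℕ), 0) σ)) ≤ m f ^ 2 + c) →
    nsq m (ww ^ n) f - m f ^ 2 ≤ 2 * (1 / K + c) + 8 * (K * R) ^ 2 / (n + 1)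

/-- lower bound of the cross term from a small variance at a larger scale -/
def St_VLOG : Prop :=
  ∀ m, St m → ∀ (n q : ℕ) (θ : ℝ), 0 ≤ θ →
    m (NN ((q + 1) * n)) - m fa ^ 2 - m fb ^ 2 ≤ θ ^ (q + 1) →
    m fa * m fb - θ ≤ m (fun σ => cv (ww ^ n) fa σ * cv (ww ^ n) fb σ)

def St_ENERGY : Prop :=
  ∀ m, SFlow m → ∀ t s : ℝ, 0 ≤ t → t ≤ s → m s fe + 2 * ∫ r in t..s, m r fU ≤ m t fe

def St_HMAIN : Prop :=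
  ∀ α : ℝ, 0 < α → ∃ (A : ℕ) (δ : ℝ), 0 < δ ∧ ∀ m, SFlow m → ∀ (t : ℝ) (n : ℕ), 0 ≤ t → 1 ≤ n →
    (∀ s, t ≤ s → α ≤ m s fa) →
    m t (NN n) - m t fa ^ 2 - m t fb ^ 2 ≤ δ →
    (∫ r in t..t + A * n, (m r fU + m r fO)) ≤ δ →
    (∫ r in t..t + A * n, m r fK) ≤ δ * n →
    m t fe - m (t + A * n) fe ≤ δ → False

/-! ## Section P: tools -/

/-- mass transport -/
def St_MT : Prop :=
  ∀ D, Lin D → ∀ (S : Finset V) (R : V → Cfg → Prop) (g : Cfg → ℝ), (∀ z ∈ S, Loc (R z)) → Loc g →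
    (∀ σ, 0 ≤ g σ) →
    (∀ σ, ∀ z ∈ S, ∀ z' ∈ S, R z (sh (-z) σ) → R z' (sh (-z') σ) → z = z') →
    D (fun σ => ∑ z ∈ S, ind (R z σ) * g (sh z σ)) ≤ D g

def St_STEP : Prop :=
  ∀ lam D, 0 ≤ lam → Fn lam D → ∀ (p q : Cfg → Prop) (E : Cfg → ℝ), Loc p → Loc q → Loc E →
    (∀ σ, 0 ≤ E σ) → (∀ σ, q σ → p σ ∨ ∃ y, 2 ≤ dis σ y ∧ p (flp σ y)) →
    (∀ σ, p σ → -E σ ≤ gen (fun τ => ind (p τ)) σ) →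
    D (fun σ => ind (q σ)) ≤ (1 + 2 * lam) * D (fun σ => ind (p σ)) + 2 * D E

def St_RED : Prop :=
  ∀ r, ∃ K : ℝ, 0 ≤ K ∧ ∀ lam, 0 ≤ lam → lam ≤ 1 → Dom lam K fun σ => ind (Red r σ)

def St_SPARSE : Prop :=
  ∀ (p : Cfg → Prop) (v : V) (w : ℕ), Loc p →
    (∀ σ (i : ℕ), 1 ≤ i → i ≤ w → p σ → ¬ p (sh (i • v) σ)) →
    Sparse (1 / (w + 1)) fun σ => ind (p σ)

/-- opposite ties that are not pinwheels, and flips in the middle of a straight interface -/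
def St_NPW : Prop :=
  (∀ σ, Opp σ → (σ (-1, 1) = σ (1, 1) ∨ σ (1, 1) = σ (1, -1) ∨ σ (1, -1) = σ (-1, -1) ∨
    σ (-1, -1) = σ (-1, 1)) → Red 2 σ) ∧
  (∀ σ (c r : ℤ), Bond σ (c - 1) r → Bond σ c r → Bond σ (c + 1) r →
    (2 ≤ dis σ (c, r) → Red 2 (sh (c, r) σ)) ∧ (2 ≤ dis σ (c, r + 1) → Red 2 (sh (c, r + 1) σ)))

/-- caps shrink -/
def St_CAP : Prop :=
  (∀ n σ, 1 ≤ n → Cap n σ → Red (n + 2) σ) ∧ (∀ M σ, Cr M σ → Red (M + 3) σ) ∧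
  (∀ M σ, Cr M σ → σ (1, 1) = false → Red 2 σ)

def St_KAP : Prop :=
  ∀ (w i j : ℕ) σ, 1 ≤ i → i ≤ w → 1 ≤ j → j ≤ w → σ 0 = true → CNE σ (-(i : ℤ), 0) →
    CNE σ (0, -(j : ℤ)) → Red (2 * w + 4) σ

def St_KDOM : Prop :=
  ∀ w : ℕ, ∃ K : ℝ, 0 ≤ K ∧ ∀ lam, 0 ≤ lam → lam ≤ 1 →
    ∃ G Sp, Dom lam K G ∧ Sparse (32 / (w + 1)) Sp ∧ (∀ σ, 0 ≤ G σ) ∧ ∀ σ, fK σ ≤ G σ + Sp σ

def St_ODEC : Prop :=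
  ∃ C : ℝ, 0 ≤ C ∧ ∀ (L : ℕ) lam K, 0 ≤ lam → lam ≤ 1 → 0 ≤ K → (Dom lam K fun σ => ind (PA L σ)) →
    ∃ G Sp, Dom lam (C * (K + 1)) G ∧ Sparse (16 / (L + 1)) Sp ∧ (∀ σ, 0 ≤ G σ) ∧
      ∀ σ, fO σ ≤ G σ + Sp σ

/-- step into a pattern `q` on the columns left of the arm; `a` locates the left end of the run -/
def St_ARM : Prop :=
  ∀ lam D, 0 ≤ lam → lam ≤ 1 → Fn lam D → ∀ (q p : Cfg → Prop) (Q : Finset V) (a M : ℕ),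
    DepOn q Q → Loc p → 1 ≤ a →
    (∀ σ, q σ → (∀ i : ℕ, i < a → Bond σ (-(i : ℤ)) 0) ∧ ¬ Bond σ (-(a : ℤ)) 0) →
    (∀ σ, p σ → (q σ ∧ Hook M σ) ∨ ∃ y, 2 ≤ dis σ y ∧ q (flp σ y) ∧ Hook M (flp σ y)) →
    D (fun σ => ind (p σ)) ≤ (2 * Q.card + 9) * D (fun σ => ind (q σ ∧ Hook M σ)) +
      4 * D (fun σ => ind (Red 2 σ))

def St_CHAIN : Prop :=
  ∃ C : ℝ, 0 ≤ C ∧ ∀ (L : ℕ) lam K, 0 ≤ lam → lam ≤ 1 → 0 ≤ K →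
    (Dom lam K fun σ => ind (Cr (L + 1) σ)) → Dom lam (C * (K + 1)) fun σ => ind (PA L σ)

/-! ## Section P: zero range potential -/

def St_HEAT : Prop :=
  ∀ m : ℕ, (∀ r i, 0 ≤ yz m r i ∧ yz m r i ≤ 1) ∧ (∀ r i, yz m (r + 1) i ≤ yz m r i) ∧
    ∀ k r i : ℕ, 2 ≤ k → k ≤ m → 8 * r ≤ k ^ 2 → 1 ≤ i → i < m → 1 / (k : ℝ) ≤ yz m r i

def St_PROD : Prop :=
  ∀ (m R : ℕ) (n : ℕ → ℕ), 2 ≤ m → (Wz m (R + 1) (ent n) - Wz m (R + 1) n) / 2 +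
    ∑ i ∈ Ico 1 m, ind (1 ≤ n i) * ((Wz m (R + 1) (hop i (i - 1) n) - Wz m (R + 1) n) / 2 +
      (Wz m (R + 1) (hop i (i + 1) n) - Wz m (R + 1) n) / 2)
      ≤ Az m R - ind (∀ i, 1 ≤ i → i < m → n i = 0)

def St_ZRP : Prop :=
  ∃ Wm C : ℝ, 0 ≤ Wm ∧ 0 ≤ C ∧ ∀ ε : ℝ, 0 < ε → ε ≤ 1 →
    ∃ (m : ℕ) (W : (ℕ → ℕ) → ℝ), 2 ≤ m ∧ (m : ℝ) ≤ C * (1 + Real.log (1 / ε)) ^ 2 ∧ Pot m Wm ε W

/-! ## Section P: the left staircase -/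

def St_PAR1 : Prop :=
  ∀ m Wm ε W, Pot m Wm ε W →
    (∀ σ k p, Str m σ k p → Wl m W (p 1) σ ≤ W (gaps k p)) ∧
    (∀ σ k p q, Str m σ k p → ZCl m σ k p q → Wl m W (p 1) σ = 0) ∧
    (∀ σ k p q, Str m σ k p → k < m → σ (p k, (k : ℤ) + 1) = true → q ≤ p k → Run σ k q (p k) →
      Wl m W (p 1) σ ≤ W (Function.update (gaps k p) k (p k - q).toNat)) ∧
    (∀ x σ, 0 ≤ Wl m W x σ ∧ Wl m W x σ ≤ Wm) ∧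
    (∀ x a σ, Wl m W x (sh (a, 0) σ) = Wl m W (x + a) σ) ∧
    DepOn (Wl m W 0) (LB m)

def St_PAR2 : Prop :=
  ∀ m Wm ε W, Pot m Wm ε W → 1 ≤ m → ∀ σ (x : ℤ), σ (x, 1) = true → σ (x - 1, 1) = false →
    ∃ k p, Str m σ k p ∧ p 1 = x ∧
      ((∃ q, ZCl m σ k p q) ∨ (NCl m σ k p ∧ Wl m W x σ = W (gaps k p)))

/-- sites read by a staircase -/
def Rd (k : ℕ) (p : ℕ → ℤ) (y : V) : Prop :=
  (∃ i : ℕ, 1 ≤ i ∧ i ≤ k ∧ (y = (p i, (i : ℤ)) ∨ y = (p i - 1, (i : ℤ)) ∨ y = (p i, (i : ℤ) + 1))) ∨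
  ∃ (i : ℕ) (c : ℤ), 1 ≤ i ∧ i < k ∧ p (i + 1) ≤ c ∧ c < p i ∧ (y = (c, (i : ℤ) + 1) ∨ y = (c, (i : ℤ)))

/-- sites read by the closing run -/
def RdZ (k : ℕ) (p : ℕ → ℤ) (q : ℤ) (y : V) : Prop :=
  ∃ c : ℤ, q - 1 ≤ c ∧ c < p k ∧ (y = (c, (k : ℤ) + 1) ∨ y = (c, (k : ℤ)))

def Near (m : ℕ) (σ : Cfg) (y : V) : Prop := ∃ z ∈ LB m, Trk (LB m) σ z ∧ y - z ∈ box 1

/-- tracking, windows, unread sites, the south arm -/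
def St_TRK : Prop :=
  ∀ m σ k p, Str m σ k p →
    (p 1 = 0 → (∀ y, Rd k p y → Near m σ y) ∧ Near m σ (0, 0) ∧
      (∀ q y, ZCl m σ k p q → RdZ k p q y → Near m σ y) ∧
      (∀ i, 1 ≤ i → i ≤ k → (p i, (i : ℤ)) ∈ LB m ∧ (p i - 1, (i : ℤ)) ∈ LB m)) ∧
    (∀ y, ¬ Rd k p y → Str m (flp σ y) k p ∧
      ∀ q, ZCl m σ k p q → ¬ RdZ k p q y → ZCl m (flp σ y) k p q) ∧
    (σ (p 1, 0) = false → ∀ i, 1 ≤ i → i ≤ k →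
      ∃ j : ℕ, 1 ≤ j ∧ j ≤ i ∧ ¬ (σ (p i, (i : ℤ) - j) = true ∧ σ (p i - 1, (i : ℤ) - j) = false)) ∧
    (p 1 = 0 → Strt m σ → (∀ i, 1 ≤ i → i ≤ k → p i = 0) ∧ ∀ q, ¬ ZCl m σ k p q)

/-- local bad patterns with a south arm -/
def St_SS : Prop :=
  ∀ m σ k p, Str m σ k p → σ (p 1, 0) = false → ∀ i : ℕ, 1 ≤ i → i ≤ k → σ (p i, (i : ℤ) + 1) = true →
    (σ (p i - 1, (i : ℤ) + 1) = true → 2 ≤ dis σ (p i, (i : ℤ) + 1) →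
      Bad (m + 1) (sh (p i, (i : ℤ) + 1) σ)) ∧
    (∀ c, c < p i → Run σ i (c - 1) (p i) → 2 ≤ dis σ (c, (i : ℤ) + 1) →
      Bad (m + 1) (sh (c, (i : ℤ) + 1) σ)) ∧
    (2 ≤ i → p i = p (i - 1) → 2 ≤ dis σ (p i, (i : ℤ)) → Bad (m + 1) (sh (p i, (i : ℤ)) σ)) ∧
    (2 ≤ i → σ (p i - 1, (i : ℤ) + 1) = false → σ (p i - 1, (i : ℤ) - 1) = false →
      2 ≤ dis σ (p i - 1, (i : ℤ)) → Bad (m + 1) (sh (p i - 1, (i : ℤ)) σ))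

/-- local bad patterns at the left end of a run -/
def St_SE : Prop :=
  ∀ (m : ℕ) σ (i : ℕ) (q p : ℤ), Run σ i q p → q < p → p - q ≤ m → σ (p, (i : ℤ)) = true →
    σ (p, (i : ℤ) + 1) = true →
    (q + 1 < p → σ (q - 1, (i : ℤ) + 1) = false → 2 ≤ dis σ (q, (i : ℤ)) →
      Bad (m + 1) (sh (q, (i : ℤ)) σ)) ∧
    (σ (q - 1, (i : ℤ) + 1) = true → σ (q - 1, (i : ℤ)) = true →
      (2 ≤ dis σ (q - 1, (i : ℤ) + 1) → Bad (m + 1) (sh (q - 1, (i : ℤ) + 1) σ)) ∧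
      (2 ≤ dis σ (q - 1, (i : ℤ)) → Bad (m + 1) (sh (q - 1, (i : ℤ)) σ) ∨
        (σ (q - 2, (i : ℤ) + 1) = true ∧ σ (q - 2, (i : ℤ)) = true)) ∧
      (2 ≤ dis σ (q, (i : ℤ) + 1) → Bad (m + 1) (sh (q, (i : ℤ) + 1) σ)))

/-- the moves up and out -/
def St_CUP : Prop :=
  ∀ m Wm ε W, Pot m Wm ε W → 2 ≤ m → ∀ σ k p, H0 σ → Str m σ k p → p 1 = 0 →
    (∀ i : ℕ, 1 ≤ i → i < k → p (i + 1) < p i →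
      Bad (m + 1) (sh (p (i + 1), (i : ℤ) + 1) σ) ∨ (dis σ (p (i + 1), (i : ℤ) + 1) = 2 ∧
        (NCl m σ k p → Wl m W 0 (flp σ (p (i + 1), (i : ℤ) + 1)) ≤ W (hop i (i + 1) (gaps k p))) ∧
        (∀ q, ZCl m σ k p q → Wl m W 0 (flp σ (p (i + 1), (i : ℤ) + 1)) = 0))) ∧
    (Bad (m + 1) (sh (0, 1) σ) ∨ (dis σ (0, 1) = 2 ∧
        (NCl m σ k p → Wl m W 1 (flp σ (0, 1)) ≤ W (ent (gaps k p))) ∧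
        (∀ q, ZCl m σ k p q → Wl m W 1 (flp σ (0, 1)) = 0)))

/-- the moves down and in -/
def St_CDN : Prop :=
  ∀ m Wm ε W, Pot m Wm ε W → 0 ≤ ε → ∀ σ k p, H0 σ → Str m σ k p → p 1 = 0 →
    (∀ i : ℕ, 2 ≤ i → i < k → p (i + 1) < p i →
      Bad (m + 1) (sh (p i - 1, (i : ℤ)) σ) ∨ (dis σ (p i - 1, (i : ℤ)) = 2 ∧
        Wl m W 0 (flp σ (p i - 1, (i : ℤ))) ≤ W (hop i (i - 1) (gaps k p)) ∧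
        (∀ q, ZCl m σ k p q → Wl m W 0 (flp σ (p i - 1, (i : ℤ))) = 0))) ∧
    (∀ q, ZCl m σ k p q → 2 ≤ k →
      Bad (m + 1) (sh (p k - 1, (k : ℤ)) σ) ∨ Wl m W 0 (flp σ (p k - 1, (k : ℤ))) ≤ ε) ∧
    (1 < k → p 2 < 0 → Bad (m + 1) (sh (-1, 1) σ) ∨ (dis σ (-1, 1) = 2 ∧ σ (-1, 0) = false ∧
      σ (-2, 1) = false ∧ Wl m W (-1) (flp σ (-1, 1)) ≤ W (hop 1 0 (gaps k p)) ∧
        (∀ q, ZCl m σ k p q → Wl m W (-1) (flp σ (-1, 1)) = 0))) ∧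
    (∀ q, ZCl m σ k p q → k = 1 → Bad (m + 1) (sh (-1, 1) σ) ∨ (dis σ (-1, 1) = 2 ∧
      σ (-1, 0) = false ∧ σ (-2, 1) = false ∧ Wl m W (-1) (flp σ (-1, 1)) ≤ ε))

/-- the killing moves -/
def St_KILL : Prop :=
  ∀ (m : ℕ) σ, H0 σ →
    ((σ (-1, 2) = false ∨ σ (0, 2) = false) → 2 ≤ dis σ (-1, 1) →
      Bad (m + 1) (sh (-1, 1) σ) ∨ (Strt m σ ∧ dis σ (-1, 1) = 2)) ∧
    (2 ≤ dis σ (0, 0) → Bad (m + 1) (sh (0, 0) σ) ∨ (Strt m σ ∧ dis σ (0, 0) = 2))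

def St_RESTN : Prop :=
  ∀ m Wm ε W, Pot m Wm ε W → ∀ σ k p, H0 σ → Str m σ k p → p 1 = 0 → NCl m σ k p →
    ∀ y : V, 2 ≤ dis σ y → y ≠ (0, 1) → y ≠ (-1, 1) →
      (∀ i : ℕ, 1 ≤ i → i < k → p (i + 1) < p i →
        y ≠ (p (i + 1), (i : ℤ) + 1) ∧ y ≠ (p i - 1, (i : ℤ))) →
      NB m σ y ∨ Wl m W 0 (flp σ y) ≤ W (gaps k p)

def St_RESTZ : Prop :=
  ∀ m Wm ε W, Pot m Wm ε W → 0 ≤ ε → 2 ≤ m → ∀ σ k p q, H0 σ → Str m σ k p → p 1 = 0 →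
    ZCl m σ k p q → ∀ y : V, 2 ≤ dis σ y → y ≠ (0, 1) → y ≠ (-1, 1) →
      NB m σ y ∨ Wl m W 0 (flp σ y) = 0 ∨
        ((y = (p k - 1, (k : ℤ)) ∨ y = (q, (k : ℤ) + 1)) ∧ Wl m W 0 (flp σ y) ≤ ε)

/-- conclusion of the left lemma -/
def LeftIneq (m : ℕ) (W : (ℕ → ℕ) → ℝ) (ε ρ : ℝ) (σ : Cfg) : Prop :=
  ((1 - ρ) ^ 2 / (2 * ρ) - 3 * ε) * hl m W 0 σ - 2 * Chl m σ ≤
    ∑ y ∈ LB m, rate σ y * (gain m W ρ σ y - hl m W 0 σ)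

def St_LEFTN : Prop :=
  ∀ m Wm ε W ρ, Pot m Wm ε W → 0 ≤ ε → 2 ≤ m → 1 / 2 ≤ ρ → ρ ≤ 1 → ∀ σ k p, H0 σ → Str m σ k p →
    p 1 = 0 → NCl m σ k p → Wl m W 0 σ = W (gaps k p) → LeftIneq m W ε ρ σ

def St_LEFTZ : Prop :=
  ∀ m Wm ε W ρ, Pot m Wm ε W → 0 ≤ ε → 2 ≤ m → 1 / 2 ≤ ρ → ρ ≤ 1 → ∀ σ k p q, H0 σ → Str m σ k p →
    p 1 = 0 → ZCl m σ k p q → LeftIneq m W ε ρ σ

def St_LEFT : Prop :=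
  ∀ m Wm ε W ρ, Pot m Wm ε W → 0 ≤ ε → 2 ≤ m → 1 / 2 ≤ ρ → ρ ≤ 1 → ∀ σ, H0 σ → LeftIneq m W ε ρ σ

/-! ## Section P: the cap potential -/

/-- comparison of `val` with the gains of the two ends -/
def St_VAL : Prop :=
  ∀ m Wm ε W ρ N n σ, Pot m Wm ε W → 2 ≤ m → 1 / 2 ≤ ρ → ρ ≤ 1 → 2 ≤ n → n < N → Cap n σ →
    (∀ y ∈ LB m, (n = 2 ∧ y = (0, 1)) ∨
      ρ ^ n * hl m W 0 (mir n σ) * gain m W ρ σ y - ρ ^ N ≤ val m W ρ N σ y) ∧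
    (∀ y ∈ LB m, (n = 2 ∧ y = (0, 1)) ∨
      ρ ^ n * hl m W 0 σ * gain m W ρ (mir n σ) y - ρ ^ N ≤ val m W ρ N σ ((n : ℤ) - 1 - y.1, y.2)) ∧
    (∀ y : V, y ∉ LB m → ((n : ℤ) - 1 - y.1, y.2) ∉ LB m →
      ¬ (0 ≤ y.1 ∧ y.1 < n ∧ (y.2 = 0 ∨ y.2 = 1)) → val m W ρ N σ y = psi m W ρ N σ)

def St_PSI : Prop :=
  ∀ m Wm ε W ρ N, Pot m Wm ε W → 0 ≤ ρ → ρ ≤ 1 →
    DepOn (psi m W ρ N) (BB m N) ∧ (∀ σ, 0 ≤ psi m W ρ N σ ∧ psi m W ρ N σ ≤ 1) ∧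
    (∀ σ, ¬ Alive N σ → psi m W ρ N σ = 0) ∧
    (∀ n σ, 2 ≤ n → n ≤ N → Cap n σ →
      psi m W ρ N σ = max 0 (ρ ^ n * hl m W 0 σ * hl m W 0 (mir n σ) - ρ ^ N) ∧
      ρ ^ n * Real.exp (-(2 * Wm)) - ρ ^ N ≤ psi m W ρ N σ) ∧
    (∀ x σ, 0 < hl m W x σ ∧ hl m W x σ ≤ 1) ∧
    Loc fun σ => ∑ y ∈ BB m N, rate σ y * (val m W ρ N σ y - psi m W ρ N σ)

def St_MASTER : Prop :=
  ∀ m Wm ε W ρ N lam, Pot m Wm ε W → 0 ≤ ε → 2 ≤ m → 1 / 2 ≤ ρ → ρ ≤ 1 → 0 ≤ lam →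
    lam ≤ 2 * ((1 - ρ) ^ 2 / (2 * ρ) - 3 * ε) → ∀ σ, Alive N σ →
    lam * psi m W ρ N σ - 4 * Chg m N σ ≤
      ∑ y ∈ BB m N, rate σ y * (val m W ρ N σ y - psi m W ρ N σ)

def St_FLUX : Prop :=
  ∀ m Wm ε W ρ N M c D, Pot m Wm ε W → 0 ≤ ρ → ρ ≤ 1 → M ≤ N → 0 ≤ c →
    c ≤ ρ ^ M * Real.exp (-(2 * Wm)) - ρ ^ N → Lin D →
    D (fun σ => ind (Alive N σ) * ∑ y ∈ BB m N, rate σ y * (val m W ρ N σ y - psi m W ρ N σ)) +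
      c / 2 * D (fun σ => ind (Cr M σ ∧ σ (1, 1) = true)) ≤ D (gen (psi m W ρ N))

/-- a tracked site belongs to at most one cap -/
def St_OWN : Prop :=
  ∀ (B : Finset V) σ (z z' : V) (n n' : ℕ), 1 ≤ n → 1 ≤ n' → Cap n (sh (-z) σ) → Cap n' (sh (-z') σ) →
    Trk B (sh (-z) σ) z → Trk B (sh (-z') σ) z' → z = z'

def St_CHG : Prop :=
  ∀ m N lam K1 K2, (Dom lam K1 fun σ => ind (Bad (m + 1) σ)) → (Dom lam K2 fun σ => ind (Red 4 σ)) →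
    Dom lam (18 * K1 + 3 * K2) (Chg m N)

def St_CAPDOM : Prop :=
  ∃ C : ℝ, 0 ≤ C ∧ ∀ L : ℕ, 2 ≤ L → ∃ m : ℕ, (m : ℝ) ≤ C * (1 + Real.log L) ^ 2 ∧
    ∀ lam K, 0 ≤ lam → lam ≤ 1 / (2 * (L : ℝ) ^ 2) → 0 ≤ K → (Dom lam K fun σ => ind (PA (m + 1) σ)) →
      Dom lam (C * (K + 1)) fun σ => ind (Cr (L + 1) σ)

def St_REC : Prop :=
  ∃ K : ℝ, 0 ≤ K ∧ ∀ (b : ℕ) lam, 0 ≤ lam → lam ≤ 1 / (2 * (Lb b : ℝ) ^ 2) →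
    Dom lam (K * (b + 1)) fun σ => ind (PA (Lb b) σ)

/-! ## Final assembly -/

/-- the discounted functional of a flow -/
def St_DFUN : Prop :=
  ∀ m, SFlow m → ∀ t lam : ℝ, 0 ≤ t → 0 < lam → ∃ D, Fn lam D ∧
    (∀ f T, Loc f → (∀ σ, 0 ≤ f σ) → 0 ≤ T → lam * T ≤ 1 → (∫ r in t..t + T, m r f) ≤ 3 * D f) ∧
    ∀ τ, 0 ≤ τ → D fU ≤ (m t fe - m (t + τ) fe) / 2 + Real.exp (-(lam * τ))

/-- window estimates at a good epoch -/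
def St_WIN : Prop :=
  ∀ m, SFlow m → ∀ (A : ℕ) (δ : ℝ), 0 < δ → ∀ b0 : ℕ, ∃ b, b0 ≤ b ∧
    (∫ r in (Lb b : ℝ)..(Lb b : ℝ) + A * ((Lb b ^ 7 : ℕ) : ℝ), (m r fU + m r fO)) ≤ δ ∧
    (∫ r in (Lb b : ℝ)..(Lb b : ℝ) + A * ((Lb b ^ 7 : ℕ) : ℝ), m r fK) ≤ δ * ((Lb b ^ 7 : ℕ) : ℝ) ∧
    m (Lb b) fe - m ((Lb b : ℝ) + A * ((Lb b ^ 7 : ℕ) : ℝ)) fe ≤ δ

/-- summability against the harmonic series -/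
def St_HARM : Prop :=
  ∀ (e : ℕ → ℝ), Antitone e → (∀ b, 0 ≤ e b) → ∀ δ : ℝ, 0 < δ → ∀ b0 : ℕ,
    ∃ b, b0 ≤ b ∧ (b + 5) * (e b - e (b + 6)) ≤ δ

def St_CORE : Prop :=
  ∀ m, Flow m → Init (m 0) → (∀ t, 0 ≤ t → St (m t)) ∧ Tendsto (fun t => m t fe) atTop (𝓝 0)

theorem yz_eq_real : True := by
  have := @yz.eq_def
  have := @yz.eq_1
  have := @yz.eq_2
  trivial

end

end Pool.Agent.BA
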