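import Pool.Agent.Lib.BA.Model

/-! Internal definitions for the clustering theorem. -/

open MeasureTheory Filter Topology Finset

namespace Pool.Agent.BA

noncomputable section
open Classical

/-! ### Local dynamics -/

/-- indicator of a proposition -/
def ind (p : Prop) : ℝ := if p then 1 else 0

/-- number of disagreeing neighbours -/
def dis (σ : Cfg) (x : V) : ℕ :=
  (if σ (x + (1, 0)) = σ x then 0 else 1) + (if σ (x + (-1, 0)) = σ x then 0 else 1) +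
  (if σ (x + (0, 1)) = σ x then 0 else 1) + (if σ (x + (0, -1)) = σ x then 0 else 1)

/-- flip rate -/
def rate (σ : Cfg) (x : V) : ℝ := if dis σ x ≤ 1 then 0 else if dis σ x = 2 then 1 / 2 else 1

def flp (σ : Cfg) (x : V) : Cfg := Function.update σ x (!σ x)

def genOn (S : Finset V) (f : Cfg → ℝ) (σ : Cfg) : ℝ := ∑ y ∈ S, rate σ y * (f (flp σ y) - f σ)

/-- the generator (a finite sum on local functions) -/
def gen (f : Cfg → ℝ) (σ : Cfg) : ℝ := ∑ᶠ y, rate σ y * (f (flp σ y) - f σ)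

def DepOn {α : Sort*} (f : Cfg → α) (S : Finset V) : Prop :=
  ∀ σ σ' : Cfg, (∀ x ∈ S, σ x = σ' x) → f σ = f σ'

/-- local function (values in any type, also `Prop`) -/
def Loc {α : Sort*} (f : Cfg → α) : Prop := ∃ S : Finset V, DepOn f S

/-- the configuration seen from `z` -/
def sh (z : V) (σ : Cfg) : Cfg := fun x => σ (x + z)

/-- square box of radius `r` around `z` -/
def boxAt (z : V) (r : ℕ) : Finset V :=
  Finset.Icc (z.1 - r) (z.1 + r) ×ˢ Finset.Icc (z.2 - r) (z.2 + r)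

def box (r : ℕ) : Finset V := boxAt 0 r

/-- frames: global spin flip `s`, reflections `a` (first coordinate), `b` (second coordinate), transposition `t` -/
structure Fr where
  s : Bool
  a : Bool
  b : Bool
  t : Bool
  deriving DecidableEq, Fintype

def Fr.lin (g : Fr) (x : V) : V :=
  (if g.a then -(if g.t then x.2 else x.1) else (if g.t then x.2 else x.1),
   if g.b then -(if g.t then x.1 else x.2) else (if g.t then x.1 else x.2))

def act (g : Fr) (σ : Cfg) : Cfg := fun x => xor g.s (σ (g.lin x))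

/-- transposition -/
def trp (σ : Cfg) : Cfg := fun x => σ (x.2, x.1)

/-- vertical bond above the origin is an interface -/
def fa (σ : Cfg) : ℝ := ind (σ (0, 1) ≠ σ 0)
/-- horizontal bond to the right of the origin is an interface -/
def fb (σ : Cfg) : ℝ := ind (σ (1, 0) ≠ σ 0)
/-- energy density -/
def fe (σ : Cfg) : ℝ := fa σ + fb σ
/-- the origin is unstable -/
def fU (σ : Cfg) : ℝ := ind (3 ≤ dis σ 0)
/-- opposite tie at the origin -/
def Opp (σ : Cfg) : Prop := σ (0, 1) = σ (0, -1) ∧ σ (1, 0) = σ (-1, 0) ∧ σ (0, 1) ≠ σ (1, 0)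
def fO (σ : Cfg) : ℝ := ind (Opp σ)
/-- corner at the origin: a vertical and a horizontal neighbour disagree -/
def fK (σ : Cfg) : ℝ :=
  ind ((σ (0, 1) ≠ σ 0 ∨ σ (0, -1) ≠ σ 0) ∧ (σ (1, 0) ≠ σ 0 ∨ σ (-1, 0) ≠ σ 0))

/-! ### Functionals -/

/-- linear and monotone on local functions -/
structure Pos (D : (Cfg → ℝ) → ℝ) : Prop where
  add : ∀ f g, Loc f → Loc g → D (fun σ => f σ + g σ) = D f + D g
  smul : ∀ (c : ℝ) f, Loc f → D (fun σ => c * f σ) = c * D f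
  mono : ∀ f g, Loc f → Loc g → (∀ σ, f σ ≤ g σ) → D f ≤ D g

/-- and shift invariant -/
structure Lin (D : (Cfg → ℝ) → ℝ) : Prop extends Pos D where
  shift : ∀ z f, Loc f → D (fun σ => f (sh z σ)) = D f

/-- shift invariant state -/
structure St (m : (Cfg → ℝ) → ℝ) : Prop extends Lin m where
  one : m (fun _ => 1) = 1

/-- discounted functional -/
structure Fn (lam : ℝ) (D : (Cfg → ℝ) → ℝ) : Prop extends Lin D where
  disc : ∀ ψ, Loc ψ → (∀ σ, 0 ≤ ψ σ) → D (gen ψ) ≤ lam * D ψ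

/-- `f` is dominated by the unstable sites -/
def Dom (lam K : ℝ) (f : Cfg → ℝ) : Prop := Loc f ∧ ∀ D, Fn lam D → D f ≤ K * D fU

/-- `f` has small mean in every shift invariant state -/
def Sparse (ε : ℝ) (f : Cfg → ℝ) : Prop := Loc f ∧ ∀ m, St m → m f ≤ ε

/-- solution of the forward equation -/
structure Flow (m : ℝ → (Cfg → ℝ) → ℝ) : Prop where
  pos : ∀ t, 0 ≤ t → Pos (m t)
  one : ∀ t, 0 ≤ t → m t (fun _ => 1) = 1
  cont : ∀ f, Loc f → ContinuousOn (fun t => m t f) (Set.Ici 0)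
  deriv : ∀ f, Loc f → ∀ t, 0 < t → HasDerivAt (fun s => m s f) (m t (gen f)) t

/-- product-type initial state -/
structure Init (m0 : (Cfg → ℝ) → ℝ) : Prop where
  shift : ∀ z f, Loc f → m0 (fun σ => f (sh z σ)) = m0 f
  trans : ∀ f, Loc f → m0 (fun σ => f (trp σ)) = m0 f
  indep : ∀ (f g : Cfg → ℝ) S T, DepOn f S → DepOn g T → Disjoint S T →
    m0 (fun σ => f σ * g σ) = m0 f * m0 g

/-- shift invariant solution with equal vertical and horizontal interface density -/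
structure SFlow (m : ℝ → (Cfg → ℝ) → ℝ) : Prop extends Flow m where
  st : ∀ t, 0 ≤ t → St (m t)
  sym : ∀ t, 0 ≤ t → m t fa = m t fb

/-! ### Section U: Euler scheme -/

def Osc (f : Cfg → ℝ) (β : V → ℝ) : Prop := ∀ u σ, |f (flp σ u) - f σ| ≤ β u

def eul (h : ℝ) (S : Finset V) (f : Cfg → ℝ) : Cfg → ℝ := fun σ => f σ + h * genOn S f σ

/-- decorrelation outside the light cone -/
def Decor (m : ℝ → (Cfg → ℝ) → ℝ) : Prop :=
  ∀ ε > 0, ∃ t0 : ℝ, ∀ t, t0 ≤ t → ∀ j : ℤ, t ^ 2 ≤ |(j : ℝ)| →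
    m t (fun σ => fa σ * fa (sh (j, 0) σ)) ≤ m t fa ^ 2 + ε ∧
    m t (fun σ => fb σ * fb (sh (j, 0) σ)) ≤ m t fb ^ 2 + ε

/-! ### Section H: convolution algebra -/

abbrev A := AddMonoidAlgebra ℝ V

/-- the shift by `z` as an element of the group algebra -/
def xs (z : V) : A := AddMonoidAlgebra.single z 1

/-- action of the group algebra on functions -/
def cv (u : A) (f : Cfg → ℝ) : Cfg → ℝ := fun σ => u.coeff.sum fun z c => c * f (sh z σ)

def ww : A := (1 / 4 : ℝ) • ((1 + xs (1, 0)) * (1 + xs (0, 1)))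
def dX : A := xs (1, 0) - 1
def dY : A := xs (0, 1) - 1

/-- shift invariant positive semidefinite symmetric bilinear form on the group algebra -/
structure PSD (Q : A → A → ℝ) : Prop where
  add : ∀ u v r, Q (u + v) r = Q u r + Q v r
  smul : ∀ (c : ℝ) u v, Q (c • u) v = c * Q u v
  symm : ∀ u v, Q u v = Q v u
  nonneg : ∀ u, 0 ≤ Q u u
  shift : ∀ z u v, Q (xs z * u) (xs z * v) = Q u v

/-- squared norm of `cv u f` in the state `m` -/
def nsq (m : (Cfg → ℝ) → ℝ) (u : A) (f : Cfg → ℝ) : ℝ := m (fun σ => cv u f σ ^ 2)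

/-- squared little-l2 norm of the coefficients -/
def lsq (u : A) : ℝ := u.coeff.sum fun _ c => c ^ 2

/-- the site corner up-right, and so on -/
def kUR (σ : Cfg) : ℝ := fa σ * fb σ
def kUL (σ : Cfg) : ℝ := fa σ * fb (sh (-1, 0) σ)
def kDL (σ : Cfg) : ℝ := fa (sh (0, -1) σ) * fb (sh (-1, 0) σ)

/-- remainder in the gradient identity for `fa` -/
def remA (σ : Cfg) : ℝ :=
  (kUR σ - kUR (sh (0, -1) σ)) + (kUL σ - kUL (sh (1, -1) σ)) - (kDL σ - kDL (sh (1, 0) σ))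

/-- carre du champ -/
def gam (f g : Cfg → ℝ) (σ : Cfg) : ℝ := ∑ᶠ y, rate σ y * ((f (flp σ y) - f σ) * (g (flp σ y) - g σ))

/-- the cross functional -/
def FF (n : ℕ) (σ : Cfg) : ℝ := ∑ j ∈ range n, cv (ww ^ j) fa σ * cv (ww ^ j) fb σ
def XX (m : (Cfg → ℝ) → ℝ) (n : ℕ) : ℝ := ∑ j ∈ range n, nsq m (ww ^ j * dX) fa
def YY (m : (Cfg → ℝ) → ℝ) (n : ℕ) : ℝ := ∑ j ∈ range n, nsq m (ww ^ j * dY) fb
/-- the smoothed second moment -/
def NN (j : ℕ) (σ : Cfg) : ℝ := cv (ww ^ j) fa σ ^ 2 + cv (ww ^ j) fb σ ^ 2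

/-! ### Section P: patterns -/

/-- reducible inside the box of radius `r`: forced flips lead to an unstable site -/
inductive Red (r : ℕ) : Cfg → Prop
  | base (σ : Cfg) (y : V) : y ∈ box r → 3 ≤ dis σ y → Red r σ
  | step (σ : Cfg) (y : V) : y ∈ box r → 2 ≤ dis σ y → Red r (flp σ y) → Red r σ

/-- the column `c` carries the interface between row `r + 1` (plus) and row `r` (minus) -/
def Bond (σ : Cfg) (c r : ℤ) : Prop := σ (c, r + 1) = true ∧ σ (c, r) = false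

/-- the east arm breaks within distance `M` -/
def Arm (M : ℕ) (σ : Cfg) : Prop := ∃ i : ℕ, 1 ≤ i ∧ i ≤ M ∧ ¬ Bond σ i 0

/-- the east arm ends within distance `M` by turning north -/
def Hook (M : ℕ) (σ : Cfg) : Prop :=
  ∃ n : ℕ, 1 ≤ n ∧ n ≤ M ∧ (∀ i : ℕ, 1 ≤ i → i < n → Bond σ i 0) ∧ σ (n, 1) = false

/-- checkerboard plaquette -/
def Chk (σ : Cfg) : Prop := σ (-1, 1) = false ∧ σ (-1, 0) = true ∧ σ (0, 1) = true ∧ σ (0, 0) = false

/-- one allowed flip in the plaquette makes it a checkerboard -/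
def Pre (σ : Cfg) : Prop :=
  ∃ y ∈ ({(-1, 1), (-1, 0), (0, 1), (0, 0)} : Finset V), 2 ≤ dis σ y ∧ Chk (flp σ y)

/-- opposite tie with neck at `(-1, 0)` and an east arm -/
def OT (σ : Cfg) : Prop :=
  σ (-2, 0) = false ∧ σ (0, 0) = false ∧ σ (-1, 1) = true ∧ σ (-1, -1) = true ∧ σ (0, 1) = true

def PA (M : ℕ) (σ : Cfg) : Prop := (Chk σ ∨ Pre σ ∨ OT σ) ∧ Arm M σ

def BadAt (M : ℕ) (σ : Cfg) : Prop := Red 2 σ ∨ ∃ g : Fr, PA M (act g σ)

def Bad (M : ℕ) (σ : Cfg) : Prop := ∃ d ∈ box 1, BadAt M (sh d σ)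

/-- creation of a cap at column zero by a flip at `(-1, 1)` that is not the shrinking of a cap -/
def CrA (M : ℕ) (σ : Cfg) : Prop :=
  σ (-1, 1) = true ∧ 2 ≤ dis σ (-1, 1) ∧ ¬ (σ (-1, 0) = false ∧ σ (-2, 1) = false) ∧
    Bond σ 0 0 ∧ Hook M σ

/-- creation of a cap at column zero by a flip at the origin -/
def CrB (M : ℕ) (σ : Cfg) : Prop :=
  σ (0, 0) = true ∧ 2 ≤ dis σ (0, 0) ∧ σ (0, 1) = true ∧ σ (-1, 1) = false ∧ Hook M σ

def Cr (M : ℕ) (σ : Cfg) : Prop := CrA M σ ∨ CrB M σ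

/-- cap (U-turn of the interface) of width `n` on columns `0 .. n - 1` -/
def Cap (n : ℕ) (σ : Cfg) : Prop :=
  σ (-1, 1) = false ∧ σ (n, 1) = false ∧ ∀ i : ℕ, i < n → Bond σ i 0

/-- north-east corner of a plus region at `z` -/
def CNE (σ : Cfg) (z : V) : Prop :=
  σ z = true ∧ σ (z + (0, 1)) = false ∧ σ (z + (1, 0)) = false

/-! ### Section P: zero range potential -/

/-- a particle hops from `i` to `j` -/
def hop (i j : ℕ) (n : ℕ → ℕ) : ℕ → ℕ :=
  Function.update (Function.update n i (n i - 1)) j (n j + 1)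

/-- a particle enters at site one -/
def ent (n : ℕ → ℕ) : ℕ → ℕ := Function.update n 1 (n 1 + 1)

structure Pot (m : ℕ) (Wm ε : ℝ) (W : (ℕ → ℕ) → ℝ) : Prop where
  nonneg : ∀ n, 0 ≤ W n
  le : ∀ n, W n ≤ Wm
  anti : ∀ n n', (∀ i, 1 ≤ i → i < m → n i ≤ n' i) → W n' ≤ W n
  tiny : ∀ n i, 1 ≤ i → i < m → m ≤ n i → W n ≤ ε
  drift : ∀ n, (W (ent n) - W n) / 2 +
    ∑ i ∈ Ico 1 m, ind (1 ≤ n i) * ((W (hop i (i - 1) n) - W n) / 2 + (W (hop i (i + 1) n) - W n) / 2)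
      ≤ ε - ind (∀ i, 1 ≤ i → i < m → n i = 0)

/-- heat profile with absorbing ends -/
def yz (m : ℕ) : ℕ → ℕ → ℝ
  | 0, i => if 1 ≤ i ∧ i < m then 1 else 0
  | r + 1, i => if 1 ≤ i ∧ i < m then (yz m r (i - 1) + yz m r i + yz m r (i + 1)) / 3 else 0

def Az (m r : ℕ) : ℝ := ∏ s ∈ Icc 1 r, (1 - yz m s 1 / 4)

def Wz (m R : ℕ) (n : ℕ → ℕ) : ℝ :=
  (1 / 2) * ∑ r ∈ range R, Az m r * ∏ i ∈ Ico 1 m, (1 - yz m r i) ^ n i

/-! ### Section P: the staircase on the left of a cap -/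

/-- the columns `q ≤ c < p` carry the interface between rows `i + 1` and `i` -/
def Run (σ : Cfg) (i : ℕ) (q p : ℤ) : Prop := ∀ c, q ≤ c → c < p → Bond σ c i

/-- staircase going up and left, read up to row `k` -/
structure Str (m : ℕ) (σ : Cfg) (k : ℕ) (p : ℕ → ℤ) : Prop where
  one_le : 1 ≤ k
  le : k ≤ m
  plus : ∀ i, 1 ≤ i → i ≤ k → σ (p i, i) = true
  minus : ∀ i, 1 ≤ i → i ≤ k → σ (p i - 1, i) = false
  up : ∀ i, 1 ≤ i → i < k → σ (p i, (i : ℤ) + 1) = true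
  anti : ∀ i, 1 ≤ i → i < k → p (i + 1) ≤ p i
  gap : ∀ i, 1 ≤ i → i < k → p i - p (i + 1) ≤ m
  run : ∀ i, 1 ≤ i → i < k → Run σ i (p (i + 1)) (p i)

/-- closing at level `k` by a long step or by a minus cap, with left end `q` -/
def ZCl (m : ℕ) (σ : Cfg) (k : ℕ) (p : ℕ → ℤ) (q : ℤ) : Prop :=
  k < m ∧ σ (p k, (k : ℤ) + 1) = true ∧ q < p k ∧ Run σ k q (p k) ∧
    (p k - q = m + 1 ∨ (p k - q ≤ m ∧ σ (q - 1, (k : ℤ) + 1) = true ∧ σ (q - 1, k) = true))

/-- closing at level `k` by the window or by a right turn -/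
def NCl (m : ℕ) (σ : Cfg) (k : ℕ) (p : ℕ → ℤ) : Prop := k = m ∨ σ (p k, (k : ℤ) + 1) = false

def gaps (k : ℕ) (p : ℕ → ℤ) (i : ℕ) : ℕ := if 1 ≤ i ∧ i < k then (p i - p (i + 1)).toNat else 0

/-- potential of the staircase whose first corner is `(x, 1)` -/
def Wl (m : ℕ) (W : (ℕ → ℕ) → ℝ) (x : ℤ) (σ : Cfg) : ℝ :=
  sInf {w | ∃ k p, Str m σ k p ∧ p 1 = x ∧ (w = W (gaps k p) ∨ (w = 0 ∧ ∃ q, ZCl m σ k p q))}

def hl (m : ℕ) (W : (ℕ → ℕ) → ℝ) (x : ℤ) (σ : Cfg) : ℝ := Real.exp (-Wl m W x σ)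

/-- the window read by `Wl m W 0` (and the origin) -/
def LB (m : ℕ) : Finset V := Finset.Icc (-((m : ℤ) * m + m + 2)) 0 ×ˢ Finset.Icc 0 (m : ℤ)

/-- left corner of a cap of width at least two -/
def H0 (σ : Cfg) : Prop := σ (-1, 1) = false ∧ Bond σ 0 0 ∧ Bond σ 1 0

/-- straight staircase -/
def Strt (m : ℕ) (σ : Cfg) : Prop := ∀ i : ℕ, 1 ≤ i → i ≤ m → σ (0, i) = true ∧ σ (-1, i) = false

/-- next plus site along the interface -/
def nxt (σ : Cfg) (z : V) : V :=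
  if σ (z + (0, -1)) = true then z + (0, -1)
  else if σ (z + (1, 0)) = false then z
  else if σ (z + (1, -1)) = false then z + (1, 0) else z + (1, -1)

/-- tracked sites -/
inductive Trk (B : Finset V) (σ : Cfg) : V → Prop
  | base : Trk B σ (0, 1)
  | step (z : V) : z ∈ B → Trk B σ (nxt σ z) → Trk B σ z

/-- the flip at `y` is charged to a bad pattern next to a tracked site -/
def NB (m : ℕ) (σ : Cfg) (y : V) : Prop :=
  (∃ z ∈ LB m, Trk (LB m) σ z ∧ y - z ∈ box 1) ∧ Bad (m + 1) (sh y σ)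

/-- total charge of the left staircase -/
def Chl (m : ℕ) (σ : Cfg) : ℝ := ∑ y ∈ LB m, ind (NB m σ y)

/-- value of the left factor after the flip at `y` -/
def gain (m : ℕ) (W : (ℕ → ℕ) → ℝ) (ρ : ℝ) (σ : Cfg) (y : V) : ℝ :=
  if y = (0, 1) then ρ⁻¹ * hl m W 1 (flp σ y)
  else if y = (-1, 1) then
    (if σ (-1, 0) = false ∧ σ (-2, 1) = false then ρ * hl m W (-1) (flp σ y) else 0)
  else if y = (0, 0) then 0 else hl m W 0 (flp σ y)

/-- mirror image exchanging the two ends of a cap of width `n` -/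
def mir (n : ℕ) (σ : Cfg) : Cfg := fun x => σ ((n : ℤ) - 1 - x.1, x.2)

/-- cap potential -/
def psi (m : ℕ) (W : (ℕ → ℕ) → ℝ) (ρ : ℝ) (N : ℕ) (σ : Cfg) : ℝ :=
  ∑ n ∈ Icc 2 N, ind (Cap n σ) * max 0 (ρ ^ n * hl m W 0 σ * hl m W 0 (mir n σ) - ρ ^ N)

def Alive (N : ℕ) (σ : Cfg) : Prop := ∃ n, 2 ≤ n ∧ n ≤ N ∧ Cap n σ

/-- potential after the flip at `y`, following the left corner -/
def val (m : ℕ) (W : (ℕ → ℕ) → ℝ) (ρ : ℝ) (N : ℕ) (σ : Cfg) (y : V) : ℝ :=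
  if y = (0, 1) then psi m W ρ N (sh (1, 0) (flp σ y))
  else if y = (-1, 1) then psi m W ρ N (sh (-1, 0) (flp σ y))
  else psi m W ρ N (flp σ y)

/-- big box containing everything read by the cap potential -/
def BB (m N : ℕ) : Finset V := box (N + m * m + m + 4)

/-- total charge of a cap -/
def Chg (m N : ℕ) (σ : Cfg) : ℝ :=
  ∑ n ∈ Icc 2 N, ind (Cap n σ) * (Chl m σ + Chl m (mir n σ) + ind (Red 4 σ) +
    ∑ i ∈ range n, (ind (Red 2 (sh (i, 1) σ)) + ind (Red 2 (sh (i, 0) σ))))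

/-- doubly exponential scales -/
def Lb (b : ℕ) : ℕ := 2 ^ 2 ^ b

end

end Pool.Agent.BA
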