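import Pool.Agent.Lib.BA.GBlue

/-! Section G: basic API. -/

open MeasureTheory ProbabilityTheory Filter Topology Set

namespace Pool.Agent.BA

open Classical

/-! ### probability measures -/

lemma bern_apply (p : ℝ) (s : Set Bool) :
    bern p s = (if true ∈ s then ENNReal.ofReal p else 0) +
      (if false ∈ s then ENNReal.ofReal (1 - p) else 0) := by
  simp only [bern, Measure.coe_add, Measure.coe_smul, Pi.add_apply, Pi.smul_apply,
    Measure.dirac_apply, smul_eq_mul, Set.indicator, Pi.one_apply]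
  split_ifs <;> simp

lemma prob_bern {p : ℝ} (hp : p ∈ Icc (0 : ℝ) 1) : IsProbabilityMeasure (bern p) := by
  constructor
  rw [bern_apply]
  simp only [mem_univ, if_true]
  rw [← ENNReal.ofReal_add hp.1 (by linarith [hp.2])]
  simp

instance prob_half : IsProbabilityMeasure (bern (1 / 2)) := prob_bern ⟨by norm_num, by norm_num⟩

instance prob_exp : IsProbabilityMeasure (expMeasure 1) := isProbabilityMeasure_expMeasure one_pos

instance prob_pairLaw : IsProbabilityMeasure pairLaw := by
  unfold pairLaw; infer_instance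

lemma prob_siteLaw {ρ : ℝ} (hρ : ρ ∈ Icc (0 : ℝ) 1) : IsProbabilityMeasure (siteLaw ρ) := by
  have := prob_bern hρ
  unfold siteLaw; infer_instance

lemma law_eq (ρ : ℝ) : law ρ = Measure.infinitePi fun _ : V => siteLaw ρ := rfl

lemma prob_law {ρ : ℝ} (hρ : ρ ∈ Icc (0 : ℝ) 1) : IsProbabilityMeasure (law ρ) := by
  have := prob_siteLaw hρ
  rw [law_eq]; infer_instance

lemma exp_Iic {a : ℝ} (ha : 0 ≤ a) :
    expMeasure 1 (Iic a) = ENNReal.ofReal (1 - Real.exp (-a)) := by
  rw [← ofReal_cdf, cdf_expMeasure_eq one_pos, if_pos ha, one_mul]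

lemma exp_Ioi {a : ℝ} (ha : 0 ≤ a) : expMeasure 1 (Ioi a) = ENNReal.ofReal (Real.exp (-a)) := by
  rw [← compl_Iic, prob_compl_eq_one_sub measurableSet_Iic, exp_Iic ha, ← ENNReal.ofReal_one,
    ← ENNReal.ofReal_sub _ (by
      have := Real.exp_le_one_iff.2 (show -a ≤ 0 by linarith)
      linarith)]
  simp

lemma exp_Ioc {a b : ℝ} (ha : 0 ≤ a) (hab : a ≤ b) :
    expMeasure 1 (Ioc a b) = ENNReal.ofReal (Real.exp (-a) - Real.exp (-b)) := by
  rw [← Ioi_sdiff_Ioi, measure_sdiff (Ioi_subset_Ioi hab) measurableSet_Ioi.nullMeasurableSet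
    (measure_ne_top _ _), exp_Ioi ha, exp_Ioi (ha.trans hab),
    ENNReal.ofReal_sub _ (Real.exp_pos _).le]

lemma half_single (c : Bool) : bern (1 / 2) {c} = ENNReal.ofReal (1 / 2) := by
  rw [bern_apply]
  cases c <;> norm_num

lemma pair_fst (s : Set ℝ) : pairLaw {p | p.1 ∈ s} = expMeasure 1 s := by
  have : {p : ℝ × Bool | p.1 ∈ s} = s ×ˢ univ := by ext p; simp
  rw [this, pairLaw, Measure.prod_prod, measure_univ, mul_one]

lemma pair_Iic {a : ℝ} (ha : 0 ≤ a) :
    pairLaw {p | p.1 ≤ a} = ENNReal.ofReal (1 - Real.exp (-a)) :=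
  (pair_fst (Iic a)).trans (exp_Iic ha)

lemma pair_Ioi {a : ℝ} (ha : 0 ≤ a) : pairLaw {p | a < p.1} = ENNReal.ofReal (Real.exp (-a)) :=
  (pair_fst (Ioi a)).trans (exp_Ioi ha)

lemma pair_Ioc {a b : ℝ} (ha : 0 ≤ a) (hab : a ≤ b) (c : Bool) :
    pairLaw {p | a < p.1 ∧ p.1 ≤ b ∧ p.2 = c} =
      ENNReal.ofReal ((Real.exp (-a) - Real.exp (-b)) / 2) := by
  have : {p : ℝ × Bool | a < p.1 ∧ p.1 ≤ b ∧ p.2 = c} = Ioc a b ×ˢ {c} := by
    ext p; simp [and_assoc]
  rw [this, pairLaw, Measure.prod_prod, exp_Ioc ha hab, half_single,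
    ← ENNReal.ofReal_mul (by
      have := Real.exp_le_exp.2 (show -b ≤ -a by linarith)
      linarith)]
  exact congrArg _ (by ring)

lemma one_sub_exp_le (h : ℝ) : 1 - Real.exp (-h) ≤ h := by
  have := Real.add_one_le_exp (-h); linarith

lemma one_sub_exp_nonneg {h : ℝ} (hh : 0 ≤ h) : 0 ≤ 1 - Real.exp (-h) := by
  have := Real.exp_le_one_iff.2 (show -h ≤ 0 by linarith); linarith

lemma sub_sq_le_one_sub_exp {h : ℝ} (hh : 0 ≤ h) : h - h ^ 2 ≤ 1 - Real.exp (-h) := by
  have h1 := Real.add_one_le_exp h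
  have h2 : Real.exp (-h) * Real.exp h = 1 := by rw [← Real.exp_add]; simp
  have h3 := Real.exp_pos (-h)
  have h4 : Real.exp (-h) * (h + 1) ≤ 1 := by nlinarith
  by_contra hc
  have h5 : 1 - h + h ^ 2 < Real.exp (-h) := by linarith [not_le.1 hc]
  have h6 : (1 - h + h ^ 2) * (h + 1) < Real.exp (-h) * (h + 1) :=
    mul_lt_mul_of_pos_right h5 (by linarith)
  nlinarith [pow_nonneg hh 3]

/-! ### ring times and counters -/

lemma arrival_zero (ω : Noise) (x : V) : arrival ω x 0 = wait ω x 0 := by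
  simp [arrival, wait]

lemma arrival_succ (ω : Noise) (x : V) (k : ℕ) :
    arrival ω x (k + 1) = arrival ω x k + wait ω x (k + 1) := by
  simp [arrival, wait, Finset.sum_range_succ]

lemma arrival_eq (ω : Noise) (x : V) (k : ℕ) :
    arrival ω x k = ∑ i ∈ Finset.range k, wait ω x i + wait ω x k := by
  simp [arrival, wait, Finset.sum_range_succ]

lemma arrival_congr {ω ω' : Noise} {x : V} {k : ℕ} (h : ∀ i, i ≤ k → (ω x).2 i = (ω' x).2 i) :
    arrival ω x k = arrival ω' x k :=
  Finset.sum_congr rfl fun i hi => by rw [h i (Nat.lt_succ_iff.1 (Finset.mem_range.1 hi))]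

lemma Good0.strictMono {ω : Noise} (h : Good0 ω) (x : V) : StrictMono (arrival ω x) :=
  strictMono_nat_of_lt_succ fun k => by rw [arrival_succ]; linarith [h.pos x (k + 1)]

lemma Good0.mono {ω : Noise} (h : Good0 ω) (x : V) : Monotone (arrival ω x) :=
  (h.strictMono x).monotone

lemma Good0.arr_pos {ω : Noise} (h : Good0 ω) (x : V) (k : ℕ) : 0 < arrival ω x k :=
  lt_of_lt_of_le (by rw [arrival_zero]; exact h.pos x 0) (h.mono x (Nat.zero_le k))

lemma cnt_le {ω : Noise} {x : V} {t : ℝ} {k : ℕ} (h : t < arrival ω x k) : cnt ω x t ≤ k :=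
  Nat.sInf_le h

lemma lt_arr_cnt {ω : Noise} {x : V} {t : ℝ} (h : ∃ k, t < arrival ω x k) :
    t < arrival ω x (cnt ω x t) := Nat.sInf_mem (s := {k | t < arrival ω x k}) h

lemma arr_le_of_lt_cnt {ω : Noise} {x : V} {t : ℝ} {i : ℕ} (h : i < cnt ω x t) :
    arrival ω x i ≤ t := not_lt.1 (Nat.notMem_of_lt_sInf h)

lemma cnt_eq {ω : Noise} {x : V} {t : ℝ} {k : ℕ} (h : t < arrival ω x k)
    (h' : ∀ i, i < k → arrival ω x i ≤ t) : cnt ω x t = k :=
  le_antisymm (cnt_le h) (not_lt.1 fun hc => absurd (h' _ hc) (not_le.2 (lt_arr_cnt ⟨k, h⟩)))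

lemma cntlt_le {ω : Noise} {x : V} {t : ℝ} {k : ℕ} (h : t ≤ arrival ω x k) : cntlt ω x t ≤ k :=
  Nat.sInf_le h

lemma le_arr_cntlt {ω : Noise} {x : V} {t : ℝ} (h : ∃ k, t ≤ arrival ω x k) :
    t ≤ arrival ω x (cntlt ω x t) := Nat.sInf_mem (s := {k | t ≤ arrival ω x k}) h

lemma arr_lt_of_lt_cntlt {ω : Noise} {x : V} {t : ℝ} {i : ℕ} (h : i < cntlt ω x t) :
    arrival ω x i < t := not_le.1 (Nat.notMem_of_lt_sInf h)

lemma cntlt_eq {ω : Noise} {x : V} {t : ℝ} {k : ℕ} (h : t ≤ arrival ω x k)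
    (h' : ∀ i, i < k → arrival ω x i < t) : cntlt ω x t = k :=
  le_antisymm (cntlt_le h) (not_lt.1 fun hc => absurd (h' _ hc) (not_lt.2 (le_arr_cntlt ⟨k, h⟩)))

lemma Good0.lt_arr_cnt {ω : Noise} (h : Good0 ω) (x : V) (t : ℝ) :
    t < arrival ω x (cnt ω x t) := BA.lt_arr_cnt (h.unb x t)

lemma Good0.le_arr_cntlt {ω : Noise} (h : Good0 ω) (x : V) (t : ℝ) :
    t ≤ arrival ω x (cntlt ω x t) :=
  BA.le_arr_cntlt ((h.unb x t).imp fun _ hk => hk.le)

lemma cnt_congr {ω ω' : Noise} {x : V} (h : ω x = ω' x) (t : ℝ) : cnt ω x t = cnt ω' x t := by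
  simp only [cnt, arrival, h]

lemma cntlt_congr {ω ω' : Noise} {x : V} (h : ω x = ω' x) (t : ℝ) :
    cntlt ω x t = cntlt ω' x t := by
  simp only [cntlt, arrival, h]

lemma valD_zero (ω : Noise) (d : ℕ) (x : V) : valD ω d x 0 = (ω x).1 := by
  cases d <;> rfl

lemma valL_of_eventually {ω : Noise} {x : V} {k : ℕ} {c : Bool}
    (h : ∀ᶠ d in atTop, valD ω d x k = c) : valL ω x k = c := by
  cases c
  · refine decide_eq_false fun hc => ?_
    obtain ⟨d, h1, h2⟩ := (h.and hc).exists
    rw [h1] at h2; exact absurd h2 (by simp)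
  · exact decide_eq_true h

lemma valL_zero (ω : Noise) (x : V) : valL ω x 0 = (ω x).1 :=
  valL_of_eventually (Eventually.of_forall fun d => valD_zero ω d x)

lemma Rings_eq (x : V) (t h : ℝ) : Rings x t h = RingC x t h true ∪ RingC x t h false := by
  ext ω
  simp only [Rings, RingC, mem_union, mem_ofPred_eq]
  cases coin ω x (cnt ω x t) <;> simp

lemma Agree.symm {x : V} {t : ℝ} {n : ℕ} {ω ω' : Noise} (h : Agree x t n ω ω') :
    Agree x t n ω' ω :=
  ⟨fun y hy => (h.off y hy).symm, h.spin.symm, fun i hi => (h.pairs i hi).symm, h.lt', h.lt⟩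

/-! ### the pair replacement -/

lemma setPair_ne (ω : Noise) {x y : V} (k : ℕ) (p : ℝ × Bool) (h : y ≠ x) :
    setPair ω x k p y = ω y := Function.update_of_ne h _ _

lemma setPair_fst (ω : Noise) (x : V) (k : ℕ) (p : ℝ × Bool) (y : V) :
    (setPair ω x k p y).1 = (ω y).1 := by
  by_cases h : y = x
  · subst h; simp [setPair]
  · rw [setPair_ne ω k p h]

lemma setPair_self (ω : Noise) (x : V) (k : ℕ) (p : ℝ × Bool) : (setPair ω x k p x).2 k = p := by
  simp [setPair]

lemma setPair_of_ne (ω : Noise) (x : V) {k i : ℕ} (p : ℝ × Bool) (h : i ≠ k) :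
    (setPair ω x k p x).2 i = (ω x).2 i := by
  simp [setPair, Function.update_of_ne h]

lemma arrival_setPair_lt (ω : Noise) (x : V) {k i : ℕ} (p : ℝ × Bool) (h : i < k) :
    arrival (setPair ω x k p) x i = arrival ω x i :=
  arrival_congr fun j hj => setPair_of_ne ω x p (by omega)

lemma arrival_setPair (ω : Noise) (x : V) (k : ℕ) (p : ℝ × Bool) :
    arrival (setPair ω x k p) x k = ∑ i ∈ Finset.range k, wait ω x i + p.1 := by
  rw [arrival_eq]
  congr 1
  · exact Finset.sum_congr rfl fun i hi => by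
      unfold wait; rw [setPair_of_ne ω x p (Finset.mem_range.1 hi).ne]
  · unfold wait; rw [setPair_self]

/-! ### the majority rule -/

lemma mem_nbrs {x y : V} :
    y ∈ nbrs x ↔ y = x + (1, 0) ∨ y = x + (-1, 0) ∨ y = x + (0, 1) ∨ y = x + (0, -1) := by
  simp [nbrs]

lemma ne_of_mem_nbrs {x y : V} (h : y ∈ nbrs x) : y ≠ x := by
  rcases mem_nbrs.1 h with rfl | rfl | rfl | rfl <;> simp [Prod.ext_iff]

lemma card_nbrs_le (x : V) : (nbrs x).card ≤ 4 := Finset.card_le_four

lemma maj_congr {σ σ' : Cfg} {x : V} (h : ∀ y ∈ nbrs x, σ y = σ' y) (c : Bool) :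
    maj σ x c = maj σ' x c := by
  have : ((nbrs x).filter fun y => σ y = true) = (nbrs x).filter fun y => σ' y = true :=
    Finset.filter_congr fun y hy => by rw [h y hy]
  simp only [maj, this]

lemma card_filter_nbrs (σ : Cfg) (x : V) :
    ((nbrs x).filter fun y => σ y = true).card =
      (σ (x + (1, 0))).toNat + (σ (x + (-1, 0))).toNat + (σ (x + (0, 1))).toNat +
        (σ (x + (0, -1))).toNat := by
  rw [Finset.card_filter, nbrs, Finset.sum_insert (by simp [Prod.ext_iff]),
    Finset.sum_insert (by simp [Prod.ext_iff]), Finset.sum_insert (by simp [Prod.ext_iff]),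
    Finset.sum_singleton]
  cases σ (x + (1, 0)) <;> cases σ (x + (-1, 0)) <;> cases σ (x + (0, 1)) <;>
    cases σ (x + (0, -1)) <;> rfl

/-- averaging over the coin gives the flip rate -/
lemma sum_upd (f : Cfg → ℝ) (σ : Cfg) (x : V) :
    ∑ c : Bool, (f (upd σ x c) - f σ) = 2 * (rate σ x * (f (flp σ x) - f σ)) := by
  have h1 : ∀ b : Bool, f (Function.update σ x b) = if b = σ x then f σ else f (flp σ x) := by
    intro b
    split_ifs with hb
    · rw [hb, Function.update_eq_self]
    · have : b = !σ x := by cases b <;> cases hx : σ x <;> simp_all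
      rw [this, flp]
  simp only [Fintype.sum_bool, upd, h1]
  rcases Bool.eq_false_or_eq_true (σ x) with h0 | h0 <;>
  rcases Bool.eq_false_or_eq_true (σ (x + (1, 0))) with h1 | h1 <;>
  rcases Bool.eq_false_or_eq_true (σ (x + (-1, 0))) with h2 | h2 <;>
  rcases Bool.eq_false_or_eq_true (σ (x + (0, 1))) with h3 | h3 <;>
  rcases Bool.eq_false_or_eq_true (σ (x + (0, -1))) with h4 | h4 <;>
  simp [maj, card_filter_nbrs, rate, dis, h0, h1, h2, h3, h4] <;> ring

lemma subset_hull (S : Finset V) : S ⊆ hull S := Finset.subset_union_left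

lemma nbrs_subset_hull {S : Finset V} {x : V} (hx : x ∈ S) : nbrs x ⊆ hull S := fun _ hy =>
  Finset.mem_union_right _ (Finset.mem_biUnion.2 ⟨x, hx, hy⟩)

/-! ### measurability -/

lemma measurable_pair (x : V) (k : ℕ) : Measurable fun ω : Noise => (ω x).2 k :=
  (measurable_pi_apply k).comp (measurable_snd.comp (measurable_pi_apply x))

lemma measurable_spin (x : V) : Measurable fun ω : Noise => (ω x).1 :=
  measurable_fst.comp (measurable_pi_apply x)

lemma measurable_wait (x : V) (k : ℕ) : Measurable fun ω => wait ω x k :=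
  measurable_fst.comp (measurable_pair x k)

lemma measurable_coin (x : V) (k : ℕ) : Measurable fun ω => coin ω x k :=
  measurable_snd.comp (measurable_pair x k)

lemma measurable_arrival (x : V) (k : ℕ) : Measurable fun ω => arrival ω x k :=
  Finset.measurable_sum _ fun i _ => measurable_wait x i

lemma measurable_sInf_nat {α : Type*} [MeasurableSpace α] {p : α → ℕ → Prop}
    (hp : ∀ k, MeasurableSet {a | p a k}) : Measurable fun a => sInf {k | p a k} := by
  refine measurable_to_countable' fun k => ?_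
  have : (fun a => sInf {k | p a k}) ⁻¹' {k} =
      ({a | p a k} ∩ ⋂ i : ℕ, ⋂ _ : i < k, {a | p a i}ᶜ) ∪
        ((⋂ i : ℕ, {a | p a i}ᶜ) ∩ {_a | k = 0}) := by
    ext a
    simp only [mem_preimage, mem_singleton_iff, mem_union, mem_inter_iff, mem_ofPred_eq,
      mem_iInter, mem_compl_iff]
    constructor
    · intro h
      by_cases hne : ∃ i, p a i
      · exact Or.inl ⟨h ▸ Nat.sInf_mem (s := {k | p a k}) hne,
          fun i hi => Nat.notMem_of_lt_sInf (s := {k | p a k}) (h ▸ hi)⟩
      · refine Or.inr ⟨not_exists.1 hne, ?_⟩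
        have : {k | p a k} = ∅ := by
          ext i; simpa using not_exists.1 hne i
        rw [← h, this, Nat.sInf_empty]
    · rintro (⟨h1, h2⟩ | ⟨h1, h2⟩)
      · exact le_antisymm (Nat.sInf_le h1) (not_lt.1 fun hc =>
          h2 _ hc (Nat.sInf_mem (s := {k | p a k}) ⟨k, h1⟩))
      · have : {k | p a k} = ∅ := by
          ext i; simpa using h1 i
        rw [h2, this, Nat.sInf_empty]
  rw [this]
  exact ((hp k).inter (MeasurableSet.iInter fun i => MeasurableSet.iInter fun _ =>
    (hp i).compl)).union ((MeasurableSet.iInter fun i => (hp i).compl).inter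
      (MeasurableSet.const _))

lemma measurable_cnt (x : V) (t : ℝ) : Measurable fun ω => cnt ω x t :=
  measurable_sInf_nat fun k => measurableSet_lt measurable_const (measurable_arrival x k)

lemma measurable_cntlt (y x : V) (k : ℕ) : Measurable fun ω => cntlt ω y (arrival ω x k) :=
  measurable_sInf_nat fun j => measurableSet_le (measurable_arrival x k) (measurable_arrival y j)

lemma measurable_at {α β : Type*} [MeasurableSpace α] [MeasurableSpace β] {g : α → ℕ → β}
    {n : α → ℕ} (hg : ∀ k, Measurable fun a => g a k) (hn : Measurable n) :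
    Measurable fun a => g a (n a) :=
  (measurable_from_prod_countable_left (f := fun q : α × ℕ => g q.1 q.2) hg).comp
    (measurable_id.prodMk hn)

lemma DepOn.measurable {β : Type*} [MeasurableSpace β] {f : Cfg → β} {S : Finset V}
    (h : DepOn f S) : Measurable f := by
  have : f = (fun u : S → Bool => f fun x => if hx : x ∈ S then u ⟨x, hx⟩ else false) ∘
      fun σ (x : S) => σ x := by
    funext σ
    exact h _ _ fun x hx => by simp [hx]
  rw [this]
  exact (measurable_of_finite _).comp (measurable_pi_lambda _ fun x => measurable_pi_apply _)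

lemma DepOn.bdd {f : Cfg → ℝ} {S : Finset V} (h : DepOn f S) : ∃ M, 0 ≤ M ∧ ∀ σ, |f σ| ≤ M := by
  obtain ⟨M, hM⟩ := (Set.finite_range fun u : S → Bool =>
    |f fun x => if hx : x ∈ S then u ⟨x, hx⟩ else false|).bddAbove
  have : ∀ σ, |f σ| ≤ M := fun σ => by
    rw [h σ (fun x => if hx : x ∈ S then σ x else false) fun x hx => by simp [hx]]
    exact hM ⟨fun x => σ x, rfl⟩
  exact ⟨M, (abs_nonneg _).trans (this fun _ => true), this⟩

lemma depOn_maj (x : V) (c : Bool) : DepOn (fun σ => maj σ x c) (nbrs x) :=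
  fun _ _ h => maj_congr h c

lemma measurable_maj (x : V) : Measurable fun q : Cfg × Bool => maj q.1 x q.2 :=
  measurable_from_prod_countable_left fun c => (depOn_maj x c).measurable

lemma measurable_valD (d : ℕ) : ∀ (x : V) (k : ℕ), Measurable fun ω => valD ω d x k := by
  induction d with
  | zero => exact fun x _ => measurable_spin x
  | succ d ih =>
    intro x k
    cases k with
    | zero => exact measurable_spin x
    | succ k =>
      exact (measurable_maj x).comp ((measurable_pi_lambda _ fun y =>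
        measurable_at (ih y) (measurable_cntlt y x k)).prodMk (measurable_coin x k))

lemma measurable_valL (x : V) (k : ℕ) : Measurable fun ω => valL ω x k := by
  refine measurable_to_bool ?_
  have : (fun ω => valL ω x k) ⁻¹' {true} =
      ⋃ N : ℕ, ⋂ d : ℕ, ⋂ _ : N ≤ d, (fun ω => valD ω d x k) ⁻¹' {true} := by
    ext ω
    simp [valL, eventually_atTop]
  rw [this]
  exact MeasurableSet.iUnion fun N => MeasurableSet.iInter fun d => MeasurableSet.iInter fun _ =>
    measurable_valD d x k (measurableSet_singleton _)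

lemma measurable_sig (t : ℝ) : Measurable fun ω => sig ω t :=
  measurable_pi_lambda _ fun x => measurable_at (measurable_valL x) (measurable_cnt x t)

lemma measurableSet_Rings (x : V) (t h : ℝ) : MeasurableSet (Rings x t h) :=
  measurableSet_le (measurable_at (measurable_arrival x) (measurable_cnt x t)) measurable_const

lemma measurableSet_RingC (x : V) (t h : ℝ) (c : Bool) : MeasurableSet (RingC x t h c) :=
  (measurableSet_Rings x t h).inter
    (measurable_at (measurable_coin x) (measurable_cnt x t) (measurableSet_singleton c))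

lemma measurableSet_Ring2 (x : V) (t h : ℝ) : MeasurableSet (Ring2 x t h) :=
  measurableSet_le (measurable_at (g := fun ω k => arrival ω x (k + 1))
    (fun k => measurable_arrival x (k + 1)) (measurable_cnt x t))
    measurable_const

lemma Two_eq (S : Finset V) (t h : ℝ) : Two S t h = (⋃ x ∈ S, Ring2 x t h) ∪
    ⋃ x ∈ S, ⋃ y ∈ S.erase x, (Rings x t h ∩ Rings y t h) := by
  ext ω
  simp only [Two, mem_ofPred_eq, mem_union, mem_iUnion, Finset.mem_erase, mem_inter_iff,
    exists_prop]
  refine or_congr Iff.rfl ⟨?_, ?_⟩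
  · rintro ⟨x, hx, y, hy, hne, h1, h2⟩
    exact ⟨x, hx, y, ⟨hne.symm, hy⟩, h1, h2⟩
  · rintro ⟨x, hx, y, ⟨hne, hy⟩, h1, h2⟩
    exact ⟨x, hx, y, hy, hne.symm, h1, h2⟩

lemma measurableSet_Two (S : Finset V) (t h : ℝ) : MeasurableSet (Two S t h) := by
  rw [Two_eq]
  exact (Finset.measurableSet_biUnion _ fun x _ => measurableSet_Ring2 x t h).union
    (Finset.measurableSet_biUnion _ fun x _ => Finset.measurableSet_biUnion _ fun y _ =>
      (measurableSet_Rings x t h).inter (measurableSet_Rings y t h))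

lemma measurable_setPair (x : V) (k : ℕ) :
    Measurable fun q : Noise × (ℝ × Bool) => setPair q.1 x k q.2 :=
  measurable_update'.comp (measurable_fst.prodMk (((measurable_spin x).comp measurable_fst).prodMk
    (measurable_update'.comp ((measurable_snd.comp ((measurable_pi_apply x).comp
      measurable_fst)).prodMk measurable_snd))))

lemma DepOn.integrable_sig {ρ : ℝ} (hρ : ρ ∈ Icc (0 : ℝ) 1) {f : Cfg → ℝ} {S : Finset V}
    (h : DepOn f S) (t : ℝ) : Integrable (fun ω => f (sig ω t)) (law ρ) := by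
  have := prob_law hρ
  obtain ⟨M, -, hM⟩ := h.bdd
  exact Integrable.of_bound (h.measurable.comp (measurable_sig t)).aestronglyMeasurable M
    (Eventually.of_forall fun ω => hM _)

end Pool.Agent.BA
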