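import Pool.Agent.Lib.BA.GDefs

/-! Section G: statements of the blocks. -/

open MeasureTheory ProbabilityTheory Filter Topology Set

namespace Pool.Agent.BA

open Classical

/-- RES: resampling one pair does not change the law. -/
def St_GRES : Prop :=
  ∀ ρ ∈ Icc (0 : ℝ) 1, ∀ (x : V) (k : ℕ) (A : Set Noise), MeasurableSet A →
    law ρ A = ∫⁻ ω, pairLaw {p | setPair ω x k p ∈ A} ∂law ρ

/-- GOOD: positive waiting times, unbounded ring times. -/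
def St_GGOOD : Prop := ∀ ρ ∈ Icc (0 : ℝ) 1, ∀ᵐ ω ∂law ρ, Good0 ω

/-- MEM: lack of memory. -/
def St_GMEM : Prop :=
  ∀ ρ ∈ Icc (0 : ℝ) 1, ∀ (x : V) (t h : ℝ) (c : Bool) (A : Set Noise), 0 ≤ t → 0 ≤ h →
    MeasurableSet A → Adapt x t A →
    law ρ (A ∩ RingC x t h c) = ENNReal.ofReal ((1 - Real.exp (-h)) / 2) * law ρ A

/-- TWO: two rings in a short interval. -/
def St_GTWO : Prop :=
  ∀ ρ ∈ Icc (0 : ℝ) 1, ∀ (t h : ℝ), 0 ≤ t → 0 ≤ h →
    (∀ F : Finset V, law ρ (⋂ x ∈ F, Rings x t h) ≤ ENNReal.ofReal (h ^ F.card)) ∧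
    ∀ S : Finset V, law ρ (Two S t h) ≤ ENNReal.ofReal ((S.card : ℝ) ^ 2 * h ^ 2)

/-- HAR: no percolation of ringing sites in a thin slab. -/
def St_GHAR : Prop := ∀ ρ ∈ Icc (0 : ℝ) 1, ∀ᵐ ω ∂law ρ, NoPerc ω

/-- WF: the backward recursion terminates. -/
def St_GWF : Prop := ∀ ω : Noise, Good0 ω → NoPerc ω → Term ω

/-- EXU: existence and uniqueness of the trajectory. -/
def St_GEXU : Prop :=
  ∀ ω : Noise, Good0 ω → Term ω → Rec ω ∧ ∀ s : ℝ → Cfg, IsGlauber ω s ↔ s = sig ω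

/-- PAST: the state at time `t` does not look at the future. -/
def St_GPAST : Prop := ∀ x t n ω ω', Agree x t n ω ω' → sig ω t = sig ω' t

/-- PATH: pathwise form of one time step. -/
def St_GPATH : Prop :=
  ∀ (ω : Noise) (S : Finset V) (f : Cfg → ℝ) (t h : ℝ), Good0 ω → Rec ω → DepOn f S → 0 ≤ h →
    ω ∉ Two (hull S) t h →
    f (sig ω (t + h)) - f (sig ω t) =
      ∑ x ∈ S, ∑ c : Bool, ind (ω ∈ RingC x t h c) * (f (upd (sig ω t) x c) - f (sig ω t))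

/-- H2: one time step in expectation. -/
def St_GH2 : Prop :=
  ∀ ρ ∈ Icc (0 : ℝ) 1, ∀ (S : Finset V) (f : Cfg → ℝ), DepOn f S → ∃ C : ℝ, ∀ t h : ℝ, 0 ≤ t →
    0 ≤ h → |mG ρ (t + h) f - mG ρ t f - h * mG ρ t (genOn S f)| ≤ C * h ^ 2

/-- FLOW: the forward equation. -/
def St_GFLOW : Prop := ∀ ρ ∈ Icc (0 : ℝ) 1, Flow (mG ρ)

/-- INIT: the initial state. -/
def St_GINIT : Prop := ∀ ρ ∈ Icc (0 : ℝ) 1, Init (mG ρ 0)

end Pool.Agent.BA
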