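import Pool.Agent.Lib.BA.Defs

/-! Section G: the graphical construction. Definitions. -/

open MeasureTheory ProbabilityTheory Filter Topology

namespace Pool.Agent.BA

noncomputable section
open Classical

/-- coin of ring number `k` at `x` -/
def coin (ω : Noise) (x : V) (k : ℕ) : Bool := ((ω x).2 k).2

/-- waiting time number `k` at `x` -/
def wait (ω : Noise) (x : V) (k : ℕ) : ℝ := ((ω x).2 k).1

/-- number of rings of `x` at times at most `t` -/
def cnt (ω : Noise) (x : V) (t : ℝ) : ℕ := sInf {k | t < arrival ω x k}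

/-- number of rings of `x` at times less than `t` -/
def cntlt (ω : Noise) (x : V) (t : ℝ) : ℕ := sInf {k | t ≤ arrival ω x k}

/-- spin of `x` after `k` rings, computed with recursion depth `d` -/
def valD (ω : Noise) : ℕ → V → ℕ → Bool
  | 0, x, _ => (ω x).1
  | _ + 1, x, 0 => (ω x).1
  | d + 1, x, k + 1 =>
    maj (fun y => valD ω d y (cntlt ω y (arrival ω x k))) x (coin ω x k)

/-- spin of `x` after `k` rings -/
def valL (ω : Noise) (x : V) (k : ℕ) : Bool := decide (∀ᶠ d in atTop, valD ω d x k = true)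

/-- the process -/
def sig (ω : Noise) (t : ℝ) : Cfg := fun x => valL ω x (cnt ω x t)

/-- the backward recursion from `(x, k)` has depth at most `d` -/
def Dep (ω : Noise) : ℕ → V → ℕ → Prop
  | _, _, 0 => True
  | 0, _, _ + 1 => False
  | d + 1, x, k + 1 => ∀ y ∈ nbrs x, Dep ω d y (cntlt ω y (arrival ω x k))

/-- positive waiting times, unbounded ring times -/
structure Good0 (ω : Noise) : Prop where
  pos : ∀ x k, 0 < wait ω x k
  unb : ∀ x t, ∃ k, t < arrival ω x k

/-- every backward recursion terminates -/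
def Term (ω : Noise) : Prop := ∀ x k, ∃ d, Dep ω d x k

/-- the recursion satisfied by the limit values -/
def Rec (ω : Noise) : Prop :=
  ∀ x k, valL ω x (k + 1) = maj (fun y => valL ω y (cntlt ω y (arrival ω x k))) x (coin ω x k)

/-- `x` rings during `(t, t + h]` -/
def Rings (x : V) (t h : ℝ) : Set Noise := {ω | arrival ω x (cnt ω x t) ≤ t + h}

/-- `x` rings during `(t, t + h]` and the coin of the first such ring is `c` -/
def RingC (x : V) (t h : ℝ) (c : Bool) : Set Noise :=
  {ω | arrival ω x (cnt ω x t) ≤ t + h ∧ coin ω x (cnt ω x t) = c}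

/-- `x` rings twice during `(t, t + h]` -/
def Ring2 (x : V) (t h : ℝ) : Set Noise := {ω | arrival ω x (cnt ω x t + 1) ≤ t + h}

/-- two rings among the sites of `S` during `(t, t + h]` -/
def Two (S : Finset V) (t h : ℝ) : Set Noise :=
  {ω | (∃ x ∈ S, ω ∈ Ring2 x t h) ∨ ∃ x ∈ S, ∃ y ∈ S, x ≠ y ∧ ω ∈ Rings x t h ∧ ω ∈ Rings y t h}

/-- replace the pair number `k` of the site `x` -/
def setPair (ω : Noise) (x : V) (k : ℕ) (p : ℝ × Bool) : Noise :=
  Function.update ω x ((ω x).1, Function.update (ω x).2 k p)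

/-- law of one pair (waiting time, coin) -/
def pairLaw : Measure (ℝ × Bool) := (expMeasure 1).prod (bern (1 / 2))

/-- law of the randomness of one site -/
def siteLaw (ρ : ℝ) : Measure (Bool × (ℕ → ℝ × Bool)) :=
  (bern ρ).prod (Measure.infinitePi fun _ : ℕ => pairLaw)

/-- `ω` and `ω'` differ only in the future of the site `x` after time `t` -/
structure Agree (x : V) (t : ℝ) (n : ℕ) (ω ω' : Noise) : Prop where
  off : ∀ y, y ≠ x → ω y = ω' y
  spin : (ω x).1 = (ω' x).1
  pairs : ∀ i, i < n → (ω x).2 i = (ω' x).2 i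
  lt : t < arrival ω x n
  lt' : t < arrival ω' x n

/-- the event does not look at the future of `x` after time `t` -/
def Adapt (x : V) (t : ℝ) (A : Set Noise) : Prop :=
  ∀ n ω ω', Agree x t n ω ω' → ω ∈ A → ω' ∈ A

/-- the sites ringing during a time slab of length one eighth do not percolate -/
def NoPerc (ω : Noise) : Prop :=
  ∀ (m : ℕ) (p : ℕ → V), Function.Injective p → (∀ i, p (i + 1) ∈ nbrs (p i)) →
    ∃ i, ω ∉ Rings (p i) ((m : ℝ) / 8) (1 / 8)

/-- a finite set together with its neighbours -/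
def hull (S : Finset V) : Finset V := S ∪ S.biUnion nbrs

/-- update of the site `x` with coin `c` -/
def upd (σ : Cfg) (x : V) (c : Bool) : Cfg := Function.update σ x (maj σ x c)

/-- expectations at time `t` -/
def mG (ρ t : ℝ) (f : Cfg → ℝ) : ℝ := ∫ ω, f (sig ω t) ∂law ρ

end

end Pool.Agent.BA
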