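import Pool.Agent.Lib.BA.GBasic
import Pool.Agent.Lib.BA.Basic

/-! From vanishing energy density to clustering of the process. -/

open MeasureTheory ProbabilityTheory Filter Topology Set

namespace Pool.Agent.BA

namespace G_CLU

open Classical

variable {ρ : ℝ}

/-- probability of disagreement -/
noncomputable def dg (ρ : ℝ) (x y : V) (t : ℝ) : ℝ := (law ρ).real {ω | sig ω t x ≠ sig ω t y}

def Cl (ρ : ℝ) (x y : V) : Prop := Tendsto (dg ρ x y) atTop (𝓝 0)

lemma meas (x y : V) (t : ℝ) : MeasurableSet {ω | sig ω t x ≠ sig ω t y} :=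
  (measurableSet_eq_fun ((measurable_pi_apply x).comp (measurable_sig t))
    ((measurable_pi_apply y).comp (measurable_sig t))).compl

lemma dg_eq (x y : V) (t : ℝ) : dg ρ x y t = mG ρ t fun σ => ind (σ x ≠ σ y) := by
  rw [dg, mG, ← integral_indicator_one (meas x y t)]
  refine integral_congr_ae (Eventually.of_forall fun ω => ?_)
  simp only [Set.indicator, ind, mem_ofPred_eq, Pi.one_apply]
  split_ifs <;> rfl

lemma Cl.refl (x : V) : Cl ρ x x := by
  have : dg ρ x x = fun _ => 0 := by funext t; simp [dg]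
  rw [Cl, this]; exact tendsto_const_nhds

lemma Cl.symm {x y : V} (h : Cl ρ x y) : Cl ρ y x := by
  have : dg ρ y x = dg ρ x y := by funext t; simp only [dg, ne_comm]
  rwa [Cl, this]

lemma Cl.trans (hρ : ρ ∈ Icc (0 : ℝ) 1) {x y z : V} (h : Cl ρ x y) (h' : Cl ρ y z) : Cl ρ x z := by
  have := prob_law hρ
  have h2 := h.add h'
  rw [add_zero] at h2
  refine squeeze_zero (fun t => measureReal_nonneg) (fun t => ?_) h2
  refine le_trans (measureReal_mono ?_) (measureReal_union_le _ _)
  intro ω hω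
  by_contra hc
  simp only [mem_union, mem_ofPred_eq, not_or, not_not] at hc
  exact hω (hc.1.trans hc.2)

lemma all (hρ : ρ ∈ Icc (0 : ℝ) 1) (he : Tendsto (fun t => mG ρ t fe) atTop (𝓝 0))
    (hs : ∀ t, 0 ≤ t → St (mG ρ t)) (x y : V) : Cl ρ x y := by
  have ha : ∀ z : V, Cl ρ (z + (0, 1)) z := by
    intro z
    refine squeeze_zero' (Eventually.of_forall fun t => measureReal_nonneg) ?_ he
    filter_upwards [eventually_ge_atTop 0] with t ht
    have h1 := (hs t ht).shift z fa loc_fa
    have h2 : mG ρ t fa ≤ mG ρ t fe := (hs t ht).mono _ _ loc_fa loc_fe fun σ => by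
      have := ind_nonneg (σ (1, 0) ≠ σ 0)
      simp only [fe, fb]; linarith
    rw [dg_eq]
    refine le_trans (le_of_eq ?_) (h1.le.trans h2)
    simp only [fa, sh, zero_add, add_comm z]
  have hb : ∀ z : V, Cl ρ (z + (1, 0)) z := by
    intro z
    refine squeeze_zero' (Eventually.of_forall fun t => measureReal_nonneg) ?_ he
    filter_upwards [eventually_ge_atTop 0] with t ht
    have h1 := (hs t ht).shift z fb loc_fb
    have h2 : mG ρ t fb ≤ mG ρ t fe := (hs t ht).mono _ _ loc_fb loc_fe fun σ => by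
      have := ind_nonneg (σ (0, 1) ≠ σ 0)
      simp only [fe, fa]; linarith
    rw [dg_eq]
    refine le_trans (le_of_eq ?_) (h1.le.trans h2)
    simp only [fb, sh, zero_add, add_comm z]
  have h1 : ∀ (i j : ℤ), Cl ρ (i, j) (i, 0) := by
    intro i j
    induction j using Int.induction_on with
    | zero => exact Cl.refl _
    | succ j ih =>
      have := ha (i, j)
      simp only [Prod.mk_add_mk, add_zero] at this
      exact this.trans hρ ih
    | pred j ih =>
      have := ha (i, -(j : ℤ) - 1)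
      simp only [Prod.mk_add_mk, add_zero, sub_add_cancel] at this
      exact this.symm.trans hρ ih
  have h2 : ∀ i : ℤ, Cl ρ (i, 0) (0, 0) := by
    intro i
    induction i using Int.induction_on with
    | zero => exact Cl.refl _
    | succ i ih =>
      have := hb (i, 0)
      simp only [Prod.mk_add_mk, add_zero] at this
      exact this.trans hρ ih
    | pred i ih =>
      have := hb (-(i : ℤ) - 1, 0)
      simp only [Prod.mk_add_mk, add_zero, sub_add_cancel] at this
      exact this.symm.trans hρ ih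
  exact ((h1 x.1 x.2).trans hρ (h2 x.1)).trans hρ ((h1 y.1 y.2).trans hρ (h2 y.1)).symm

end G_CLU

open G_CLU in
theorem cluster_of_energy {ρ : ℝ} (hρ : ρ ∈ Icc (0 : ℝ) 1)
    (he : Tendsto (fun t => mG ρ t fe) atTop (𝓝 0)) (hs : ∀ t, 0 ≤ t → St (mG ρ t))
    (Λ : Finset V) :
    Tendsto (fun t => law ρ {ω | ∀ x ∈ Λ, ∀ y ∈ Λ, sig ω t x = sig ω t y}) atTop (𝓝 1) := by
  have := prob_law hρ
  have h0 : Tendsto (fun t => ∑ x ∈ Λ, ∑ y ∈ Λ, dg ρ x y t) atTop (𝓝 0) := by
    have := tendsto_finsetSum Λ fun x _ => tendsto_finsetSum Λ fun y _ => all hρ he hs x y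
    simpa using this
  have h1 : Tendsto (fun t => ENNReal.ofReal (1 - ∑ x ∈ Λ, ∑ y ∈ Λ, dg ρ x y t)) atTop (𝓝 1) := by
    have := ENNReal.tendsto_ofReal (h0.const_sub 1)
    simpa using this
  refine tendsto_of_tendsto_of_tendsto_of_le_of_le h1 tendsto_const_nhds (fun t => ?_)
    fun t => prob_le_one
  have e : {ω | ∀ x ∈ Λ, ∀ y ∈ Λ, sig ω t x = sig ω t y} =
      (⋃ x ∈ Λ, ⋃ y ∈ Λ, {ω | sig ω t x ≠ sig ω t y})ᶜ := by
    ext ω; simp
  have hm : MeasurableSet (⋃ x ∈ Λ, ⋃ y ∈ Λ, {ω | sig ω t x ≠ sig ω t y}) :=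
    Finset.measurableSet_biUnion _ fun x _ => Finset.measurableSet_biUnion _ fun y _ => meas x y t
  show ENNReal.ofReal _ ≤ law ρ _
  rw [e, ← ofReal_measureReal (measure_ne_top _ _), probReal_compl_eq_one_sub hm]
  refine ENNReal.ofReal_le_ofReal (sub_le_sub_left ?_ _)
  exact (measureReal_biUnion_finset_le _ _).trans
    (Finset.sum_le_sum fun x _ => measureReal_biUnion_finset_le _ _)

end Pool.Agent.BA
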