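import Pool.Agent.Lib.BA.GBasic

/-! Section G: existence and uniqueness of the trajectory. -/

open MeasureTheory ProbabilityTheory Filter Topology Set

namespace Pool.Agent.BA

namespace G_EXU

lemma stab (ω : Noise) (d : ℕ) : ∀ (x : V) (k : ℕ), Dep ω d x k → ∀ d', d ≤ d' →
    valD ω d' x k = valD ω d x k := by
  induction d with
  | zero =>
    intro x k h d' _
    cases k with
    | zero => rw [valD_zero, valD_zero]
    | succ k => exact h.elim
  | succ d ih =>
    intro x k h d' hd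
    cases k with
    | zero => rw [valD_zero, valD_zero]
    | succ k =>
      obtain ⟨e, rfl⟩ : ∃ e, d' = e + 1 := ⟨d' - 1, by omega⟩
      exact maj_congr (fun y hy => ih y _ (h y hy) e (by omega)) _

lemma valL_eq {ω : Noise} {d : ℕ} {x : V} {k : ℕ} (h : Dep ω d x k) :
    valL ω x k = valD ω d x k :=
  valL_of_eventually (eventually_atTop.2 ⟨d, stab ω d x k h⟩)

lemma rec_of {ω : Noise} (h : Term ω) : Rec ω := by
  intro x k
  obtain ⟨d, hd⟩ := h x (k + 1)
  cases d with
  | zero => exact hd.elim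
  | succ d =>
    rw [valL_eq hd]
    exact maj_congr (fun y hy => (valL_eq (hd y hy)).symm) _

lemma ev_cnt {ω : Noise} (h : Good0 ω) (y : V) (a : ℝ) :
    ∀ᶠ s in 𝓝[<] a, cnt ω y s = cntlt ω y a := by
  have h1 : ∀ᶠ s in 𝓝[<] a, ∀ i ∈ Finset.range (cntlt ω y a), arrival ω y i ≤ s :=
    (eventually_all_finset _).2 fun i hi => mem_nhdsWithin_of_mem_nhds
      (Ici_mem_nhds (arr_lt_of_lt_cntlt (Finset.mem_range.1 hi)))
  filter_upwards [h1, self_mem_nhdsWithin] with s hs hs'
  exact cnt_eq (lt_of_lt_of_le hs' (h.le_arr_cntlt y a)) fun i hi => hs i (Finset.mem_range.2 hi)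

lemma ev_nbrs {ω : Noise} (h : Good0 ω) (x : V) (a : ℝ) :
    ∀ᶠ s in 𝓝[<] a, ∀ y ∈ nbrs x, cnt ω y s = cntlt ω y a :=
  (eventually_all_finset _).2 fun y _ => ev_cnt h y a

lemma uniq {ω : Noise} (h : Good0 ω) (hr : Rec ω) {s : ℝ → Cfg} (hs : IsGlauber ω s) (d : ℕ) :
    ∀ (x : V) (k : ℕ) (t : ℝ), Dep ω d x k → cnt ω x t = k → s t x = valL ω x k := by
  have z : ∀ (x : V) (t : ℝ), cnt ω x t = 0 → s t x = valL ω x 0 := fun x t e => by
    rw [valL_zero]
    exact (hs x).1 t (e ▸ h.lt_arr_cnt x t)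
  induction d with
  | zero =>
    intro x k t hd e
    cases k with
    | zero => exact z x t e
    | succ k => exact hd.elim
  | succ d ih =>
    intro x k t hd e
    cases k with
    | zero => exact z x t e
    | succ k =>
      obtain ⟨u, h1, h2⟩ := (((hs x).2 k t (arr_le_of_lt_cnt (by omega))
        (e ▸ h.lt_arr_cnt x t)).and (ev_nbrs h x (arrival ω x k))).exists
      rw [h1, hr x k]
      exact maj_congr (fun y hy => ih y _ u (hd y hy) (h2 y hy)) _

end G_EXU

open G_EXU

theorem st_gexu : St_GEXU := by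
  intro ω h ht
  have hr := rec_of ht
  refine ⟨hr, fun s => ⟨fun hs => ?_, ?_⟩⟩
  · funext t x
    obtain ⟨d, hd⟩ := ht x (cnt ω x t)
    exact uniq h hr hs d x _ t hd rfl
  · rintro rfl x
    refine ⟨fun t k => ?_, fun k t h1 h2 => ?_⟩
    · rw [sig, Nat.le_zero.1 (cnt_le k), valL_zero]
    · have e : cnt ω x t = k + 1 :=
        cnt_eq h2 fun i hi => (h.mono x (Nat.lt_succ_iff.1 hi)).trans h1
      filter_upwards [ev_nbrs h x (arrival ω x k)] with u hu
      rw [sig, e, hr x k]
      exact maj_congr (fun y hy => by rw [sig, hu y hy]) _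

end Pool.Agent.BA
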