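import Pool.Agent.Lib.BA.GBasic
import Pool.Agent.Lib.BA.Basic

/-! The forward equation for the graphical construction. -/

open MeasureTheory Filter Topology Set

namespace Pool.Agent.BA

namespace G_FLOW

theorem lip {u v : ℝ → ℝ} {C M : ℝ}
    (h : ∀ t d : ℝ, 0 ≤ t → 0 ≤ d → |u (t + d) - u t - d * v t| ≤ C * d ^ 2) (hM : ∀ t, |v t| ≤ M)
    {s t : ℝ} (hs : 0 ≤ s) (ht : 0 ≤ t) (h1 : |s - t| ≤ 1) : |u s - u t| ≤ (M + |C|) * |s - t| := by
  wlog hst : t ≤ s generalizing s t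
  · rw [abs_sub_comm (u s), abs_sub_comm s]
    exact this ht hs (by rwa [abs_sub_comm]) (not_le.1 hst).le
  have h0 : 0 ≤ s - t := sub_nonneg.2 hst
  have h2 := h t (s - t) ht h0
  rw [add_sub_cancel] at h2
  rw [abs_of_nonneg h0] at h1 ⊢
  have h3 : |(s - t) * v t| ≤ (s - t) * M := by
    rw [abs_mul, abs_of_nonneg h0]
    exact mul_le_mul_of_nonneg_left (hM t) h0
  have h4 : C * (s - t) ^ 2 ≤ |C| * (s - t) :=
    mul_le_mul (le_abs_self C) (by nlinarith) (sq_nonneg _) (abs_nonneg C)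
  have h5 := abs_add_le (u s - u t - (s - t) * v t) ((s - t) * v t)
  rw [sub_add_cancel] at h5
  linarith

theorem near (t : ℝ) : ∀ᶠ s in 𝓝 t, |s - t| ≤ 1 := by
  filter_upwards [Metric.closedBall_mem_nhds t one_pos] with s hs
  exact hs

theorem cont {u : ℝ → ℝ} {K : ℝ}
    (h : ∀ s t : ℝ, 0 ≤ s → 0 ≤ t → |s - t| ≤ 1 → |u s - u t| ≤ K * |s - t|) :
    ContinuousOn u (Ici 0) := fun t ht => by
  rw [ContinuousWithinAt, tendsto_iff_norm_sub_tendsto_zero]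
  have h1 : Tendsto (fun s => K * |s - t|) (𝓝[Ici 0] t) (𝓝 0) := by
    have : Continuous fun s => K * |s - t| := by fun_prop
    simpa using (this.tendsto t).mono_left nhdsWithin_le_nhds
  refine squeeze_zero' (Eventually.of_forall fun _ => norm_nonneg _) ?_ h1
  filter_upwards [self_mem_nhdsWithin, mem_nhdsWithin_of_mem_nhds (near t)] with s hs h2
  exact h s t hs ht h2

theorem der {u v : ℝ → ℝ} {C K : ℝ}
    (h : ∀ t d : ℝ, 0 ≤ t → 0 ≤ d → |u (t + d) - u t - d * v t| ≤ C * d ^ 2)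
    (hK : ∀ s t : ℝ, 0 ≤ s → 0 ≤ t → |s - t| ≤ 1 → |v s - v t| ≤ K * |s - t|) {t : ℝ}
    (ht : 0 < t) : HasDerivAt u (v t) t := by
  rw [hasDerivAt_iff_isLittleO]
  refine (Asymptotics.IsBigO.of_bound (|C| + |K|) ?_).trans_isLittleO
    (Asymptotics.isLittleO_pow_sub_sub t one_lt_two)
  filter_upwards [near t, Ici_mem_nhds ht] with s h1 hs
  simp only [Real.norm_eq_abs, smul_eq_mul, abs_pow, abs_abs, sq_abs]
  have hC := mul_le_mul_of_nonneg_right (le_abs_self C) (sq_nonneg (s - t))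
  have hK0 := mul_nonneg (abs_nonneg K) (sq_nonneg (s - t))
  rcases le_total t s with hst | hst
  · have h2 := h t (s - t) ht.le (sub_nonneg.2 hst)
    rw [add_sub_cancel] at h2
    linarith
  · have h2 := h s (t - s) hs (sub_nonneg.2 hst)
    rw [add_sub_cancel, show (t - s) ^ 2 = (s - t) ^ 2 by ring] at h2
    have h3 : |(s - t) * (v s - v t)| ≤ |K| * (s - t) ^ 2 := by
      rw [abs_mul, ← sq_abs (s - t)]
      have := (hK s t hs ht.le h1).trans (mul_le_mul_of_nonneg_right (le_abs_self K) (abs_nonneg _))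
      nlinarith [abs_nonneg (s - t)]
    have h4 := abs_add_le (-(u t - u s - (t - s) * v s)) ((s - t) * (v s - v t))
    rw [abs_neg, show -(u t - u s - (t - s) * v s) + (s - t) * (v s - v t) =
      u s - u t - (s - t) * v t by ring] at h4
    linarith

theorem mG_bdd {ρ : ℝ} (hρ : ρ ∈ Icc (0 : ℝ) 1) {f : Cfg → ℝ} (hf : Loc f) :
    ∃ M, ∀ t, |mG ρ t f| ≤ M := by
  have := prob_law hρ
  obtain ⟨M, -, hM⟩ := hf.bdd
  refine ⟨M, fun t => ?_⟩
  simpa [mG] using norm_integral_le_of_norm_le_const (μ := law ρ) (f := fun ω => f (sig ω t))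
    (C := M) (Eventually.of_forall fun ω => hM _)

theorem step (h2 : St_GH2) {ρ : ℝ} (hρ : ρ ∈ Icc (0 : ℝ) 1) {f : Cfg → ℝ} (hf : Loc f) :
    ∃ C : ℝ, ∀ t d : ℝ, 0 ≤ t → 0 ≤ d →
      |mG ρ (t + d) f - mG ρ t f - d * mG ρ t (gen f)| ≤ C * d ^ 2 := by
  obtain ⟨S, hS⟩ := hf
  rw [hS.gen_eq]
  exact h2 ρ hρ S f hS

theorem mG_lip (h2 : St_GH2) {ρ : ℝ} (hρ : ρ ∈ Icc (0 : ℝ) 1) {f : Cfg → ℝ} (hf : Loc f) :
    ∃ K : ℝ, ∀ s t : ℝ, 0 ≤ s → 0 ≤ t → |s - t| ≤ 1 → |mG ρ s f - mG ρ t f| ≤ K * |s - t| := by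
  obtain ⟨C, hC⟩ := step h2 hρ hf
  obtain ⟨M, hM⟩ := mG_bdd hρ hf.gen
  exact ⟨_, fun s t hs ht h1 => lip (u := fun t => mG ρ t f) hC hM hs ht h1⟩

end G_FLOW

open G_FLOW in
theorem st_gflow (h2 : St_GH2) : St_GFLOW := fun ρ hρ =>
  { pos := fun t _ =>
      { add := fun _ _ ⟨_, hf⟩ ⟨_, hg⟩ =>
          integral_add (hf.integrable_sig hρ t) (hg.integrable_sig hρ t)
        smul := fun c _ _ => integral_const_mul c _
        mono := fun _ _ ⟨_, hf⟩ ⟨_, hg⟩ h =>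
          integral_mono (hf.integrable_sig hρ t) (hg.integrable_sig hρ t) fun _ => h _ }
    one := fun t _ => by
      have := prob_law hρ
      simp [mG]
    cont := fun f hf => by
      obtain ⟨K, hK⟩ := mG_lip h2 hρ hf
      exact cont hK
    deriv := fun f hf t ht => by
      obtain ⟨C, hC⟩ := step h2 hρ hf
      obtain ⟨K, hK⟩ := mG_lip h2 hρ hf.gen
      exact der (u := fun t => mG ρ t f) (v := fun t => mG ρ t (gen f)) hC hK ht }

end Pool.Agent.BA
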