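import Pool.Agent.Lib.BA.GBasic

/-! Section G: positive waiting times and unbounded ring times. -/

open MeasureTheory ProbabilityTheory Filter Topology Set

namespace Pool.Agent.BA

namespace G_GOOD

lemma ae_pos (k : ℕ) : ∀ᵐ a ∂Measure.infinitePi fun _ : ℕ => pairLaw, 0 < (a k).1 := by
  have h : ∀ᵐ p ∂pairLaw, 0 < p.1 := by
    rw [ae_iff]
    simp only [not_lt]
    rw [pair_Iic le_rfl]
    simp
  exact (measurePreserving_eval_infinitePi (fun _ : ℕ => pairLaw) k).quasiMeasurePreserving.ae h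

lemma ae_big (m : ℕ) :
    ∀ᵐ a ∂Measure.infinitePi fun _ : ℕ => pairLaw, ∃ i, m ≤ i ∧ 1 < (a i).1 := by
  rw [ae_iff]
  have h1 : ENNReal.ofReal (1 - Real.exp (-1)) < 1 :=
    ENNReal.ofReal_lt_one.2 (by linarith [Real.exp_pos (-1)])
  refine le_antisymm (ge_of_tendsto' (ENNReal.tendsto_pow_atTop_nhds_zero_of_lt_one h1)
    fun N => ?_) zero_le
  have h2 := Measure.infinitePi_pi (fun _ : ℕ => pairLaw) (s := Finset.Ico m (m + N))
    (t := fun _ => {p : ℝ × Bool | p.1 ≤ 1})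
    fun _ _ => measurableSet_le measurable_fst measurable_const
  rw [Finset.prod_const, pair_Iic zero_le_one, Nat.card_Ico, Nat.add_sub_cancel_left] at h2
  rw [← h2]
  refine measure_mono fun a ha i hi => ?_
  exact not_lt.1 fun hc => ha ⟨i, (Finset.mem_Ico.1 hi).1, hc⟩

lemma unb {ω : Noise} {x : V} (h1 : ∀ k, 0 < wait ω x k) (h2 : ∀ m, ∃ i, m ≤ i ∧ 1 < wait ω x i)
    (t : ℝ) : ∃ k, t < arrival ω x k := by
  have hm : Monotone (arrival ω x) :=
    monotone_nat_of_le_succ fun k => by rw [arrival_succ]; linarith [h1 (k + 1)]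
  have key : ∀ n : ℕ, ∃ k, (n : ℝ) < arrival ω x k := by
    intro n
    induction n with
    | zero => exact ⟨0, by rw [arrival_zero, Nat.cast_zero]; exact h1 0⟩
    | succ n ih =>
      obtain ⟨k, hk⟩ := ih
      obtain ⟨i, hi, h⟩ := h2 (k + 1)
      obtain ⟨j, rfl⟩ : ∃ j, i = j + 1 := ⟨i - 1, by omega⟩
      refine ⟨j + 1, ?_⟩
      have := hm (show k ≤ j by omega)
      rw [arrival_succ, Nat.cast_succ]
      linarith
  obtain ⟨n, hn⟩ := exists_nat_ge t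
  obtain ⟨k, hk⟩ := key n
  exact ⟨k, hn.trans_lt hk⟩

end G_GOOD

open G_GOOD in
theorem st_ggood : St_GGOOD := by
  intro ρ hρ
  have := prob_bern hρ
  have := prob_siteLaw hρ
  have h0 : ∀ᵐ a ∂Measure.infinitePi fun _ : ℕ => pairLaw,
      (∀ k, 0 < (a k).1) ∧ ∀ m, ∃ i, m ≤ i ∧ 1 < (a i).1 :=
    (ae_all_iff.2 ae_pos).and (ae_all_iff.2 ae_big)
  have h1 : ∀ᵐ s ∂siteLaw ρ, (∀ k, 0 < (s.2 k).1) ∧ ∀ m, ∃ i, m ≤ i ∧ 1 < (s.2 i).1 :=
    measurePreserving_snd.quasiMeasurePreserving.ae h0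
  have h2 : ∀ x : V, ∀ᵐ ω ∂law ρ, (∀ k, 0 < wait ω x k) ∧ ∀ m, ∃ i, m ≤ i ∧ 1 < wait ω x i :=
    fun x => (measurePreserving_eval_infinitePi (fun _ : V => siteLaw ρ) x).quasiMeasurePreserving.ae
      h1
  filter_upwards [ae_all_iff.2 h2] with ω hω
  exact ⟨fun x => (hω x).1, fun x => unb (hω x).1 (hω x).2⟩

end Pool.Agent.BA
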