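import Pool.Agent.Lib.BA.GBasic

/-! Section G, block H2: one time step in expectation. -/

open MeasureTheory ProbabilityTheory Filter Topology Set

namespace Pool.Agent.BA

open Classical

namespace G_H2

lemma dep_upd {f : Cfg → ℝ} {S : Finset V} (hf : DepOn f S) {x : V} (hx : x ∈ S) (c : Bool) :
    DepOn (fun σ => f (upd σ x c) - f σ) (hull S) := fun σ σ' h => by
  have h1 : f σ = f σ' := hf _ _ fun y hy => h y (subset_hull S hy)
  have h2 : f (upd σ x c) = f (upd σ' x c) := hf _ _ fun y hy => by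
    unfold upd
    by_cases e : y = x
    · subst e
      rw [Function.update_self, Function.update_self]
      exact maj_congr (fun z hz => h z (nbrs_subset_hull hx hz)) c
    · rw [Function.update_of_ne e, Function.update_of_ne e]
      exact h y (subset_hull S hy)
  simp only [h1, h2]

lemma ind_mul (A : Set Noise) (g : Noise → ℝ) :
    (fun ω => ind (ω ∈ A) * g ω) = A.indicator g := by
  funext ω
  by_cases h : ω ∈ A <;> simp [ind, h]

lemma abs_ind (p : Prop) : |ind p| ≤ 1 := by
  unfold ind
  split_ifs <;> simp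

lemma ring_int (hp : St_GPAST) (hm : St_GMEM) {ρ : ℝ} (hρ : ρ ∈ Icc (0 : ℝ) 1) (x : V) {t h : ℝ}
    (ht : 0 ≤ t) (hh : 0 ≤ h) (c : Bool) {g : Cfg → ℝ} (hg : Measurable g) :
    ∫ ω, ind (ω ∈ RingC x t h c) * g (sig ω t) ∂law ρ =
      (1 - Real.exp (-h)) / 2 * ∫ ω, g (sig ω t) ∂law ρ := by
  have e : ((law ρ).restrict (RingC x t h c)).map (fun ω => sig ω t) =
      ENNReal.ofReal ((1 - Real.exp (-h)) / 2) • (law ρ).map (fun ω => sig ω t) := by
    ext B hB
    rw [Measure.smul_apply, Measure.map_apply (measurable_sig t) hB,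
      Measure.map_apply (measurable_sig t) hB, Measure.restrict_apply (measurable_sig t hB),
      smul_eq_mul]
    refine hm ρ hρ x t h c _ ht hh (measurable_sig t hB) fun n ω ω' ha hω => ?_
    rwa [mem_preimage, ← hp x t n ω ω' ha]
  rw [ind_mul, integral_indicator (measurableSet_RingC x t h c),
    ← integral_map (measurable_sig t).aemeasurable hg.aestronglyMeasurable, e,
    integral_smul_measure, integral_map (measurable_sig t).aemeasurable hg.aestronglyMeasurable,
    ENNReal.toReal_ofReal (by have := one_sub_exp_nonneg hh; positivity), smul_eq_mul]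

end G_H2

open G_H2 in
theorem st_gh2 (hg : St_GGOOD) (hh : St_GHAR) (hw : St_GWF) (he : St_GEXU) (hp : St_GPAST)
    (hpa : St_GPATH) (hm : St_GMEM) (ht : St_GTWO) : St_GH2 := by
  intro ρ hρ S f hf
  have := prob_law hρ
  obtain ⟨M, hM0, hM⟩ := hf.bdd
  have hd : ∀ σ σ', |f σ - f σ'| ≤ 2 * M := fun σ σ' =>
    (abs_sub _ _).trans (by linarith [hM σ, hM σ'])
  have hsum : ∀ u : V → Bool → ℝ, (∀ x c, |u x c| ≤ 2 * M) →
      |∑ x ∈ S, ∑ c : Bool, u x c| ≤ S.card * (4 * M) := fun u hu => by
    refine (Finset.abs_sum_le_sum_abs _ _).trans ?_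
    rw [← nsmul_eq_mul]
    refine Finset.sum_le_card_nsmul _ _ _ fun x _ => ?_
    rw [Fintype.sum_bool]
    exact (abs_add_le _ _).trans (by linarith [hu x true, hu x false])
  have hgen : ∀ σ, ∑ x ∈ S, ∑ c : Bool, (f (upd σ x c) - f σ) = 2 * genOn S f σ := fun σ => by
    rw [genOn, Finset.mul_sum]
    exact Finset.sum_congr rfl fun x _ => sum_upd f σ x
  set K : ℝ := 2 * M + S.card * (4 * M) with hK
  have hK0 : 0 ≤ K := by positivity
  refine ⟨K * ((hull S).card : ℝ) ^ 2 + S.card * (2 * M), fun t h t0 h0 => ?_⟩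
  have i1 : ∀ x ∈ S, ∀ c, Integrable (fun ω => f (upd (sig ω t) x c) - f (sig ω t)) (law ρ) :=
    fun x hx c => (dep_upd hf hx c).integrable_sig hρ t
  have i2 : ∀ x ∈ S, ∀ c, Integrable (fun ω => ind (ω ∈ RingC x t h c) *
      (f (upd (sig ω t) x c) - f (sig ω t))) (law ρ) := fun x hx c => by
    rw [ind_mul]
    exact (i1 x hx c).indicator (measurableSet_RingC x t h c)
  have e1 : ∫ ω, ∑ x ∈ S, ∑ c : Bool, ind (ω ∈ RingC x t h c) *
      (f (upd (sig ω t) x c) - f (sig ω t)) ∂law ρ = (1 - Real.exp (-h)) * mG ρ t (genOn S f) := by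
    have a1 : 2 * mG ρ t (genOn S f) =
        ∑ x ∈ S, ∑ c : Bool, ∫ ω, (f (upd (sig ω t) x c) - f (sig ω t)) ∂law ρ := by
      rw [mG, ← integral_const_mul]
      simp only [← hgen]
      rw [integral_finsetSum _ fun x hx => integrable_finsetSum _ fun c _ => i1 x hx c]
      exact Finset.sum_congr rfl fun x hx => integral_finsetSum _ fun c _ => i1 x hx c
    rw [integral_finsetSum _ fun x hx => integrable_finsetSum _ fun c _ => i2 x hx c,
      show (1 - Real.exp (-h)) * mG ρ t (genOn S f) =
        (1 - Real.exp (-h)) / 2 * (2 * mG ρ t (genOn S f)) by ring, a1, Finset.mul_sum]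
    refine Finset.sum_congr rfl fun x hx => ?_
    rw [integral_finsetSum _ fun c _ => i2 x hx c, Finset.mul_sum]
    exact Finset.sum_congr rfl fun c _ =>
      ring_int hp hm hρ x t0 h0 c (dep_upd hf hx c).measurable
  have e2 : |mG ρ (t + h) f - mG ρ t f - (1 - Real.exp (-h)) * mG ρ t (genOn S f)| ≤
      K * ((hull S).card : ℝ) ^ 2 * h ^ 2 := by
    have j1 := hf.integrable_sig hρ (t + h)
    have j2 := hf.integrable_sig hρ t
    have j3 : Integrable (fun ω => f (sig ω (t + h)) - f (sig ω t)) (law ρ) := j1.sub j2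
    rw [← e1, mG, mG, ← integral_sub j1 j2, ← integral_sub j3
      (integrable_finsetSum _ fun x hx => integrable_finsetSum _ fun c _ => i2 x hx c),
      ← Real.norm_eq_abs]
    refine (norm_integral_le_of_norm_le (g := (Two (hull S) t h).indicator fun _ => K)
      ((integrable_const K).indicator (measurableSet_Two _ t h)) ?_).trans ?_
    · filter_upwards [hg ρ hρ, hh ρ hρ] with ω g0 np
      by_cases hω : ω ∈ Two (hull S) t h
      · rw [indicator_of_mem hω, Real.norm_eq_abs]
        refine (abs_sub _ _).trans (add_le_add (hd _ _) (hsum _ fun x c => ?_))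
        rw [abs_mul]
        exact (mul_le_of_le_one_left (abs_nonneg _) (abs_ind _)).trans (hd _ _)
      · rw [indicator_of_notMem hω, hpa ω S f t h g0 (he ω g0 (hw ω g0 np)).1 hf h0 hω, sub_self,
          norm_zero]
    · rw [integral_indicator_const _ (measurableSet_Two _ t h), smul_eq_mul, mul_comm, mul_assoc]
      exact mul_le_mul_of_nonneg_left
        (ENNReal.toReal_le_of_le_ofReal (by positivity) ((ht ρ hρ t h t0 h0).2 _)) hK0
  have e3 : |mG ρ t (genOn S f)| ≤ S.card * (2 * M) := by
    have := norm_integral_le_of_norm_le_const (μ := law ρ) (f := fun ω => genOn S f (sig ω t))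
      (C := S.card * (2 * M)) (Eventually.of_forall fun ω => by
        have a1 := hsum (fun x c => f (upd (sig ω t) x c) - f (sig ω t)) fun x c => hd _ _
        rw [hgen, abs_mul, abs_two] at a1
        rw [Real.norm_eq_abs]
        linarith)
    simpa [mG] using this
  have e4 : |(1 - Real.exp (-h) - h) * mG ρ t (genOn S f)| ≤ h ^ 2 * (S.card * (2 * M)) := by
    rw [abs_mul]
    refine mul_le_mul (abs_le.2 ⟨?_, ?_⟩) e3 (abs_nonneg _) (sq_nonneg h)
    · linarith [sub_sq_le_one_sub_exp h0]
    · linarith [one_sub_exp_le h, sq_nonneg h]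
  calc _ = |(mG ρ (t + h) f - mG ρ t f - (1 - Real.exp (-h)) * mG ρ t (genOn S f)) +
        (1 - Real.exp (-h) - h) * mG ρ t (genOn S f)| := congrArg _ (by ring)
    _ ≤ _ := (abs_add_le _ _).trans (by linarith)

end Pool.Agent.BA
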