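import Pool.Agent.Lib.BA.GBasic

open MeasureTheory ProbabilityTheory Filter Topology Set

namespace Pool.Agent.BA

namespace G_HAR

/-- vertex sets of the nearest neighbour paths with `k` steps from `x` -/
def fam : ℕ → V → Finset (Finset V)
  | 0, x => {{x}}
  | k + 1, x => (nbrs x).biUnion fun y => (fam k y).image (insert x)

lemma card_fam (k : ℕ) : ∀ x, (fam k x).card ≤ 4 ^ k := by
  induction k with
  | zero => intro x; simp [fam]
  | succ k ih =>
    intro x
    refine (Finset.card_biUnion_le_card_mul _ _ (4 ^ k) fun y _ =>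
      Finset.card_image_le.trans (ih y)).trans ?_
    rw [pow_succ']
    exact Nat.mul_le_mul_right _ (card_nbrs_le x)

lemma mem_fam (k : ℕ) : ∀ p : ℕ → V, (∀ i, p (i + 1) ∈ nbrs (p i)) →
    (Finset.range (k + 1)).image p ∈ fam k (p 0) := by
  induction k with
  | zero => intro p _; simp [fam]
  | succ k ih =>
    intro p hp
    refine Finset.mem_biUnion.2 ⟨p 1, hp 0, Finset.mem_image.2
      ⟨_, ih (fun i => p (i + 1)) fun i => hp (i + 1), ?_⟩⟩
    ext z
    simp only [Finset.mem_insert, Finset.mem_image, Finset.mem_range]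
    constructor
    · rintro (rfl | ⟨i, hi, rfl⟩)
      · exact ⟨0, by omega, rfl⟩
      · exact ⟨i + 1, by omega, rfl⟩
    · rintro ⟨i, hi, rfl⟩
      cases i with
      | zero => exact Or.inl rfl
      | succ i => exact Or.inr ⟨i, by omega, rfl⟩

end G_HAR

open G_HAR in
theorem st_ghar (ht : St_GTWO) : St_GHAR := by
  intro ρ hρ
  have key : ∀ (m : ℕ) (x : V), law ρ {ω | ∃ p : ℕ → V, p 0 = x ∧ Function.Injective p ∧
      (∀ i, p (i + 1) ∈ nbrs (p i)) ∧ ∀ i, ω ∈ Rings (p i) ((m : ℝ) / 8) (1 / 8)} = 0 := by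
    intro m x
    have h1 := (ht ρ hρ ((m : ℝ) / 8) (1 / 8) (by positivity) (by norm_num)).1
    have h2 : Tendsto (fun k : ℕ => ENNReal.ofReal ((1 / 2 : ℝ) ^ k)) atTop (𝓝 0) := by
      have := ENNReal.tendsto_ofReal
        (tendsto_pow_atTop_nhds_zero_of_lt_one (r := (1 / 2 : ℝ)) (by norm_num) (by norm_num))
      simpa using this
    refine le_antisymm (ge_of_tendsto' h2 fun k => ?_) zero_le
    calc _ ≤ law ρ (⋃ F ∈ (fam k x).filter fun F => F.card = k + 1,
          ⋂ y ∈ F, Rings y ((m : ℝ) / 8) (1 / 8)) := by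
          refine measure_mono ?_
          rintro ω ⟨p, rfl, hp, hn, hr⟩
          refine mem_iUnion₂.2 ⟨_, Finset.mem_filter.2 ⟨mem_fam k p hn, ?_⟩, ?_⟩
          · rw [Finset.card_image_of_injective _ hp, Finset.card_range]
          · refine mem_iInter₂.2 fun y hy => ?_
            obtain ⟨i, -, rfl⟩ := Finset.mem_image.1 hy
            exact hr i
      _ ≤ ∑ F ∈ (fam k x).filter fun F => F.card = k + 1,
          law ρ (⋂ y ∈ F, Rings y ((m : ℝ) / 8) (1 / 8)) := measure_biUnion_finset_le _ _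
      _ ≤ ((fam k x).filter fun F => F.card = k + 1).card •
          ENNReal.ofReal ((1 / 8 : ℝ) ^ (k + 1)) := by
          refine Finset.sum_le_card_nsmul _ _ _ fun F hF => ?_
          rw [← (Finset.mem_filter.1 hF).2]
          exact h1 F
      _ ≤ 4 ^ k • ENNReal.ofReal ((1 / 8 : ℝ) ^ (k + 1)) :=
          nsmul_le_nsmul_left zero_le ((Finset.card_filter_le _ _).trans (card_fam k x))
      _ ≤ _ := by
          rw [← ENNReal.ofReal_nsmul]
          refine ENNReal.ofReal_le_ofReal ?_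
          rw [nsmul_eq_mul, Nat.cast_pow, pow_succ, ← mul_assoc, ← mul_pow]
          norm_num
  have h3 : ∀ᵐ ω ∂law ρ, ∀ (m : ℕ) (x : V), ¬ ∃ p : ℕ → V, p 0 = x ∧ Function.Injective p ∧
      (∀ i, p (i + 1) ∈ nbrs (p i)) ∧ ∀ i, ω ∈ Rings (p i) ((m : ℝ) / 8) (1 / 8) :=
    ae_all_iff.2 fun m => ae_all_iff.2 fun x => measure_eq_zero_iff_ae_notMem.1 (key m x)
  filter_upwards [h3] with ω hω m p hp hn
  by_contra h
  push Not at h
  exact hω m (p 0) ⟨p, rfl, hp, hn, h⟩

end Pool.Agent.BA
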