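import Pool.Agent.Lib.BA.GBasic

open MeasureTheory ProbabilityTheory Filter Topology Set

namespace Pool.Agent.BA

namespace G_INIT

lemma sig_zero {ω : Noise} (h : Good0 ω) : sig ω 0 = fun x => (ω x).1 := by
  funext x
  have : cnt ω x 0 = 0 := cnt_eq (h.arr_pos x 0) fun i hi => absurd hi (Nat.not_lt_zero i)
  simp only [sig, this, valL_zero]

lemma mG_zero (hg : St_GGOOD) {ρ : ℝ} (hρ : ρ ∈ Icc (0 : ℝ) 1) (f : Cfg → ℝ) :
    mG ρ 0 f = ∫ ω, f (fun x => (ω x).1) ∂law ρ := by
  refine integral_congr_ae ?_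
  filter_upwards [hg ρ hρ] with ω h
  rw [sig_zero h]

lemma meas_spin : Measurable fun (ω : Noise) (x : V) => (ω x).1 :=
  measurable_pi_lambda _ measurable_spin

lemma inv {ρ : ℝ} (hρ : ρ ∈ Icc (0 : ℝ) 1) {e : V → V} (he : Function.Injective e) {f : Cfg → ℝ}
    (hf : Loc f) : ∫ ω, f (fun x => (ω (e x)).1) ∂law ρ = ∫ ω, f (fun x => (ω x).1) ∂law ρ := by
  have := prob_siteLaw hρ
  obtain ⟨S, hS⟩ := hf
  have h1 : (law ρ).map (fun (ω : Noise) (x : V) => ω (e x)) = law ρ :=
    Measure.map_infinitePi_infinitePi_of_inj (P := fun _ : V => siteLaw ρ) he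
  conv_rhs => rw [← h1]
  rw [integral_map (measurable_pi_lambda _ fun x => measurable_pi_apply (e x)).aemeasurable
    (hS.measurable.comp meas_spin).aestronglyMeasurable]

lemma factor {f : Cfg → ℝ} {S : Finset V} (h : DepOn f S) :
    ∃ F : (S → Bool) → ℝ, ∀ σ : Cfg, f σ = F fun x => σ x := by
  classical
  exact ⟨fun u => f fun x => if hx : x ∈ S then u ⟨x, hx⟩ else false,
    fun σ => h _ _ fun x hx => by simp [hx]⟩

end G_INIT

open G_INIT in
theorem st_ginit (hg : St_GGOOD) : St_GINIT := by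
  intro ρ hρ
  refine ⟨fun z f hf => ?_, fun f hf => ?_, fun f g S T hf hg' hST => ?_⟩
  · rw [mG_zero hg hρ, mG_zero hg hρ]
    exact inv hρ (add_left_injective z) hf
  · rw [mG_zero hg hρ, mG_zero hg hρ]
    exact inv hρ Prod.swap_injective hf
  · have := prob_siteLaw hρ
    rw [mG_zero hg hρ, mG_zero hg hρ, mG_zero hg hρ]
    obtain ⟨F, hF⟩ := factor hf
    obtain ⟨G, hG⟩ := factor hg'
    have h1 : iIndepFun (fun (x : V) (ω : Noise) => (ω x).1) (law ρ) :=
      iIndepFun_infinitePi (P := fun _ : V => siteLaw ρ) (X := fun _ a => a.1)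
        fun _ => measurable_fst
    have h2 := (h1.indepFun_finset S T hST measurable_spin).comp (measurable_of_finite F)
      (measurable_of_finite G)
    simp only [hF, hG]
    exact h2.integral_fun_mul_eq_mul_integral
      ((measurable_of_finite F).comp
        (measurable_pi_lambda _ fun x => measurable_spin x.1)).aestronglyMeasurable
      ((measurable_of_finite G).comp
        (measurable_pi_lambda _ fun x => measurable_spin x.1)).aestronglyMeasurable

end Pool.Agent.BA
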