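import Pool.Agent.Lib.BA.GBasic

open MeasureTheory ProbabilityTheory Filter Topology Set

namespace Pool.Agent.BA

namespace G_MEM

/-- exactly `n` rings up to time `t` -/
def Cn (x : V) (t : ℝ) (n : ℕ) : Set Noise :=
  {ω | (∀ i, i < n → arrival ω x i ≤ t) ∧ t < arrival ω x n}

lemma measurableSet_Cn (x : V) (t : ℝ) (n : ℕ) : MeasurableSet (Cn x t n) := by
  have : Cn x t n = (⋂ i : ℕ, ⋂ _ : i < n, {ω | arrival ω x i ≤ t}) ∩ {ω | t < arrival ω x n} := by
    ext ω; simp [Cn]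
  rw [this]
  exact (MeasurableSet.iInter fun i => MeasurableSet.iInter fun _ =>
    measurableSet_le (measurable_arrival x i) measurable_const).inter
    (measurableSet_lt measurable_const (measurable_arrival x n))

lemma cnt_of_mem {x : V} {t : ℝ} {n : ℕ} {ω : Noise} (h : ω ∈ Cn x t n) : cnt ω x t = n :=
  cnt_eq h.2 h.1

lemma split {ρ : ℝ} (hg : ∀ᵐ ω ∂law ρ, Good0 ω) (x : V) (t : ℝ) {B : Set Noise}
    (hB : MeasurableSet B) : law ρ B = ∑' n, law ρ (B ∩ Cn x t n) := by
  rw [← measure_iUnion (fun i j hij => ?_) fun n => hB.inter (measurableSet_Cn x t n)]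
  · refine measure_congr ?_
    filter_upwards [hg] with ω hω
    refine propext ⟨fun h => mem_iUnion.2 ⟨cnt ω x t, h, fun i hi => arr_le_of_lt_cnt hi,
      hω.lt_arr_cnt x t⟩, fun h => ?_⟩
    obtain ⟨n, hn⟩ := mem_iUnion.1 h
    exact hn.1
  · exact Set.disjoint_left.2 fun ω h1 h2 => hij ((cnt_of_mem h1.2).symm.trans (cnt_of_mem h2.2))

lemma point {x : V} {t h : ℝ} (c : Bool) {A : Set Noise} (ht : 0 ≤ t) (hh : 0 ≤ h)
    (hA : Adapt x t A) (n : ℕ) (ω : Noise) :
    pairLaw {p | setPair ω x n p ∈ A ∩ RingC x t h c ∩ Cn x t n} =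
      ENNReal.ofReal ((1 - Real.exp (-h)) / 2) * pairLaw {p | setPair ω x n p ∈ A ∩ Cn x t n} := by
  by_cases hne : ∃ p0, setPair ω x n p0 ∈ A ∩ Cn x t n
  · obtain ⟨p0, hp0, hc0⟩ := hne
    set S := ∑ i ∈ Finset.range n, wait ω x i with hS
    have hpast : ∀ i, i < n → arrival ω x i ≤ t := fun i hi => by
      rw [← arrival_setPair_lt ω x p0 hi]; exact hc0.1 i hi
    have ha : 0 ≤ t - S := by
      cases n with
      | zero => simpa [hS] using ht
      | succ m => exact sub_nonneg.2 (hpast m (Nat.lt_succ_self m))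
    have hC : ∀ p, setPair ω x n p ∈ Cn x t n ↔ t - S < p.1 := by
      intro p
      constructor
      · intro hp
        have := hp.2
        rw [arrival_setPair] at this
        linarith
      · intro hp
        refine ⟨fun i hi => by rw [arrival_setPair_lt ω x p hi]; exact hpast i hi, ?_⟩
        rw [arrival_setPair]; linarith
    have hAp : ∀ p, setPair ω x n p ∈ Cn x t n → setPair ω x n p ∈ A := fun p hp =>
      hA n _ _ ⟨fun y hy => by rw [setPair_ne ω n p0 hy, setPair_ne ω n p hy],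
        by rw [setPair_fst, setPair_fst],
        fun i hi => by rw [setPair_of_ne ω x p0 hi.ne, setPair_of_ne ω x p hi.ne],
        hc0.2, hp.2⟩ hp0
    have e1 : {p | setPair ω x n p ∈ A ∩ Cn x t n} = {p : ℝ × Bool | t - S < p.1} := by
      ext p
      exact ⟨fun hp => (hC p).1 hp.2, fun hp => ⟨hAp p ((hC p).2 hp), (hC p).2 hp⟩⟩
    have e2 : {p | setPair ω x n p ∈ A ∩ RingC x t h c ∩ Cn x t n} =
        {p : ℝ × Bool | t - S < p.1 ∧ p.1 ≤ t - S + h ∧ p.2 = c} := by
      ext p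
      have key : setPair ω x n p ∈ Cn x t n →
          (setPair ω x n p ∈ RingC x t h c ↔ p.1 ≤ t - S + h ∧ p.2 = c) := by
        intro hp
        simp only [RingC, mem_ofPred_eq, cnt_of_mem hp, arrival_setPair, coin, setPair_self]
        exact and_congr ⟨fun h1 => by linarith, fun h1 => by linarith⟩ Iff.rfl
      exact ⟨fun hp => ⟨(hC p).1 hp.2, (key hp.2).1 hp.1.2⟩, fun hp =>
        ⟨⟨hAp p ((hC p).2 hp.1), (key ((hC p).2 hp.1)).2 hp.2⟩, (hC p).2 hp.1⟩⟩
    rw [e1, e2, pair_Ioi ha, pair_Ioc ha (by linarith),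
      ← ENNReal.ofReal_mul (by linarith [one_sub_exp_nonneg hh])]
    refine congrArg _ ?_
    rw [neg_add, Real.exp_add]
    ring
  · have e1 : {p | setPair ω x n p ∈ A ∩ Cn x t n} = ∅ :=
      eq_empty_of_forall_notMem fun p hp => hne ⟨p, hp⟩
    have e2 : {p | setPair ω x n p ∈ A ∩ RingC x t h c ∩ Cn x t n} = ∅ :=
      eq_empty_of_forall_notMem fun p hp => hne ⟨p, hp.1.1, hp.2⟩
    rw [e1, e2, measure_empty, mul_zero]

end G_MEM

theorem st_gmem (hr : St_GRES) (hg : St_GGOOD) : St_GMEM := by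
  intro ρ hρ x t h c A ht hh hA hAd
  rw [G_MEM.split (hg ρ hρ) x t (hA.inter (measurableSet_RingC x t h c)),
    G_MEM.split (hg ρ hρ) x t hA, ← ENNReal.tsum_mul_left]
  refine tsum_congr fun n => ?_
  rw [hr ρ hρ x n _ ((hA.inter (measurableSet_RingC x t h c)).inter (G_MEM.measurableSet_Cn x t n)),
    hr ρ hρ x n _ (hA.inter (G_MEM.measurableSet_Cn x t n)),
    ← lintegral_const_mul' _ _ ENNReal.ofReal_ne_top]
  exact lintegral_congr fun ω => G_MEM.point c ht hh hAd n ω

end Pool.Agent.BA
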