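import Pool.Agent.Lib.BA.GBasic

/-! Block G_PAST: the state at time `t` does not look at the future. -/

open MeasureTheory ProbabilityTheory Filter Topology Set

namespace Pool.Agent.BA

namespace G_PAST

variable {x : V} {t : ℝ} {n : ℕ} {ω ω' : Noise}

lemma spin_eq (h : Agree x t n ω ω') (y : V) : (ω y).1 = (ω' y).1 := by
  by_cases hy : y = x
  · rw [hy]; exact h.spin
  · rw [h.off y hy]

lemma pairs_eq (h : Agree x t n ω ω') {y : V} {k : ℕ} (hk : ∀ i, i < k + 1 → arrival ω y i ≤ t)
    (i : ℕ) (hi : i ≤ k) : (ω y).2 i = (ω' y).2 i := by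
  by_cases hy : y = x
  · subst hy
    refine h.pairs i (not_le.1 fun hn => ?_)
    exact absurd (hk n (by omega)) (not_le.2 h.lt)
  · rw [h.off y hy]

lemma inf_le (h : Agree x t n ω ω') {p : ℝ → Prop} (hp : ∀ a, t < a → p a) :
    sInf {k | p (arrival ω' x k)} ≤ sInf {k | p (arrival ω x k)} := by
  have h1 : sInf {k | p (arrival ω x k)} ∈ {k | p (arrival ω x k)} :=
    Nat.sInf_mem ⟨n, hp _ h.lt⟩
  by_cases hn : sInf {k | p (arrival ω x k)} < n
  · refine Nat.sInf_le ?_
    have h2 : arrival ω x (sInf {k | p (arrival ω x k)}) =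
        arrival ω' x (sInf {k | p (arrival ω x k)}) :=
      arrival_congr fun i hi => h.pairs i (lt_of_le_of_lt hi hn)
    show p (arrival ω' x _)
    rw [← h2]
    exact h1
  · exact (Nat.sInf_le (hp _ h.lt')).trans (not_lt.1 hn)

lemma cnt_eq' (h : Agree x t n ω ω') (y : V) : cnt ω y t = cnt ω' y t := by
  by_cases hy : y = x
  · subst hy
    exact le_antisymm (inf_le h.symm (p := fun a => t < a) fun _ ha => ha)
      (inf_le h (p := fun a => t < a) fun _ ha => ha)
  · exact cnt_congr (h.off y hy) t

lemma cntlt_eq' (h : Agree x t n ω ω') (y : V) {s : ℝ} (hs : s ≤ t) :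
    cntlt ω y s = cntlt ω' y s := by
  by_cases hy : y = x
  · subst hy
    exact le_antisymm (inf_le h.symm (p := fun a => s ≤ a) fun _ ha => hs.trans ha.le)
      (inf_le h (p := fun a => s ≤ a) fun _ ha => hs.trans ha.le)
  · exact cntlt_congr (h.off y hy) s

lemma valD_eq (h : Agree x t n ω ω') (d : ℕ) : ∀ (y : V) (j : ℕ),
    (∀ i, i < j → arrival ω y i ≤ t) → valD ω d y j = valD ω' d y j := by
  induction d with
  | zero => exact fun y _ _ => spin_eq h y
  | succ d ih =>
    intro y j hj
    cases j with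
    | zero => exact spin_eq h y
    | succ k =>
      have e1 : arrival ω y k = arrival ω' y k := arrival_congr (pairs_eq h hj)
      have e2 : coin ω y k = coin ω' y k := by
        unfold coin; rw [pairs_eq h hj k le_rfl]
      have e3 : arrival ω y k ≤ t := hj k (Nat.lt_succ_self k)
      show maj (fun z => valD ω d z (cntlt ω z (arrival ω y k))) y (coin ω y k) =
        maj (fun z => valD ω' d z (cntlt ω' z (arrival ω' y k))) y (coin ω' y k)
      rw [← e1, ← e2]
      refine maj_congr (fun z _ => ?_) _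
      show valD ω d z (cntlt ω z (arrival ω y k)) = valD ω' d z (cntlt ω' z (arrival ω y k))
      rw [← cntlt_eq' h z e3]
      exact ih z _ fun i hi => (arr_lt_of_lt_cntlt hi).le.trans e3

end G_PAST

open G_PAST in
theorem st_gpast : St_GPAST := by
  intro x t n ω ω' h
  funext y
  show valL ω y (cnt ω y t) = valL ω' y (cnt ω' y t)
  rw [← cnt_eq' h y]
  have e : ∀ d, valD ω d y (cnt ω y t) = valD ω' d y (cnt ω y t) := fun d =>
    valD_eq h d y _ fun i hi => arr_le_of_lt_cnt hi
  exact decide_eq_decide.2 (by simp only [e])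

end Pool.Agent.BA
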