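import Pool.Agent.Lib.BA.GBasic

/-! Pathwise form of one time step. -/

open MeasureTheory ProbabilityTheory Filter Topology Set

namespace Pool.Agent.BA

open Classical

namespace G_PATH

variable {ω : Noise} {x y : V} {t h : ℝ}

lemma cnt_still (hh : 0 ≤ h) (hx : ω ∉ Rings x t h) : cnt ω x (t + h) = cnt ω x t :=
  cnt_eq (not_le.1 hx) fun _ hi => (arr_le_of_lt_cnt hi).trans (le_add_of_nonneg_right hh)

lemma sig_still (hh : 0 ≤ h) (hx : ω ∉ Rings x t h) : sig ω (t + h) x = sig ω t x := by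
  simp only [sig, cnt_still hh hx]

lemma cnt_once (hg : Good0 ω) (hx : ω ∈ Rings x t h) (h2 : ω ∉ Ring2 x t h) :
    cnt ω x (t + h) = cnt ω x t + 1 :=
  cnt_eq (not_le.1 h2) fun _ hi => (hg.mono x (Nat.lt_succ_iff.1 hi)).trans hx

lemma cntlt_nbr (hg : Good0 ω) (hx : ω ∈ Rings x t h) (hy : ω ∉ Rings y t h) :
    cntlt ω y (arrival ω x (cnt ω x t)) = cnt ω y t :=
  cntlt_eq (le_trans hx (not_le.1 hy).le) fun _ hi =>
    (arr_le_of_lt_cnt hi).trans_lt (hg.lt_arr_cnt x t)

lemma sig_once (hg : Good0 ω) (hr : Rec ω) (hx : ω ∈ Rings x t h) (h2 : ω ∉ Ring2 x t h)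
    (hy : ∀ y ∈ nbrs x, ω ∉ Rings y t h) :
    sig ω (t + h) x = maj (sig ω t) x (coin ω x (cnt ω x t)) := by
  show valL ω x (cnt ω x (t + h)) = _
  rw [cnt_once hg hx h2, hr]
  exact maj_congr (fun y hy' => by rw [cntlt_nbr hg hx (hy y hy')]; rfl) _

end G_PATH

open G_PATH in
theorem st_gpath : St_GPATH := by
  intro ω S f t h hg hr hf hh h2
  by_cases hex : ∃ x ∈ S, ω ∈ Rings x t h
  · obtain ⟨x, hxS, hx⟩ := hex
    have hx' := subset_hull S hxS
    have hone : ∀ y ∈ hull S, y ≠ x → ω ∉ Rings y t h := fun y hy hne hc =>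
      h2 (Or.inr ⟨y, hy, x, hx', hne, hc, hx⟩)
    have hs := sig_once hg hr hx (fun hc => h2 (Or.inl ⟨x, hx', hc⟩)) fun y hy =>
      hone y (nbrs_subset_hull hxS hy) (ne_of_mem_nbrs hy)
    have e : f (sig ω (t + h)) = f (upd (sig ω t) x (coin ω x (cnt ω x t))) :=
      hf _ _ fun y hy => by
        by_cases hyx : y = x
        · rw [hyx, hs, upd, Function.update_self]
        · rw [sig_still hh (hone y (subset_hull S hy) hyx), upd, Function.update_of_ne hyx]
    rw [Finset.sum_eq_single x, Finset.sum_eq_single (coin ω x (cnt ω x t)), e]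
    · have : ω ∈ RingC x t h (coin ω x (cnt ω x t)) := ⟨hx, rfl⟩
      simp [ind, this]
    · intro c _ hc
      have : ω ∉ RingC x t h c := fun h1 => hc h1.2.symm
      simp [ind, this]
    · simp
    · intro y hy hne
      refine Finset.sum_eq_zero fun c _ => ?_
      have : ω ∉ RingC y t h c := fun h1 => hone y (subset_hull S hy) hne h1.1
      simp [ind, this]
    · exact fun h1 => absurd hxS h1
  · have e : f (sig ω (t + h)) = f (sig ω t) :=
      hf _ _ fun y hy => sig_still hh fun hc => hex ⟨y, hy, hc⟩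
    rw [e, sub_self]
    refine (Finset.sum_eq_zero fun y hy => Finset.sum_eq_zero fun c _ => ?_).symm
    have : ω ∉ RingC y t h c := fun h1 => hex ⟨y, hy, h1.1⟩
    simp [ind, this]

end Pool.Agent.BA
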