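import Pool.Agent.Lib.BA.GBasic

/-! Block G_TWO: two rings in a short interval. -/

open MeasureTheory ProbabilityTheory Filter Topology Set

namespace Pool.Agent.BA

namespace G_TWO

lemma part1 (hm : St_GMEM) {ρ : ℝ} (hρ : ρ ∈ Icc (0 : ℝ) 1) {t h : ℝ} (ht : 0 ≤ t) (hh : 0 ≤ h) (F : Finset V) :
    law ρ (⋂ x ∈ F, Rings x t h) ≤ ENNReal.ofReal (h ^ F.card) := by
  have := prob_law hρ
  induction F using Finset.induction_on with
  | empty => simp
  | insert x F hx ih =>
    have hA : MeasurableSet (⋂ y ∈ F, Rings y t h) :=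
      Finset.measurableSet_biInter _ fun y _ => measurableSet_Rings y t h
    have hD : Adapt x t (⋂ y ∈ F, Rings y t h) := fun n ω ω' hag hω => by
      refine mem_iInter₂.2 fun y hy => ?_
      have e := hag.off y fun e => hx (e ▸ hy)
      have h1 : arrival ω y (cnt ω y t) ≤ t + h := mem_iInter₂.1 hω y hy
      rw [cnt_congr e, arrival_congr fun i _ => by rw [e]] at h1
      exact h1
    rw [Finset.set_biInter_insert, inter_comm, Rings_eq x, inter_union_distrib_left, Finset.card_insert_of_notMem hx,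
      pow_succ', ENNReal.ofReal_mul hh]
    refine (measure_union_le _ _).trans ?_
    have h0 := one_sub_exp_nonneg hh
    rw [hm ρ hρ x t h true _ ht hh hA hD, hm ρ hρ x t h false _ ht hh hA hD, ← add_mul,
      ← ENNReal.ofReal_add (by positivity) (by positivity), add_halves]
    exact mul_le_mul' (ENNReal.ofReal_le_ofReal (one_sub_exp_le h)) ih

/-- ring number `n` is the first one after `t` and comes before `t + h` -/
def B (x : V) (t h : ℝ) (n : ℕ) : Set Noise :=
  {ω | (∀ i, i < n → arrival ω x i ≤ t) ∧ t < arrival ω x n ∧ arrival ω x n ≤ t + h}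

lemma meas_B (x : V) (t h : ℝ) (n : ℕ) : MeasurableSet (B x t h n) := by
  have h1 : MeasurableSet {ω : Noise | ∀ i, i < n → arrival ω x i ≤ t} := by
    simp only [ofPred_forall]
    exact MeasurableSet.iInter fun i => MeasurableSet.iInter fun _ =>
      measurableSet_le (measurable_arrival x i) measurable_const
  exact h1.inter ((measurableSet_lt measurable_const (measurable_arrival x n)).inter
    (measurableSet_le (measurable_arrival x n) measurable_const))

lemma B_cnt {x : V} {t h : ℝ} {n : ℕ} {ω : Noise} (hω : ω ∈ B x t h n) : cnt ω x t = n := cnt_eq hω.2.1 hω.1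

lemma B_set (x : V) (t h : ℝ) (n : ℕ) (ω : Noise) (p : ℝ × Bool) :
    setPair ω x (n + 1) p ∈ B x t h n ↔ ω ∈ B x t h n := by
  simp only [B, mem_ofPred_eq, arrival_setPair_lt ω x p (Nat.lt_succ_self n)]
  refine and_congr_left fun _ => forall₂_congr fun i hi => ?_
  rw [arrival_setPair_lt ω x p (by omega)]

lemma B_wait (hr : St_GRES) {ρ : ℝ} (hρ : ρ ∈ Icc (0 : ℝ) 1) (x : V) (t : ℝ) {h : ℝ} (hh : 0 ≤ h) (n : ℕ) :
    law ρ (B x t h n ∩ {ω | wait ω x (n + 1) ≤ h}) ≤ ENNReal.ofReal h * law ρ (B x t h n) := by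
  rw [hr ρ hρ x (n + 1) _ ((meas_B x t h n).inter (measurableSet_le (measurable_wait x _) measurable_const)),
    ← setLIntegral_const, ← lintegral_indicator (meas_B x t h n)]
  refine lintegral_mono fun ω => ?_
  by_cases hω : ω ∈ B x t h n
  · rw [indicator_of_mem hω]
    refine le_trans (measure_mono fun p hp => ?_)
      ((pair_Iic hh).le.trans (ENNReal.ofReal_le_ofReal (one_sub_exp_le h)))
    have h1 : ((setPair ω x (n + 1) p x).2 (n + 1)).1 ≤ h := hp.2
    rwa [setPair_self] at h1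
  · have : {p | setPair ω x (n + 1) p ∈ B x t h n ∩ {ω | wait ω x (n + 1) ≤ h}} = ∅ :=
      eq_empty_of_forall_notMem fun p hp => hω ((B_set x t h n ω p).1 hp.1)
    simp only [this, measure_empty, zero_le]

lemma ring2 (hr : St_GRES) (hg : St_GGOOD) (hm : St_GMEM) {ρ : ℝ} (hρ : ρ ∈ Icc (0 : ℝ) 1) (x : V) {t h : ℝ}
    (ht : 0 ≤ t) (hh : 0 ≤ h) : law ρ (Ring2 x t h) ≤ ENNReal.ofReal (h ^ 2) := by
  have h1 : Ring2 x t h ≤ᵐ[law ρ] (⋃ n, B x t h n ∩ {ω | wait ω x (n + 1) ≤ h} : Set Noise) := by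
    filter_upwards [hg ρ hρ] with ω hω h2
    have h3 : arrival ω x (cnt ω x t + 1) ≤ t + h := h2
    have h4 := hω.lt_arr_cnt x t
    have h5 := hω.pos x (cnt ω x t + 1)
    rw [arrival_succ] at h3
    exact mem_iUnion.2 ⟨cnt ω x t, ⟨fun i hi => arr_le_of_lt_cnt hi, h4, by linarith⟩,
      show wait ω x (cnt ω x t + 1) ≤ h by linarith⟩
  refine (measure_mono_ae h1).trans ((measure_iUnion_le _).trans
    ((ENNReal.tsum_le_tsum fun n => B_wait hr hρ x t hh n).trans ?_))
  rw [ENNReal.tsum_mul_left, ← measure_iUnion (fun i j hij => disjoint_left.2 fun ω a b =>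
    hij ((B_cnt a).symm.trans (B_cnt b))) (meas_B x t h), sq, ENNReal.ofReal_mul hh]
  refine mul_le_mul' le_rfl (le_trans (measure_mono (iUnion_subset fun n ω hω => ?_))
    (by simpa using part1 hm hρ ht hh {x}))
  change arrival ω x (cnt ω x t) ≤ t + h
  rw [B_cnt hω]
  exact hω.2.2

end G_TWO

open G_TWO in
theorem st_gtwo (hr : St_GRES) (hg : St_GGOOD) (hm : St_GMEM) : St_GTWO := by
  intro ρ hρ t h ht hh
  refine ⟨part1 hm hρ ht hh, fun S => ?_⟩
  have h1 : law ρ (⋃ x ∈ S, Ring2 x t h) ≤ ∑ _x ∈ S, ENNReal.ofReal (h ^ 2) :=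
    (measure_biUnion_finset_le _ _).trans (Finset.sum_le_sum fun x _ => ring2 hr hg hm hρ x ht hh)
  have h2 : law ρ (⋃ x ∈ S, ⋃ y ∈ S.erase x, (Rings x t h ∩ Rings y t h)) ≤
      ∑ x ∈ S, ∑ _y ∈ S.erase x, ENNReal.ofReal (h ^ 2) := by
    refine (measure_biUnion_finset_le _ _).trans (Finset.sum_le_sum fun x _ =>
      (measure_biUnion_finset_le _ _).trans (Finset.sum_le_sum fun y hy => ?_))
    have := part1 hm hρ ht hh {x, y}
    rwa [Finset.set_biInter_insert, Finset.set_biInter_singleton,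
      Finset.card_pair (Finset.ne_of_mem_erase hy).symm] at this
  rw [Two_eq]
  refine (measure_union_le _ _).trans ((add_le_add h1 h2).trans (le_of_eq ?_))
  rw [← Finset.sum_add_distrib, Finset.sum_congr rfl fun x hx =>
    Finset.add_sum_erase S (fun _ => ENNReal.ofReal (h ^ 2)) hx, Finset.sum_const, Finset.sum_const,
    ENNReal.ofReal_mul (by positivity), nsmul_eq_mul, nsmul_eq_mul, ← mul_assoc, ← sq,
    ENNReal.ofReal_pow (Nat.cast_nonneg _), ENNReal.ofReal_natCast]

end Pool.Agent.BA
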