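import Pool.Agent.Lib.BA.GBasic

open MeasureTheory ProbabilityTheory Filter Topology Set

namespace Pool.Agent.BA

namespace G_WF

variable {ω : Noise}

lemma dep_zero (d : ℕ) (x : V) : Dep ω d x 0 := by
  cases d <;> simp [Dep]

lemma dep_succ (d : ℕ) : ∀ (x : V) (k : ℕ), Dep ω d x k → Dep ω (d + 1) x k := by
  induction d with
  | zero =>
    intro x k h
    cases k with
    | zero => exact dep_zero _ _
    | succ k => simp [Dep] at h
  | succ d ih =>
    intro x k h
    cases k with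
    | zero => exact dep_zero _ _
    | succ k =>
      rw [Dep] at h ⊢
      exact fun y hy => ih _ _ (h y hy)

lemma dep_mono {d d' : ℕ} (hd : d ≤ d') {x : V} {k : ℕ} (h : Dep ω d x k) : Dep ω d' x k := by
  induction hd with
  | refl => exact h
  | step _ ih => exact dep_succ _ _ _ ih

/-- the recursion from ring `k` of `x` does not terminate -/
def NT (ω : Noise) (x : V) (k : ℕ) : Prop := ∀ d, ¬ Dep ω d x (k + 1)

lemma bad_of {x : V} {k : ℕ} (h : ∀ d, ¬ Dep ω d x k) : ∃ j, k = j + 1 ∧ NT ω x j := by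
  cases k with
  | zero => exact absurd (dep_zero 0 x) (h 0)
  | succ k => exact ⟨k, rfl, h⟩

lemma NT.step {x : V} {k : ℕ} (h : NT ω x k) :
    ∃ y ∈ nbrs x, ∃ j, NT ω y j ∧ arrival ω y j < arrival ω x k := by
  have h1 : ∃ y ∈ nbrs x, ∀ d, ¬ Dep ω d y (cntlt ω y (arrival ω x k)) := by
    by_contra hc
    push Not at hc
    choose! D hD using hc
    refine h ((nbrs x).sup D + 1) ?_
    rw [Dep]
    exact fun y hy => dep_mono (Finset.le_sup hy) (hD y hy)
  obtain ⟨y, hy, h2⟩ := h1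
  obtain ⟨j, h3, h4⟩ := bad_of h2
  exact ⟨y, hy, j, h4, arr_lt_of_lt_cntlt (by omega)⟩

end G_WF

open G_WF in
theorem st_gwf : St_GWF := by
  classical
  intro ω hG hN
  by_contra hT
  unfold Term at hT
  push Not at hT
  obtain ⟨x0, k0, h0⟩ := hT
  obtain ⟨j0, -, hj0⟩ := bad_of h0
  have hex : ∃ m : ℕ, ∃ x k, NT ω x k ∧ arrival ω x k ≤ (m : ℝ) / 8 + 1 / 8 := by
    obtain ⟨m, hm⟩ := exists_nat_ge (8 * arrival ω x0 j0)
    exact ⟨m, x0, j0, hj0, by linarith⟩
  set m := Nat.find hex with hm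
  have hlow : ∀ x k, NT ω x k → (m : ℝ) / 8 < arrival ω x k := by
    intro x k h
    rcases Nat.eq_zero_or_pos m with e | e
    · rw [e]; simpa using hG.arr_pos x k
    · obtain ⟨n, hn⟩ : ∃ n, m = n + 1 := ⟨m - 1, by omega⟩
      have h1 := Nat.find_min hex (m := n) (by omega)
      by_contra hc
      refine h1 ⟨x, k, h, ?_⟩
      rw [hn] at hc
      push_cast at hc
      linarith [not_lt.1 hc]
  let P : V → Set ℕ := fun x => {k | NT ω x k ∧ arrival ω x k ≤ (m : ℝ) / 8 + 1 / 8}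
  let f : V → ℝ := fun x => arrival ω x (sInf (P x))
  have hstep : ∀ x : {x // (P x).Nonempty}, ∃ y : {x // (P x).Nonempty},
      y.1 ∈ nbrs x.1 ∧ f y.1 < f x.1 := by
    intro x
    obtain ⟨h1, h2⟩ := Nat.sInf_mem x.2
    obtain ⟨y, hy, j, h3, h4⟩ := h1.step
    have h5 : j ∈ P y := ⟨h3, h4.le.trans h2⟩
    exact ⟨⟨y, j, h5⟩, hy, (hG.mono y (Nat.sInf_le h5)).trans_lt h4⟩
  choose g hg hg' using hstep
  obtain ⟨x1, k1, h1⟩ := Nat.find_spec hex
  let p : ℕ → {x // (P x).Nonempty} := fun i => g^[i] ⟨x1, k1, h1⟩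
  have hp : ∀ i, p (i + 1) = g (p i) := fun i => Function.iterate_succ_apply' g i _
  have hanti : StrictAnti fun i => f (p i).1 :=
    strictAnti_nat_of_succ_lt fun i => by rw [hp]; exact hg' _
  obtain ⟨i, hi⟩ := hN m (fun i => (p i).1)
    (fun i j e => hanti.injective (congrArg f e)) fun i => by rw [hp]; exact hg _
  obtain ⟨k, h2, h3⟩ := (p i).2
  exact hi ((hG.mono _ (cnt_le (hlow _ k h2))).trans h3)

end Pool.Agent.BA
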