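import Pool.Agent.Lib.BA.G_RES
import Pool.Agent.Lib.BA.G_GOOD
import Pool.Agent.Lib.BA.G_MEM
import Pool.Agent.Lib.BA.G_TWO
import Pool.Agent.Lib.BA.G_HAR
import Pool.Agent.Lib.BA.G_WF
import Pool.Agent.Lib.BA.G_EXU
import Pool.Agent.Lib.BA.G_PAST
import Pool.Agent.Lib.BA.G_PATH
import Pool.Agent.Lib.BA.G_H2
import Pool.Agent.Lib.BA.G_FLOW
import Pool.Agent.Lib.BA.G_INIT
import Pool.Agent.Lib.BA.G_CLU

/-! Section G assembled. -/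

open MeasureTheory ProbabilityTheory Filter Topology Set

namespace Pool.Agent.BA

theorem g_two : St_GTWO := st_gtwo st_gres st_ggood (st_gmem st_gres st_ggood)

theorem g_unique {ρ : ℝ} (hρ : ρ ∈ Icc (0 : ℝ) 1) :
    ∀ᵐ ω ∂law ρ, ∀ s : ℝ → Cfg, IsGlauber ω s ↔ s = sig ω := by
  filter_upwards [st_ggood ρ hρ, st_ghar g_two ρ hρ] with ω h1 h2
  exact (st_gexu ω h1 (st_gwf ω h1 h2)).2

theorem g_flow {ρ : ℝ} (hρ : ρ ∈ Icc (0 : ℝ) 1) : Flow (mG ρ) :=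
  st_gflow (st_gh2 st_ggood (st_ghar g_two) st_gwf st_gexu st_gpast st_gpath
    (st_gmem st_gres st_ggood) g_two) ρ hρ

theorem g_init {ρ : ℝ} (hρ : ρ ∈ Icc (0 : ℝ) 1) : Init (mG ρ 0) := st_ginit st_ggood ρ hρ

/-- the final statement from the core theorem on solutions of the forward equation -/
theorem final_of_core
    (core : ∀ m : ℝ → (Cfg → ℝ) → ℝ, Flow m → Init (m 0) →
      Tendsto (fun t => m t fe) atTop (𝓝 0) ∧ ∀ t, 0 ≤ t → St (m t))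
    (ρ : ℝ) (hρ : ρ ∈ Icc (0 : ℝ) 1) :
    ∃ σ : Noise → ℝ → Cfg,
      (∀ᵐ ω ∂law ρ, ∀ s : ℝ → Cfg, IsGlauber ω s ↔ s = σ ω) ∧
      (∀ t, Measurable fun ω => σ ω t) ∧
      ∀ Λ : Finset V,
        Tendsto (fun t => law ρ {ω | ∀ x ∈ Λ, ∀ y ∈ Λ, σ ω t x = σ ω t y}) atTop (𝓝 1) :=
  ⟨sig, g_unique hρ, measurable_sig, cluster_of_energy hρ (core _ (g_flow hρ) (g_init hρ)).1
    (core _ (g_flow hρ) (g_init hρ)).2⟩

end Pool.Agent.BA
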