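import Pool.Agent.Lib.BA.GBasic

open MeasureTheory ProbabilityTheory Filter Topology Set

namespace Pool.Agent.BA

namespace G_RES

lemma mp_update {ι X : Type*} [DecidableEq ι] [MeasurableSpace X] (μ : Measure X)
    [IsProbabilityMeasure μ] (i : ι) :
    MeasurePreserving (fun q : (ι → X) × X => Function.update q.1 i q.2)
      ((Measure.infinitePi fun _ : ι => μ).prod μ) (Measure.infinitePi fun _ : ι => μ) := by
  refine ⟨measurable_update', Measure.eq_infinitePi _ fun s t ht => ?_⟩
  rw [Measure.map_apply measurable_update' (MeasurableSet.pi s.countable_toSet fun j _ => ht j)]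
  by_cases hi : i ∈ s
  · have : (fun q : (ι → X) × X => Function.update q.1 i q.2) ⁻¹' (s : Set ι).pi t =
        ((s.erase i : Finset ι) : Set ι).pi t ×ˢ t i := by
      ext q
      simp only [mem_preimage, Set.mem_pi, Finset.mem_coe, mem_prod, Finset.mem_erase]
      constructor
      · intro h
        refine ⟨fun j hj => ?_, ?_⟩
        · have := h j hj.2
          rwa [Function.update_of_ne hj.1] at this
        · have := h i hi
          rwa [Function.update_self] at this
      · rintro ⟨h1, h2⟩ j hj
        by_cases hji : j = i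
        · subst hji; rwa [Function.update_self]
        · rw [Function.update_of_ne hji]; exact h1 j ⟨hji, hj⟩
    rw [this, Measure.prod_prod, Measure.infinitePi_pi _ fun j _ => ht j,
      Finset.prod_erase_mul _ _ hi]
  · have : (fun q : (ι → X) × X => Function.update q.1 i q.2) ⁻¹' (s : Set ι).pi t =
        (s : Set ι).pi t ×ˢ univ := by
      ext q
      simp only [mem_preimage, Set.mem_pi, Finset.mem_coe, mem_prod, mem_univ, and_true]
      refine forall₂_congr fun j hj => ?_
      rw [Function.update_of_ne (fun h : j = i => hi (h ▸ hj))]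
    rw [this, Measure.prod_prod, Measure.infinitePi_pi _ fun j _ => ht j, measure_univ, mul_one]

lemma mp_setPair {ρ : ℝ} (hρ : ρ ∈ Icc (0 : ℝ) 1) (x : V) (k : ℕ) :
    MeasurePreserving (fun q : Noise × (ℝ × Bool) => setPair q.1 x k q.2)
      ((law ρ).prod pairLaw) (law ρ) := by
  have := prob_bern hρ
  have := prob_siteLaw hρ
  have := prob_law hρ
  have hU : MeasurePreserving (fun q : Noise × (Bool × (ℕ → ℝ × Bool)) =>
      Function.update q.1 x q.2) ((law ρ).prod (siteLaw ρ)) (law ρ) := mp_update (siteLaw ρ) x
  have hg : MeasurePreserving _ ((siteLaw ρ).prod pairLaw) (siteLaw ρ) :=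
    ((MeasurePreserving.id (bern ρ)).prod (mp_update pairLaw k)).comp
      (measurePreserving_prodAssoc (bern ρ) (Measure.infinitePi fun _ : ℕ => pairLaw) pairLaw)
  have h1 := hU.prod (MeasurePreserving.id pairLaw)
  have h2 := hU.comp (((MeasurePreserving.id (law ρ)).prod hg).comp
    (measurePreserving_prodAssoc (law ρ) (siteLaw ρ) pairLaw))
  refine ⟨measurable_setPair x k, ?_⟩
  rw [← h1.map_eq, Measure.map_map (measurable_setPair x k) h1.measurable]
  refine Eq.trans ?_ h2.map_eq
  congr 1
  funext q
  simp only [setPair, Function.comp_apply, Prod.map_fst, Prod.map_snd, id_eq,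
    Function.update_self, Function.update_idem]
  rfl

end G_RES

theorem st_gres : St_GRES := by
  intro ρ hρ x k A hA
  have := prob_law hρ
  have h := G_RES.mp_setPair hρ x k
  rw [← h.measure_preimage hA.nullMeasurableSet, Measure.prod_apply (h.measurable hA)]
  rfl

end Pool.Agent.BA
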