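import Pool.Agent.Lib.BA.G_FIN
import Pool.Agent.Lib.BA.B_UNIQ

/-! Spin flip symmetry at density one half and the limit law. -/

open MeasureTheory ProbabilityTheory Filter Topology Set

namespace Pool.Agent.BA

namespace Flip

open Classical

/-- global spin flip -/
def gf : Fr := ⟨true, false, false, false⟩

lemma act_gf (σ : Cfg) (x : V) : act gf σ x = !σ x := by simp [act, gf, Fr.lin]

lemma half_mem : (1 / 2 : ℝ) ∈ Icc (0 : ℝ) 1 := ⟨by norm_num, by norm_num⟩

lemma bern_not : (bern (1 / 2)).map (fun b => !b) = bern (1 / 2) := by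
  refine Measure.ext_of_singleton fun b => ?_
  rw [Measure.map_apply (measurable_of_finite _) (measurableSet_singleton b), half_single]
  have : (fun c : Bool => !c) ⁻¹' {b} = {!b} := by ext c; cases b <;> cases c <;> simp
  rw [this, half_single]

lemma site_not : (siteLaw (1 / 2)).map (Prod.map (fun b => !b) id) = siteLaw (1 / 2) := by
  unfold siteLaw
  rw [← Measure.map_prod_map _ _ (measurable_of_finite _) measurable_id, bern_not, Measure.map_id]

lemma init_flip {f : Cfg → ℝ} (hf : Loc f) :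
    mG (1 / 2) 0 (fun σ => f (act gf σ)) = mG (1 / 2) 0 f := by
  have := prob_siteLaw half_mem
  obtain ⟨S, hS⟩ := hf
  have hm : Measurable (Prod.map (fun b : Bool => !b) (id : (ℕ → ℝ × Bool) → _)) :=
    (measurable_of_finite _).prodMap measurable_id
  have h1 : (law (1 / 2)).map (fun (ω : Noise) (x : V) => Prod.map (fun b => !b) id (ω x)) =
      law (1 / 2) := by
    rw [law_eq, Measure.infinitePi_map_pi _ fun _ => hm]
    simp only [site_not]
  rw [G_INIT.mG_zero st_ggood half_mem, G_INIT.mG_zero st_ggood half_mem]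
  conv_rhs => rw [← h1]
  have h2 : Measurable fun (ω : Noise) (x : V) => Prod.map (fun b : Bool => !b) id (ω x) :=
    measurable_pi_lambda _ fun x => hm.comp (measurable_pi_apply x)
  refine Eq.trans (integral_congr_ae (Eventually.of_forall fun ω => ?_)) (integral_map
    h2.aemeasurable (hS.measurable.comp G_INIT.meas_spin).aestronglyMeasurable).symm
  exact congrArg f (funext fun x => act_gf _ x)

lemma flip_sym (hapx : St_APX) {t : ℝ} (ht : 0 ≤ t) {f : Cfg → ℝ} (hf : Loc f) :
    mG (1 / 2) t (fun σ => f (act gf σ)) = mG (1 / 2) t f :=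
  UNIQB.uniq hapx (UNIQB.flow_cfg (g_flow half_mem) (act gf) (fun x => (Loc.eval x).act gf)
    fun f σ => gen_act f gf σ) (g_flow half_mem) (fun _ hf => init_flip hf) ht hf

lemma meas (Λ : Finset V) (b : Bool) (t : ℝ) : MeasurableSet {ω | ∀ x ∈ Λ, sig ω t x = b} := by
  have e : {ω | ∀ x ∈ Λ, sig ω t x = b} = ⋂ x ∈ Λ, {ω | sig ω t x = b} := by ext ω; simp
  rw [e]
  exact Finset.measurableSet_biInter _ fun x _ =>
    measurableSet_eq_fun ((measurable_pi_apply x).comp (measurable_sig t)) measurable_const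

lemma real_eq (ρ : ℝ) (Λ : Finset V) (b : Bool) (t : ℝ) :
    (law ρ).real {ω | ∀ x ∈ Λ, sig ω t x = b} = mG ρ t fun σ => ind (∀ x ∈ Λ, σ x = b) := by
  rw [mG, ← integral_indicator_one (meas Λ b t)]
  refine integral_congr_ae (Eventually.of_forall fun ω => ?_)
  simp only [Set.indicator, ind, mem_ofPred_eq, Pi.one_apply]
  split_ifs <;> rfl

lemma sym (hapx : St_APX) (Λ : Finset V) (b : Bool) {t : ℝ} (ht : 0 ≤ t) :
    law (1 / 2) {ω | ∀ x ∈ Λ, sig ω t x = !b} = law (1 / 2) {ω | ∀ x ∈ Λ, sig ω t x = b} := by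
  have := prob_law half_mem
  rw [← ofReal_measureReal (measure_ne_top _ _), ← ofReal_measureReal (measure_ne_top _ _),
    real_eq, real_eq, ← flip_sym hapx ht (Loc.ball Λ fun x _ => Loc.evalEq x b).ind]
  refine congrArg _ (congrArg _ (funext fun σ => ind_congr ?_))
  refine forall₂_congr fun x _ => ?_
  rw [act_gf]
  cases σ x <;> cases b <;> simp

end Flip

open Flip in
/-- at density one half each constant state on a nonempty finite set has limit probability one half -/
theorem half_limit (hapx : St_APX) (Λ : Finset V) (hΛ : Λ.Nonempty)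
    (h : Tendsto (fun t => law (1 / 2) {ω | ∀ x ∈ Λ, ∀ y ∈ Λ, sig ω t x = sig ω t y}) atTop (𝓝 1))
    (b : Bool) :
    Tendsto (fun t => law (1 / 2) {ω | ∀ x ∈ Λ, sig ω t x = b}) atTop (𝓝 (1 / 2)) := by
  obtain ⟨z, hz⟩ := hΛ
  refine (ENNReal.Tendsto.div_const h (Or.inl one_ne_zero) (b := 2)).congr' ?_
  filter_upwards [eventually_ge_atTop 0] with t ht
  have e : {ω | ∀ x ∈ Λ, ∀ y ∈ Λ, sig ω t x = sig ω t y} =
      {ω | ∀ x ∈ Λ, sig ω t x = b} ∪ {ω | ∀ x ∈ Λ, sig ω t x = !b} := by
    ext ω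
    simp only [mem_union, mem_ofPred_eq]
    constructor
    · intro H
      by_cases hb : sig ω t z = b
      · exact Or.inl fun x hx => (H x hx z hz).trans hb
      · exact Or.inr fun x hx => (H x hx z hz).trans (Bool.eq_not_iff.2 hb)
    · rintro (H | H) x hx y hy <;> rw [H x hx, H y hy]
  have hd : Disjoint {ω | ∀ x ∈ Λ, sig ω t x = b} {ω | ∀ x ∈ Λ, sig ω t x = !b} :=
    Set.disjoint_left.2 fun ω h1 h2 => by
      have := (h1 z hz).symm.trans (h2 z hz)
      simp at this
  rw [e, measure_union hd (meas Λ _ t), sym hapx Λ b ht, ← two_mul, mul_comm, mul_div_assoc,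
    ENNReal.div_self two_ne_zero ENNReal.ofNat_ne_top, mul_one]

end Pool.Agent.BA
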