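import Mathlib

/-! Zero-temperature Glauber dynamics on the square lattice: the model (Poisson clocks, fair coins). -/

open MeasureTheory ProbabilityTheory Filter Topology

namespace Pool.Agent.BA

/-- Sites of the square lattice. -/
abbrev V := ℤ × ℤ

/-- Spin configurations: `true` is the spin plus, `false` is the spin minus. -/
abbrev Cfg := V → Bool

/-- The four nearest neighbours of a site. -/
def nbrs (x : V) : Finset V := {x + (1, 0), x + (-1, 0), x + (0, 1), x + (0, -1)}

/-- Majority value among the four neighbours of `x`; the coin `c` decides a 2-2 tie. -/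
def maj (σ : Cfg) (x : V) (c : Bool) : Bool :=
  if 2 < ((nbrs x).filter fun y => σ y = true).card then true
  else if ((nbrs x).filter fun y => σ y = true).card < 2 then false else c

/-- Bernoulli law on spins: plus with probability `p`. -/
noncomputable def bern (p : ℝ) : Measure Bool :=
  ENNReal.ofReal p • Measure.dirac true + ENNReal.ofReal (1 - p) • Measure.dirac false

/-- Randomness: each site has an initial spin and a sequence of pairs (waiting time, coin). -/
abbrev Noise := V → Bool × (ℕ → ℝ × Bool)

/-- Initial spins Bernoulli(`ρ`), waiting times exponential of rate one, coins fair, all independent. -/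
noncomputable def law (ρ : ℝ) : Measure Noise :=
  Measure.infinitePi fun _ : V =>
    (bern ρ).prod (Measure.infinitePi fun _ : ℕ => (expMeasure 1).prod (bern (1 / 2)))

/-- Time of ring number `k` (counted from zero) of the Poisson clock at `x`. -/
noncomputable def arrival (ω : Noise) (x : V) (k : ℕ) : ℝ := ∑ i ∈ Finset.range (k + 1), ((ω x).2 i).1

/-- `σ` follows the dynamics driven by `ω`: `x` keeps its initial spin until its first ring, and from
ring `k` to ring `k + 1` it holds the majority value of its neighbours just before ring `k`. -/
def IsGlauber (ω : Noise) (σ : ℝ → Cfg) : Prop :=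
  ∀ x, (∀ t, t < arrival ω x 0 → σ t x = (ω x).1) ∧
    ∀ k t, arrival ω x k ≤ t → t < arrival ω x (k + 1) →
      ∀ᶠ s in 𝓝[<] arrival ω x k, σ t x = maj (σ s) x ((ω x).2 k).2

end Pool.Agent.BA
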