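import Pool.Agent.Lib.BA.H69Flip

/-! Monotonicity in the initial density. -/

open MeasureTheory ProbabilityTheory Filter Topology Set

namespace Pool.Agent.BA

namespace Mono

lemma maj_mono {σ σ' : Cfg} (h : ∀ y, σ y = true → σ' y = true) (x : V) (c : Bool)
    (H : maj σ x c = true) : maj σ' x c = true := by
  have hc : ((nbrs x).filter fun y => σ y = true).card ≤ ((nbrs x).filter fun y => σ' y = true).card :=
    Finset.card_le_card (Finset.monotone_filter_right _ fun y _ hy => h y hy)
  unfold maj at H ⊢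
  split_ifs at H ⊢ <;> first | rfl | omega

lemma valD_mono {ω ω' : Noise} (h1 : ∀ x, (ω x).1 = true → (ω' x).1 = true)
    (h2 : ∀ x, (ω x).2 = (ω' x).2) (d : ℕ) :
    ∀ x k, valD ω d x k = true → valD ω' d x k = true := by
  have ha : ∀ x k, arrival ω x k = arrival ω' x k := fun x k => by simp only [arrival, h2]
  induction d with
  | zero => intro x k; exact h1 x
  | succ d ih =>
    intro x k
    cases k with
    | zero => exact h1 x
    | succ k =>
      intro H
      have e1 : coin ω x k = coin ω' x k := by simp only [coin, h2]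
      have e2 : ∀ y s, cntlt ω y s = cntlt ω' y s := fun y s => by simp only [cntlt, ha]
      change maj (fun y => valD ω d y (cntlt ω y (arrival ω x k))) x (coin ω x k) = true at H
      change maj (fun y => valD ω' d y (cntlt ω' y (arrival ω' x k))) x (coin ω' x k) = true
      rw [← e1, ← ha]
      exact maj_mono (fun y hy => by rw [← e2]; exact ih _ _ hy) x _ H

lemma sig_mono {ω ω' : Noise} (h1 : ∀ x, (ω x).1 = true → (ω' x).1 = true)
    (h2 : ∀ x, (ω x).2 = (ω' x).2) (t : ℝ) (x : V) (H : sig ω t x = true) : sig ω' t x = true := by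
  have ha : ∀ x k, arrival ω x k = arrival ω' x k := fun x k => by simp only [arrival, h2]
  have e : cnt ω x t = cnt ω' x t := by simp only [cnt, ha]
  simp only [sig, valL, decide_eq_true_eq] at H ⊢
  rw [← e]
  exact H.mono fun d hd => valD_mono h1 h2 d _ _ hd

/-- three point coupling of two Bernoulli laws -/
noncomputable def tri (p q : ℝ) : Measure (Fin 3) :=
  ENNReal.ofReal p • Measure.dirac 0 + ENNReal.ofReal (q - p) • Measure.dirac 1 +
    ENNReal.ofReal (1 - q) • Measure.dirac 2

lemma tri_lo {p q : ℝ} (hpq : p ≤ q) (hq : q ≤ 1) :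
    (tri p q).map (fun i => decide (i = 0)) = bern p := by
  have hm : Measurable fun i : Fin 3 => decide (i = 0) := measurable_of_finite _
  simp only [tri, bern, Measure.map_add _ _ hm, Measure.map_smul, Measure.map_dirac' hm]
  have : (1 - p) = (q - p) + (1 - q) := by ring
  rw [this, ENNReal.ofReal_add (by linarith) (by linarith), add_smul, add_assoc]
  rfl

lemma tri_hi {p q : ℝ} (hp : 0 ≤ p) (hpq : p ≤ q) :
    (tri p q).map (fun i => decide (i ≠ 2)) = bern q := by
  have hm : Measurable fun i : Fin 3 => decide (i ≠ 2) := measurable_of_finite _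
  simp only [tri, bern, Measure.map_add _ _ hm, Measure.map_smul, Measure.map_dirac' hm]
  have : ENNReal.ofReal q = ENNReal.ofReal p + ENNReal.ofReal (q - p) := by
    rw [← ENNReal.ofReal_add hp (by linarith)]; congr 1; ring
  rw [this, add_smul]
  rfl

lemma prob_tri {p q : ℝ} (hp : 0 ≤ p) (hpq : p ≤ q) (hq : q ≤ 1) :
    IsProbabilityMeasure (tri p q) := by
  have := prob_bern (p := p) ⟨hp, hpq.trans hq⟩
  refine ⟨?_⟩
  have h := measure_univ (μ := bern p)
  rwa [← tri_lo hpq hq, Measure.map_apply (measurable_of_finite _) MeasurableSet.univ,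
    preimage_univ] at h

lemma law_map {μ : Measure (Fin 3)} [IsProbabilityMeasure μ] {p : ℝ} (φ : Fin 3 → Bool)
    (h : μ.map φ = bern p) :
    (Measure.infinitePi fun _ : V => μ.prod (Measure.infinitePi fun _ : ℕ => pairLaw)).map
      (fun ω x => Prod.map φ id (ω x)) = law p := by
  have hm : Measurable (Prod.map φ (id : (ℕ → ℝ × Bool) → _)) :=
    (measurable_of_finite _).prodMap measurable_id
  rw [law_eq, Measure.infinitePi_map_pi _ fun _ => hm]
  congr 1; funext x
  unfold siteLaw
  rw [← Measure.map_prod_map _ _ (measurable_of_finite _) measurable_id, h, Measure.map_id]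

/-- increasing events have larger probability at larger density -/
lemma law_mono {p q : ℝ} (hp : 0 ≤ p) (hpq : p ≤ q) (hq : q ≤ 1) {E F : Set Noise}
    (hE : MeasurableSet E) (hF : MeasurableSet F)
    (H : ∀ ω ω' : Noise, (∀ x, (ω x).1 = true → (ω' x).1 = true) → (∀ x, (ω x).2 = (ω' x).2) →
      (ω ∈ E → ω' ∈ E) ∧ (ω' ∈ F → ω ∈ F)) :
    law p E ≤ law q E ∧ law q F ≤ law p F := by
  have := prob_tri hp hpq hq
  have hm : ∀ φ : Fin 3 → Bool, Measurable fun (ω : V → Fin 3 × (ℕ → ℝ × Bool)) (x : V) =>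
      Prod.map φ id (ω x) := fun φ => measurable_pi_lambda _ fun x =>
    ((measurable_of_finite φ).prodMap measurable_id).comp (measurable_pi_apply x)
  rw [← law_map _ (tri_lo hpq hq), ← law_map _ (tri_hi hp hpq), Measure.map_apply (hm _) hE,
    Measure.map_apply (hm _) hE, Measure.map_apply (hm _) hF, Measure.map_apply (hm _) hF]
  have key := fun ω : V → Fin 3 × (ℕ → ℝ × Bool) =>
    H (fun x => Prod.map (fun i => decide (i = 0)) id (ω x))
      (fun x => Prod.map (fun i => decide (i ≠ 2)) id (ω x))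
      (fun x hx => by
        simp only [Prod.map_fst, decide_eq_true_eq] at hx ⊢
        rw [hx]; decide) fun x => rfl
  exact ⟨measure_mono fun ω => (key ω).1, measure_mono fun ω => (key ω).2⟩

end Mono

open Mono in
/-- the favoured constant state has lower limit probability at least one half -/
theorem half_le_liminf (hapx : St_APX)
    (h : ∀ Λ : Finset V,
      Tendsto (fun t => law (1 / 2) {ω | ∀ x ∈ Λ, ∀ y ∈ Λ, sig ω t x = sig ω t y}) atTop (𝓝 1))
    {ρ : ℝ} (hρ : ρ ∈ Icc (0 : ℝ) 1) (Λ : Finset V) :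
    (1 / 2 ≤ ρ → 1 / 2 ≤ liminf (fun t => law ρ {ω | ∀ x ∈ Λ, sig ω t x = true}) atTop) ∧
    (ρ ≤ 1 / 2 → 1 / 2 ≤ liminf (fun t => law ρ {ω | ∀ x ∈ Λ, sig ω t x = false}) atTop) := by
  have hH : ∀ t, ∀ ω ω' : Noise, (∀ x, (ω x).1 = true → (ω' x).1 = true) →
      (∀ x, (ω x).2 = (ω' x).2) →
      (ω ∈ {ω | ∀ x ∈ Λ, sig ω t x = true} → ω' ∈ {ω | ∀ x ∈ Λ, sig ω t x = true}) ∧
      (ω' ∈ {ω | ∀ x ∈ Λ, sig ω t x = false} → ω ∈ {ω | ∀ x ∈ Λ, sig ω t x = false}) := by
    intro t ω ω' h1 h2
    refine ⟨fun H x hx => sig_mono h1 h2 t x (H x hx), fun H x hx => ?_⟩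
    by_contra hc
    have := sig_mono h1 h2 t x (by simpa using hc)
    rw [H x hx] at this
    exact absurd this (by simp)
  have := prob_law hρ
  rcases Λ.eq_empty_or_nonempty with rfl | hΛ
  · simp
  refine ⟨fun h1 => ?_, fun h1 => ?_⟩
  · rw [← (half_limit hapx Λ hΛ (h Λ) true).liminf_eq]
    exact liminf_le_liminf (Eventually.of_forall fun t =>
      (law_mono (by norm_num) h1 hρ.2 (Flip.meas Λ true t) (Flip.meas Λ false t) (hH t)).1)
  · rw [← (half_limit hapx Λ hΛ (h Λ) false).liminf_eq]
    exact liminf_le_liminf (Eventually.of_forall fun t =>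
      (law_mono hρ.1 h1 (by norm_num) (Flip.meas Λ true t) (Flip.meas Λ false t) (hH t)).2)

end Pool.Agent.BA
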