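import Pool.Agent.Lib.BA.H69Flip
import Pool.Agent.Lib.BA.B_APX
import Pool.Agent.Lib.BA.B_OSC
import Pool.Agent.Lib.BA.B_EULER

/-! The spin at time `t` is a mixture of odd monotone functions of the initial spins, so its law is at
least as biased as the initial law. -/

open MeasureTheory Filter Topology Set

namespace Pool.Agent.BA

namespace OddB

open Classical

/-- expectation under the product law on the sites of a list -/
noncomputable def ex (p : ℝ) : List V → (Cfg → ℝ) → ℝ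
  | [], F => F fun _ => false
  | x :: l, F => p * ex p l (fun σ => F (Function.update σ x true)) +
      (1 - p) * ex p l (fun σ => F (Function.update σ x false))

/-- its derivative in the density -/
noncomputable def dex (p : ℝ) : List V → (Cfg → ℝ) → ℝ
  | [], _ => 0
  | x :: l, F => ex p l (fun σ => F (Function.update σ x true)) -
      ex p l (fun σ => F (Function.update σ x false)) +
      p * dex p l (fun σ => F (Function.update σ x true)) +
      (1 - p) * dex p l (fun σ => F (Function.update σ x false))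

lemma hasDeriv (p : ℝ) (l : List V) : ∀ F, HasDerivAt (fun q => ex q l F) (dex p l F) p := by
  induction l with
  | nil => intro F; exact hasDerivAt_const _ _
  | cons x l ih =>
    intro F
    have h1 := (hasDerivAt_id p).mul (ih fun σ => F (Function.update σ x true))
    have h2 := ((hasDerivAt_id p).const_sub 1).mul (ih fun σ => F (Function.update σ x false))
    refine (h1.add h2).congr_deriv ?_
    simp only [dex, id]; ring

lemma ex_mono {p : ℝ} (hp : p ∈ Icc (0 : ℝ) 1) (l : List V) :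
    ∀ F G : Cfg → ℝ, (∀ σ, F σ ≤ G σ) → ex p l F ≤ ex p l G := by
  induction l with
  | nil => intro F G h; exact h _
  | cons x l ih =>
    intro F G h
    exact add_le_add (mul_le_mul_of_nonneg_left (ih _ _ fun σ => h _) hp.1)
      (mul_le_mul_of_nonneg_left (ih _ _ fun σ => h _) (sub_nonneg.2 hp.2))

lemma ex_const (p c : ℝ) (l : List V) : ex p l (fun _ => c) = c := by
  induction l with
  | nil => rfl
  | cons x l ih => simp only [ex, ih]; ring

/-- pointwise order of configurations -/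
def Le (σ σ' : Cfg) : Prop := ∀ x, σ x = true → σ' x = true

/-- monotone Boolean function -/
def MB (F : Cfg → ℝ) : Prop := (∀ σ, F σ = 0 ∨ F σ = 1) ∧ ∀ σ σ', Le σ σ' → F σ ≤ F σ'

lemma le_update {σ σ' : Cfg} (h : Le σ σ') (x : V) {b b' : Bool} (hb : b = true → b' = true) :
    Le (Function.update σ x b) (Function.update σ' x b') := by
  intro y
  by_cases e : y = x
  · subst e; simpa using hb
  · simpa [e] using h y

lemma MB.upd {F : Cfg → ℝ} (h : MB F) (x : V) (b : Bool) :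
    MB fun σ => F (Function.update σ x b) :=
  ⟨fun _ => h.1 _, fun _ _ H => h.2 _ _ (le_update H x id)⟩

lemma MB.mem {F : Cfg → ℝ} (h : MB F) {p : ℝ} (hp : p ∈ Icc (0 : ℝ) 1) (l : List V) :
    0 ≤ ex p l F ∧ ex p l F ≤ 1 :=
  ⟨(ex_const p 0 l).ge.trans (ex_mono hp l _ _ fun σ => by rcases h.1 σ with e | e <;> simp [e]),
    (ex_mono hp l _ _ fun σ => by rcases h.1 σ with e | e <;> simp [e]).trans (ex_const p 1 l).le⟩

/-- Moore-Shannon inequality -/
lemma ms {p : ℝ} (hp : p ∈ Icc (0 : ℝ) 1) (l : List V) :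
    ∀ F, MB F → ex p l F * (1 - ex p l F) ≤ p * (1 - p) * dex p l F := by
  induction l with
  | nil => intro F h; rcases h.1 (fun _ => false) with e | e <;> simp [ex, dex, e]
  | cons x l ih =>
    intro F h
    have i1 := ih _ (h.upd x true)
    have i0 := ih _ (h.upd x false)
    have m1 := (h.upd x true).mem hp l
    have m0 := (h.upd x false).mem hp l
    have hle := ex_mono hp l _ _ fun σ =>
      h.2 _ _ (le_update (σ := σ) (fun _ => id) x (b := false) (b' := true) fun _ => rfl)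
    simp only [ex, dex]
    generalize ex p l (fun σ => F (Function.update σ x true)) = a at *
    generalize ex p l (fun σ => F (Function.update σ x false)) = b at *
    have hq : 0 ≤ 1 - p := sub_nonneg.2 hp.2
    have k1 := mul_le_mul_of_nonneg_left i1 hp.1
    have k0 := mul_le_mul_of_nonneg_left i0 hq
    have k2 : 0 ≤ p * (1 - p) * ((a - b) * (1 - (a - b))) :=
      mul_nonneg (mul_nonneg hp.1 hq) (mul_nonneg (by linarith) (by linarith))
    nlinarith

lemma phi_mono {F : Cfg → ℝ} (h : MB F) (l : List V) :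
    MonotoneOn (fun p => ex p l F) (Icc 0 1) := by
  refine monotoneOn_of_deriv_nonneg (convex_Icc 0 1)
    (fun p _ => (hasDeriv p l F).continuousAt.continuousWithinAt)
    (fun p _ => (hasDeriv p l F).differentiableAt.differentiableWithinAt) fun p hp => ?_
  rw [interior_Icc] at hp
  rw [(hasDeriv p l F).deriv]
  have h1 := ms ⟨hp.1.le, hp.2.le⟩ l F h
  have h2 := h.mem ⟨hp.1.le, hp.2.le⟩ l
  have h3 : 0 < p * (1 - p) := mul_pos hp.1 (sub_pos.2 hp.2)
  by_contra hn
  have := mul_neg_of_pos_of_neg h3 (not_le.1 hn)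
  nlinarith [mul_nonneg h2.1 (sub_nonneg.2 h2.2)]

lemma odds {F : Cfg → ℝ} (h : MB F) (l : List V) {a b : ℝ} (ha : 0 ≤ a) (hab : a ≤ b) (hb : b < 1)
    (h0 : 0 < ex a l F) :
    (1 - ex b l F) * b / (ex b l F * (1 - b)) ≤ (1 - ex a l F) * a / (ex a l F * (1 - a)) := by
  have hpos : ∀ p ∈ Icc a b, 0 < ex p l F := fun p hp =>
    h0.trans_le (phi_mono h l ⟨ha, hab.trans hb.le⟩ ⟨ha.trans hp.1, hp.2.trans hb.le⟩ hp.1)
  have hd : ∀ p ∈ Icc a b, HasDerivAt (fun q => (1 - ex q l F) * q / (ex q l F * (1 - q)))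
      ((ex p l F * (1 - ex p l F) - p * (1 - p) * dex p l F) / (ex p l F * (1 - p)) ^ 2) p := by
    intro p hp
    have hne : ex p l F * (1 - p) ≠ 0 := (mul_pos (hpos p hp) (by linarith [hp.2])).ne'
    have h1 := ((hasDeriv p l F).const_sub 1).mul (hasDerivAt_id p)
    have h2 := (hasDeriv p l F).mul ((hasDerivAt_id p).const_sub 1)
    refine (h1.div h2 hne).congr_deriv ?_
    simp only [Pi.mul_apply, id]
    congr 1; ring
  refine antitoneOn_of_deriv_nonpos (convex_Icc a b)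
    (fun p hp => (hd p hp).continuousAt.continuousWithinAt)
    (fun p hp => (hd p (interior_subset hp)).differentiableAt.differentiableWithinAt)
    (fun p hp => ?_) ⟨le_rfl, hab⟩ ⟨hab, le_rfl⟩ hab
  have hp' := interior_subset hp
  rw [(hd p hp').deriv]
  exact div_nonpos_of_nonpos_of_nonneg
    (sub_nonpos.2 (ms ⟨ha.trans hp'.1, hp'.2.trans hb.le⟩ l F h)) (sq_nonneg _)

lemma bias {F : Cfg → ℝ} (h : MB F) (l : List V) (hh : ex (1 / 2) l F = 1 / 2) {ρ : ℝ}
    (hρ : ρ ∈ Icc (0 : ℝ) 1) : (1 / 2 ≤ ρ → ρ ≤ ex ρ l F) ∧ (ρ ≤ 1 / 2 → ex ρ l F ≤ ρ) := by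
  have up : ∀ b, 1 / 2 ≤ b → b < 1 → b ≤ ex b l F := by
    intro b h1 h2
    have k := odds h l (by norm_num) h1 h2 (by rw [hh]; norm_num)
    have hp : 1 / 2 ≤ ex b l F := hh ▸ phi_mono h l ⟨by norm_num, by norm_num⟩ ⟨by linarith, h2.le⟩ h1
    rw [hh, div_le_iff₀ (mul_pos (by linarith) (by linarith))] at k
    norm_num at k
    nlinarith
  refine ⟨fun h1 => ?_, fun h1 => ?_⟩
  · refine le_of_forall_lt_imp_le_of_dense fun b hb => ?_
    rcases le_total (1 / 2) b with h2 | h2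
    · exact (up b h2 (hb.trans_le hρ.2)).trans
        (phi_mono h l ⟨by linarith, hb.le.trans hρ.2⟩ hρ hb.le)
    · exact h2.trans (hh ▸ phi_mono h l ⟨by norm_num, by norm_num⟩ hρ h1)
  · rcases (h.mem hρ l).1.eq_or_lt with h0 | h0
    · rw [← h0]; exact hρ.1
    · have k := odds h l hρ.1 h1 (by norm_num) h0
      rw [hh, le_div_iff₀ (mul_pos h0 (by linarith))] at k
      norm_num at k
      nlinarith

lemma link {m : (Cfg → ℝ) → ℝ} {p : ℝ} (hm : Pos m) (h1 : m (fun _ => 1) = 1) (hi : Init m)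
    (hx : ∀ x, m (fun σ => ind (σ x = true)) = p) (l : List V) :
    ∀ F : Cfg → ℝ, DepOn F l.toFinset → m F = ex p l F := by
  induction l with
  | nil =>
    intro F hF
    have : F = fun _ => F fun _ => false := funext fun σ => hF _ _ (by simp)
    rw [this, hm.const, h1, mul_one]; rfl
  | cons x l ih =>
    intro F hF
    have dep : ∀ b, DepOn (fun σ => F (Function.update σ x b)) (l.toFinset.erase x) := by
      intro b σ σ' h
      refine hF _ _ fun y hy => ?_
      by_cases e : y = x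
      · subst e; simp
      · simp only [Function.update_of_ne e]
        exact h y (Finset.mem_erase.2 ⟨e, by simpa [e] using hy⟩)
    have d1 : DepOn (fun σ : Cfg => ind (σ x = true)) {x} := fun σ σ' h => by
      simp only [h x (Finset.mem_singleton_self x)]
    have d0 : DepOn (fun σ : Cfg => 1 - ind (σ x = true)) {x} := fun σ σ' h => by
      simp only [h x (Finset.mem_singleton_self x)]
    have dj : Disjoint ({x} : Finset V) (l.toFinset.erase x) := by simp
    have e : m F = m fun σ => ind (σ x = true) * F (Function.update σ x true) +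
        (1 - ind (σ x = true)) * F (Function.update σ x false) := hm.congr fun σ => by
      have u : F (Function.update σ x (σ x)) = F σ := by rw [Function.update_eq_self]
      cases hσ : σ x
      · rw [hσ] at u; simp [ind, u]
      · rw [hσ] at u; simp [ind, u]
    rw [e, hm.add _ _ (d1.loc.mul (dep true).loc) (d0.loc.mul (dep false).loc),
      hi.indep _ _ _ _ d1 (dep true) dj, hi.indep _ _ _ _ d0 (dep false) dj,
      hm.sub (Loc.const 1) d1.loc, h1, hx, ih _ ((dep true).mono (Finset.erase_subset _ _)),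
      ih _ ((dep false).mono (Finset.erase_subset _ _))]
    rfl

lemma spin_zero {ρ : ℝ} (hρ : ρ ∈ Icc (0 : ℝ) 1) (x : V) :
    mG ρ 0 (fun σ => ind (σ x = true)) = ρ := by
  have := prob_siteLaw hρ
  have := prob_bern hρ
  have hm : MeasurableSet {ω : Noise | (ω x).1 = true} :=
    measurableSet_eq_fun (measurable_spin x) measurable_const
  rw [G_INIT.mG_zero st_ggood hρ]
  have e : ∫ ω, ind ((ω x).1 = true) ∂law ρ = (law ρ).real {ω | (ω x).1 = true} := by
    rw [← integral_indicator_one hm]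
    refine integral_congr_ae (Eventually.of_forall fun ω => ?_)
    simp only [Set.indicator, ind, mem_ofPred_eq, Pi.one_apply]
    split_ifs <;> rfl
  have hp : MeasurePreserving (fun ω : Noise => (ω x).1) (law ρ) (bern ρ) :=
    measurePreserving_fst.comp (measurePreserving_eval_infinitePi (fun _ : V => siteLaw ρ) x)
  have e2 := hp.measure_preimage (s := {true}) (measurableSet_singleton _).nullMeasurableSet
  rw [e, measureReal_def, show {ω : Noise | (ω x).1 = true} = (fun ω : Noise => (ω x).1) ⁻¹' {true}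
    from rfl, e2, bern_apply]
  simp [hρ.1]

/-- odd monotone maps with local coordinates -/
structure OM (Ψ : Cfg → Cfg) : Prop where
  loc : ∀ x, Loc fun σ => Ψ σ x
  mono : ∀ σ σ', Le σ σ' → Le (Ψ σ) (Ψ σ')
  odd : ∀ σ x, Ψ (act Flip.gf σ) x = !Ψ σ x

lemma base {ρ : ℝ} (hρ : ρ ∈ Icc (0 : ℝ) 1) (z : V) {Ψ : Cfg → Cfg} (h : OM Ψ) :
    (1 / 2 ≤ ρ → ρ ≤ mG ρ 0 fun σ => ind (Ψ σ z = true)) ∧
    (ρ ≤ 1 / 2 → (mG ρ 0 fun σ => ind (Ψ σ z = true)) ≤ ρ) := by
  have hl : Loc fun σ => ind (Ψ σ z = true) := ((h.loc z).comp (· = true)).ind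
  obtain ⟨S, hS⟩ := hl
  have hS' : DepOn (fun σ => ind (Ψ σ z = true)) S.toList.toFinset := by simpa using hS
  have lk : ∀ r ∈ Icc (0 : ℝ) 1, (mG r 0 fun σ => ind (Ψ σ z = true)) = ex r S.toList _ :=
    fun r hr => link ((g_flow hr).pos 0 le_rfl) ((g_flow hr).one 0 le_rfl) (g_init hr)
      (spin_zero hr) _ _ hS'
  have hMB : MB fun σ => ind (Ψ σ z = true) :=
    ⟨fun σ => by by_cases e : Ψ σ z = true <;> simp [ind, e], fun σ σ' H => ind_mono (h.mono _ _ H z)⟩
  rw [lk ρ hρ]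
  refine bias hMB _ ?_ hρ
  rw [← lk _ Flip.half_mem]
  have f1 := Flip.init_flip hS.loc
  have hP := (g_flow Flip.half_mem).pos 0 le_rfl
  have f2 : mG (1 / 2) 0 (fun σ => ind (Ψ (act Flip.gf σ) z = true)) =
      mG (1 / 2) 0 (fun σ => 1 - ind (Ψ σ z = true)) := hP.congr fun σ => by
    rw [h.odd]; cases Ψ σ z <;> simp [ind]
  rw [hP.sub (Loc.const 1) hS.loc, (g_flow Flip.half_mem).one 0 le_rfl] at f2
  linarith

/-- update of `x` breaking a tie by copying the neighbour `x + d` -/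
def cp (x d : V) (σ : Cfg) : Cfg := upd σ x (σ (x + d))

lemma maj_le {σ σ' : Cfg} (h : Le σ σ') (x : V) {c c' : Bool} (hc : c = true → c' = true)
    (H : maj σ x c = true) : maj σ' x c' = true := by
  have hk : ((nbrs x).filter fun y => σ y = true).card ≤ ((nbrs x).filter fun y => σ' y = true).card :=
    Finset.card_le_card (Finset.monotone_filter_right _ fun y _ hy => h y hy)
  unfold maj at H ⊢
  split_ifs at H ⊢ <;> first | rfl | omega | exact hc H

lemma maj_not (σ : Cfg) (x : V) (c : Bool) : maj (act Flip.gf σ) x (!c) = !maj σ x c := by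
  simp only [maj, card_filter_nbrs, Flip.act_gf]
  cases σ (x + (1, 0)) <;> cases σ (x + (-1, 0)) <;> cases σ (x + (0, 1)) <;>
    cases σ (x + (0, -1)) <;> cases c <;> rfl

lemma OM.cp {Ψ : Cfg → Cfg} (h : OM Ψ) (x d : V) : OM fun σ => cp x d (Ψ σ) := by
  refine ⟨fun y => ?_, fun σ σ' H => ?_, fun σ y => ?_⟩
  · refine Loc.cfg (f := fun σ => OddB.cp x d σ y) ?_ Ψ h.loc
    by_cases e : y = x
    · subst e
      simp only [OddB.cp, upd, Function.update_self]
      refine ⟨insert (y + d) (nbrs y), fun σ σ' H => ?_⟩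
      simp only [H _ (Finset.mem_insert_self _ _)]
      exact maj_congr (fun w hw => H w (Finset.mem_insert_of_mem hw)) _
    · simp only [OddB.cp, upd, Function.update_of_ne e]; exact Loc.eval y
  · exact le_update (h.mono _ _ H) x (maj_le (h.mono _ _ H) x (h.mono _ _ H _))
  · have e0 : Ψ (act Flip.gf σ) = act Flip.gf (Ψ σ) := funext fun w => by rw [h.odd, Flip.act_gf]
    rw [e0]
    by_cases e : y = x
    · subst e
      simp only [OddB.cp, upd, Function.update_self]
      rw [Flip.act_gf, maj_not]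
    · simp only [OddB.cp, upd, Function.update_of_ne e, Flip.act_gf]

lemma four (F : Cfg → ℝ) (σ : Cfg) (x : V) :
    rate σ x * (F (flp σ x) - F σ) = (F (cp x (1, 0) σ) + F (cp x (-1, 0) σ) + F (cp x (0, 1) σ) +
      F (cp x (0, -1) σ)) / 4 - F σ := by
  have h := sum_upd F σ x
  simp only [Fintype.sum_bool] at h
  have : F (cp x (1, 0) σ) + F (cp x (-1, 0) σ) + F (cp x (0, 1) σ) + F (cp x (0, -1) σ) =
      2 * (F (upd σ x true) + F (upd σ x false)) := by
    simp only [cp, upd, maj, card_filter_nbrs]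
    cases σ (x + (1, 0)) <;> cases σ (x + (-1, 0)) <;> cases σ (x + (0, 1)) <;>
      cases σ (x + (0, -1)) <;> simp <;> ring
  linarith

/-- lower bound of the mean after any odd monotone map -/
def Gd (m : (Cfg → ℝ) → ℝ) (c : ℝ) (F : Cfg → ℝ) : Prop :=
  Loc F ∧ ∀ Ψ, OM Ψ → c ≤ m fun σ => F (Ψ σ)

lemma Gd.eul {m : (Cfg → ℝ) → ℝ} (hm : Pos m) {c : ℝ} {F : Cfg → ℝ} (hF : Gd m c F) {h : ℝ}
    {S : Finset V} (h0 : 0 ≤ h) (h1 : h * S.card ≤ 1) : Gd m c (eul h S F) := by
  refine ⟨hF.1.add ((hF.1.genOn S).cmul h), fun Ψ hΨ => ?_⟩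
  have l0 := hF.1.cfg Ψ hΨ.loc
  have l1 := fun x d => hF.1.cfg _ (hΨ.cp x d).loc
  have g1 := fun x d => hF.2 _ (hΨ.cp x d)
  have lx : ∀ x, Loc fun σ => F (cp x (1, 0) (Ψ σ)) + F (cp x (-1, 0) (Ψ σ)) +
      F (cp x (0, 1) (Ψ σ)) + F (cp x (0, -1) (Ψ σ)) := fun x =>
    (((l1 x _).add (l1 x _)).add (l1 x _)).add (l1 x _)
  have e : (m fun σ => BA.eul h S F (Ψ σ)) = m fun σ => (1 - h * S.card) * F (Ψ σ) +
      h / 4 * ∑ x ∈ S, (F (cp x (1, 0) (Ψ σ)) + F (cp x (-1, 0) (Ψ σ)) +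
        F (cp x (0, 1) (Ψ σ)) + F (cp x (0, -1) (Ψ σ))) := hm.congr fun σ => by
    simp only [BA.eul, genOn, four, Finset.sum_sub_distrib, ← Finset.sum_div, Finset.sum_const,
      nsmul_eq_mul]
    ring
  rw [e, hm.add _ _ (l0.cmul _) ((Loc.sum S fun x _ => lx x).cmul _), hm.smul _ _ l0,
    hm.smul _ _ (Loc.sum S fun x _ => lx x), hm.sum S fun x _ => lx x]
  have s1 : ∑ x ∈ S, 4 * c ≤ ∑ x ∈ S, m fun σ => F (cp x (1, 0) (Ψ σ)) + F (cp x (-1, 0) (Ψ σ)) +
      F (cp x (0, 1) (Ψ σ)) + F (cp x (0, -1) (Ψ σ)) := Finset.sum_le_sum fun x _ => by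
    rw [hm.add _ _ (((l1 x _).add (l1 x _)).add (l1 x _)) (l1 x _),
      hm.add _ _ ((l1 x _).add (l1 x _)) (l1 x _), hm.add _ _ (l1 x _) (l1 x _)]
    linarith [g1 x (1, 0), g1 x (-1, 0), g1 x (0, 1), g1 x (0, -1)]
  simp only [Finset.sum_const, nsmul_eq_mul] at s1
  have s2 := mul_le_mul_of_nonneg_left (hF.2 Ψ hΨ) (sub_nonneg.2 h1)
  have s3 := mul_le_mul_of_nonneg_left s1 (show 0 ≤ h / 4 by positivity)
  nlinarith

lemma Gd.flow {m : ℝ → (Cfg → ℝ) → ℝ} (hm : Flow m) {c : ℝ} {f : Cfg → ℝ} {z : V}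
    (hf : DepOn f (boxAt z 0)) (hb : ∀ σ, |f σ| ≤ 1) (hG : Gd (m 0) c f) {t : ℝ} (ht : 0 ≤ t) :
    c ≤ m t f := by
  refine le_of_forall_pos_le_add fun ε hε => ?_
  obtain ⟨r, hr⟩ := ((UNIQB.tend (t * Real.exp (8 * t))).eventually
    (gt_mem_nhds (half_pos hε))).exists
  obtain ⟨C, hC, hE⟩ := st_euler (boxAt z (r + 1))
  set P : ℝ := (((2 * r + 1) ^ 2 : ℕ) : ℝ) with hP
  have hP0 : 0 ≤ P := Nat.cast_nonneg _
  obtain ⟨k, hk⟩ := exists_nat_gt (t * P + t ^ 2 * C / (ε / 2))
  have q1 : 0 ≤ t * P := by positivity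
  have q2 : 0 ≤ t ^ 2 * C / (ε / 2) := by positivity
  have hk0 : (0 : ℝ) < k := by linarith
  obtain ⟨h, h0, hh⟩ : ∃ h : ℝ, 0 ≤ h ∧ k * h = t := ⟨t / k, by positivity, by field_simp⟩
  have h1 : h * P ≤ 1 := le_of_mul_le_mul_left (by rw [← mul_assoc, hh]; linarith) hk0
  have h2 : t * (h * C) ≤ ε / 2 := by
    have : t ^ 2 * C ≤ k * (ε / 2) := (div_le_iff₀ (half_pos hε)).1 (by linarith)
    refine le_of_mul_le_mul_left ?_ hk0
    calc _ = k * h * t * C := by ring
      _ ≤ _ := by rw [hh, ← sq]; exact this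
  have h1' : h * (boxAt z r).card ≤ 1 := by rw [card_boxAt]; exact h1
  have I := APXB.iter st_osc (Nat.zero_le r) h0 h1' hf hb
  have key := hE m hm (fun i => (BA.eul h (boxAt z r))^[i] f) 1
    (Real.exp (8 * t) * ((2 * r + 3) ^ 2 / 2 ^ r)) h k h0 (fun i => (I i).1)
    (fun i => (I i).2.1) fun i hi σ => by
      rw [Function.iterate_succ_apply', BA.eul, add_sub_cancel_left, ← mul_sub, abs_mul,
        abs_of_nonneg h0]
      refine mul_le_mul_of_nonneg_left
        ((APXB.shell (by positivity) (I i).1 (I i).2.2 σ).trans ?_) h0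
      have a3 : (1 + 8 * h) ^ i ≤ Real.exp (8 * t) :=
        calc _ ≤ (1 + 8 * h) ^ k := pow_le_pow_right₀ (by linarith) hi.le
          _ ≤ Real.exp (8 * h) ^ k :=
            pow_le_pow_left₀ (by positivity) (by linarith [Real.add_one_le_exp (8 * h)]) k
          _ = _ := by rw [← Real.exp_nat_mul, ← hh]; congr 1; ring
      calc _ = (1 + 8 * h) ^ i * ((2 * r + 3) ^ 2 / 2 ^ r) := by ring
        _ ≤ _ := by gcongr
  have G : ∀ i, Gd (m 0) c ((BA.eul h (boxAt z r))^[i] f) := by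
    intro i
    induction i with
    | zero => exact hG
    | succ i ih => rw [Function.iterate_succ_apply']; exact ih.eul (hm.pos 0 le_rfl) h0 h1'
  have g := (G k).2 id ⟨Loc.eval, fun _ _ H => H, fun σ x => Flip.act_gf σ x⟩
  simp only [hh, Function.iterate_zero, id] at key g
  have := (abs_le.1 key).1
  change c ≤ m 0 ((BA.eul h (boxAt z r))^[k] f) at g
  nlinarith

end OddB

open OddB in
/-- the one-site law is at least as biased as the initial law -/
theorem spin_bias {ρ : ℝ} (hρ : ρ ∈ Icc (0 : ℝ) 1) (z : V) {t : ℝ} (ht : 0 ≤ t) :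
    (1 / 2 ≤ ρ → ρ ≤ mG ρ t fun σ => ind (σ z = true)) ∧
    (ρ ≤ 1 / 2 → 1 - ρ ≤ mG ρ t fun σ => ind (σ z = false)) := by
  have hz : z ∈ boxAt z 0 := by rw [mem_boxAt]; simp
  have hd : ∀ b, DepOn (fun σ : Cfg => ind (σ z = b)) (boxAt z 0) := fun b σ σ' h => by
    simp only [h z hz]
  have hb : ∀ b (σ : Cfg), |ind (σ z = b)| ≤ 1 := fun b σ => by
    rw [abs_of_nonneg (ind_nonneg _)]; exact ind_le_one _
  refine ⟨fun h => Gd.flow (g_flow hρ) (hd true) (hb true)
      ⟨(hd true).loc, fun Ψ hΨ => (base hρ z hΨ).1 h⟩ ht,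
    fun h => Gd.flow (g_flow hρ) (hd false) (hb false) ⟨(hd false).loc, fun Ψ hΨ => ?_⟩ ht⟩
  have hP := (g_flow hρ).pos 0 le_rfl
  have e : (mG ρ 0 fun σ => ind (Ψ σ z = false)) = mG ρ 0 fun σ => 1 - ind (Ψ σ z = true) :=
    hP.congr fun σ => by cases Ψ σ z <;> simp [ind]
  rw [e, hP.sub (Loc.const 1) ((hΨ.loc z).comp (· = true)).ind, (g_flow hρ).one 0 le_rfl]
  linarith [(base hρ z hΨ).2 h]

/-- from the one-site law to constant states -/
theorem le_liminf_const {ρ : ℝ} (hρ : ρ ∈ Icc (0 : ℝ) 1) (Λ : Finset V) (b : Bool) {c : ℝ}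
    (hc : c ≤ 1)
    (h : Tendsto (fun t => law ρ {ω | ∀ x ∈ Λ, ∀ y ∈ Λ, sig ω t x = sig ω t y}) atTop (𝓝 1))
    (h1 : ∀ z t, 0 ≤ t → c ≤ mG ρ t fun σ => ind (σ z = b)) :
    ENNReal.ofReal c ≤ liminf (fun t => law ρ {ω | ∀ x ∈ Λ, sig ω t x = b}) atTop := by
  have := prob_law hρ
  rcases Λ.eq_empty_or_nonempty with rfl | ⟨z, hz⟩
  · simpa using hc
  have h2 : Tendsto (fun t => ENNReal.ofReal c -
      (1 - law ρ {ω | ∀ x ∈ Λ, ∀ y ∈ Λ, sig ω t x = sig ω t y})) atTop (𝓝 (ENNReal.ofReal c)) := by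
    have h3 := ENNReal.Tendsto.sub (tendsto_const_nhds (x := (1 : ENNReal))) h (Or.inl ENNReal.one_ne_top)
    have h4 := ENNReal.Tendsto.sub (tendsto_const_nhds (x := ENNReal.ofReal c)) h3
      (Or.inl ENNReal.ofReal_ne_top)
    simpa using h4
  rw [← h2.liminf_eq]
  refine liminf_le_liminf ?_
  filter_upwards [eventually_ge_atTop 0] with t ht
  have hm : MeasurableSet {ω | ∀ x ∈ Λ, ∀ y ∈ Λ, sig ω t x = sig ω t y} := by
    have e : {ω | ∀ x ∈ Λ, ∀ y ∈ Λ, sig ω t x = sig ω t y} =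
        ⋂ x ∈ Λ, ⋂ y ∈ Λ, {ω | sig ω t x ≠ sig ω t y}ᶜ := by ext ω; simp
    rw [e]
    exact Finset.measurableSet_biInter _ fun x _ => Finset.measurableSet_biInter _ fun y _ =>
      (G_CLU.meas x y t).compl
  rw [tsub_le_iff_right, ← prob_compl_eq_one_sub hm]
  have e1 := Flip.real_eq ρ {z} b t
  simp only [Finset.mem_singleton, forall_eq] at e1
  refine (ENNReal.ofReal_le_of_le_toReal ((h1 z t ht).trans e1.ge)).trans
    ((measure_mono fun ω hω => ?_).trans (measure_union_le _ _))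
  by_cases H : ∀ x ∈ Λ, ∀ y ∈ Λ, sig ω t x = sig ω t y
  · exact Or.inl fun x hx => (H x hx z hz).trans hω
  · exact Or.inr H

end Pool.Agent.BA
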